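import Pool.Agent.Helper865.TAP.Defs


set_option autoImplicit false

open MeasureTheory Filter Topology Set Metric
open scoped ENNReal NNReal

namespace Pool.Agent.Helper865.TAP
namespace A1



variable {E : Type*} [NormedAddCommGroup E] [InnerProductSpace ℂ E] [FiniteDimensional ℂ E]

/-! ### helper lemmas -/

theorem a1_bound (b : ℂ) (hb : b.im ≠ 0) (t : ℝ) :
    ‖((t : ℂ) - b)⁻¹‖ ≤ ((1 + ‖b‖) / |b.im| + 1) * (1 + |t|)⁻¹ := by
  have h0 : 0 < |b.im| := abs_pos.mpr hb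
  have h1 : |b.im| ≤ ‖(t : ℂ) - b‖ := by
    have := Complex.abs_im_le_norm ((t : ℂ) - b)
    simpa using this
  have h2 : |t| - ‖b‖ ≤ ‖(t : ℂ) - b‖ := by
    have := norm_sub_norm_le (t : ℂ) b
    rwa [Complex.norm_real, Real.norm_eq_abs] at this
  have h3 : 0 < ‖(t : ℂ) - b‖ := h0.trans_le h1
  have h4 : 0 < 1 + |t| := by positivity
  rw [norm_inv, inv_le_comm₀ h3 (by positivity), mul_inv, inv_inv]
  have h5 : 1 + |t| ≤ ((1 + ‖b‖) / |b.im| + 1) * ‖(t : ℂ) - b‖ := by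
    have h6 : (1 + ‖b‖) ≤ (1 + ‖b‖) / |b.im| * ‖(t : ℂ) - b‖ := by
      rw [div_mul_eq_mul_div, le_div_iff₀ h0]
      exact mul_le_mul_of_nonneg_left h1 (by positivity)
    nlinarith
  rw [inv_mul_le_iff₀ (by positivity)]
  exact h5

theorem a1_cont (b : ℂ) (hb : b.im ≠ 0) : Continuous (fun t : ℝ => ((t : ℂ) - b)⁻¹) := by
  refine Continuous.inv₀ (by fun_prop) ?_
  intro t ht
  apply hb
  have := congrArg Complex.im ht
  simpa using this

theorem a1_memLp_scalar {p : ℝ≥0∞} (hp : 1 < p) : MemLp (fun t : ℝ => (1 + |t|)⁻¹) p volume := by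
  have hc : Continuous (fun t : ℝ => (1 + |t|)⁻¹) := by
    refine Continuous.inv₀ (by fun_prop) ?_
    intro t
    positivity
  rcases eq_or_ne p ∞ with rfl | hpt
  · refine memLp_top_of_bound hc.aestronglyMeasurable 1 (Eventually.of_forall fun t => ?_)
    rw [Real.norm_eq_abs, abs_of_nonneg (by positivity)]
    exact inv_le_one_of_one_le₀ (by linarith [abs_nonneg t])
  · have hp0 : p ≠ 0 := (zero_lt_one.trans hp).ne'
    rw [← integrable_norm_rpow_iff hc.aestronglyMeasurable hp0 hpt]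
    have h1 : (1 : ℝ) < p.toReal := by
      rw [← ENNReal.toReal_one]
      exact (ENNReal.toReal_lt_toReal (by simp) hpt).mpr hp
    have h2 : Integrable (fun t : ℝ => (1 + ‖t‖) ^ (-p.toReal)) volume := by
      apply integrable_one_add_norm
      simpa using h1
    refine h2.congr (Eventually.of_forall fun t => ?_)
    have ht : 0 < 1 + |t| := by positivity
    have ht2 : |(1 + |t|)⁻¹| = (1 + |t|)⁻¹ := abs_of_nonneg (by positivity)
    simp only [Real.norm_eq_abs]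
    rw [ht2, Real.rpow_neg ht.le, Real.inv_rpow ht.le]

theorem a1_memLp {p : ℝ≥0∞} (hp : 1 < p) (b : ℂ) (hb : b.im ≠ 0) :
    MemLp (fun t : ℝ => ((t : ℂ) - b)⁻¹) p volume := by
  refine MemLp.of_le_mul (a1_memLp_scalar hp) (a1_cont b hb).aestronglyMeasurable
    (c := (1 + ‖b‖) / |b.im| + 1) (Eventually.of_forall fun t => ?_)
  rw [Real.norm_eq_abs, abs_of_nonneg (by positivity : (0:ℝ) ≤ (1 + |t|)⁻¹)]
  exact a1_bound b hb t

theorem a1_memLp_smul {p : ℝ≥0∞} (hp : 1 < p) (b : ℂ) (hb : b.im ≠ 0) (e : E) :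
    MemLp (fun t : ℝ => ((t : ℂ) - b)⁻¹ • e) p volume := by
  refine MemLp.of_le_mul (a1_memLp hp b hb) ((a1_cont b hb).smul continuous_const).aestronglyMeasurable
    (c := ‖e‖) (Eventually.of_forall fun t => ?_)
  rw [norm_smul, mul_comm]

/-- Cauchy kernels with pole in the upper half-plane belong to every `Hm p`, `1 < p`. -/
theorem cauchy_Hm
    (h1 : ∀ a b : ℂ, 0 < a.im → 0 < b.im →
      ∫ t : ℝ, (((t : ℂ) - a)⁻¹ * ((t : ℂ) - b)⁻¹) = 0)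
    {p : ℝ≥0∞} (hp : 1 < p) (b : ℂ) (hb : 0 < b.im) (e : E) :
    Hm p (fun t : ℝ => ((t : ℂ) - b)⁻¹ • e) := by
  have := FiniteDimensional.complete ℂ E
  refine ⟨a1_memLp_smul hp b hb.ne' e, fun a ha => ?_⟩
  simp only [smul_smul]
  rw [integral_smul_const, h1 a b ha hb, zero_smul]

theorem cauchy_Hp
    (h2 : ∀ a b : ℂ, a.im < 0 → b.im < 0 →
      ∫ t : ℝ, (((t : ℂ) - a)⁻¹ * ((t : ℂ) - b)⁻¹) = 0)
    {p : ℝ≥0∞} (hp : 1 < p) (b : ℂ) (hb : b.im < 0) (e : E) :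
    Hp p (fun t : ℝ => ((t : ℂ) - b)⁻¹ • e) := by
  have := FiniteDimensional.complete ℂ E
  refine ⟨a1_memLp_smul hp b hb.ne e, fun a ha => ?_⟩
  simp only [smul_smul]
  rw [integral_smul_const, h2 a b ha hb, zero_smul]

/-- the inner product of a Cauchy kernel with a function -/
theorem a1_inner (b : ℂ) (hb : b.im ≠ 0) (e : E) {f : ℝ → E} (hf : MemLp f 2 volume) :
    ∫ t : ℝ, inner ℂ (((t : ℂ) - b)⁻¹ • e) (f t) =
      inner ℂ e (∫ t : ℝ, ((t : ℂ) - (starRingEnd ℂ) b)⁻¹ • f t) := by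
  have := FiniteDimensional.complete ℂ E
  have hb' : ((starRingEnd ℂ) b).im ≠ 0 := by simpa using hb
  have hint : Integrable (fun t : ℝ => ((t : ℂ) - (starRingEnd ℂ) b)⁻¹ • f t) volume := by
    have := MemLp.smul (p := 2) (q := 2) (r := 1) hf (a1_memLp (p := 2) (by norm_num) _ hb')
    rw [memLp_one_iff_integrable] at this
    exact this
  rw [← integral_inner hint e]
  apply integral_congr_ae
  refine Eventually.of_forall fun t => ?_
  simp only [inner_smul_left, inner_smul_right, map_inv₀, map_sub, Complex.conj_ofReal]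

/-- the kernel as an element of `L²` -/
noncomputable def a1K (b : ℂ) (e : E) : Lp E 2 (volume : Measure ℝ) :=
  if hb : b.im ≠ 0 then (a1_memLp_smul (p := 2) (by norm_num) b hb e).toLp _ else 0

theorem a1K_coe (b : ℂ) (hb : b.im ≠ 0) (e : E) :
    (a1K b e : ℝ → E) =ᵐ[volume] fun t : ℝ => ((t : ℂ) - b)⁻¹ • e := by
  unfold a1K
  rw [dif_pos hb]
  exact MemLp.coeFn_toLp _

theorem a1K_inner (b : ℂ) (hb : b.im ≠ 0) (e : E) (F : Lp E 2 (volume : Measure ℝ)) :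
    inner ℂ (a1K b e) F = inner ℂ e (∫ t : ℝ, ((t : ℂ) - (starRingEnd ℂ) b)⁻¹ • (F : ℝ → E) t) := by
  rw [← a1_inner b hb e (Lp.memLp F), L2.inner_def]
  apply integral_congr_ae
  filter_upwards [a1K_coe b hb e] with t ht
  rw [ht]

/-- spans of kernels with poles in `U` -/
noncomputable def a1S (E : Type*) [NormedAddCommGroup E] [InnerProductSpace ℂ E]
    [FiniteDimensional ℂ E] (U : Set ℂ) : Submodule ℂ (Lp E 2 (volume : Measure ℝ)) :=
  Submodule.span ℂ {G | ∃ b ∈ U, ∃ e : E, G = a1K b e}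

def a1U : Set ℂ := {b | 0 < b.im}
def a1L : Set ℂ := {b | b.im < 0}

theorem a1_mem_orth (U : Set ℂ) (hU : ∀ b ∈ U, b.im ≠ 0) (F : Lp E 2 (volume : Measure ℝ)) :
    F ∈ (a1S E U)ᗮ ↔ ∀ b ∈ U, ∫ t : ℝ, ((t : ℂ) - (starRingEnd ℂ) b)⁻¹ • (F : ℝ → E) t = 0 := by
  constructor
  · intro h b hb
    have h1 : ∀ e : E, inner ℂ e (∫ t : ℝ, ((t : ℂ) - (starRingEnd ℂ) b)⁻¹ • (F : ℝ → E) t) = 0 := by
      intro e
      rw [← a1K_inner b (hU b hb) e F]
      exact (Submodule.mem_orthogonal _ _).mp h _ (Submodule.subset_span ⟨b, hb, e, rfl⟩)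
    exact inner_self_eq_zero.mp (h1 _)
  · intro h
    rw [a1S, Submodule.mem_orthogonal]
    intro G hG
    induction hG using Submodule.span_induction with
    | mem G hG =>
      obtain ⟨b, hb, e, rfl⟩ := hG
      rw [a1K_inner b (hU b hb) e F, h b hb, inner_zero_right]
    | zero => exact inner_zero_left _
    | add G G' _ _ h1 h2 => rw [inner_add_left, h1, h2, add_zero]
    | smul c G _ h1 => rw [inner_smul_left, h1, mul_zero]

theorem a1_Hm_iff {f : ℝ → E} (hf : MemLp f 2 volume) :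
    Hm 2 f ↔ hf.toLp f ∈ (a1S E a1L)ᗮ := by
  rw [a1_mem_orth a1L (fun b hb => (show b.im < 0 from hb).ne)]
  have key : ∀ a : ℂ, ∫ t : ℝ, ((t : ℂ) - a)⁻¹ • (hf.toLp f : ℝ → E) t =
      ∫ t : ℝ, ((t : ℂ) - a)⁻¹ • f t := by
    intro a
    apply integral_congr_ae
    filter_upwards [MemLp.coeFn_toLp hf] with t ht
    rw [ht]
  constructor
  · rintro ⟨_, h⟩ b hb
    rw [key]
    apply h
    have : b.im < 0 := hb
    simpa using this
  · intro h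
    refine ⟨hf, fun a ha => ?_⟩
    have h1 := h ((starRingEnd ℂ) a) (by show ((starRingEnd ℂ) a).im < 0; simpa using ha)
    rw [key, Complex.conj_conj] at h1
    exact h1

theorem a1_Hp_iff {f : ℝ → E} (hf : MemLp f 2 volume) :
    Hp 2 f ↔ hf.toLp f ∈ (a1S E a1U)ᗮ := by
  rw [a1_mem_orth a1U (fun b hb => (show 0 < b.im from hb).ne')]
  have key : ∀ a : ℂ, ∫ t : ℝ, ((t : ℂ) - a)⁻¹ • (hf.toLp f : ℝ → E) t =
      ∫ t : ℝ, ((t : ℂ) - a)⁻¹ • f t := by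
    intro a
    apply integral_congr_ae
    filter_upwards [MemLp.coeFn_toLp hf] with t ht
    rw [ht]
  constructor
  · rintro ⟨_, h⟩ b hb
    rw [key]
    apply h
    have : 0 < b.im := hb
    simpa using this
  · intro h
    refine ⟨hf, fun a ha => ?_⟩
    have h1 := h ((starRingEnd ℂ) a) (by show 0 < ((starRingEnd ℂ) a).im; simpa using ha)
    rw [key, Complex.conj_conj] at h1
    exact h1

theorem a1_U_le
    (h1 : ∀ a b : ℂ, 0 < a.im → 0 < b.im →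
      ∫ t : ℝ, (((t : ℂ) - a)⁻¹ * ((t : ℂ) - b)⁻¹) = 0) :
    a1S E a1U ≤ (a1S E a1L)ᗮ := by
  rw [a1S, Submodule.span_le]
  rintro G ⟨b, hb, e, rfl⟩
  have hb' : 0 < b.im := hb
  have h := cauchy_Hm (E := E) h1 (p := 2) (by norm_num) b hb' e
  have h2 := (a1_Hm_iff h.1).mp h
  rw [a1K, dif_pos hb'.ne']
  exact h2

theorem a1_L_le
    (h2 : ∀ a b : ℂ, a.im < 0 → b.im < 0 →
      ∫ t : ℝ, (((t : ℂ) - a)⁻¹ * ((t : ℂ) - b)⁻¹) = 0) :
    a1S E a1L ≤ (a1S E a1U)ᗮ := by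
  rw [a1S, Submodule.span_le]
  rintro G ⟨b, hb, e, rfl⟩
  have hb' : b.im < 0 := hb
  have h := cauchy_Hp (E := E) h2 (p := 2) (by norm_num) b hb' e
  have h2 := (a1_Hp_iff h.1).mp h
  rw [a1K, dif_pos hb'.ne]
  exact h2

theorem a1_zero
    (h3 : ∀ f : ℝ → E, MemLp f 2 volume →
      (∀ a : ℂ, a.im ≠ 0 → ∫ t : ℝ, ((t : ℂ) - a)⁻¹ • f t = 0) → f =ᵐ[volume] 0)
    (F : Lp E 2 (volume : Measure ℝ)) (hU : F ∈ (a1S E a1U)ᗮ) (hL : F ∈ (a1S E a1L)ᗮ) : F = 0 := by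
  rw [a1_mem_orth a1U (fun b hb => (show 0 < b.im from hb).ne')] at hU
  rw [a1_mem_orth a1L (fun b hb => (show b.im < 0 from hb).ne)] at hL
  have h := h3 F (Lp.memLp F) (by
    intro a ha
    rcases lt_or_gt_of_ne ha with h | h
    · have h1 := hU ((starRingEnd ℂ) a) (by show 0 < ((starRingEnd ℂ) a).im; simpa using h)
      rwa [Complex.conj_conj] at h1
    · have h1 := hL ((starRingEnd ℂ) a) (by show ((starRingEnd ℂ) a).im < 0; simpa using h)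
      rwa [Complex.conj_conj] at h1)
  exact (Lp.eq_zero_iff_ae_eq_zero).mpr h

/-- abstract Hilbert space lemma -/
theorem a1_abs {H : Type*} [NormedAddCommGroup H] [InnerProductSpace ℂ H] [CompleteSpace H]
    (A B : Submodule ℂ H) (hAB : A ≤ Bᗮ) (h0 : ∀ x ∈ Aᗮ, x ∈ Bᗮ → x = 0) (x : H) :
    ∃ u ∈ A.topologicalClosure, u ∈ Bᗮ ∧ x - u ∈ Aᗮ ∧ (x ∈ Bᗮ → x = u) := by
  have hcl : A.topologicalClosure ≤ Bᗮ :=
    Submodule.topologicalClosure_minimal _ hAB (Submodule.isClosed_orthogonal B)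
  haveI : CompleteSpace A.topologicalClosure :=
    (Submodule.isClosed_topologicalClosure A).completeSpace_coe
  obtain ⟨u, hu, v, hv, hxy⟩ := A.topologicalClosure.exists_add_mem_mem_orthogonal x
  have hv' : x - u ∈ Aᗮ := by
    rw [hxy, add_sub_cancel_left]
    exact Submodule.orthogonal_le A.le_topologicalClosure hv
  refine ⟨u, hu, hcl hu, hv', fun hx => ?_⟩
  exact sub_eq_zero.mp (h0 _ hv' (Submodule.sub_mem _ hx (hcl hu)))

/-- Orthogonality of the two Hardy spaces in `L²`. -/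
theorem orth_Hm_Hp
    (h1 : ∀ a b : ℂ, 0 < a.im → 0 < b.im →
      ∫ t : ℝ, (((t : ℂ) - a)⁻¹ * ((t : ℂ) - b)⁻¹) = 0)
    (h2 : ∀ a b : ℂ, a.im < 0 → b.im < 0 →
      ∫ t : ℝ, (((t : ℂ) - a)⁻¹ * ((t : ℂ) - b)⁻¹) = 0)
    (h3 : ∀ f : ℝ → E, MemLp f 2 volume →
      (∀ a : ℂ, a.im ≠ 0 → ∫ t : ℝ, ((t : ℂ) - a)⁻¹ • f t = 0) → f =ᵐ[volume] 0)
    {u v : ℝ → E} (hu : Hm 2 u) (hv : Hp 2 v) :
    ∫ t : ℝ, inner ℂ (u t) (v t) = 0 := by
  have := FiniteDimensional.complete ℂ E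
  have hu' := (a1_Hm_iff hu.1).mp hu
  have hv' := (a1_Hp_iff hv.1).mp hv
  obtain ⟨w, hw, _, _, hw4⟩ := a1_abs (a1S E a1U) (a1S E a1L) (a1_U_le h1)
    (fun x hx hx' => a1_zero h3 x hx hx') (hu.1.toLp u)
  have hmem : hu.1.toLp u ∈ (a1S E a1U).topologicalClosure := by
    rw [hw4 hu']; exact hw
  have hv'' : hv.1.toLp v ∈ ((a1S E a1U).topologicalClosure)ᗮ := by
    rw [Submodule.orthogonal_closure]
    exact hv'
  have h := (Submodule.mem_orthogonal _ _).mp hv'' _ hmem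
  rw [L2.inner_def] at h
  rw [← h]
  apply integral_congr_ae
  filter_upwards [MemLp.coeFn_toLp hu.1, MemLp.coeFn_toLp hv.1] with t ht1 ht2
  rw [ht1, ht2]

/-- Decomposition of `L²`. -/
theorem exists_decomp
    (h1 : ∀ a b : ℂ, 0 < a.im → 0 < b.im →
      ∫ t : ℝ, (((t : ℂ) - a)⁻¹ * ((t : ℂ) - b)⁻¹) = 0)
    (h2 : ∀ a b : ℂ, a.im < 0 → b.im < 0 →
      ∫ t : ℝ, (((t : ℂ) - a)⁻¹ * ((t : ℂ) - b)⁻¹) = 0)
    (h3 : ∀ f : ℝ → E, MemLp f 2 volume →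
      (∀ a : ℂ, a.im ≠ 0 → ∫ t : ℝ, ((t : ℂ) - a)⁻¹ • f t = 0) → f =ᵐ[volume] 0)
    {f : ℝ → E} (hf : MemLp f 2 volume) :
    ∃ u v : ℝ → E, Hm 2 u ∧ Hp 2 v ∧ ∀ t, f t = u t + v t := by
  have := FiniteDimensional.complete ℂ E
  obtain ⟨w, hw, hw2, hw3, _⟩ := a1_abs (a1S E a1U) (a1S E a1L) (a1_U_le h1)
    (fun x hx hx' => a1_zero h3 x hx hx') (hf.toLp f)
  refine ⟨w, fun t => f t - w t, ?_, ?_, fun t => (add_sub_cancel _ _).symm⟩
  · rw [a1_Hm_iff (Lp.memLp w), Lp.toLp_coeFn]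
    exact hw2
  · have hm : MemLp (fun t => f t - w t) 2 volume := hf.sub (Lp.memLp w)
    rw [a1_Hp_iff hm]
    have : hm.toLp _ = hf.toLp f - w := by
      have h := MemLp.toLp_sub hf (Lp.memLp w)
      rw [Lp.toLp_coeFn] at h
      exact h
    rw [this]
    exact hw3

theorem a1_span_sum (U : Set ℂ) (hU : ∀ b ∈ U, b.im ≠ 0) (G : Lp E 2 (volume : Measure ℝ))
    (hG : G ∈ a1S E U) :
    ∃ (s : Finset ℂ) (c : ℂ → E), (∀ b ∈ s, b ∈ U) ∧
      (G : ℝ → E) =ᵐ[volume] fun t : ℝ => ∑ b ∈ s, ((t : ℂ) - b)⁻¹ • c b := by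
  classical
  rw [a1S] at hG
  induction hG using Submodule.span_induction with
  | mem G hG =>
    obtain ⟨b, hb, e, rfl⟩ := hG
    refine ⟨{b}, fun _ => e, by simpa using hb, ?_⟩
    filter_upwards [a1K_coe b (hU b hb) e] with t ht
    rw [ht, Finset.sum_singleton]
  | zero =>
    refine ⟨∅, fun _ => 0, by simp, ?_⟩
    filter_upwards [Lp.coeFn_zero E 2 (volume : Measure ℝ)] with t ht
    rw [ht]; simp
  | add G G' _ _ h1 h2 =>
    obtain ⟨s, c, hs, hG⟩ := h1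
    obtain ⟨s', c', hs', hG'⟩ := h2
    refine ⟨s ∪ s', fun b => (if b ∈ s then c b else 0) + (if b ∈ s' then c' b else 0), ?_, ?_⟩
    · intro b hb
      rcases Finset.mem_union.mp hb with h | h
      · exact hs b h
      · exact hs' b h
    · filter_upwards [hG, hG', Lp.coeFn_add G G'] with t ht ht' htt
      rw [htt, Pi.add_apply, ht, ht']
      simp only [smul_add, Finset.sum_add_distrib, smul_ite, smul_zero]
      congr 1
      · rw [← Finset.sum_filter]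
        apply Finset.sum_congr _ (fun _ _ => rfl)
        ext b; simp only [Finset.mem_filter, Finset.mem_union]; tauto
      · rw [← Finset.sum_filter]
        apply Finset.sum_congr _ (fun _ _ => rfl)
        ext b; simp only [Finset.mem_filter, Finset.mem_union]; tauto
  | smul k G _ h1 =>
    obtain ⟨s, c, hs, hG⟩ := h1
    refine ⟨s, fun b => k • c b, hs, ?_⟩
    filter_upwards [hG, Lp.coeFn_smul k G] with t ht htt
    rw [htt, Pi.smul_apply, ht, Finset.smul_sum]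
    apply Finset.sum_congr rfl
    intro b _
    rw [smul_comm]

theorem a1_approx (U : Set ℂ) (hU : ∀ b ∈ U, b.im ≠ 0) {f : ℝ → E} (hf : MemLp f 2 volume)
    (hmem : hf.toLp f ∈ (a1S E U).topologicalClosure) {ε : ℝ} (hε : 0 < ε) :
    ∃ (s : Finset ℂ) (c : ℂ → E), (∀ b ∈ s, b ∈ U) ∧
      eLpNorm (fun t : ℝ => f t - ∑ b ∈ s, ((t : ℂ) - b)⁻¹ • c b) 2 volume
        ≤ ENNReal.ofReal ε := by
  have h1 : hf.toLp f ∈ closure (a1S E U : Set (Lp E 2 (volume : Measure ℝ))) := by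
    rw [← Submodule.topologicalClosure_coe]
    exact hmem
  obtain ⟨G, hG, hd⟩ := Metric.mem_closure_iff.mp h1 ε hε
  obtain ⟨s, c, hs, hGs⟩ := a1_span_sum U hU G hG
  refine ⟨s, c, hs, ?_⟩
  have h2 : eLpNorm (fun t : ℝ => f t - ∑ b ∈ s, ((t : ℂ) - b)⁻¹ • c b) 2 volume =
      ENNReal.ofReal (dist (hf.toLp f) G) := by
    rw [← edist_dist, Lp.edist_def]
    apply eLpNorm_congr_ae
    filter_upwards [hGs, MemLp.coeFn_toLp hf] with t ht ht'
    simp only [Pi.sub_apply, ht, ht']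
  rw [h2]
  exact ENNReal.ofReal_le_ofReal hd.le

/-- Density of the Cauchy kernels in `Hm 2`. -/
theorem dense_cauchy_Hm
    (h1 : ∀ a b : ℂ, 0 < a.im → 0 < b.im →
      ∫ t : ℝ, (((t : ℂ) - a)⁻¹ * ((t : ℂ) - b)⁻¹) = 0)
    (h2 : ∀ a b : ℂ, a.im < 0 → b.im < 0 →
      ∫ t : ℝ, (((t : ℂ) - a)⁻¹ * ((t : ℂ) - b)⁻¹) = 0)
    (h3 : ∀ f : ℝ → E, MemLp f 2 volume →
      (∀ a : ℂ, a.im ≠ 0 → ∫ t : ℝ, ((t : ℂ) - a)⁻¹ • f t = 0) → f =ᵐ[volume] 0)
    {f : ℝ → E} (hf : Hm 2 f) {ε : ℝ} (hε : 0 < ε) :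
    ∃ (s : Finset ℂ) (c : ℂ → E), (∀ b ∈ s, 0 < b.im) ∧
      eLpNorm (fun t : ℝ => f t - ∑ b ∈ s, ((t : ℂ) - b)⁻¹ • c b) 2 volume
        ≤ ENNReal.ofReal ε := by
  have := FiniteDimensional.complete ℂ E
  obtain ⟨w, hw, hw2, hw3, hw4⟩ := a1_abs (a1S E a1U) (a1S E a1L) (a1_U_le h1)
    (fun x hx hx' => a1_zero h3 x hx hx') (hf.1.toLp f)
  have hmem : hf.1.toLp f ∈ (a1S E a1U).topologicalClosure := by
    rw [hw4 ((a1_Hm_iff hf.1).mp hf)]; exact hw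
  obtain ⟨s, c, hs, h⟩ := a1_approx a1U (fun b hb => (show 0 < b.im from hb).ne') hf.1 hmem hε
  exact ⟨s, c, hs, h⟩

/-- Density of the Cauchy kernels in `Hp 2`. -/
theorem dense_cauchy_Hp
    (h1 : ∀ a b : ℂ, 0 < a.im → 0 < b.im →
      ∫ t : ℝ, (((t : ℂ) - a)⁻¹ * ((t : ℂ) - b)⁻¹) = 0)
    (h2 : ∀ a b : ℂ, a.im < 0 → b.im < 0 →
      ∫ t : ℝ, (((t : ℂ) - a)⁻¹ * ((t : ℂ) - b)⁻¹) = 0)
    (h3 : ∀ f : ℝ → E, MemLp f 2 volume →
      (∀ a : ℂ, a.im ≠ 0 → ∫ t : ℝ, ((t : ℂ) - a)⁻¹ • f t = 0) → f =ᵐ[volume] 0)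
    {f : ℝ → E} (hf : Hp 2 f) {ε : ℝ} (hε : 0 < ε) :
    ∃ (s : Finset ℂ) (c : ℂ → E), (∀ b ∈ s, b.im < 0) ∧
      eLpNorm (fun t : ℝ => f t - ∑ b ∈ s, ((t : ℂ) - b)⁻¹ • c b) 2 volume
        ≤ ENNReal.ofReal ε := by
  have := FiniteDimensional.complete ℂ E
  obtain ⟨w, hw, hw2, hw3, hw4⟩ := a1_abs (a1S E a1L) (a1S E a1U) (a1_L_le h2)
    (fun x hx hx' => a1_zero h3 x hx' hx) (hf.1.toLp f)
  have hmem : hf.1.toLp f ∈ (a1S E a1L).topologicalClosure := by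
    rw [hw4 ((a1_Hp_iff hf.1).mp hf)]; exact hw
  obtain ⟨s, c, hs, h⟩ := a1_approx a1L (fun b hb => (show b.im < 0 from hb).ne) hf.1 hmem hε
  exact ⟨s, c, hs, h⟩

end A1
end Pool.Agent.Helper865.TAP
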