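import Pool.Agent.Helper865.TAP.Defs


set_option autoImplicit false

open MeasureTheory Filter Topology Set Metric
open scoped ENNReal NNReal

namespace Pool.Agent.Helper865.TAP
namespace A2



variable {E : Type*} [NormedAddCommGroup E] [InnerProductSpace ℂ E] [FiniteDimensional ℂ E]



theorem memLp_weight {q : ℝ≥0∞} (hq : 1 < q) :
    MemLp (fun t : ℝ => (1 + ‖t‖)⁻¹) q volume := by
  have hpos : ∀ t : ℝ, 0 < 1 + ‖t‖ := fun t => by positivity
  have hcont : Continuous fun t : ℝ => (1 + ‖t‖)⁻¹ :=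
    (continuous_const.add continuous_norm).inv₀ fun t => (hpos t).ne'
  by_cases hq' : q = ⊤
  · rw [hq']
    refine memLp_top_of_bound hcont.aestronglyMeasurable 1 (ae_of_all _ fun t => ?_)
    rw [norm_inv, Real.norm_of_nonneg (hpos t).le]
    apply inv_le_one_of_one_le₀
    have := norm_nonneg t
    linarith
  · have hq1 : (1 : ℝ) < q.toReal := by
      have := (ENNReal.toReal_lt_toReal ENNReal.one_ne_top hq').2 hq
      simpa using this
    refine (integrable_norm_rpow_iff hcont.aestronglyMeasurable (by positivity) hq').1 ?_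
    have h1 : Integrable (fun t : ℝ => (1 + ‖t‖) ^ (-q.toReal)) volume := by
      apply integrable_one_add_norm
      simpa using hq1
    refine h1.congr (ae_of_all _ fun t => ?_)
    simp only
    rw [norm_inv, Real.norm_of_nonneg (hpos t).le, Real.inv_rpow (hpos t).le,
      Real.rpow_neg (hpos t).le]

theorem integrable_weight {p : ℝ≥0∞} (hp : 1 ≤ p) (hp' : p ≠ ⊤) {f : ℝ → E}
    (hf : MemLp f p volume) : Integrable (fun t : ℝ => (1 + ‖t‖)⁻¹ • f t) := by
  have hc : p.HolderConjugate p.conjExponent := ENNReal.HolderConjugate.conjExponent hp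
  have hc' : p.conjExponent.HolderConjugate p := ENNReal.HolderConjugate.symm
  have hq : 1 < p.conjExponent :=
    (ENNReal.HolderConjugate.lt_top_iff_one_lt p p.conjExponent).1 (lt_top_iff_ne_top.2 hp')
  have h1 := MemLp.smul (r := 1) hf (memLp_weight hq)
  rw [memLp_one_iff_integrable] at h1
  exact h1

theorem kernel_bound {f : ℝ → E} {p : ℝ≥0∞} (hp : 1 ≤ p) (hp' : p ≠ ⊤)
    (hf : MemLp f p volume) {k : ℝ → ℂ} (hk : AEStronglyMeasurable k volume) {C : ℝ}
    (hC : ∀ t : ℝ, ‖k t‖ ≤ C * (1 + ‖t‖)⁻¹) : Integrable (fun t : ℝ => k t • f t) := by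
  have h1 : Integrable (fun t : ℝ => C * ‖(1 + ‖t‖)⁻¹ • f t‖) :=
    (integrable_weight hp hp' hf).norm.const_mul C
  refine h1.mono' (hk.smul hf.1) (ae_of_all _ fun t => ?_)
  rw [norm_smul, norm_smul, ← mul_assoc]
  have h2 : ‖(1 + ‖t‖)⁻¹‖ = (1 + ‖t‖)⁻¹ := Real.norm_of_nonneg (by positivity)
  rw [h2]
  exact mul_le_mul_of_nonneg_right (hC t) (norm_nonneg _)

theorem sub_ne_zero_of_im {a : ℂ} (ha : a.im ≠ 0) (t : ℝ) : (t : ℂ) - a ≠ 0 := by
  intro h
  apply ha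
  have := congrArg Complex.im h
  simp at this
  exact this

theorem inv_bound {x : ℂ} {δ : ℝ} (hδ : 0 < δ) {t : ℝ} (h : δ ≤ ‖(t : ℂ) - x‖) :
    ‖((t : ℂ) - x)⁻¹‖ ≤ ((1 + ‖x‖) / δ + 1) * (1 + ‖t‖)⁻¹ := by
  have hpos : 0 < ‖(t : ℂ) - x‖ := lt_of_lt_of_le hδ h
  have hpos2 : 0 < 1 + ‖t‖ := by positivity
  rw [norm_inv, ← div_eq_mul_inv, le_div_iff₀ hpos2, inv_mul_le_iff₀ hpos]
  have h1 : ‖t‖ ≤ ‖(t : ℂ) - x‖ + ‖x‖ := by
    have h2 : ‖(t : ℂ)‖ ≤ ‖(t : ℂ) - x‖ + ‖x‖ := by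
      have := norm_add_le ((t : ℂ) - x) x
      rwa [sub_add_cancel] at this
    rwa [Complex.norm_real] at h2
  have h3 : 1 + ‖x‖ ≤ (1 + ‖x‖) / δ * ‖(t : ℂ) - x‖ := by
    rw [div_mul_eq_mul_div, le_div_iff₀ hδ]
    exact mul_le_mul_of_nonneg_left h (by positivity)
  have h4 : ‖(t : ℂ) - x‖ * ((1 + ‖x‖) / δ + 1)
      = (1 + ‖x‖) / δ * ‖(t : ℂ) - x‖ + ‖(t : ℂ) - x‖ := by ring
  rw [h4]
  linarith

theorem im_le_norm_sub (a : ℂ) (t : ℝ) : |a.im| ≤ ‖(t : ℂ) - a‖ := by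
  have h := Complex.abs_im_le_norm ((t : ℂ) - a)
  simpa using h

/-- Integrability of the Cauchy integrals. -/
theorem integrable_cauchy {p : ℝ≥0∞} (hp : 1 ≤ p) (hp' : p ≠ ⊤) {f : ℝ → E}
    (hf : MemLp f p volume) (a : ℂ) (ha : a.im ≠ 0) :
    Integrable (fun t : ℝ => ((t : ℂ) - a)⁻¹ • f t) := by
  have hcont : Continuous fun t : ℝ => ((t : ℂ) - a)⁻¹ :=
    (Complex.continuous_ofReal.sub continuous_const).inv₀ fun t => sub_ne_zero_of_im ha t
  exact kernel_bound hp hp' hf hcont.aestronglyMeasurable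
    fun t => inv_bound (abs_pos.2 ha) (im_le_norm_sub a t)

theorem poisson_kernel_eq (x t y : ℝ) (hy : 0 < y) :
    ((Real.pi⁻¹ * (y / ((t - x) ^ 2 + y ^ 2)) : ℝ) : ℂ)
      = (2 * (Real.pi : ℂ) * Complex.I)⁻¹ * (((t : ℂ) - ((x : ℂ) + y * Complex.I))⁻¹
        - ((t : ℂ) - ((x : ℂ) - y * Complex.I))⁻¹) := by
  have h1 : (t : ℂ) - ((x : ℂ) + y * Complex.I) ≠ 0 := by
    apply sub_ne_zero_of_im
    simp [hy.ne']
  have h2 : (t : ℂ) - ((x : ℂ) - y * Complex.I) ≠ 0 := by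
    apply sub_ne_zero_of_im
    simp [hy.ne']
  have h3 : ((t : ℂ) - ((x : ℂ) + y * Complex.I)) * ((t : ℂ) - ((x : ℂ) - y * Complex.I))
      = (((t - x) ^ 2 + y ^ 2 : ℝ) : ℂ) := by
    push_cast
    linear_combination (-(y : ℂ) ^ 2) * Complex.I_sq
  have h4 : (((t - x) ^ 2 + y ^ 2 : ℝ) : ℂ) ≠ 0 := by
    rw [← h3]; exact mul_ne_zero h1 h2
  have hpi : (Real.pi : ℂ) ≠ 0 := by exact_mod_cast Real.pi_ne_zero
  have h5 : ((t : ℂ) - ((x : ℂ) + y * Complex.I))⁻¹ - ((t : ℂ) - ((x : ℂ) - y * Complex.I))⁻¹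
      = 2 * y * Complex.I / (((t - x) ^ 2 + y ^ 2 : ℝ) : ℂ) := by
    rw [inv_sub_inv h1 h2, h3]
    congr 1
    ring
  rw [h5]
  generalize ((t - x) ^ 2 + y ^ 2 : ℝ) = D at h4
  push_cast
  field_simp [Complex.I_ne_zero]

theorem pois_eq {p : ℝ≥0∞} (hp : 1 ≤ p) (hp' : p ≠ ⊤) {f : ℝ → E} (hf : MemLp f p volume)
    {y : ℝ} (hy : 0 < y) (x : ℝ) :
    pois y f x = (2 * (Real.pi : ℂ) * Complex.I)⁻¹ •
      ((∫ t : ℝ, ((t : ℂ) - ((x : ℂ) + y * Complex.I))⁻¹ • f t)
        - ∫ t : ℝ, ((t : ℂ) - ((x : ℂ) - y * Complex.I))⁻¹ • f t) := by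
  have i1 := integrable_cauchy hp hp' hf ((x : ℂ) + y * Complex.I) (by simp [hy.ne'])
  have i2 := integrable_cauchy hp hp' hf ((x : ℂ) - y * Complex.I) (by simp [hy.ne'])
  rw [← integral_sub i1 i2, ← integral_smul]
  unfold pois
  congr 1
  funext t
  rw [← Complex.coe_smul, poisson_kernel_eq x t y hy, mul_smul, sub_smul]

/-- A function with all Cauchy integrals zero vanishes. -/
theorem eq_zero_of_cauchy_eq_zero
    (hpois : ∀ (p : ℝ≥0∞), 1 ≤ p → p ≠ ⊤ → ∀ f : ℝ → E, MemLp f p volume →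
      Tendsto (fun y : ℝ => eLpNorm (fun x => pois y f x - f x) p volume) (𝓝[>] 0) (𝓝 0))
    {p : ℝ≥0∞} (hp : 1 ≤ p) (hp' : p ≠ ⊤) {f : ℝ → E} (hf : MemLp f p volume)
    (h : ∀ a : ℂ, a.im ≠ 0 → ∫ t : ℝ, ((t : ℂ) - a)⁻¹ • f t = 0) : f =ᵐ[volume] 0 := by
  have h1 := hpois p hp hp' f hf
  have h2 : (fun y : ℝ => eLpNorm (fun x => pois y f x - f x) p volume) =ᶠ[𝓝[>] 0]
      fun _ => eLpNorm f p volume := by
    filter_upwards [self_mem_nhdsWithin] with y hy
    have hy' : 0 < y := hy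
    have e : (fun x => pois y f x - f x) = -f := by
      funext x
      rw [pois_eq hp hp' hf hy', h _ (by simp [hy'.ne']), h _ (by simp [hy'.ne'])]
      simp
    rw [e, eLpNorm_neg]
  have h3 : Tendsto (fun _ : ℝ => eLpNorm f p volume) (𝓝[>] (0 : ℝ)) (𝓝 0) := h1.congr' h2
  have h4 : eLpNorm f p volume = 0 := tendsto_nhds_unique tendsto_const_nhds h3
  have hp0 : p ≠ 0 := by
    intro h0; rw [h0] at hp; simp at hp
  exact (eLpNorm_eq_zero_iff hf.1 hp0).1 h4

/-- The Poisson integral of `f ∈ Hm p` is its Cauchy integral. -/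
theorem pois_eq_cauchy {p : ℝ≥0∞} (hp : 1 ≤ p) (hp' : p ≠ ⊤) {f : ℝ → E} (hf : Hm p f)
    {y : ℝ} (hy : 0 < y) (x : ℝ) :
    pois y f x = -((2 * (Real.pi : ℂ) * Complex.I)⁻¹ •
      ∫ t : ℝ, ((t : ℂ) - ((x : ℂ) - y * Complex.I))⁻¹ • f t) := by
  rw [pois_eq hp hp' hf.1 hy, hf.2 _ (by simp [hy]), zero_sub, smul_neg]

theorem pois_meas {f : ℝ → E} (hf : AEStronglyMeasurable f volume) {y : ℝ} (hy : 0 < y) :
    AEStronglyMeasurable (pois y f) volume := by
  have h1 : Continuous fun z : ℝ × ℝ => Real.pi⁻¹ * (y / ((z.2 - z.1) ^ 2 + y ^ 2)) := by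
    apply Continuous.mul continuous_const
    apply Continuous.div continuous_const (by fun_prop)
    intro z
    positivity
  have h2 : AEStronglyMeasurable (fun z : ℝ × ℝ =>
      (Real.pi⁻¹ * (y / ((z.2 - z.1) ^ 2 + y ^ 2))) • f z.2) (volume.prod volume) :=
    h1.aestronglyMeasurable.smul hf.comp_snd
  exact h2.integral_prod_right'

/-- Representation of the `Hm` component by the Cauchy kernel off the support of `u + v`. -/
theorem kernel_rep
    (hpois : ∀ (p : ℝ≥0∞), 1 ≤ p → p ≠ ⊤ → ∀ f : ℝ → E, MemLp f p volume →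
      Tendsto (fun y : ℝ => eLpNorm (fun x => pois y f x - f x) p volume) (𝓝[>] 0) (𝓝 0))
    {p : ℝ≥0∞} (hp : 1 ≤ p) (hp' : p ≠ ⊤) {u v : ℝ → E} (hu : Hm p u) (hv : Hp p v)
    {c R : ℝ} (hR : 0 < R) (h : ∀ᵐ t : ℝ, t ∈ ball c R → u t + v t = 0) :
    ∀ᵐ t : ℝ, t ∈ ball c R → u t = -((2 * (Real.pi : ℂ) * Complex.I)⁻¹ •
      ∫ s : ℝ, ((s : ℂ) - (t : ℂ))⁻¹ • (u s + v s)) := by
  have hp0 : p ≠ 0 := by
    intro h0; rw [h0] at hp; simp at hp
  set y : ℕ → ℝ := fun n => 1 / ((n : ℝ) + 1) with hy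
  have hypos : ∀ n, 0 < y n := fun n => by positivity
  have hy0 : Tendsto y atTop (𝓝 0) := tendsto_one_div_add_atTop_nhds_zero_nat
  have hy0' : Tendsto y atTop (𝓝[>] 0) :=
    tendsto_nhdsWithin_iff.2 ⟨hy0, Eventually.of_forall fun n => hypos n⟩
  have h1 : Tendsto (fun n => eLpNorm (pois (y n) u - u) p volume) atTop (𝓝 0) :=
    (hpois p hp hp' u hu.1).comp hy0'
  have h2 : TendstoInMeasure volume (fun n => pois (y n) u) atTop u :=
    tendstoInMeasure_of_tendsto_eLpNorm hp0 (fun n => pois_meas hu.1.1 (hypos n)) hu.1.1 h1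
  obtain ⟨ns, hns, hae⟩ := h2.exists_seq_tendsto_ae
  filter_upwards [hae] with x hx hxb
  have huv : MemLp (fun s => u s + v s) p volume := hu.1.add hv.1
  -- the distance to the complement of the ball
  set δ : ℝ := R - |x - c| with hδ
  have hδpos : 0 < δ := by
    have : |x - c| < R := by
      have := mem_ball.1 hxb
      rwa [Real.dist_eq] at this
    linarith
  have hfar : ∀ s : ℝ, s ∉ ball c R → δ ≤ |s - x| := by
    intro s hs
    rw [mem_ball, Real.dist_eq, not_lt] at hs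
    have h3 : |s - c| ≤ |s - x| + |x - c| := by
      have := abs_add_le (s - x) (x - c)
      rwa [sub_add_sub_cancel] at this
    linarith
  have hrep : ∀ n, pois (y n) u x = -((2 * (Real.pi : ℂ) * Complex.I)⁻¹ •
      ∫ s : ℝ, ((s : ℂ) - ((x : ℂ) - y n * Complex.I))⁻¹ • (u s + v s)) := by
    intro n
    have i1 := integrable_cauchy hp hp' hu.1 ((x : ℂ) - y n * Complex.I) (by simp [(hypos n).ne'])
    have i2 := integrable_cauchy hp hp' hv.1 ((x : ℂ) - y n * Complex.I) (by simp [(hypos n).ne'])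
    rw [pois_eq_cauchy hp hp' hu (hypos n)]
    congr 2
    simp only [smul_add]
    rw [integral_add i1 i2, hv.2 _ (by simp [hypos n]), add_zero]
  have hlim : Tendsto (fun n => ∫ s : ℝ, ((s : ℂ) - ((x : ℂ) - y n * Complex.I))⁻¹ • (u s + v s))
      atTop (𝓝 (∫ s : ℝ, ((s : ℂ) - (x : ℂ))⁻¹ • (u s + v s))) := by
    have hbase := integrable_weight hp hp' huv
    refine tendsto_integral_of_dominated_convergence
      (fun s => ((1 + ‖(x : ℂ)‖) / δ + 1) * ‖(1 + ‖s‖)⁻¹ • (u s + v s)‖) ?_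
      (hbase.norm.const_mul _) ?_ ?_
    · intro n
      exact (integrable_cauchy hp hp' huv ((x : ℂ) - y n * Complex.I)
        (by simp [(hypos n).ne'])).1
    · intro n
      filter_upwards [h] with s hs
      by_cases hsb : s ∈ ball c R
      · rw [hs hsb, smul_zero, smul_zero, norm_zero, mul_zero]
      · have h4 := hfar s hsb
        have h5 : ‖((s : ℂ) - ((x : ℂ) - y n * Complex.I))⁻¹‖ ≤ ‖((s : ℂ) - (x : ℂ))⁻¹‖ := by
          rw [norm_inv, norm_inv]
          have h6 : 0 < ‖(s : ℂ) - (x : ℂ)‖ := by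
            rw [← Complex.ofReal_sub, Complex.norm_real, Real.norm_eq_abs]
            linarith
          apply inv_anti₀ h6
          have h7 := Complex.abs_re_le_norm ((s : ℂ) - ((x : ℂ) - y n * Complex.I))
          have h8 : ((s : ℂ) - ((x : ℂ) - y n * Complex.I)).re = s - x := by simp
          rw [h8] at h7
          rwa [← Complex.ofReal_sub, Complex.norm_real, Real.norm_eq_abs]
        have h9 : ‖((s : ℂ) - (x : ℂ))⁻¹‖ ≤ ((1 + ‖(x : ℂ)‖) / δ + 1) * (1 + ‖s‖)⁻¹ := by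
          apply inv_bound hδpos
          rw [← Complex.ofReal_sub, Complex.norm_real, Real.norm_eq_abs]
          exact h4
        rw [norm_smul, norm_smul, ← mul_assoc]
        have h10 : ‖(1 + ‖s‖)⁻¹‖ = (1 + ‖s‖)⁻¹ := Real.norm_of_nonneg (by positivity)
        rw [h10]
        exact mul_le_mul_of_nonneg_right (h5.trans h9) (norm_nonneg _)
    · filter_upwards [h] with s hs
      by_cases hsb : s ∈ ball c R
      · simp only [hs hsb, smul_zero]
        exact tendsto_const_nhds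
      · have h4 := hfar s hsb
        have hne : (s : ℂ) - (x : ℂ) ≠ 0 := by
          rw [← Complex.ofReal_sub]
          intro h0
          have h11 : s - x = 0 := by exact_mod_cast h0
          rw [h11, abs_zero] at h4
          linarith
        apply Tendsto.smul_const
        apply Tendsto.inv₀ _ hne
        have h12 : Tendsto (fun n => (s : ℂ) - ((x : ℂ) - (y n : ℂ) * Complex.I)) atTop
            (𝓝 ((s : ℂ) - ((x : ℂ) - ((0 : ℝ) : ℂ) * Complex.I))) := by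
          apply Tendsto.const_sub
          apply Tendsto.const_sub
          exact ((Complex.continuous_ofReal.tendsto 0).comp hy0).mul_const _
        simpa using h12
  have hx2 : Tendsto (fun i => pois (y (ns i)) u x) atTop
      (𝓝 (-((2 * (Real.pi : ℂ) * Complex.I)⁻¹ •
      ∫ s : ℝ, ((s : ℂ) - (x : ℂ))⁻¹ • (u s + v s)))) := by
    have h13 := ((hlim.const_smul ((2 * (Real.pi : ℂ) * Complex.I)⁻¹)).neg).comp
      hns.tendsto_atTop
    refine h13.congr fun i => ?_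
    rw [hrep (ns i)]
    rfl
  exact tendsto_nhds_unique hx hx2

end A2
end Pool.Agent.Helper865.TAP
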