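import Pool.Agent.Helper865.TAP.Defs


set_option autoImplicit false

open MeasureTheory Filter Topology Set Metric
open scoped ENNReal NNReal

namespace Pool.Agent.Helper865.TAP
namespace A3



variable {E : Type*} [NormedAddCommGroup E] [InnerProductSpace ℂ E] [FiniteDimensional ℂ E]


/-- the Cauchy kernel is in every `L^q`, `q > 1` -/
theorem A3_kernel_memLp {q : ℝ≥0∞} (hq : 1 < q) (hq' : q ≠ ⊤) {a : ℂ} (ha : a.im ≠ 0) :
    MemLp (fun t : ℝ => ((t : ℂ) - a)⁻¹) q volume := by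
  have hcont : Continuous (fun t : ℝ => ((t : ℂ) - a)⁻¹) := by
    refine Continuous.inv₀ (by fun_prop) ?_
    intro t h
    apply ha
    have : a = (t : ℂ) := (sub_eq_zero.1 h).symm
    rw [this]; simp
  rw [← integrable_norm_rpow_iff hcont.aestronglyMeasurable (by positivity) hq']
  have hq1 : 1 < q.toReal := by
    rw [← ENNReal.toReal_one]
    exact (ENNReal.toReal_lt_toReal (by simp) hq').2 hq
  have hint : Integrable (fun t : ℝ => (1 + ‖t‖) ^ (-q.toReal)) volume :=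
    integrable_one_add_norm (by simpa using hq1)
  have hy : 0 < |a.im| := abs_pos.2 ha
  set K : ℝ := 1 / |a.im| + 1 + ‖a‖ / |a.im| with hK
  have hK0 : 0 < K := by positivity
  have hbound : ∀ t : ℝ, ‖((t : ℂ) - a)⁻¹‖ ≤ K * (1 + ‖t‖)⁻¹ := by
    intro t
    have h1 : |a.im| ≤ ‖(t : ℂ) - a‖ := by
      have := Complex.abs_im_le_norm ((t : ℂ) - a)
      simpa using this
    have h2 : ‖t‖ ≤ ‖(t : ℂ) - a‖ + ‖a‖ := by
      have : ‖(t : ℂ)‖ ≤ ‖(t : ℂ) - a‖ + ‖a‖ := by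
        have := norm_add_le ((t : ℂ) - a) a
        simpa using this
      simpa using this
    have h0 : 0 < ‖(t : ℂ) - a‖ := lt_of_lt_of_le hy h1
    have h3 : 1 + ‖t‖ ≤ K * ‖(t : ℂ) - a‖ := by
      have e1 : 1 ≤ 1 / |a.im| * ‖(t : ℂ) - a‖ := by
        rw [div_mul_eq_mul_div, one_mul, le_div_iff₀ hy]; linarith
      have e2 : ‖a‖ ≤ ‖a‖ / |a.im| * ‖(t : ℂ) - a‖ := by
        rw [div_mul_eq_mul_div, le_div_iff₀ hy]
        exact mul_le_mul_of_nonneg_left h1 (norm_nonneg _)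
      rw [hK]
      nlinarith
    rw [norm_inv, ← div_eq_mul_inv, inv_eq_one_div, div_le_div_iff₀ h0 (by positivity)]
    linarith
  refine (hint.const_mul (K ^ q.toReal)).mono' ?_ (Filter.Eventually.of_forall fun t => ?_)
  · exact (hcont.norm.rpow_const (fun t => Or.inr (by linarith))).aestronglyMeasurable
  · rw [Real.norm_of_nonneg (by positivity)]
    calc ‖((t : ℂ) - a)⁻¹‖ ^ q.toReal ≤ (K * (1 + ‖t‖)⁻¹) ^ q.toReal :=
          Real.rpow_le_rpow (norm_nonneg _) (hbound t) (by linarith)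
      _ = K ^ q.toReal * (1 + ‖t‖) ^ (-q.toReal) := by
          rw [Real.mul_rpow hK0.le (by positivity), Real.inv_rpow (by positivity),
            Real.rpow_neg (by positivity)]

/-- there is a conjugate exponent -/
theorem A3_conj {p : ℝ≥0∞} (hp : 1 < p) (hp' : p ≠ ⊤) :
    ∃ q : ℝ≥0∞, 1 < q ∧ q ≠ ⊤ ∧ ENNReal.HolderTriple q p 1 := by
  have h := ENNReal.HolderConjugate.conjExponent hp.le
  have h' : p.conjExponent.HolderConjugate p := ENNReal.HolderConjugate.symm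
  refine ⟨p.conjExponent, ?_, ?_, h'⟩
  · exact (ENNReal.HolderConjugate.lt_top_iff_one_lt p p.conjExponent).1 (lt_top_iff_ne_top.2 hp')
  · exact ((ENNReal.HolderConjugate.lt_top_iff_one_lt p.conjExponent p).2 hp).ne

section general
variable {F : Type*} [NormedAddCommGroup F] [NormedSpace ℂ F]

theorem A3_integrable {p : ℝ≥0∞} (hp : 1 < p) (hp' : p ≠ ⊤) {f : ℝ → F}
    (hf : MemLp f p volume) {a : ℂ} (ha : a.im ≠ 0) :
    Integrable (fun t : ℝ => ((t : ℂ) - a)⁻¹ • f t) volume := by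
  obtain ⟨q, hq, hq', hqp⟩ := A3_conj hp hp'
  have := MemLp.smul hf (A3_kernel_memLp hq hq' ha) (r := 1)
  rw [memLp_one_iff_integrable] at this
  exact this

theorem A3_bound {p : ℝ≥0∞} (hp : 1 < p) (hp' : p ≠ ⊤) {a : ℂ} (ha : a.im ≠ 0) :
    ∃ K : ℝ≥0∞, K ≠ ⊤ ∧ ∀ f : ℝ → F, MemLp f p volume →
      ENNReal.ofReal ‖∫ t : ℝ, ((t : ℂ) - a)⁻¹ • f t‖ ≤ K * eLpNorm f p volume := by
  obtain ⟨q, hq, hq', hqp⟩ := A3_conj hp hp'
  refine ⟨eLpNorm (fun t : ℝ => ((t : ℂ) - a)⁻¹) q volume,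
    (A3_kernel_memLp hq hq' ha).eLpNorm_ne_top, fun f hf => ?_⟩
  have h1 := eLpNorm_smul_le_mul_eLpNorm (p := q) (q := p) (r := 1) hf.aestronglyMeasurable
    (A3_kernel_memLp hq hq' ha).aestronglyMeasurable
  refine le_trans ?_ h1
  rw [eLpNorm_one_eq_lintegral_enorm, ofReal_norm]
  exact enorm_integral_le_lintegral_enorm _

theorem A3_add {p : ℝ≥0∞} (hp : 1 < p) (hp' : p ≠ ⊤) {f g : ℝ → F}
    (hf : MemLp f p volume) (hg : MemLp g p volume) {a : ℂ} (ha : a.im ≠ 0) :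
    ∫ t : ℝ, ((t : ℂ) - a)⁻¹ • (f t + g t) =
      (∫ t : ℝ, ((t : ℂ) - a)⁻¹ • f t) + ∫ t : ℝ, ((t : ℂ) - a)⁻¹ • g t := by
  rw [← integral_add (A3_integrable hp hp' hf ha) (A3_integrable hp hp' hg ha)]
  simp only [smul_add]

theorem A3_sub {p : ℝ≥0∞} (hp : 1 < p) (hp' : p ≠ ⊤) {f g : ℝ → F}
    (hf : MemLp f p volume) (hg : MemLp g p volume) {a : ℂ} (ha : a.im ≠ 0) :
    ∫ t : ℝ, ((t : ℂ) - a)⁻¹ • (f t - g t) =
      (∫ t : ℝ, ((t : ℂ) - a)⁻¹ • f t) - ∫ t : ℝ, ((t : ℂ) - a)⁻¹ • g t := by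
  rw [← integral_sub (A3_integrable hp hp' hf ha) (A3_integrable hp hp' hg ha)]
  simp only [smul_sub]

theorem A3_sum {p : ℝ≥0∞} (hp : 1 < p) (hp' : p ≠ ⊤) {ι : Type*} (s : Finset ι) {f : ι → ℝ → F}
    (hf : ∀ i ∈ s, MemLp (f i) p volume) {a : ℂ} (ha : a.im ≠ 0) :
    ∫ t : ℝ, ((t : ℂ) - a)⁻¹ • (∑ i ∈ s, f i t) =
      ∑ i ∈ s, ∫ t : ℝ, ((t : ℂ) - a)⁻¹ • f i t := by
  rw [← integral_finsetSum s fun i hi => A3_integrable hp hp' (hf i hi) ha]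
  simp only [Finset.smul_sum]

theorem A3_tendsto {p : ℝ≥0∞} (hp : 1 < p) (hp' : p ≠ ⊤) {f : ℝ → F} {g : ℕ → ℝ → F}
    (hf : MemLp f p volume) (hg : ∀ n, MemLp (g n) p volume) {a : ℂ} (ha : a.im ≠ 0)
    (hg0 : ∀ n, ∫ t : ℝ, ((t : ℂ) - a)⁻¹ • g n t = 0)
    (h : Tendsto (fun n => eLpNorm (fun t => g n t - f t) p volume) atTop (𝓝 0)) :
    ∫ t : ℝ, ((t : ℂ) - a)⁻¹ • f t = 0 := by
  obtain ⟨K, hK, hKb⟩ := A3_bound (F := F) hp hp' ha
  have h1 : ∀ n, ENNReal.ofReal ‖∫ t : ℝ, ((t : ℂ) - a)⁻¹ • f t‖ ≤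
      K * eLpNorm (fun t => g n t - f t) p volume := by
    intro n
    have h2 := hKb (fun t => g n t - f t) ((hg n).sub hf)
    rw [A3_sub hp hp' (hg n) hf ha, hg0 n, zero_sub, norm_neg] at h2
    exact h2
  have h3 : Tendsto (fun n => K * eLpNorm (fun t => g n t - f t) p volume) atTop (𝓝 0) := by
    have := ENNReal.Tendsto.const_mul h (Or.inr hK)
    simpa using this
  have h4 : ENNReal.ofReal ‖∫ t : ℝ, ((t : ℂ) - a)⁻¹ • f t‖ ≤ 0 :=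
    ge_of_tendsto' h3 h1
  have h5 : ‖∫ t : ℝ, ((t : ℂ) - a)⁻¹ • f t‖ ≤ 0 := by
    rw [← ENNReal.ofReal_eq_zero]
    exact le_antisymm h4 bot_le
  exact norm_le_zero_iff.1 h5

theorem A3_translate_int (f : ℝ → F) (a : ℂ) (h : ℝ) :
    ∫ t : ℝ, ((t : ℂ) - a)⁻¹ • f (t - h) = ∫ t : ℝ, ((t : ℂ) - (a - h))⁻¹ • f t := by
  rw [← integral_sub_right_eq_self (fun t : ℝ => ((t : ℂ) - (a - h))⁻¹ • f t) h]
  congr 1
  ext t
  congr 2
  push_cast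
  ring

end general

theorem A3_clm {p : ℝ≥0∞} {E' : Type*} [NormedAddCommGroup E'] [InnerProductSpace ℂ E']
    [FiniteDimensional ℂ E'] (hp : 1 < p) (hp' : p ≠ ⊤) {f : ℝ → E} (hf : MemLp f p volume)
    {a : ℂ} (ha : a.im ≠ 0) (L : E →L[ℂ] E') :
    ∫ t : ℝ, ((t : ℂ) - a)⁻¹ • L (f t) = L (∫ t : ℝ, ((t : ℂ) - a)⁻¹ • f t) := by
  have : CompleteSpace E := FiniteDimensional.complete ℂ E
  have : CompleteSpace E' := FiniteDimensional.complete ℂ E'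
  rw [← L.integral_comp_comm (A3_integrable hp hp' hf ha)]
  simp only [map_smul]

/-- `Hm p` is closed in `L^p`. -/
theorem Hm_of_tendsto {p : ℝ≥0∞} (hp : 1 < p) (hp' : p ≠ ⊤) {f : ℝ → E} {g : ℕ → ℝ → E}
    (hf : MemLp f p volume) (hg : ∀ n, Hm p (g n))
    (h : Tendsto (fun n => eLpNorm (fun t => g n t - f t) p volume) atTop (𝓝 0)) : Hm p f :=
  ⟨hf, fun a ha => A3_tendsto hp hp' hf (fun n => (hg n).1) ha.ne' (fun n => (hg n).2 a ha) h⟩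

theorem Hp_of_tendsto {p : ℝ≥0∞} (hp : 1 < p) (hp' : p ≠ ⊤) {f : ℝ → E} {g : ℕ → ℝ → E}
    (hf : MemLp f p volume) (hg : ∀ n, Hp p (g n))
    (h : Tendsto (fun n => eLpNorm (fun t => g n t - f t) p volume) atTop (𝓝 0)) : Hp p f :=
  ⟨hf, fun a ha => A3_tendsto hp hp' hf (fun n => (hg n).1) ha.ne (fun n => (hg n).2 a ha) h⟩

theorem Hm_add {p : ℝ≥0∞} (hp : 1 < p) (hp' : p ≠ ⊤) {f g : ℝ → E} (hf : Hm p f) (hg : Hm p g) :
    Hm p (fun t => f t + g t) :=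
  ⟨hf.1.add hg.1, fun a ha => by
    rw [A3_add hp hp' hf.1 hg.1 ha.ne', hf.2 a ha, hg.2 a ha, add_zero]⟩

theorem Hm_sub {p : ℝ≥0∞} (hp : 1 < p) (hp' : p ≠ ⊤) {f g : ℝ → E} (hf : Hm p f) (hg : Hm p g) :
    Hm p (fun t => f t - g t) :=
  ⟨hf.1.sub hg.1, fun a ha => by
    rw [A3_sub hp hp' hf.1 hg.1 ha.ne', hf.2 a ha, hg.2 a ha, sub_zero]⟩

theorem Hm_clm {p : ℝ≥0∞} {E' : Type*} [NormedAddCommGroup E'] [InnerProductSpace ℂ E']
    [FiniteDimensional ℂ E'] (hp : 1 < p) (hp' : p ≠ ⊤) {f : ℝ → E} (hf : Hm p f)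
    (L : E →L[ℂ] E') : Hm p (fun t => L (f t)) :=
  ⟨hf.1.continuousLinearMap_comp L, fun a ha => by
    rw [A3_clm hp hp' hf.1 ha.ne' L, hf.2 a ha, map_zero]⟩

theorem Hm_sum {p : ℝ≥0∞} (hp : 1 < p) (hp' : p ≠ ⊤) {ι : Type*} (s : Finset ι) {f : ι → ℝ → E}
    (hf : ∀ i ∈ s, Hm p (f i)) : Hm p (fun t => ∑ i ∈ s, f i t) :=
  ⟨memLp_finsetSum s fun i hi => (hf i hi).1, fun a ha => by
    rw [A3_sum hp hp' s (fun i hi => (hf i hi).1) ha.ne']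
    exact Finset.sum_eq_zero fun i hi => (hf i hi).2 a ha⟩

theorem Hm_congr {p : ℝ≥0∞} {f g : ℝ → E} (hf : Hm p f) (h : f =ᵐ[volume] g) : Hm p g :=
  ⟨hf.1.ae_eq h, fun a ha => by
    rw [← hf.2 a ha]
    refine integral_congr_ae ?_
    filter_upwards [h] with t ht
    rw [ht]⟩

theorem Hm_translate {p : ℝ≥0∞} {f : ℝ → E} (hf : Hm p f) (h : ℝ) :
    Hm p (fun t => f (t - h)) :=
  ⟨hf.1.comp_measurePreserving (measurePreserving_sub_right volume h), fun a ha => by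
    rw [A3_translate_int]
    exact hf.2 _ (by simpa using ha)⟩

theorem Hp_add {p : ℝ≥0∞} (hp : 1 < p) (hp' : p ≠ ⊤) {f g : ℝ → E} (hf : Hp p f) (hg : Hp p g) :
    Hp p (fun t => f t + g t) :=
  ⟨hf.1.add hg.1, fun a ha => by
    rw [A3_add hp hp' hf.1 hg.1 ha.ne, hf.2 a ha, hg.2 a ha, add_zero]⟩

theorem Hp_sub {p : ℝ≥0∞} (hp : 1 < p) (hp' : p ≠ ⊤) {f g : ℝ → E} (hf : Hp p f) (hg : Hp p g) :
    Hp p (fun t => f t - g t) :=
  ⟨hf.1.sub hg.1, fun a ha => by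
    rw [A3_sub hp hp' hf.1 hg.1 ha.ne, hf.2 a ha, hg.2 a ha, sub_zero]⟩

theorem Hp_clm {p : ℝ≥0∞} {E' : Type*} [NormedAddCommGroup E'] [InnerProductSpace ℂ E']
    [FiniteDimensional ℂ E'] (hp : 1 < p) (hp' : p ≠ ⊤) {f : ℝ → E} (hf : Hp p f)
    (L : E →L[ℂ] E') : Hp p (fun t => L (f t)) :=
  ⟨hf.1.continuousLinearMap_comp L, fun a ha => by
    rw [A3_clm hp hp' hf.1 ha.ne L, hf.2 a ha, map_zero]⟩

theorem Hp_sum {p : ℝ≥0∞} (hp : 1 < p) (hp' : p ≠ ⊤) {ι : Type*} (s : Finset ι) {f : ι → ℝ → E}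
    (hf : ∀ i ∈ s, Hp p (f i)) : Hp p (fun t => ∑ i ∈ s, f i t) :=
  ⟨memLp_finsetSum s fun i hi => (hf i hi).1, fun a ha => by
    rw [A3_sum hp hp' s (fun i hi => (hf i hi).1) ha.ne]
    exact Finset.sum_eq_zero fun i hi => (hf i hi).2 a ha⟩

theorem Hp_congr {p : ℝ≥0∞} {f g : ℝ → E} (hf : Hp p f) (h : f =ᵐ[volume] g) : Hp p g :=
  ⟨hf.1.ae_eq h, fun a ha => by
    rw [← hf.2 a ha]
    refine integral_congr_ae ?_
    filter_upwards [h] with t ht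
    rw [ht]⟩

theorem Hp_translate {p : ℝ≥0∞} {f : ℝ → E} (hf : Hp p f) (h : ℝ) :
    Hp p (fun t => f (t - h)) :=
  ⟨hf.1.comp_measurePreserving (measurePreserving_sub_right volume h), fun a ha => by
    rw [A3_translate_int]
    exact hf.2 _ (by simpa using ha)⟩

end A3
end Pool.Agent.Helper865.TAP
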