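import Pool.Agent.Helper865.TAP.Defs


set_option autoImplicit false

open MeasureTheory Filter Topology Set Metric
open scoped ENNReal NNReal

namespace Pool.Agent.Helper865.TAP
namespace A4




section Aux

variable {E : Type*} [NormedAddCommGroup E] [NormedSpace ℂ E]

/-- Common form of `Hm` and `Hp`: poles in a set `P`. -/
def HG (P : Set ℂ) (f : ℝ → E) : Prop :=
  MemLp f 2 volume ∧ ∀ a ∈ P, ∫ t : ℝ, ((t : ℂ) - a)⁻¹ • f t = 0

lemma sub_ne {a : ℂ} (ha : a.im ≠ 0) (t : ℝ) : (t : ℂ) - a ≠ 0 := by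
  intro h
  have := congrArg Complex.im h
  simp at this
  exact ha this

lemma cont_cauchy {a : ℂ} (ha : a.im ≠ 0) : Continuous (fun t : ℝ => ((t : ℂ) - a)⁻¹) :=
  Continuous.inv₀ (by fun_prop) (sub_ne ha)

lemma memLp_cauchy {a : ℂ} (ha : a.im ≠ 0) :
    MemLp (fun t : ℝ => ((t : ℂ) - a)⁻¹) 2 volume := by
  have hmeas : AEStronglyMeasurable (fun t : ℝ => ((t : ℂ) - a)⁻¹) volume :=
    (cont_cauchy ha).aestronglyMeasurable
  rw [memLp_two_iff_integrable_sq_norm hmeas]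
  have h1 : Integrable (fun t : ℝ => (1 + ((t - a.re) / a.im) ^ 2)⁻¹) volume :=
    (integrable_inv_one_add_sq.comp_div ha).comp_sub_right a.re
  have h2 := h1.const_mul ((a.im ^ 2)⁻¹)
  refine h2.congr (Eventually.of_forall fun t => ?_)
  have h3 : ‖((t : ℂ) - a)‖ ^ 2 = (t - a.re) ^ 2 + a.im ^ 2 := by
    rw [← Complex.normSq_eq_norm_sq, Complex.normSq_apply]
    simp
    ring
  simp only [norm_inv, inv_pow]
  rw [h3, ← mul_inv]
  congr 1
  field_simp
  ring

lemma norm_exp_I (l t : ℝ) : ‖Complex.exp (Complex.I * l * t)‖ = 1 := by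
  have : Complex.I * l * t = ((l * t : ℝ) : ℂ) * Complex.I := by push_cast; ring
  rw [this, Complex.norm_exp_ofReal_mul_I]

lemma enorm_integral_smul_le {φ : ℝ → ℂ} {g : ℝ → E} (hφ : MemLp φ 2 volume)
    (hg : AEStronglyMeasurable g volume) :
    ‖∫ t, φ t • g t‖ₑ ≤ eLpNorm φ 2 volume * eLpNorm g 2 volume := by
  calc ‖∫ t, φ t • g t‖ₑ ≤ ∫⁻ t, ‖φ t • g t‖ₑ := enorm_integral_le_lintegral_enorm _
    _ = eLpNorm (φ • g) 1 volume := by rw [eLpNorm_one_eq_lintegral_enorm]; rfl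
    _ ≤ _ := eLpNorm_smul_le_mul_eLpNorm (p := 2) (q := 2) (r := 1) hg hφ.1

lemma integrable_smul {φ : ℝ → ℂ} {g : ℝ → E} (hφ : MemLp φ 2 volume)
    (hg : MemLp g 2 volume) : Integrable (fun t => φ t • g t) volume := by
  have := MemLp.smul (p := 2) (q := 2) (r := 1) hg hφ
  exact memLp_one_iff_integrable.1 this

lemma memLp_unimod {e : ℝ → ℂ} (he : Continuous e) (hn : ∀ t, ‖e t‖ = 1) {g : ℝ → E}
    (hg : MemLp g 2 volume) : MemLp (fun t => e t • g t) 2 volume := by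
  refine hg.of_le (he.aestronglyMeasurable.smul hg.1) (Eventually.of_forall fun t => ?_)
  rw [norm_smul, hn, one_mul]

lemma HG_mul_exp [CompleteSpace E] {P : Set ℂ} (hP : ∀ a ∈ P, a.im ≠ 0) {f : ℝ → E}
    (hdense : ∀ ε : ℝ, 0 < ε → ∃ (s : Finset ℂ) (c : ℂ → E),
      (∀ b ∈ s, b ∈ P) ∧
      eLpNorm (fun t : ℝ => f t - ∑ b ∈ s, ((t : ℂ) - b)⁻¹ • c b) 2 volume ≤ ENNReal.ofReal ε)
    {e : ℝ → ℂ} (he : Continuous e) (hn : ∀ t, ‖e t‖ = 1)
    (hJ : ∀ a ∈ P, ∀ b ∈ P, ∫ t : ℝ, e t * (((t : ℂ) - a)⁻¹ * ((t : ℂ) - b)⁻¹) = 0)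
    (hf : HG P f) : HG P (fun t => e t • f t) := by
  refine ⟨memLp_unimod he hn hf.1, fun a ha => ?_⟩
  have hka := memLp_cauchy (hP a ha)
  set C := eLpNorm (fun t : ℝ => ((t : ℂ) - a)⁻¹) 2 volume with hC
  have hCtop : C ≠ ∞ := hka.2.ne
  have key : ∀ ε : ℝ, 0 < ε →
      ‖∫ t : ℝ, ((t : ℂ) - a)⁻¹ • (e t • f t)‖ₑ ≤ C * ENNReal.ofReal ε := by
    intro ε hε
    obtain ⟨s, c, hs, hsc⟩ := hdense ε hε
    set g : ℝ → E := fun t => ∑ b ∈ s, ((t : ℂ) - b)⁻¹ • c b with hg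
    have hgm : MemLp g 2 volume := by
      apply memLp_finsetSum
      intro b hb
      have := (memLp_cauchy (hP b (hs b hb)))
      refine (this.norm.mul_const ‖c b‖).of_le ?_ ?_
      · exact this.1.smul aestronglyMeasurable_const
      · refine Eventually.of_forall fun t => ?_
        rw [norm_smul]
        simp
    have hgz : ∫ t : ℝ, ((t : ℂ) - a)⁻¹ • (e t • g t) = 0 := by
      have h1 : ∀ t : ℝ, ((t : ℂ) - a)⁻¹ • (e t • g t) =
          ∑ b ∈ s, (e t * (((t : ℂ) - a)⁻¹ * ((t : ℂ) - b)⁻¹)) • c b := by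
        intro t
        rw [hg]
        simp only [Finset.smul_sum]
        refine Finset.sum_congr rfl fun b _ => ?_
        rw [smul_smul, smul_smul]
        congr 1
        ring
      simp_rw [h1]
      rw [integral_finsetSum]
      · refine Finset.sum_eq_zero fun b hb => ?_
        rw [integral_smul_const, hJ a ha b (hs b hb), zero_smul]
      · intro b hb
        have h2 : Integrable (fun t : ℝ => ((t : ℂ) - a)⁻¹ • (e t • ((t : ℂ) - b)⁻¹)) volume :=
          integrable_smul hka (memLp_unimod he hn (memLp_cauchy (hP b (hs b hb))))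
        have h3 : Integrable
            (fun t : ℝ => (((t : ℂ) - a)⁻¹ • (e t • ((t : ℂ) - b)⁻¹)) • c b) volume :=
          h2.smul_const _
        refine h3.congr (Eventually.of_forall fun t => ?_)
        simp only [smul_eq_mul]
        congr 1
        ring
    have hsub : ∫ t : ℝ, ((t : ℂ) - a)⁻¹ • (e t • f t) =
        ∫ t : ℝ, ((t : ℂ) - a)⁻¹ • (e t • (f t - g t)) := by
      have h4 : ∀ t : ℝ, ((t : ℂ) - a)⁻¹ • (e t • (f t - g t)) =
          ((t : ℂ) - a)⁻¹ • (e t • f t) - ((t : ℂ) - a)⁻¹ • (e t • g t) := by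
        intro t
        rw [smul_sub, smul_sub]
      simp_rw [h4]
      rw [integral_sub (integrable_smul hka (memLp_unimod he hn hf.1))
        (integrable_smul hka (memLp_unimod he hn hgm)), hgz, sub_zero]
    rw [hsub]
    have h5 : MemLp (fun t => f t - g t) 2 volume := hf.1.sub hgm
    refine (enorm_integral_smul_le hka (memLp_unimod he hn h5).1).trans ?_
    refine mul_le_mul_right ?_ C
    refine le_trans (le_of_eq ?_) hsc
    refine eLpNorm_congr_norm_ae (Eventually.of_forall fun t => ?_)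
    rw [norm_smul, hn, one_mul]
  have hfin : ‖∫ t : ℝ, ((t : ℂ) - a)⁻¹ • (e t • f t)‖ₑ ≤ 0 := by
    have hT : Tendsto (fun ε : ℝ => C * ENNReal.ofReal ε) (𝓝[>] 0) (𝓝 (C * 0)) := by
      refine ENNReal.Tendsto.const_mul ?_ (Or.inr hCtop)
      have : Tendsto (fun ε : ℝ => ENNReal.ofReal ε) (𝓝[>] 0) (𝓝 (ENNReal.ofReal 0)) :=
        (ENNReal.continuous_ofReal.tendsto 0).mono_left nhdsWithin_le_nhds
      simpa using this
    rw [mul_zero] at hT
    exact ge_of_tendsto hT (eventually_nhdsWithin_of_forall fun ε hε => key ε hε)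
  have := le_antisymm hfin bot_le
  exact enorm_eq_zero.1 this

lemma HG_mul_APW [CompleteSpace E] {P : Set ℂ} (hP : ∀ a ∈ P, a.im ≠ 0) {S : Set ℝ} {f : ℝ → E}
    (hexp : ∀ l ∈ S, HG P (fun t : ℝ => Complex.exp (Complex.I * l * t) • f t))
    {M : ℝ → E →L[ℂ] E} (hM : APW S M) (hf : HG P f) :
    HG P (fun t => M t (f t)) := by
  obtain ⟨A, hA, hAS, hMt⟩ := hM
  have hnorm : ∀ (l t : ℝ), ‖Complex.exp (Complex.I * l * t) • A l‖ = ‖A l‖ := by
    intro l t
    rw [norm_smul, norm_exp_I, one_mul]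
  have hMcont : Continuous M := by
    have : M = fun t : ℝ => ∑' l : ℝ, Complex.exp (Complex.I * l * t) • A l := funext hMt
    rw [this]
    refine continuous_tsum (fun l => by fun_prop) hA (fun l t => (hnorm l t).le)
  have hMbd : ∀ t, ‖M t‖ ≤ ∑' l, ‖A l‖ := by
    intro t
    rw [hMt]
    exact (norm_tsum_le_tsum_norm (by simpa [hnorm] using hA)).trans
      (le_of_eq (by simp_rw [hnorm]))
  have hmemp : MemLp (fun t => M t (f t)) 2 volume := by
    refine MemLp.of_le_mul (c := ∑' l, ‖A l‖) hf.1 ?_ (Eventually.of_forall fun t => ?_)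
    · have hc : Continuous (fun p : (E →L[ℂ] E) × E => p.1 p.2) :=
        isBoundedBilinearMap_apply.continuous
      exact hc.comp_aestronglyMeasurable (hMcont.aestronglyMeasurable.prodMk hf.1.1)
    · exact ((M t).le_opNorm (f t)).trans (mul_le_mul_of_nonneg_right (hMbd t) (norm_nonneg _))
  refine ⟨hmemp, fun a ha => ?_⟩
  have hka := memLp_cauchy (hP a ha)
  -- countable support
  have hcount : (Function.support (fun l => ‖A l‖)).Countable := hA.countable_support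
  set T : Set ℝ := Function.support (fun l => ‖A l‖) with hT
  haveI : Countable T := hcount.to_subtype
  have hexpand : ∀ t : ℝ, ((t : ℂ) - a)⁻¹ • (M t (f t)) =
      ∑' l : T, ((t : ℂ) - a)⁻¹ • (Complex.exp (Complex.I * (l : ℝ) * t) • A (l : ℝ) (f t)) := by
    intro t
    have hs : Summable (fun l : ℝ => Complex.exp (Complex.I * l * t) • A l) :=
      Summable.of_norm (by simpa [hnorm] using hA)
    have h1 : M t (f t) = ∑' l : ℝ, (Complex.exp (Complex.I * l * t) • A l) (f t) := by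
      rw [hMt]
      have := (ContinuousLinearMap.apply ℂ E (f t)).map_tsum hs
      simpa using this
    have hs2 : Summable (fun l : ℝ => (Complex.exp (Complex.I * l * t) • A l) (f t)) :=
      by simpa using (ContinuousLinearMap.apply ℂ E (f t)).summable hs
    rw [h1, ← hs2.tsum_const_smul]
    rw [← tsum_subtype_eq_of_support_subset (s := T)]
    · rfl
    · intro l hl
      rw [Function.mem_support] at hl ⊢
      intro h0
      apply hl
      rw [norm_eq_zero] at h0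
      simp [h0]
  simp_rw [hexpand]
  have hterm : ∀ l : T, ∫ t : ℝ, ((t : ℂ) - a)⁻¹ •
      (Complex.exp (Complex.I * (l : ℝ) * t) • A (l : ℝ) (f t)) = 0 := by
    intro l
    have hlS : (l : ℝ) ∈ S := by
      by_contra hcon
      exact l.2 (by simp [hAS _ hcon])
    have hH := hexp l hlS
    have h2 := hH.2 a ha
    have h3 : ∀ t : ℝ, ((t : ℂ) - a)⁻¹ •
      (Complex.exp (Complex.I * (l : ℝ) * t) • A (l : ℝ) (f t)) =
      A (l : ℝ) (((t : ℂ) - a)⁻¹ • (Complex.exp (Complex.I * (l : ℝ) * t) • f t)) := by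
      intro t
      rw [map_smul, map_smul]
    simp_rw [h3]
    rw [ContinuousLinearMap.integral_comp_comm _ (integrable_smul hka hH.1), h2, map_zero]
  have hint : ∀ l : T, Integrable (fun t : ℝ => ((t : ℂ) - a)⁻¹ •
      (Complex.exp (Complex.I * (l : ℝ) * t) • A (l : ℝ) (f t))) volume := by
    intro l
    refine integrable_smul hka (memLp_unimod (by fun_prop) (norm_exp_I l) ?_)
    exact ContinuousLinearMap.comp_memLp' (A (l : ℝ)) hf.1
  have hInt0 : Integrable (fun t : ℝ => ‖((t : ℂ) - a)⁻¹ • f t‖) volume :=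
    (integrable_smul hka hf.1).norm
  have hsum : Summable (fun l : T => ∫ t : ℝ, ‖((t : ℂ) - a)⁻¹ •
      (Complex.exp (Complex.I * (l : ℝ) * t) • A (l : ℝ) (f t))‖) := by
    have hb : ∀ l : T, ∫ t : ℝ, ‖((t : ℂ) - a)⁻¹ •
      (Complex.exp (Complex.I * (l : ℝ) * t) • A (l : ℝ) (f t))‖ ≤
        ‖A (l : ℝ)‖ * ∫ t : ℝ, ‖((t : ℂ) - a)⁻¹ • f t‖ := by
      intro l
      rw [← integral_const_mul]
      refine integral_mono (hint l).norm (hInt0.const_mul _) fun t => ?_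
      show ‖((t : ℂ) - a)⁻¹ •
      (Complex.exp (Complex.I * (l : ℝ) * t) • A (l : ℝ) (f t))‖ ≤ ‖A (l : ℝ)‖ * ‖((t : ℂ) - a)⁻¹ • f t‖
      rw [norm_smul, norm_smul, norm_smul, norm_exp_I, one_mul]
      have := (A (l : ℝ)).le_opNorm (f t)
      nlinarith [norm_nonneg (((t : ℂ) - a)⁻¹), norm_nonneg (f t)]
    refine Summable.of_nonneg_of_le (fun l => integral_nonneg fun t => norm_nonneg _) hb ?_
    exact (hA.subtype T).mul_right _
  have := hasSum_integral_of_summable_integral_norm hint hsum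
  rw [← this.tsum_eq]
  simp [hterm]

end Aux

variable {E : Type*} [NormedAddCommGroup E] [InnerProductSpace ℂ E] [FiniteDimensional ℂ E]

theorem Hm_mul_exp
    (hdense : ∀ f : ℝ → E, Hm 2 f → ∀ ε : ℝ, 0 < ε → ∃ (s : Finset ℂ) (c : ℂ → E),
      (∀ b ∈ s, 0 < b.im) ∧
      eLpNorm (fun t : ℝ => f t - ∑ b ∈ s, ((t : ℂ) - b)⁻¹ • c b) 2 volume ≤ ENNReal.ofReal ε)
    (hJ : ∀ (μ : ℝ), 0 ≤ μ → ∀ (a b : ℂ), 0 < a.im → 0 < b.im →
      ∫ t : ℝ, Complex.exp (-(Complex.I * μ * t)) * (((t : ℂ) - a)⁻¹ * ((t : ℂ) - b)⁻¹) = 0)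
    {f : ℝ → E} (hf : Hm 2 f) (l : ℝ) (hl : l ≤ 0) :
    Hm 2 (fun t : ℝ => Complex.exp (Complex.I * l * t) • f t) := by
  have hcs : CompleteSpace E := FiniteDimensional.complete ℂ E
  have h := HG_mul_exp (P := {a : ℂ | 0 < a.im}) (fun a ha => (ne_of_gt ha)) (f := f)
    (fun ε hε => hdense f hf ε hε) (e := fun t : ℝ => Complex.exp (Complex.I * l * t))
    (by fun_prop) (norm_exp_I l) (fun a ha b hb => by
      have := hJ (-l) (by linarith) a b ha hb
      rw [← this]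
      refine integral_congr_ae (Eventually.of_forall fun t => ?_)
      show Complex.exp (Complex.I * l * t) * _ = Complex.exp (-(Complex.I * ((-l : ℝ) : ℂ) * t)) * _
      congr 2
      push_cast
      ring) ⟨hf.1, fun a ha => hf.2 a ha⟩
  exact ⟨h.1, fun a ha => h.2 a ha⟩

theorem Hp_mul_exp
    (hdense : ∀ f : ℝ → E, Hp 2 f → ∀ ε : ℝ, 0 < ε → ∃ (s : Finset ℂ) (c : ℂ → E),
      (∀ b ∈ s, b.im < 0) ∧
      eLpNorm (fun t : ℝ => f t - ∑ b ∈ s, ((t : ℂ) - b)⁻¹ • c b) 2 volume ≤ ENNReal.ofReal ε)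
    (hJ : ∀ (μ : ℝ), 0 ≤ μ → ∀ (a b : ℂ), a.im < 0 → b.im < 0 →
      ∫ t : ℝ, Complex.exp (Complex.I * μ * t) * (((t : ℂ) - a)⁻¹ * ((t : ℂ) - b)⁻¹) = 0)
    {f : ℝ → E} (hf : Hp 2 f) (l : ℝ) (hl : 0 ≤ l) :
    Hp 2 (fun t : ℝ => Complex.exp (Complex.I * l * t) • f t) := by
  have hcs : CompleteSpace E := FiniteDimensional.complete ℂ E
  have h := HG_mul_exp (P := {a : ℂ | a.im < 0}) (fun a ha => (ne_of_lt ha)) (f := f)
    (fun ε hε => hdense f hf ε hε) (e := fun t : ℝ => Complex.exp (Complex.I * l * t))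
    (by fun_prop) (norm_exp_I l) (fun a ha b hb => hJ l hl a b ha hb) ⟨hf.1, fun a ha => hf.2 a ha⟩
  exact ⟨h.1, fun a ha => h.2 a ha⟩

theorem Hm_mul_APW
    (hexp : ∀ f : ℝ → E, Hm 2 f → ∀ l : ℝ, l ≤ 0 →
      Hm 2 (fun t : ℝ => Complex.exp (Complex.I * l * t) • f t))
    {M : ℝ → E →L[ℂ] E} (hM : APW (Iic 0) M) {f : ℝ → E} (hf : Hm 2 f) :
    Hm 2 (fun t => M t (f t)) := by
  have hcs : CompleteSpace E := FiniteDimensional.complete ℂ E
  have h := HG_mul_APW (P := {a : ℂ | 0 < a.im}) (fun a ha => (ne_of_gt ha)) (f := f)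
    (S := Iic 0) (fun l hl => ⟨(hexp f hf l hl).1, fun a ha => (hexp f hf l hl).2 a ha⟩) hM
    ⟨hf.1, fun a ha => hf.2 a ha⟩
  exact ⟨h.1, fun a ha => h.2 a ha⟩

theorem Hp_mul_APW
    (hexp : ∀ f : ℝ → E, Hp 2 f → ∀ l : ℝ, 0 ≤ l →
      Hp 2 (fun t : ℝ => Complex.exp (Complex.I * l * t) • f t))
    {M : ℝ → E →L[ℂ] E} (hM : APW (Ici 0) M) {f : ℝ → E} (hf : Hp 2 f) :
    Hp 2 (fun t => M t (f t)) := by
  have hcs : CompleteSpace E := FiniteDimensional.complete ℂ E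
  have h := HG_mul_APW (P := {a : ℂ | a.im < 0}) (fun a ha => (ne_of_lt ha)) (f := f)
    (S := Ici 0) (fun l hl => ⟨(hexp f hf l hl).1, fun a ha => (hexp f hf l hl).2 a ha⟩) hM
    ⟨hf.1, fun a ha => hf.2 a ha⟩
  exact ⟨h.1, fun a ha => h.2 a ha⟩

end A4
end Pool.Agent.Helper865.TAP
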