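import Pool.Agent.Helper865.TAP.Defs


set_option autoImplicit false

open MeasureTheory Filter Topology Set Metric
open scoped ENNReal NNReal

namespace Pool.Agent.Helper865.TAP
namespace A5



theorem memLp_one_add {p : ℝ≥0∞} (hp : 1 < p) :
    MemLp (fun t : ℝ => (1 + ‖t‖)⁻¹) p (volume : Measure ℝ) := by
  have h0 : ∀ t : ℝ, 1 + ‖t‖ ≠ 0 := fun t => by positivity
  have hcont : Continuous fun t : ℝ => (1 + ‖t‖)⁻¹ :=
    (continuous_const.add continuous_norm).inv₀ fun t => h0 t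
  by_cases htop : p = ⊤
  · subst htop
    refine memLp_top_of_bound hcont.aestronglyMeasurable 1 (Eventually.of_forall fun t => ?_)
    rw [Real.norm_of_nonneg (by positivity)]
    exact inv_le_one_of_one_le₀ (by linarith [norm_nonneg t])
  · rw [← integrable_norm_rpow_iff hcont.aestronglyMeasurable (by positivity) htop]
    have hr : (1 : ℝ) < p.toReal := by
      have := (ENNReal.toReal_lt_toReal (by simp) htop).2 hp
      simpa using this
    have h1 := integrable_one_add_norm (E := ℝ) (μ := volume) (r := p.toReal) (by simpa using hr)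
    refine h1.congr (Eventually.of_forall fun t => ?_)
    have h2 : 0 ≤ (1 + ‖t‖)⁻¹ := by positivity
    have h3 : 0 ≤ 1 + ‖t‖ := by positivity
    simp only
    rw [Real.norm_of_nonneg h2, Real.inv_rpow h3, Real.rpow_neg h3]

theorem sub_ne {b : ℂ} (hb : b.im ≠ 0) (t : ℝ) : (t : ℂ) - b ≠ 0 := by
  intro h
  have h2 := congrArg Complex.im h
  simp at h2
  exact hb h2

theorem cauchy_bound {b : ℂ} (hb : b.im ≠ 0) (t : ℝ) :
    ‖((t : ℂ) - b)⁻¹‖ ≤ (1 + (1 + ‖b‖) / |b.im|) * ‖(1 + ‖t‖)⁻¹‖ := by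
  have h0 : 0 < |b.im| := abs_pos.2 hb
  have h1 : |b.im| ≤ ‖(t : ℂ) - b‖ := by
    have := Complex.abs_im_le_norm ((t : ℂ) - b)
    simpa using this
  have h2 : ‖t‖ ≤ ‖(t : ℂ) - b‖ + ‖b‖ := by
    have := norm_add_le ((t : ℂ) - b) b
    rw [sub_add_cancel, Complex.norm_real] at this
    exact this
  have h3 : 0 < ‖(t : ℂ) - b‖ := lt_of_lt_of_le h0 h1
  rw [norm_inv, Real.norm_of_nonneg (by positivity), ← div_eq_mul_inv, le_div_iff₀ (by positivity),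
    inv_mul_le_iff₀ h3]
  have h4 : (1 + ‖b‖) ≤ ‖(t : ℂ) - b‖ * ((1 + ‖b‖) / |b.im|) := by
    rw [mul_div_assoc', le_div_iff₀ h0, mul_comm]
    gcongr
  have h5 : ‖(t : ℂ) - b‖ * (1 + (1 + ‖b‖) / |b.im|) =
      ‖(t : ℂ) - b‖ + ‖(t : ℂ) - b‖ * ((1 + ‖b‖) / |b.im|) := by ring
  rw [h5]
  linarith

variable {E : Type*} [NormedAddCommGroup E] [InnerProductSpace ℂ E] [FiniteDimensional ℂ E]

omit [FiniteDimensional ℂ E] in
theorem memLp_cauchy {p : ℝ≥0∞} (hp : 1 < p) {b : ℂ} (hb : b.im ≠ 0) (e : E) {c : ℝ → ℂ}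
    (hc : Continuous c) (K : ℝ) (hK : ∀ t, ‖c t‖ ≤ K) :
    MemLp (fun t : ℝ => c t • (((t : ℂ) - b)⁻¹ • e)) p volume := by
  have hcont : Continuous fun t : ℝ => ((t : ℂ) - b)⁻¹ :=
    (Complex.continuous_ofReal.sub continuous_const).inv₀ fun t => sub_ne hb t
  refine MemLp.of_le_mul (c := K * (1 + (1 + ‖b‖) / |b.im|) * ‖e‖) (memLp_one_add hp)
    (hc.smul (hcont.smul continuous_const)).aestronglyMeasurable (Eventually.of_forall fun t => ?_)
  rw [norm_smul, norm_smul]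
  have h1 := cauchy_bound hb t
  have hK0 : 0 ≤ K := (norm_nonneg _).trans (hK t)
  calc ‖c t‖ * (‖((t : ℂ) - b)⁻¹‖ * ‖e‖)
      ≤ K * (((1 + (1 + ‖b‖) / |b.im|) * ‖(1 + ‖t‖)⁻¹‖) * ‖e‖) := by
        gcongr
        exact hK t
    _ = _ := by ring

theorem pull_out (c : ℝ → ℂ) (a b : ℂ) (e : E) :
    ∫ t : ℝ, ((t : ℂ) - a)⁻¹ • (c t • (((t : ℂ) - b)⁻¹ • e)) =
      (∫ t : ℝ, c t * (((t : ℂ) - a)⁻¹ * ((t : ℂ) - b)⁻¹)) • e := by
  have : CompleteSpace E := FiniteDimensional.complete ℂ E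
  rw [← integral_smul_const]
  congr 1
  ext t
  rw [smul_smul, smul_smul]
  congr 1
  ring

theorem norm_exp_I (l t : ℝ) : ‖Complex.exp (Complex.I * l * t)‖ = 1 := by
  rw [Complex.norm_exp]
  simp

theorem exp_cauchy_Hm
    (hJ : ∀ (μ : ℝ), 0 ≤ μ → ∀ (a b : ℂ), 0 < a.im → 0 < b.im →
      ∫ t : ℝ, Complex.exp (-(Complex.I * μ * t)) * (((t : ℂ) - a)⁻¹ * ((t : ℂ) - b)⁻¹) = 0)
    {p : ℝ≥0∞} (hp : 1 < p) (b : ℂ) (hb : 0 < b.im) (l : ℝ) (hl : l ≤ 0) (e : E) :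
    Hm p (fun t : ℝ => Complex.exp (Complex.I * l * t) • (((t : ℂ) - b)⁻¹ • e)) := by
  refine ⟨memLp_cauchy hp hb.ne' e (by fun_prop) 1 fun t => (norm_exp_I l t).le, fun a ha => ?_⟩
  rw [pull_out]
  have h := hJ (-l) (by linarith) a b ha hb
  have e1 : ∀ t : ℝ, Complex.exp (-(Complex.I * ((-l : ℝ) : ℂ) * t)) =
      Complex.exp (Complex.I * l * t) := by
    intro t
    congr 1
    push_cast
    ring
  simp only [e1] at h
  rw [h, zero_smul]

theorem exp_cauchy_Hp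
    (hJ : ∀ (μ : ℝ), 0 ≤ μ → ∀ (a b : ℂ), a.im < 0 → 0 < b.im →
      ∫ t : ℝ, (Complex.exp (Complex.I * μ * t) - Complex.exp (Complex.I * μ * b)) *
        (((t : ℂ) - a)⁻¹ * ((t : ℂ) - b)⁻¹) = 0)
    {p : ℝ≥0∞} (hp : 1 < p) (b : ℂ) (hb : 0 < b.im) (l : ℝ) (hl : 0 ≤ l) (e : E) :
    Hp p (fun t : ℝ => (Complex.exp (Complex.I * l * t) - Complex.exp (Complex.I * l * b)) •
      (((t : ℂ) - b)⁻¹ • e)) := by
  refine ⟨memLp_cauchy hp hb.ne' e (by fun_prop) (1 + ‖Complex.exp (Complex.I * l * b)‖)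
    fun t => ?_, fun a ha => ?_⟩
  · refine (norm_sub_le _ _).trans ?_
    rw [norm_exp_I]
  · rw [pull_out]
    rw [hJ l hl a b ha hb, zero_smul]

theorem exp_cauchy_Hm'
    (hJ : ∀ (μ : ℝ), 0 ≤ μ → ∀ (a b : ℂ), a.im < 0 → 0 < b.im →
      ∫ t : ℝ, (Complex.exp (Complex.I * μ * t) - Complex.exp (Complex.I * μ * b)) *
        (((t : ℂ) - a)⁻¹ * ((t : ℂ) - b)⁻¹) = 0)
    {p : ℝ≥0∞} (hp : 1 < p) (b : ℂ) (hb : b.im < 0) (l : ℝ) (hl : l ≤ 0) (e : E) :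
    Hm p (fun t : ℝ => (Complex.exp (Complex.I * l * t) - Complex.exp (Complex.I * l * b)) •
      (((t : ℂ) - b)⁻¹ • e)) := by
  refine ⟨memLp_cauchy hp hb.ne e (by fun_prop) (1 + ‖Complex.exp (Complex.I * l * b)‖)
    fun t => ?_, fun a ha => ?_⟩
  · refine (norm_sub_le _ _).trans ?_
    rw [norm_exp_I]
  · rw [pull_out]
    have h := hJ (-l) (by linarith) (-a) (-b) (by simpa using ha) (by simpa using hb)
    rw [← integral_neg_eq_self] at h
    have e1 : ∀ t : ℝ, (Complex.exp (Complex.I * ((-l : ℝ) : ℂ) * ((-t : ℝ) : ℂ)) -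
        Complex.exp (Complex.I * ((-l : ℝ) : ℂ) * (-b))) *
        ((((-t : ℝ) : ℂ) - (-a))⁻¹ * (((-t : ℝ) : ℂ) - (-b))⁻¹) =
        (Complex.exp (Complex.I * l * t) - Complex.exp (Complex.I * l * b)) *
        (((t : ℂ) - a)⁻¹ * ((t : ℂ) - b)⁻¹) := by
      intro t
      have a1 : Complex.I * ((-l : ℝ) : ℂ) * ((-t : ℝ) : ℂ) = Complex.I * l * t := by
        push_cast; ring
      have a2 : Complex.I * ((-l : ℝ) : ℂ) * (-b) = Complex.I * l * b := by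
        push_cast; ring
      have a3 : ((-t : ℝ) : ℂ) - (-a) = -((t : ℂ) - a) := by push_cast; ring
      have a4 : ((-t : ℝ) : ℂ) - (-b) = -((t : ℂ) - b) := by push_cast; ring
      rw [a1, a2, a3, a4, inv_neg, inv_neg]
      ring
    simp only [e1] at h
    rw [h, zero_smul]

end A5
end Pool.Agent.Helper865.TAP
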