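import Pool.Agent.Helper865.TAP.Defs


set_option autoImplicit false

open MeasureTheory Filter Topology Set Metric
open scoped ENNReal NNReal

namespace Pool.Agent.Helper865.TAP
namespace A6



variable {E : Type*} [NormedAddCommGroup E] [InnerProductSpace ℂ E] [FiniteDimensional ℂ E]

theorem escape_aux_cauchy (a : ℂ) (ha : a.im ≠ 0) :
    MemLp (fun t : ℝ => ((t : ℂ) - a)⁻¹) 2 volume := by
  have hm : AEStronglyMeasurable (fun t : ℝ => ((t : ℂ) - a)⁻¹) volume :=
    ((Complex.measurable_ofReal.sub_const a).inv).aestronglyMeasurable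
  rw [memLp_two_iff_integrable_sq_norm hm]
  have h1 : (fun t : ℝ => ‖((t : ℂ) - a)⁻¹‖ ^ 2) =
      fun t : ℝ => (a.im ^ 2)⁻¹ * (1 + ((t - a.re) / a.im) ^ 2)⁻¹ := by
    funext t
    rw [norm_inv, inv_pow, ← Complex.normSq_eq_norm_sq, Complex.normSq_apply, ← mul_inv]
    congr 1
    simp only [Complex.sub_re, Complex.ofReal_re, Complex.sub_im, Complex.ofReal_im]
    field_simp
    ring
  rw [h1]
  have h2 : Integrable (fun t : ℝ => (1 + ((t - a.re) / a.im) ^ 2)⁻¹) :=
    ((integrable_inv_one_add_sq.comp_div ha).comp_sub_right a.re)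
  exact h2.const_mul _

theorem escape_aux_int {f : ℝ → E} (hf : MemLp f 2 volume) (a : ℂ) (ha : a.im ≠ 0) :
    Integrable (fun t : ℝ => ((t : ℂ) - a)⁻¹ • f t) := by
  have h := MemLp.smul (r := 1) hf (escape_aux_cauchy a ha)
  exact memLp_one_iff_integrable.mp h

theorem escape_aux_Hm_add {f g : ℝ → E} (hf : Hm 2 f) (hg : Hm 2 g) :
    Hm 2 (fun t => f t + g t) := by
  refine ⟨hf.1.add hg.1, fun a ha => ?_⟩
  simp only [smul_add]
  rw [integral_add (escape_aux_int hf.1 a ha.ne') (escape_aux_int hg.1 a ha.ne'), hf.2 a ha,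
    hg.2 a ha, add_zero]

theorem escape_aux_Hm_sub {f g : ℝ → E} (hf : Hm 2 f) (hg : Hm 2 g) :
    Hm 2 (fun t => f t - g t) := by
  refine ⟨hf.1.sub hg.1, fun a ha => ?_⟩
  simp only [smul_sub]
  rw [integral_sub (escape_aux_int hf.1 a ha.ne') (escape_aux_int hg.1 a ha.ne'), hf.2 a ha,
    hg.2 a ha, sub_zero]

theorem escape_aux_Hp_add {f g : ℝ → E} (hf : Hp 2 f) (hg : Hp 2 g) :
    Hp 2 (fun t => f t + g t) := by
  refine ⟨hf.1.add hg.1, fun a ha => ?_⟩
  simp only [smul_add]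
  rw [integral_add (escape_aux_int hf.1 a ha.ne) (escape_aux_int hg.1 a ha.ne), hf.2 a ha,
    hg.2 a ha, add_zero]

theorem escape_aux_Hp_sub {f g : ℝ → E} (hf : Hp 2 f) (hg : Hp 2 g) :
    Hp 2 (fun t => f t - g t) := by
  refine ⟨hf.1.sub hg.1, fun a ha => ?_⟩
  simp only [smul_sub]
  rw [integral_sub (escape_aux_int hf.1 a ha.ne) (escape_aux_int hg.1 a ha.ne), hf.2 a ha,
    hg.2 a ha, sub_zero]

theorem escape_aux_Hm_zero : Hm 2 (fun _ : ℝ => (0 : E)) :=
  ⟨MemLp.zero', fun a _ => by simp⟩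

theorem escape_aux_Hp_zero : Hp 2 (fun _ : ℝ => (0 : E)) :=
  ⟨MemLp.zero', fun a _ => by simp⟩

theorem escape_aux_Hm_sum (s : Finset ℂ) (f : ℂ → ℝ → E) (h : ∀ b ∈ s, Hm 2 (f b)) :
    Hm 2 (fun t => ∑ b ∈ s, f b t) := by
  classical
  induction s using Finset.induction_on with
  | empty => simpa using escape_aux_Hm_zero
  | insert b s hb ih =>
    simp only [Finset.sum_insert hb]
    exact escape_aux_Hm_add (h b (Finset.mem_insert_self _ _))
      (ih fun b' hb' => h b' (Finset.mem_insert_of_mem hb'))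

theorem escape_aux_Hp_sum (s : Finset ℂ) (f : ℂ → ℝ → E) (h : ∀ b ∈ s, Hp 2 (f b)) :
    Hp 2 (fun t => ∑ b ∈ s, f b t) := by
  classical
  induction s using Finset.induction_on with
  | empty => simpa using escape_aux_Hp_zero
  | insert b s hb ih =>
    simp only [Finset.sum_insert hb]
    exact escape_aux_Hp_add (h b (Finset.mem_insert_self _ _))
      (ih fun b' hb' => h b' (Finset.mem_insert_of_mem hb'))

theorem escape_aux_inner {u v : ℝ → E} (hu : MemLp u 2 volume) (hv : MemLp v 2 volume)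
    (h0 : ∫ t : ℝ, inner ℂ (u t) (v t) = 0) :
    inner ℂ (hu.toLp u) (hv.toLp v) = 0 := by
  rw [L2.inner_def, ← h0]
  apply integral_congr_ae
  filter_upwards [hu.coeFn_toLp, hv.coeFn_toLp] with t h1 h2
  rw [h1, h2]

theorem escape_aux_pyth {u v : ℝ → E} (hu : MemLp u 2 volume) (hv : MemLp v 2 volume)
    (h0 : ∫ t : ℝ, inner ℂ (u t) (v t) = 0) :
    eLpNorm u 2 volume ≤ eLpNorm (fun t => u t + v t) 2 volume ∧
      eLpNorm v 2 volume ≤ eLpNorm (fun t => u t + v t) 2 volume := by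
  have h1 := norm_add_sq_eq_norm_sq_add_norm_sq_of_inner_eq_zero _ _ (escape_aux_inner hu hv h0)
  have h2 : hu.toLp u + hv.toLp v = (hu.add hv).toLp (u + v) := (MemLp.toLp_add hu hv).symm
  rw [h2] at h1
  rw [Lp.norm_toLp, Lp.norm_toLp, Lp.norm_toLp] at h1
  have e : eLpNorm (fun t => u t + v t) 2 volume = eLpNorm (u + v) 2 volume := rfl
  rw [e]
  have f1 := ENNReal.toReal_nonneg (a := eLpNorm u 2 volume)
  have f2 := ENNReal.toReal_nonneg (a := eLpNorm v 2 volume)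
  have f3 := ENNReal.toReal_nonneg (a := eLpNorm (u + v) 2 volume)
  constructor
  · rw [← ENNReal.toReal_le_toReal hu.2.ne (hu.add hv).2.ne]
    nlinarith
  · rw [← ENNReal.toReal_le_toReal hv.2.ne (hu.add hv).2.ne]
    nlinarith

theorem escape_aux_unique {d d' : ℝ → E} (hd : MemLp d 2 volume) (hd' : MemLp d' 2 volume)
    (h0 : ∫ t : ℝ, inner ℂ (d t) (d' t) = 0) (he : d =ᵐ[volume] d') : d' =ᵐ[volume] 0 := by
  have h1 := escape_aux_inner hd hd' h0
  have h2 : hd.toLp d = hd'.toLp d' := (MemLp.toLp_eq_toLp_iff hd hd').mpr he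
  rw [h2, inner_self_eq_zero] at h1
  rw [Lp.eq_zero_iff_ae_eq_zero] at h1
  exact hd'.coeFn_toLp.symm.trans h1

theorem escape_aux_mod {f : ℝ → E} (hf : MemLp f 2 volume) (l : ℝ) :
    MemLp (fun t : ℝ => Complex.exp (Complex.I * l * t) • f t) 2 volume ∧
    eLpNorm (fun t : ℝ => Complex.exp (Complex.I * l * t) • f t) 2 volume =
      eLpNorm f 2 volume := by
  have hn : ∀ t : ℝ, ‖Complex.exp (Complex.I * l * t) • f t‖ = ‖f t‖ := by
    intro t
    have : Complex.I * l * t = ((l * t : ℝ) : ℂ) * Complex.I := by push_cast; ring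
    rw [norm_smul, this, Complex.norm_exp_ofReal_mul_I, one_mul]
  have hc : Continuous (fun t : ℝ => Complex.exp (Complex.I * l * t)) := by fun_prop
  refine ⟨hf.congr_norm (hc.aestronglyMeasurable.smul hf.1)
    (Eventually.of_forall fun t => (hn t).symm), eLpNorm_congr_norm_ae (Eventually.of_forall hn)⟩

/-- The `Hp` component of `e^{-iμt} h` tends to zero as `μ → ∞`. -/
theorem escape_Hp
    (hdecomp : ∀ f : ℝ → E, MemLp f 2 volume → ∃ u v : ℝ → E, Hm 2 u ∧ Hp 2 v ∧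
      ∀ t, f t = u t + v t)
    (horth : ∀ u v : ℝ → E, Hm 2 u → Hp 2 v → ∫ t : ℝ, inner ℂ (u t) (v t) = 0)
    (hmul : ∀ f : ℝ → E, Hm 2 f → ∀ l : ℝ, l ≤ 0 →
      Hm 2 (fun t : ℝ => Complex.exp (Complex.I * l * t) • f t))
    (hdense : ∀ f : ℝ → E, Hp 2 f → ∀ ε : ℝ, 0 < ε → ∃ (s : Finset ℂ) (c : ℂ → E),
      (∀ b ∈ s, b.im < 0) ∧
      eLpNorm (fun t : ℝ => f t - ∑ b ∈ s, ((t : ℂ) - b)⁻¹ • c b) 2 volume ≤ ENNReal.ofReal ε)
    (hcp : ∀ (b : ℂ), b.im < 0 → ∀ e : E, Hp 2 (fun t : ℝ => ((t : ℂ) - b)⁻¹ • e))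
    (hcm : ∀ (b : ℂ), b.im < 0 → ∀ (l : ℝ), l ≤ 0 → ∀ e : E,
      Hm 2 (fun t : ℝ => (Complex.exp (Complex.I * l * t) - Complex.exp (Complex.I * l * b)) •
      (((t : ℂ) - b)⁻¹ • e)))
    (h : ℝ → E) (hh : MemLp h 2 volume) (ε : ℝ) (hε : 0 < ε) :
    ∃ μ₀ : ℝ, ∀ μ : ℝ, μ₀ ≤ μ → ∀ u v : ℝ → E, Hm 2 u → Hp 2 v →
      (∀ᵐ t : ℝ, Complex.exp (-(Complex.I * μ * t)) • h t = u t + v t) →
      eLpNorm v 2 volume ≤ ENNReal.ofReal ε := by
  obtain ⟨hm, hp, hhm, hhp, hsum⟩ := hdecomp h hh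
  obtain ⟨s, c, hs, hdist⟩ := hdense hp hhp (ε / 2) (half_pos hε)
  -- the decaying part
  set A : ℂ → ℝ≥0∞ := fun b => eLpNorm (fun t : ℝ => ((t : ℂ) - b)⁻¹ • c b) 2 volume with hA
  have hAfin : ∀ b ∈ s, A b ≠ ⊤ := fun b hb => (hcp b (hs b hb) (c b)).1.2.ne
  have htend : Tendsto (fun μ : ℝ => ∑ b ∈ s, Real.exp (μ * b.im) * (A b).toReal) atTop (𝓝 0) := by
    have : (0 : ℝ) = ∑ b ∈ s, 0 * (A b).toReal := by simp
    rw [this]
    apply tendsto_finsetSum
    intro b hb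
    apply Tendsto.mul_const
    exact Real.tendsto_exp_atBot.comp (tendsto_id.atTop_mul_const_of_neg (hs b hb))
  obtain ⟨μ₁, hμ₁⟩ := (eventually_atTop.mp (htend.eventually_le_const (half_pos hε)))
  refine ⟨max μ₁ 0, fun μ hμ u v hu hv huv => ?_⟩
  have hμ1 : μ₁ ≤ μ := (le_max_left _ _).trans hμ
  have hμ0 : 0 ≤ μ := (le_max_right _ _).trans hμ
  set l : ℝ := -μ with hl
  have hl0 : l ≤ 0 := by rw [hl]; linarith
  set k : ℝ → E := fun t => ∑ b ∈ s, ((t : ℂ) - b)⁻¹ • c b with hk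
  have hkp : Hp 2 k := escape_aux_Hp_sum s _ fun b hb => hcp b (hs b hb) (c b)
  set kp : ℝ → E := fun t => ∑ b ∈ s, ((t : ℂ) - b)⁻¹ • (Complex.exp (Complex.I * l * b) • c b)
    with hkpd
  have hkpH : Hp 2 kp := escape_aux_Hp_sum s _ fun b hb => hcp b (hs b hb) _
  set km : ℝ → E := fun t => ∑ b ∈ s, (Complex.exp (Complex.I * l * t) -
    Complex.exp (Complex.I * l * b)) • (((t : ℂ) - b)⁻¹ • c b) with hkmd
  have hkmH : Hm 2 km := escape_aux_Hm_sum s _ fun b hb => hcm b (hs b hb) l hl0 (c b)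
  have hkk : ∀ t : ℝ, Complex.exp (Complex.I * l * t) • k t = kp t + km t := by
    intro t
    simp only [hk, hkpd, hkmd]
    rw [Finset.smul_sum, ← Finset.sum_add_distrib]
    apply Finset.sum_congr rfl
    intro b _
    rw [sub_smul, smul_comm (((t : ℂ) - b)⁻¹) (Complex.exp (Complex.I * l * b))]
    abel
  have hrem : MemLp (fun t => hp t - k t) 2 volume := hhp.1.sub hkp.1
  obtain ⟨hr1, hr2⟩ := escape_aux_mod hrem l
  obtain ⟨rm, rp, hrm, hrp, hrsum⟩ := hdecomp _ hr1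
  have hrp_le : eLpNorm rp 2 volume ≤ ENNReal.ofReal (ε / 2) := by
    have h1 := (escape_aux_pyth hrm.1 hrp.1 (horth rm rp hrm hrp)).2
    have h2 : (fun t => rm t + rp t) =
        fun t : ℝ => Complex.exp (Complex.I * l * t) • (hp t - k t) := by
      funext t; rw [hrsum t]
    rw [h2, hr2] at h1
    exact h1.trans hdist
  -- the competing decomposition
  have hu' : Hm 2 (fun t => (Complex.exp (Complex.I * l * t) • hm t + km t) + rm t) :=
    escape_aux_Hm_add (escape_aux_Hm_add (hmul hm hhm l hl0) hkmH) hrm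
  have hv' : Hp 2 (fun t => kp t + rp t) := escape_aux_Hp_add hkpH hrp
  have hsum' : ∀ t : ℝ, Complex.exp (-(Complex.I * μ * t)) • h t =
      ((Complex.exp (Complex.I * l * t) • hm t + km t) + rm t) + (kp t + rp t) := by
    intro t
    have e1 : -(Complex.I * μ * t) = Complex.I * l * t := by rw [hl]; push_cast; ring
    have e2 := hrsum t
    have e3 := hkk t
    rw [smul_sub] at e2
    rw [e1, hsum t, smul_add]
    have e4 : Complex.exp (Complex.I * l * t) • hp t = rm t + rp t + (kp t + km t) := by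
      rw [← e2, ← e3]; abel
    rw [e4]; abel
  have hD1 := escape_aux_Hm_sub hu hu'
  have hD2 := escape_aux_Hp_sub hv' hv
  have hDeq : (fun t => u t - ((Complex.exp (Complex.I * l * t) • hm t + km t) + rm t))
      =ᵐ[volume] (fun t => (kp t + rp t) - v t) := by
    filter_upwards [huv] with t ht
    rw [hsum' t] at ht
    rw [sub_eq_sub_iff_add_eq_add, ← ht]
    abel
  have hzero := escape_aux_unique hD1.1 hD2.1 (horth _ _ hD1 hD2) hDeq
  have hveq : v =ᵐ[volume] (fun t => kp t + rp t) := by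
    filter_upwards [hzero] with t ht
    exact (sub_eq_zero.mp ht).symm
  rw [eLpNorm_congr_ae hveq]
  have hkp_le : eLpNorm kp 2 volume ≤ ENNReal.ofReal (ε / 2) := by
    have h1 : kp = ∑ b ∈ s, fun t : ℝ => ((t : ℂ) - b)⁻¹ • (Complex.exp (Complex.I * l * b) • c b) := by
      funext t
      rw [Finset.sum_apply]
    rw [h1]
    refine (eLpNorm_sum_le (fun b hb => (hcp b (hs b hb) _).1.1) (by norm_num)).trans ?_
    have h2 : ∀ b ∈ s, eLpNorm (fun t : ℝ => ((t : ℂ) - b)⁻¹ •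
        (Complex.exp (Complex.I * l * b) • c b)) 2 volume =
        ENNReal.ofReal (Real.exp (μ * b.im) * (A b).toReal) := by
      intro b hb
      have h3 : (fun t : ℝ => ((t : ℂ) - b)⁻¹ • (Complex.exp (Complex.I * l * b) • c b)) =
          Complex.exp (Complex.I * l * b) • (fun t : ℝ => ((t : ℂ) - b)⁻¹ • c b) := by
        funext t
        rw [Pi.smul_apply, smul_comm]
      rw [h3, eLpNorm_const_smul, ENNReal.ofReal_mul (Real.exp_nonneg _),
        ENNReal.ofReal_toReal (hAfin b hb)]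
      congr 1
      rw [← ofReal_norm, Complex.norm_exp]
      congr 2
      rw [hl]
      simp [Complex.mul_re, Complex.mul_im]
    rw [Finset.sum_congr rfl h2, ← ENNReal.ofReal_sum_of_nonneg
      (fun b _ => mul_nonneg (Real.exp_nonneg _) ENNReal.toReal_nonneg)]
    exact ENNReal.ofReal_le_ofReal (hμ₁ μ hμ1)
  calc eLpNorm (fun t => kp t + rp t) 2 volume ≤ eLpNorm kp 2 volume + eLpNorm rp 2 volume :=
        eLpNorm_add_le hkpH.1.1 hrp.1.1 (by norm_num)
    _ ≤ ENNReal.ofReal (ε / 2) + ENNReal.ofReal (ε / 2) := add_le_add hkp_le hrp_le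
    _ = ENNReal.ofReal ε := by
        rw [← ENNReal.ofReal_add (by positivity) (by positivity), add_halves]

theorem escape_aux_G {G : ℝ → E →L[ℂ] E} (hG : Continuous G) {M : ℝ} (hM : ∀ t, ‖G t‖ ≤ M)
    {f : ℝ → E} (hf : MemLp f 2 volume) :
    MemLp (fun t => G t (f t)) 2 volume ∧
      eLpNorm (fun t => G t (f t)) 2 volume ≤ ENNReal.ofReal M * eLpNorm f 2 volume := by
  have hm : AEStronglyMeasurable (fun t => G t (f t)) volume :=
    (isBoundedBilinearMap_apply (𝕜 := ℂ) (E := E) (F := E)).continuous.comp_aestronglyMeasurable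
      (hG.aestronglyMeasurable.prodMk hf.1)
  have hb : ∀ t, ‖G t (f t)‖ ≤ M * ‖f t‖ := fun t =>
    ((G t).le_opNorm _).trans (mul_le_mul_of_nonneg_right (hM t) (norm_nonneg _))
  exact ⟨MemLp.of_le_mul hf hm (Eventually.of_forall hb),
    eLpNorm_le_mul_eLpNorm_of_ae_le_mul (Eventually.of_forall hb) 2⟩

theorem escape_aux_L2lower
    (hdecomp : ∀ f : ℝ → E, MemLp f 2 volume → ∃ u v : ℝ → E, Hm 2 u ∧ Hp 2 v ∧
      ∀ t, f t = u t + v t)
    (horth : ∀ u v : ℝ → E, Hm 2 u → Hp 2 v → ∫ t : ℝ, inner ℂ (u t) (v t) = 0)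
    (hescape : ∀ h : ℝ → E, MemLp h 2 volume → ∀ ε : ℝ, 0 < ε →
      ∃ μ₀ : ℝ, ∀ μ : ℝ, μ₀ ≤ μ → ∀ u v : ℝ → E, Hm 2 u → Hp 2 v →
      (∀ᵐ t : ℝ, Complex.exp (-(Complex.I * μ * t)) • h t = u t + v t) →
      eLpNorm v 2 volume ≤ ENNReal.ofReal ε)
    {G : ℝ → E →L[ℂ] E} (hG : Continuous G) {M : ℝ} (hM : ∀ t, ‖G t‖ ≤ M) {K : ℝ} (hK : 0 ≤ K)
    (hBB : BB 2 G K) {h : ℝ → E} (hh : MemLp h 2 volume) :
    (eLpNorm h 2 volume).toReal ≤ K * (eLpNorm (fun s => G s (h s)) 2 volume).toReal := by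
  have hM0 : 0 ≤ M := (norm_nonneg _).trans (hM 0)
  apply le_of_forall_pos_le_add
  intro η hη
  set ε : ℝ := η / (K * M + 1) with hε
  have hKM : 0 < K * M + 1 := by positivity
  have hε0 : 0 < ε := by positivity
  obtain ⟨μ, hμ⟩ := hescape h hh ε hε0
  obtain ⟨hF1, hF2⟩ := escape_aux_mod hh (-μ)
  set F : ℝ → E := fun t : ℝ => Complex.exp (Complex.I * ((-μ : ℝ) : ℂ) * t) • h t with hF
  obtain ⟨u, v, hu, hv, huv⟩ := hdecomp F hF1
  have hvε : eLpNorm v 2 volume ≤ ENNReal.ofReal ε := by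
    apply hμ μ le_rfl u v hu hv
    refine Eventually.of_forall fun t => ?_
    rw [← huv t, hF]
    simp only
    congr 2
    push_cast
    ring
  obtain ⟨hGu1, _⟩ := escape_aux_G hG hM hu.1
  obtain ⟨hGv1, hGv2⟩ := escape_aux_G hG hM hv.1
  obtain ⟨hGh1, _⟩ := escape_aux_G hG hM hh
  obtain ⟨w, w', hw, hw', hww⟩ := hdecomp _ hGu1
  have hsub : (fun t => G t (u t) - w t) = w' := by
    funext t
    have := hww t
    rw [this]; abel
  have h1 := hBB u w hu hw (by rw [hsub]; exact hw')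
  have h2 : eLpNorm w 2 volume ≤ eLpNorm (fun t => G t (u t)) 2 volume := by
    have h3 := (escape_aux_pyth hw.1 hw'.1 (horth w w' hw hw')).1
    have h4 : (fun t => w t + w' t) = fun t => G t (u t) := by
      funext t; exact (hww t).symm
    rwa [h4] at h3
  have hGF : eLpNorm (fun t => G t (F t)) 2 volume = eLpNorm (fun t => G t (h t)) 2 volume := by
    have h3 : (fun t => G t (F t)) =
        fun t : ℝ => Complex.exp (Complex.I * ((-μ : ℝ) : ℂ) * t) • G t (h t) := by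
      funext t
      simp only [hF]
      rw [map_smul]
    rw [h3]
    exact (escape_aux_mod hGh1 (-μ)).2
  have hGF1 : MemLp (fun t => G t (F t)) 2 volume := (escape_aux_G hG hM hF1).1
  have h3 : eLpNorm (fun t => G t (u t)) 2 volume ≤
      eLpNorm (fun t => G t (h t)) 2 volume + eLpNorm (fun t => G t (v t)) 2 volume := by
    have h4 : (fun t => G t (u t)) = (fun t => G t (F t)) - fun t => G t (v t) := by
      funext t
      rw [Pi.sub_apply, huv t, map_add]
      abel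
    rw [h4]
    refine (eLpNorm_sub_le hGF1.1 hGv1.1 (by norm_num)).trans ?_
    rw [hGF]
  have h5 : eLpNorm h 2 volume ≤ eLpNorm u 2 volume + eLpNorm v 2 volume := by
    rw [← hF2]
    have h6 : F = fun t => u t + v t := funext huv
    rw [h6]
    exact eLpNorm_add_le hu.1.1 hv.1.1 (by norm_num)
  -- convert to reals
  set a := (eLpNorm h 2 volume).toReal with ha
  set b := (eLpNorm (fun s => G s (h s)) 2 volume).toReal with hb
  set cu := (eLpNorm u 2 volume).toReal with hcu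
  set cv := (eLpNorm v 2 volume).toReal with hcv
  set cw := (eLpNorm w 2 volume).toReal with hcw
  set gu := (eLpNorm (fun t => G t (u t)) 2 volume).toReal with hgu
  set gv := (eLpNorm (fun t => G t (v t)) 2 volume).toReal with hgv
  have r1 : cu ≤ K * cw := by
    have := ENNReal.toReal_mono (ENNReal.mul_ne_top ENNReal.ofReal_ne_top hw.1.2.ne) h1
    rwa [ENNReal.toReal_mul, ENNReal.toReal_ofReal hK] at this
  have r2 : cw ≤ gu := ENNReal.toReal_mono hGu1.2.ne h2
  have r3 : gu ≤ b + gv := by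
    have := ENNReal.toReal_mono (ENNReal.add_ne_top.mpr ⟨hGh1.2.ne, hGv1.2.ne⟩) h3
    rwa [ENNReal.toReal_add hGh1.2.ne hGv1.2.ne] at this
  have r4 : gv ≤ M * cv := by
    have := ENNReal.toReal_mono (ENNReal.mul_ne_top ENNReal.ofReal_ne_top hv.1.2.ne) hGv2
    rwa [ENNReal.toReal_mul, ENNReal.toReal_ofReal hM0] at this
  have r5 : cv ≤ ε := by
    have := ENNReal.toReal_mono ENNReal.ofReal_ne_top hvε
    rwa [ENNReal.toReal_ofReal hε0.le] at this
  have r6 : a ≤ cu + cv := by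
    have := ENNReal.toReal_mono (ENNReal.add_ne_top.mpr ⟨hu.1.2.ne, hv.1.2.ne⟩) h5
    rwa [ENNReal.toReal_add hu.1.2.ne hv.1.2.ne] at this
  have r7 : K * cw ≤ K * (b + M * ε) := by
    apply mul_le_mul_of_nonneg_left _ hK
    have : M * cv ≤ M * ε := mul_le_mul_of_nonneg_left r5 hM0
    linarith
  have r8 : (K * M + 1) * ε = η := by
    rw [hε]; field_simp
  nlinarith

/-- Pointwise bound for the symbol of a Toeplitz operator which is bounded below on `Hm 2`. -/
theorem pointwise_lower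
    (hdecomp : ∀ f : ℝ → E, MemLp f 2 volume → ∃ u v : ℝ → E, Hm 2 u ∧ Hp 2 v ∧
      ∀ t, f t = u t + v t)
    (horth : ∀ u v : ℝ → E, Hm 2 u → Hp 2 v → ∫ t : ℝ, inner ℂ (u t) (v t) = 0)
    (hescape : ∀ h : ℝ → E, MemLp h 2 volume → ∀ ε : ℝ, 0 < ε →
      ∃ μ₀ : ℝ, ∀ μ : ℝ, μ₀ ≤ μ → ∀ u v : ℝ → E, Hm 2 u → Hp 2 v →
      (∀ᵐ t : ℝ, Complex.exp (-(Complex.I * μ * t)) • h t = u t + v t) →
      eLpNorm v 2 volume ≤ ENNReal.ofReal ε)
    {G : ℝ → E →L[ℂ] E} (hG : Continuous G) {M : ℝ} (hM : ∀ t, ‖G t‖ ≤ M) {K : ℝ} (hK : 0 ≤ K)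
    (hBB : BB 2 G K) (t : ℝ) (x : E) : ‖x‖ ≤ K * ‖G t x‖ := by
  apply le_of_forall_pos_le_add
  intro η hη
  set η' : ℝ := η / (K + 1) with hη'
  have hη'0 : 0 < η' := by positivity
  have hcont : Continuous (fun s => ‖G s x‖) := (hG.clm_apply continuous_const).norm
  obtain ⟨δ, hδ, hball⟩ := Metric.continuousAt_iff.mp (hcont.continuousAt (x := t)) η' hη'0
  set S : Set ℝ := Icc (t - δ / 2) (t + δ / 2) with hS
  have hSm : MeasurableSet S := measurableSet_Icc
  have hSv : volume S = ENNReal.ofReal δ := by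
    rw [hS, Real.volume_Icc]; congr 1; ring
  have hSfin : volume S ≠ ⊤ := by rw [hSv]; exact ENNReal.ofReal_ne_top
  have hS0 : volume S ≠ 0 := by
    rw [hSv]; exact (ENNReal.ofReal_pos.mpr hδ).ne'
  set h : ℝ → E := S.indicator fun _ => x with hh
  have hhL : MemLp h 2 volume := memLp_indicator_const 2 hSm x (Or.inr hSfin)
  set c : ℝ := ‖G t x‖ + η' with hc
  have hc0 : 0 ≤ c := by positivity
  have key := escape_aux_L2lower hdecomp horth hescape hG hM hK hBB hhL
  have e1 : eLpNorm h 2 volume = ‖x‖ₑ * volume S ^ (1 / (2 : ℝ≥0∞).toReal) :=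
    eLpNorm_indicator_const hSm (by norm_num) (by norm_num)
  have e2 : eLpNorm (S.indicator fun _ => c) 2 volume =
      ‖c‖ₑ * volume S ^ (1 / (2 : ℝ≥0∞).toReal) :=
    eLpNorm_indicator_const hSm (by norm_num) (by norm_num)
  have e3 : eLpNorm (fun s => G s (h s)) 2 volume ≤ eLpNorm (S.indicator fun _ => c) 2 volume := by
    apply eLpNorm_mono
    intro s
    by_cases hs : s ∈ S
    · rw [hh, indicator_of_mem hs, indicator_of_mem hs, Real.norm_eq_abs, abs_of_nonneg hc0]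
      have h1 : dist s t < δ := by
        rw [Real.dist_eq]
        have := hs.1
        have := hs.2
        rw [abs_lt]
        constructor <;> linarith
      have h2 := hball h1
      rw [Real.dist_eq, abs_lt] at h2
      linarith [h2.2]
    · rw [hh, indicator_of_notMem hs, indicator_of_notMem hs, map_zero, norm_zero, norm_zero]
  set m : ℝ := (volume S ^ (1 / (2 : ℝ≥0∞).toReal)).toReal with hm
  have hm0 : 0 < m := by
    rw [hm, hSv]
    apply ENNReal.toReal_pos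
    · rw [ne_eq, ENNReal.rpow_eq_zero_iff]
      push Not
      constructor
      · intro h0
        exact absurd h0 (ENNReal.ofReal_pos.mpr hδ).ne'
      · intro h0
        exact absurd h0 ENNReal.ofReal_ne_top
    · exact ENNReal.rpow_ne_top_of_nonneg (by norm_num) ENNReal.ofReal_ne_top
  have e4 : (eLpNorm h 2 volume).toReal = ‖x‖ * m := by
    rw [e1, ENNReal.toReal_mul, toReal_enorm]
  have e5 : (eLpNorm (fun s => G s (h s)) 2 volume).toReal ≤ c * m := by
    have h1 : eLpNorm (S.indicator fun _ => c) 2 volume ≠ ⊤ :=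
      (memLp_indicator_const 2 hSm c (Or.inr hSfin)).2.ne
    have h2 := ENNReal.toReal_mono h1 e3
    rwa [e2, ENNReal.toReal_mul, toReal_enorm, Real.norm_eq_abs, abs_of_nonneg hc0] at h2
  rw [e4] at key
  have h3 : ‖x‖ * m ≤ (K * c) * m := by
    have := mul_le_mul_of_nonneg_left e5 hK
    linarith
  have h4 := le_of_mul_le_mul_right h3 hm0
  rw [hc] at h4
  have h5 : K * η' ≤ η := by
    rw [hη', mul_div_assoc', div_le_iff₀ (by positivity)]
    nlinarith
  linarith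

end A6
end Pool.Agent.Helper865.TAP
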