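import Pool.Agent.Helper865.TAP.Defs


set_option autoImplicit false

open MeasureTheory Filter Topology Set Metric
open scoped ENNReal NNReal

namespace Pool.Agent.Helper865.TAP
namespace A7



theorem Hm.congr' {E : Type*} [NormedAddCommGroup E] [NormedSpace ℂ E] {p : ℝ≥0∞} {f g : ℝ → E}
    (h : f =ᵐ[volume] g) (hf : Hm p f) : Hm p g := by
  refine ⟨(memLp_congr_ae h).1 hf.1, fun a ha => ?_⟩
  rw [← hf.2 a ha]
  apply integral_congr_ae
  filter_upwards [h] with t ht
  rw [ht]

theorem Hp.congr' {E : Type*} [NormedAddCommGroup E] [NormedSpace ℂ E] {p : ℝ≥0∞} {f g : ℝ → E}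
    (h : f =ᵐ[volume] g) (hf : Hp p f) : Hp p g := by
  refine ⟨(memLp_congr_ae h).1 hf.1, fun a ha => ?_⟩
  rw [← hf.2 a ha]
  apply integral_congr_ae
  filter_upwards [h] with t ht
  rw [ht]

section
variable {E : Type*} [NormedAddCommGroup E] [InnerProductSpace ℂ E] [FiniteDimensional ℂ E]

theorem memLp_app {G : ℝ → E →L[ℂ] E} (hG : Continuous G) {M : ℝ} (hM : ∀ t, ‖G t‖ ≤ M)
    {f : ℝ → E} (hf : MemLp f 2 volume) : MemLp (fun t => G t (f t)) 2 volume := by
  have hmeas : AEStronglyMeasurable (fun t => G t (f t)) volume := by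
    have hc : Continuous (fun q : (E →L[ℂ] E) × E => q.1 q.2) := isBoundedBilinearMap_apply.continuous
    exact hc.comp_aestronglyMeasurable (hG.aestronglyMeasurable.prodMk hf.1)
  refine MemLp.of_le_mul (c := M) hf hmeas (Eventually.of_forall fun t => ?_)
  exact ((G t).le_opNorm (f t)).trans (mul_le_mul_of_nonneg_right (hM t) (norm_nonneg _))

/-- multiplication by a bounded continuous operator function -/
noncomputable def mulOp {G : ℝ → E →L[ℂ] E} (hG : Continuous G) {M : ℝ} (hM : ∀ t, ‖G t‖ ≤ M) :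
    Lp E 2 (volume : Measure ℝ) →L[ℂ] Lp E 2 (volume : Measure ℝ) :=
  LinearMap.mkContinuous
    { toFun := fun f => (memLp_app hG hM (Lp.memLp f)).toLp _
      map_add' := by
        intro f g
        rw [← MemLp.toLp_add]
        apply MemLp.toLp_congr
        filter_upwards [Lp.coeFn_add f g] with t ht
        change G t ((f + g : Lp E 2 (volume : Measure ℝ)) t) = G t (f t) + G t (g t)
        rw [ht, Pi.add_apply, map_add]
      map_smul' := by
        intro c f
        simp only [RingHom.id_apply]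
        rw [← MemLp.toLp_const_smul]
        apply MemLp.toLp_congr
        filter_upwards [Lp.coeFn_smul c f] with t ht
        change G t ((c • f : Lp E 2 (volume : Measure ℝ)) t) = c • G t (f t)
        rw [ht, Pi.smul_apply, map_smul] } M (by
      intro f
      have hM0 : 0 ≤ M := (norm_nonneg _).trans (hM 0)
      apply Lp.norm_le_mul_norm_of_ae_le_mul
      filter_upwards [(memLp_app hG hM (Lp.memLp f)).coeFn_toLp] with t ht
      simp only [LinearMap.coe_mk, AddHom.coe_mk]
      rw [ht]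
      exact ((G t).le_opNorm (f t)).trans (mul_le_mul_of_nonneg_right (hM t) (norm_nonneg _)))

theorem mulOp_coe {G : ℝ → E →L[ℂ] E} (hG : Continuous G) {M : ℝ} (hM : ∀ t, ‖G t‖ ≤ M)
    (f : Lp E 2 (volume : Measure ℝ)) :
    (mulOp hG hM f : ℝ → E) =ᵐ[volume] fun t => G t (f t) :=
  (memLp_app hG hM (Lp.memLp f)).coeFn_toLp

end

variable {E : Type*} [NormedAddCommGroup E] [InnerProductSpace ℂ E] [FiniteDimensional ℂ E]

/-- A pointwise self-adjoint symbol whose Toeplitz operator is bounded below on `Hm 2` gives an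
invertible Toeplitz operator. -/
theorem solve_selfadjoint
    (hdecomp : ∀ f : ℝ → E, MemLp f 2 volume → ∃ u v : ℝ → E, Hm 2 u ∧ Hp 2 v ∧
      ∀ t, f t = u t + v t)
    (horth : ∀ u v : ℝ → E, Hm 2 u → Hp 2 v → ∫ t : ℝ, inner ℂ (u t) (v t) = 0)
    (hclosed : ∀ (f : ℝ → E) (g : ℕ → ℝ → E), MemLp f 2 volume → (∀ n, Hm 2 (g n)) →
      Tendsto (fun n => eLpNorm (fun t => g n t - f t) 2 volume) atTop (𝓝 0) → Hm 2 f)
    (hclosed' : ∀ (f : ℝ → E) (g : ℕ → ℝ → E), MemLp f 2 volume → (∀ n, Hp 2 (g n)) →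
      Tendsto (fun n => eLpNorm (fun t => g n t - f t) 2 volume) atTop (𝓝 0) → Hp 2 f)
    {G : ℝ → E →L[ℂ] E} (hG : Continuous G) {M : ℝ} (hM : ∀ t, ‖G t‖ ≤ M)
    (hsa : ∀ t, ContinuousLinearMap.adjoint (G t) = G t) {K : ℝ} (hK : 0 ≤ K)
    (hBB : BB 2 G K) {g : ℝ → E} (hg : MemLp g 2 volume) :
    ∃ u v : ℝ → E, Hm 2 u ∧ Hp 2 v ∧ (∀ᵐ t : ℝ, G t (u t) + v t = g t) ∧
      eLpNorm u 2 volume ≤ ENNReal.ofReal K * eLpNorm g 2 volume ∧
      eLpNorm v 2 volume ≤ ENNReal.ofReal (1 + M * K) * eLpNorm g 2 volume := by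
  classical
  haveI : CompleteSpace E := FiniteDimensional.complete ℂ E
  set V := Lp E 2 (volume : Measure ℝ) with hV
  have hinner : ∀ f g : V, inner ℂ f g = ∫ t : ℝ, inner ℂ (f t) (g t) := fun f g =>
    MeasureTheory.L2.inner_def f g
  let K0 : Submodule ℂ V := Submodule.span ℂ {v : V | Hp 2 (v : ℝ → E)}
  let H : Submodule ℂ V := K0ᗮ
  -- membership facts
  have hmemH : ∀ f : V, Hm 2 (f : ℝ → E) → f ∈ H := by
    intro f hf
    rw [Submodule.mem_orthogonal]
    intro v hv
    induction hv using Submodule.span_induction with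
    | mem x hx =>
      have h1 : inner ℂ f x = 0 := by
        rw [hinner]; exact horth _ _ hf hx
      rw [← inner_conj_symm, h1, map_zero]
    | zero => simp
    | add x y _ _ hx hy => rw [inner_add_left, hx, hy, add_zero]
    | smul c x _ hx => rw [inner_smul_left, hx, mul_zero]
  have hHm : ∀ f : V, f ∈ H → Hm 2 (f : ℝ → E) := by
    intro f hf
    obtain ⟨u, v, hu, hv, huv⟩ := hdecomp f (Lp.memLp f)
    set u' : V := hu.1.toLp u
    set v' : V := hv.1.toLp v
    have hu' : Hm 2 (u' : ℝ → E) := Hm.congr' hu.1.coeFn_toLp.symm hu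
    have hv' : Hp 2 (v' : ℝ → E) := Hp.congr' hv.1.coeFn_toLp.symm hv
    have hf' : f = u' + v' := by
      apply Lp.ext
      filter_upwards [Lp.coeFn_add u' v', hu.1.coeFn_toLp, hv.1.coeFn_toLp] with t h1 h2 h3
      rw [h1, Pi.add_apply, h2, h3, huv t]
    have h1 : inner ℂ v' f = 0 := (Submodule.mem_orthogonal _ _).1 hf v' (Submodule.subset_span hv')
    have h2 : inner ℂ v' u' = 0 :=
      (Submodule.mem_orthogonal _ _).1 (hmemH u' hu') v' (Submodule.subset_span hv')
    have h3 : inner ℂ v' v' = 0 := by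
      rw [hf', inner_add_right, h2, zero_add] at h1
      exact h1
    have h4 : v' = 0 := inner_self_eq_zero.1 h3
    rw [hf', h4, add_zero]
    exact hu'
  have hHp : ∀ f : V, f ∈ Hᗮ → Hp 2 (f : ℝ → E) := by
    intro f hf
    obtain ⟨u, v, hu, hv, huv⟩ := hdecomp f (Lp.memLp f)
    set u' : V := hu.1.toLp u
    set v' : V := hv.1.toLp v
    have hu' : Hm 2 (u' : ℝ → E) := Hm.congr' hu.1.coeFn_toLp.symm hu
    have hv' : Hp 2 (v' : ℝ → E) := Hp.congr' hv.1.coeFn_toLp.symm hv
    have hf' : f = u' + v' := by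
      apply Lp.ext
      filter_upwards [Lp.coeFn_add u' v', hu.1.coeFn_toLp, hv.1.coeFn_toLp] with t h1 h2 h3
      rw [h1, Pi.add_apply, h2, h3, huv t]
    have h1 : inner ℂ u' f = 0 := (Submodule.mem_orthogonal _ _).1 hf u' (hmemH u' hu')
    have h2 : inner ℂ u' v' = 0 := by rw [hinner]; exact horth _ _ hu' hv'
    have h3 : inner ℂ u' u' = 0 := by
      rw [hf', inner_add_right, h2, add_zero] at h1
      exact h1
    have h4 : u' = 0 := inner_self_eq_zero.1 h3
    rw [hf', h4, zero_add]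
    exact hv'
  let A : V →L[ℂ] V := mulOp hG hM
  have hA : ∀ f : V, (A f : ℝ → E) =ᵐ[volume] fun t => G t (f t) := fun f => mulOp_coe hG hM f
  have hAsa : ∀ f h : V, inner ℂ (A f) h = inner ℂ f (A h) := by
    intro f h
    rw [hinner, hinner]
    apply integral_congr_ae
    filter_upwards [hA f, hA h] with t h1 h2
    rw [h1, h2]
    conv_rhs => rw [← hsa t]
    rw [ContinuousLinearMap.adjoint_inner_right]
  haveI : CompleteSpace H := (Submodule.isClosed_orthogonal K0).completeSpace_coe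
  let P : V →L[ℂ] H := H.orthogonalProjectionOnto
  let T : H →L[ℂ] H := P.comp (A.comp H.subtypeL)
  have hT : ∀ f : H, T f = P (A (f : V)) := fun f => rfl
  have hPmem : ∀ x : V, x - (P x : V) ∈ Hᗮ := fun x => Submodule.sub_starProjection_mem_orthogonal x
  have hbd : ∀ f : H, ‖f‖ ≤ K * ‖T f‖ := by
    intro f
    have h1 : Hm 2 ((f : V) : ℝ → E) := hHm _ f.2
    have h2 : Hm 2 (((T f : H) : V) : ℝ → E) := hHm _ (T f).2
    have h3 : Hp 2 (fun t => G t ((f : V) t) - ((T f : H) : V) t) := by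
      refine Hp.congr' ?_ (hHp _ (hPmem (A (f : V))))
      filter_upwards [Lp.coeFn_sub (A (f : V)) (P (A (f : V)) : V), hA (f : V)] with t h1 h2
      rw [h1, Pi.sub_apply, h2, hT]
    have h4 := hBB _ _ h1 h2 h3
    have h5 : ‖(f : V)‖ = (eLpNorm ((f : V) : ℝ → E) 2 volume).toReal := Lp.norm_def _
    have h6 : ‖((T f : H) : V)‖ = (eLpNorm (((T f : H) : V) : ℝ → E) 2 volume).toReal := Lp.norm_def _
    rw [Submodule.norm_coe, ] at h5
    rw [Submodule.norm_coe] at h6
    rw [h5, h6, ← ENNReal.toReal_ofReal hK, ← ENNReal.toReal_mul]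
    apply ENNReal.toReal_mono _ h4
    exact ENNReal.mul_ne_top ENNReal.ofReal_ne_top h2.1.2.ne
  have hTsa : ∀ f h : H, inner ℂ (T f) h = inner ℂ f (T h) := by
    intro f h
    have h1 : inner ℂ (T f) h = inner ℂ (A (f : V)) (h : V) := by
      rw [hT]
      exact Submodule.inner_orthogonalProjectionOnto_eq_of_mem_right h (A (f : V))
    have h2 : inner ℂ f (T h) = inner ℂ (f : V) (A (h : V)) := by
      rw [hT]
      exact Submodule.inner_orthogonalProjectionOnto_eq_of_mem_left f (A (h : V))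
    rw [h1, h2, hAsa]
  have hanti : AntilipschitzWith ⟨K, hK⟩ T := by
    apply AddMonoidHomClass.antilipschitz_of_bound
    intro f
    exact hbd f
  have hclosedR : IsClosed (LinearMap.range T.toLinearMap : Set H) := by
    have h0 := hanti.isClosed_range T.uniformContinuous
    have h1 : (LinearMap.range T.toLinearMap : Set H) = Set.range T := by
      ext x; simp
    rw [h1]
    exact h0
  have hsurj : LinearMap.range T.toLinearMap = ⊤ := by
    haveI : CompleteSpace (LinearMap.range T.toLinearMap) := hclosedR.completeSpace_coe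
    rw [← Submodule.orthogonal_eq_bot_iff, Submodule.eq_bot_iff]
    intro x hx
    have h1 : ∀ f : H, inner ℂ (T f) x = 0 := fun f =>
      (Submodule.mem_orthogonal _ _).1 hx (T f) (LinearMap.mem_range_self _ f)
    have h2 : inner ℂ (T x) (T x) = 0 := by
      rw [← hTsa]; exact h1 (T x)
    have h3 : T x = 0 := inner_self_eq_zero.1 h2
    have h4 := hbd x
    rw [h3, norm_zero, mul_zero] at h4
    exact norm_le_zero_iff.1 h4
  set g' : V := hg.toLp g with hg'
  obtain ⟨u, hu⟩ : ∃ u : H, T u = P g' := by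
    have : P g' ∈ LinearMap.range T.toLinearMap := by rw [hsurj]; trivial
    obtain ⟨u, hu⟩ := this
    exact ⟨u, hu⟩
  have hunorm : ‖u‖ ≤ K * ‖g'‖ := by
    refine (hbd u).trans ?_
    rw [hu]
    exact mul_le_mul_of_nonneg_left (Submodule.norm_orthogonalProjectionOnto_apply_le _ _) hK
  have hM0 : 0 ≤ M := (norm_nonneg _).trans (hM 0)
  have hAnorm : ‖A (u : V)‖ ≤ M * ‖u‖ := by
    have : ‖A (u : V)‖ ≤ M * ‖(u : V)‖ := by
      apply Lp.norm_le_mul_norm_of_ae_le_mul
      filter_upwards [hA (u : V)] with t ht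
      rw [ht]
      exact ((G t).le_opNorm _).trans (mul_le_mul_of_nonneg_right (hM t) (norm_nonneg _))
    simpa using this
  set v : V := g' - A (u : V) with hv
  have hvmem : v ∈ Hᗮ := by
    have h1 : P v = 0 := by
      rw [hv, map_sub, ← hu, hT, sub_self]
    have h2 := hPmem v
    rw [h1] at h2
    simpa using h2
  have hvnorm : ‖v‖ ≤ (1 + M * K) * ‖g'‖ := by
    calc ‖v‖ ≤ ‖g'‖ + ‖A (u : V)‖ := norm_sub_le _ _
      _ ≤ ‖g'‖ + M * (K * ‖g'‖) := by
          have := mul_le_mul_of_nonneg_left hunorm hM0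
          linarith
      _ = (1 + M * K) * ‖g'‖ := by ring
  have hconv : ∀ (x y : V) (c : ℝ), 0 ≤ c → ‖x‖ ≤ c * ‖y‖ →
      eLpNorm (x : ℝ → E) 2 volume ≤ ENNReal.ofReal c * eLpNorm (y : ℝ → E) 2 volume := by
    intro x y c hc h
    rw [Lp.norm_def, Lp.norm_def] at h
    rw [← ENNReal.ofReal_toReal (Lp.eLpNorm_ne_top x), ← ENNReal.ofReal_toReal (Lp.eLpNorm_ne_top y),
      ← ENNReal.ofReal_mul hc]
    exact ENNReal.ofReal_le_ofReal h
  have hgn : eLpNorm (g' : ℝ → E) 2 volume = eLpNorm g 2 volume :=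
    eLpNorm_congr_ae hg.coeFn_toLp
  refine ⟨((u : V) : ℝ → E), (v : ℝ → E), hHm _ u.2, hHp _ hvmem, ?_, ?_, ?_⟩
  · filter_upwards [Lp.coeFn_sub g' (A (u : V)), hA (u : V), hg.coeFn_toLp] with t h1 h2 h3
    rw [hv, h1, Pi.sub_apply, h2, hg', h3]
    abel
  · rw [← hgn]
    apply hconv _ _ _ hK
    simpa using hunorm
  · rw [← hgn]
    exact hconv _ _ _ (by positivity) hvnorm

end A7
end Pool.Agent.Helper865.TAP
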