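import Pool.Agent.Helper865.TAP.Defs


set_option autoImplicit false

open MeasureTheory Filter Topology Set Metric
open scoped ENNReal NNReal

namespace Pool.Agent.Helper865.TAP
namespace B1



variable {X : Type*} [NormedAddCommGroup X] [NormedSpace ℂ X]

theorem norm_exp_I (x y : ℝ) : ‖Complex.exp (Complex.I * x * y)‖ = 1 := by
  rw [Complex.norm_exp]
  have : (Complex.I * x * y).re = 0 := by simp
  rw [this, Real.exp_zero]

theorem norm_exp_sub_le (l a b : ℝ) :
    ‖Complex.exp (Complex.I * l * a) - Complex.exp (Complex.I * l * b)‖ ≤ |l| * |a - b| := by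
  have h1 : Complex.exp (Complex.I * l * a) - Complex.exp (Complex.I * l * b) =
      Complex.exp (Complex.I * l * b) * (Complex.exp (Complex.I * ((l * (a - b) : ℝ) : ℂ)) - 1) := by
    rw [mul_sub, mul_one, ← Complex.exp_add]
    congr 2
    push_cast
    ring
  rw [h1, norm_mul, norm_exp_I, one_mul]
  refine (Real.norm_exp_I_mul_ofReal_sub_one_le).trans ?_
  rw [Real.norm_eq_abs, abs_mul]

theorem sum_lip (s : Finset ℝ) (a : ℝ → X) (x y : ℝ) :
    ‖(∑ l ∈ s, Complex.exp (Complex.I * l * x) • a l) -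
      ∑ l ∈ s, Complex.exp (Complex.I * l * y) • a l‖ ≤ (∑ l ∈ s, |l| * ‖a l‖) * |x - y| := by
  rw [← Finset.sum_sub_distrib, Finset.sum_mul]
  refine norm_sum_le_of_le _ (fun l _ => ?_)
  rw [← sub_smul, norm_smul]
  calc _ ≤ (|l| * |x - y|) * ‖a l‖ := by
        gcongr
        exact norm_exp_sub_le l x y
    _ = _ := by ring

theorem IsAP_bounded {G : ℝ → X} (hG : IsAP G) : ∃ M : ℝ, ∀ t, ‖G t‖ ≤ M := by
  obtain ⟨g, ⟨s, a, hg⟩, hGg⟩ := hG 1 one_pos
  refine ⟨1 + ∑ l ∈ s, ‖a l‖, fun t => ?_⟩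
  have h1 : ‖g t‖ ≤ ∑ l ∈ s, ‖a l‖ := by
    rw [hg]
    refine norm_sum_le_of_le _ (fun l _ => ?_)
    rw [norm_smul, norm_exp_I, one_mul]
  calc ‖G t‖ = ‖(G t - g t) + g t‖ := by rw [sub_add_cancel]
    _ ≤ _ := norm_add_le _ _
    _ ≤ _ := add_le_add (hGg t) h1

theorem IsAP_uniformContinuous {G : ℝ → X} (hG : IsAP G) : UniformContinuous G := by
  rw [Metric.uniformContinuous_iff]
  intro ε hε
  obtain ⟨g, ⟨s, a, hg⟩, hGg⟩ := hG (ε / 4) (by positivity)
  set K : ℝ := ∑ l ∈ s, |l| * ‖a l‖ with hK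
  have hK0 : 0 ≤ K := Finset.sum_nonneg (fun l _ => by positivity)
  refine ⟨ε / (4 * (K + 1)), by positivity, fun {x y} hxy => ?_⟩
  rw [Real.dist_eq, lt_div_iff₀ (by positivity)] at hxy
  rw [dist_eq_norm]
  have h1 : ‖g x - g y‖ ≤ K * |x - y| := by
    rw [hg, hg]
    exact sum_lip s a x y
  have h2 : ‖G x - G y‖ ≤ ‖G x - g x‖ + ‖g x - g y‖ + ‖G y - g y‖ := by
    have : G x - G y = (G x - g x) + (g x - g y) - (G y - g y) := by abel
    rw [this]
    refine (norm_sub_le _ _).trans ?_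
    gcongr
    exact norm_add_le _ _
  have h3 := hGg x
  have h4 := hGg y
  have h5 := abs_nonneg (x - y)
  nlinarith

/-- Relative density of almost periods. -/
theorem exists_almost_period {G : ℝ → X} (hG : IsAP G) {ε : ℝ} (hε : 0 < ε) :
    ∃ H : ℝ, 0 < H ∧ ∀ x : ℝ, ∃ τ : ℝ, x - H ≤ τ ∧ τ ≤ x + H ∧ ∀ t, ‖G (t + τ) - G t‖ ≤ ε := by
  classical
  obtain ⟨g, ⟨s, a, hg⟩, hGg⟩ := hG (ε / 4) (by positivity)
  set B : ℝ := (∑ l ∈ s, ‖a l‖) + 1 with hB
  have hB0 : 0 < B := by
    have : 0 ≤ ∑ l ∈ s, ‖a l‖ := Finset.sum_nonneg (fun l _ => norm_nonneg _)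
    linarith
  let Φ : ℝ → (s → ℂ) := fun h l => Complex.exp (Complex.I * (l : ℝ) * h)
  have htb : TotallyBounded (range Φ) := by
    have h1 : range Φ ⊆ closedBall (0 : s → ℂ) 1 := by
      rintro _ ⟨h, rfl⟩
      rw [mem_closedBall, dist_zero_right, pi_norm_le_iff_of_nonneg zero_le_one]
      intro l
      exact (norm_exp_I _ _).le
    exact (isCompact_closedBall (0 : s → ℂ) 1).totallyBounded.subset h1
  obtain ⟨T, hTs, hTf, hT⟩ := Metric.finite_approx_of_totallyBounded htb (ε / (2 * B))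
    (by positivity)
  obtain ⟨H, hH⟩ := (hTf.image (fun y => |Function.invFun Φ y|)).bddAbove
  have hH' : ∀ y ∈ T, |Function.invFun Φ y| ≤ H := fun y hy => hH ⟨y, hy, rfl⟩
  refine ⟨|H| + 1, by positivity, fun x => ?_⟩
  have hx : Φ x ∈ ⋃ y ∈ T, ball y (ε / (2 * B)) := hT ⟨x, rfl⟩
  simp only [mem_iUnion, exists_prop] at hx
  obtain ⟨y, hy, hxy⟩ := hx
  have hinv : Φ (Function.invFun Φ y) = y := Function.invFun_eq (hTs hy)
  set h := Function.invFun Φ y with hh
  have hhH : |h| ≤ |H| + 1 := (hH' y hy).trans (by linarith [le_abs_self H])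
  have := abs_le.mp hhH
  refine ⟨x - h, by linarith, by linarith, fun t => ?_⟩
  have hclose : ∀ l ∈ s, ‖Complex.exp (Complex.I * l * x) - Complex.exp (Complex.I * l * h)‖
      ≤ ε / (2 * B) := by
    intro l hl
    rw [mem_ball, ← hinv, dist_eq_norm] at hxy
    have h1 := (norm_le_pi_norm (Φ x - Φ h) ⟨l, hl⟩).trans hxy.le
    exact h1
  have hgt : ‖g (t + (x - h)) - g t‖ ≤ ε / 2 := by
    rw [hg, hg, ← Finset.sum_sub_distrib]
    have h1 : ∀ l ∈ s, ‖Complex.exp (Complex.I * l * ((t + (x - h) : ℝ) : ℂ)) • a l -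
        Complex.exp (Complex.I * l * t) • a l‖ ≤ ε / (2 * B) * ‖a l‖ := by
      intro l hl
      rw [← sub_smul, norm_smul]
      gcongr
      have e : Complex.exp (Complex.I * l * ((t + (x - h) : ℝ) : ℂ)) -
          Complex.exp (Complex.I * l * t) = Complex.exp (Complex.I * l * ((t - h : ℝ) : ℂ)) *
          (Complex.exp (Complex.I * l * x) - Complex.exp (Complex.I * l * h)) := by
        rw [mul_sub, ← Complex.exp_add, ← Complex.exp_add]
        congr 2 <;> · push_cast; ring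
      rw [e, norm_mul, norm_exp_I, one_mul]
      exact hclose l hl
    refine (norm_sum_le_of_le _ h1).trans ?_
    rw [← Finset.mul_sum]
    calc ε / (2 * B) * ∑ l ∈ s, ‖a l‖ ≤ ε / (2 * B) * B := by
          gcongr; linarith
      _ = ε / 2 := by field_simp
  have h2 : G (t + (x - h)) - G t = (G (t + (x - h)) - g (t + (x - h))) +
      (g (t + (x - h)) - g t) - (G t - g t) := by abel
  rw [h2]
  refine (norm_sub_le _ _).trans ?_
  refine (add_le_add (norm_add_le _ _) le_rfl).trans ?_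
  have h3 := hGg (t + (x - h))
  have h4 := hGg t
  linarith

/-- Positive density of the almost periods in `η ℤ`, with density independent of `η`. -/
theorem many_almost_periods {G : ℝ → X} (hG : IsAP G) {ε : ℝ} (hε : 0 < ε) :
    ∃ m η₀ : ℝ, 0 < m ∧ 0 < η₀ ∧ ∀ η : ℝ, 0 < η → η < η₀ → ∃ R₀ : ℝ, ∀ R : ℝ, R₀ ≤ R →
      ∃ S : Finset ℤ, (∀ k ∈ S, |(k : ℝ) * η| ≤ R ∧ ∀ t, ‖G (t + k * η) - G t‖ ≤ ε) ∧
        m * R / η ≤ (S.card : ℝ) := by
  classical
  obtain ⟨H, hH, hτ⟩ := exists_almost_period hG (half_pos hε)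
  obtain ⟨ω', hω', hωG⟩ := Metric.uniformContinuous_iff.mp (IsAP_uniformContinuous hG) (ε / 2)
    (half_pos hε)
  set ω : ℝ := ω' / 2 with hωdef
  have hω : 0 < ω := by positivity
  have hG2 : ∀ s t : ℝ, 0 ≤ s → s ≤ ω → ‖G (t + s) - G t‖ ≤ ε / 2 := by
    intro s t hs hs2
    have := @hωG (t + s) t (by
      rw [Real.dist_eq, add_sub_cancel_left, abs_of_nonneg hs]; linarith)
    rw [dist_eq_norm] at this
    exact this.le
  choose τ hτ1 hτ2 hτ3 using hτ
  set W : ℝ := 3 * (H + ω) with hW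
  have hW0 : 0 < W := by positivity
  refine ⟨ω / (4 * W), ω / 2, by positivity, by positivity, fun η hη hη2 => ⟨2 * (H + ω),
    fun R hR => ?_⟩⟩
  set J : ℕ := ⌊(R - H - ω) / W⌋₊ + 1 with hJ
  let Sj : ℕ → Finset ℤ := fun j => Finset.Icc ⌈τ (W * j) / η⌉ ⌊(τ (W * j) + ω) / η⌋
  have hmem : ∀ j : ℕ, ∀ k ∈ Sj j, τ (W * j) ≤ k * η ∧ k * η ≤ τ (W * j) + ω := by
    intro j k hk
    rw [Finset.mem_Icc, Int.ceil_le, Int.le_floor, div_le_iff₀ hη, le_div_iff₀ hη] at hk
    exact hk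
  have hcard : ∀ j : ℕ, ω / (2 * η) ≤ ((Sj j).card : ℝ) := by
    intro j
    have h1 : ((Sj j).card : ℤ) ≥ ⌊(τ (W * j) + ω) / η⌋ + 1 - ⌈τ (W * j) / η⌉ := by
      simp only [Sj, Int.card_Icc]
      exact Int.self_le_toNat _
    have h2 : ((Sj j).card : ℝ) ≥ (⌊(τ (W * j) + ω) / η⌋ : ℝ) + 1 - (⌈τ (W * j) / η⌉ : ℝ) := by
      exact_mod_cast h1
    have h3 := Int.lt_floor_add_one ((τ (W * j) + ω) / η)
    have h4 := Int.ceil_lt_add_one (τ (W * j) / η)
    have h5 : (τ (W * j) + ω) / η = τ (W * j) / η + ω / η := add_div _ _ _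
    have h6 : ω / (2 * η) + 1 ≤ ω / η := by
      have : 1 ≤ ω / (2 * η) := by
        rw [le_div_iff₀ (by positivity)]; linarith
      have e : ω / η = ω / (2 * η) + ω / (2 * η) := by field_simp; norm_num
      linarith
    linarith
  have hdisj : ∀ j j' : ℕ, j < j' → Disjoint (Sj j) (Sj j') := by
    intro j j' hjj
    rw [Finset.disjoint_left]
    intro k hk hk'
    have h1 := (hmem j k hk).2
    have h2 := (hmem j' k hk').1
    have h3 := hτ2 (W * j)
    have h4 := hτ1 (W * j')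
    have h5 : W * ((j : ℝ) + 1) ≤ W * j' := by
      gcongr
      exact_mod_cast hjj
    have h6 : W * ((j : ℝ) + 1) = W * j + 3 * (H + ω) := by rw [mul_add, mul_one]
    linarith
  refine ⟨(Finset.range J).biUnion Sj, fun k hk => ?_, ?_⟩
  · rw [Finset.mem_biUnion] at hk
    obtain ⟨j, hj, hk⟩ := hk
    obtain ⟨h1, h2⟩ := hmem j k hk
    rw [Finset.mem_range, hJ, Nat.lt_succ_iff] at hj
    have hR2 : 0 ≤ (R - H - ω) / W := div_nonneg (by linarith) hW0.le
    have hj' : (j : ℝ) ≤ (R - H - ω) / W := (Nat.le_floor_iff hR2).mp hj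
    rw [le_div_iff₀ hW0] at hj'
    have hj0 : 0 ≤ W * (j : ℝ) := by positivity
    have h3 := hτ1 (W * j)
    have h4 := hτ2 (W * j)
    refine ⟨abs_le.mpr ⟨by linarith, by linarith⟩, fun t => ?_⟩
    have h5 := hτ3 (W * j) (t + (k * η - τ (W * j)))
    have h6 := hG2 (k * η - τ (W * j)) t (by linarith) (by linarith)
    have e1 : t + (k * η - τ (W * j)) + τ (W * j) = t + k * η := by ring
    rw [e1] at h5
    have e2 : G (t + k * η) - G t = (G (t + k * η) - G (t + (k * η - τ (W * j)))) +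
        (G (t + (k * η - τ (W * j))) - G t) := by abel
    rw [e2]
    refine (norm_add_le _ _).trans ?_
    linarith
  · rw [Finset.card_biUnion]
    · push_cast
      have h1 : (J : ℝ) * (ω / (2 * η)) ≤ ∑ j ∈ Finset.range J, ((Sj j).card : ℝ) := by
        calc (J : ℝ) * (ω / (2 * η)) = ∑ _j ∈ Finset.range J, ω / (2 * η) := by
              rw [Finset.sum_const, Finset.card_range, nsmul_eq_mul]
          _ ≤ _ := Finset.sum_le_sum (fun j _ => hcard j)
      refine le_trans ?_ h1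
      have h2 : R / (2 * W) ≤ (J : ℝ) := by
        have h3 : (R - H - ω) / W < J := by
          rw [hJ]; push_cast
          exact Nat.lt_floor_add_one _
        refine le_trans ?_ h3.le
        rw [div_le_div_iff₀ (by positivity) hW0]
        nlinarith
      have e : ω / (4 * W) * R / η = R / (2 * W) * (ω / (2 * η)) := by
        field_simp
        ring
      rw [e]
      gcongr
    · intro j _ j' _ hne
      rcases lt_or_gt_of_ne hne with h | h
      · exact hdisj j j' h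
      · exact (hdisj j' j h).symm

/-- a trigonometric polynomial can be written with coefficients vanishing outside the finset. -/
theorem _root_.Pool.Agent.Helper865.TAP.TrigPoly.normal {g : ℝ → X} (hg : TrigPoly g) : ∃ (s : Finset ℝ) (a : ℝ → X),
    (∀ l, l ∉ s → a l = 0) ∧
      ∀ s' : Finset ℝ, s ⊆ s' → ∀ t : ℝ, g t = ∑ l ∈ s', Complex.exp (Complex.I * l * t) • a l := by
  classical
  obtain ⟨s, a, hg⟩ := hg
  refine ⟨s, fun l => if l ∈ s then a l else 0, fun l hl => if_neg hl, fun s' hs' t => ?_⟩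
  rw [hg]
  rw [← Finset.sum_subset hs' (fun l _ hl => by beta_reduce; rw [if_neg hl, smul_zero])]
  exact Finset.sum_congr rfl (fun l hl => by beta_reduce; rw [if_pos hl])

/-- Adjoint, sums, products, compositions of almost periodic functions. -/
theorem IsAP_add {f g : ℝ → X} (hf : IsAP f) (hg : IsAP g) : IsAP (fun t => f t + g t) := by
  classical
  intro ε hε
  obtain ⟨f', hf', hff⟩ := hf (ε / 2) (half_pos hε)
  obtain ⟨g', hg', hgg⟩ := hg (ε / 2) (half_pos hε)
  refine ⟨fun t => f' t + g' t, ?_, fun t => ?_⟩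
  · obtain ⟨s, a, _, ha⟩ := hf'.normal
    obtain ⟨s', a', _, ha'⟩ := hg'.normal
    refine ⟨s ∪ s', fun l => a l + a' l, fun t => ?_⟩
    beta_reduce
    rw [ha (s ∪ s') Finset.subset_union_left, ha' (s ∪ s') Finset.subset_union_right,
      ← Finset.sum_add_distrib]
    simp only [smul_add]
  · have : f t + g t - (f' t + g' t) = (f t - f' t) + (g t - g' t) := by abel
    rw [this]
    refine (norm_add_le _ _).trans ?_
    have h1 := hff t
    have h2 := hgg t
    linarith

theorem IsAP_clm {Y : Type*} [NormedAddCommGroup Y] [NormedSpace ℂ Y] {f : ℝ → X} (hf : IsAP f)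
    (L : X →L[ℂ] Y) : IsAP (fun t => L (f t)) := by
  intro ε hε
  obtain ⟨g, ⟨s, a, hg⟩, hfg⟩ := hf (ε / (‖L‖ + 1)) (by positivity)
  refine ⟨fun t => L (g t), ⟨s, fun l => L (a l), fun t => ?_⟩, fun t => ?_⟩
  · beta_reduce
    rw [hg, map_sum]
    simp only [map_smul]
  · rw [← map_sub]
    refine (L.le_opNorm _).trans ?_
    calc ‖L‖ * ‖f t - g t‖ ≤ (‖L‖ + 1) * (ε / (‖L‖ + 1)) := by
          gcongr
          · linarith
          · exact hfg t
      _ = ε := by field_simp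

theorem IsAP_const (x : X) : IsAP (fun _ : ℝ => x) := by
  intro ε hε
  refine ⟨fun _ => x, ⟨{0}, fun _ => x, fun t => by simp⟩, fun t => by simp [hε.le]⟩

theorem adjoint_sum {E : Type*} [NormedAddCommGroup E] [InnerProductSpace ℂ E]
    [FiniteDimensional ℂ E] (s : Finset ℝ) (a : ℝ → E →L[ℂ] E) (t : ℝ) :
    ContinuousLinearMap.adjoint (∑ l ∈ s, Complex.exp (Complex.I * l * t) • a l) =
      ∑ l ∈ s.map (Equiv.neg ℝ).toEmbedding, Complex.exp (Complex.I * l * t) •
        ContinuousLinearMap.adjoint (a (-l)) := by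
  rw [Finset.sum_map, map_sum]
  refine Finset.sum_congr rfl (fun l _ => ?_)
  rw [map_smulₛₗ]
  simp only [Equiv.toEmbedding_apply, Equiv.neg_apply, neg_neg]
  congr 1
  rw [← Complex.exp_conj]
  congr 1
  simp

theorem IsAP_adjoint {E : Type*} [NormedAddCommGroup E] [InnerProductSpace ℂ E]
    [FiniteDimensional ℂ E] {G : ℝ → E →L[ℂ] E} (hG : IsAP G) :
    IsAP (fun t => ContinuousLinearMap.adjoint (G t)) := by
  intro ε hε
  obtain ⟨g, ⟨s, a, hg⟩, hGg⟩ := hG ε hε
  refine ⟨fun t => ContinuousLinearMap.adjoint (g t), ⟨s.map (Equiv.neg ℝ).toEmbedding,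
    fun l => ContinuousLinearMap.adjoint (a (-l)), fun t => ?_⟩, fun t => ?_⟩
  · beta_reduce
    rw [hg, adjoint_sum]
  · rw [← map_sub, LinearIsometryEquiv.norm_map]
    exact hGg t

/-- Self-adjoint approximation by trigonometric polynomials with symmetric coefficients. -/
theorem exists_selfadjoint_approx {E : Type*} [NormedAddCommGroup E] [InnerProductSpace ℂ E]
    [FiniteDimensional ℂ E] {G : ℝ → E →L[ℂ] E} (hG : IsAP G)
    (hsa : ∀ t, ContinuousLinearMap.adjoint (G t) = G t) {ε : ℝ} (hε : 0 < ε) :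
    ∃ (s : Finset ℝ) (A : ℝ → E →L[ℂ] E), (∀ l, l ∉ s → A l = 0) ∧
      (∀ l, A (-l) = ContinuousLinearMap.adjoint (A l)) ∧
      ∀ t, ‖G t - ∑ l ∈ s, Complex.exp (Complex.I * l * t) • A l‖ ≤ ε := by
  classical
  obtain ⟨g, hg, hGg⟩ := hG ε hε
  obtain ⟨s, a, ha0, ha⟩ := hg.normal
  set s' := s.map (Equiv.neg ℝ).toEmbedding with hs'
  have hmem : ∀ l, l ∈ s' ↔ -l ∈ s := by
    intro l
    rw [hs', Finset.mem_map_equiv]
    simp
  refine ⟨s ∪ s', fun l => (1 / 2 : ℂ) • (a l + ContinuousLinearMap.adjoint (a (-l))),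
    fun l hl => ?_, fun l => ?_, fun t => ?_⟩
  · rw [Finset.mem_union, not_or, hmem] at hl
    beta_reduce
    rw [ha0 l hl.1, ha0 (-l) hl.2]
    simp
  · beta_reduce
    rw [map_smulₛₗ, map_add, neg_neg, ContinuousLinearMap.adjoint_adjoint, add_comm (a (-l))]
    congr 1
    have : ((1 / 2 : ℝ) : ℂ) = (1 / 2 : ℂ) := by push_cast; rfl
    rw [← this, Complex.conj_ofReal]
  · have h1 : ∑ l ∈ s ∪ s', Complex.exp (Complex.I * l * t) •
        ((1 / 2 : ℂ) • (a l + ContinuousLinearMap.adjoint (a (-l)))) =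
        (1 / 2 : ℂ) • (g t + ContinuousLinearMap.adjoint (g t)) := by
      have h2 : g t = ∑ l ∈ s ∪ s', Complex.exp (Complex.I * l * t) • a l :=
        ha _ Finset.subset_union_left t
      have h3 : ContinuousLinearMap.adjoint (g t) = ∑ l ∈ s ∪ s',
          Complex.exp (Complex.I * l * t) • ContinuousLinearMap.adjoint (a (-l)) := by
        rw [ha s subset_rfl t, adjoint_sum, ← hs']
        refine Finset.sum_subset Finset.subset_union_right (fun l _ hl => ?_)
        rw [hmem] at hl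
        rw [ha0 _ hl, map_zero, smul_zero]
      rw [h3]
      conv_rhs => rw [h2]
      rw [← Finset.sum_add_distrib, Finset.smul_sum]
      refine Finset.sum_congr rfl (fun l _ => ?_)
      rw [smul_comm, smul_add]
    rw [h1]
    have h4 : G t - (1 / 2 : ℂ) • (g t + ContinuousLinearMap.adjoint (g t)) =
        (1 / 2 : ℂ) • ((G t - g t) + ContinuousLinearMap.adjoint (G t - g t)) := by
      rw [map_sub, hsa]
      have : G t = (1 / 2 : ℂ) • (G t + G t) := by
        rw [← two_smul ℂ, smul_smul]; norm_num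
      conv_lhs => rw [this]
      rw [← smul_sub]
      congr 1
      abel
    rw [h4, norm_smul]
    have h5 : ‖ContinuousLinearMap.adjoint (G t - g t)‖ = ‖G t - g t‖ :=
      LinearIsometryEquiv.norm_map _ _
    have h6 := norm_add_le (G t - g t) (ContinuousLinearMap.adjoint (G t - g t))
    rw [h5] at h6
    have h7 := hGg t
    have h8 : ‖(1 / 2 : ℂ)‖ = 1 / 2 := by norm_num
    rw [h8]
    linarith

end B1
end Pool.Agent.Helper865.TAP
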