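import Pool.Agent.Helper865.TAP.Defs


set_option autoImplicit false

open MeasureTheory Filter Topology Set Metric
open scoped ENNReal NNReal

namespace Pool.Agent.Helper865.TAP
namespace B3



variable {E : Type*} [NormedAddCommGroup E] [InnerProductSpace ℂ E] [FiniteDimensional ℂ E]


lemma mean_sq_exp_norm (l t : ℝ) : ‖Complex.exp (Complex.I * l * t)‖ = 1 := by
  have : Complex.I * l * t = ((l * t : ℝ) : ℂ) * Complex.I := by push_cast; ring
  rw [this, Complex.norm_exp_ofReal_mul_I]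

lemma mean_sq_osc {m : ℝ} (hm : m ≠ 0) (u v : ℝ) :
    ‖∫ s in u..v, Complex.exp (Complex.I * m * s)‖ ≤ 2 / |m| := by
  have hc : Complex.I * (m : ℂ) ≠ 0 := mul_ne_zero Complex.I_ne_zero (by exact_mod_cast hm)
  rw [integral_exp_mul_complex hc, norm_div, norm_mul, Complex.norm_I, one_mul, Complex.norm_real,
    Real.norm_eq_abs]
  refine div_le_div_of_nonneg_right ?_ (abs_nonneg m)
  refine (norm_sub_le _ _).trans ?_
  rw [mean_sq_exp_norm, mean_sq_exp_norm]; norm_num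

lemma mean_sq_fin (T : Finset ℝ) (a : ℝ → E) (c ρ : ℝ) (hρ : 0 < ρ) :
    |(∫ s in (c - ρ)..(c + ρ), ‖∑ l ∈ T, Complex.exp (Complex.I * l * s) • a l‖ ^ 2) -
      2 * ρ * ∑ l ∈ T, ‖a l‖ ^ 2| ≤
      ∑ l ∈ T, ∑ m ∈ T, (if l = m then 0 else 2 / |m - l| * (‖a l‖ * ‖a m‖)) := by
  have hpt : ∀ s : ℝ, ((‖∑ l ∈ T, Complex.exp (Complex.I * l * s) • a l‖ ^ 2 : ℝ) : ℂ) =
      ∑ l ∈ T, ∑ m ∈ T, Complex.exp (Complex.I * ((m - l : ℝ) : ℂ) * s) * inner ℂ (a l) (a m) := by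
    intro s
    have h1 : ((‖∑ l ∈ T, Complex.exp (Complex.I * l * s) • a l‖ ^ 2 : ℝ) : ℂ) =
        inner ℂ (∑ l ∈ T, Complex.exp (Complex.I * l * s) • a l)
          (∑ m ∈ T, Complex.exp (Complex.I * m * s) • a m) := by
      rw [inner_self_eq_norm_sq_to_K]; push_cast; rfl
    rw [h1, sum_inner]
    refine Finset.sum_congr rfl fun l _ => ?_
    rw [inner_sum]
    refine Finset.sum_congr rfl fun m _ => ?_
    rw [inner_smul_left, inner_smul_right, ← Complex.exp_conj, ← mul_assoc, ← Complex.exp_add]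
    congr 2
    simp only [map_mul, Complex.conj_I, Complex.conj_ofReal]
    push_cast; ring
  have hint : ((∫ s in (c - ρ)..(c + ρ), ‖∑ l ∈ T, Complex.exp (Complex.I * l * s) • a l‖ ^ 2 : ℝ) : ℂ) =
      ∑ l ∈ T, ∑ m ∈ T, (∫ s in (c - ρ)..(c + ρ), Complex.exp (Complex.I * ((m - l : ℝ) : ℂ) * s)) *
        inner ℂ (a l) (a m) := by
    rw [← intervalIntegral.integral_ofReal]
    simp_rw [hpt]
    rw [intervalIntegral.integral_finsetSum]
    · refine Finset.sum_congr rfl fun l _ => ?_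
      rw [intervalIntegral.integral_finsetSum]
      · refine Finset.sum_congr rfl fun m _ => ?_
        rw [intervalIntegral.integral_mul_const]
      · intro m _
        exact Continuous.intervalIntegrable (by fun_prop) _ _
    · intro l _
      exact Continuous.intervalIntegrable (by fun_prop) _ _
  have hdiag : ((2 * ρ * ∑ l ∈ T, ‖a l‖ ^ 2 : ℝ) : ℂ) =
      ∑ l ∈ T, ∑ m ∈ T, (if l = m then ((2 * ρ * ‖a l‖ ^ 2 : ℝ) : ℂ) else 0) := by
    rw [Finset.mul_sum]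
    push_cast
    refine Finset.sum_congr rfl fun l hl => ?_
    rw [Finset.sum_ite_eq, if_pos hl]
  have hnorm : |(∫ s in (c - ρ)..(c + ρ), ‖∑ l ∈ T, Complex.exp (Complex.I * l * s) • a l‖ ^ 2) -
      2 * ρ * ∑ l ∈ T, ‖a l‖ ^ 2| =
      ‖(((∫ s in (c - ρ)..(c + ρ), ‖∑ l ∈ T, Complex.exp (Complex.I * l * s) • a l‖ ^ 2) : ℝ) : ℂ) -
      ((2 * ρ * ∑ l ∈ T, ‖a l‖ ^ 2 : ℝ) : ℂ)‖ := by
    rw [← Complex.ofReal_sub, Complex.norm_real, Real.norm_eq_abs]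
  rw [hnorm, hint, hdiag, ← Finset.sum_sub_distrib]
  refine (norm_sum_le _ _).trans (Finset.sum_le_sum fun l _ => ?_)
  rw [← Finset.sum_sub_distrib]
  refine (norm_sum_le _ _).trans (Finset.sum_le_sum fun m _ => ?_)
  by_cases hlm : l = m
  · subst hlm
    rw [if_pos rfl, if_pos rfl]
    have h1 : (∫ s in (c - ρ)..(c + ρ), Complex.exp (Complex.I * ((l - l : ℝ) : ℂ) * s)) = ((2 * ρ : ℝ) : ℂ) := by
      have : ∀ s : ℝ, Complex.exp (Complex.I * ((l - l : ℝ) : ℂ) * s) = 1 := by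
        intro s; simp
      simp_rw [this]
      rw [intervalIntegral.integral_const]
      rw [Complex.real_smul, mul_one]
      congr 1; ring
    rw [h1, inner_self_eq_norm_sq_to_K]
    have : ((2 * ρ : ℝ) : ℂ) * ((‖a l‖ : ℝ) : ℂ) ^ 2 - ((2 * ρ * ‖a l‖ ^ 2 : ℝ) : ℂ) = 0 := by
      push_cast; ring
    exact le_of_eq (by rw [← norm_zero (E := ℂ)]; exact congrArg _ this)
  · rw [if_neg hlm, if_neg hlm, sub_zero, norm_mul]
    have hml : m - l ≠ 0 := sub_ne_zero.mpr (Ne.symm hlm)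
    exact mul_le_mul (mean_sq_osc hml _ _) (norm_inner_le_norm _ _) (norm_nonneg _) (by positivity)

/-- Mean square of an absolutely convergent almost periodic function over long intervals. -/
theorem mean_sq {f : ℝ → E} {a : ℝ → E} (ha : Summable (fun l => ‖a l‖))
    (hf : ∀ t : ℝ, f t = ∑' l : ℝ, Complex.exp (Complex.I * l * t) • a l) {ε : ℝ} (hε : 0 < ε) :
    ∃ r : ℝ, 0 < r ∧ ∀ c ρ : ℝ, r ≤ ρ →
      |(2 * ρ)⁻¹ * (∫ s in ball c ρ, ‖f s‖ ^ 2) - ∑' l : ℝ, ‖a l‖ ^ 2| ≤ ε := by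
  set A : ℝ := ∑' l, ‖a l‖ with hA
  have hA0 : 0 ≤ A := tsum_nonneg fun _ => norm_nonneg _
  have hle : ∀ l, ‖a l‖ ≤ A := fun l => ha.le_tsum l (fun _ _ => norm_nonneg _)
  have hsq : Summable (fun l => ‖a l‖ ^ 2) := by
    refine Summable.of_nonneg_of_le (fun _ => by positivity) (fun l => ?_) (ha.mul_left A)
    rw [sq]; exact mul_le_mul_of_nonneg_right (hle l) (norm_nonneg _)
  have hsumm : ∀ t : ℝ, Summable (fun l : ℝ => Complex.exp (Complex.I * l * t) • a l) := by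
    intro t
    refine Summable.of_norm ?_
    simp_rw [norm_smul, mean_sq_exp_norm, one_mul]; exact ha
  have hfc : Continuous f := by
    have : f = fun t : ℝ => ∑' l : ℝ, Complex.exp (Complex.I * l * t) • a l := funext hf
    rw [this]
    refine continuous_tsum (fun l => by fun_prop) ha (fun l t => ?_)
    rw [norm_smul, mean_sq_exp_norm, one_mul]
  set δ : ℝ := ε / (4 * (A + 1)) with hδ
  have hδ0 : 0 < δ := by positivity
  have hδA : δ * A ≤ ε / 4 := by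
    rw [hδ, div_mul_eq_mul_div, div_le_div_iff₀ (by positivity) (by norm_num)]
    nlinarith
  obtain ⟨T, hT⟩ : ∃ T : Finset ℝ, A - δ < ∑ l ∈ T, ‖a l‖ := by
    have := (tendsto_order.1 ha.hasSum).1 (A - δ) (by linarith)
    exact this.exists
  have htail : ∑' l : {x // x ∉ T}, ‖a l‖ ≤ δ := by
    have := ha.sum_add_tsum_subtype_compl T
    linarith
  set fT : ℝ → E := fun s => ∑ l ∈ T, Complex.exp (Complex.I * l * s) • a l with hfT
  have hfTc : Continuous fT := by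
    rw [hfT]; fun_prop
  have hdiff : ∀ s, ‖f s - fT s‖ ≤ δ := by
    intro s
    have h1 : f s - fT s = ∑' l : {x // x ∉ T}, Complex.exp (Complex.I * (l : ℝ) * s) • a l := by
      rw [hf, ← (hsumm s).sum_add_tsum_subtype_compl T, hfT]; simp
    rw [h1]
    have hs : Summable (fun l : {x // x ∉ T} => ‖Complex.exp (Complex.I * (l : ℝ) * s) • a l‖) := by
      simp_rw [norm_smul, mean_sq_exp_norm, one_mul]; exact ha.subtype _
    refine (norm_tsum_le_tsum_norm hs).trans ?_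
    simp_rw [norm_smul, mean_sq_exp_norm, one_mul]; exact htail
  have hfA : ∀ s, ‖f s‖ ≤ A := by
    intro s
    rw [hf]
    have hs : Summable (fun l : ℝ => ‖Complex.exp (Complex.I * l * s) • a l‖) := by
      simp_rw [norm_smul, mean_sq_exp_norm, one_mul]; exact ha
    refine (norm_tsum_le_tsum_norm hs).trans ?_
    simp_rw [norm_smul, mean_sq_exp_norm, one_mul]; exact le_rfl
  have hfTA : ∀ s, ‖fT s‖ ≤ A := by
    intro s
    refine (norm_sum_le _ _).trans ?_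
    simp_rw [norm_smul, mean_sq_exp_norm, one_mul]
    exact ha.sum_le_tsum T (fun _ _ => norm_nonneg _)
  have hsqd : ∀ s, |‖f s‖ ^ 2 - ‖fT s‖ ^ 2| ≤ 2 * A * δ := by
    intro s
    have h1 : ‖f s‖ ^ 2 - ‖fT s‖ ^ 2 = (‖f s‖ - ‖fT s‖) * (‖f s‖ + ‖fT s‖) := by ring
    rw [h1, abs_mul]
    have h2 : |‖f s‖ - ‖fT s‖| ≤ δ := (abs_norm_sub_norm_le _ _).trans (hdiff s)
    have h3 : |‖f s‖ + ‖fT s‖| ≤ 2 * A := by
      rw [abs_of_nonneg (by positivity)]; linarith [hfA s, hfTA s]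
    calc |‖f s‖ - ‖fT s‖| * |‖f s‖ + ‖fT s‖| ≤ δ * (2 * A) :=
          mul_le_mul h2 h3 (abs_nonneg _) hδ0.le
      _ = 2 * A * δ := by ring
  set D : ℝ := ∑ l ∈ T, ∑ m ∈ T, (if l = m then 0 else 2 / |m - l| * (‖a l‖ * ‖a m‖)) with hD
  have hD0 : 0 ≤ D := by
    refine Finset.sum_nonneg fun l _ => Finset.sum_nonneg fun m _ => ?_
    split_ifs
    · exact le_rfl
    · positivity
  have hsqtail : |(∑ l ∈ T, ‖a l‖ ^ 2) - ∑' l : ℝ, ‖a l‖ ^ 2| ≤ δ * A := by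
    have h1 := hsq.sum_add_tsum_subtype_compl T
    have h2 : (∑ l ∈ T, ‖a l‖ ^ 2) - ∑' l : ℝ, ‖a l‖ ^ 2 = -∑' l : {x // x ∉ T}, ‖a l‖ ^ 2 := by
      rw [← h1]; ring
    rw [h2, abs_neg, abs_of_nonneg (tsum_nonneg fun _ => by positivity)]
    calc ∑' l : {x // x ∉ T}, ‖a l‖ ^ 2 ≤ ∑' l : {x // x ∉ T}, ‖a l‖ * A := by
          refine (hsq.subtype _).tsum_le_tsum (fun l => ?_) ((ha.subtype _).mul_right A)
          change ‖a l‖ ^ 2 ≤ ‖a l‖ * A
          rw [sq]; exact mul_le_mul_of_nonneg_left (hle l) (norm_nonneg _)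
      _ = (∑' l : {x // x ∉ T}, ‖a l‖) * A := tsum_mul_right
      _ ≤ δ * A := mul_le_mul_of_nonneg_right htail hA0
  refine ⟨2 * D / ε + 1, by positivity, fun c ρ hρ => ?_⟩
  have hρ0 : 0 < ρ := lt_of_lt_of_le (by positivity) hρ
  have hball : ∀ g : ℝ → ℝ, ∫ s in ball c ρ, g s = ∫ s in (c - ρ)..(c + ρ), g s := by
    intro g
    rw [Real.ball_eq_Ioo, ← integral_Ioc_eq_integral_Ioo, intervalIntegral.integral_of_le (by linarith)]
  rw [hball]
  have i1 : IntervalIntegrable (fun s => ‖f s‖ ^ 2) volume (c - ρ) (c + ρ) :=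
    (hfc.norm.pow 2).intervalIntegrable _ _
  have i2 : IntervalIntegrable (fun s => ‖fT s‖ ^ 2) volume (c - ρ) (c + ρ) :=
    (hfTc.norm.pow 2).intervalIntegrable _ _
  have e1 : |(∫ s in (c - ρ)..(c + ρ), ‖f s‖ ^ 2) - ∫ s in (c - ρ)..(c + ρ), ‖fT s‖ ^ 2| ≤
      2 * A * δ * (2 * ρ) := by
    rw [← intervalIntegral.integral_sub i1 i2, ← Real.norm_eq_abs]
    refine (intervalIntegral.norm_integral_le_of_norm_le_const (C := 2 * A * δ) (fun s _ => ?_)).trans ?_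
    · rw [Real.norm_eq_abs]; exact hsqd s
    · have : c + ρ - (c - ρ) = 2 * ρ := by ring
      rw [this, abs_of_pos (by positivity)]
  have e2 := mean_sq_fin T a c ρ hρ0
  rw [← hD] at e2
  have e3 : (2 * ρ)⁻¹ * D ≤ ε / 4 := by
    have h1 : 2 * D / ε ≤ ρ := by linarith
    have h2 : 2 * D ≤ ρ * ε := by rwa [div_le_iff₀ hε] at h1
    rw [inv_mul_le_iff₀ (by positivity)]
    nlinarith
  have e4 : (2 * ρ)⁻¹ * (∫ s in (c - ρ)..(c + ρ), ‖f s‖ ^ 2) - ∑' l : ℝ, ‖a l‖ ^ 2 =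
      (2 * ρ)⁻¹ * ((∫ s in (c - ρ)..(c + ρ), ‖f s‖ ^ 2) - ∫ s in (c - ρ)..(c + ρ), ‖fT s‖ ^ 2) +
      (2 * ρ)⁻¹ * ((∫ s in (c - ρ)..(c + ρ), ‖fT s‖ ^ 2) - 2 * ρ * ∑ l ∈ T, ‖a l‖ ^ 2) +
      ((∑ l ∈ T, ‖a l‖ ^ 2) - ∑' l : ℝ, ‖a l‖ ^ 2) := by
    field_simp; ring
  rw [e4]
  refine (abs_add_three _ _ _).trans ?_
  rw [abs_mul, abs_mul, abs_of_pos (show 0 < (2 * ρ)⁻¹ by positivity)]
  have f1 : (2 * ρ)⁻¹ * |(∫ s in (c - ρ)..(c + ρ), ‖f s‖ ^ 2) - ∫ s in (c - ρ)..(c + ρ), ‖fT s‖ ^ 2| ≤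
      2 * A * δ := by
    rw [inv_mul_le_iff₀ (by positivity)]
    linarith
  have f2 : (2 * ρ)⁻¹ * |(∫ s in (c - ρ)..(c + ρ), ‖fT s‖ ^ 2) - 2 * ρ * ∑ l ∈ T, ‖a l‖ ^ 2| ≤ ε / 4 :=
    (mul_le_mul_of_nonneg_left e2 (by positivity)).trans e3
  linarith

end B3
end Pool.Agent.Helper865.TAP
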