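import Pool.Agent.Helper865.TAP.Defs


set_option autoImplicit false

open MeasureTheory Filter Topology Set Metric
open scoped ENNReal NNReal

namespace Pool.Agent.Helper865.TAP
namespace B4



variable {E : Type*} [NormedAddCommGroup E] [InnerProductSpace ℂ E] [FiniteDimensional ℂ E]


/-- the compressed convolution operator -/
noncomputable def nT (s : Finset ℝ) (A : ℝ → E →L[ℂ] E) (F : Set ℝ) :
    (ℝ → E) →ₗ[ℂ] (ℝ → E) where
  toFun p := F.indicator (fun l => ∑ m ∈ s, A m (p (l - m)))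
  map_add' p q := by
    funext l
    by_cases hl : l ∈ F
    · simp [Set.indicator_of_mem hl, Finset.sum_add_distrib]
    · simp [Set.indicator_of_notMem hl]
  map_smul' c p := by
    funext l
    by_cases hl : l ∈ F
    · simp [Set.indicator_of_mem hl, Finset.smul_sum]
    · simp [Set.indicator_of_notMem hl]

theorem nT_apply (s : Finset ℝ) (A : ℝ → E →L[ℂ] E) (F : Set ℝ) (p : ℝ → E) (l : ℝ) :
    nT s A F p l = F.indicator (fun l => ∑ m ∈ s, A m (p (l - m))) l := rfl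

/-- finitely supported in `F` -/
def FSF (F : Set ℝ) (p : ℝ → E) : Prop := p.support.Finite ∧ ∀ l, l ∉ F → p l = 0

theorem FSF.nT {s : Finset ℝ} {A : ℝ → E →L[ℂ] E} {F : Set ℝ} {p : ℝ → E} (hp : FSF F p) :
    FSF F (nT s A F p) := by
  constructor
  · have h1 : (Pool.Agent.Helper865.TAP.B4.nT s A F p).support ⊆ ⋃ m ∈ s, (fun l => l + m) '' p.support := by
      intro l hl
      rw [Function.mem_support, nT_apply] at hl
      by_contra hcon
      apply hl
      simp only [Set.mem_iUnion, Set.mem_image, not_exists, not_and] at hcon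
      rw [Set.indicator_apply_eq_zero]
      intro _
      apply Finset.sum_eq_zero
      intro m hm
      have h2 : p (l - m) = 0 := by
        by_contra h3
        exact hcon m hm (l - m) h3 (by ring)
      rw [h2, map_zero]
    exact (s.finite_toSet.biUnion fun m _ => hp.1.image _).subset h1
  · intro l hl
    rw [nT_apply, Set.indicator_of_notMem hl]

theorem FSF.sub {F : Set ℝ} {p q : ℝ → E} (hp : FSF F p) (hq : FSF F q) : FSF F (p - q) := by
  refine ⟨(hp.1.union hq.1).subset (Function.support_sub p q), fun l hl => ?_⟩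
  rw [Pi.sub_apply, hp.2 l hl, hq.2 l hl, sub_zero]

theorem FSF.smul {F : Set ℝ} {p : ℝ → E} (c : ℂ) (hp : FSF F p) : FSF F (c • p) := by
  refine ⟨hp.1.subset (Function.support_const_smul_subset c p), fun l hl => ?_⟩
  rw [Pi.smul_apply, hp.2 l hl, smul_zero]

theorem FSF.sum {F : Set ℝ} {p : ℕ → ℝ → E} (hp : ∀ j, FSF F (p j)) (J : ℕ) :
    FSF F (∑ j ∈ Finset.range J, p j) := by
  induction J with
  | zero => exact ⟨by simp, fun l _ => by simp⟩
  | succ J ih =>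
    rw [Finset.sum_range_succ]
    refine ⟨(ih.1.union (hp J).1).subset (Function.support_add _ _), fun l hl => ?_⟩
    rw [Pi.add_apply, ih.2 l hl, (hp J).2 l hl, add_zero]

/-- square norm -/
noncomputable def nN (p : ℝ → E) : ℝ := ∑' l, ‖p l‖ ^ 2

/-- real inner product -/
noncomputable def nI (p q : ℝ → E) : ℝ := ∑' l, (inner ℂ (p l) (q l)).re

theorem n_summ {p : ℝ → E} (hp : p.support.Finite) : Summable fun l => ‖p l‖ ^ 2 := by
  apply summable_of_finite_support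
  apply hp.subset
  intro l hl
  rw [Function.mem_support] at hl ⊢
  intro h; apply hl; rw [h]; simp

theorem n_summ1 {p : ℝ → E} (hp : p.support.Finite) : Summable fun l => ‖p l‖ := by
  apply summable_of_finite_support
  apply hp.subset
  intro l hl
  rw [Function.mem_support] at hl ⊢
  intro h; apply hl; rw [h]; simp

theorem n_summI {p q : ℝ → E} (hp : p.support.Finite) : Summable fun l => (inner ℂ (p l) (q l)).re := by
  apply summable_of_finite_support
  apply hp.subset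
  intro l hl
  rw [Function.mem_support] at hl ⊢
  intro h; apply hl; rw [h]; simp

theorem nN_nonneg (p : ℝ → E) : 0 ≤ nN p := tsum_nonneg fun l => by positivity

theorem nI_self (p : ℝ → E) : nI p p = nN p := by
  unfold nI nN
  refine tsum_congr fun l => ?_
  have := inner_self_eq_norm_sq (𝕜 := ℂ) (p l)
  simpa using this

theorem nN_sub {F : Set ℝ} {p q : ℝ → E} (hp : FSF F p) (hq : FSF F q) (c : ℝ) :
    nN (p - (c : ℂ) • q) = nN p - 2 * c * nI p q + c ^ 2 * nN q := by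
  unfold nN nI
  rw [← tsum_mul_left, ← tsum_mul_left, ← ((n_summ hp.1).tsum_sub ((n_summI hp.1).mul_left _)),
    ← ((n_summ hp.1).sub ((n_summI hp.1).mul_left _)).tsum_add ((n_summ hq.1).mul_left _)]
  refine tsum_congr fun l => ?_
  rw [Pi.sub_apply, Pi.smul_apply, norm_sub_sq (𝕜 := ℂ), inner_smul_right, norm_smul]
  simp only [RCLike.re_to_complex, Complex.mul_re, Complex.ofReal_re, Complex.ofReal_im, zero_mul,
    sub_zero, Complex.norm_real, mul_pow, Real.norm_eq_abs, sq_abs]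
  ring

theorem nT_symm {s : Finset ℝ} {A : ℝ → E →L[ℂ] E} (hs : ∀ l, l ∉ s → A l = 0)
    (hsym : ∀ l, A (-l) = ContinuousLinearMap.adjoint (A l)) {F : Set ℝ} {p q : ℝ → E}
    (hp : FSF F p) (hq : FSF F q) : nI (nT s A F p) q = nI p (nT s A F q) := by
  obtain ⟨g, hg⟩ : ∃ g : ℝ → ℝ, g = fun m => ∑' l, (inner ℂ (p l) (A m (q (l - m)))).re := ⟨_, rfl⟩
  have h0 : ∀ m, m ∉ s → g m = 0 := by
    intro m hm
    rw [hg]
    simp only [hs m hm]
    simp
  have hsymm : ∀ m, A m = 0 → A (-m) = 0 := by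
    intro m hm
    rw [hsym, hm, map_zero]
  have h0' : ∀ m, -m ∉ s → g m = 0 := by
    intro m hm
    have h1 : A m = 0 := by
      have := hsymm (-m) (hs _ hm)
      rwa [neg_neg] at this
    rw [hg]
    simp only [h1]
    simp
  -- right side
  have hR : nI p (nT s A F q) = ∑ m ∈ s, g m := by
    unfold nI
    rw [hg]
    simp only
    rw [← Summable.tsum_finsetSum (fun m _ => n_summI hp.1)]
    refine tsum_congr fun l => ?_
    rw [nT_apply]
    by_cases hl : l ∈ F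
    · rw [Set.indicator_of_mem hl, inner_sum, Complex.re_sum]
    · rw [hp.2 l hl]; simp
  have hL : nI (nT s A F p) q = ∑ m ∈ s, g (-m) := by
    have hsq : ∀ m ∈ s, Summable fun l => (inner ℂ (A m (p (l - m))) (q l)).re := by
      intro m _
      apply summable_of_finite_support
      apply hq.1.subset
      intro l hl
      rw [Function.mem_support] at hl ⊢
      intro h; apply hl; rw [h]; simp
    have h1 : nI (nT s A F p) q = ∑ m ∈ s, ∑' l, (inner ℂ (A m (p (l - m))) (q l)).re := by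
      unfold nI
      rw [← Summable.tsum_finsetSum hsq]
      refine tsum_congr fun l => ?_
      rw [nT_apply]
      by_cases hl : l ∈ F
      · rw [Set.indicator_of_mem hl, sum_inner, Complex.re_sum]
      · rw [hq.2 l hl]; simp
    rw [h1]
    refine Finset.sum_congr rfl fun m _ => ?_
    rw [hg]
    simp only
    rw [← (Equiv.addRight m).tsum_eq]
    refine tsum_congr fun l => ?_
    simp only [Equiv.coe_addRight, add_sub_cancel_right, sub_neg_eq_add]
    rw [hsym, ContinuousLinearMap.adjoint_inner_right]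
  rw [hR, hL]
  have e1 : ∑ m ∈ s, g m = ∑ m ∈ s.filter (fun m => -m ∈ s), g m := by
    rw [Finset.sum_filter]
    refine Finset.sum_congr rfl fun m _ => ?_
    split_ifs with h
    · rfl
    · exact h0' m h
  have e2 : ∑ m ∈ s, g (-m) = ∑ m ∈ s.filter (fun m => -m ∈ s), g (-m) := by
    rw [Finset.sum_filter]
    refine Finset.sum_congr rfl fun m _ => ?_
    split_ifs with h
    · rfl
    · exact h0 _ h
  rw [e1, e2]
  refine Finset.sum_nbij' (fun m => -m) (fun m => -m) ?_ ?_ ?_ ?_ ?_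
  · intro m hm
    simp only [Finset.mem_filter] at hm ⊢
    exact ⟨hm.2, by rw [neg_neg]; exact hm.1⟩
  · intro m hm
    simp only [Finset.mem_filter] at hm ⊢
    exact ⟨hm.2, by rw [neg_neg]; exact hm.1⟩
  · intro m _; simp
  · intro m _; simp
  · intro m _; rfl

theorem nT_bound {s : Finset ℝ} {A : ℝ → E →L[ℂ] E} {F : Set ℝ} {p : ℝ → E}
    (hp : FSF F p) : nN (nT s A F p) ≤ (∑ m ∈ s, ‖A m‖) ^ 2 * nN p := by
  have hshift : ∀ m, Summable fun l => ‖p (l - m)‖ ^ 2 := by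
    intro m
    exact (Equiv.subRight m).summable_iff.mpr (n_summ hp.1)
  have hshift' : ∀ m, ∑' l, ‖p (l - m)‖ ^ 2 = nN p := by
    intro m
    exact (Equiv.subRight m).tsum_eq (fun l => ‖p l‖ ^ 2)
  have hpt : ∀ l, ‖nT s A F p l‖ ^ 2 ≤ (∑ m ∈ s, ‖A m‖) * ∑ m ∈ s, ‖A m‖ * ‖p (l - m)‖ ^ 2 := by
    intro l
    have h1 : ‖nT s A F p l‖ ≤ ∑ m ∈ s, ‖A m‖ * ‖p (l - m)‖ := by
      rw [nT_apply]
      refine (norm_indicator_le_norm_self _ _).trans ?_
      refine norm_sum_le_of_le _ fun m _ => ContinuousLinearMap.le_opNorm _ _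
    have h2 : (∑ m ∈ s, ‖A m‖ * ‖p (l - m)‖) ^ 2 ≤
        (∑ m ∈ s, ‖A m‖) * ∑ m ∈ s, ‖A m‖ * ‖p (l - m)‖ ^ 2 := by
      have h3 := Finset.sum_mul_sq_le_sq_mul_sq s (fun m => √‖A m‖) (fun m => √‖A m‖ * ‖p (l - m)‖)
      have e1 : ∀ m, √‖A m‖ * (√‖A m‖ * ‖p (l - m)‖) = ‖A m‖ * ‖p (l - m)‖ := by
        intro m
        rw [← mul_assoc, Real.mul_self_sqrt (norm_nonneg _)]
      have e2 : ∀ m, (√‖A m‖) ^ 2 = ‖A m‖ := fun m => Real.sq_sqrt (norm_nonneg _)
      simp only [e1, mul_pow, e2] at h3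
      exact h3
    calc ‖nT s A F p l‖ ^ 2 ≤ (∑ m ∈ s, ‖A m‖ * ‖p (l - m)‖) ^ 2 := by gcongr
      _ ≤ _ := h2
  have hs2 : Summable fun l => (∑ m ∈ s, ‖A m‖) * ∑ m ∈ s, ‖A m‖ * ‖p (l - m)‖ ^ 2 :=
    (summable_sum fun m _ => (hshift m).mul_left _).mul_left _
  calc nN (nT s A F p) ≤ ∑' l, (∑ m ∈ s, ‖A m‖) * ∑ m ∈ s, ‖A m‖ * ‖p (l - m)‖ ^ 2 :=
        (n_summ hp.nT.1).tsum_le_tsum hpt hs2
    _ = (∑ m ∈ s, ‖A m‖) * ∑ m ∈ s, ‖A m‖ * nN p := by
        rw [tsum_mul_left, Summable.tsum_finsetSum (fun m _ => (hshift m).mul_left _)]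
        simp only [tsum_mul_left, hshift']
    _ = (∑ m ∈ s, ‖A m‖) ^ 2 * nN p := by
        rw [← Finset.sum_mul]; ring

/-- coefficient sets -/
noncomputable def nD (s : Finset ℝ) (n : ℕ) : Finset ℝ :=
  (Fintype.piFinset (fun _ : s => Finset.range (n + 1))).image (fun k => ∑ m : s, (k m : ℝ) * m)

theorem nD_card (s : Finset ℝ) (n : ℕ) : (nD s n).card ≤ (n + 1) ^ s.card := by
  refine Finset.card_image_le.trans ?_
  rw [Fintype.card_piFinset]
  simp

theorem nD_mono (s : Finset ℝ) (n : ℕ) : nD s n ⊆ nD s (n + 1) := by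
  intro x hx
  unfold nD at hx ⊢
  rw [Finset.mem_image] at hx ⊢
  obtain ⟨k, hk, rfl⟩ := hx
  refine ⟨k, ?_, rfl⟩
  rw [Fintype.mem_piFinset] at hk ⊢
  intro m
  have := hk m
  rw [Finset.mem_range] at this ⊢
  omega

theorem nD_add (s : Finset ℝ) (n : ℕ) {x m : ℝ} (hm : m ∈ s) (hx : x ∈ nD s n) :
    x + m ∈ nD s (n + 1) := by
  classical
  unfold nD at hx ⊢
  rw [Finset.mem_image] at hx ⊢
  obtain ⟨k, hk, rfl⟩ := hx
  refine ⟨fun m' => k m' + if m' = ⟨m, hm⟩ then 1 else 0, ?_, ?_⟩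
  · rw [Fintype.mem_piFinset] at hk ⊢
    intro m'
    have := hk m'
    rw [Finset.mem_range] at this ⊢
    split_ifs <;> omega
  · simp only [Nat.cast_add, add_mul, Finset.sum_add_distrib]
    congr 1
    rw [Finset.sum_eq_single (⟨m, hm⟩ : s)]
    · simp
    · intro b _ hb
      simp [hb]
    · intro h; exact absurd (Finset.mem_univ _) h

/-- the windows -/
noncomputable def nW (S s : Finset ℝ) (n : ℕ) : Finset ℝ :=
  (S ×ˢ nD s n).image (fun x => x.1 + x.2)

theorem nW_card (S s : Finset ℝ) (n : ℕ) : (nW S s n).card ≤ S.card * (n + 1) ^ s.card := by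
  refine Finset.card_image_le.trans ?_
  rw [Finset.card_product]
  exact Nat.mul_le_mul_left _ (nD_card s n)

theorem nW_mono (S s : Finset ℝ) (n : ℕ) : nW S s n ⊆ nW S s (n + 1) := by
  intro x hx
  unfold nW at hx ⊢
  rw [Finset.mem_image] at hx ⊢
  obtain ⟨⟨a, b⟩, hk, rfl⟩ := hx
  rw [Finset.mem_product] at hk
  exact ⟨(a, b), Finset.mem_product.mpr ⟨hk.1, nD_mono s n hk.2⟩, rfl⟩

theorem nW_add (S s : Finset ℝ) (n : ℕ) {x m : ℝ} (hm : m ∈ s) (hx : x ∈ nW S s n) :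
    x + m ∈ nW S s (n + 1) := by
  unfold nW at hx ⊢
  rw [Finset.mem_image] at hx ⊢
  obtain ⟨⟨a, b⟩, hk, rfl⟩ := hx
  rw [Finset.mem_product] at hk
  exact ⟨(a, b + m), Finset.mem_product.mpr ⟨hk.1, nD_add s n hm hk.2⟩, by simp only; ring⟩

theorem nW_T {S s : Finset ℝ} {A : ℝ → E →L[ℂ] E} {F : Set ℝ} {p : ℝ → E} {n : ℕ}
    (h : ∀ l, l ∉ nW S s n → p l = 0) : ∀ l, l ∉ nW S s (n + 1) → nT s A F p l = 0 := by
  intro l hl
  rw [nT_apply, Set.indicator_apply_eq_zero]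
  intro _
  apply Finset.sum_eq_zero
  intro m hm
  rw [h (l - m), map_zero]
  intro h1
  apply hl
  have := nW_add S s n hm h1
  rwa [sub_add_cancel] at this

theorem n_l1 {W : Finset ℝ} {p : ℝ → E} (h : ∀ l, l ∉ W → p l = 0) :
    ∑' l, ‖p l‖ ≤ (W.card : ℝ) * √(nN p) := by
  have e1 : ∑' l, ‖p l‖ = ∑ l ∈ W, ‖p l‖ :=
    tsum_eq_sum (fun l hl => by rw [h l hl, norm_zero])
  have e2 : nN p = ∑ l ∈ W, ‖p l‖ ^ 2 :=
    tsum_eq_sum (fun l hl => by rw [h l hl, norm_zero]; ring)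
  rw [e1]
  have h1 : (∑ l ∈ W, ‖p l‖) ^ 2 ≤ (W.card : ℝ) * nN p := by
    rw [e2]; exact sq_sum_le_card_mul_sum_sq
  have h2 : (∑ l ∈ W, ‖p l‖) ^ 2 ≤ ((W.card : ℝ) * √(nN p)) ^ 2 := by
    rw [mul_pow, Real.sq_sqrt (nN_nonneg p)]
    refine h1.trans ?_
    apply mul_le_mul_of_nonneg_right _ (nN_nonneg p)
    rcases Nat.eq_zero_or_pos W.card with h0 | h0
    · rw [h0]; simp
    · have : (1 : ℝ) ≤ W.card := by exact_mod_cast h0
      nlinarith
  exact le_of_sq_le_sq h2 (by positivity)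

theorem n_poly (d : ℕ) {r : ℝ} (hr0 : 0 ≤ r) (hr1 : r < 1) :
    Summable fun j : ℕ => ((2 * j + 2 : ℕ) : ℝ) ^ d * r ^ j := by
  have h1 : Summable fun j : ℕ => (j : ℝ) ^ d * r ^ j :=
    summable_pow_mul_geometric_of_norm_lt_one d (by rw [Real.norm_eq_abs, abs_of_nonneg hr0]; exact hr1)
  have h2 : Summable fun j : ℕ => r ^ j := summable_geometric_of_lt_one hr0 hr1
  refine Summable.of_nonneg_of_le (fun j => by positivity) ?_ ((h1.add h2).mul_left ((4 : ℝ) ^ d))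
  intro j
  have h3 : ((2 * j + 2 : ℕ) : ℝ) ^ d ≤ 4 ^ d * ((j : ℝ) ^ d + 1) := by
    rcases Nat.eq_zero_or_pos j with h0 | h0
    · subst h0
      simp only [mul_zero, zero_add, Nat.cast_ofNat, Nat.cast_zero]
      have e1 : (2 : ℝ) ^ d ≤ 4 ^ d := by gcongr; norm_num
      have e2 : (0 : ℝ) ≤ 0 ^ d := by positivity
      nlinarith [pow_pos (show (0 : ℝ) < 4 by norm_num) d]
    · have h4 : ((2 * j + 2 : ℕ) : ℝ) ≤ 4 * j := by
        exact_mod_cast (show 2 * j + 2 ≤ 4 * j by omega)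
      calc ((2 * j + 2 : ℕ) : ℝ) ^ d ≤ (4 * j) ^ d := by gcongr
        _ = 4 ^ d * (j : ℝ) ^ d := mul_pow _ _ _
        _ ≤ 4 ^ d * ((j : ℝ) ^ d + 1) := by gcongr; linarith
  calc ((2 * j + 2 : ℕ) : ℝ) ^ d * r ^ j ≤ (4 ^ d * ((j : ℝ) ^ d + 1)) * r ^ j := by gcongr
    _ = 4 ^ d * ((j : ℝ) ^ d * r ^ j + r ^ j) := by ring

theorem n_young {F : Set ℝ} {p q : ℝ → E} (hp : FSF F p) (hq : FSF F q) {η : ℝ} (hη : 0 < η) :
    nN (p - q) ≤ (1 + η) * nN p + (1 + η⁻¹) * nN q := by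
  unfold nN
  rw [← tsum_mul_left, ← tsum_mul_left,
    ← ((n_summ hp.1).mul_left _).tsum_add ((n_summ hq.1).mul_left _)]
  refine (n_summ (hp.sub hq).1).tsum_le_tsum (fun l => ?_)
    (((n_summ hp.1).mul_left _).add ((n_summ hq.1).mul_left _))
  rw [Pi.sub_apply]
  have h1 : ‖p l - q l‖ ≤ ‖p l‖ + ‖q l‖ := norm_sub_le _ _
  have h2 : ‖p l - q l‖ ^ 2 ≤ (‖p l‖ + ‖q l‖) ^ 2 := by gcongr
  refine h2.trans ?_
  have h3 : 2 * ‖p l‖ * ‖q l‖ ≤ η * ‖p l‖ ^ 2 + η⁻¹ * ‖q l‖ ^ 2 := by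
    have h4 : 0 ≤ (η * ‖p l‖ - ‖q l‖) ^ 2 * η⁻¹ := by positivity
    have h5 : (η * ‖p l‖ - ‖q l‖) ^ 2 * η⁻¹ = η * ‖p l‖ ^ 2 - 2 * ‖p l‖ * ‖q l‖ + η⁻¹ * ‖q l‖ ^ 2 := by
      field_simp
      ring
    linarith
  nlinarith

/-- Inversion of a compressed trigonometric polynomial with absolutely convergent result.
The compression of the (self-adjoint) convolution by `A` to the frequency set `F` is bounded below
on finitely supported functions; then the equation `1_F (A * a) = b` has a solution `a` supported in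
`F`, absolutely summable, with the `ℓ²` bound. -/
theorem neumann {s : Finset ℝ} {A : ℝ → E →L[ℂ] E} (hs : ∀ l, l ∉ s → A l = 0)
    (hsym : ∀ l, A (-l) = ContinuousLinearMap.adjoint (A l)) (F : Set ℝ) {K : ℝ} (hK : 0 < K)
    (hlow : ∀ p : ℝ → E, p.support.Finite → (∀ l, l ∉ F → p l = 0) →
      ∑' l, ‖p l‖ ^ 2 ≤ K ^ 2 * ∑' l, ‖F.indicator (fun l => ∑ m ∈ s, A m (p (l - m))) l‖ ^ 2)
    (b : ℝ → E) (hb : b.support.Finite) (hbF : ∀ l, l ∉ F → b l = 0) :
    ∃ a : ℝ → E, Summable (fun l => ‖a l‖) ∧ (∀ l, l ∉ F → a l = 0) ∧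
      (∀ l ∈ F, ∑ m ∈ s, A m (a (l - m)) = b l) ∧
      ∑' l, ‖a l‖ ^ 2 ≤ K ^ 2 * ∑' l, ‖b l‖ ^ 2 := by
  classical
  obtain ⟨T, hT⟩ : ∃ T : (ℝ → E) →ₗ[ℂ] (ℝ → E), T = nT s A F := ⟨_, rfl⟩
  obtain ⟨B, hB⟩ : ∃ B : ℝ, B = 1 + ∑ m ∈ s, ‖A m‖ := ⟨_, rfl⟩
  have hA0 : 0 ≤ ∑ m ∈ s, ‖A m‖ := Finset.sum_nonneg fun _ _ => norm_nonneg _
  have hB1 : 1 ≤ B := by rw [hB]; linarith
  have hB0 : 0 < B := by linarith
  obtain ⟨c, hc⟩ : ∃ c : ℝ, c = (B ^ 2)⁻¹ := ⟨_, rfl⟩
  have hc0 : 0 < c := by rw [hc]; positivity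
  have hcB : c * B ^ 2 = 1 := by rw [hc]; exact inv_mul_cancel₀ (by positivity)
  have hc1 : c ≤ 1 := by
    have : 1 ≤ B ^ 2 := by nlinarith
    nlinarith
  have hTF : ∀ p, FSF F p → FSF F (T p) := by
    intro p hp; rw [hT]; exact hp.nT
  have hTb : ∀ p, FSF F p → nN (T p) ≤ B ^ 2 * nN p := by
    intro p hp
    rw [hT]
    refine (nT_bound hp).trans ?_
    apply mul_le_mul_of_nonneg_right _ (nN_nonneg p)
    apply pow_le_pow_left₀ hA0
    rw [hB]; linarith
  have hlow' : ∀ p, FSF F p → nN p ≤ K ^ 2 * nN (T p) := by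
    intro p hp
    rw [hT]
    exact hlow p hp.1 hp.2
  have hTs : ∀ p q, FSF F p → FSF F q → nI (T p) q = nI p (T q) := by
    intro p q hp hq
    rw [hT]
    exact nT_symm hs hsym hp hq
  have hb' : FSF F b := ⟨hb, hbF⟩
  -- the iteration
  obtain ⟨u, hu0, hus⟩ : ∃ u : ℕ → ℝ → E, u 0 = b ∧ ∀ j, u (j + 1) = u j - (c : ℂ) • T (T (u j)) :=
    ⟨fun j => Nat.rec b (fun _ p => p - (c : ℂ) • T (T p)) j, rfl, fun j => rfl⟩
  have huF : ∀ j, FSF F (u j) := by
    intro j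
    induction j with
    | zero => rw [hu0]; exact hb'
    | succ j ih => rw [hus]; exact ih.sub ((hTF _ (hTF _ ih)).smul _)
  obtain ⟨θ, hθ⟩ : ∃ θ : ℝ, θ = max 0 (1 - c / K ^ 2) := ⟨_, rfl⟩
  have hθ0 : 0 ≤ θ := by rw [hθ]; exact le_max_left _ _
  have hθ1 : θ < 1 := by
    rw [hθ]
    apply max_lt (by norm_num)
    have : 0 < c / K ^ 2 := by positivity
    linarith
  have hstep : ∀ j, nN (u (j + 1)) ≤ θ * nN (u j) := by
    intro j
    have h1 := hTF _ (huF j)
    have h2 := hTF _ h1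
    rw [hus, nN_sub (huF j) h2, ← hTs _ _ (huF j) h1, nI_self]
    have h3 := hTb _ h1
    have h4 := hlow' _ (huF j)
    have h5 : c ^ 2 * nN (T (T (u j))) ≤ c * nN (T (u j)) := by
      calc c ^ 2 * nN (T (T (u j))) ≤ c ^ 2 * (B ^ 2 * nN (T (u j))) := by gcongr
        _ = c * (c * B ^ 2) * nN (T (u j)) := by ring
        _ = c * nN (T (u j)) := by rw [hcB, mul_one]
    have h6 : c / K ^ 2 * nN (u j) ≤ c * nN (T (u j)) := by
      calc c / K ^ 2 * nN (u j) ≤ c / K ^ 2 * (K ^ 2 * nN (T (u j))) := by gcongr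
        _ = c * nN (T (u j)) := by field_simp
    have h7 : (1 - c / K ^ 2) * nN (u j) ≤ θ * nN (u j) := by
      apply mul_le_mul_of_nonneg_right _ (nN_nonneg _)
      rw [hθ]; exact le_max_right _ _
    linarith
  have hun : ∀ j, nN (u j) ≤ θ ^ j * nN b := by
    intro j
    induction j with
    | zero => rw [hu0]; simp
    | succ j ih =>
      calc nN (u (j + 1)) ≤ θ * nN (u j) := hstep j
        _ ≤ θ * (θ ^ j * nN b) := by gcongr
        _ = θ ^ (j + 1) * nN b := by ring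
  obtain ⟨v, hv⟩ : ∃ v : ℕ → ℝ → E, v = fun j => (c : ℂ) • T (u j) := ⟨_, rfl⟩
  have hvj : ∀ j, v j = (c : ℂ) • T (u j) := fun j => by rw [hv]
  have hvF : ∀ j, FSF F (v j) := by
    intro j; rw [hvj]; exact (hTF _ (huF j)).smul _
  have hvn : ∀ j, nN (v j) ≤ θ ^ j * nN b := by
    intro j
    have h1 : nN (v j) = c ^ 2 * nN (T (u j)) := by
      rw [hvj]
      unfold nN
      rw [← tsum_mul_left]
      refine tsum_congr fun l => ?_
      rw [Pi.smul_apply, norm_smul, mul_pow, Complex.norm_real, Real.norm_eq_abs, sq_abs]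
    rw [h1]
    calc c ^ 2 * nN (T (u j)) ≤ c ^ 2 * (B ^ 2 * nN (u j)) := by
          gcongr
          exact hTb _ (huF j)
      _ = c * (c * B ^ 2) * nN (u j) := by ring
      _ = c * nN (u j) := by rw [hcB, mul_one]
      _ ≤ 1 * nN (u j) := mul_le_mul_of_nonneg_right hc1 (nN_nonneg _)
      _ ≤ θ ^ j * nN b := by rw [one_mul]; exact hun j
  -- supports
  obtain ⟨S, hS⟩ : ∃ S : Finset ℝ, S = hb.toFinset := ⟨_, rfl⟩
  have hsuppU : ∀ j, ∀ l, l ∉ nW S s (2 * j) → u j l = 0 := by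
    intro j
    induction j with
    | zero =>
      intro l hl
      rw [hu0]
      by_contra hne
      apply hl
      unfold nW nD
      rw [Finset.mem_image]
      refine ⟨(l, 0), Finset.mem_product.mpr ⟨?_, ?_⟩, by simp⟩
      · rw [hS, Set.Finite.mem_toFinset]; exact hne
      · rw [Finset.mem_image]
        exact ⟨fun _ => 0, by simp, by simp⟩
    | succ j ih =>
      intro l hl
      have h1 : nT s A F (u j) = T (u j) := by rw [hT]
      have h2 : nT s A F (T (u j)) = T (T (u j)) := by rw [hT]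
      have hT1 := nW_T (A := A) (F := F) ih
      rw [h1] at hT1
      have hT2 := nW_T (A := A) (F := F) hT1
      rw [h2] at hT2
      have e : 2 * (j + 1) = 2 * j + 1 + 1 := by ring
      rw [e] at hl
      rw [hus, Pi.sub_apply, Pi.smul_apply, hT2 l hl, smul_zero, sub_zero]
      exact ih l (fun h => hl (nW_mono _ _ _ (nW_mono _ _ _ h)))
  have hsuppV : ∀ j, ∀ l, l ∉ nW S s (2 * j + 1) → v j l = 0 := by
    intro j l hl
    have h1 : nT s A F (u j) = T (u j) := by rw [hT]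
    have hT1 := nW_T (A := A) (F := F) (hsuppU j)
    rw [h1] at hT1
    rw [hvj, Pi.smul_apply, hT1 l hl, smul_zero]
  -- ℓ¹ bounds
  obtain ⟨r, hr⟩ : ∃ r : ℝ, r = √θ := ⟨_, rfl⟩
  have hr0 : 0 ≤ r := by rw [hr]; positivity
  have hr1 : r < 1 := by
    rw [hr, Real.sqrt_lt' one_pos]; simpa using hθ1
  have hv1 : ∀ j, ∑' l, ‖v j l‖ ≤ ((S.card : ℝ) * √(nN b)) * (((2 * j + 2 : ℕ) : ℝ) ^ s.card * r ^ j) := by
    intro j
    have h1 := n_l1 (hsuppV j)
    have h2 : √(nN (v j)) ≤ r ^ j * √(nN b) := by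
      apply Real.sqrt_le_iff.mpr
      refine ⟨by positivity, ?_⟩
      rw [mul_pow, Real.sq_sqrt (nN_nonneg b), ← pow_mul, mul_comm j 2, pow_mul, hr,
        Real.sq_sqrt hθ0]
      exact hvn j
    have h3 : ((nW S s (2 * j + 1)).card : ℝ) ≤ S.card * ((2 * j + 2 : ℕ) : ℝ) ^ s.card := by
      exact_mod_cast nW_card S s (2 * j + 1)
    calc ∑' l, ‖v j l‖ ≤ ((nW S s (2 * j + 1)).card : ℝ) * √(nN (v j)) := h1
      _ ≤ (S.card * ((2 * j + 2 : ℕ) : ℝ) ^ s.card) * (r ^ j * √(nN b)) := by gcongr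
      _ = _ := by ring
  have hsum1 : Summable fun j => ∑' l, ‖v j l‖ :=
    Summable.of_nonneg_of_le (fun j => tsum_nonneg fun l => norm_nonneg _) hv1
      ((n_poly s.card hr0 hr1).mul_left _)
  have hprod : Summable fun x : ℕ × ℝ => ‖v x.1 x.2‖ := by
    rw [summable_prod_of_nonneg (fun x => norm_nonneg _)]
    exact ⟨fun j => n_summ1 (hvF j).1, hsum1⟩
  have hprod' : Summable fun x : ℝ × ℕ => ‖v x.2 x.1‖ :=
    (Equiv.prodComm ℝ ℕ).summable_iff.mpr hprod
  have hlj : ∀ l, Summable fun j => ‖v j l‖ := fun l => hprod'.prod_factor l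
  have hvl : ∀ l, Summable fun j => v j l := fun l => (hlj l).of_norm
  obtain ⟨a, ha⟩ : ∃ a : ℝ → E, a = fun l => ∑' j, v j l := ⟨_, rfl⟩
  have hatend : ∀ l, Tendsto (fun J => ∑ j ∈ Finset.range J, v j l) atTop (𝓝 (a l)) := by
    intro l
    rw [ha]
    exact (hvl l).hasSum.tendsto_sum_nat
  -- telescoping
  have htel : ∀ J, T (∑ j ∈ Finset.range J, v j) = b - u J := by
    intro J
    induction J with
    | zero => simp [hu0]
    | succ J ih =>
      rw [Finset.sum_range_succ, map_add, ih, hvj, map_smul, hus]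
      abel
  have huJ : ∀ l, Tendsto (fun J => u J l) atTop (𝓝 0) := by
    intro l
    have h1 : ∀ J, ‖u J l‖ ≤ r ^ J * √(nN b) := by
      intro J
      have h2 : ‖u J l‖ ^ 2 ≤ nN (u J) :=
        (n_summ (huF J).1).le_tsum l (fun _ _ => by positivity)
      apply le_of_sq_le_sq _ (by positivity)
      rw [mul_pow, Real.sq_sqrt (nN_nonneg b), ← pow_mul, mul_comm J 2, pow_mul, hr,
        Real.sq_sqrt hθ0]
      exact h2.trans (hun J)
    have h3 : Tendsto (fun J => r ^ J * √(nN b)) atTop (𝓝 (0 * √(nN b))) :=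
      (tendsto_pow_atTop_nhds_zero_of_lt_one hr0 hr1).mul_const _
    rw [zero_mul] at h3
    exact squeeze_zero_norm h1 h3
  refine ⟨a, ?_, ?_, ?_, ?_⟩
  · have h1 : Summable fun l => ∑' j, ‖v j l‖ := hprod'.prod
    refine Summable.of_nonneg_of_le (fun l => norm_nonneg _) (fun l => ?_) h1
    rw [ha]
    exact norm_tsum_le_tsum_norm (hlj l)
  · intro l hl
    rw [ha]
    simp only [(hvF _).2 l hl, tsum_zero]
  · intro l hl
    have h1 : Tendsto (fun J => ∑ m ∈ s, A m (∑ j ∈ Finset.range J, v j (l - m))) atTop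
        (𝓝 (∑ m ∈ s, A m (a (l - m)))) :=
      tendsto_finsetSum _ fun m _ => ((A m).continuous.tendsto _).comp (hatend (l - m))
    have h2 : ∀ J, ∑ m ∈ s, A m (∑ j ∈ Finset.range J, v j (l - m)) = b l - u J l := by
      intro J
      have h3 := congrFun (htel J) l
      rw [hT, nT_apply, Set.indicator_of_mem hl, Pi.sub_apply] at h3
      rw [← h3]
      refine Finset.sum_congr rfl fun m _ => ?_
      rw [Finset.sum_apply]
    simp only [h2] at h1
    have h4 : Tendsto (fun J => b l - u J l) atTop (𝓝 (b l - 0)) := tendsto_const_nhds.sub (huJ l)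
    rw [sub_zero] at h4
    exact tendsto_nhds_unique h1 h4
  · -- the ℓ² bound
    have hmain : ∀ η : ℝ, 0 < η → ∀ t : Finset ℝ, ∑ l ∈ t, ‖a l‖ ^ 2 ≤ K ^ 2 * ((1 + η) * nN b) := by
      intro η hη t
      have h1 : Tendsto (fun J => ∑ l ∈ t, ‖∑ j ∈ Finset.range J, v j l‖ ^ 2) atTop
          (𝓝 (∑ l ∈ t, ‖a l‖ ^ 2)) :=
        tendsto_finsetSum _ fun l _ => ((hatend l).norm).pow 2
      have h2 : ∀ J, ∑ l ∈ t, ‖∑ j ∈ Finset.range J, v j l‖ ^ 2 ≤
          K ^ 2 * ((1 + η) * nN b + (1 + η⁻¹) * (θ ^ J * nN b)) := by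
        intro J
        have hF := FSF.sum hvF J
        have h3 : ∑ l ∈ t, ‖∑ j ∈ Finset.range J, v j l‖ ^ 2 ≤ nN (∑ j ∈ Finset.range J, v j) := by
          have := (n_summ hF.1).sum_le_tsum t (fun _ _ => by positivity)
          simp only [Finset.sum_apply] at this
          unfold nN
          simp only [Finset.sum_apply]
          exact this
        have h4 := hlow' _ hF
        rw [htel] at h4
        have h5 := n_young hb' (huF J) hη
        calc _ ≤ nN (∑ j ∈ Finset.range J, v j) := h3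
          _ ≤ K ^ 2 * nN (b - u J) := h4
          _ ≤ K ^ 2 * ((1 + η) * nN b + (1 + η⁻¹) * nN (u J)) := by gcongr
          _ ≤ _ := by
            gcongr
            exact hun J
      have h6 : Tendsto (fun J => K ^ 2 * ((1 + η) * nN b + (1 + η⁻¹) * (θ ^ J * nN b))) atTop
          (𝓝 (K ^ 2 * ((1 + η) * nN b + (1 + η⁻¹) * (0 * nN b)))) :=
        (((tendsto_pow_atTop_nhds_zero_of_lt_one hθ0 hθ1).mul_const _).const_mul _).const_add _
          |>.const_mul _
      rw [zero_mul, mul_zero, add_zero] at h6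
      exact le_of_tendsto_of_tendsto' h1 h6 h2
    have hfin : ∀ t : Finset ℝ, ∑ l ∈ t, ‖a l‖ ^ 2 ≤ K ^ 2 * nN b := by
      intro t
      have h1 : Tendsto (fun η : ℝ => K ^ 2 * ((1 + η) * nN b)) (𝓝[>] 0)
          (𝓝 (K ^ 2 * ((1 + 0) * nN b))) := by
        apply Tendsto.mono_left _ nhdsWithin_le_nhds
        apply Continuous.tendsto
        fun_prop
      rw [add_zero, one_mul] at h1
      refine ge_of_tendsto h1 ?_
      filter_upwards [self_mem_nhdsWithin] with η hη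
      exact hmain η hη t
    exact Real.tsum_le_of_sum_le (fun _ => by positivity) hfin

end B4
end Pool.Agent.Helper865.TAP
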