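import Pool.Agent.Helper865.TAP.Defs


set_option autoImplicit false

open MeasureTheory Filter Topology Set Metric
open scoped ENNReal NNReal

namespace Pool.Agent.Helper865.TAP
namespace B5



variable {E : Type*} [NormedAddCommGroup E] [InnerProductSpace ℂ E] [FiniteDimensional ℂ E]


omit [FiniteDimensional ℂ E] [InnerProductSpace ℂ E] [NormedAddCommGroup E] in
lemma coef_bound {X : Type*} [NormedAddCommGroup X] [NormedSpace ℂ X]
    (s : Finset ℝ) (c : ℝ → X) (ε : ℝ)
    (h : ∀ t : ℝ, ‖∑ l ∈ s, Complex.exp (Complex.I * l * t) • c l‖ ≤ ε) (m : ℝ) (hm : m ∈ s) :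
    ‖c m‖ ≤ ε := by
  set τ : ℝ := 1 / (1 + ∑ l ∈ s, |l - m|) with hτ
  have hS : 0 ≤ ∑ l ∈ s, |l - m| := Finset.sum_nonneg fun _ _ => abs_nonneg _
  have hτ0 : 0 < τ := by positivity
  have hsmall : ∀ l ∈ s, |l - m| * τ ≤ 1 := by
    intro l hl
    have h1 : |l - m| ≤ ∑ l ∈ s, |l - m| :=
      Finset.single_le_sum (f := fun l => |l - m|) (fun _ _ => abs_nonneg _) hl
    rw [hτ, mul_one_div, div_le_one (by positivity)]
    linarith
  set z : ℝ → ℂ := fun l => Complex.exp (Complex.I * ((l - m) * τ : ℝ)) with hz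
  have hzm : z m = 1 := by simp [hz]
  have hz1 : ∀ l ∈ s, l ≠ m → z l ≠ 1 := by
    intro l hl hlm h1
    rw [hz] at h1
    obtain ⟨n, hn⟩ := Complex.exp_eq_one_iff.1 h1
    have h2 : ((l - m) * τ : ℝ) = n * (2 * Real.pi) := by
      have h3 : Complex.I * ((l - m) * τ : ℝ) = Complex.I * ((n * (2 * Real.pi) : ℝ) : ℂ) := by
        rw [hn]; push_cast; ring
      exact_mod_cast mul_left_cancel₀ Complex.I_ne_zero h3
    have h4 : |(l - m) * τ| ≤ 1 := by
      rw [abs_mul, abs_of_pos hτ0]; exact hsmall l hl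
    have h5 : n = 0 := by
      by_contra hn0
      have h6 : (1:ℝ) ≤ |(n : ℝ)| := by exact_mod_cast Int.one_le_abs hn0
      rw [h2, abs_mul, abs_of_pos (by positivity : (0:ℝ) < 2 * Real.pi)] at h4
      have := Real.pi_gt_three
      nlinarith
    rw [h5] at h2
    have : (l - m) * τ = 0 := by rw [h2]; simp
    rcases mul_eq_zero.1 this with h6 | h6
    · exact hlm (by linarith)
    · exact hτ0.ne' h6
  have hznorm : ∀ l, ‖z l‖ = 1 := by
    intro l
    simp only [hz]
    rw [mul_comm, Complex.norm_exp_ofReal_mul_I]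
  -- averages
  let A : ℕ → X := fun N => ∑ l ∈ s, (((N : ℂ) + 1)⁻¹ * ∑ k ∈ Finset.range (N + 1), z l ^ k) • c l
  have hA : ∀ N, ‖A N‖ ≤ ε := by
    intro N
    have h1 : A N = ((N : ℂ) + 1)⁻¹ • ∑ k ∈ Finset.range (N + 1),
        Complex.exp (-(Complex.I * m * (k * τ : ℝ))) •
          ∑ l ∈ s, Complex.exp (Complex.I * l * (k * τ : ℝ)) • c l := by
      simp only [A]
      rw [Finset.smul_sum]
      simp only [Finset.smul_sum]
      rw [Finset.sum_comm]
      refine Finset.sum_congr rfl fun l _ => ?_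
      rw [Finset.mul_sum, Finset.sum_smul]
      refine Finset.sum_congr rfl fun k _ => ?_
      rw [smul_smul, smul_smul]
      congr 1
      simp only [hz]
      rw [← Complex.exp_nat_mul, mul_assoc, ← Complex.exp_add]
      congr 2
      push_cast
      ring
    rw [h1, norm_smul]
    have h2 : ‖∑ k ∈ Finset.range (N + 1),
        Complex.exp (-(Complex.I * m * (k * τ : ℝ))) •
          ∑ l ∈ s, Complex.exp (Complex.I * l * (k * τ : ℝ)) • c l‖ ≤ (N + 1) * ε := by
      calc _ ≤ ∑ k ∈ Finset.range (N + 1), ‖Complex.exp (-(Complex.I * m * (k * τ : ℝ))) •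
          ∑ l ∈ s, Complex.exp (Complex.I * l * (k * τ : ℝ)) • c l‖ := norm_sum_le _ _
        _ ≤ ∑ k ∈ Finset.range (N + 1), ε := by
          refine Finset.sum_le_sum fun k _ => ?_
          rw [norm_smul]
          have : ‖Complex.exp (-(Complex.I * m * (k * τ : ℝ)))‖ = 1 := by
            have e : -(Complex.I * m * (k * τ : ℝ)) = ((-(m * (k * τ)) : ℝ) : ℂ) * Complex.I := by
              push_cast; ring
            rw [e, Complex.norm_exp_ofReal_mul_I]
          rw [this, one_mul]
          exact h _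
        _ = (N + 1) * ε := by simp
    have h3 : ‖((N : ℂ) + 1)⁻¹‖ = ((N : ℝ) + 1)⁻¹ := by
      rw [norm_inv]
      congr 1
      have : ((N : ℂ) + 1) = ((N + 1 : ℕ) : ℂ) := by push_cast; ring
      rw [this, Complex.norm_natCast]; push_cast; ring
    rw [h3]
    calc ((N : ℝ) + 1)⁻¹ * _ ≤ ((N : ℝ) + 1)⁻¹ * ((N + 1) * ε) := by gcongr
      _ = ε := by field_simp
  have hlim : Tendsto A atTop (𝓝 (∑ l ∈ s, (if l = m then (1:ℂ) else 0) • c l)) := by
    apply tendsto_finsetSum
    intro l hl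
    apply Tendsto.smul_const
    split_ifs with hlm
    · rw [hlm, hzm]
      apply tendsto_const_nhds.congr
      intro N
      simp only [one_pow, Finset.sum_const, Finset.card_range, nsmul_eq_mul, mul_one]
      have : ((N : ℂ) + 1) ≠ 0 := by exact_mod_cast Nat.succ_ne_zero N
      push_cast
      rw [inv_mul_cancel₀ this]
    · have hz0 := hz1 l hl hlm
      rw [tendsto_zero_iff_norm_tendsto_zero]
      have hb : ∀ N : ℕ, ‖((N : ℂ) + 1)⁻¹ * ∑ k ∈ Finset.range (N + 1), z l ^ k‖ ≤
          (2 / ‖z l - 1‖) * (1 / ((N : ℝ) + 1)) := by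
        intro N
        rw [norm_mul, geom_sum_eq hz0, norm_div]
        have h3 : ‖((N : ℂ) + 1)⁻¹‖ = 1 / ((N : ℝ) + 1) := by
          rw [norm_inv, one_div]
          congr 1
          have : ((N : ℂ) + 1) = ((N + 1 : ℕ) : ℂ) := by push_cast; ring
          rw [this, Complex.norm_natCast]; push_cast; ring
        have h4 : ‖z l ^ (N + 1) - 1‖ ≤ 2 := by
          calc _ ≤ ‖z l ^ (N + 1)‖ + ‖(1:ℂ)‖ := norm_sub_le _ _
            _ = 2 := by rw [norm_pow, hznorm, one_pow, norm_one]; norm_num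
        rw [h3, mul_comm]
        gcongr
      have hzero : Tendsto (fun N : ℕ => (2 / ‖z l - 1‖) * (1 / ((N : ℝ) + 1))) atTop (𝓝 0) := by
        have := (tendsto_one_div_add_atTop_nhds_zero_nat (𝕜 := ℝ)).const_mul (2 / ‖z l - 1‖)
        rwa [mul_zero] at this
      exact squeeze_zero (fun N => norm_nonneg _) hb hzero
  have hval : ∑ l ∈ s, (if l = m then (1:ℂ) else 0) • c l = c m := by
    rw [Finset.sum_eq_single m]
    · simp
    · intro l _ hl; simp [hl]
    · intro h; exact absurd hm h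
  rw [hval] at hlim
  exact le_of_tendsto hlim.norm (Filter.Eventually.of_forall hA)

lemma norm_exp_smul {X : Type*} [NormedAddCommGroup X] [NormedSpace ℂ X] (l t : ℝ) (x : X) :
    ‖Complex.exp (Complex.I * l * t) • x‖ = ‖x‖ := by
  have e : Complex.I * l * t = ((l * t : ℝ) : ℂ) * Complex.I := by push_cast; ring
  rw [norm_smul, e, Complex.norm_exp_ofReal_mul_I, one_mul]

lemma uniq {X : Type*} [NormedAddCommGroup X] [NormedSpace ℂ X] [CompleteSpace X]
    {c : ℝ → X} (hc : Summable (fun l => ‖c l‖))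
    (h : ∀ t : ℝ, ∑' l : ℝ, Complex.exp (Complex.I * l * t) • c l = 0) (m : ℝ) : c m = 0 := by
  classical
  rw [← norm_le_zero_iff]
  apply le_of_forall_pos_le_add
  intro ε hε
  rw [zero_add]
  obtain ⟨s, hs⟩ := ((tendsto_order.1 (tendsto_tsum_compl_atTop_zero (fun l => ‖c l‖))).2 ε hε).exists_forall_of_atTop
  have hs' := hs (insert m s) (Finset.subset_insert _ _)
  apply coef_bound (insert m s) c ε _ m (Finset.mem_insert_self _ _)
  intro t
  have hsum : Summable (fun l : ℝ => Complex.exp (Complex.I * l * t) • c l) := by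
    apply Summable.of_norm
    simpa only [norm_exp_smul] using hc
  have h1 := hsum.sum_add_tsum_compl (s := insert m s)
  rw [h t] at h1
  have h2 : ∑ l ∈ insert m s, Complex.exp (Complex.I * l * t) • c l =
      - ∑' l : ((insert m s : Finset ℝ) : Set ℝ)ᶜ.Elem, Complex.exp (Complex.I * (l : ℝ) * t) • c l :=
    eq_neg_of_add_eq_zero_left h1
  rw [h2, norm_neg]
  have hsumc : Summable (fun l : ((insert m s : Finset ℝ) : Set ℝ)ᶜ.Elem =>
      ‖Complex.exp (Complex.I * (l : ℝ) * t) • c l‖) := by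
    simp only [norm_exp_smul]
    exact hc.subtype _
  refine (norm_tsum_le_tsum_norm hsumc).trans ?_
  simp only [norm_exp_smul]
  exact hs'.le

/-- If an absolutely convergent almost periodic function with frequencies `≤ 0` also has an
absolutely convergent expansion with frequencies `≥ 0` then it is constant. -/
theorem const_of_both {X : Type*} [NormedAddCommGroup X] [NormedSpace ℂ X] [CompleteSpace X]
    {a b : ℝ → X} (ha : Summable (fun l => ‖a l‖)) (hb : Summable (fun l => ‖b l‖))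
    (ha0 : ∀ l, 0 < l → a l = 0) (hb0 : ∀ l, l < 0 → b l = 0)
    (h : ∀ t : ℝ, ∑' l : ℝ, Complex.exp (Complex.I * l * t) • a l
      = ∑' l : ℝ, Complex.exp (Complex.I * l * t) • b l) (t : ℝ) :
    ∑' l : ℝ, Complex.exp (Complex.I * l * t) • a l = a 0 := by
  have hsa : ∀ t : ℝ, Summable (fun l : ℝ => Complex.exp (Complex.I * l * t) • a l) := by
    intro t
    apply Summable.of_norm
    simpa only [norm_exp_smul] using ha
  have hsb : ∀ t : ℝ, Summable (fun l : ℝ => Complex.exp (Complex.I * l * t) • b l) := by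
    intro t
    apply Summable.of_norm
    simpa only [norm_exp_smul] using hb
  have hab : ∀ m, a m = b m := by
    intro m
    have hsum : Summable (fun l => ‖a l - b l‖) :=
      Summable.of_nonneg_of_le (fun _ => norm_nonneg _) (fun l => norm_sub_le _ _) (ha.add hb)
    have := uniq hsum (fun t => by
      simp only [smul_sub]
      rw [(hsa t).tsum_sub (hsb t), h t, sub_self]) m
    exact sub_eq_zero.1 this
  rw [tsum_eq_single 0]
  · simp
  · intro l hl
    rcases lt_or_gt_of_ne hl with h1 | h1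
    · rw [hab l, hb0 l h1, smul_zero]
    · rw [ha0 l h1, smul_zero]

/-- the Cauchy type product of two expansions -/
lemma prod_exp {p q : ℝ → E →L[ℂ] E}
    (hp : Summable (fun l => ‖p l‖)) (hq : Summable (fun l => ‖q l‖)) :
    Summable (fun k : ℝ => ‖∑' l : ℝ, star (p l) * q (l + k)‖) ∧
    ∀ t : ℝ, star (∑' l : ℝ, Complex.exp (Complex.I * l * t) • p l) *
      (∑' l : ℝ, Complex.exp (Complex.I * l * t) • q l) =
      ∑' k : ℝ, Complex.exp (Complex.I * k * t) • ∑' l : ℝ, star (p l) * q (l + k) := by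
  let e : ℝ × ℝ ≃ ℝ × ℝ :=
    { toFun := fun w => (w.2, w.2 + w.1)
      invFun := fun w => (w.2 - w.1, w.1)
      left_inv := fun w => by ext <;> simp
      right_inv := fun w => by ext <;> simp }
  have nst : ∀ f : E →L[ℂ] E, ‖star f‖ = ‖f‖ := fun f => norm_star f
  have hsp : Summable (fun l => ‖star (p l)‖) := hp.congr fun l => (nst (p l)).symm
  have hprod : Summable (fun z : ℝ × ℝ => ‖star (p z.1) * q z.2‖) := hsp.mul_norm hq
  have hprod2 : Summable (fun w : ℝ × ℝ => ‖star (p w.2) * q (w.2 + w.1)‖) :=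
    (e.summable_iff (f := fun z : ℝ × ℝ => ‖star (p z.1) * q z.2‖)).2 hprod
  constructor
  · refine Summable.of_nonneg_of_le (fun _ => norm_nonneg _) (fun k => ?_) hprod2.prod
    exact norm_tsum_le_tsum_norm (hprod2.prod_factor k)
  · intro t
    have hstar : star (∑' l : ℝ, Complex.exp (Complex.I * l * t) • p l) =
        ∑' l : ℝ, star (Complex.exp (Complex.I * l * t) • p l) := tsum_star
    rw [hstar]
    have h1 : Summable (fun l : ℝ => ‖star (Complex.exp (Complex.I * l * t) • p l)‖) := by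
      refine hp.congr fun l => ?_
      rw [nst, norm_exp_smul l t (p l)]
    have h2 : Summable (fun l : ℝ => ‖Complex.exp (Complex.I * l * t) • q l‖) :=
      hq.congr fun l => (norm_exp_smul l t (q l)).symm
    rw [tsum_mul_tsum_of_summable_norm h1 h2]
    rw [← e.tsum_eq]
    have h3 : ∀ w : ℝ × ℝ, star (Complex.exp (Complex.I * (e w).1 * t) • p (e w).1) *
        (Complex.exp (Complex.I * (e w).2 * t) • q (e w).2) =
        Complex.exp (Complex.I * w.1 * t) • (star (p w.2) * q (w.2 + w.1)) := by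
      intro w
      simp only [e, Equiv.coe_fn_mk]
      rw [star_smul, smul_mul_smul_comm]
      congr 1
      rw [Complex.star_def, ← Complex.exp_conj, ← Complex.exp_add]
      congr 1
      simp only [map_mul, Complex.conj_I, Complex.conj_ofReal]
      push_cast
      ring
    rw [tsum_congr h3]
    have h4 : Summable (fun w : ℝ × ℝ =>
        Complex.exp (Complex.I * w.1 * t) • (star (p w.2) * q (w.2 + w.1))) := by
      apply Summable.of_norm
      exact hprod2.congr fun w => (norm_exp_smul w.1 t (star (p w.2) * q (w.2 + w.1))).symm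
    rw [h4.tsum_prod]
    refine tsum_congr fun k => ?_
    exact tsum_const_smul'' (Complex.exp (Complex.I * k * t))

/-- The factorisation identity. -/
theorem fac_identity {n v n' v' : ℝ → E →L[ℂ] E}
    (hn : Summable (fun l => ‖n l‖)) (hv : Summable (fun l => ‖v l‖))
    (hn' : Summable (fun l => ‖n' l‖)) (hv' : Summable (fun l => ‖v' l‖))
    (hn0 : ∀ l, 0 < l → n l = 0) (hv0 : ∀ l, l < 0 → v l = 0)
    (hn'0 : ∀ l, 0 < l → n' l = 0) (hv'0 : ∀ l, l < 0 → v' l = 0)
    (hv1 : v 0 = 1) (hn'1 : n' 0 = 1)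
    {N V N' V' : ℝ → E →L[ℂ] E}
    (hN : ∀ t : ℝ, N t = ∑' l : ℝ, Complex.exp (Complex.I * l * t) • n l)
    (hV : ∀ t : ℝ, V t = ∑' l : ℝ, Complex.exp (Complex.I * l * t) • v l)
    (hN' : ∀ t : ℝ, N' t = ∑' l : ℝ, Complex.exp (Complex.I * l * t) • n' l)
    (hV' : ∀ t : ℝ, V' t = ∑' l : ℝ, Complex.exp (Complex.I * l * t) • v' l)
    (h : ∀ t, (ContinuousLinearMap.adjoint (N t)).comp (V' t)
      = (ContinuousLinearMap.adjoint (V t)).comp (N' t)) (t : ℝ) :
    (ContinuousLinearMap.adjoint (V t)).comp (N' t) = 1 := by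
  obtain ⟨s1, e1⟩ := prod_exp hv hn'
  obtain ⟨s2, e2⟩ := prod_exp hn hv'
  have f1 : ∀ t, (ContinuousLinearMap.adjoint (V t)).comp (N' t) =
      ∑' k : ℝ, Complex.exp (Complex.I * k * t) • ∑' l : ℝ, star (v l) * n' (l + k) := by
    intro t; rw [← e1 t, ← hV t, ← hN' t]; rfl
  have f2 : ∀ t, (ContinuousLinearMap.adjoint (N t)).comp (V' t) =
      ∑' k : ℝ, Complex.exp (Complex.I * k * t) • ∑' l : ℝ, star (n l) * v' (l + k) := by
    intro t; rw [← e2 t, ← hN t, ← hV' t]; rfl
  rw [f1 t, const_of_both s1 s2 ?_ ?_ (fun t => by rw [← f1 t, ← f2 t, h t]) t]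
  · rw [tsum_eq_single 0]
    · rw [hv1, add_zero, hn'1, star_one, one_mul]
    · intro l hl
      rcases lt_or_gt_of_ne hl with h1 | h1
      · rw [hv0 l h1, star_zero, zero_mul]
      · rw [add_zero, hn'0 l h1, mul_zero]
  · intro k hk
    rw [← tsum_zero (α := E →L[ℂ] E) (β := ℝ)]
    refine tsum_congr fun l => ?_
    rcases lt_or_ge l 0 with h1 | h1
    · rw [hv0 l h1, star_zero, zero_mul]
    · rw [hn'0 (l + k) (by linarith), mul_zero]
  · intro k hk
    rw [← tsum_zero (α := E →L[ℂ] E) (β := ℝ)]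
    refine tsum_congr fun l => ?_
    rcases lt_or_ge 0 l with h1 | h1
    · rw [hn0 l h1, star_zero, zero_mul]
    · rw [hv'0 (l + k) (by linarith), mul_zero]

end B5
end Pool.Agent.Helper865.TAP
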