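import Pool.Agent.Helper865.TAP.Defs


set_option autoImplicit false

open MeasureTheory Filter Topology Set Metric
open scoped ENNReal NNReal

namespace Pool.Agent.Helper865.TAP
namespace B6



variable {E : Type*} [NormedAddCommGroup E] [InnerProductSpace ℂ E] [FiniteDimensional ℂ E]

theorem rl_aux {l : ℝ} (hl : l ≠ 0) :
    Tendsto (fun R : ℝ => ∫ s : ℝ, Complex.exp (Complex.I * l * ((R * s : ℝ) : ℂ)) *
      (((1 + s ^ 2)⁻¹ : ℝ) : ℂ)) atTop (𝓝 0) := by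
  have h1 := Real.tendsto_integral_exp_smul_cocompact (fun s : ℝ => (((1 + s ^ 2)⁻¹ : ℝ) : ℂ))
  have hc : (-l / (2 * Real.pi)) ≠ 0 := by
    have := Real.pi_ne_zero
    exact div_ne_zero (neg_ne_zero.2 hl) (by positivity)
  have h2 : Tendsto (fun R : ℝ => (-l / (2 * Real.pi)) * R) atTop (cocompact ℝ) :=
    ((Homeomorph.mulLeft₀ _ hc).isClosedEmbedding.tendsto_cocompact).mono_left atTop_le_cocompact
  refine (h1.comp h2).congr ?_
  intro R
  simp only [Function.comp_apply]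
  refine integral_congr_ae (Eventually.of_forall fun s => ?_)
  simp only [Circle.smul_def, Real.fourierChar_apply, smul_eq_mul]
  congr 2
  have hpi : (Real.pi : ℂ) ≠ 0 := by exact_mod_cast Real.pi_ne_zero
  push_cast
  field_simp

theorem int_aux (l R : ℝ) : Integrable (fun s : ℝ => Complex.exp (Complex.I * l * ((R * s : ℝ) : ℂ)) *
      (((1 + s ^ 2)⁻¹ : ℝ) : ℂ)) := by
  have h1 : Integrable (fun s : ℝ => (((1 + s ^ 2)⁻¹ : ℝ) : ℂ)) := integrable_inv_one_add_sq.ofReal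
  refine h1.mono (Continuous.aestronglyMeasurable ?_) (Eventually.of_forall fun s => ?_)
  · refine Continuous.mul (by fun_prop) ?_
    refine Complex.continuous_ofReal.comp (Continuous.inv₀ (by fun_prop) (fun s => ?_))
    positivity
  · rw [norm_mul]
    have : ‖Complex.exp (Complex.I * l * ((R * s : ℝ) : ℂ))‖ = 1 := by
      have e : Complex.I * l * ((R * s : ℝ) : ℂ) = ((l * (R * s) : ℝ) : ℂ) * Complex.I := by
        push_cast; ring
      rw [e, Complex.norm_exp_ofReal_mul_I]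
    rw [this, one_mul]

/-- trigonometric sum -/
noncomputable def TS (Q : Finset ℝ) (v : ℝ → E) (τ : ℝ) : E :=
  ∑ k ∈ Q, Complex.exp (Complex.I * k * τ) • v k

theorem TS_cont (Q : Finset ℝ) (v : ℝ → E) : Continuous (TS Q v) := by
  unfold TS
  fun_prop

theorem norm_exp_I (k τ : ℝ) : ‖Complex.exp (Complex.I * k * τ)‖ = 1 := by
  have e : Complex.I * k * τ = ((k * τ : ℝ) : ℂ) * Complex.I := by push_cast; ring
  rw [e, Complex.norm_exp_ofReal_mul_I]

theorem TS_bound (Q : Finset ℝ) (v : ℝ → E) (τ : ℝ) : ‖TS Q v τ‖ ≤ ∑ k ∈ Q, ‖v k‖ := by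
  refine (norm_sum_le _ _).trans (Finset.sum_le_sum fun k _ => ?_)
  rw [norm_smul, norm_exp_I, one_mul]

theorem TS_sq (Q : Finset ℝ) (v : ℝ → E) (R s : ℝ) :
    (((1 + s ^ 2)⁻¹ * ‖TS Q v (R * s)‖ ^ 2 : ℝ) : ℂ) = ∑ k ∈ Q, ∑ k' ∈ Q,
      inner ℂ (v k) (v k') * (Complex.exp (Complex.I * ((k' - k : ℝ) : ℂ) * ((R * s : ℝ) : ℂ)) *
      (((1 + s ^ 2)⁻¹ : ℝ) : ℂ)) := by
  have h1 : ((‖TS Q v (R * s)‖ ^ 2 : ℝ) : ℂ) = inner ℂ (TS Q v (R * s)) (TS Q v (R * s)) := by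
    rw [inner_self_eq_norm_sq_to_K]
    push_cast
    rfl
  rw [Complex.ofReal_mul, h1]
  unfold TS
  rw [sum_inner, Finset.mul_sum]
  refine Finset.sum_congr rfl fun k _ => ?_
  rw [inner_sum, Finset.mul_sum]
  refine Finset.sum_congr rfl fun k' _ => ?_
  rw [inner_smul_left, inner_smul_right]
  have h2 : (starRingEnd ℂ) (Complex.exp (Complex.I * k * ((R * s : ℝ) : ℂ))) *
      Complex.exp (Complex.I * k' * ((R * s : ℝ) : ℂ)) =
      Complex.exp (Complex.I * ((k' - k : ℝ) : ℂ) * ((R * s : ℝ) : ℂ)) := by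
    rw [← Complex.exp_conj, ← Complex.exp_add]
    congr 1
    simp only [map_mul, Complex.conj_I, Complex.conj_ofReal]
    push_cast
    ring
  rw [← h2]
  ring

theorem TS_int (Q : Finset ℝ) (v : ℝ → E) (R : ℝ) :
    ((∫ s : ℝ, (1 + s ^ 2)⁻¹ * ‖TS Q v (R * s)‖ ^ 2 : ℝ) : ℂ) = ∑ k ∈ Q, ∑ k' ∈ Q,
      inner ℂ (v k) (v k') * ∫ s : ℝ, (Complex.exp (Complex.I * ((k' - k : ℝ) : ℂ) *
        ((R * s : ℝ) : ℂ)) * (((1 + s ^ 2)⁻¹ : ℝ) : ℂ)) := by
  rw [← integral_complex_ofReal]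
  simp_rw [TS_sq]
  rw [integral_finset_sum]
  · refine Finset.sum_congr rfl fun k _ => ?_
    rw [integral_finset_sum]
    · refine Finset.sum_congr rfl fun k' _ => ?_
      rw [integral_const_mul]
    · intro k' _
      exact (int_aux (k' - k) R).const_mul _
  · intro k _
    refine integrable_finset_sum _ fun k' _ => ?_
    exact (int_aux (k' - k) R).const_mul _

theorem TS_lim (Q : Finset ℝ) (v : ℝ → E) :
    Tendsto (fun R : ℝ => ∫ s : ℝ, (1 + s ^ 2)⁻¹ * ‖TS Q v (R * s)‖ ^ 2) atTop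
      (𝓝 (Real.pi * ∑ k ∈ Q, ‖v k‖ ^ 2)) := by
  have h1 : Tendsto (fun R : ℝ => ∑ k ∈ Q, ∑ k' ∈ Q,
      inner ℂ (v k) (v k') * ∫ s : ℝ, (Complex.exp (Complex.I * ((k' - k : ℝ) : ℂ) *
        ((R * s : ℝ) : ℂ)) * (((1 + s ^ 2)⁻¹ : ℝ) : ℂ))) atTop
      (𝓝 (∑ k ∈ Q, ∑ k' ∈ Q, inner ℂ (v k) (v k') * (if k = k' then (Real.pi : ℂ) else 0))) := by
    refine tendsto_finset_sum _ fun k _ => tendsto_finset_sum _ fun k' _ => ?_
    refine Tendsto.const_mul _ ?_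
    by_cases hkk : k = k'
    · subst hkk
      rw [if_pos rfl]
      have : ∀ R : ℝ, ∫ s : ℝ, (Complex.exp (Complex.I * ((k - k : ℝ) : ℂ) *
        ((R * s : ℝ) : ℂ)) * (((1 + s ^ 2)⁻¹ : ℝ) : ℂ)) = Real.pi := by
        intro R
        simp only [sub_self, Complex.ofReal_zero, mul_zero, zero_mul, Complex.exp_zero, one_mul]
        rw [integral_complex_ofReal, integral_univ_inv_one_add_sq]
      simp_rw [this]
      exact tendsto_const_nhds
    · rw [if_neg hkk]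
      exact rl_aux (sub_ne_zero.2 (Ne.symm hkk))
  have h2 : (∑ k ∈ Q, ∑ k' ∈ Q, inner ℂ (v k) (v k') * (if k = k' then (Real.pi : ℂ) else 0)) =
      ((Real.pi * ∑ k ∈ Q, ‖v k‖ ^ 2 : ℝ) : ℂ) := by
    push_cast
    rw [Finset.mul_sum]
    refine Finset.sum_congr rfl fun k hk => ?_
    simp_rw [mul_ite, mul_zero]
    rw [Finset.sum_ite_eq, if_pos hk, inner_self_eq_norm_sq_to_K]
    rw [mul_comm]
    rfl
  rw [h2] at h1
  have h3 := (Complex.continuous_re.tendsto _).comp h1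
  rw [Complex.ofReal_re] at h3
  refine h3.congr ?_
  intro R
  simp only [Function.comp_apply]
  rw [← TS_int, Complex.ofReal_re]

/-- change of variables -/
theorem cv_aux (W : ℝ → E) {R : ℝ} (hR : 0 < R) :
    ∫ t : ℝ, ‖((t : ℂ) - (R : ℂ) * Complex.I)⁻¹ • W t‖ ^ 2 =
      R⁻¹ * ∫ s : ℝ, (1 + s ^ 2)⁻¹ * ‖W (R * s)‖ ^ 2 := by
  have h1 := Measure.integral_comp_mul_left
    (fun t : ℝ => ‖((t : ℂ) - (R : ℂ) * Complex.I)⁻¹ • W t‖ ^ 2) R
  rw [abs_of_pos (inv_pos.2 hR), smul_eq_mul] at h1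
  have h2 : ∀ t : ℝ, ‖((t : ℂ) - (R : ℂ) * Complex.I)⁻¹ • W t‖ ^ 2 = (t ^ 2 + R ^ 2)⁻¹ * ‖W t‖ ^ 2 := by
    intro t
    rw [norm_smul, norm_inv, mul_pow, inv_pow]
    congr 2
    rw [← Complex.normSq_eq_norm_sq, Complex.normSq_apply]
    simp
    ring
  have h3 : ∀ s : ℝ, (fun t : ℝ => ‖((t : ℂ) - (R : ℂ) * Complex.I)⁻¹ • W t‖ ^ 2) (R * s) =
      (R ^ 2)⁻¹ * ((1 + s ^ 2)⁻¹ * ‖W (R * s)‖ ^ 2) := by
    intro s
    show ‖(((R * s : ℝ) : ℂ) - (R : ℂ) * Complex.I)⁻¹ • W (R * s)‖ ^ 2 = _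
    rw [h2]
    have : (R * s) ^ 2 + R ^ 2 = R ^ 2 * (1 + s ^ 2) := by ring
    rw [this, mul_inv]
    ring
  simp_rw [h3] at h1
  rw [integral_const_mul] at h1
  have h4 : ∫ t : ℝ, ‖((t : ℂ) - (R : ℂ) * Complex.I)⁻¹ • W t‖ ^ 2 =
      R * ((R ^ 2)⁻¹ * ∫ s : ℝ, (1 + s ^ 2)⁻¹ * ‖W (R * s)‖ ^ 2) := by
    rw [h1, ← mul_assoc, mul_inv_cancel₀ hR.ne', one_mul]
  rw [h4]
  have : R * (R ^ 2)⁻¹ = R⁻¹ := by
    field_simp
  rw [← mul_assoc, this]

theorem wint (W : ℝ → E) (hW : Continuous W) {C : ℝ} (hC : ∀ t, ‖W t‖ ≤ C) (R : ℝ) :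
    Integrable (fun s : ℝ => (1 + s ^ 2)⁻¹ * ‖W (R * s)‖ ^ 2) := by
  have h1 : Integrable (fun s : ℝ => (1 + s ^ 2)⁻¹ * C ^ 2) := integrable_inv_one_add_sq.mul_const _
  refine h1.mono (Continuous.aestronglyMeasurable ?_) (Eventually.of_forall fun s => ?_)
  · refine Continuous.mul (Continuous.inv₀ (by fun_prop) (fun s => ?_)) (by fun_prop)
    positivity
  · have h2 : ‖W (R * s)‖ ^ 2 ≤ C ^ 2 := by
      have := hC (R * s)
      gcongr
    have h3 : 0 ≤ (1 + s ^ 2)⁻¹ := by positivity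
    rw [Real.norm_of_nonneg (by positivity), Real.norm_of_nonneg (by positivity)]
    gcongr

theorem l2_of_eLp {f w : ℝ → E} (hf : MemLp f 2 volume) (hw : MemLp w 2 volume) {K : ℝ}
    (hK : 0 ≤ K) (h : eLpNorm f 2 volume ≤ ENNReal.ofReal K * eLpNorm w 2 volume) :
    ∫ t, ‖f t‖ ^ 2 ≤ K ^ 2 * ∫ t, ‖w t‖ ^ 2 := by
  rw [hf.eLpNorm_eq_integral_rpow_norm two_ne_zero ENNReal.ofNat_ne_top,
    hw.eLpNorm_eq_integral_rpow_norm two_ne_zero ENNReal.ofNat_ne_top,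
    ← ENNReal.ofReal_mul hK] at h
  have e1 : ∀ g : ℝ → E, ∫ a, ‖g a‖ ^ (2 : ℝ≥0∞).toReal = ∫ a, ‖g a‖ ^ 2 := by
    intro g
    congr 1
    funext a
    rw [ENNReal.toReal_ofNat, Real.rpow_ofNat]
  rw [e1, e1] at h
  have i1 : 0 ≤ ∫ a, ‖f a‖ ^ 2 := integral_nonneg fun _ => by positivity
  have i2 : 0 ≤ ∫ a, ‖w a‖ ^ 2 := integral_nonneg fun _ => by positivity
  have h2 : (∫ a, ‖f a‖ ^ 2) ^ ((2 : ℝ≥0∞).toReal)⁻¹ ≤ K * (∫ a, ‖w a‖ ^ 2) ^ ((2 : ℝ≥0∞).toReal)⁻¹ :=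
    (ENNReal.ofReal_le_ofReal_iff (by positivity)).1 h
  have e2 : ((2 : ℝ≥0∞).toReal)⁻¹ = (1 / 2 : ℝ) := by
    rw [ENNReal.toReal_ofNat]; norm_num
  rw [e2, ← Real.sqrt_eq_rpow, ← Real.sqrt_eq_rpow] at h2
  have h3 : (√(∫ a, ‖f a‖ ^ 2)) ^ 2 ≤ (K * √(∫ a, ‖w a‖ ^ 2)) ^ 2 := by
    gcongr
  rwa [mul_pow, Real.sq_sqrt i1, Real.sq_sqrt i2] at h3

/-- Transference from the Hardy space on the line to almost periodic polynomials. -/
theorem transference
    (hA : ∀ (b : ℂ), 0 < b.im → ∀ (l : ℝ), l ≤ 0 → ∀ e : E,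
      Hm 2 (fun t : ℝ => Complex.exp (Complex.I * l * t) • (((t : ℂ) - b)⁻¹ • e)))
    (hB : ∀ (b : ℂ), 0 < b.im → ∀ (l : ℝ), 0 ≤ l → ∀ e : E,
      Hp 2 (fun t : ℝ => (Complex.exp (Complex.I * l * t) - Complex.exp (Complex.I * l * b)) •
      (((t : ℂ) - b)⁻¹ • e)))
    (hHmsum : ∀ (ι : Type) (s : Finset ι) (f : ι → ℝ → E), (∀ i ∈ s, Hm 2 (f i)) →
      Hm 2 (fun t => ∑ i ∈ s, f i t))
    (hHpsum : ∀ (ι : Type) (s : Finset ι) (f : ι → ℝ → E), (∀ i ∈ s, Hp 2 (f i)) →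
      Hp 2 (fun t => ∑ i ∈ s, f i t))
    {s : Finset ℝ} {A : ℝ → E →L[ℂ] E} (hs : ∀ l, l ∉ s → A l = 0) {K : ℝ} (hK : 0 ≤ K)
    (hBB : BB 2 (fun t : ℝ => ∑ l ∈ s, Complex.exp (Complex.I * l * t) • A l) K)
    (p : ℝ → E) (hp : p.support.Finite) (hp0 : ∀ l, 0 < l → p l = 0) :
    ∑' l, ‖p l‖ ^ 2 ≤ K ^ 2 *
      ∑' l, ‖(Iic (0 : ℝ)).indicator (fun l => ∑ m ∈ s, A m (p (l - m))) l‖ ^ 2 := by
  classical
  set P : Finset ℝ := hp.toFinset with hP
  have hPmem : ∀ l, l ∈ P ↔ p l ≠ 0 := by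
    intro l; rw [hP, Set.Finite.mem_toFinset, Function.mem_support]
  set q : ℝ → E := fun l => ∑ m ∈ s, A m (p (l - m)) with hq
  set Q : Finset ℝ := (s ×ˢ P).image (fun x => x.1 + x.2) with hQ
  have hQ0 : ∀ k, k ∉ Q → q k = 0 := by
    intro k hk
    refine Finset.sum_eq_zero fun m hm => ?_
    have : k - m ∉ P := by
      intro h
      exact hk (Finset.mem_image.2 ⟨(m, k - m), Finset.mem_product.2 ⟨hm, h⟩, by simp⟩)
    rw [hPmem, not_not] at this
    rw [this, map_zero]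
  set Qm : Finset ℝ := Q.filter (fun k => k ≤ 0) with hQm
  set Qp : Finset ℝ := Q.filter (fun k => ¬ k ≤ 0) with hQp
  -- the two sides
  have hL : ∑' l, ‖p l‖ ^ 2 = ∑ l ∈ P, ‖p l‖ ^ 2 := by
    refine tsum_eq_sum fun l hl => ?_
    rw [hPmem, not_not] at hl
    rw [hl, norm_zero]
    norm_num
  have hRt : ∑' l, ‖(Iic (0 : ℝ)).indicator q l‖ ^ 2 = ∑ l ∈ Qm, ‖q l‖ ^ 2 := by
    rw [tsum_eq_sum (s := Qm)]
    · refine Finset.sum_congr rfl fun l hl => ?_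
      rw [indicator_of_mem]
      exact (Finset.mem_filter.1 hl).2
    · intro l hl
      by_cases h0 : l ≤ 0
      · have : l ∉ Q := fun h => hl (Finset.mem_filter.2 ⟨h, h0⟩)
        rw [indicator_of_mem (by exact h0), hQ0 l this, norm_zero]
        norm_num
      · rw [indicator_of_notMem (by exact h0), norm_zero]
        norm_num
  rw [hL, hRt]
  -- the constant
  let ε : ℝ → E := fun R => ∑ k ∈ Qp, Complex.exp (Complex.I * k * ((R : ℂ) * Complex.I)) • q k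
  have hε : Tendsto (fun R => ‖ε R‖) atTop (𝓝 0) := by
    have h1 : Tendsto ε atTop (𝓝 (∑ k ∈ Qp, (0 : E))) := by
      refine tendsto_finset_sum _ fun k hk => ?_
      have hk0 : 0 < k := not_le.1 (Finset.mem_filter.1 hk).2
      rw [← zero_smul ℂ (q k)]
      refine Tendsto.smul_const ?_ _
      rw [tendsto_zero_iff_norm_tendsto_zero]
      have e1 : ∀ R : ℝ, ‖Complex.exp (Complex.I * k * ((R : ℂ) * Complex.I))‖ = Real.exp (-(k * R)) := by
        intro R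
        rw [Complex.norm_exp]
        congr 1
        have : Complex.I * k * ((R : ℂ) * Complex.I) = ((-(k * R) : ℝ) : ℂ) := by
          push_cast
          linear_combination ((k : ℂ) * R) * Complex.I_mul_I
        rw [this, Complex.ofReal_re]
      simp_rw [e1]
      exact Real.tendsto_exp_neg_atTop_nhds_zero.comp (tendsto_id.const_mul_atTop hk0)
    rw [Finset.sum_const_zero] at h1
    exact tendsto_zero_iff_norm_tendsto_zero.1 h1
  set C : ℝ := ∑ k ∈ Qm, ‖q k‖ with hC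
  -- the inequality for each R
  have key : ∀ R : ℝ, 0 < R → ∫ s : ℝ, (1 + s ^ 2)⁻¹ * ‖TS P p (R * s)‖ ^ 2 ≤
      K ^ 2 * ((∫ s : ℝ, (1 + s ^ 2)⁻¹ * ‖TS Qm q (R * s)‖ ^ 2) +
        (2 * C * ‖ε R‖ + ‖ε R‖ ^ 2) * Real.pi) := by
    intro R hR
    set b : ℂ := (R : ℂ) * Complex.I with hb
    have hbim : 0 < b.im := by
      rw [hb]; simp [hR]
    let f : ℝ → E := fun t => ∑ l ∈ P, Complex.exp (Complex.I * l * t) • (((t : ℂ) - b)⁻¹ • p l)
    let w : ℝ → E := fun t => (∑ k ∈ Qm, Complex.exp (Complex.I * k * t) • (((t : ℂ) - b)⁻¹ • q k)) +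
      ∑ k ∈ Qp, Complex.exp (Complex.I * k * b) • (((t : ℂ) - b)⁻¹ • q k)
    have hfs : ∀ t, f t = ((t : ℂ) - b)⁻¹ • TS P p t := by
      intro t
      show ∑ l ∈ P, Complex.exp (Complex.I * l * t) • (((t : ℂ) - b)⁻¹ • p l) = _
      rw [TS, Finset.smul_sum]
      refine Finset.sum_congr rfl fun l _ => ?_
      rw [smul_comm]
    have hws : ∀ t, w t = ((t : ℂ) - b)⁻¹ • (TS Qm q t + ε R) := by
      intro t
      show (∑ k ∈ Qm, Complex.exp (Complex.I * k * t) • (((t : ℂ) - b)⁻¹ • q k)) +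
        ∑ k ∈ Qp, Complex.exp (Complex.I * k * b) • (((t : ℂ) - b)⁻¹ • q k) = _
      rw [TS, smul_add, Finset.smul_sum, Finset.smul_sum]
      congr 1
      · refine Finset.sum_congr rfl fun l _ => ?_
        rw [smul_comm]
      · refine Finset.sum_congr rfl fun l _ => ?_
        rw [smul_comm]
    have hHf : Hm 2 f := by
      refine hHmsum ℝ P (fun l t => Complex.exp (Complex.I * l * t) • (((t : ℂ) - b)⁻¹ • p l)) ?_
      intro l hl
      refine hA b hbim l ?_ (p l)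
      by_contra hc
      exact (hPmem l).1 hl (hp0 l (not_le.1 hc))
    have hHw : Hm 2 w := by
      have e1 : w = fun t : ℝ => ∑ k ∈ Q, (if k ≤ 0 then
          Complex.exp (Complex.I * k * t) • (((t : ℂ) - b)⁻¹ • q k)
          else Complex.exp (Complex.I * (0 : ℝ) * t) • (((t : ℂ) - b)⁻¹ •
            (Complex.exp (Complex.I * k * b) • q k))) := by
        funext t
        rw [Finset.sum_ite]
        show (∑ k ∈ Qm, Complex.exp (Complex.I * k * t) • (((t : ℂ) - b)⁻¹ • q k)) +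
          ∑ k ∈ Qp, Complex.exp (Complex.I * k * b) • (((t : ℂ) - b)⁻¹ • q k) = _
        congr 1
        refine Finset.sum_congr rfl fun k _ => ?_
        rw [Complex.ofReal_zero, mul_zero, zero_mul, Complex.exp_zero, one_smul, smul_comm]
      rw [e1]
      refine hHmsum ℝ Q (fun k t => (if k ≤ 0 then
          Complex.exp (Complex.I * k * t) • (((t : ℂ) - b)⁻¹ • q k)
          else Complex.exp (Complex.I * (0 : ℝ) * t) • (((t : ℂ) - b)⁻¹ •
            (Complex.exp (Complex.I * k * b) • q k)))) ?_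
      intro k _
      by_cases hk : k ≤ 0
      · simp only [if_pos hk]
        exact hA b hbim k hk (q k)
      · simp only [if_neg hk]
        exact hA b hbim 0 le_rfl _
    have hGf : ∀ t : ℝ, (∑ l ∈ s, Complex.exp (Complex.I * l * t) • A l) (f t) =
        ∑ k ∈ Q, Complex.exp (Complex.I * k * t) • (((t : ℂ) - b)⁻¹ • q k) := by
      intro t
      have e1 : ∀ k ∈ Q, Complex.exp (Complex.I * k * t) • (((t : ℂ) - b)⁻¹ • q k) =
          ∑ m ∈ s, Complex.exp (Complex.I * k * t) • (((t : ℂ) - b)⁻¹ • A m (p (k - m))) := by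
        intro k _
        rw [hq]
        simp only [Finset.smul_sum]
      rw [Finset.sum_congr rfl e1, Finset.sum_comm, ContinuousLinearMap.sum_apply]
      refine Finset.sum_congr rfl fun m hm => ?_
      rw [ContinuousLinearMap.smul_apply]
      have e2 : ∑ k ∈ Q, Complex.exp (Complex.I * k * t) • (((t : ℂ) - b)⁻¹ • A m (p (k - m))) =
          ∑ k ∈ P.image (fun l => m + l),
            Complex.exp (Complex.I * k * t) • (((t : ℂ) - b)⁻¹ • A m (p (k - m))) := by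
        symm
        refine Finset.sum_subset ?_ ?_
        · intro k hk
          obtain ⟨l, hl, rfl⟩ := Finset.mem_image.1 hk
          exact Finset.mem_image.2 ⟨(m, l), Finset.mem_product.2 ⟨hm, hl⟩, rfl⟩
        · intro k _ hk
          have : k - m ∉ P := by
            intro h
            exact hk (Finset.mem_image.2 ⟨k - m, h, by ring⟩)
          rw [hPmem, not_not] at this
          rw [this, map_zero, smul_zero, smul_zero]
      rw [e2, Finset.sum_image (fun x _ y _ h => add_left_cancel h)]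
      show Complex.exp (Complex.I * m * t) • (A m) (∑ l ∈ P,
        Complex.exp (Complex.I * l * t) • (((t : ℂ) - b)⁻¹ • p l)) = _
      rw [map_sum, Finset.smul_sum]
      refine Finset.sum_congr rfl fun l _ => ?_
      rw [map_smul, map_smul, smul_smul, ← Complex.exp_add, add_sub_cancel_left]
      congr 2
      push_cast
      ring
    have hHp : Hp 2 (fun t : ℝ => (∑ l ∈ s, Complex.exp (Complex.I * l * t) • A l) (f t) - w t) := by
      have e1 : (fun t : ℝ => (∑ l ∈ s, Complex.exp (Complex.I * l * t) • A l) (f t) - w t) =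
          fun t : ℝ => ∑ k ∈ Qp, (Complex.exp (Complex.I * k * t) - Complex.exp (Complex.I * k * b)) •
            (((t : ℂ) - b)⁻¹ • q k) := by
        funext t
        rw [hGf t, ← Finset.sum_filter_add_sum_filter_not Q (fun k => k ≤ 0)]
        show _ - ((∑ k ∈ Qm, Complex.exp (Complex.I * k * t) • (((t : ℂ) - b)⁻¹ • q k)) +
          ∑ k ∈ Qp, Complex.exp (Complex.I * k * b) • (((t : ℂ) - b)⁻¹ • q k)) = _
        rw [add_sub_add_left_eq_sub, ← Finset.sum_sub_distrib]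
        refine Finset.sum_congr rfl fun k _ => ?_
        rw [sub_smul]
      rw [e1]
      refine hHpsum ℝ Qp (fun k t => (Complex.exp (Complex.I * k * t) -
        Complex.exp (Complex.I * k * b)) • (((t : ℂ) - b)⁻¹ • q k)) ?_
      intro k hk
      exact hB b hbim k (not_le.1 (Finset.mem_filter.1 hk).2).le (q k)
    have h1 := hBB f w hHf hHw hHp
    have h2 := l2_of_eLp hHf.1 hHw.1 hK h1
    simp_rw [hfs, hws] at h2
    rw [hb, cv_aux (TS P p) hR, cv_aux (fun t => TS Qm q t + ε R) hR] at h2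
    have h3 : ∫ s : ℝ, (1 + s ^ 2)⁻¹ * ‖TS P p (R * s)‖ ^ 2 ≤
        K ^ 2 * ∫ s : ℝ, (1 + s ^ 2)⁻¹ * ‖TS Qm q (R * s) + ε R‖ ^ 2 := by
      have h4 : R⁻¹ * (∫ s : ℝ, (1 + s ^ 2)⁻¹ * ‖TS P p (R * s)‖ ^ 2) ≤
          R⁻¹ * (K ^ 2 * ∫ s : ℝ, (1 + s ^ 2)⁻¹ * ‖TS Qm q (R * s) + ε R‖ ^ 2) := by
        refine h2.trans (le_of_eq ?_)
        ring
      exact le_of_mul_le_mul_left h4 (inv_pos.2 hR)
    refine h3.trans (mul_le_mul_of_nonneg_left ?_ (by positivity))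
    have hi1 := wint (TS Qm q) (TS_cont Qm q) (TS_bound Qm q) R
    have h5 : ∫ s : ℝ, (1 + s ^ 2)⁻¹ * ‖TS Qm q (R * s) + ε R‖ ^ 2 ≤
        ∫ s : ℝ, ((1 + s ^ 2)⁻¹ * ‖TS Qm q (R * s)‖ ^ 2 +
          (2 * C * ‖ε R‖ + ‖ε R‖ ^ 2) * (1 + s ^ 2)⁻¹) := by
      refine integral_mono_of_nonneg (Eventually.of_forall fun s => by positivity)
        (hi1.add (integrable_inv_one_add_sq.const_mul _)) (Eventually.of_forall fun s => ?_)
      have e1 : ‖TS Qm q (R * s) + ε R‖ ^ 2 ≤ ‖TS Qm q (R * s)‖ ^ 2 + (2 * C * ‖ε R‖ + ‖ε R‖ ^ 2) := by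
        have h6 := norm_add_le (TS Qm q (R * s)) (ε R)
        have h7 := TS_bound Qm q (R * s)
        have h8 : ‖TS Qm q (R * s) + ε R‖ ^ 2 ≤ (‖TS Qm q (R * s)‖ + ‖ε R‖) ^ 2 := by gcongr
        have h9 : ‖TS Qm q (R * s)‖ * ‖ε R‖ ≤ C * ‖ε R‖ := by gcongr
        nlinarith
      have e2 : 0 ≤ (1 + s ^ 2)⁻¹ := by positivity
      have e3 := mul_le_mul_of_nonneg_left e1 e2
      show (1 + s ^ 2)⁻¹ * ‖TS Qm q (R * s) + ε R‖ ^ 2 ≤ (1 + s ^ 2)⁻¹ * ‖TS Qm q (R * s)‖ ^ 2 +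
          (2 * C * ‖ε R‖ + ‖ε R‖ ^ 2) * (1 + s ^ 2)⁻¹
      linarith
    refine h5.trans (le_of_eq ?_)
    rw [integral_add hi1 (integrable_inv_one_add_sq.const_mul _), integral_const_mul,
      integral_univ_inv_one_add_sq]
  have hlim1 := TS_lim P p
  have hlim2 : Tendsto (fun R : ℝ => K ^ 2 * ((∫ s : ℝ, (1 + s ^ 2)⁻¹ * ‖TS Qm q (R * s)‖ ^ 2) +
        (2 * C * ‖ε R‖ + ‖ε R‖ ^ 2) * Real.pi)) atTop
      (𝓝 (K ^ 2 * (Real.pi * ∑ k ∈ Qm, ‖q k‖ ^ 2 + (2 * C * 0 + 0 ^ 2) * Real.pi))) := by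
    refine Tendsto.const_mul _ (Tendsto.add (TS_lim Qm q) (Tendsto.mul_const _ ?_))
    exact (hε.const_mul _).add (hε.pow 2)
  have hfin := le_of_tendsto_of_tendsto hlim1 hlim2
    ((eventually_gt_atTop (0 : ℝ)).mono fun R hR => key R hR)
  have hpi := Real.pi_pos
  have h9 : Real.pi * ∑ k ∈ P, ‖p k‖ ^ 2 ≤ Real.pi * (K ^ 2 * ∑ k ∈ Qm, ‖q k‖ ^ 2) := by
    refine hfin.trans (le_of_eq ?_)
    ring
  exact le_of_mul_le_mul_left h9 hpi

theorem exists_gap (F : Finset ℝ) (hF : ∀ x ∈ F, x < 0) : ∃ ε : ℝ, 0 < ε ∧ ∀ x ∈ F, x ≤ -ε := by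
  classical
  induction F using Finset.induction_on with
  | empty => exact ⟨1, one_pos, by simp⟩
  | insert a F _ ih =>
    obtain ⟨ε, hε, h⟩ := ih (fun x hx => hF x (Finset.mem_insert_of_mem hx))
    have ha := hF a (Finset.mem_insert_self _ _)
    refine ⟨min ε (-a), lt_min hε (by linarith), fun x hx => ?_⟩
    rcases Finset.mem_insert.1 hx with rfl | hx
    · have := min_le_right ε (-x)
      linarith
    · have := min_le_left ε (-a)
      have := h x hx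
      linarith

/-- Shift of the frequencies: from `≤ 0` to `< 0`. -/
theorem shift_bound {s : Finset ℝ} {A : ℝ → E →L[ℂ] E} {K : ℝ}
    (h : ∀ p : ℝ → E, p.support.Finite → (∀ l, 0 < l → p l = 0) →
      ∑' l, ‖p l‖ ^ 2 ≤ K ^ 2 *
        ∑' l, ‖(Iic (0 : ℝ)).indicator (fun l => ∑ m ∈ s, A m (p (l - m))) l‖ ^ 2)
    (p : ℝ → E) (hp : p.support.Finite) (hp0 : ∀ l, 0 ≤ l → p l = 0) :
    ∑' l, ‖p l‖ ^ 2 ≤ K ^ 2 *
      ∑' l, ‖(Iio (0 : ℝ)).indicator (fun l => ∑ m ∈ s, A m (p (l - m))) l‖ ^ 2 := by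
  classical
  set P : Finset ℝ := hp.toFinset with hP
  have hPmem : ∀ l, l ∈ P ↔ p l ≠ 0 := by
    intro l; rw [hP, Set.Finite.mem_toFinset, Function.mem_support]
  set q : ℝ → E := fun l => ∑ m ∈ s, A m (p (l - m)) with hq
  set Q : Finset ℝ := (s ×ˢ P).image (fun x => x.1 + x.2) with hQ
  have hQ0 : ∀ k, k ∉ Q → q k = 0 := by
    intro k hk
    refine Finset.sum_eq_zero fun m hm => ?_
    have : k - m ∉ P := by
      intro h
      exact hk (Finset.mem_image.2 ⟨(m, k - m), Finset.mem_product.2 ⟨hm, h⟩, by simp⟩)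
    rw [hPmem, not_not] at this
    rw [this, map_zero]
  obtain ⟨ε, hε, hgap⟩ := exists_gap ((P ∪ Q).filter (fun x => x < 0))
    (fun x hx => (Finset.mem_filter.1 hx).2)
  have hgP : ∀ l, p l ≠ 0 → l ≤ -ε := by
    intro l hl
    refine hgap l (Finset.mem_filter.2 ⟨Finset.mem_union_left _ ((hPmem l).2 hl), ?_⟩)
    by_contra hc
    exact hl (hp0 l (not_lt.1 hc))
  have hgQ : ∀ l, l < 0 → q l ≠ 0 → l ≤ -ε := by
    intro l hl hl'
    refine hgap l (Finset.mem_filter.2 ⟨Finset.mem_union_right _ ?_, hl⟩)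
    by_contra hc
    exact hl' (hQ0 l hc)
  have hsup : (fun l => p (l - ε)).support.Finite := by
    have : (fun l => p (l - ε)).support ⊆ (fun l => l + ε) '' p.support := by
      intro l hl
      exact ⟨l - ε, hl, by simp⟩
    exact (hp.image _).subset this
  have h1 := h (fun l => p (l - ε)) hsup (by
    intro l hl
    by_contra hc
    have := hgP _ hc
    linarith)
  have e1 : ∑' l, ‖p (l - ε)‖ ^ 2 = ∑' l, ‖p l‖ ^ 2 :=
    (Equiv.subRight ε).tsum_eq (fun l => ‖p l‖ ^ 2)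
  have e2 : ∑' l, ‖(Iic (0 : ℝ)).indicator (fun l => ∑ m ∈ s, A m (p (l - m - ε))) l‖ ^ 2 =
      ∑' l, ‖(Iio (0 : ℝ)).indicator q l‖ ^ 2 := by
    rw [← (Equiv.subRight ε).tsum_eq (fun l => ‖(Iio (0 : ℝ)).indicator q l‖ ^ 2)]
    refine tsum_congr fun l => ?_
    rw [Equiv.subRight_apply]
    have e3 : ∑ m ∈ s, A m (p (l - m - ε)) = q (l - ε) := by
      rw [hq]
      refine Finset.sum_congr rfl fun m _ => ?_
      congr 2
      ring
    by_cases hl : l ≤ 0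
    · rw [indicator_of_mem (by exact hl), indicator_of_mem (by
        show l - ε < 0
        linarith), e3]
    · rw [indicator_of_notMem (by exact hl)]
      by_cases hl2 : l - ε < 0
      · rw [indicator_of_mem (by exact hl2)]
        have : q (l - ε) = 0 := by
          by_contra hc
          have := hgQ _ hl2 hc
          linarith
        rw [this]
      · rw [indicator_of_notMem (by exact hl2)]
  rw [e1, e2] at h1
  exact h1

end B6
end Pool.Agent.Helper865.TAP
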