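import Pool.Agent.Helper865.TAP.Defs


set_option autoImplicit false

open MeasureTheory Filter Topology Set Metric
open scoped ENNReal NNReal

namespace Pool.Agent.Helper865.TAP
namespace B8





variable {E : Type*} [NormedAddCommGroup E] [InnerProductSpace ℂ E] [FiniteDimensional ℂ E]


theorem norm_expI (l t : ℝ) : ‖Complex.exp (Complex.I * l * t)‖ = 1 := by
  rw [show Complex.I * (l : ℂ) * (t : ℂ) = ((l * t : ℝ) : ℂ) * Complex.I by push_cast; ring,
    Complex.norm_exp_ofReal_mul_I]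

theorem hasSum_exp {X : Type*} [NormedAddCommGroup X] [NormedSpace ℂ X] [CompleteSpace X]
    {a : ℝ → X} (ha : Summable (fun l => ‖a l‖)) (t : ℝ) :
    HasSum (fun l : ℝ => Complex.exp (Complex.I * l * t) • a l)
      (∑' l : ℝ, Complex.exp (Complex.I * l * t) • a l) := by
  apply Summable.hasSum
  apply Summable.of_norm
  refine ha.congr ?_
  intro l
  rw [norm_smul, norm_expI, one_mul]

theorem continuous_exp_tsum {X : Type*} [NormedAddCommGroup X] [NormedSpace ℂ X] [CompleteSpace X]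
    {a : ℝ → X} (ha : Summable (fun l => ‖a l‖)) {f : ℝ → X}
    (hf : ∀ t : ℝ, f t = ∑' l : ℝ, Complex.exp (Complex.I * l * t) • a l) : Continuous f := by
  have h : f = fun t : ℝ => ∑' l : ℝ, Complex.exp (Complex.I * l * t) • a l := funext hf
  rw [h]
  apply continuous_tsum (u := fun l => ‖a l‖) _ ha
  · intro l t
    rw [norm_smul, norm_expI, one_mul]
  · intro l
    fun_prop

theorem clm_ext_basis {ι : Type*} [Fintype ι] (e : OrthonormalBasis ι ℂ E) {T S : E →L[ℂ] E}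
    (h : ∀ i, T (e i) = S (e i)) : T = S := by
  apply ContinuousLinearMap.coe_injective
  apply e.toBasis.ext
  intro i
  simpa using h i

/-- the operator with given values on an orthonormal basis -/
noncomputable def opOf {ι : Type*} [Fintype ι] (e : OrthonormalBasis ι ℂ E) (a : ι → E) :
    E →L[ℂ] E := ∑ i, (innerSL ℂ (e i)).smulRight (a i)

theorem opOf_apply {ι : Type*} [Fintype ι] (e : OrthonormalBasis ι ℂ E) (a : ι → E) (j : ι) :
    opOf e a (e j) = a j := by
  classical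
  unfold opOf
  rw [_root_.sum_apply, Finset.sum_eq_single j]
  · simp
  · intro i _ hij
    have : inner ℂ (e i) (e j) = 0 := e.orthonormal.2 hij
    simp [this]
  · intro h
    exact absurd (Finset.mem_univ j) h

theorem norm_opOf_le {ι : Type*} [Fintype ι] (e : OrthonormalBasis ι ℂ E) (a : ι → E) :
    ‖opOf e a‖ ≤ ∑ i, ‖a i‖ := by
  unfold opOf
  refine (norm_sum_le _ _).trans ?_
  apply Finset.sum_le_sum
  intro i _
  rw [ContinuousLinearMap.norm_smulRight_apply, innerSL_apply_norm, e.orthonormal.1 i, one_mul]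

theorem norm_sq_le_sum {ι : Type*} [Fintype ι] (e : OrthonormalBasis ι ℂ E) (T : E →L[ℂ] E) :
    ‖T‖ ^ 2 ≤ ∑ i, ‖T (e i)‖ ^ 2 := by
  have hS : 0 ≤ ∑ i, ‖T (e i)‖ ^ 2 := Finset.sum_nonneg fun i _ => sq_nonneg _
  have h1 : ‖T‖ ≤ Real.sqrt (∑ i, ‖T (e i)‖ ^ 2) := by
    apply T.opNorm_le_bound (Real.sqrt_nonneg _)
    intro x
    have hx : T x = ∑ i, inner ℂ (e i) x • T (e i) := by
      conv_lhs => rw [← e.sum_repr' x]
      rw [map_sum]
      simp
    have h2 : ‖T x‖ ≤ ∑ i, ‖T (e i)‖ * ‖inner ℂ (e i) x‖ := by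
      rw [hx]
      refine (norm_sum_le _ _).trans (le_of_eq ?_)
      apply Finset.sum_congr rfl
      intro i _
      rw [norm_smul, mul_comm]
    have h3 := Finset.sum_mul_sq_le_sq_mul_sq Finset.univ (fun i => ‖T (e i)‖)
      (fun i => ‖inner ℂ (e i) x‖)
    rw [e.sum_sq_norm_inner_right x] at h3
    have h4 : (∑ i, ‖T (e i)‖ * ‖inner ℂ (e i) x‖) ≤
        Real.sqrt (∑ i, ‖T (e i)‖ ^ 2) * ‖x‖ := by
      have hx0 : 0 ≤ ∑ i, ‖T (e i)‖ * ‖inner ℂ (e i) x‖ :=
        Finset.sum_nonneg fun i _ => by positivity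
      apply (pow_le_pow_iff_left₀ hx0 (by positivity) two_ne_zero).1
      rw [mul_pow, Real.sq_sqrt hS]
      exact h3
    exact h2.trans h4
  calc ‖T‖ ^ 2 ≤ Real.sqrt (∑ i, ‖T (e i)‖ ^ 2) ^ 2 := by gcongr
    _ = _ := Real.sq_sqrt hS

theorem prod_formula (s : Finset ℝ) (A : ℝ → E →L[ℂ] E) {n : ℝ → E →L[ℂ] E}
    (hn : Summable (fun l => ‖n l‖)) (t : ℝ) :
    (∑' l : ℝ, Complex.exp (Complex.I * l * t) • ∑ m ∈ s, (A m).comp (n (l - m))) =
      (∑ m ∈ s, Complex.exp (Complex.I * m * t) • A m).comp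
        (∑' l : ℝ, Complex.exp (Complex.I * l * t) • n l) := by
  have h0 := hasSum_exp hn t
  set Nt := ∑' l : ℝ, Complex.exp (Complex.I * l * t) • n l with hNt
  have h1 : ∀ m ∈ s, HasSum (fun l : ℝ => Complex.exp (Complex.I * m * t) •
      (A m).comp (Complex.exp (Complex.I * ((l - m : ℝ) : ℂ) * t) • n (l - m)))
      (Complex.exp (Complex.I * m * t) • (A m).comp Nt) := by
    intro m _
    apply HasSum.const_smul
    have h2 := h0.mapL (ContinuousLinearMap.compL ℂ E E E (A m))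
    exact (Equiv.subRight m).hasSum_iff.2 h2
  have h3 := hasSum_sum h1
  have h4 : (∑ m ∈ s, Complex.exp (Complex.I * m * t) • A m).comp Nt =
      ∑ m ∈ s, Complex.exp (Complex.I * m * t) • (A m).comp Nt := by
    ext x
    simp
  rw [h4, ← h3.tsum_eq]
  apply tsum_congr
  intro l
  rw [Finset.smul_sum]
  apply Finset.sum_congr rfl
  intro m _
  rw [ContinuousLinearMap.comp_smul, smul_smul, ← Complex.exp_add]
  congr 2
  push_cast
  ring

theorem summable_conv (s : Finset ℝ) (A : ℝ → E →L[ℂ] E) {n : ℝ → E →L[ℂ] E}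
    (hn : Summable (fun l => ‖n l‖)) :
    Summable (fun l : ℝ => ‖∑ m ∈ s, (A m).comp (n (l - m))‖) := by
  have h1 : Summable (fun l : ℝ => ∑ m ∈ s, ‖A m‖ * ‖n (l - m)‖) := by
    apply summable_sum
    intro m _
    apply Summable.mul_left
    exact hn.comp_injective (sub_left_injective (b := m))
  refine Summable.of_nonneg_of_le (fun _ => norm_nonneg _) (fun l => ?_) h1
  refine (norm_sum_le _ _).trans ?_
  apply Finset.sum_le_sum
  intro m _
  exact ContinuousLinearMap.opNorm_comp_le _ _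

theorem adj_exp_tsum {n : ℝ → E →L[ℂ] E} (hn : Summable (fun l => ‖n l‖)) (t : ℝ) :
    ContinuousLinearMap.adjoint (∑' l : ℝ, Complex.exp (Complex.I * l * t) • n l) =
      ∑' l : ℝ, Complex.exp (Complex.I * l * t) • ContinuousLinearMap.adjoint (n (-l)) := by
  have h0 := hasSum_exp hn t
  have h1 : HasSum (fun l : ℝ => ContinuousLinearMap.adjoint
      (Complex.exp (Complex.I * l * t) • n l))
      (ContinuousLinearMap.adjoint (∑' l : ℝ, Complex.exp (Complex.I * l * t) • n l)) :=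
    h0.map (ContinuousLinearMap.adjoint (𝕜 := ℂ) (E := E) (F := E))
      (ContinuousLinearMap.adjoint (𝕜 := ℂ) (E := E) (F := E)).continuous
  have h2 := (Equiv.neg ℝ).hasSum_iff.2 h1
  rw [← h2.tsum_eq]
  apply tsum_congr
  intro l
  simp only [Function.comp, Equiv.neg_apply]
  rw [map_smulₛₗ, ← Complex.exp_conj]
  congr 2
  simp

theorem adj_poly (s : Finset ℝ) (A : ℝ → E →L[ℂ] E) (hA : ∀ l, l ∉ s → A l = 0)
    (hsym : ∀ l, A (-l) = ContinuousLinearMap.adjoint (A l)) (t : ℝ) :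
    ContinuousLinearMap.adjoint (∑ l ∈ s, Complex.exp (Complex.I * l * t) • A l) =
      ∑ l ∈ s, Complex.exp (Complex.I * l * t) • A l := by
  have hsum : Summable (fun l => ‖A l‖) := by
    apply summable_of_hasFiniteSupport
    apply s.finite_toSet.subset
    intro l hl
    by_contra h
    apply hl
    simp [hA l h]
  have h1 : ∑ l ∈ s, Complex.exp (Complex.I * l * t) • A l =
      ∑' l : ℝ, Complex.exp (Complex.I * l * t) • A l := by
    symm
    apply tsum_eq_sum
    intro l hl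
    rw [hA l hl, smul_zero]
  rw [h1, adj_exp_tsum hsum]
  apply tsum_congr
  intro l
  rw [← hsym, neg_neg]

theorem ms_bound {ι : Type*} [Fintype ι] (e : OrthonormalBasis ι ℂ E)
    (hmeansq : ∀ (f a : ℝ → E), Summable (fun l => ‖a l‖) →
      (∀ t : ℝ, f t = ∑' l : ℝ, Complex.exp (Complex.I * l * t) • a l) → ∀ ε : ℝ, 0 < ε →
      ∃ r : ℝ, 0 < r ∧ ∀ c ρ : ℝ, r ≤ ρ →
        |(2 * ρ)⁻¹ * (∫ s in ball c ρ, ‖f s‖ ^ 2) - ∑' l : ℝ, ‖a l‖ ^ 2| ≤ ε)
    {n : ℝ → E →L[ℂ] E} (hn : Summable (fun l => ‖n l‖)) {N : ℝ → E →L[ℂ] E}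
    (hN : ∀ t : ℝ, N t = ∑' l : ℝ, Complex.exp (Complex.I * l * t) • n l) {D : ℝ}
    (hD : ∀ i, ∑' l : ℝ, ‖n l (e i)‖ ^ 2 ≤ D) :
    ∃ r : ℝ, 0 < r ∧ ∀ c ρ : ℝ, 0 < ρ → r ≤ ρ →
      ∫⁻ s in ball c ρ, ‖N s‖ₑ ^ 2 ≤ ENNReal.ofReal ((Fintype.card ι) * (D + 1) * (2 * ρ)) := by
  have hcont : Continuous N := continuous_exp_tsum hn hN
  have h1 : ∀ i, ∃ r : ℝ, 0 < r ∧ ∀ c ρ : ℝ, 0 < ρ → r ≤ ρ →
      ∫⁻ s in ball c ρ, ‖N s (e i)‖ₑ ^ 2 ≤ ENNReal.ofReal ((D + 1) * (2 * ρ)) := by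
    intro i
    have hsum : Summable (fun l => ‖n l (e i)‖) := by
      refine Summable.of_nonneg_of_le (fun _ => norm_nonneg _) (fun l => ?_) hn
      have := (n l).le_opNorm (e i)
      rwa [e.orthonormal.1 i, mul_one] at this
    obtain ⟨r, hr, hr2⟩ := hmeansq (fun t => N t (e i)) (fun l => n l (e i)) hsum (by
      intro t
      rw [hN t]
      have h0 := hasSum_exp hn t
      have h2 := h0.mapL (ContinuousLinearMap.apply ℂ E (e i))
      exact h2.tsum_eq.symm) 1 one_pos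
    refine ⟨r, hr, fun c ρ hρ hrρ => ?_⟩
    have h3 := hr2 c ρ hrρ
    have hci : Continuous (fun s => ‖N s (e i)‖ ^ 2) := by fun_prop
    have hint : IntegrableOn (fun s => ‖N s (e i)‖ ^ 2) (ball c ρ) := by
      apply (hci.continuousOn.integrableOn_compact (isCompact_closedBall c ρ)).mono_set
      exact ball_subset_closedBall
    have h4 : ∫⁻ s in ball c ρ, ‖N s (e i)‖ₑ ^ 2 =
        ENNReal.ofReal (∫ s in ball c ρ, ‖N s (e i)‖ ^ 2) := by
      rw [ofReal_integral_eq_lintegral_ofReal hint (ae_of_all _ fun s => sq_nonneg _)]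
      apply lintegral_congr
      intro s
      rw [← ofReal_norm, ← ENNReal.ofReal_pow (norm_nonneg _)]
    rw [h4]
    apply ENNReal.ofReal_le_ofReal
    rw [abs_le] at h3
    have h5 : (2 * ρ)⁻¹ * (∫ s in ball c ρ, ‖N s (e i)‖ ^ 2) ≤ D + 1 := by
      have := hD i
      linarith [h3.2]
    rw [inv_mul_le_iff₀ (by positivity)] at h5
    linarith
  choose r hr hr2 using h1
  refine ⟨1 + ∑ i, r i, ?_, ?_⟩
  · have : 0 ≤ ∑ i, r i := Finset.sum_nonneg fun i _ => (hr i).le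
    linarith
  · intro c ρ hρ hrρ
    have h2 : ∀ i, r i ≤ ρ := by
      intro i
      have : r i ≤ ∑ i, r i := Finset.single_le_sum (fun i _ => (hr i).le) (Finset.mem_univ i)
      linarith
    calc ∫⁻ s in ball c ρ, ‖N s‖ₑ ^ 2 ≤ ∫⁻ s in ball c ρ, ∑ i, ‖N s (e i)‖ₑ ^ 2 := by
          apply lintegral_mono
          intro s
          have h3 := norm_sq_le_sum e (N s)
          have h4 := ENNReal.ofReal_le_ofReal h3
          rw [ENNReal.ofReal_sum_of_nonneg (fun i _ => sq_nonneg _)] at h4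
          simp only [ENNReal.ofReal_pow (norm_nonneg _), ofReal_norm] at h4
          exact h4
      _ = ∑ i, ∫⁻ s in ball c ρ, ‖N s (e i)‖ₑ ^ 2 := by
          apply lintegral_finsetSum
          intro i _
          have : Continuous (fun s => N s (e i)) := by fun_prop
          exact (this.enorm.measurable).pow_const 2
      _ ≤ ∑ i : ι, ENNReal.ofReal ((D + 1) * (2 * ρ)) :=
          Finset.sum_le_sum fun i _ => hr2 i c ρ hρ (h2 i)
      _ = _ := by
          rw [Finset.sum_const, Finset.card_univ, nsmul_eq_mul, mul_assoc,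
            ENNReal.ofReal_mul (Nat.cast_nonneg _), ENNReal.ofReal_natCast]

/-- Existence of the factorisation data for trigonometric polynomials. -/
theorem exists_fac
    (hmeansq : ∀ (f a : ℝ → E), Summable (fun l => ‖a l‖) →
      (∀ t : ℝ, f t = ∑' l : ℝ, Complex.exp (Complex.I * l * t) • a l) → ∀ ε : ℝ, 0 < ε →
      ∃ r : ℝ, 0 < r ∧ ∀ c ρ : ℝ, r ≤ ρ →
        |(2 * ρ)⁻¹ * (∫ s in ball c ρ, ‖f s‖ ^ 2) - ∑' l : ℝ, ‖a l‖ ^ 2| ≤ ε)
    (hneumann : ∀ (s : Finset ℝ) (A : ℝ → E →L[ℂ] E), (∀ l, l ∉ s → A l = 0) →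
      (∀ l, A (-l) = ContinuousLinearMap.adjoint (A l)) → ∀ (F : Set ℝ) (K : ℝ), 0 < K →
      (∀ p : ℝ → E, p.support.Finite → (∀ l, l ∉ F → p l = 0) →
        ∑' l, ‖p l‖ ^ 2 ≤ K ^ 2 * ∑' l, ‖F.indicator (fun l => ∑ m ∈ s, A m (p (l - m))) l‖ ^ 2) →
      ∀ (b : ℝ → E), b.support.Finite → (∀ l, l ∉ F → b l = 0) →
      ∃ a : ℝ → E, Summable (fun l => ‖a l‖) ∧ (∀ l, l ∉ F → a l = 0) ∧
        (∀ l ∈ F, ∑ m ∈ s, A m (a (l - m)) = b l) ∧
        ∑' l, ‖a l‖ ^ 2 ≤ K ^ 2 * ∑' l, ‖b l‖ ^ 2)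
    (hfacid : ∀ (n v n' v' : ℝ → E →L[ℂ] E), Summable (fun l => ‖n l‖) →
      Summable (fun l => ‖v l‖) → Summable (fun l => ‖n' l‖) → Summable (fun l => ‖v' l‖) →
      (∀ l, 0 < l → n l = 0) → (∀ l, l < 0 → v l = 0) →
      (∀ l, 0 < l → n' l = 0) → (∀ l, l < 0 → v' l = 0) →
      v 0 = 1 → n' 0 = 1 →
      ∀ (N V N' V' : ℝ → E →L[ℂ] E),
      (∀ t : ℝ, N t = ∑' l : ℝ, Complex.exp (Complex.I * l * t) • n l) →
      (∀ t : ℝ, V t = ∑' l : ℝ, Complex.exp (Complex.I * l * t) • v l) →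
      (∀ t : ℝ, N' t = ∑' l : ℝ, Complex.exp (Complex.I * l * t) • n' l) →
      (∀ t : ℝ, V' t = ∑' l : ℝ, Complex.exp (Complex.I * l * t) • v' l) →
      (∀ t, (ContinuousLinearMap.adjoint (N t)).comp (V' t)
        = (ContinuousLinearMap.adjoint (V t)).comp (N' t)) →
      ∀ t, (ContinuousLinearMap.adjoint (V t)).comp (N' t) = 1)
    (htrans : ∀ (s : Finset ℝ) (A : ℝ → E →L[ℂ] E), (∀ l, l ∉ s → A l = 0) → ∀ K : ℝ, 0 ≤ K →
      BB 2 (fun t : ℝ => ∑ l ∈ s, Complex.exp (Complex.I * l * t) • A l) K →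
      ∀ (p : ℝ → E), p.support.Finite → (∀ l, 0 < l → p l = 0) →
      ∑' l, ‖p l‖ ^ 2 ≤ K ^ 2 *
        ∑' l, ‖(Iic (0 : ℝ)).indicator (fun l => ∑ m ∈ s, A m (p (l - m))) l‖ ^ 2)
    (hshift : ∀ (s : Finset ℝ) (A : ℝ → E →L[ℂ] E) (K : ℝ),
      (∀ p : ℝ → E, p.support.Finite → (∀ l, 0 < l → p l = 0) →
        ∑' l, ‖p l‖ ^ 2 ≤ K ^ 2 *
          ∑' l, ‖(Iic (0 : ℝ)).indicator (fun l => ∑ m ∈ s, A m (p (l - m))) l‖ ^ 2) →
      ∀ (p : ℝ → E), p.support.Finite → (∀ l, 0 ≤ l → p l = 0) →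
      ∑' l, ‖p l‖ ^ 2 ≤ K ^ 2 *
        ∑' l, ‖(Iio (0 : ℝ)).indicator (fun l => ∑ m ∈ s, A m (p (l - m))) l‖ ^ 2)
    (hmulm : ∀ (M : ℝ → E →L[ℂ] E), APW (Iic 0) M → ∀ f : ℝ → E, Hm 2 f →
      Hm 2 (fun t => M t (f t)))
    (hmulp : ∀ (M : ℝ → E →L[ℂ] E), APW (Ici 0) M → ∀ f : ℝ → E, Hp 2 f →
      Hp 2 (fun t => M t (f t)))
    (K M : ℝ) (hK : 0 < K) (hM : 0 ≤ M) :
    ∃ C : ℝ, 0 < C ∧ ∀ (s : Finset ℝ) (A : ℝ → E →L[ℂ] E), (∀ l, l ∉ s → A l = 0) →
      (∀ l, A (-l) = ContinuousLinearMap.adjoint (A l)) →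
      (∀ t : ℝ, ‖∑ l ∈ s, Complex.exp (Complex.I * l * t) • A l‖ ≤ M) →
      BB 2 (fun t : ℝ => ∑ l ∈ s, Complex.exp (Complex.I * l * t) • A l) K →
      ∃ r : ℝ, 0 < r ∧ ∃ N V N' V' : ℝ → E →L[ℂ] E,
        Fac (fun t : ℝ => ∑ l ∈ s, Complex.exp (Complex.I * l * t) • A l) r C N V N' V' := by
  classical
  set e := stdOrthonormalBasis ℂ E with he
  set d : ℝ := (Fintype.card (Fin (Module.finrank ℂ E)) : ℝ) with hd
  have hd0 : 0 ≤ d := Nat.cast_nonneg _
  set D1 : ℝ := K ^ 2 with hD1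
  set D2 : ℝ := 1 + K ^ 2 * (M ^ 2 + 1) with hD2
  set C1 : ℝ := d * (D1 + 1) with hC1
  set C2 : ℝ := d * (D2 + 1) with hC2
  have hC10 : 0 ≤ C1 := by positivity
  have hC20 : 0 ≤ C2 := by positivity
  refine ⟨C1 + M ^ 2 * C1 + C2 + M ^ 2 * C2 + 1, by positivity, ?_⟩
  intro s A hA hsym hAM hBB
  -- the adjoint
  have hself := adj_poly s A hA hsym
  have hAcont : Continuous (fun t : ℝ => ∑ l ∈ s, Complex.exp (Complex.I * l * t) • A l) := by
    fun_prop
  -- bounds
  have hb0 := htrans s A hA K hK.le hBB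
  have hb1 := hshift s A K hb0
  have hyp0 : ∀ p : ℝ → E, p.support.Finite → (∀ l, l ∉ Iic (0 : ℝ) → p l = 0) →
      ∑' l, ‖p l‖ ^ 2 ≤ K ^ 2 *
        ∑' l, ‖(Iic (0 : ℝ)).indicator (fun l => ∑ m ∈ s, A m (p (l - m))) l‖ ^ 2 := by
    intro p hp hp0
    exact hb0 p hp (fun l hl => hp0 l (by simpa using hl))
  have hyp1 : ∀ p : ℝ → E, p.support.Finite → (∀ l, l ∉ Iio (0 : ℝ) → p l = 0) →
      ∑' l, ‖p l‖ ^ 2 ≤ K ^ 2 *
        ∑' l, ‖(Iio (0 : ℝ)).indicator (fun l => ∑ m ∈ s, A m (p (l - m))) l‖ ^ 2 := by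
    intro p hp hp0
    exact hb1 p hp (fun l hl => hp0 l (by simpa using hl))
  -- first column
  have hfs0 : ∀ i, (Pi.single (0 : ℝ) (e i) : ℝ → E).support.Finite := fun i =>
    (finite_singleton (0 : ℝ)).subset (Pi.support_single_subset)
  have hcol0 := fun i => hneumann s A hA hsym (Iic 0) K hK hyp0 (Pi.single (0 : ℝ) (e i)) (hfs0 i)
    (fun l hl => Pi.single_eq_of_ne (by
      rintro rfl
      exact hl (mem_Iic.2 le_rfl)) _)
  choose a ha_sum ha_supp ha_eq ha_sq using hcol0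
  have hasq : ∀ i, ∑' l, ‖(Pi.single (0 : ℝ) (e i) : ℝ → E) l‖ ^ 2 = 1 := by
    intro i
    rw [tsum_eq_single (0 : ℝ)]
    · rw [Pi.single_eq_same, e.orthonormal.1 i, one_pow]
    · intro l hl
      rw [Pi.single_eq_of_ne hl, norm_zero]
      norm_num
  set n : ℝ → E →L[ℂ] E := fun l => opOf e (fun i => a i l) with hn
  have hnsum : Summable (fun l => ‖n l‖) :=
    Summable.of_nonneg_of_le (fun _ => norm_nonneg _) (fun l => norm_opOf_le e _)
      (summable_sum fun i _ => ha_sum i)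
  have hne : ∀ l i, n l (e i) = a i l := fun l i => opOf_apply e _ i
  have hnpos : ∀ l, 0 < l → n l = 0 := by
    intro l hl
    apply clm_ext_basis e
    intro i
    rw [hne, ha_supp i l (by simpa using hl)]
    simp
  set v : ℝ → E →L[ℂ] E := fun l => ∑ m ∈ s, (A m).comp (n (l - m)) with hv
  have hvsum : Summable (fun l => ‖v l‖) := summable_conv s A hnsum
  have hve : ∀ l i, l ≤ 0 → v l (e i) = (Pi.single (0 : ℝ) (e i) : ℝ → E) l := by
    intro l i hl
    rw [← ha_eq i l hl, hv]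
    simp only [_root_.sum_apply, ContinuousLinearMap.comp_apply, hne]
  have hvneg : ∀ l, l < 0 → v l = 0 := by
    intro l hl
    apply clm_ext_basis e
    intro i
    rw [hve l i hl.le, Pi.single_eq_of_ne hl.ne]
    simp
  have hv0 : v 0 = 1 := by
    apply clm_ext_basis e
    intro i
    rw [hve 0 i le_rfl, Pi.single_eq_same]
    simp
  -- second column
  set b : Fin (Module.finrank ℂ E) → ℝ → E := fun i l => if l < 0 then -(A l (e i)) else 0 with hb
  have hfs1 : ∀ i, (b i).support.Finite := by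
    intro i
    apply s.finite_toSet.subset
    intro l hl
    by_contra h
    apply hl
    simp [hb, hA l h]
  have hcol1 := fun i => hneumann s A hA hsym (Iio 0) K hK hyp1 (b i) (hfs1 i)
    (fun l hl => by
      simp only [hb]
      rw [if_neg (by simpa using hl)])
  choose a' ha'_sum ha'_supp ha'_eq ha'_sq using hcol1
  set n0 : ℝ → E →L[ℂ] E := fun l => opOf e (fun i => a' i l) with hn0
  have hn0sum : Summable (fun l => ‖n0 l‖) :=
    Summable.of_nonneg_of_le (fun _ => norm_nonneg _) (fun l => norm_opOf_le e _)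
      (summable_sum fun i _ => ha'_sum i)
  have hn0e : ∀ l i, n0 l (e i) = a' i l := fun l i => opOf_apply e _ i
  have hn0neg : ∀ l, 0 ≤ l → n0 l = 0 := by
    intro l hl
    apply clm_ext_basis e
    intro i
    rw [hn0e, ha'_supp i l (by simpa using hl)]
    simp
  set n' : ℝ → E →L[ℂ] E := fun l => (Pi.single (0 : ℝ) 1 : ℝ → E →L[ℂ] E) l + n0 l with hn'
  have hsingle : Summable (fun l => ‖(Pi.single (0 : ℝ) 1 : ℝ → E →L[ℂ] E) l‖) := by
    apply summable_of_hasFiniteSupport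
    apply (finite_singleton (0 : ℝ)).subset
    intro l hl
    by_contra h
    apply hl
    simp only [Pi.single_eq_of_ne (show l ≠ 0 from h), norm_zero]
  have hn'sum : Summable (fun l => ‖n' l‖) :=
    Summable.of_nonneg_of_le (fun _ => norm_nonneg _) (fun l => norm_add_le _ _)
      (hsingle.add hn0sum)
  have hn'pos : ∀ l, 0 < l → n' l = 0 := by
    intro l hl
    simp only [hn']
    rw [hn0neg l hl.le, Pi.single_eq_of_ne hl.ne', add_zero]
  have hn'0 : n' 0 = 1 := by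
    simp only [hn']
    rw [hn0neg 0 le_rfl, Pi.single_eq_same, add_zero]
  set v' : ℝ → E →L[ℂ] E := fun l => ∑ m ∈ s, (A m).comp (n' (l - m)) with hv'
  have hv'sum : Summable (fun l => ‖v' l‖) := summable_conv s A hn'sum
  have hv'neg : ∀ l, l < 0 → v' l = 0 := by
    intro l hl
    apply clm_ext_basis e
    intro i
    have h1 : v' l (e i) = ∑ m ∈ s, A m ((Pi.single (0 : ℝ) 1 : ℝ → E →L[ℂ] E) (l - m) (e i)) +
        ∑ m ∈ s, A m (a' i (l - m)) := by
      simp only [hv', hn', _root_.sum_apply, ContinuousLinearMap.comp_apply,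
        _root_.add_apply, map_add, hn0e, Finset.sum_add_distrib]
    have h2 : ∑ m ∈ s, A m ((Pi.single (0 : ℝ) 1 : ℝ → E →L[ℂ] E) (l - m) (e i)) = A l (e i) := by
      by_cases hls : l ∈ s
      · rw [Finset.sum_eq_single l]
        · rw [sub_self, Pi.single_eq_same]
          simp
        · intro m _ hml
          rw [Pi.single_eq_of_ne (sub_ne_zero.2 hml.symm)]
          simp
        · intro h; exact absurd hls h
      · rw [hA l hls, Finset.sum_eq_zero]
        · simp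
        · intro m hm
          rw [Pi.single_eq_of_ne (sub_ne_zero.2 (by rintro rfl; exact hls hm))]
          simp
    rw [h1, h2, ha'_eq i l hl]
    simp only [hb]
    rw [if_pos hl]
    simp
  -- mean square of A e_i
  have hAsum : Summable (fun l => ‖A l‖) := by
    apply summable_of_hasFiniteSupport
    apply s.finite_toSet.subset
    intro l hl
    by_contra h
    apply hl
    simp [hA l h]
  have hAisum : ∀ i, Summable (fun l => ‖A l (e i)‖) := by
    intro i
    refine Summable.of_nonneg_of_le (fun _ => norm_nonneg _) (fun l => ?_) hAsum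
    have := (A l).le_opNorm (e i)
    rwa [e.orthonormal.1 i, mul_one] at this
  have hAsq : ∀ i, ∑' l, ‖A l (e i)‖ ^ 2 ≤ M ^ 2 + 1 := by
    intro i
    obtain ⟨r, hr, hr2⟩ := hmeansq
      (fun t : ℝ => (∑ l ∈ s, Complex.exp (Complex.I * l * t) • A l) (e i))
      (fun l => A l (e i)) (hAisum i) (by
        intro t
        rw [tsum_eq_sum (s := s)]
        · simp [_root_.sum_apply]
        · intro l hl
          simp [hA l hl]) 1 one_pos
    have h1 := hr2 0 r le_rfl
    rw [abs_le] at h1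
    have h2 : (∫ t in ball (0 : ℝ) r,
        ‖(∑ l ∈ s, Complex.exp (Complex.I * l * t) • A l) (e i)‖ ^ 2) ≤ M ^ 2 * (2 * r) := by
      have h3 : ∀ t ∈ ball (0 : ℝ) r,
          ‖‖(∑ l ∈ s, Complex.exp (Complex.I * l * t) • A l) (e i)‖ ^ 2‖ ≤ M ^ 2 := by
        intro t _
        rw [Real.norm_eq_abs, abs_of_nonneg (sq_nonneg _)]
        have h4 := (∑ l ∈ s, Complex.exp (Complex.I * l * t) • A l).le_opNorm (e i)
        rw [e.orthonormal.1 i, mul_one] at h4
        have h5 := h4.trans (hAM t)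
        gcongr
      have h4 := norm_setIntegral_le_of_norm_le_const (μ := volume) (by
        rw [Real.volume_ball]; exact ENNReal.ofReal_lt_top) h3
      refine (le_abs_self _).trans (h4.trans (le_of_eq ?_))
      rw [Measure.real, Real.volume_ball, ENNReal.toReal_ofReal (by positivity)]
    have h3 : (2 * r)⁻¹ * (∫ t in ball (0 : ℝ) r,
        ‖(∑ l ∈ s, Complex.exp (Complex.I * l * t) • A l) (e i)‖ ^ 2) ≤ M ^ 2 := by
      rw [inv_mul_le_iff₀ (by positivity)]
      linarith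
    linarith [h1.1]
  -- square sums
  have hDN : ∀ i, ∑' l : ℝ, ‖n l (e i)‖ ^ 2 ≤ D1 := by
    intro i
    simp only [hne]
    have := ha_sq i
    rw [hasq i, mul_one] at this
    exact this
  have hsqsum : ∀ {w : ℝ → E}, Summable (fun l => ‖w l‖) → Summable (fun l => ‖w l‖ ^ 2) := by
    intro w hw
    refine Summable.of_nonneg_of_le (fun _ => sq_nonneg _) (fun l => ?_)
      (hw.mul_left (∑' l, ‖w l‖))
    rw [sq]
    exact mul_le_mul_of_nonneg_right (hw.le_tsum l fun _ _ => norm_nonneg _) (norm_nonneg _)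
  have hDN' : ∀ i, ∑' l : ℝ, ‖n' l (e i)‖ ^ 2 ≤ D2 := by
    intro i
    have h1 : ∀ l, ‖n' l (e i)‖ ^ 2 =
        ‖(Pi.single (0 : ℝ) (e i) : ℝ → E) l‖ ^ 2 + ‖a' i l‖ ^ 2 := by
      intro l
      by_cases hl : l = 0
      · subst hl
        rw [hn'0, Pi.single_eq_same, ha'_supp i 0 (by simp)]
        simp
      · simp only [hn', _root_.add_apply, hn0e]
        rw [Pi.single_eq_of_ne hl, Pi.single_eq_of_ne hl]
        simp
    have h2 : Summable (fun l => ‖(Pi.single (0 : ℝ) (e i) : ℝ → E) l‖ ^ 2) := by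
      apply summable_of_hasFiniteSupport
      apply (finite_singleton (0 : ℝ)).subset
      intro l hl
      by_contra h
      apply hl
      simp only [Pi.single_eq_of_ne (show l ≠ 0 from h), norm_zero]
      norm_num
    rw [tsum_congr h1, Summable.tsum_add h2 (hsqsum (ha'_sum i)), hasq i]
    have h3 : ∑' l, ‖b i l‖ ^ 2 ≤ M ^ 2 + 1 := by
      refine le_trans ?_ (hAsq i)
      apply Summable.tsum_le_tsum
      · intro l
        simp only [hb]
        split_ifs
        · rw [norm_neg]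
        · rw [norm_zero, zero_pow two_ne_zero]
          positivity
      · apply summable_of_hasFiniteSupport
        apply (hfs1 i).subset
        intro l hl h
        apply hl
        simp only [h, norm_zero]
        norm_num
      · exact hsqsum (hAisum i)
    have h4 : K ^ 2 * ∑' l, ‖b i l‖ ^ 2 ≤ K ^ 2 * (M ^ 2 + 1) := by gcongr
    have h5 := ha'_sq i
    rw [hD2]
    linarith
  -- functions
  set N : ℝ → E →L[ℂ] E := fun t => ∑' l : ℝ, Complex.exp (Complex.I * l * t) • n l with hNdef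
  set N' : ℝ → E →L[ℂ] E := fun t => ∑' l : ℝ, Complex.exp (Complex.I * l * t) • n' l with hN'def
  set V : ℝ → E →L[ℂ] E := fun t => ∑' l : ℝ, Complex.exp (Complex.I * l * t) • v l with hVdef
  set V' : ℝ → E →L[ℂ] E := fun t => ∑' l : ℝ, Complex.exp (Complex.I * l * t) • v' l with hV'def
  have hVN : ∀ t : ℝ, V t = (∑ l ∈ s, Complex.exp (Complex.I * l * t) • A l).comp (N t) :=
    fun t => prod_formula s A hnsum t
  have hVN' : ∀ t : ℝ, V' t = (∑ l ∈ s, Complex.exp (Complex.I * l * t) • A l).comp (N' t) :=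
    fun t => prod_formula s A hn'sum t
  have hidd : ∀ t, (ContinuousLinearMap.adjoint (N t)).comp (V' t)
      = (ContinuousLinearMap.adjoint (V t)).comp (N' t) := by
    intro t
    rw [hVN t, hVN' t, ContinuousLinearMap.adjoint_comp, hself t]
    rfl
  have hid2 := hfacid n v n' v' hnsum hvsum hn'sum hv'sum hnpos hvneg hn'pos hv'neg hv0 hn'0
    N V N' V' (fun _ => rfl) (fun _ => rfl) (fun _ => rfl) (fun _ => rfl) hidd
  obtain ⟨r1, hr1, hr1'⟩ := ms_bound e hmeansq hnsum (N := N) (fun _ => rfl) hDN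
  obtain ⟨r2, hr2, hr2'⟩ := ms_bound e hmeansq hn'sum (N := N') (fun _ => rfl) hDN'
  have hcN : Continuous N := continuous_exp_tsum hnsum fun _ => rfl
  have hcN' : Continuous N' := continuous_exp_tsum hn'sum fun _ => rfl
  have hcV : Continuous V := continuous_exp_tsum hvsum fun _ => rfl
  have hcV' : Continuous V' := continuous_exp_tsum hv'sum fun _ => rfl
  have hMbd : ∀ (T S : ℝ → E →L[ℂ] E), (∀ t : ℝ, S t =
      (∑ l ∈ s, Complex.exp (Complex.I * l * t) • A l).comp (T t)) → ∀ (c ρ B : ℝ),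
      ∫⁻ t in ball c ρ, ‖T t‖ₑ ^ 2 ≤ ENNReal.ofReal B →
      ∫⁻ t in ball c ρ, ‖S t‖ₑ ^ 2 ≤ ENNReal.ofReal (M ^ 2 * B) := by
    intro T S hTS c ρ B hB
    calc ∫⁻ t in ball c ρ, ‖S t‖ₑ ^ 2 ≤ ∫⁻ t in ball c ρ, ENNReal.ofReal (M ^ 2) * ‖T t‖ₑ ^ 2 := by
          apply lintegral_mono
          intro t
          have h1 : ‖S t‖ ≤ M * ‖T t‖ := by
            rw [hTS t]
            refine (ContinuousLinearMap.opNorm_comp_le _ _).trans ?_
            exact mul_le_mul_of_nonneg_right (hAM t) (norm_nonneg _)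
          have h2 : ‖S t‖ ^ 2 ≤ M ^ 2 * ‖T t‖ ^ 2 := by
            rw [← mul_pow]
            gcongr
          have h3 := ENNReal.ofReal_le_ofReal h2
          rw [ENNReal.ofReal_mul (sq_nonneg _), ENNReal.ofReal_pow (norm_nonneg _),
            ENNReal.ofReal_pow (norm_nonneg _), ofReal_norm, ofReal_norm] at h3
          exact h3
      _ = ENNReal.ofReal (M ^ 2) * ∫⁻ t in ball c ρ, ‖T t‖ₑ ^ 2 :=
          lintegral_const_mul' _ _ ENNReal.ofReal_ne_top
      _ ≤ ENNReal.ofReal (M ^ 2) * ENNReal.ofReal B := by gcongr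
      _ = _ := by rw [ENNReal.ofReal_mul (sq_nonneg _)]
  refine ⟨max r1 r2, lt_max_of_lt_left hr1, N, V, N', V', ?_⟩
  refine ⟨hcN, hcV, hcN', hcV', hVN, hVN', fun t => (hidd t).trans (hid2 t), hid2, ?_, ?_,
    ?_, ?_, ?_, ?_⟩
  · apply hmulm
    refine ⟨fun l => ContinuousLinearMap.adjoint (v' (-l)), ?_, ?_, ?_⟩
    · simp only [LinearIsometryEquiv.norm_map]
      exact hv'sum.comp_injective neg_injective
    · intro l hl
      show ContinuousLinearMap.adjoint (v' (-l)) = 0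
      rw [hv'neg (-l) (by simpa using hl), map_zero]
    · intro t
      exact adj_exp_tsum hv'sum t
  · apply hmulp
    refine ⟨fun l => ContinuousLinearMap.adjoint (n' (-l)), ?_, ?_, ?_⟩
    · simp only [LinearIsometryEquiv.norm_map]
      exact hn'sum.comp_injective neg_injective
    · intro l hl
      show ContinuousLinearMap.adjoint (n' (-l)) = 0
      rw [hn'pos (-l) (by simpa using hl), map_zero]
    · intro t
      exact adj_exp_tsum hn'sum t
  · intro c ρ hρ hr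
    refine (hr1' c ρ hρ ((le_max_left _ _).trans hr)).trans (ENNReal.ofReal_le_ofReal ?_)
    apply mul_le_mul_of_nonneg_right _ (by positivity)
    have : 0 ≤ M ^ 2 * C1 := by positivity
    have : 0 ≤ M ^ 2 * C2 := by positivity
    linarith
  · intro c ρ hρ hr
    refine (hMbd N V hVN c ρ _ (hr1' c ρ hρ ((le_max_left _ _).trans hr))).trans
      (ENNReal.ofReal_le_ofReal ?_)
    rw [← mul_assoc]
    apply mul_le_mul_of_nonneg_right _ (by positivity)
    have : 0 ≤ M ^ 2 * C2 := by positivity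
    linarith
  · intro c ρ hρ hr
    refine (hr2' c ρ hρ ((le_max_right _ _).trans hr)).trans (ENNReal.ofReal_le_ofReal ?_)
    apply mul_le_mul_of_nonneg_right _ (by positivity)
    have : 0 ≤ M ^ 2 * C1 := by positivity
    have : 0 ≤ M ^ 2 * C2 := by positivity
    linarith
  · intro c ρ hρ hr
    refine (hMbd N' V' hVN' c ρ _ (hr2' c ρ hρ ((le_max_right _ _).trans hr))).trans
      (ENNReal.ofReal_le_ofReal ?_)
    rw [← mul_assoc]
    apply mul_le_mul_of_nonneg_right _ (by positivity)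
    have : 0 ≤ M ^ 2 * C1 := by positivity
    linarith

end B8
end Pool.Agent.Helper865.TAP
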