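import Pool.Agent.Helper865.TAP.Defs


set_option autoImplicit false

open MeasureTheory Filter Topology Set
open scoped ENNReal NNReal

namespace Pool.Agent.Helper865.TAP
namespace J2

variable {E : Type*} [NormedAddCommGroup E] [InnerProductSpace ℂ E] [FiniteDimensional ℂ E]



/-- the standard Cauchy law -/
noncomputable def nu : Measure ℝ := ProbabilityTheory.cauchyMeasure 0 1

instance : IsProbabilityMeasure nu := by unfold nu; infer_instance

theorem nu_eq : nu = volume.withDensity (ProbabilityTheory.cauchyPDF 0 1) :=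
  ProbabilityTheory.cauchyMeasure_of_scale_ne_zero 0 one_ne_zero

theorem pdf_toReal (u : ℝ) : (ProbabilityTheory.cauchyPDF 0 1 u).toReal = Real.pi⁻¹ * (u ^ 2 + 1)⁻¹ := by
  unfold ProbabilityTheory.cauchyPDF ProbabilityTheory.cauchyPDFReal
  rw [ENNReal.toReal_ofReal]
  · simp
  · positivity

theorem pdf_lt_top (u : ℝ) : ProbabilityTheory.cauchyPDF 0 1 u < ∞ := by
  unfold ProbabilityTheory.cauchyPDF
  exact ENNReal.ofReal_lt_top

theorem integral_nu (g : ℝ → E) : ∫ u, g u ∂nu = ∫ u, (Real.pi⁻¹ * (u ^ 2 + 1)⁻¹) • g u := by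
  rw [nu_eq, integral_withDensity_eq_integral_toReal_smul (by fun_prop)
    (ae_of_all _ pdf_lt_top)]
  simp only [pdf_toReal]

theorem integrable_nu_iff (g : ℝ → E) : Integrable g nu ↔
    Integrable (fun u => (Real.pi⁻¹ * (u ^ 2 + 1)⁻¹) • g u) := by
  rw [nu_eq, integrable_withDensity_iff_integrable_smul' (by fun_prop)
    (ae_of_all _ pdf_lt_top)]
  simp only [pdf_toReal]

/-- the kernel after the change of variables -/
theorem kern_scale {y : ℝ} (hy : 0 < y) (u : ℝ) :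
    y * (Real.pi⁻¹ * (y / ((y * u) ^ 2 + y ^ 2))) = Real.pi⁻¹ * (u ^ 2 + 1)⁻¹ := by
  have h1 : (y * u) ^ 2 + y ^ 2 ≠ 0 := by positivity
  have h2 : u ^ 2 + 1 ≠ 0 := by positivity
  have hpi := Real.pi_ne_zero
  field_simp

theorem pois_eq (f : ℝ → E) {y : ℝ} (hy : 0 < y) (x : ℝ) :
    pois y f x = ∫ u, f (x + y * u) ∂nu := by
  rw [integral_nu]
  unfold pois
  have e1 : ∫ t : ℝ, (Real.pi⁻¹ * (y / ((t - x) ^ 2 + y ^ 2))) • f t =
      ∫ t : ℝ, (Real.pi⁻¹ * (y / (t ^ 2 + y ^ 2))) • f (x + t) := by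
    rw [← integral_sub_right_eq_self (fun t : ℝ => (Real.pi⁻¹ * (y / (t ^ 2 + y ^ 2))) • f (x + t)) x]
    congr 1
    funext t
    congr 2
    ring
  rw [e1]
  have e2 := Measure.integral_comp_mul_left
    (fun t : ℝ => (Real.pi⁻¹ * (y / (t ^ 2 + y ^ 2))) • f (x + t)) y
  have e3 : ∫ t : ℝ, (Real.pi⁻¹ * (y / (t ^ 2 + y ^ 2))) • f (x + t) =
      y • ∫ u : ℝ, (Real.pi⁻¹ * (y / ((y * u) ^ 2 + y ^ 2))) • f (x + y * u) := by
    rw [e2, smul_smul, abs_of_pos (inv_pos.2 hy), mul_inv_cancel₀ hy.ne', one_smul]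
  rw [e3, ← integral_smul]
  congr 1
  funext u
  rw [smul_smul, kern_scale hy]

theorem kern_integrable {y : ℝ} (hy : 0 < y) (x : ℝ) :
    Integrable (fun t : ℝ => Real.pi⁻¹ * (y / ((t - x) ^ 2 + y ^ 2))) := by
  have h := ProbabilityTheory.integrable_cauchyPDFReal x (γ := ⟨y, hy.le⟩)
  refine h.congr (ae_of_all _ ?_)
  intro t
  change Real.pi⁻¹ * y * ((t - x) ^ 2 + y ^ 2)⁻¹ = Real.pi⁻¹ * (y / ((t - x) ^ 2 + y ^ 2))
  rw [mul_assoc, div_eq_mul_inv]

theorem pois_integrable {p : ℝ≥0∞} (hp : 1 ≤ p) (hp' : p ≠ ⊤) {f : ℝ → E}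
    (hf : MemLp f p volume) {y : ℝ} (hy : 0 < y) (x : ℝ) :
    Integrable (fun t : ℝ => (Real.pi⁻¹ * (y / ((t - x) ^ 2 + y ^ 2))) • f t) := by
  obtain ⟨k, hk⟩ : ∃ k : ℝ → ℝ, k = fun t : ℝ => Real.pi⁻¹ * (y / ((t - x) ^ 2 + y ^ 2)) := ⟨_, rfl⟩
  have hki : Integrable k := by rw [hk]; exact kern_integrable hy x
  have hkm : Measurable k := by rw [hk]; fun_prop
  have hk0 : ∀ t, 0 ≤ k t := by intro t; rw [hk]; positivity
  obtain ⟨C, hC⟩ : ∃ C : ℝ, C = Real.pi⁻¹ * y⁻¹ := ⟨_, rfl⟩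
  have hkC : ∀ t, k t ≤ C := by
    intro t
    rw [hk, hC]
    simp only
    apply mul_le_mul_of_nonneg_left _ (by positivity)
    rw [div_le_iff₀ (by positivity)]
    have : y⁻¹ * ((t - x) ^ 2 + y ^ 2) = y⁻¹ * (t - x) ^ 2 + y := by
      field_simp
    rw [this]
    have : 0 ≤ y⁻¹ * (t - x) ^ 2 := by positivity
    linarith
  obtain ⟨μ, hμ⟩ : ∃ μ : Measure ℝ, μ = volume.withDensity (fun t => ENNReal.ofReal (k t)) := ⟨_, rfl⟩
  have : IsFiniteMeasure μ := by
    rw [hμ]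
    apply isFiniteMeasure_withDensity_ofReal
    exact hki.hasFiniteIntegral
  have hle : μ ≤ ENNReal.ofReal C • (volume : Measure ℝ) := by
    rw [hμ, ← withDensity_const]
    apply withDensity_mono
    exact ae_of_all _ (fun t => ENNReal.ofReal_le_ofReal (hkC t))
  have h1 : MemLp f p μ := (hf.smul_measure ENNReal.ofReal_ne_top).mono_measure hle
  have h2 : Integrable f μ := h1.integrable hp
  rw [hμ, integrable_withDensity_iff_integrable_smul' (by fun_prop)
    (ae_of_all _ (fun t => ENNReal.ofReal_lt_top))] at h2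
  refine h2.congr (ae_of_all _ ?_)
  intro t
  simp only
  rw [ENNReal.toReal_ofReal (hk0 t), hk]

theorem pois_integrable_nu {p : ℝ≥0∞} (hp : 1 ≤ p) (hp' : p ≠ ⊤) {f : ℝ → E}
    (hf : MemLp f p volume) {y : ℝ} (hy : 0 < y) (x : ℝ) :
    Integrable (fun u : ℝ => f (x + y * u)) nu := by
  rw [integrable_nu_iff]
  have h1 := pois_integrable hp hp' hf hy x
  have h2 := (h1.comp_add_left x).comp_mul_left' hy.ne'
  have h3 := h2.smul y
  refine h3.congr (ae_of_all _ ?_)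
  intro u
  simp only [Pi.smul_apply]
  rw [smul_smul, ← kern_scale hy]
  congr 4
  ring

/-- Jensen -/
theorem jensen {p : ℝ≥0∞} (hp : 1 ≤ p) (hp' : p ≠ ⊤) {g : ℝ → E} (hg : AEStronglyMeasurable g nu) :
    ‖∫ u, g u ∂nu‖ₑ ^ p.toReal ≤ ∫⁻ u, ‖g u‖ₑ ^ p.toReal ∂nu := by
  have hp0 : p ≠ 0 := (zero_lt_one.trans_le hp).ne'
  have hpr : 0 < p.toReal := ENNReal.toReal_pos hp0 hp'
  have h1 : ‖∫ u, g u ∂nu‖ₑ ≤ eLpNorm g p nu := by
    calc ‖∫ u, g u ∂nu‖ₑ ≤ ∫⁻ u, ‖g u‖ₑ ∂nu := enorm_integral_le_lintegral_enorm _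
      _ = eLpNorm g 1 nu := eLpNorm_one_eq_lintegral_enorm.symm
      _ ≤ eLpNorm g p nu := eLpNorm_le_eLpNorm_of_exponent_le hp hg
  calc ‖∫ u, g u ∂nu‖ₑ ^ p.toReal ≤ (eLpNorm g p nu) ^ p.toReal :=
        ENNReal.rpow_le_rpow h1 hpr.le
    _ = ∫⁻ u, ‖g u‖ₑ ^ p.toReal ∂nu := by
        rw [eLpNorm_eq_lintegral_rpow_enorm_toReal hp0 hp', ← ENNReal.rpow_mul,
          one_div, inv_mul_cancel₀ hpr.ne', ENNReal.rpow_one]

theorem mink {p : ℝ≥0∞} (hp : 1 ≤ p) (hp' : p ≠ ⊤) {F : ℝ → ℝ → E}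
    (hF : StronglyMeasurable (Function.uncurry F)) :
    ∫⁻ x, ‖∫ u, F x u ∂nu‖ₑ ^ p.toReal ≤ ∫⁻ u, (∫⁻ x, ‖F x u‖ₑ ^ p.toReal) ∂nu := by
  calc ∫⁻ x, ‖∫ u, F x u ∂nu‖ₑ ^ p.toReal ≤ ∫⁻ x, (∫⁻ u, ‖F x u‖ₑ ^ p.toReal ∂nu) := by
        apply lintegral_mono
        intro x
        exact jensen hp hp' (hF.comp_measurable measurable_prodMk_left).aestronglyMeasurable
    _ = ∫⁻ u, (∫⁻ x, ‖F x u‖ₑ ^ p.toReal) ∂nu := by
        apply lintegral_lintegral_swap
        exact (hF.enorm.pow_const p.toReal).aemeasurable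

/-- pois only depends on the a.e. class -/
theorem pois_congr {f g : ℝ → E} (h : f =ᵐ[volume] g) (y : ℝ) : pois y f = pois y g := by
  funext x
  unfold pois
  apply integral_congr_ae
  filter_upwards [h] with t ht
  rw [ht]

theorem sm_shift {f : ℝ → E} (hf : StronglyMeasurable f) (y : ℝ) :
    StronglyMeasurable (Function.uncurry (fun x u : ℝ => f (x + y * u))) := by
  apply hf.comp_measurable
  fun_prop

theorem lint_pois_le {p : ℝ≥0∞} (hp : 1 ≤ p) (hp' : p ≠ ⊤) {f : ℝ → E}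
    (hf : StronglyMeasurable f) {y : ℝ} (hy : 0 < y) :
    ∫⁻ x, ‖pois y f x‖ₑ ^ p.toReal ≤ ∫⁻ x, ‖f x‖ₑ ^ p.toReal := by
  have e : ∀ x, pois y f x = ∫ u, f (x + y * u) ∂nu := fun x => pois_eq f hy x
  simp only [e]
  refine (mink hp hp' (sm_shift hf y)).trans ?_
  have e2 : ∀ u : ℝ, ∫⁻ x, ‖f (x + y * u)‖ₑ ^ p.toReal = ∫⁻ x, ‖f x‖ₑ ^ p.toReal := by
    intro u
    exact lintegral_add_right_eq_self (fun x => ‖f x‖ₑ ^ p.toReal) (y * u)
  simp only [e2]
  simp

theorem sm_pois {f : ℝ → E} (hf : StronglyMeasurable f) {y : ℝ} (hy : 0 < y) :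
    StronglyMeasurable (pois y f) := by
  have e : pois y f = fun x => ∫ u, f (x + y * u) ∂nu := funext fun x => pois_eq f hy x
  rw [e]
  exact (sm_shift hf y).integral_prod_right

theorem eLpNorm_pois_le {p : ℝ≥0∞} (hp : 1 ≤ p) (hp' : p ≠ ⊤) {f : ℝ → E}
    (hf : MemLp f p volume) {y : ℝ} (hy : 0 < y) :
    eLpNorm (pois y f) p volume ≤ eLpNorm f p volume := by
  have hp0 : p ≠ 0 := (zero_lt_one.trans_le hp).ne'
  have hpr : 0 < p.toReal := ENNReal.toReal_pos hp0 hp'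
  obtain ⟨g, hg, hae⟩ := hf.1
  rw [pois_congr hae y, eLpNorm_congr_ae hae,
    eLpNorm_eq_lintegral_rpow_enorm_toReal hp0 hp', eLpNorm_eq_lintegral_rpow_enorm_toReal hp0 hp']
  apply ENNReal.rpow_le_rpow _ (by positivity)
  exact lint_pois_le hp hp' hg hy

theorem pois_memLp {p : ℝ≥0∞} (hp : 1 ≤ p) (hp' : p ≠ ⊤) {f : ℝ → E}
    (hf : MemLp f p volume) {y : ℝ} (hy : 0 < y) : MemLp (pois y f) p volume := by
  refine ⟨?_, (eLpNorm_pois_le hp hp' hf hy).trans_lt hf.2⟩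
  rw [pois_congr hf.1.ae_eq_mk y]
  exact (sm_pois hf.1.stronglyMeasurable_mk hy).aestronglyMeasurable

theorem transl_tendsto {p : ℝ≥0∞} (hp : 1 ≤ p) (hp' : p ≠ ⊤) {f : ℝ → E}
    (hf : MemLp f p volume) :
    Tendsto (fun s : ℝ => eLpNorm (fun x => f (x + s) - f x) p volume) (𝓝 0) (𝓝 0) := by
  have : Fact (1 ≤ p) := ⟨hp⟩
  obtain ⟨g, hg⟩ : ∃ g : ℝ → C(ℝ, ℝ), g = fun s => ⟨fun x => x + s, by fun_prop⟩ := ⟨_, rfl⟩
  have hgs : ∀ s x, g s x = x + s := by intro s x; rw [hg]; rfl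
  have hgc : Continuous g := by
    apply ContinuousMap.continuous_of_continuous_uncurry
    simp only [hgs]
    fun_prop
  have hgm : ∀ s, MeasurePreserving (g s) volume volume := by
    intro s
    have : (g s : ℝ → ℝ) = fun x => x + s := funext (hgs s)
    rw [this]
    exact measurePreserving_add_right volume s
  have hc := Continuous.compMeasurePreservingLp (f := fun _ : ℝ => hf.toLp f) (g := g)
    continuous_const hgc hgm hp'
  have h1 := hc.tendsto 0
  have h2 := (tendsto_iff_edist_tendsto_0.1 h1)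
  refine h2.congr ?_
  intro s
  rw [Lp.edist_def]
  apply eLpNorm_congr_ae
  have a1 := Lp.coeFn_compMeasurePreserving (hf.toLp f) (hgm s)
  have a2 := Lp.coeFn_compMeasurePreserving (hf.toLp f) (hgm 0)
  have a3 := hf.coeFn_toLp
  have a4 := (hgm s).quasiMeasurePreserving.ae_eq_comp a3
  have a5 := (hgm 0).quasiMeasurePreserving.ae_eq_comp a3
  filter_upwards [a1, a2, a4, a5] with x b1 b2 b4 b5
  rw [Pi.sub_apply, b1, b2]
  rw [b4, b5]
  simp only [Function.comp_apply, hgs, add_zero]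

theorem tendsto_pois_aux {p : ℝ≥0∞} (hp : 1 ≤ p) (hp' : p ≠ ⊤) {f : ℝ → E}
    (hf : MemLp f p volume) (hfm : StronglyMeasurable f) :
    Tendsto (fun y : ℝ => eLpNorm (fun x => pois y f x - f x) p volume) (𝓝[>] 0) (𝓝 0) := by
  have hp0 : p ≠ 0 := (zero_lt_one.trans_le hp).ne'
  have hpr : 0 < p.toReal := ENNReal.toReal_pos hp0 hp'
  obtain ⟨G, hG⟩ : ∃ G : ℝ → ℝ≥0∞, G = fun s => ∫⁻ x, ‖f (x + s) - f x‖ₑ ^ p.toReal := ⟨_, rfl⟩
  have hGe : ∀ s, G s = (eLpNorm (fun x => f (x + s) - f x) p volume) ^ p.toReal := by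
    intro s
    rw [hG, eLpNorm_eq_lintegral_rpow_enorm_toReal hp0 hp', ← ENNReal.rpow_mul,
          one_div, inv_mul_cancel₀ hpr.ne', ENNReal.rpow_one]
  have hG0 : Tendsto G (𝓝 0) (𝓝 0) := by
    have h := (ENNReal.continuous_rpow_const (y := p.toReal)).tendsto 0
    rw [ENNReal.zero_rpow_of_pos hpr] at h
    have h2 := h.comp (transl_tendsto hp hp' hf)
    refine h2.congr ?_
    intro s
    rw [hGe s, Function.comp_apply]
  have hGb : ∀ s, G s ≤ (2 * eLpNorm f p volume) ^ p.toReal := by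
    intro s
    rw [hGe s]
    apply ENNReal.rpow_le_rpow _ hpr.le
    have hm : AEStronglyMeasurable (fun x => f (x + s)) volume :=
      (hfm.comp_measurable (by fun_prop)).aestronglyMeasurable
    have h1 := eLpNorm_sub_le hm hfm.aestronglyMeasurable hp (μ := volume)
    have h2 : eLpNorm (fun x => f (x + s)) p volume = eLpNorm f p volume :=
      eLpNorm_comp_measurePreserving hfm.aestronglyMeasurable (measurePreserving_add_right volume s)
    rw [h2, ← two_mul] at h1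
    exact h1
  have hGm : Measurable G := by
    rw [hG]
    have : Measurable (Function.uncurry (fun s x : ℝ => ‖f (x + s) - f x‖ₑ ^ p.toReal)) := by
      have h1 : StronglyMeasurable (fun q : ℝ × ℝ => f (q.2 + q.1)) :=
        hfm.comp_measurable (by fun_prop)
      have h2 : StronglyMeasurable (fun q : ℝ × ℝ => f q.2) :=
        hfm.comp_measurable (by fun_prop)
      exact ((h1.sub h2).enorm).pow_const _
    exact this.lintegral_prod_right
  have hCfin : (2 * eLpNorm f p volume) ^ p.toReal ≠ ⊤ := by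
    apply ENNReal.rpow_ne_top_of_nonneg hpr.le
    exact ENNReal.mul_ne_top (by norm_num) hf.2.ne
  have hlim : Tendsto (fun y : ℝ => ∫⁻ u, G (y * u) ∂nu) (𝓝[>] 0) (𝓝 0) := by
    have h := tendsto_lintegral_filter_of_dominated_convergence (μ := nu) (l := 𝓝[>] (0 : ℝ))
      (F := fun y u => G (y * u)) (f := fun _ => 0) (fun _ => (2 * eLpNorm f p volume) ^ p.toReal)
      (Eventually.of_forall fun y => by
        have : Measurable (fun u : ℝ => G (y * u)) := hGm.comp (by fun_prop)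
        exact this)
      (Eventually.of_forall fun y => ae_of_all _ fun u => hGb _)
      (by simpa using hCfin)
      (ae_of_all _ fun u => by
        have h1 : Tendsto (fun y : ℝ => y * u) (𝓝[>] 0) (𝓝 0) := by
          have : Tendsto (fun y : ℝ => y * u) (𝓝 0) (𝓝 (0 * u)) := by
            apply Continuous.tendsto
            fun_prop
          rw [zero_mul] at this
          exact this.mono_left nhdsWithin_le_nhds
        exact hG0.comp h1)
    simpa using h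
  have hlim2 : Tendsto (fun y : ℝ => (∫⁻ u, G (y * u) ∂nu) ^ (1 / p.toReal)) (𝓝[>] 0) (𝓝 0) := by
    have h := (ENNReal.continuous_rpow_const (y := 1 / p.toReal)).tendsto 0
    rw [ENNReal.zero_rpow_of_pos (by positivity)] at h
    exact h.comp hlim
  refine tendsto_of_tendsto_of_tendsto_of_le_of_le' tendsto_const_nhds hlim2
    (Eventually.of_forall fun _ => zero_le) ?_
  filter_upwards [self_mem_nhdsWithin] with y hy
  have hy' : (0 : ℝ) < y := hy
  rw [eLpNorm_eq_lintegral_rpow_enorm_toReal hp0 hp']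
  apply ENNReal.rpow_le_rpow _ (by positivity)
  have e : ∀ x, pois y f x - f x = ∫ u, (f (x + y * u) - f x) ∂nu := by
    intro x
    rw [integral_sub (pois_integrable_nu hp hp' hf hy' x) (integrable_const _), ← pois_eq f hy' x]
    simp
  simp only [e]
  have hF : StronglyMeasurable (Function.uncurry (fun x u : ℝ => f (x + y * u) - f x)) := by
    have h1 : StronglyMeasurable (fun q : ℝ × ℝ => f (q.1 + y * q.2)) :=
      hfm.comp_measurable (by fun_prop)
    have h2 : StronglyMeasurable (fun q : ℝ × ℝ => f q.1) :=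
      hfm.comp_measurable (by fun_prop)
    exact h1.sub h2
  refine (mink hp hp' hF).trans ?_
  rw [hG]

theorem tendsto_pois {p : ℝ≥0∞} (hp : 1 ≤ p) (hp' : p ≠ ⊤) {f : ℝ → E}
    (hf : MemLp f p volume) :
    Tendsto (fun y : ℝ => eLpNorm (fun x => pois y f x - f x) p volume) (𝓝[>] 0) (𝓝 0) := by
  have hae := hf.1.ae_eq_mk
  have h := tendsto_pois_aux hp hp' (f := hf.1.mk f) ((memLp_congr_ae hae).1 hf)
    hf.1.stronglyMeasurable_mk
  refine h.congr ?_
  intro y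
  apply eLpNorm_congr_ae
  filter_upwards [hae] with x hx
  rw [← pois_congr hae y, ← hx]

end J2
end Pool.Agent.Helper865.TAP
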