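import Pool.Agent.Helper865.TAP.J1
import Pool.Agent.Helper865.TAP.J2
import Pool.Agent.Helper865.TAP.A1
import Pool.Agent.Helper865.TAP.A2
import Pool.Agent.Helper865.TAP.A3
import Pool.Agent.Helper865.TAP.A4
import Pool.Agent.Helper865.TAP.A5
import Pool.Agent.Helper865.TAP.A6
import Pool.Agent.Helper865.TAP.A7

set_option autoImplicit false

open MeasureTheory Filter Topology Set Metric
open scoped ENNReal NNReal

namespace Pool.Agent.Helper865.TAP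

variable {E : Type*} [NormedAddCommGroup E] [InnerProductSpace ℂ E] [FiniteDimensional ℂ E]

theorem two_poles_upper (a b : ℂ) (ha : 0 < a.im) (hb : 0 < b.im) :
    ∫ t : ℝ, (((t : ℂ) - a)⁻¹ * ((t : ℂ) - b)⁻¹) = 0 := by
  have := J1.integral_exp_two_poles_upper 0 le_rfl a b ha hb
  simpa using this

theorem two_poles_lower (a b : ℂ) (ha : a.im < 0) (hb : b.im < 0) :
    ∫ t : ℝ, (((t : ℂ) - a)⁻¹ * ((t : ℂ) - b)⁻¹) = 0 := by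
  have := J1.integral_exp_two_poles_lower 0 le_rfl a b ha hb
  simpa using this

theorem tendsto_pois (p : ℝ≥0∞) (hp : 1 ≤ p) (hp' : p ≠ ⊤) (f : ℝ → E)
    (hf : MemLp f p volume) :
    Tendsto (fun y : ℝ => eLpNorm (fun x => pois y f x - f x) p volume) (𝓝[>] 0) (𝓝 0) :=
  J2.tendsto_pois hp hp' hf

theorem eq_zero_of_cauchy {p : ℝ≥0∞} (hp : 1 ≤ p) (hp' : p ≠ ⊤) {f : ℝ → E}
    (hf : MemLp f p volume)
    (h : ∀ a : ℂ, a.im ≠ 0 → ∫ t : ℝ, ((t : ℂ) - a)⁻¹ • f t = 0) : f =ᵐ[volume] 0 :=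
  A2.eq_zero_of_cauchy_eq_zero tendsto_pois hp hp' hf h

theorem eq_zero_of_Hm_Hp {p : ℝ≥0∞} (hp : 1 ≤ p) (hp' : p ≠ ⊤) {f : ℝ → E}
    (hf : Hm p f) (hf' : Hp p f) : f =ᵐ[volume] 0 := by
  refine eq_zero_of_cauchy hp hp' hf.1 fun a ha => ?_
  rcases lt_or_gt_of_ne ha with h | h
  · exact hf'.2 a h
  · exact hf.2 a h

theorem cauchy_Hm {p : ℝ≥0∞} (hp : 1 < p) (b : ℂ) (hb : 0 < b.im) (e : E) :
    Hm p (fun t : ℝ => ((t : ℂ) - b)⁻¹ • e) :=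
  A1.cauchy_Hm two_poles_upper hp b hb e

theorem cauchy_Hp {p : ℝ≥0∞} (hp : 1 < p) (b : ℂ) (hb : b.im < 0) (e : E) :
    Hp p (fun t : ℝ => ((t : ℂ) - b)⁻¹ • e) :=
  A1.cauchy_Hp two_poles_lower hp b hb e

theorem orth {u v : ℝ → E} (hu : Hm 2 u) (hv : Hp 2 v) : ∫ t : ℝ, inner ℂ (u t) (v t) = 0 :=
  A1.orth_Hm_Hp two_poles_upper two_poles_lower
    (fun _ hf h => eq_zero_of_cauchy (by norm_num) (by norm_num) hf h) hu hv

theorem decomp {f : ℝ → E} (hf : MemLp f 2 volume) :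
    ∃ u v : ℝ → E, Hm 2 u ∧ Hp 2 v ∧ ∀ t, f t = u t + v t :=
  A1.exists_decomp two_poles_upper two_poles_lower
    (fun _ hf h => eq_zero_of_cauchy (by norm_num) (by norm_num) hf h) hf

theorem dense_cauchy_Hm {f : ℝ → E} (hf : Hm 2 f) {ε : ℝ} (hε : 0 < ε) :
    ∃ (s : Finset ℂ) (c : ℂ → E), (∀ b ∈ s, 0 < b.im) ∧
      eLpNorm (fun t : ℝ => f t - ∑ b ∈ s, ((t : ℂ) - b)⁻¹ • c b) 2 volume
        ≤ ENNReal.ofReal ε :=
  A1.dense_cauchy_Hm two_poles_upper two_poles_lower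
    (fun _ hf h => eq_zero_of_cauchy (by norm_num) (by norm_num) hf h) hf hε

theorem dense_cauchy_Hp {f : ℝ → E} (hf : Hp 2 f) {ε : ℝ} (hε : 0 < ε) :
    ∃ (s : Finset ℂ) (c : ℂ → E), (∀ b ∈ s, b.im < 0) ∧
      eLpNorm (fun t : ℝ => f t - ∑ b ∈ s, ((t : ℂ) - b)⁻¹ • c b) 2 volume
        ≤ ENNReal.ofReal ε :=
  A1.dense_cauchy_Hp two_poles_upper two_poles_lower
    (fun _ hf h => eq_zero_of_cauchy (by norm_num) (by norm_num) hf h) hf hε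

theorem Hm_exp {f : ℝ → E} (hf : Hm 2 f) (l : ℝ) (hl : l ≤ 0) :
    Hm 2 (fun t : ℝ => Complex.exp (Complex.I * l * t) • f t) :=
  A4.Hm_mul_exp (fun _ hf _ hε => dense_cauchy_Hm hf hε)
    (fun μ hμ a b ha hb => J1.integral_exp_two_poles_upper μ hμ a b ha hb) hf l hl

theorem Hp_exp {f : ℝ → E} (hf : Hp 2 f) (l : ℝ) (hl : 0 ≤ l) :
    Hp 2 (fun t : ℝ => Complex.exp (Complex.I * l * t) • f t) :=
  A4.Hp_mul_exp (fun _ hf _ hε => dense_cauchy_Hp hf hε)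
    (fun μ hμ a b ha hb => J1.integral_exp_two_poles_lower μ hμ a b ha hb) hf l hl

theorem Hm_APW {M : ℝ → E →L[ℂ] E} (hM : APW (Iic 0) M) {f : ℝ → E} (hf : Hm 2 f) :
    Hm 2 (fun t => M t (f t)) :=
  A4.Hm_mul_APW (fun _ hf l hl => Hm_exp hf l hl) hM hf

theorem Hp_APW {M : ℝ → E →L[ℂ] E} (hM : APW (Ici 0) M) {f : ℝ → E} (hf : Hp 2 f) :
    Hp 2 (fun t => M t (f t)) :=
  A4.Hp_mul_APW (fun _ hf l hl => Hp_exp hf l hl) hM hf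

theorem exp_cauchy_Hm {p : ℝ≥0∞} (hp : 1 < p) (b : ℂ) (hb : 0 < b.im) (l : ℝ) (hl : l ≤ 0)
    (e : E) : Hm p (fun t : ℝ => Complex.exp (Complex.I * l * t) • (((t : ℂ) - b)⁻¹ • e)) :=
  A5.exp_cauchy_Hm (fun μ hμ a b ha hb => J1.integral_exp_two_poles_upper μ hμ a b ha hb)
    hp b hb l hl e

theorem exp_cauchy_Hp {p : ℝ≥0∞} (hp : 1 < p) (b : ℂ) (hb : 0 < b.im) (l : ℝ) (hl : 0 ≤ l)
    (e : E) :
    Hp p (fun t : ℝ => (Complex.exp (Complex.I * l * t) - Complex.exp (Complex.I * l * b)) •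
      (((t : ℂ) - b)⁻¹ • e)) :=
  A5.exp_cauchy_Hp (fun μ hμ a b ha hb => J1.integral_exp_sub_two_poles μ hμ a b ha hb)
    hp b hb l hl e

theorem exp_cauchy_Hm' {p : ℝ≥0∞} (hp : 1 < p) (b : ℂ) (hb : b.im < 0) (l : ℝ) (hl : l ≤ 0)
    (e : E) :
    Hm p (fun t : ℝ => (Complex.exp (Complex.I * l * t) - Complex.exp (Complex.I * l * b)) •
      (((t : ℂ) - b)⁻¹ • e)) :=
  A5.exp_cauchy_Hm' (fun μ hμ a b ha hb => J1.integral_exp_sub_two_poles μ hμ a b ha hb)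
    hp b hb l hl e

theorem escape (h : ℝ → E) (hh : MemLp h 2 volume) (ε : ℝ) (hε : 0 < ε) :
    ∃ μ₀ : ℝ, ∀ μ : ℝ, μ₀ ≤ μ → ∀ u v : ℝ → E, Hm 2 u → Hp 2 v →
      (∀ᵐ t : ℝ, Complex.exp (-(Complex.I * μ * t)) • h t = u t + v t) →
      eLpNorm v 2 volume ≤ ENNReal.ofReal ε :=
  A6.escape_Hp (fun _ hf => decomp hf) (fun _ _ hu hv => orth hu hv)
    (fun _ hf l hl => Hm_exp hf l hl) (fun _ hf _ hε => dense_cauchy_Hp hf hε)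
    (fun b hb e => cauchy_Hp (by norm_num) b hb e)
    (fun b hb l hl e => exp_cauchy_Hm' (by norm_num) b hb l hl e) h hh ε hε

theorem pointwise_lower {G : ℝ → E →L[ℂ] E} (hG : Continuous G) {M : ℝ} (hM : ∀ t, ‖G t‖ ≤ M)
    {K : ℝ} (hK : 0 ≤ K) (hBB : BB 2 G K) (t : ℝ) (x : E) : ‖x‖ ≤ K * ‖G t x‖ :=
  A6.pointwise_lower (fun _ hf => decomp hf) (fun _ _ hu hv => orth hu hv) escape hG hM hK hBB t x

theorem Hm_closed {p : ℝ≥0∞} (hp : 1 < p) (hp' : p ≠ ⊤) (f : ℝ → E) (g : ℕ → ℝ → E)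
    (hf : MemLp f p volume) (hg : ∀ n, Hm p (g n))
    (h : Tendsto (fun n => eLpNorm (fun t => g n t - f t) p volume) atTop (𝓝 0)) : Hm p f :=
  A3.Hm_of_tendsto hp hp' hf hg h

theorem Hp_closed {p : ℝ≥0∞} (hp : 1 < p) (hp' : p ≠ ⊤) (f : ℝ → E) (g : ℕ → ℝ → E)
    (hf : MemLp f p volume) (hg : ∀ n, Hp p (g n))
    (h : Tendsto (fun n => eLpNorm (fun t => g n t - f t) p volume) atTop (𝓝 0)) : Hp p f :=
  A3.Hp_of_tendsto hp hp' hf hg h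

theorem solve_sa {G : ℝ → E →L[ℂ] E} (hG : Continuous G) {M : ℝ} (hM : ∀ t, ‖G t‖ ≤ M)
    (hsa : ∀ t, ContinuousLinearMap.adjoint (G t) = G t) {K : ℝ} (hK : 0 ≤ K)
    (hBB : BB 2 G K) {g : ℝ → E} (hg : MemLp g 2 volume) :
    ∃ u v : ℝ → E, Hm 2 u ∧ Hp 2 v ∧ (∀ᵐ t : ℝ, G t (u t) + v t = g t) ∧
      eLpNorm u 2 volume ≤ ENNReal.ofReal K * eLpNorm g 2 volume ∧
      eLpNorm v 2 volume ≤ ENNReal.ofReal (1 + M * K) * eLpNorm g 2 volume :=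
  A7.solve_selfadjoint (fun _ hf => decomp hf) (fun _ _ hu hv => orth hu hv)
    (Hm_closed (by norm_num) (by norm_num)) (Hp_closed (by norm_num) (by norm_num))
    hG hM hsa hK hBB hg

theorem kernel_rep2 {p : ℝ≥0∞} (hp : 1 ≤ p) (hp' : p ≠ ⊤) {u v : ℝ → E} (hu : Hm p u)
    (hv : Hp p v) {c R : ℝ} (hR : 0 < R) (h : ∀ᵐ t : ℝ, t ∈ ball c R → u t + v t = 0) :
    ∀ᵐ t : ℝ, t ∈ ball c R → u t = -((2 * (Real.pi : ℂ) * Complex.I)⁻¹ •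
      ∫ s : ℝ, ((s : ℂ) - (t : ℂ))⁻¹ • (u s + v s)) :=
  A2.kernel_rep tendsto_pois hp hp' hu hv hR h

end Pool.Agent.Helper865.TAP
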