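import Pool.Agent.Helper865.TAP.Defs


set_option autoImplicit false

open MeasureTheory Filter Topology Set Metric
open scoped ENNReal NNReal

namespace Pool.Agent.Helper865.TAP
namespace C1




/-- Dyadic decomposition of a Cauchy-type tail integral. -/
theorem dyadic_bound {a b : ℝ → ℝ≥0∞} (ha : AEMeasurable a volume) (hb : AEMeasurable b volume)
    {c R : ℝ} (hR : 0 < R) {A B : ℝ} (hA : 0 ≤ A) (hB : 0 ≤ B)
    (h1 : ∀ R' : ℝ, R ≤ R' → ∫⁻ s in ball c R', a s ^ 2 ≤ ENNReal.ofReal (A * (2 * R')))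
    (h2 : ∀ R' : ℝ, R ≤ R' → ∫⁻ s in ball c R', b s ^ 2 ≤ ENNReal.ofReal (B * (2 * R'))) :
    ∫⁻ s in (ball c R)ᶜ, a s * b s * ENNReal.ofReal (1 / (s - c) ^ 2)
      ≤ ENNReal.ofReal (16 * Real.sqrt (A * B) / R) := by
  have hCS : ∀ R' : ℝ, R ≤ R' → ∫⁻ s in ball c R', a s * b s ≤
      ENNReal.ofReal (2 * R' * Real.sqrt (A * B)) := by
    intro R' hR'
    have hR'0 : 0 < R' := lt_of_lt_of_le hR hR'
    have h := ENNReal.lintegral_mul_le_Lp_mul_Lq (volume.restrict (ball c R'))
      (Real.HolderConjugate.two_two) ha.restrict hb.restrict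
    have e1 : ∀ x : ℝ≥0∞, x ^ (2 : ℝ) = x ^ (2 : ℕ) := fun x => ENNReal.rpow_two x
    simp only [e1] at h
    refine le_trans h ?_
    refine le_trans (mul_le_mul' (ENNReal.rpow_le_rpow (h1 R' hR') (by norm_num))
      (ENNReal.rpow_le_rpow (h2 R' hR') (by norm_num))) ?_
    rw [← ENNReal.mul_rpow_of_nonneg _ _ (by norm_num), ← ENNReal.ofReal_mul (by positivity),
      ENNReal.ofReal_rpow_of_nonneg (by positivity) (by norm_num), ← Real.sqrt_eq_rpow]
    apply ENNReal.ofReal_le_ofReal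
    have e2 : A * (2 * R') * (B * (2 * R')) = (2 * R') ^ 2 * (A * B) := by ring
    rw [e2, Real.sqrt_mul (by positivity), Real.sqrt_sq (by positivity)]
  set Ann : ℕ → Set ℝ := fun i => ball c (2 ^ (i + 1) * R) \ ball c (2 ^ i * R) with hAnn
  have hcov : (ball c R)ᶜ ⊆ ⋃ i, Ann i := by
    intro s hs
    have hs' : R ≤ dist s c := by simpa [mem_ball] using hs
    have hex : ∃ n : ℕ, dist s c < 2 ^ n * R := by
      obtain ⟨n, hn⟩ := pow_unbounded_of_one_lt (dist s c / R) (by norm_num : (1 : ℝ) < 2)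
      exact ⟨n, by rwa [div_lt_iff₀ hR] at hn⟩
    classical
    have hn := Nat.find_spec hex
    have hmin := fun m => Nat.find_min hex (m := m)
    obtain ⟨k, hk⟩ : ∃ k, Nat.find hex = k + 1 := by
      refine Nat.exists_eq_succ_of_ne_zero fun h0 => ?_
      rw [h0] at hn
      simp at hn; linarith
    rw [hk] at hn hmin
    refine Set.mem_iUnion.mpr ⟨k, mem_ball.mpr hn, fun h => ?_⟩
    exact hmin k (Nat.lt_succ_self k) (mem_ball.mp h)
  have hterm : ∀ i : ℕ, ∫⁻ s in Ann i, a s * b s * ENNReal.ofReal (1 / (s - c) ^ 2) ≤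
      ENNReal.ofReal (4 * Real.sqrt (A * B) / R * (1 / 2) ^ i) := by
    intro i
    have h2i : (0 : ℝ) < 2 ^ i := by positivity
    have hAm : MeasurableSet (Ann i) := measurableSet_ball.diff measurableSet_ball
    calc ∫⁻ s in Ann i, a s * b s * ENNReal.ofReal (1 / (s - c) ^ 2)
        ≤ ∫⁻ s in Ann i, a s * b s * ENNReal.ofReal (1 / (2 ^ i * R) ^ 2) := by
          refine setLIntegral_mono' hAm fun s hs => ?_
          refine mul_le_mul_right (ENNReal.ofReal_le_ofReal ?_) _
          have h3 : 2 ^ i * R ≤ |s - c| := by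
            have := hs.2
            rw [mem_ball, not_lt, Real.dist_eq] at this
            exact this
          have h4 : (2 ^ i * R) ^ 2 ≤ (s - c) ^ 2 := by
            rw [← sq_abs (s - c)]
            exact pow_le_pow_left₀ (by positivity) h3 2
          exact one_div_le_one_div_of_le (by positivity) h4
      _ = (∫⁻ s in Ann i, a s * b s) * ENNReal.ofReal (1 / (2 ^ i * R) ^ 2) := by
          exact lintegral_mul_const'' _ (ha.restrict.mul hb.restrict)
      _ ≤ ENNReal.ofReal (2 * (2 ^ (i + 1) * R) * Real.sqrt (A * B)) *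
            ENNReal.ofReal (1 / (2 ^ i * R) ^ 2) := by
          refine mul_le_mul_left (le_trans (lintegral_mono_set Set.sdiff_subset) (hCS _ ?_)) _
          have : (1 : ℝ) ≤ 2 ^ (i + 1) := one_le_pow₀ (by norm_num)
          nlinarith
      _ = ENNReal.ofReal (4 * Real.sqrt (A * B) / R * (1 / 2) ^ i) := by
          rw [← ENNReal.ofReal_mul (by positivity)]
          congr 1
          rw [pow_succ, one_div_pow]
          field_simp
          ring
  have hgeo : HasSum (fun i : ℕ => 4 * Real.sqrt (A * B) / R * (1 / 2) ^ i)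
      (4 * Real.sqrt (A * B) / R * 2) := hasSum_geometric_two.mul_left _
  calc ∫⁻ s in (ball c R)ᶜ, a s * b s * ENNReal.ofReal (1 / (s - c) ^ 2)
      ≤ ∫⁻ s in ⋃ i, Ann i, a s * b s * ENNReal.ofReal (1 / (s - c) ^ 2) := lintegral_mono_set hcov
    _ ≤ ∑' i, ∫⁻ s in Ann i, a s * b s * ENNReal.ofReal (1 / (s - c) ^ 2) := lintegral_iUnion_le _ _
    _ ≤ ∑' i : ℕ, ENNReal.ofReal (4 * Real.sqrt (A * B) / R * (1 / 2) ^ i) := ENNReal.tsum_le_tsum hterm
    _ = ENNReal.ofReal (4 * Real.sqrt (A * B) / R * 2) := by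
        rw [← ENNReal.ofReal_tsum_of_nonneg (fun i => by positivity) hgeo.summable, hgeo.tsum_eq]
    _ ≤ ENNReal.ofReal (16 * Real.sqrt (A * B) / R) := by
        apply ENNReal.ofReal_le_ofReal
        rw [div_mul_eq_mul_div]
        refine div_le_div_of_nonneg_right ?_ hR.le
        nlinarith [Real.sqrt_nonneg (A * B)]

end C1
end Pool.Agent.Helper865.TAP
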