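import Pool.Agent.Helper865.TAP.Defs


set_option autoImplicit false

open MeasureTheory Filter Topology Set Metric
open scoped ENNReal NNReal

namespace Pool.Agent.Helper865.TAP
namespace C2





variable {E : Type*} [NormedAddCommGroup E] [InnerProductSpace ℂ E] [FiniteDimensional ℂ E]

theorem ennreal_add_sq_le (a b : ℝ≥0∞) : (a + b) ^ 2 ≤ 2 * a ^ 2 + 2 * b ^ 2 := by
  by_cases ha : a = ⊤
  · simp [ha]
  by_cases hb : b = ⊤
  · simp [hb]
  lift a to ℝ≥0 using ha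
  lift b to ℝ≥0 using hb
  norm_cast
  rw [← NNReal.coe_le_coe]
  push_cast
  nlinarith [sq_nonneg ((a : ℝ) - b)]

theorem ennreal_amgm (a b : ℝ≥0∞) {q : ℝ} (hq : 0 < q) :
    a * b ≤ ENNReal.ofReal q * a ^ 2 + ENNReal.ofReal q⁻¹ * b ^ 2 := by
  have h1 : ENNReal.ofReal q ≠ 0 := by simpa using hq
  have h2 : ENNReal.ofReal q⁻¹ ≠ 0 := by
    have := inv_pos.2 hq
    simpa using this
  by_cases ha : a = ⊤
  · rw [ha]
    simp [ENNReal.mul_top h1]
  by_cases hb : b = ⊤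
  · rw [hb]
    simp [ENNReal.mul_top h2]
  lift a to ℝ≥0 using ha
  lift b to ℝ≥0 using hb
  have e1 : ((a : ℝ≥0∞)) = ENNReal.ofReal (a : ℝ) := (ENNReal.ofReal_coe_nnreal).symm
  have e2 : ((b : ℝ≥0∞)) = ENNReal.ofReal (b : ℝ) := (ENNReal.ofReal_coe_nnreal).symm
  rw [e1, e2, ← ENNReal.ofReal_pow a.coe_nonneg, ← ENNReal.ofReal_pow b.coe_nonneg,
    ← ENNReal.ofReal_mul a.coe_nonneg,
    ← ENNReal.ofReal_mul hq.le, ← ENNReal.ofReal_mul (inv_pos.2 hq).le,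
    ← ENNReal.ofReal_add (by positivity) (by positivity)]
  apply ENNReal.ofReal_le_ofReal
  have ha0 : (0 : ℝ) ≤ a := a.2
  have hb0 : (0 : ℝ) ≤ b := b.2
  have h3 : q * (a * b : ℝ) ≤ q * (q * (a : ℝ) ^ 2 + q⁻¹ * (b : ℝ) ^ 2) := by
    have h4 : q * (q * (a : ℝ) ^ 2 + q⁻¹ * (b : ℝ) ^ 2) = (q * a) ^ 2 + (b : ℝ) ^ 2 := by
      field_simp
    rw [h4]
    have h5 : 0 ≤ q * (a * b : ℝ) := by positivity
    nlinarith [sq_nonneg (q * (a : ℝ) - b)]
  exact le_of_mul_le_mul_left h3 hq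

theorem memLp_one_add' : MemLp (fun t : ℝ => (1 + ‖t‖)⁻¹) 2 (volume : Measure ℝ) := by
  have h0 : ∀ t : ℝ, 1 + ‖t‖ ≠ 0 := fun t => by positivity
  have hcont : Continuous fun t : ℝ => (1 + ‖t‖)⁻¹ :=
    (continuous_const.add continuous_norm).inv₀ fun t => h0 t
  rw [← integrable_norm_rpow_iff hcont.aestronglyMeasurable (by norm_num) (by norm_num)]
  have h1 := integrable_one_add_norm (E := ℝ) (μ := volume) (r := 2) (by simp)
  refine h1.congr (Eventually.of_forall fun t => ?_)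
  have h2 : 0 ≤ (1 + ‖t‖)⁻¹ := by positivity
  have h3 : 0 ≤ 1 + ‖t‖ := by positivity
  simp only
  rw [Real.norm_of_nonneg h2, ENNReal.toReal_ofNat, Real.inv_rpow h3, Real.rpow_neg h3]

theorem memLp_kernel {c ρ t : ℝ} (hρ : 0 < ρ) (ht : t ∈ ball c ρ) :
    MemLp ((ball c (16 * ρ))ᶜ.indicator fun s : ℝ => ((s : ℂ) - (t : ℂ))⁻¹) 2 volume := by
  refine MemLp.of_le_mul (c := 1 + (1 + |t|) / (15 * ρ)) memLp_one_add' ?_ ?_
  · apply AEStronglyMeasurable.indicator _ measurableSet_ball.compl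
    apply Measurable.aestronglyMeasurable
    fun_prop
  · refine Eventually.of_forall fun s => ?_
    have h2 : 0 ≤ (1 + ‖s‖)⁻¹ := by positivity
    rw [Real.norm_of_nonneg h2]
    by_cases hs : s ∈ ball c (16 * ρ)
    · rw [indicator_of_notMem (by simpa using hs), norm_zero]
      positivity
    · rw [indicator_of_mem (by simpa using hs)]
      rw [mem_ball, Real.dist_eq] at hs ht
      push Not at hs
      have e : (s : ℂ) - (t : ℂ) = ((s - t : ℝ) : ℂ) := by push_cast; ring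
      rw [e, norm_inv, Complex.norm_real, Real.norm_eq_abs, Real.norm_eq_abs]
      have h3 : 15 * ρ ≤ |s - t| := by
        have h4 : |s - c| ≤ |s - t| + |t - c| := abs_sub_le s t c
        linarith
      have h5 : 0 < |s - t| := by linarith
      have h6 : |s| ≤ |s - t| + |t| := by
        have := abs_add_le (s - t) t
        rwa [sub_add_cancel] at this
      rw [← div_eq_mul_inv, le_div_iff₀ (by positivity), inv_mul_le_iff₀ h5]
      have h7 : 1 + |t| ≤ |s - t| * ((1 + |t|) / (15 * ρ)) := by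
        rw [mul_div_assoc', le_div_iff₀ (by positivity), mul_comm]
        gcongr
      have h8 : |s - t| * (1 + (1 + |t|) / (15 * ρ)) =
          |s - t| + |s - t| * ((1 + |t|) / (15 * ρ)) := by ring
      rw [h8]
      linarith

theorem kernel_diff {c ρ t t1 s : ℝ} (hρ : 0 < ρ) (ht : t ∈ ball c ρ) (ht1 : t1 ∈ ball c ρ)
    (hs : s ∉ ball c (16 * ρ)) :
    ‖((s : ℂ) - (t : ℂ))⁻¹ - ((s : ℂ) - (t1 : ℂ))⁻¹‖ ≤ 4 * ρ * (1 / (s - c) ^ 2) := by
  rw [mem_ball, Real.dist_eq] at hs ht ht1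
  push Not at hs
  have h0 : 0 < |s - c| := by linarith
  have h1 : 15 / 16 * |s - c| ≤ |s - t| := by
    have h4 : |s - c| ≤ |s - t| + |t - c| := abs_sub_le s t c
    linarith
  have h2 : 15 / 16 * |s - c| ≤ |s - t1| := by
    have h4 : |s - c| ≤ |s - t1| + |t1 - c| := abs_sub_le s t1 c
    linarith
  have h3 : 0 < |s - t| := by linarith
  have h4 : 0 < |s - t1| := by linarith
  have n1 : s - t ≠ 0 := abs_pos.1 h3
  have n2 : s - t1 ≠ 0 := abs_pos.1 h4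
  have e : ((s : ℂ) - (t : ℂ))⁻¹ - ((s : ℂ) - (t1 : ℂ))⁻¹ =
      (((t - t1) / ((s - t) * (s - t1)) : ℝ) : ℂ) := by
    have m1 : (s : ℂ) - (t : ℂ) ≠ 0 := by exact_mod_cast n1
    have m2 : (s : ℂ) - (t1 : ℂ) ≠ 0 := by exact_mod_cast n2
    push_cast
    field_simp
    ring
  rw [e, Complex.norm_real, Real.norm_eq_abs, abs_div, abs_mul]
  have h5 : |t - t1| ≤ 2 * ρ := by
    have h6 : |t - t1| ≤ |t - c| + |c - t1| := abs_sub_le t c t1
    rw [abs_sub_comm c t1] at h6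
    linarith
  have h6 : (s - c) ^ 2 = |s - c| ^ 2 := (sq_abs _).symm
  have h7 : 1 / 2 * |s - c| ^ 2 ≤ |s - t| * |s - t1| := by
    calc 1 / 2 * |s - c| ^ 2 ≤ (15 / 16 * |s - c|) * (15 / 16 * |s - c|) := by nlinarith
      _ ≤ |s - t| * |s - t1| := by gcongr
  rw [h6, mul_one_div, div_le_div_iff₀ (by positivity) (by positivity)]
  calc |t - t1| * |s - c| ^ 2 ≤ 2 * ρ * |s - c| ^ 2 := by gcongr
    _ = 4 * ρ * (1 / 2 * |s - c| ^ 2) := by ring
    _ ≤ 4 * ρ * (|s - t| * |s - t1|) := by gcongr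

omit [FiniteDimensional ℂ E] in
theorem aesm_apply {A : ℝ → E →L[ℂ] E} (hA : Continuous A) {u : ℝ → E}
    (hu : AEStronglyMeasurable u volume) : AEStronglyMeasurable (fun t => A t (u t)) volume :=
  (ContinuousLinearMap.id ℂ (E →L[ℂ] E)).aestronglyMeasurable_comp₂ hA.aestronglyMeasurable hu

omit [InnerProductSpace ℂ E] [FiniteDimensional ℂ E] in
theorem eLpNorm_two_sq (f : ℝ → E) : eLpNorm f 2 volume ^ 2 = ∫⁻ s, ‖f s‖ₑ ^ 2 := by
  have h := eLpNorm_nnreal_pow_eq_lintegral (f := f) (μ := volume) (p := 2) (by norm_num)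
  simpa using h


theorem sub_ne' {b : ℂ} (hb : b.im ≠ 0) (t : ℝ) : (t : ℂ) - b ≠ 0 := by
  intro h
  have h2 := congrArg Complex.im h
  simp at h2
  exact hb h2

theorem cauchy_bound' {b : ℂ} (hb : b.im ≠ 0) (t : ℝ) :
    ‖((t : ℂ) - b)⁻¹‖ ≤ (1 + (1 + ‖b‖) / |b.im|) * ‖(1 + ‖t‖)⁻¹‖ := by
  have h0 : 0 < |b.im| := abs_pos.2 hb
  have h1 : |b.im| ≤ ‖(t : ℂ) - b‖ := by
    have := Complex.abs_im_le_norm ((t : ℂ) - b)
    simpa using this
  have h2 : ‖t‖ ≤ ‖(t : ℂ) - b‖ + ‖b‖ := by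
    have := norm_add_le ((t : ℂ) - b) b
    rw [sub_add_cancel, Complex.norm_real] at this
    exact this
  have h3 : 0 < ‖(t : ℂ) - b‖ := lt_of_lt_of_le h0 h1
  rw [norm_inv, Real.norm_of_nonneg (by positivity), ← div_eq_mul_inv, le_div_iff₀ (by positivity),
    inv_mul_le_iff₀ h3]
  have h4 : (1 + ‖b‖) ≤ ‖(t : ℂ) - b‖ * ((1 + ‖b‖) / |b.im|) := by
    rw [mul_div_assoc', le_div_iff₀ h0, mul_comm]
    gcongr
  have h5 : ‖(t : ℂ) - b‖ * (1 + (1 + ‖b‖) / |b.im|) =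
      ‖(t : ℂ) - b‖ + ‖(t : ℂ) - b‖ * ((1 + ‖b‖) / |b.im|) := by ring
  rw [h5]
  linarith

theorem memLp_cauchy' {b : ℂ} (hb : b.im ≠ 0) :
    MemLp (fun t : ℝ => ((t : ℂ) - b)⁻¹) 2 volume := by
  have hcont : Continuous fun t : ℝ => ((t : ℂ) - b)⁻¹ :=
    (Complex.continuous_ofReal.sub continuous_const).inv₀ fun t => sub_ne' hb t
  exact MemLp.of_le_mul memLp_one_add' hcont.aestronglyMeasurable
    (Eventually.of_forall fun t => cauchy_bound' hb t)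

omit [InnerProductSpace ℂ E] [FiniteDimensional ℂ E] in
theorem integrable_ker [NormedSpace ℂ E] {k : ℝ → ℂ} (hk : MemLp k 2 volume) {f : ℝ → E}
    (hf : MemLp f 2 volume) : Integrable (fun t : ℝ => k t • f t) volume :=
  memLp_one_iff_integrable.1 (hf.smul hk)

omit [FiniteDimensional ℂ E] in
theorem Hm_sub {f g : ℝ → E} (hf : Hm 2 f) (hg : Hm 2 g) : Hm 2 (fun t => f t - g t) := by
  refine ⟨hf.1.sub hg.1, fun a ha => ?_⟩
  have h1 := integrable_ker (memLp_cauchy' ha.ne') hf.1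
  have h2 := integrable_ker (memLp_cauchy' ha.ne') hg.1
  simp only [smul_sub]
  rw [integral_sub h1 h2, hf.2 a ha, hg.2 a ha, sub_zero]

omit [FiniteDimensional ℂ E] in
theorem Hp_sub {f g : ℝ → E} (hf : Hp 2 f) (hg : Hp 2 g) : Hp 2 (fun t => f t - g t) := by
  refine ⟨hf.1.sub hg.1, fun a ha => ?_⟩
  have h1 := integrable_ker (memLp_cauchy' ha.ne) hf.1
  have h2 := integrable_ker (memLp_cauchy' ha.ne) hg.1
  simp only [smul_sub]
  rw [integral_sub h1 h2, hf.2 a ha, hg.2 a ha, sub_zero]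

theorem comp_comm' {S T : E →L[ℂ] E} (h : S.comp T = 1) : T.comp S = 1 := by
  have h1 : (S : E →ₗ[ℂ] E) * (T : E →ₗ[ℂ] E) = 1 := by
    ext x
    have := congrArg (fun L : E →L[ℂ] E => L x) h
    simpa using this
  have h2 := mul_eq_one_comm.1 h1
  ext x
  have := congrArg (fun L : E →ₗ[ℂ] E => L x) h2
  simpa using this

/-- The local approximation lemma. -/
theorem local_lemma
    (hkernel : ∀ (u v : ℝ → E), Hm 2 u → Hp 2 v → ∀ (c R : ℝ), 0 < R →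
      (∀ᵐ t : ℝ, t ∈ ball c R → u t + v t = 0) →
      ∀ᵐ t : ℝ, t ∈ ball c R → u t = -((2 * (Real.pi : ℂ) * Complex.I)⁻¹ •
        ∫ s : ℝ, ((s : ℂ) - (t : ℂ))⁻¹ • (u s + v s)))
    (hdyadic : ∀ (a b : ℝ → ℝ≥0∞), AEMeasurable a volume → AEMeasurable b volume →
      ∀ (c R : ℝ), 0 < R → ∀ (A B : ℝ), 0 ≤ A → 0 ≤ B →
      (∀ R' : ℝ, R ≤ R' → ∫⁻ s in ball c R', a s ^ 2 ≤ ENNReal.ofReal (A * (2 * R'))) →
      (∀ R' : ℝ, R ≤ R' → ∫⁻ s in ball c R', b s ^ 2 ≤ ENNReal.ofReal (B * (2 * R'))) →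
      ∫⁻ s in (ball c R)ᶜ, a s * b s * ENNReal.ofReal (1 / (s - c) ^ 2)
        ≤ ENNReal.ofReal (16 * Real.sqrt (A * B) / R))
    (K C D : ℝ) (hK : 0 ≤ K) (hC : 0 ≤ C) (hD : 0 ≤ D) :
    ∃ C0 : ℝ, 1 ≤ C0 ∧ ∀ (G A N V N' V' : ℝ → E →L[ℂ] E) (r : ℝ),
      Continuous G → (∃ M : ℝ, ∀ t, ‖G t‖ ≤ M) →
      Continuous A → (∀ t, ContinuousLinearMap.adjoint (A t) = A t) →
      Fac A r C N V N' V' →
      (∀ h : ℝ → E, MemLp h 2 volume → ∃ u v : ℝ → E, Hm 2 u ∧ Hp 2 v ∧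
        (∀ᵐ t : ℝ, A t (u t) + v t = h t) ∧
        eLpNorm u 2 volume ≤ ENNReal.ofReal K * eLpNorm h 2 volume ∧
        eLpNorm v 2 volume ≤ ENNReal.ofReal K * eLpNorm h 2 volume) →
      ∀ (u v : ℝ → E), Hm 2 u → Hp 2 v → ∀ (c ρ l γ δ : ℝ), 0 < ρ → r ≤ ρ → 0 < l →
      0 ≤ γ → γ ≤ 1 → 0 ≤ δ → δ ≤ 1 →
      (∀ t ∈ ball c (16 * ρ), ‖G t - A t‖ ≤ δ) → (∀ t, ‖G t - A t‖ ≤ D) →
      (∀ ρ' : ℝ, ρ ≤ ρ' →
        ∫⁻ s in ball c ρ', (‖u s‖ₑ ^ 2 + ‖v s‖ₑ ^ 2) ≤ ENNReal.ofReal (l * (2 * ρ'))) →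
      (∀ ρ' : ℝ, ρ ≤ ρ' →
        ∫⁻ s in ball c ρ', ‖G s (u s) + v s‖ₑ ^ 2 ≤ ENNReal.ofReal (γ * l * (2 * ρ'))) →
      ∃ X : ℝ → ℝ≥0∞,
        (∫⁻ s in ball c ρ, X s ≤ ENNReal.ofReal (C0 * (γ + δ ^ 2) * l * (2 * ρ))) ∧
        ∀ c' ρ' : ℝ, 0 < ρ' → r ≤ ρ' → ball c' ρ' ⊆ ball c ρ →
          ∫⁻ s in ball c' ρ', (‖u s‖ₑ ^ 2 + ‖v s‖ₑ ^ 2)
            ≤ ENNReal.ofReal (C0 * l * (2 * ρ')) + ∫⁻ s in ball c' ρ', X s := by
  set P : ℝ := 2 + 128 * K ^ 2 with hP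
  set Q : ℝ := 2 + 2 * D ^ 2 with hQ
  set B1 : ℝ := Real.sqrt (C * Q) with hB1
  set B2 : ℝ := C + P with hB2
  set C2 : ℝ := B1 + B2 with hC2
  have hP0 : 0 ≤ P := by positivity
  have hQ0 : 0 ≤ Q := by positivity
  have hB10 : 0 ≤ B1 := Real.sqrt_nonneg _
  have hB20 : 0 ≤ B2 := by positivity
  have hC20 : 0 ≤ C2 := by positivity
  refine ⟨1 + 128 * K ^ 2 + 4 * C * C2 ^ 2, by
    have : 0 ≤ 128 * K ^ 2 + 4 * C * C2 ^ 2 := by positivity
    linarith, ?_⟩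
  intro G A N V N' V' r hG hGb hA hAadj hFac hsolve u v hu hv c ρ l γ δ hρ hrρ hl hγ0 hγ1 hδ0 hδ1
    hGAδ hGAD huv hGuv
  have hum := hu.1
  have hvm := hv.1
  have hu2 : AEMeasurable (fun s => ‖u s‖ₑ ^ 2) volume := hum.1.enorm.pow_const 2
  have hv2 : AEMeasurable (fun s => ‖v s‖ₑ ^ 2) volume := hvm.1.enorm.pow_const 2
  set g1 : ℝ → E := fun t => A t (u t) + v t with hg1
  have hg1m : AEStronglyMeasurable g1 volume := (aesm_apply hA hum.1).add hvm.1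
  have hg1pt : ∀ (s : ℝ) (d : ℝ), 0 ≤ d → ‖G s - A s‖ ≤ d → ‖g1 s‖ₑ ^ 2 ≤
      2 * ‖G s (u s) + v s‖ₑ ^ 2 + 2 * ENNReal.ofReal (d ^ 2) * (‖u s‖ₑ ^ 2 + ‖v s‖ₑ ^ 2) := by
    intro s d hd hd'
    have e : g1 s = (G s (u s) + v s) + -((G s - A s) (u s)) := by
      simp only [hg1, sub_apply]
      abel
    have h1 : ‖(G s - A s) (u s)‖ₑ ≤ ENNReal.ofReal d * ‖u s‖ₑ := by
      have h2 : ‖(G s - A s) (u s)‖ ≤ d * ‖u s‖ :=
        ((G s - A s).le_opNorm (u s)).trans (by gcongr)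
      rw [← ofReal_norm, ← ofReal_norm, ← ENNReal.ofReal_mul hd]
      exact ENNReal.ofReal_le_ofReal h2
    calc ‖g1 s‖ₑ ^ 2 ≤ (‖G s (u s) + v s‖ₑ + ‖(G s - A s) (u s)‖ₑ) ^ 2 := by
          rw [e]
          gcongr
          refine (enorm_add_le _ _).trans ?_
          rw [enorm_neg]
      _ ≤ 2 * ‖G s (u s) + v s‖ₑ ^ 2 + 2 * ‖(G s - A s) (u s)‖ₑ ^ 2 := ennreal_add_sq_le _ _
      _ ≤ 2 * ‖G s (u s) + v s‖ₑ ^ 2 + 2 * (ENNReal.ofReal d * ‖u s‖ₑ) ^ 2 := by gcongr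
      _ = 2 * ‖G s (u s) + v s‖ₑ ^ 2 + 2 * ENNReal.ofReal (d ^ 2) * ‖u s‖ₑ ^ 2 := by
          rw [mul_pow, ENNReal.ofReal_pow hd, mul_assoc]
      _ ≤ _ := by
          gcongr
          exact le_self_add
  have gint : ∀ ρ' : ℝ, ρ ≤ ρ' → ∀ d : ℝ, 0 ≤ d → (∀ s ∈ ball c ρ', ‖G s - A s‖ ≤ d) →
      ∫⁻ s in ball c ρ', ‖g1 s‖ₑ ^ 2 ≤ ENNReal.ofReal (2 * (γ + d ^ 2) * l * (2 * ρ')) := by
    intro ρ' hρ' d hd hd'
    have hρ'0 : 0 < ρ' := lt_of_lt_of_le hρ hρ'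
    calc ∫⁻ s in ball c ρ', ‖g1 s‖ₑ ^ 2 ≤ ∫⁻ s in ball c ρ', (2 * ‖G s (u s) + v s‖ₑ ^ 2 +
          2 * ENNReal.ofReal (d ^ 2) * (‖u s‖ₑ ^ 2 + ‖v s‖ₑ ^ 2)) :=
          setLIntegral_mono' measurableSet_ball fun s hs => hg1pt s d hd (hd' s hs)
      _ = 2 * (∫⁻ s in ball c ρ', ‖G s (u s) + v s‖ₑ ^ 2) + 2 * ENNReal.ofReal (d ^ 2) *
          ∫⁻ s in ball c ρ', (‖u s‖ₑ ^ 2 + ‖v s‖ₑ ^ 2) := by
          have hcm : AEMeasurable (fun s => 2 * ENNReal.ofReal (d ^ 2) * (‖u s‖ₑ ^ 2 + ‖v s‖ₑ ^ 2))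
              (volume.restrict (ball c ρ')) := ((hu2.add hv2).const_mul _).restrict
          rw [lintegral_add_right' _ hcm,
            lintegral_const_mul' _ _ (by simp), lintegral_const_mul' _ _ (by finiteness)]
      _ ≤ 2 * ENNReal.ofReal (γ * l * (2 * ρ')) + 2 * ENNReal.ofReal (d ^ 2) *
          ENNReal.ofReal (l * (2 * ρ')) := by
          gcongr
          · exact hGuv ρ' hρ'
          · exact huv ρ' hρ'
      _ = _ := by
          have e2 : (2 : ℝ≥0∞) = ENNReal.ofReal 2 := by simp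
          rw [e2, ← ENNReal.ofReal_mul (by norm_num), ← ENNReal.ofReal_mul (by norm_num),
            ← ENNReal.ofReal_mul (by positivity), ← ENNReal.ofReal_add (by positivity)
            (by positivity)]
          congr 1
          ring
  -- the local solution
  have hmb : MeasurableSet (ball c (16 * ρ)) := measurableSet_ball
  set h : ℝ → E := (ball c (16 * ρ)).indicator g1 with hh
  have hh2 : ∫⁻ s, ‖h s‖ₑ ^ 2 ≤ ENNReal.ofReal (64 * (γ + δ ^ 2) * l * ρ) := by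
    have e : ∀ s, ‖h s‖ₑ ^ 2 = (ball c (16 * ρ)).indicator (fun s => ‖g1 s‖ₑ ^ 2) s := by
      intro s
      by_cases hs : s ∈ ball c (16 * ρ)
      · rw [hh, indicator_of_mem hs, indicator_of_mem hs]
      · rw [hh, indicator_of_notMem hs, indicator_of_notMem hs, enorm_zero, zero_pow two_ne_zero]
    simp only [e]
    rw [lintegral_indicator hmb]
    refine (gint (16 * ρ) (by linarith) δ hδ0 hGAδ).trans (le_of_eq ?_)
    congr 1
    ring
  have hhm : MemLp h 2 volume := by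
    refine ⟨hg1m.indicator hmb, ?_⟩
    by_contra hcon
    rw [not_lt, top_le_iff] at hcon
    have h1 := eLpNorm_two_sq h
    rw [hcon] at h1
    rw [← h1] at hh2
    simp at hh2
  obtain ⟨z, zp, hz, hzp, hzeq, hzn, hzpn⟩ := hsolve h hhm
  have hzm := hz.1
  have hzpm := hzp.1
  have hz2m : AEMeasurable (fun s => ‖z s‖ₑ ^ 2) volume := hzm.1.enorm.pow_const 2
  have hzp2m : AEMeasurable (fun s => ‖zp s‖ₑ ^ 2) volume := hzpm.1.enorm.pow_const 2
  have hzbd : ∀ y : ℝ → E, eLpNorm y 2 volume ≤ ENNReal.ofReal K * eLpNorm h 2 volume →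
      ∫⁻ s, ‖y s‖ₑ ^ 2 ≤ ENNReal.ofReal (64 * K ^ 2 * (γ + δ ^ 2) * l * ρ) := by
    intro y hy
    rw [← eLpNorm_two_sq]
    calc eLpNorm y 2 volume ^ 2 ≤ (ENNReal.ofReal K * eLpNorm h 2 volume) ^ 2 := by gcongr
      _ = ENNReal.ofReal (K ^ 2) * ∫⁻ s, ‖h s‖ₑ ^ 2 := by
          rw [mul_pow, eLpNorm_two_sq, ENNReal.ofReal_pow hK]
      _ ≤ ENNReal.ofReal (K ^ 2) * ENNReal.ofReal (64 * (γ + δ ^ 2) * l * ρ) := by gcongr
      _ = _ := by
          rw [← ENNReal.ofReal_mul (by positivity)]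
          congr 1
          ring
  have hzi := hzbd z hzn
  have hzpi := hzbd zp hzpn
  set w : ℝ → E := fun s => u s - z s with hw
  set wp : ℝ → E := fun s => v s - zp s with hwp
  have hwH : Hm 2 w := Hm_sub hu hz
  have hwpH : Hp 2 wp := Hp_sub hv hzp
  set F : ℝ → E := fun s => ContinuousLinearMap.adjoint (V' s) (w s) with hF
  set Fp : ℝ → E := fun s => ContinuousLinearMap.adjoint (N' s) (wp s) with hFp
  have hFH : Hm 2 F := hFac.mulm w hwH
  have hFpH : Hp 2 Fp := hFac.mulp wp hwpH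
  have hsum : ∀ᵐ s : ℝ, F s + Fp s = ContinuousLinearMap.adjoint (N' s) (g1 s - h s) := by
    filter_upwards [hzeq] with s hs
    have e1 : ContinuousLinearMap.adjoint (V' s) (w s) =
        ContinuousLinearMap.adjoint (N' s) (A s (w s)) := by
      rw [hFac.hV' s, ContinuousLinearMap.adjoint_comp, hAadj s]
      rfl
    simp only [hF, hFp]
    rw [e1, ← map_add, ← hs]
    congr 1
    simp only [hw, hwp, hg1, map_sub]
    abel
  have hzero : ∀ᵐ s : ℝ, s ∈ ball c (16 * ρ) → F s + Fp s = 0 := by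
    filter_upwards [hsum] with s hs hsb
    rw [hs, hh, indicator_of_mem hsb, sub_self, map_zero]
  have hker := hkernel F Fp hFH hFpH c (16 * ρ) (by positivity) hzero
  set H : ℝ → E := fun s => F s + Fp s with hH
  have hHm : MemLp H 2 volume := hFH.1.add hFpH.1
  have hHenorm : ∀ᵐ s : ℝ, ‖H s‖ₑ ≤ (ball c (16 * ρ))ᶜ.indicator
      (fun s => ‖N' s‖ₑ * ‖g1 s‖ₑ) s := by
    filter_upwards [hsum] with s hs
    by_cases hsb : s ∈ ball c (16 * ρ)
    · simp only [hH]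
      rw [hs, hh, indicator_of_mem hsb, sub_self, map_zero, enorm_zero]
      exact zero_le
    · simp only [hH]
      rw [hs, hh, indicator_of_notMem hsb, sub_zero, indicator_of_mem (by simpa using hsb)]
      refine (ContinuousLinearMap.le_opENorm _ _).trans (le_of_eq ?_)
      congr 1
      rw [← ofReal_norm, ← ofReal_norm, LinearIsometryEquiv.norm_map]
  have hinte : ∀ t ∈ ball c ρ, Integrable (fun s : ℝ => ((s : ℂ) - (t : ℂ))⁻¹ • H s) volume := by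
    intro t ht
    refine (integrable_ker (memLp_kernel hρ ht) hHm).congr ?_
    filter_upwards [hzero] with s hs
    by_cases hsb : s ∈ ball c (16 * ρ)
    · have : H s = 0 := hs hsb
      rw [this, smul_zero, smul_zero]
    · rw [indicator_of_mem (by simpa using hsb)]
  have hQdy : ∫⁻ s in (ball c (16 * ρ))ᶜ, ‖N' s‖ₑ * ‖g1 s‖ₑ * ENNReal.ofReal (1 / (s - c) ^ 2)
      ≤ ENNReal.ofReal (16 * Real.sqrt (C * (Q * l)) / (16 * ρ)) := by
    refine hdyadic (fun s => ‖N' s‖ₑ) (fun s => ‖g1 s‖ₑ)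
      hFac.contN'.enorm.measurable.aemeasurable hg1m.enorm c (16 * ρ) (by positivity) C (Q * l)
      hC (by positivity) ?_ ?_
    · intro R' hR'
      exact hFac.msN' c R' (by linarith) (by linarith)
    · intro R' hR'
      refine (gint R' (by linarith) D hD (fun s _ => hGAD s)).trans (ENNReal.ofReal_le_ofReal ?_)
      have hR'0 : 0 < R' := by linarith
      have h1 : 2 * (γ + D ^ 2) ≤ Q := by rw [hQ]; linarith
      gcongr
  have hq0 : 0 < Real.sqrt l := Real.sqrt_pos.2 hl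
  have hqq : Real.sqrt l * Real.sqrt l = l := Real.mul_self_sqrt hl.le
  have hdiff : ∀ t ∈ ball c ρ, ∀ t1 ∈ ball c ρ,
      F t = -((2 * (Real.pi : ℂ) * Complex.I)⁻¹ • ∫ s : ℝ, ((s : ℂ) - (t : ℂ))⁻¹ • H s) →
      F t1 = -((2 * (Real.pi : ℂ) * Complex.I)⁻¹ • ∫ s : ℝ, ((s : ℂ) - (t1 : ℂ))⁻¹ • H s) →
      ‖F t - F t1‖ₑ ≤ ENNReal.ofReal (B1 * Real.sqrt l) := by
    intro t ht t1 ht1 e1 e2
    have e3 : F t - F t1 = -((2 * (Real.pi : ℂ) * Complex.I)⁻¹ •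
        ∫ s : ℝ, (((s : ℂ) - (t : ℂ))⁻¹ - ((s : ℂ) - (t1 : ℂ))⁻¹) • H s) := by
      simp only [sub_smul]
      rw [integral_sub (hinte t ht) (hinte t1 ht1), e1, e2, smul_sub]
      abel
    rw [e3, enorm_neg, enorm_smul]
    have h1 : ‖(2 * (Real.pi : ℂ) * Complex.I)⁻¹‖ₑ ≤ ENNReal.ofReal (1 / 4) := by
      rw [← ofReal_norm]
      apply ENNReal.ofReal_le_ofReal
      rw [norm_inv, norm_mul, norm_mul, Complex.norm_I, mul_one, Complex.norm_real,
        Real.norm_of_nonneg Real.pi_pos.le, Complex.norm_ofNat, one_div]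
      apply inv_anti₀ (by norm_num)
      have := Real.pi_gt_three
      linarith
    have h2 : ‖∫ s : ℝ, (((s : ℂ) - (t : ℂ))⁻¹ - ((s : ℂ) - (t1 : ℂ))⁻¹) • H s‖ₑ ≤
        ENNReal.ofReal (4 * ρ) * ENNReal.ofReal (16 * Real.sqrt (C * (Q * l)) / (16 * ρ)) := by
      refine (enorm_integral_le_lintegral_enorm _).trans ?_
      calc ∫⁻ s : ℝ, ‖(((s : ℂ) - (t : ℂ))⁻¹ - ((s : ℂ) - (t1 : ℂ))⁻¹) • H s‖ₑ
          ≤ ∫⁻ s : ℝ, (ball c (16 * ρ))ᶜ.indicator (fun s => ENNReal.ofReal (4 * ρ) *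
            (‖N' s‖ₑ * ‖g1 s‖ₑ * ENNReal.ofReal (1 / (s - c) ^ 2))) s := by
            apply lintegral_mono_ae
            filter_upwards [hHenorm] with s hs
            rw [enorm_smul]
            by_cases hsb : s ∈ ball c (16 * ρ)
            · rw [indicator_of_notMem (by simpa using hsb)] at hs
              have : ‖H s‖ₑ = 0 := le_antisymm hs zero_le
              rw [this, mul_zero]
              exact zero_le
            · rw [indicator_of_mem (by simpa using hsb)] at hs ⊢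
              have h3 : ‖((s : ℂ) - (t : ℂ))⁻¹ - ((s : ℂ) - (t1 : ℂ))⁻¹‖ₑ ≤
                  ENNReal.ofReal (4 * ρ) * ENNReal.ofReal (1 / (s - c) ^ 2) := by
                rw [← ofReal_norm, ← ENNReal.ofReal_mul (by positivity)]
                exact ENNReal.ofReal_le_ofReal (kernel_diff hρ ht ht1 hsb)
              calc _ ≤ (ENNReal.ofReal (4 * ρ) * ENNReal.ofReal (1 / (s - c) ^ 2)) *
                    (‖N' s‖ₑ * ‖g1 s‖ₑ) := by gcongr
                _ = _ := by ring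
        _ = ENNReal.ofReal (4 * ρ) * ∫⁻ s in (ball c (16 * ρ))ᶜ,
            ‖N' s‖ₑ * ‖g1 s‖ₑ * ENNReal.ofReal (1 / (s - c) ^ 2) := by
            rw [lintegral_indicator hmb.compl, lintegral_const_mul' _ _ ENNReal.ofReal_ne_top]
        _ ≤ _ := by gcongr
    calc _ ≤ ENNReal.ofReal (1 / 4) * (ENNReal.ofReal (4 * ρ) *
          ENNReal.ofReal (16 * Real.sqrt (C * (Q * l)) / (16 * ρ))) := by gcongr
      _ = ENNReal.ofReal (B1 * Real.sqrt l) := by
          rw [← ENNReal.ofReal_mul (by positivity), ← ENNReal.ofReal_mul (by positivity)]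
          congr 1
          rw [hB1, ← Real.sqrt_mul (by positivity), mul_assoc C Q l]
          field_simp
  -- the average of `F`
  have hvol : volume (ball c ρ) = ENNReal.ofReal (2 * ρ) := Real.volume_ball c ρ
  have havg : ∫⁻ s in ball c ρ, ‖F s‖ₑ ≤ ENNReal.ofReal (B2 * Real.sqrt l * (2 * ρ)) := by
    have hw2 : ∫⁻ s in ball c ρ, ‖w s‖ₑ ^ 2 ≤ ENNReal.ofReal (P * l * (2 * ρ)) := by
      calc ∫⁻ s in ball c ρ, ‖w s‖ₑ ^ 2 ≤ ∫⁻ s in ball c ρ, (2 * ‖u s‖ₑ ^ 2 + 2 * ‖z s‖ₑ ^ 2) := by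
            apply lintegral_mono
            intro s
            refine le_trans ?_ (ennreal_add_sq_le _ _)
            simp only [hw]
            gcongr
            exact enorm_sub_le
        _ = 2 * (∫⁻ s in ball c ρ, ‖u s‖ₑ ^ 2) + 2 * ∫⁻ s in ball c ρ, ‖z s‖ₑ ^ 2 := by
            rw [lintegral_add_right' _ (hz2m.const_mul _).restrict,
              lintegral_const_mul' _ _ (by simp), lintegral_const_mul' _ _ (by simp)]
        _ ≤ 2 * ENNReal.ofReal (l * (2 * ρ)) +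
            2 * ENNReal.ofReal (64 * K ^ 2 * (γ + δ ^ 2) * l * ρ) := by
            gcongr
            · refine le_trans (lintegral_mono fun s => ?_) (huv ρ le_rfl)
              exact le_self_add
            · exact (setLIntegral_le_lintegral _ _).trans hzi
        _ ≤ _ := by
            have e2 : (2 : ℝ≥0∞) = ENNReal.ofReal 2 := by simp
            rw [e2, ← ENNReal.ofReal_mul (by norm_num), ← ENNReal.ofReal_mul (by norm_num),
              ← ENNReal.ofReal_add (by positivity) (by positivity)]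
            apply ENNReal.ofReal_le_ofReal
            have h1 : γ + δ ^ 2 ≤ 2 := by nlinarith
            have h2 : 64 * K ^ 2 * (γ + δ ^ 2) * l * ρ ≤ 64 * K ^ 2 * 2 * l * ρ := by gcongr
            rw [hP]
            nlinarith
    calc ∫⁻ s in ball c ρ, ‖F s‖ₑ ≤ ∫⁻ s in ball c ρ, (ENNReal.ofReal (Real.sqrt l) * ‖V' s‖ₑ ^ 2 +
          ENNReal.ofReal (Real.sqrt l)⁻¹ * ‖w s‖ₑ ^ 2) := by
          apply lintegral_mono
          intro s
          refine le_trans ?_ (ennreal_amgm _ _ hq0)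
          refine (ContinuousLinearMap.le_opENorm _ _).trans (le_of_eq ?_)
          congr 1
          rw [← ofReal_norm, ← ofReal_norm, LinearIsometryEquiv.norm_map]
      _ = ENNReal.ofReal (Real.sqrt l) * (∫⁻ s in ball c ρ, ‖V' s‖ₑ ^ 2) +
          ENNReal.ofReal (Real.sqrt l)⁻¹ * ∫⁻ s in ball c ρ, ‖w s‖ₑ ^ 2 := by
          rw [lintegral_add_left (by
            exact (hFac.contV'.enorm.measurable.pow_const 2).const_mul _),
            lintegral_const_mul' _ _ ENNReal.ofReal_ne_top,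
            lintegral_const_mul' _ _ ENNReal.ofReal_ne_top]
      _ ≤ ENNReal.ofReal (Real.sqrt l) * ENNReal.ofReal (C * (2 * ρ)) +
          ENNReal.ofReal (Real.sqrt l)⁻¹ * ENNReal.ofReal (P * l * (2 * ρ)) := by
          gcongr
          exact hFac.msV' c ρ hρ hrρ
      _ = _ := by
          rw [← ENNReal.ofReal_mul (by positivity), ← ENNReal.ofReal_mul (by positivity),
            ← ENNReal.ofReal_add (by positivity) (by positivity)]
          congr 1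
          have e5 : (Real.sqrt l)⁻¹ * (P * l * (2 * ρ)) = Real.sqrt l * (P * (2 * ρ)) := by
            rw [inv_mul_eq_iff_eq_mul₀ hq0.ne']
            calc P * l * (2 * ρ) = P * (Real.sqrt l * Real.sqrt l) * (2 * ρ) := by rw [hqq]
              _ = _ := by ring
          rw [e5, hB2]
          ring
  have hFbd : ∀ᵐ t : ℝ, t ∈ ball c ρ → ‖F t‖ₑ ≤ ENNReal.ofReal (C2 * Real.sqrt l) := by
    have hsub : ball c ρ ⊆ ball c (16 * ρ) := ball_subset_ball (by linarith)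
    filter_upwards [hker] with t ht htb
    have h0 : ENNReal.ofReal (2 * ρ) ≠ 0 := by
      rw [ENNReal.ofReal_ne_zero_iff]; positivity
    have h1 : ENNReal.ofReal (2 * ρ) * ‖F t‖ₑ ≤
        ENNReal.ofReal (2 * ρ) * ENNReal.ofReal (C2 * Real.sqrt l) := by
      calc ENNReal.ofReal (2 * ρ) * ‖F t‖ₑ = ∫⁻ _ in ball c ρ, ‖F t‖ₑ := by
            rw [setLIntegral_const, hvol, mul_comm]
        _ ≤ ∫⁻ t1 in ball c ρ, (‖F t1‖ₑ + ENNReal.ofReal (B1 * Real.sqrt l)) := by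
            apply lintegral_mono_ae
            rw [ae_restrict_iff' measurableSet_ball]
            filter_upwards [hker] with t1 ht1 ht1b
            have h2 := hdiff t htb t1 ht1b (ht (hsub htb)) (ht1 (hsub ht1b))
            have h3 : ‖F t‖ₑ ≤ ‖F t1‖ₑ + ‖F t - F t1‖ₑ := by
              have h4 := enorm_add_le (F t1) (F t - F t1)
              rwa [add_sub_cancel] at h4
            exact h3.trans (by gcongr)
        _ = (∫⁻ t1 in ball c ρ, ‖F t1‖ₑ) + ENNReal.ofReal (B1 * Real.sqrt l) *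
            ENNReal.ofReal (2 * ρ) := by
            rw [lintegral_add_right _ measurable_const, setLIntegral_const, hvol]
        _ ≤ ENNReal.ofReal (B2 * Real.sqrt l * (2 * ρ)) + ENNReal.ofReal (B1 * Real.sqrt l) *
            ENNReal.ofReal (2 * ρ) := by gcongr
        _ = _ := by
            rw [← ENNReal.ofReal_mul (by positivity), ← ENNReal.ofReal_mul (by positivity),
              ← ENNReal.ofReal_add (by positivity) (by positivity), hC2]
            congr 1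
            ring
    exact (ENNReal.mul_le_mul_iff_right h0 ENNReal.ofReal_ne_top).1 h1
  -- back to `w` and `wp`
  have hNV : ∀ s, (N s).comp (ContinuousLinearMap.adjoint (V' s)) = 1 := by
    intro s
    apply comp_comm'
    have h1 := congrArg ContinuousLinearMap.adjoint (hFac.id1 s)
    rw [ContinuousLinearMap.adjoint_comp, ContinuousLinearMap.adjoint_adjoint] at h1
    rw [h1]
    exact ContinuousLinearMap.adjoint_id
  have hVN : ∀ s, (V s).comp (ContinuousLinearMap.adjoint (N' s)) = 1 := by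
    intro s
    apply comp_comm'
    have h1 := congrArg ContinuousLinearMap.adjoint (hFac.id2 s)
    rw [ContinuousLinearMap.adjoint_comp, ContinuousLinearMap.adjoint_adjoint] at h1
    rw [h1]
    exact ContinuousLinearMap.adjoint_id
  have hwbd : ∀ᵐ s : ℝ, s ∈ ball c ρ → ‖w s‖ₑ ≤ ‖N s‖ₑ * ENNReal.ofReal (C2 * Real.sqrt l) ∧
      ‖wp s‖ₑ ≤ ‖V s‖ₑ * ENNReal.ofReal (C2 * Real.sqrt l) := by
    have hsub : ball c ρ ⊆ ball c (16 * ρ) := ball_subset_ball (by linarith)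
    filter_upwards [hFbd, hzero] with s h1 h2 hs
    have h3 := h1 hs
    have h4 := h2 (hsub hs)
    constructor
    · have e1 : w s = N s (F s) := by
        have := congrArg (fun L : E →L[ℂ] E => L (w s)) (hNV s)
        exact this.symm
      rw [e1]
      exact (ContinuousLinearMap.le_opENorm _ _).trans (by gcongr)
    · have e1 : wp s = V s (Fp s) := by
        have := congrArg (fun L : E →L[ℂ] E => L (wp s)) (hVN s)
        exact this.symm
      have e2 : Fp s = -F s := by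
        rw [eq_neg_iff_add_eq_zero, add_comm]; exact h4
      rw [e1, e2]
      refine (ContinuousLinearMap.le_opENorm _ _).trans ?_
      rw [enorm_neg]
      gcongr
  have hK2 : 0 ≤ 4 * C * C2 ^ 2 := by positivity
  refine ⟨fun s => 2 * (‖z s‖ₑ ^ 2 + ‖zp s‖ₑ ^ 2), ?_, ?_⟩
  · calc ∫⁻ s in ball c ρ, 2 * (‖z s‖ₑ ^ 2 + ‖zp s‖ₑ ^ 2)
        ≤ ∫⁻ s, 2 * (‖z s‖ₑ ^ 2 + ‖zp s‖ₑ ^ 2) := setLIntegral_le_lintegral _ _
      _ = 2 * ((∫⁻ s, ‖z s‖ₑ ^ 2) + ∫⁻ s, ‖zp s‖ₑ ^ 2) := by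
          rw [lintegral_const_mul' _ _ (by simp), lintegral_add_right' _ hzp2m]
      _ ≤ 2 * (ENNReal.ofReal (64 * K ^ 2 * (γ + δ ^ 2) * l * ρ) +
          ENNReal.ofReal (64 * K ^ 2 * (γ + δ ^ 2) * l * ρ)) := by gcongr
      _ ≤ _ := by
          have e2 : (2 : ℝ≥0∞) = ENNReal.ofReal 2 := by simp
          rw [← ENNReal.ofReal_add (by positivity) (by positivity), e2,
            ← ENNReal.ofReal_mul (by norm_num)]
          apply ENNReal.ofReal_le_ofReal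
          have h1 : 0 ≤ (γ + δ ^ 2) * l * (2 * ρ) := by positivity
          have h2 : 0 ≤ (1 + 4 * C * C2 ^ 2) * ((γ + δ ^ 2) * l * (2 * ρ)) := by positivity
          nlinarith
  · intro c' ρ' hρ' hrρ' hsub'
    have hpt : ∀ᵐ s : ℝ, s ∈ ball c' ρ' → ‖u s‖ₑ ^ 2 + ‖v s‖ₑ ^ 2 ≤
        2 * ENNReal.ofReal (C2 ^ 2 * l) * (‖N s‖ₑ ^ 2 + ‖V s‖ₑ ^ 2) +
          2 * (‖z s‖ₑ ^ 2 + ‖zp s‖ₑ ^ 2) := by
      filter_upwards [hwbd] with s hs hsb
      obtain ⟨h1, h2⟩ := hs (hsub' hsb)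
      have h3 : ENNReal.ofReal (C2 * Real.sqrt l) ^ 2 = ENNReal.ofReal (C2 ^ 2 * l) := by
        rw [← ENNReal.ofReal_pow (by positivity), mul_pow, Real.sq_sqrt hl.le]
      have h4 : ‖u s‖ₑ ^ 2 ≤ 2 * (‖N s‖ₑ ^ 2 * ENNReal.ofReal (C2 ^ 2 * l)) + 2 * ‖z s‖ₑ ^ 2 := by
        have e : u s = w s + z s := by simp only [hw]; abel
        calc ‖u s‖ₑ ^ 2 ≤ (‖w s‖ₑ + ‖z s‖ₑ) ^ 2 := by
              rw [e]; gcongr; exact enorm_add_le _ _
          _ ≤ 2 * ‖w s‖ₑ ^ 2 + 2 * ‖z s‖ₑ ^ 2 := ennreal_add_sq_le _ _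
          _ ≤ 2 * (‖N s‖ₑ * ENNReal.ofReal (C2 * Real.sqrt l)) ^ 2 + 2 * ‖z s‖ₑ ^ 2 := by gcongr
          _ = _ := by rw [mul_pow, h3]
      have h5 : ‖v s‖ₑ ^ 2 ≤ 2 * (‖V s‖ₑ ^ 2 * ENNReal.ofReal (C2 ^ 2 * l)) + 2 * ‖zp s‖ₑ ^ 2 := by
        have e : v s = wp s + zp s := by simp only [hwp]; abel
        calc ‖v s‖ₑ ^ 2 ≤ (‖wp s‖ₑ + ‖zp s‖ₑ) ^ 2 := by
              rw [e]; gcongr; exact enorm_add_le _ _
          _ ≤ 2 * ‖wp s‖ₑ ^ 2 + 2 * ‖zp s‖ₑ ^ 2 := ennreal_add_sq_le _ _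
          _ ≤ 2 * (‖V s‖ₑ * ENNReal.ofReal (C2 * Real.sqrt l)) ^ 2 + 2 * ‖zp s‖ₑ ^ 2 := by gcongr
          _ = _ := by rw [mul_pow, h3]
      calc _ ≤ _ := add_le_add h4 h5
        _ = _ := by ring
    calc ∫⁻ s in ball c' ρ', (‖u s‖ₑ ^ 2 + ‖v s‖ₑ ^ 2)
        ≤ ∫⁻ s in ball c' ρ', (2 * ENNReal.ofReal (C2 ^ 2 * l) * (‖N s‖ₑ ^ 2 + ‖V s‖ₑ ^ 2) +
          2 * (‖z s‖ₑ ^ 2 + ‖zp s‖ₑ ^ 2)) :=
          lintegral_mono_ae ((ae_restrict_iff' measurableSet_ball).2 hpt)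
      _ = 2 * ENNReal.ofReal (C2 ^ 2 * l) * ((∫⁻ s in ball c' ρ', ‖N s‖ₑ ^ 2) +
          ∫⁻ s in ball c' ρ', ‖V s‖ₑ ^ 2) +
          ∫⁻ s in ball c' ρ', 2 * (‖z s‖ₑ ^ 2 + ‖zp s‖ₑ ^ 2) := by
          have hcm : AEMeasurable (fun s => 2 * (‖z s‖ₑ ^ 2 + ‖zp s‖ₑ ^ 2))
              (volume.restrict (ball c' ρ')) := ((hz2m.add hzp2m).const_mul _).restrict
          rw [lintegral_add_right' _ hcm,
            lintegral_const_mul' _ _ (by finiteness),
            lintegral_add_right _ (hFac.contV.enorm.measurable.pow_const 2)]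
      _ ≤ 2 * ENNReal.ofReal (C2 ^ 2 * l) * (ENNReal.ofReal (C * (2 * ρ')) +
          ENNReal.ofReal (C * (2 * ρ'))) +
          ∫⁻ s in ball c' ρ', 2 * (‖z s‖ₑ ^ 2 + ‖zp s‖ₑ ^ 2) := by
          gcongr
          · exact hFac.msN c' ρ' hρ' hrρ'
          · exact hFac.msV c' ρ' hρ' hrρ'
      _ ≤ _ := by
          gcongr
          have e2 : (2 : ℝ≥0∞) = ENNReal.ofReal 2 := by simp
          rw [← ENNReal.ofReal_add (by positivity) (by positivity), e2,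
            ← ENNReal.ofReal_mul (by norm_num), ← ENNReal.ofReal_mul (by positivity)]
          apply ENNReal.ofReal_le_ofReal
          have h1 : 0 ≤ (1 + 128 * K ^ 2) * (l * (2 * ρ')) := by positivity
          nlinarith

end C2
end Pool.Agent.Helper865.TAP
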