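import Pool.Agent.Helper865.TAP.Defs


set_option autoImplicit false

open MeasureTheory Filter Topology Set Metric
open scoped ENNReal NNReal

namespace Pool.Agent.Helper865.TAP
namespace C4



variable {E : Type*} [NormedAddCommGroup E] [InnerProductSpace ℂ E] [FiniteDimensional ℂ E]

omit [FiniteDimensional ℂ E] in
lemma integrable_inner_of_memLp {f g : ℝ → E} (hf : MemLp f 2 volume) (hg : MemLp g 2 volume) :
    Integrable (fun t => (inner ℂ (f t) (g t) : ℂ)) volume := by
  have h1 : Integrable (fun t => ‖f t‖ * ‖g t‖) volume := hf.norm.integrable_mul hg.norm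
  refine h1.mono' (hf.1.inner hg.1) (Eventually.of_forall fun t => ?_)
  exact norm_inner_le_norm _ _

omit [FiniteDimensional ℂ E] in
lemma enorm_integral_inner_le {p q : ℝ} (hp : 1 < p) (hpq : p.HolderConjugate q) {f g : ℝ → E}
    (hf : AEStronglyMeasurable f volume) (hg : AEStronglyMeasurable g volume) :
    ‖∫ t, (inner ℂ (f t) (g t) : ℂ)‖ₑ ≤ eLpNorm f (ENNReal.ofReal q) volume
      * eLpNorm g (ENNReal.ofReal p) volume := by
  have hp0 : 0 < p := hpq.pos
  have hq0 : 0 < q := hpq.symm.pos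
  calc ‖∫ t, (inner ℂ (f t) (g t) : ℂ)‖ₑ ≤ ∫⁻ t, ‖(inner ℂ (f t) (g t) : ℂ)‖ₑ :=
        enorm_integral_le_lintegral_enorm _
    _ ≤ ∫⁻ t, ((fun t => ‖f t‖ₑ) * (fun t => ‖g t‖ₑ)) t := by
        refine lintegral_mono fun t => ?_
        have h1 : ‖(inner ℂ (f t) (g t) : ℂ)‖ ≤ ‖f t‖ * ‖g t‖ := norm_inner_le_norm _ _
        have h2 := ENNReal.ofReal_le_ofReal h1
        rw [ENNReal.ofReal_mul (norm_nonneg _), ofReal_norm, ofReal_norm, ofReal_norm] at h2
        exact h2
    _ ≤ (∫⁻ t, ‖f t‖ₑ ^ q) ^ (1 / q) * (∫⁻ t, ‖g t‖ₑ ^ p) ^ (1 / p) :=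
        ENNReal.lintegral_mul_le_Lp_mul_Lq volume hpq.symm hf.enorm hg.enorm
    _ = _ := by
        rw [eLpNorm_eq_lintegral_rpow_enorm_toReal (by simpa using hq0) ENNReal.ofReal_ne_top,
          eLpNorm_eq_lintegral_rpow_enorm_toReal (by simpa using hp0) ENNReal.ofReal_ne_top,
          ENNReal.toReal_ofReal hq0.le, ENNReal.toReal_ofReal hp0.le]

/-- Duality: the `L^q` bound for a self-adjoint invertible symbol gives the `L^p` bound. -/
theorem thmB_dual
    {p q : ℝ} (hp : 1 < p) (hpq : p.HolderConjugate q)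
    (hconv : ∀ (u : ℝ → E), LocallyIntegrable u volume → ∀ (C : ℝ), 0 ≤ C →
      (∀ g : ℝ → E, AEStronglyMeasurable g volume → (∃ B : ℝ, ∀ t, ‖g t‖ ≤ B) →
        (∃ R : ℝ, ∀ t, R < |t| → g t = 0) →
        ‖∫ t, inner ℂ (g t) (u t)‖ ≤ C * (eLpNorm g (ENNReal.ofReal q) volume).toReal) →
      eLpNorm u (ENNReal.ofReal p) volume ≤ ENNReal.ofReal C)
    (horth : ∀ u v : ℝ → E, Hm 2 u → Hp 2 v → ∫ t : ℝ, inner ℂ (u t) (v t) = 0)
    {G : ℝ → E →L[ℂ] E} (hG : Continuous G) {M : ℝ} (hM : ∀ t, ‖G t‖ ≤ M)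
    (hsa : ∀ t, ContinuousLinearMap.adjoint (G t) = G t)
    (hsolve : ∀ h : ℝ → E, MemLp h 2 volume → ∃ a b : ℝ → E, Hm 2 a ∧ Hp 2 b ∧
      ∀ᵐ t : ℝ, G t (a t) + b t = h t)
    {C : ℝ} (hC : 0 < C)
    (hgt : ∀ a b : ℝ → E, Hm 2 a → Hp 2 b → eLpNorm a (ENNReal.ofReal q) volume
      ≤ ENNReal.ofReal C * eLpNorm (fun t => G t (a t) + b t) (ENNReal.ofReal q) volume)
    {u v : ℝ → E} (hu : Hm 2 u) (hv : Hp 2 v) :
    eLpNorm u (ENNReal.ofReal p) volume
      ≤ ENNReal.ofReal C * eLpNorm (fun t => G t (u t) + v t) (ENNReal.ofReal p) volume := by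
  set F : ℝ → E := fun t => G t (u t) + v t with hF
  have hq0 : 0 < q := hpq.symm.pos
  -- multiplication by G
  have hGm : ∀ f : ℝ → E, MemLp f 2 volume → MemLp (fun t => G t (f t)) 2 volume := by
    intro f hf
    have hm : AEStronglyMeasurable (fun t => G t (f t)) volume := by
      have hc : Continuous (fun x : (E →L[ℂ] E) × E => x.1 x.2) := by fun_prop
      exact hc.comp_aestronglyMeasurable (hG.aestronglyMeasurable.prodMk hf.1)
    refine MemLp.of_le_mul (c := M) hf hm (Eventually.of_forall fun t => ?_)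
    exact ((G t).le_opNorm (f t)).trans (mul_le_mul_of_nonneg_right (hM t) (norm_nonneg _))
  have hFm : MemLp F 2 volume := (hGm u hu.1).add hv.1
  by_cases htop : eLpNorm F (ENNReal.ofReal p) volume = ⊤
  · rw [htop, ENNReal.mul_top (by simpa using hC)]
    exact le_top
  set N : ℝ := (eLpNorm F (ENNReal.ofReal p) volume).toReal with hN
  have hN0 : 0 ≤ N := ENNReal.toReal_nonneg
  have hloc : LocallyIntegrable u volume := hu.1.locallyIntegrable (by norm_num)
  have key := hconv u hloc (C * N) (by positivity) ?_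
  · rw [ENNReal.ofReal_mul hC.le, hN, ENNReal.ofReal_toReal htop] at key
    exact key
  rintro g hgm ⟨B, hB⟩ ⟨R, hR⟩
  -- g is in every L^r
  have hgLp : ∀ r : ℝ≥0∞, MemLp g r volume := by
    intro r
    have hind : g = (Icc (-R) R).indicator g := by
      funext t
      by_cases ht : t ∈ Icc (-R) R
      · rw [indicator_of_mem ht]
      · rw [indicator_of_notMem ht]
        apply hR
        by_contra hc
        push Not at hc
        exact ht (abs_le.mp hc)
    rw [hind]
    refine (memLp_indicator_iff_restrict measurableSet_Icc).mpr ?_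
    exact MemLp.of_bound hgm.restrict B (Eventually.of_forall hB)
  obtain ⟨a, b, ha, hb, hab⟩ := hsolve g (hgLp 2)
  -- the identity
  have h1 : ∫ t, (inner ℂ (g t) (u t) : ℂ) = ∫ t, (inner ℂ (a t) (F t) : ℂ) := by
    have e1 : ∫ t, (inner ℂ (g t) (u t) : ℂ)
        = ∫ t, ((inner ℂ (G t (a t)) (u t) : ℂ) + inner ℂ (b t) (u t)) := by
      refine integral_congr_ae ?_
      filter_upwards [hab] with t ht
      rw [← ht, inner_add_left]
    have e2 : ∫ t, (inner ℂ (a t) (F t) : ℂ)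
        = ∫ t, ((inner ℂ (G t (a t)) (u t) : ℂ) + inner ℂ (a t) (v t)) := by
      refine integral_congr_ae (Eventually.of_forall fun t => ?_)
      simp only [hF]
      rw [inner_add_right]
      congr 1
      rw [← ContinuousLinearMap.adjoint_inner_left, hsa t]
    rw [e1, e2, integral_add (integrable_inner_of_memLp (hGm a ha.1) hu.1)
      (integrable_inner_of_memLp hb.1 hu.1),
      integral_add (integrable_inner_of_memLp (hGm a ha.1) hu.1)
      (integrable_inner_of_memLp ha.1 hv.1), horth a v ha hv]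
    congr 1
    have e3 : ∫ t, (inner ℂ (b t) (u t) : ℂ) = ∫ t, (starRingEnd ℂ) (inner ℂ (u t) (b t) : ℂ) := by
      refine integral_congr_ae (Eventually.of_forall fun t => ?_)
      exact (inner_conj_symm _ _).symm
    rw [e3, integral_conj, horth u b hu hb, map_zero]
  rw [h1]
  have h2 : ‖∫ t, (inner ℂ (a t) (F t) : ℂ)‖ₑ ≤ eLpNorm a (ENNReal.ofReal q) volume
      * eLpNorm F (ENNReal.ofReal p) volume := enorm_integral_inner_le hp hpq ha.1.1 hFm.1
  have h3 : eLpNorm a (ENNReal.ofReal q) volume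
      ≤ ENNReal.ofReal C * eLpNorm g (ENNReal.ofReal q) volume := by
    refine (hgt a b ha hb).trans (le_of_eq ?_)
    rw [eLpNorm_congr_ae hab]
  have hgfin : eLpNorm g (ENNReal.ofReal q) volume ≠ ⊤ := (hgLp _).2.ne
  have h4 : ‖∫ t, (inner ℂ (a t) (F t) : ℂ)‖ₑ ≤
      ENNReal.ofReal (C * N * (eLpNorm g (ENNReal.ofReal q) volume).toReal) := by
    refine h2.trans ((mul_le_mul_left h3 _).trans (le_of_eq ?_))
    rw [ENNReal.ofReal_mul (by positivity), ENNReal.ofReal_mul hC.le, hN,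
      ENNReal.ofReal_toReal htop, ENNReal.ofReal_toReal hgfin]
    ring
  rw [← ofReal_norm] at h4
  exact (ENNReal.ofReal_le_ofReal_iff (by positivity)).mp h4

end C4
end Pool.Agent.Helper865.TAP
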