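import Pool.Agent.Helper865.TAP.Defs


set_option autoImplicit false

open MeasureTheory Filter Topology Set Metric
open scoped ENNReal NNReal

namespace Pool.Agent.Helper865.TAP
namespace D1



variable {E : Type*} [NormedAddCommGroup E] [InnerProductSpace ℂ E] [FiniteDimensional ℂ E]





variable {E : Type*} [NormedAddCommGroup E] [InnerProductSpace ℂ E] [FiniteDimensional ℂ E]

theorem kh_aesm {N : ℕ} {f : Fin N → ℝ → E} (hf : ∀ j, AEStronglyMeasurable (f j) volume) :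
    AEStronglyMeasurable
      (fun t => (WithLp.toLp 2 (fun j => f j t) : PiLp 2 (fun _ : Fin N => E))) volume := by
  borelize E
  haveI : SecondCountableTopology E := by
    haveI : ProperSpace E := FiniteDimensional.proper ℂ E
    infer_instance
  have h1 : AEMeasurable (fun t => fun j => f j t) volume :=
    aemeasurable_pi_lambda _ fun j => (hf j).aemeasurable
  have h2 : AEStronglyMeasurable (fun t => fun j => f j t) volume :=
    h1.aestronglyMeasurable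
  exact (PiLp.continuous_toLp 2 (fun _ : Fin N => E)).comp_aestronglyMeasurable h2

theorem kh_enorm {F : Type*} [NormedAddCommGroup F] (x : F) {p : ℝ} (hp : 0 ≤ p) :
    ‖x‖ₑ ^ p = ENNReal.ofReal (‖x‖ ^ p) := by
  rw [← ofReal_norm_eq_enorm, ENNReal.ofReal_rpow_of_nonneg (norm_nonneg _) hp]

theorem kh_norm {N : ℕ} (x : Fin N → E) (p : ℝ) :
    ‖(WithLp.toLp 2 x : PiLp 2 (fun _ : Fin N => E))‖ ^ p = (∑ j, ‖x j‖ ^ 2) ^ (p / 2) := by
  rw [PiLp.norm_eq_of_L2, Real.sqrt_eq_rpow, ← Real.rpow_mul]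
  · congr 1
    ring
  · exact Finset.sum_nonneg fun i _ => by positivity

theorem kh_eLp {F : Type*} [NormedAddCommGroup F] (u : ℝ → F) {p : ℝ} (hp : 0 < p) :
    eLpNorm u (ENNReal.ofReal p) volume = (∫⁻ t, ‖u t‖ₑ ^ p) ^ (1 / p) := by
  rw [eLpNorm_eq_lintegral_rpow_enorm_toReal (by simpa using hp) ENNReal.ofReal_ne_top,
    ENNReal.toReal_ofReal hp.le]

theorem kh_eLp' {F : Type*} [NormedAddCommGroup F] (u : ℝ → F) {p : ℝ} (hp : 0 < p) :
    ∫⁻ t, ‖u t‖ₑ ^ p = (eLpNorm u (ENNReal.ofReal p) volume) ^ p := by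
  rw [kh_eLp u hp, ← ENNReal.rpow_mul, one_div_mul_cancel hp.ne', ENNReal.rpow_one]

theorem kh_int {c C p : ℝ} (hp : 1 ≤ p) (hc : 0 < c) (hC : 0 < C)
    (h : ∀ (N : ℕ) (x : Fin N → E),
        c * (∑ j, ‖x j‖ ^ 2) ^ (p / 2)
          ≤ (2 ^ N : ℝ)⁻¹ * ∑ e : Fin N → Bool, ‖∑ j, (sg (e j) : ℂ) • x j‖ ^ p ∧
        (2 ^ N : ℝ)⁻¹ * ∑ e : Fin N → Bool, ‖∑ j, (sg (e j) : ℂ) • x j‖ ^ p
          ≤ C * (∑ j, ‖x j‖ ^ 2) ^ (p / 2))
    (N : ℕ) (f : Fin N → ℝ → E) (hf : ∀ j, AEStronglyMeasurable (f j) volume) :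
    ENNReal.ofReal c * ∫⁻ t, ‖(WithLp.toLp 2 (fun j => f j t) : PiLp 2 (fun _ : Fin N => E))‖ₑ ^ p
      ≤ ENNReal.ofReal (2 ^ N : ℝ)⁻¹ *
        ∑ e : Fin N → Bool, ∫⁻ t, ‖∑ j, (sg (e j) : ℂ) • f j t‖ₑ ^ p ∧
    ENNReal.ofReal (2 ^ N : ℝ)⁻¹ *
        ∑ e : Fin N → Bool, ∫⁻ t, ‖∑ j, (sg (e j) : ℂ) • f j t‖ₑ ^ p ≤
      ENNReal.ofReal C *
        ∫⁻ t, ‖(WithLp.toLp 2 (fun j => f j t) : PiLp 2 (fun _ : Fin N => E))‖ₑ ^ p := by
  have hp0 : 0 ≤ p := by linarith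
  have hm : ∀ e : Fin N → Bool,
      AEMeasurable (fun t => ‖∑ j, (sg (e j) : ℂ) • f j t‖ₑ ^ p) volume := by
    intro e
    have : AEStronglyMeasurable (fun t => ∑ j, (sg (e j) : ℂ) • f j t) volume :=
      Finset.aestronglyMeasurable_fun_sum _ fun j _ => (hf j).const_smul _
    exact this.enorm.pow_const p
  have hm2 : AEMeasurable (fun t =>
      ‖(WithLp.toLp 2 (fun j => f j t) : PiLp 2 (fun _ : Fin N => E))‖ₑ ^ p) volume :=
    (kh_aesm hf).enorm.pow_const p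
  have hsum : ∑ e : Fin N → Bool, ∫⁻ t, ‖∑ j, (sg (e j) : ℂ) • f j t‖ₑ ^ p =
      ∫⁻ t, ∑ e : Fin N → Bool, ‖∑ j, (sg (e j) : ℂ) • f j t‖ₑ ^ p :=
    (lintegral_finset_sum' _ fun e _ => hm e).symm
  have hmsum : AEMeasurable (fun t => ∑ e : Fin N → Bool,
      ‖∑ j, (sg (e j) : ℂ) • f j t‖ₑ ^ p) volume :=
    Finset.aemeasurable_fun_sum _ fun e _ => hm e
  rw [hsum, ← lintegral_const_mul'' _ hmsum, ← lintegral_const_mul'' _ hm2,
    ← lintegral_const_mul'' _ hm2]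
  have hpt : ∀ t, ENNReal.ofReal (2 ^ N : ℝ)⁻¹ * ∑ e : Fin N → Bool,
      ‖∑ j, (sg (e j) : ℂ) • f j t‖ₑ ^ p = ENNReal.ofReal ((2 ^ N : ℝ)⁻¹ *
        ∑ e : Fin N → Bool, ‖∑ j, (sg (e j) : ℂ) • f j t‖ ^ p) := by
    intro t
    rw [ENNReal.ofReal_mul (by positivity), ENNReal.ofReal_sum_of_nonneg]
    · simp only [kh_enorm _ hp0]
    · intro e _
      positivity
  have hpt2 : ∀ (a : ℝ) (_ : 0 ≤ a) (t : ℝ), ENNReal.ofReal a *
      ‖(WithLp.toLp 2 (fun j => f j t) : PiLp 2 (fun _ : Fin N => E))‖ₑ ^ p =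
      ENNReal.ofReal (a * (∑ j, ‖f j t‖ ^ 2) ^ (p / 2)) := by
    intro a ha t
    rw [kh_enorm _ hp0, kh_norm, ENNReal.ofReal_mul ha]
  constructor
  · apply lintegral_mono
    intro t
    simp only
    rw [hpt t, hpt2 c hc.le t]
    exact ENNReal.ofReal_le_ofReal (h N (fun j => f j t)).1
  · apply lintegral_mono
    intro t
    simp only
    rw [hpt t, hpt2 C hC.le t]
    exact ENNReal.ofReal_le_ofReal (h N (fun j => f j t)).2

/-- Khinchine transfer: comparison of all signed sums gives comparison of square functions. -/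
theorem khinchine_ext
    (hkh : ∀ p : ℝ, 1 ≤ p → ∃ c C : ℝ, 0 < c ∧ 0 < C ∧
      ∀ (N : ℕ) (x : Fin N → E),
        c * (∑ j, ‖x j‖ ^ 2) ^ (p / 2)
          ≤ (2 ^ N : ℝ)⁻¹ * ∑ e : Fin N → Bool, ‖∑ j, (sg (e j) : ℂ) • x j‖ ^ p ∧
        (2 ^ N : ℝ)⁻¹ * ∑ e : Fin N → Bool, ‖∑ j, (sg (e j) : ℂ) • x j‖ ^ p
          ≤ C * (∑ j, ‖x j‖ ^ 2) ^ (p / 2))
    {p : ℝ} (hp : 1 ≤ p) :
    ∃ κ : ℝ, 0 < κ ∧ ∀ (N : ℕ) (f g : Fin N → ℝ → E),
      (∀ j, MemLp (f j) (ENNReal.ofReal p) volume) →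
      (∀ j, MemLp (g j) (ENNReal.ofReal p) volume) → ∀ C : ℝ, 0 ≤ C →
      (∀ e : Fin N → Bool,
        eLpNorm (fun t => ∑ j, (sg (e j) : ℂ) • f j t) (ENNReal.ofReal p) volume
          ≤ ENNReal.ofReal C *
            eLpNorm (fun t => ∑ j, (sg (e j) : ℂ) • g j t) (ENNReal.ofReal p) volume) →
      eLpNorm (fun t => (WithLp.toLp 2 (fun j => f j t) : PiLp 2 (fun _ : Fin N => E)))
          (ENNReal.ofReal p) volume
        ≤ ENNReal.ofReal (κ * C) *
          eLpNorm (fun t => (WithLp.toLp 2 (fun j => g j t) : PiLp 2 (fun _ : Fin N => E)))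
            (ENNReal.ofReal p) volume := by
  obtain ⟨c, C₀, hc, hC₀, h⟩ := hkh p hp
  have hp0 : 0 < p := by linarith
  refine ⟨(C₀ / c) ^ (1 / p), by positivity, ?_⟩
  intro N f g hf hg C hC hfg
  have hF := (kh_int hp hc hC₀ h N f (fun j => (hf j).1)).1
  have hG := (kh_int hp hc hC₀ h N g (fun j => (hg j).1)).2
  set A := eLpNorm (fun t => (WithLp.toLp 2 (fun j => f j t) : PiLp 2 (fun _ : Fin N => E)))
    (ENNReal.ofReal p) volume with hA
  set B := eLpNorm (fun t => (WithLp.toLp 2 (fun j => g j t) : PiLp 2 (fun _ : Fin N => E)))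
    (ENNReal.ofReal p) volume with hB
  rw [kh_eLp' _ hp0, ← hA] at hF
  rw [kh_eLp' _ hp0, ← hB] at hG
  have hmid : ENNReal.ofReal (2 ^ N : ℝ)⁻¹ *
        ∑ e : Fin N → Bool, ∫⁻ t, ‖∑ j, (sg (e j) : ℂ) • f j t‖ₑ ^ p ≤
      ENNReal.ofReal C ^ p * (ENNReal.ofReal (2 ^ N : ℝ)⁻¹ *
        ∑ e : Fin N → Bool, ∫⁻ t, ‖∑ j, (sg (e j) : ℂ) • g j t‖ₑ ^ p) := by
    rw [mul_left_comm]
    gcongr
    rw [Finset.mul_sum]
    apply Finset.sum_le_sum
    intro e _
    rw [kh_eLp' _ hp0, kh_eLp' _ hp0, ← ENNReal.mul_rpow_of_nonneg _ _ hp0.le]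
    exact ENNReal.rpow_le_rpow (hfg e) hp0.le
  have h1 : ENNReal.ofReal c * A ^ p ≤ ENNReal.ofReal C ^ p * (ENNReal.ofReal C₀ * B ^ p) :=
    hF.trans (hmid.trans (by gcongr))
  have h2 : A ^ p ≤ ENNReal.ofReal (C₀ / c) * (ENNReal.ofReal C ^ p * B ^ p) := by
    have hc' : ENNReal.ofReal c ≠ 0 := by simpa using hc
    rw [ENNReal.ofReal_div_of_pos hc, ENNReal.div_eq_inv_mul, mul_assoc]
    rw [← ENNReal.mul_le_iff_le_inv]
    · calc ENNReal.ofReal c * A ^ p ≤ ENNReal.ofReal C ^ p * (ENNReal.ofReal C₀ * B ^ p) := h1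
        _ = _ := by ring
    · exact hc'
    · exact ENNReal.ofReal_ne_top
  have h3 := ENNReal.rpow_le_rpow h2 (show 0 ≤ 1 / p by positivity)
  rw [← ENNReal.rpow_mul, mul_one_div_cancel hp0.ne', ENNReal.rpow_one,
    ENNReal.mul_rpow_of_nonneg _ _ (by positivity), ENNReal.mul_rpow_of_nonneg _ _ (by positivity),
    ← ENNReal.rpow_mul, ← ENNReal.rpow_mul, mul_one_div_cancel hp0.ne', ENNReal.rpow_one,
    ENNReal.rpow_one, ENNReal.ofReal_rpow_of_nonneg (by positivity) (by positivity), ← mul_assoc,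
    ← ENNReal.ofReal_mul (by positivity)] at h3
  exact h3



variable {E : Type*} [NormedAddCommGroup E] [InnerProductSpace ℂ E] [FiniteDimensional ℂ E]

theorem st_clm_aesm {D : ℝ → E →L[ℂ] E} (hD : Continuous D) {f : ℝ → E}
    (hf : AEStronglyMeasurable f volume) :
    AEStronglyMeasurable (fun t => D t (f t)) volume :=
  (ContinuousLinearMap.id ℂ (E →L[ℂ] E)).aestronglyMeasurable_comp₂
    hD.aestronglyMeasurable hf

theorem st_clm_memLp {D : ℝ → E →L[ℂ] E} (hD : Continuous D) {B : ℝ} (hB : ∀ t, ‖D t‖ ≤ B)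
    {p : ℝ≥0∞} {f : ℝ → E} (hf : MemLp f p volume) :
    MemLp (fun t => D t (f t)) p volume := by
  refine MemLp.of_le_mul (c := B) hf (st_clm_aesm hD hf.1) ?_
  exact Eventually.of_forall fun t =>
    ((D t).le_opNorm (f t)).trans (mul_le_mul_of_nonneg_right (hB t) (norm_nonneg _))

theorem st_Hm_sum {p : ℝ≥0∞}
    (hadd : ∀ f g : ℝ → E, Hm p f → Hm p g → Hm p (fun t => f t + g t))
    {N : ℕ} (f : Fin N → ℝ → E) (hf : ∀ j, Hm p (f j)) :
    Hm p (fun t => ∑ j, f j t) := by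
  classical
  have h : ∀ s : Finset (Fin N), Hm p (fun t => ∑ j ∈ s, f j t) := by
    intro s
    induction s using Finset.induction_on with
    | empty => exact ⟨by simp, by simp⟩
    | insert a s ha ih =>
      have := hadd _ _ (hf a) ih
      simpa only [Finset.sum_insert ha] using this
  exact h Finset.univ

theorem st_Hp_sum {p : ℝ≥0∞}
    (hadd : ∀ f g : ℝ → E, Hp p f → Hp p g → Hp p (fun t => f t + g t))
    {N : ℕ} (f : Fin N → ℝ → E) (hf : ∀ j, Hp p (f j)) :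
    Hp p (fun t => ∑ j, f j t) := by
  classical
  have h : ∀ s : Finset (Fin N), Hp p (fun t => ∑ j ∈ s, f j t) := by
    intro s
    induction s using Finset.induction_on with
    | empty => exact ⟨by simp, by simp⟩
    | insert a s ha ih =>
      have := hadd _ _ (hf a) ih
      simpa only [Finset.sum_insert ha] using this
  exact h Finset.univ

theorem st_norm_le {N : ℕ} (x y : Fin N → E) {c : ℝ} (hc : 0 ≤ c) (h : ∀ j, ‖x j‖ ≤ c * ‖y j‖) :
    ‖(WithLp.toLp 2 x : PiLp 2 (fun _ : Fin N => E))‖ ≤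
      c * ‖(WithLp.toLp 2 y : PiLp 2 (fun _ : Fin N => E))‖ := by
  rw [PiLp.norm_eq_of_L2, PiLp.norm_eq_of_L2]
  have h1 : c = Real.sqrt (c ^ 2) := (Real.sqrt_sq hc).symm
  rw [h1, ← Real.sqrt_mul (by positivity)]
  apply Real.sqrt_le_sqrt
  rw [Finset.mul_sum]
  apply Finset.sum_le_sum
  intro j _
  rw [← mul_pow]
  exact pow_le_pow_left₀ (norm_nonneg _) (h j) 2

theorem st_fin {p : ℝ≥0∞} {N : ℕ} (f : Fin N → ℝ → E) (hf : ∀ j, MemLp (f j) p volume) :
    eLpNorm (fun t => (WithLp.toLp 2 (fun j => f j t) : PiLp 2 (fun _ : Fin N => E))) p volume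
      < ⊤ := by
  have h1 : MemLp (fun t => ∑ j, ‖f j t‖) p volume :=
    memLp_finset_sum _ fun j _ => (hf j).norm
  refine lt_of_le_of_lt (eLpNorm_mono_real (g := fun t => ∑ j, ‖f j t‖) fun t => ?_) h1.2
  rw [PiLp.norm_eq_of_L2]
  have h2 : ∑ j, ‖f j t‖ ^ 2 ≤ (∑ j, ‖f j t‖) ^ 2 :=
    Finset.sum_sq_le_sq_sum_of_nonneg (fun j _ => norm_nonneg _)
  calc Real.sqrt (∑ j, ‖f j t‖ ^ 2) ≤ Real.sqrt ((∑ j, ‖f j t‖) ^ 2) := Real.sqrt_le_sqrt h2
    _ = _ := Real.sqrt_sq (Finset.sum_nonneg fun j _ => norm_nonneg _)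

/-- Translation along almost periods of the symbol: comparison of the square functions of the
translates of `f` and of `F = T_A f`. -/
theorem stepA_transfer {p : ℝ} (hp : 1 < p)
    (hadd : ∀ f g : ℝ → E, Hm (ENNReal.ofReal p) f → Hm (ENNReal.ofReal p) g →
      Hm (ENNReal.ofReal p) (fun t => f t + g t))
    (hadd' : ∀ f g : ℝ → E, Hp (ENNReal.ofReal p) f → Hp (ENNReal.ofReal p) g →
      Hp (ENNReal.ofReal p) (fun t => f t + g t))
    (hsmul : ∀ (c : ℂ) (f : ℝ → E), Hm (ENNReal.ofReal p) f →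
      Hm (ENNReal.ofReal p) (fun t => c • f t))
    (hsmul' : ∀ (c : ℂ) (f : ℝ → E), Hp (ENNReal.ofReal p) f →
      Hp (ENNReal.ofReal p) (fun t => c • f t))
    (htr : ∀ (f : ℝ → E) (h : ℝ), Hm (ENNReal.ofReal p) f →
      Hm (ENNReal.ofReal p) (fun t => f (t - h)))
    (htr' : ∀ (f : ℝ → E) (h : ℝ), Hp (ENNReal.ofReal p) f →
      Hp (ENNReal.ofReal p) (fun t => f (t - h)))
    {κ : ℝ} (hκ : 0 < κ)
    (hkh : ∀ (N : ℕ) (f g : Fin N → ℝ → E),
      (∀ j, MemLp (f j) (ENNReal.ofReal p) volume) →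
      (∀ j, MemLp (g j) (ENNReal.ofReal p) volume) → ∀ C : ℝ, 0 ≤ C →
      (∀ e : Fin N → Bool,
        eLpNorm (fun t => ∑ j, (sg (e j) : ℂ) • f j t) (ENNReal.ofReal p) volume
          ≤ ENNReal.ofReal C *
            eLpNorm (fun t => ∑ j, (sg (e j) : ℂ) • g j t) (ENNReal.ofReal p) volume) →
      eLpNorm (fun t => (WithLp.toLp 2 (fun j => f j t) : PiLp 2 (fun _ : Fin N => E)))
          (ENNReal.ofReal p) volume
        ≤ ENNReal.ofReal (κ * C) *
          eLpNorm (fun t => (WithLp.toLp 2 (fun j => g j t) : PiLp 2 (fun _ : Fin N => E)))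
            (ENNReal.ofReal p) volume)
    {C : ℝ} (hC : 0 < C)
    (hriesz : ∀ f : ℝ → E, MemLp f (ENNReal.ofReal p) volume → ∃ u v : ℝ → E,
      Hm (ENNReal.ofReal p) u ∧ Hp (ENNReal.ofReal p) v ∧ (∀ t, f t = u t + v t) ∧
      eLpNorm u (ENNReal.ofReal p) volume
        ≤ ENNReal.ofReal C * eLpNorm f (ENNReal.ofReal p) volume ∧
      eLpNorm v (ENNReal.ofReal p) volume
        ≤ ENNReal.ofReal (1 + C) * eLpNorm f (ENNReal.ofReal p) volume)
    (hR' : ∀ u v : ℝ → E, Hm (ENNReal.ofReal p) u → Hp (ENNReal.ofReal p) v →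
      eLpNorm u (ENNReal.ofReal p) volume
        ≤ ENNReal.ofReal C * eLpNorm (fun t => u t + v t) (ENNReal.ofReal p) volume)
    {G A : ℝ → E →L[ℂ] E} (hG : Continuous G) {M : ℝ} (hM : ∀ t, ‖G t‖ ≤ M)
    (hA : Continuous A) (hAM : ∀ t, ‖A t‖ ≤ M) {K : ℝ} (hK : 0 < K)
    (hBB : BB (ENNReal.ofReal p) G K)
    {f F : ℝ → E} (hf : Hm (ENNReal.ofReal p) f) (hF : Hm (ENNReal.ofReal p) F)
    (hAF : Hp (ENNReal.ofReal p) (fun t => A t (f t) - F t))
    {ε : ℝ} (hε : 0 ≤ ε) (hεK : κ * K * (κ * C) * (2 * ε) ≤ 1 / 2)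
    (hGA : ∀ t, ‖G t - A t‖ ≤ ε) {N : ℕ} (h : Fin N → ℝ)
    (hh : ∀ j t, ‖G (t + h j) - G t‖ ≤ ε) :
    eLpNorm (fun t => (WithLp.toLp 2 (fun j => f (t - h j)) : PiLp 2 (fun _ : Fin N => E)))
        (ENNReal.ofReal p) volume
      ≤ ENNReal.ofReal (2 * κ * K) *
        eLpNorm (fun t => (WithLp.toLp 2 (fun j => F (t - h j)) : PiLp 2 (fun _ : Fin N => E)))
          (ENNReal.ofReal p) volume := by
  have hp1 : (1 : ℝ≥0∞) ≤ ENNReal.ofReal p := by
    rw [← ENNReal.ofReal_one]; exact ENNReal.ofReal_le_ofReal hp.le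
  -- translates
  set fj : Fin N → ℝ → E := fun j t => f (t - h j) with hfj
  set Fj : Fin N → ℝ → E := fun j t => F (t - h j) with hFj
  have hfjm : ∀ j, Hm (ENNReal.ofReal p) (fj j) := fun j => htr f (h j) hf
  have hFjm : ∀ j, Hm (ENNReal.ofReal p) (Fj j) := fun j => htr F (h j) hF
  set D : Fin N → ℝ → E →L[ℂ] E := fun j t => G t - A (t - h j) with hD
  have hDc : ∀ j, Continuous (D j) := fun j =>
    hG.sub (hA.comp (continuous_id.sub continuous_const))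
  have hDb : ∀ j t, ‖D j t‖ ≤ 2 * ε := by
    intro j t
    have h1 := hh j (t - h j)
    rw [sub_add_cancel] at h1
    have h2 := hGA (t - h j)
    have h3 : D j t = (G t - G (t - h j)) + (G (t - h j) - A (t - h j)) := by
      simp only [hD]; abel
    rw [h3]
    refine (norm_add_le _ _).trans ?_
    linarith
  have hDf : ∀ j, MemLp (fun t => D j t (fj j t)) (ENNReal.ofReal p) volume := fun j =>
    st_clm_memLp (hDc j) (hDb j) (hfjm j).1
  choose r v hr hv hrv _ _ using fun j => hriesz _ (hDf j)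
  set w : Fin N → ℝ → E := fun j t => Fj j t + r j t with hw
  have hwm : ∀ j, Hm (ENNReal.ofReal p) (w j) := fun j => hadd _ _ (hFjm j) (hr j)
  have hGw : ∀ j, Hp (ENNReal.ofReal p) (fun t => G t (fj j t) - w j t) := by
    intro j
    have h1 := htr' _ (h j) hAF
    have h2 := hadd' _ _ h1 (hv j)
    refine (show (fun t => G t (fj j t) - w j t) = _ from ?_) ▸ h2
    funext t
    have h3 := hrv j t
    simp only [hD, sub_apply, hfj] at h3
    simp only [hw, hFj, hfj]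
    have h4 : G t (f (t - h j)) = r j t + v j t + A (t - h j) (f (t - h j)) := by
      rw [← h3]; abel
    rw [h4]
    abel
  -- first comparison
  have hX1 := hkh N fj w (fun j => (hfjm j).1) (fun j => (hwm j).1) K hK.le (by
    intro e
    apply hBB
    · exact st_Hm_sum hadd _ fun j => hsmul _ _ (hfjm j)
    · exact st_Hm_sum hadd _ fun j => hsmul _ _ (hwm j)
    · have h1 := st_Hp_sum hadd' _ fun j => hsmul' (sg (e j) : ℂ) _ (hGw j)
      refine (show (fun t => G t (∑ j, (sg (e j) : ℂ) • fj j t) -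
        ∑ j, (sg (e j) : ℂ) • w j t) = _ from ?_) ▸ h1
      funext t
      rw [map_sum, ← Finset.sum_sub_distrib]
      apply Finset.sum_congr rfl
      intro j _
      rw [map_smul, smul_sub])
  -- comparison for the remainders
  have hX2 := hkh N r (fun j t => D j t (fj j t)) (fun j => (hr j).1) hDf C hC.le (by
    intro e
    have h1 := hR' _ _ (st_Hm_sum hadd _ fun j => hsmul (sg (e j) : ℂ) _ (hr j))
      (st_Hp_sum hadd' _ fun j => hsmul' (sg (e j) : ℂ) _ (hv j))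
    refine h1.trans (le_of_eq ?_)
    congr 1
    congr 1
    funext t
    rw [← Finset.sum_add_distrib]
    apply Finset.sum_congr rfl
    intro j _
    rw [← smul_add, hrv j t])
  have hX3 : eLpNorm (fun t => (WithLp.toLp 2 (fun j => D j t (fj j t)) :
      PiLp 2 (fun _ : Fin N => E))) (ENNReal.ofReal p) volume ≤ ENNReal.ofReal (2 * ε) *
      eLpNorm (fun t => (WithLp.toLp 2 (fun j => fj j t) : PiLp 2 (fun _ : Fin N => E)))
        (ENNReal.ofReal p) volume := by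
    apply eLpNorm_le_mul_eLpNorm_of_ae_le_mul
    refine Eventually.of_forall fun t => ?_
    apply st_norm_le _ _ (by positivity)
    intro j
    exact ((D j t).le_opNorm _).trans (mul_le_mul_of_nonneg_right (hDb j t) (norm_nonneg _))
  -- Minkowski
  have hX4 : eLpNorm (fun t => (WithLp.toLp 2 (fun j => w j t) : PiLp 2 (fun _ : Fin N => E)))
      (ENNReal.ofReal p) volume ≤
      eLpNorm (fun t => (WithLp.toLp 2 (fun j => Fj j t) : PiLp 2 (fun _ : Fin N => E)))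
        (ENNReal.ofReal p) volume +
      eLpNorm (fun t => (WithLp.toLp 2 (fun j => r j t) : PiLp 2 (fun _ : Fin N => E)))
        (ENNReal.ofReal p) volume := by
    have h1 := eLpNorm_add_le (kh_aesm (f := Fj) fun j => (hFjm j).1.1)
      (kh_aesm (f := r) fun j => (hr j).1.1) hp1
    exact h1
  set X := eLpNorm (fun t => (WithLp.toLp 2 (fun j => fj j t) : PiLp 2 (fun _ : Fin N => E)))
    (ENNReal.ofReal p) volume with hX
  set Y := eLpNorm (fun t => (WithLp.toLp 2 (fun j => Fj j t) : PiLp 2 (fun _ : Fin N => E)))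
    (ENNReal.ofReal p) volume with hY
  have hXf : X ≠ ⊤ := (st_fin fj fun j => (hfjm j).1).ne
  have hYf : Y ≠ ⊤ := (st_fin Fj fun j => (hFjm j).1).ne
  have hfin : X ≤ ENNReal.ofReal (κ * K) * (Y + ENNReal.ofReal (κ * C) *
      (ENNReal.ofReal (2 * ε) * X)) := by
    refine hX1.trans ?_
    gcongr
    refine hX4.trans ?_
    gcongr
    refine hX2.trans ?_
    gcongr
  -- pass to reals
  clear_value X Y
  lift X to ℝ≥0 using hXf
  lift Y to ℝ≥0 using hYf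
  have e1 : ENNReal.ofReal (κ * K) * ((Y : ℝ≥0∞) + ENNReal.ofReal (κ * C) *
      (ENNReal.ofReal (2 * ε) * (X : ℝ≥0∞))) =
      ENNReal.ofReal (κ * K * (Y + κ * C * (2 * ε * X))) := by
    rw [ENNReal.ofReal_mul (p := κ * K) (by positivity),
      ENNReal.ofReal_add (by positivity) (by positivity),
      ENNReal.ofReal_mul (p := κ * C) (by positivity), ENNReal.ofReal_mul (p := 2 * ε)
      (by positivity), ENNReal.ofReal_coe_nnreal, ENNReal.ofReal_coe_nnreal]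
  have e2 : (X : ℝ≥0∞) = ENNReal.ofReal (X : ℝ) := ENNReal.ofReal_coe_nnreal.symm
  have e3 : (Y : ℝ≥0∞) = ENNReal.ofReal (Y : ℝ) := ENNReal.ofReal_coe_nnreal.symm
  rw [e1, e2, ENNReal.ofReal_le_ofReal_iff (by positivity)] at hfin
  rw [e2, e3, ← ENNReal.ofReal_mul (by positivity)]
  apply ENNReal.ofReal_le_ofReal
  have hX0 : (0 : ℝ) ≤ X := X.2
  have h5 := mul_le_mul_of_nonneg_right hεK hX0
  nlinarith

end D1
end Pool.Agent.Helper865.TAP
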