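import Pool.Agent.Helper865.TAP.Defs


set_option autoImplicit false

open MeasureTheory Filter Topology Set Metric
open scoped ENNReal NNReal

namespace Pool.Agent.Helper865.TAP
namespace D2




/-- continuity, decay and Lipschitz bounds -/
structure AVNice (D : ℝ) (f : ℝ → ℝ) : Prop where
  cont : Continuous f
  bd : ∀ t, 0 ≤ f t ∧ f t ≤ D / (1 + t ^ 2)
  lip : ∀ x y, |x - y| ≤ 1 → |f x - f y| ≤ D * |x - y| / (1 + x ^ 2)

theorem AVNice.D_nonneg {D : ℝ} {f : ℝ → ℝ} (h : AVNice D f) : 0 ≤ D := by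
  have h1 := (h.bd 0).1.trans (h.bd 0).2
  simpa using h1

theorem AVNice.integrable {D : ℝ} {f : ℝ → ℝ} (h : AVNice D f) : Integrable f := by
  have h1 : Integrable (fun t : ℝ => D * (1 + t ^ 2)⁻¹) := integrable_inv_one_add_sq.const_mul D
  refine h1.mono' h.cont.aestronglyMeasurable (Eventually.of_forall fun t => ?_)
  rw [Real.norm_of_nonneg (h.bd t).1]
  simpa [div_eq_mul_inv] using (h.bd t).2

theorem AV_riemann {D : ℝ} {f : ℝ → ℝ} (h : AVNice D f) {η : ℝ} (hη : 0 < η) (hη1 : η ≤ 1)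
    (S : Finset ℤ) (t : ℝ) :
    ∑ k ∈ S, f (t - k * η) ≤ ((∫ s, f s) + 3 * Real.pi * D * η) / η := by
  have hD := h.D_nonneg
  rw [le_div_iff₀ hη, Finset.sum_mul]
  let g : ℝ → ℝ := fun s => f s + 3 * D * η * (1 + s ^ 2)⁻¹
  have hg0 : ∀ s, 0 ≤ g s := fun s => by
    have := (h.bd s).1
    have : 0 ≤ 3 * D * η * (1 + s ^ 2)⁻¹ := by positivity
    show 0 ≤ f s + 3 * D * η * (1 + s ^ 2)⁻¹
    linarith
  have hgi : Integrable g := h.integrable.add (integrable_inv_one_add_sq.const_mul (3 * D * η))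
  have hgint : ∫ s, g s = (∫ s, f s) + 3 * Real.pi * D * η := by
    show ∫ s, (f s + 3 * D * η * (1 + s ^ 2)⁻¹) = _
    rw [integral_add h.integrable (integrable_inv_one_add_sq.const_mul (3 * D * η)),
      integral_const_mul, integral_univ_inv_one_add_sq]
    ring
  let c : ℤ → Set ℝ := fun k => Ioc (t - k * η) (t - k * η + η)
  have hcell : ∀ k ∈ S, f (t - k * η) * η ≤ ∫ s in c k, g s := by
    intro k _
    have e1 : f (t - k * η) * η = ∫ s in c k, f (t - k * η) := by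
      rw [setIntegral_const, Real.volume_real_Ioc_of_le (by linarith), smul_eq_mul]
      ring
    rw [e1]
    apply setIntegral_mono_on continuous_const.integrableOn_Ioc hgi.integrableOn measurableSet_Ioc
    intro s hs
    have hs1 : |(t - k * η) - s| ≤ η := by
      rw [abs_le]
      constructor
      · linarith [hs.2]
      · linarith [hs.1]
    have h1 := h.lip (t - k * η) s (hs1.trans hη1)
    have h2 : D * |(t - k * η) - s| / (1 + (t - k * η) ^ 2) ≤ 3 * D * η * (1 + s ^ 2)⁻¹ := by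
      rw [← div_eq_mul_inv, div_le_div_iff₀ (by positivity) (by positivity)]
      have h3 : 1 + s ^ 2 ≤ 3 * (1 + (t - k * η) ^ 2) := by
        have h4 : ((t - k * η) - s) ^ 2 ≤ 1 := by
          rw [← sq_abs]
          have := abs_nonneg ((t - k * η) - s)
          nlinarith
        nlinarith [sq_nonneg (2 * (t - k * η) - s)]
      calc D * |(t - k * η) - s| * (1 + s ^ 2)
          ≤ D * η * (3 * (1 + (t - k * η) ^ 2)) := by
            apply mul_le_mul (mul_le_mul_of_nonneg_left hs1 hD) h3 (by positivity) (by positivity)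
        _ = _ := by ring
    have h3 := (abs_le.mp h1).2
    show f (t - k * η) ≤ f s + 3 * D * η * (1 + s ^ 2)⁻¹
    linarith
  have hdisj : Set.Pairwise (↑S : Set ℤ) (Function.onFun Disjoint c) := by
    intro k _ l _ hkl
    rw [Function.onFun, Set.disjoint_left]
    intro x hx hy
    have e1 : ((k : ℝ) - l) * η < η := by
      have := hx.2
      have := hx.1
      have := hy.1
      have := hy.2
      nlinarith
    have e2 : -η < ((k : ℝ) - l) * η := by
      have := hx.2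
      have := hx.1
      have := hy.1
      have := hy.2
      nlinarith
    have e3 : ((k : ℝ) - l) < 1 := by
      by_contra hc
      push Not at hc
      nlinarith
    have e4 : -1 < ((k : ℝ) - l) := by
      by_contra hc
      push Not at hc
      nlinarith
    apply hkl
    have e5 : k - l < 1 := by exact_mod_cast e3
    have e6 : -1 < k - l := by exact_mod_cast e4
    omega
  calc ∑ k ∈ S, f (t - k * η) * η ≤ ∑ k ∈ S, ∫ s in c k, g s := Finset.sum_le_sum hcell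
    _ = ∫ s in ⋃ k ∈ S, c k, g s := by
        rw [integral_biUnion_finset S (fun _ _ => measurableSet_Ioc) hdisj
          (fun _ _ => hgi.integrableOn)]
    _ ≤ ∫ s, g s := setIntegral_le_integral hgi (Eventually.of_forall hg0)
    _ = _ := hgint

theorem AV_tangent_ge {q : ℝ} (hq : 1 ≤ q) {x l : ℝ} (hx : 0 ≤ x) (hl : 0 < l) :
    q * l ^ (q - 1) * x ≤ x ^ q + (q - 1) * l ^ q := by
  have h := one_add_mul_self_le_rpow_one_add (s := x / l - 1) (by
    have : 0 ≤ x / l := by positivity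
    linarith) hq
  have e : 1 + (x / l - 1) = x / l := by ring
  rw [e, Real.div_rpow hx hl.le] at h
  have hlq : 0 < l ^ q := Real.rpow_pos_of_pos hl q
  rw [le_div_iff₀ hlq] at h
  have e2 : l ^ q = l ^ (q - 1) * l := by
    rw [← Real.rpow_add_one hl.ne']; congr 1; ring
  have e3 : (1 + q * (x / l - 1)) * l ^ q = l ^ q - q * l ^ q + q * l ^ (q - 1) * x := by
    rw [e2]; field_simp; ring
  rw [e3] at h
  linarith

theorem AV_tangent_le {q : ℝ} (hq0 : 0 ≤ q) (hq : q ≤ 1) {x l : ℝ} (hx : 0 ≤ x) (hl : 0 < l) :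
    x ^ q ≤ (1 - q) * l ^ q + q * l ^ (q - 1) * x := by
  have h := rpow_one_add_le_one_add_mul_self (s := x / l - 1) (by
    have : 0 ≤ x / l := by positivity
    linarith) hq0 hq
  have e : 1 + (x / l - 1) = x / l := by ring
  rw [e, Real.div_rpow hx hl.le] at h
  have hlq : 0 < l ^ q := Real.rpow_pos_of_pos hl q
  rw [div_le_iff₀ hlq] at h
  have e2 : l ^ q = l ^ (q - 1) * l := by
    rw [← Real.rpow_add_one hl.ne']; congr 1; ring
  have e3 : (1 + q * (x / l - 1)) * l ^ q = l ^ q - q * l ^ q + q * l ^ (q - 1) * x := by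
    rw [e2]; field_simp; ring
  rw [e3] at h
  linarith

theorem AV_cont {D : ℝ} {f : ℝ → ℝ} (h : AVNice D f) (S : Finset ℤ) (η : ℝ) :
    Continuous (fun t => ∑ k ∈ S, f (t - k * η)) := by
  apply continuous_finsetSum
  intro k _
  exact h.cont.comp (by fun_prop)

theorem AV_sum_nonneg {D : ℝ} {f : ℝ → ℝ} (h : AVNice D f) (S : Finset ℤ) (η t : ℝ) :
    0 ≤ ∑ k ∈ S, f (t - k * η) := Finset.sum_nonneg fun _ _ => (h.bd _).1

theorem AV_sum_integrable {D : ℝ} {f : ℝ → ℝ} (h : AVNice D f) (S : Finset ℤ) (η : ℝ) :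
    Integrable (fun t => ∑ k ∈ S, f (t - k * η)) := by
  apply integrable_finsetSum
  intro k _
  exact h.integrable.comp_sub_right _

theorem AV_sum_integral {D : ℝ} {f : ℝ → ℝ} (h : AVNice D f) (S : Finset ℤ) (η : ℝ) :
    ∫ t, ∑ k ∈ S, f (t - k * η) = S.card * ∫ t, f t := by
  rw [integral_finsetSum _ (fun k _ => h.integrable.comp_sub_right _)]
  have : ∀ k : ℤ, ∫ t, f (t - k * η) = ∫ t, f t := fun k => integral_sub_right_eq_self f _
  simp only [this, Finset.sum_const, nsmul_eq_mul]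

theorem AV_sum_setIntegral {D : ℝ} {f : ℝ → ℝ} (h : AVNice D f) (S : Finset ℤ) {η R : ℝ}
    (hS : ∀ k ∈ S, |(k : ℝ) * η| ≤ R) :
    S.card * ∫ t in Icc (-R) R, f t ≤ ∫ t in Icc (-(2 * R)) (2 * R), ∑ k ∈ S, f (t - k * η) := by
  rw [integral_finsetSum _ (fun k _ => (h.integrable.comp_sub_right _).integrableOn),
    ← nsmul_eq_mul, ← Finset.sum_const]
  apply Finset.sum_le_sum
  intro k hk
  have hk' := abs_le.mp (hS k hk)
  rw [← integral_indicator measurableSet_Icc, ← integral_indicator measurableSet_Icc]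
  have e : ∫ t, (Icc (-(2 * R)) (2 * R)).indicator (fun t => f (t - k * η)) t =
      ∫ s, (Icc (-(2 * R)) (2 * R)).indicator (fun t => f (t - k * η)) (s + k * η) :=
    (integral_add_right_eq_self _ _).symm
  rw [e]
  apply integral_mono (h.integrable.indicator measurableSet_Icc)
  · exact ((h.integrable.comp_sub_right _).indicator measurableSet_Icc).comp_add_right _
  · intro s
    show (Icc (-R) R).indicator f s ≤
      (Icc (-(2 * R)) (2 * R)).indicator (fun t => f (t - k * η)) (s + k * η)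
    by_cases hs : s ∈ Icc (-R) R
    · rw [indicator_of_mem hs, indicator_of_mem]
      · show f s ≤ f (s + k * η - k * η)
        rw [add_sub_cancel_right]
      · constructor
        · linarith [hs.1]
        · linarith [hs.2]
    · rw [indicator_of_notMem hs]
      apply indicator_nonneg
      intro x _
      exact (h.bd _).1

theorem AV_lint_le {q : ℝ} (hq : 1 ≤ q) {X : ℝ → ℝ} (hXi : Integrable X) (hX0 : ∀ t, 0 ≤ X t)
    {M : ℝ} (hM : ∀ t, X t ≤ M) :
    ∫⁻ t, ENNReal.ofReal (X t) ^ q ≤ ENNReal.ofReal (M ^ (q - 1) * ∫ t, X t) := by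
  have hM0 : 0 ≤ M := (hX0 0).trans (hM 0)
  rw [← integral_const_mul, ofReal_integral_eq_lintegral_ofReal (hXi.const_mul _)
    (Eventually.of_forall fun t => mul_nonneg (Real.rpow_nonneg hM0 _) (hX0 t))]
  apply lintegral_mono
  intro t
  show ENNReal.ofReal (X t) ^ q ≤ ENNReal.ofReal (M ^ (q - 1) * X t)
  rw [ENNReal.ofReal_rpow_of_nonneg (hX0 t) (by linarith)]
  apply ENNReal.ofReal_le_ofReal
  rcases (hX0 t).eq_or_lt with h0 | h0
  · rw [← h0, Real.zero_rpow (by linarith)]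
    simp
  · have e2 : X t ^ q = X t ^ (q - 1) * X t := by
      rw [← Real.rpow_add_one h0.ne']; congr 1; ring
    rw [e2]
    exact mul_le_mul_of_nonneg_right (Real.rpow_le_rpow h0.le (hM t) (by linarith)) h0.le

theorem AV_lint_ge {q : ℝ} (hq0 : 0 < q) (hq : q ≤ 1) {X : ℝ → ℝ} (hXi : Integrable X)
    (hX0 : ∀ t, 0 ≤ X t) {M : ℝ} (hM0 : 0 < M) (hM : ∀ t, X t ≤ M) :
    ENNReal.ofReal (M ^ (q - 1) * ∫ t, X t) ≤ ∫⁻ t, ENNReal.ofReal (X t) ^ q := by
  rw [← integral_const_mul, ofReal_integral_eq_lintegral_ofReal (hXi.const_mul _)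
    (Eventually.of_forall fun t => mul_nonneg (Real.rpow_nonneg hM0.le _) (hX0 t))]
  apply lintegral_mono
  intro t
  show ENNReal.ofReal (M ^ (q - 1) * X t) ≤ ENNReal.ofReal (X t) ^ q
  rw [ENNReal.ofReal_rpow_of_nonneg (hX0 t) hq0.le]
  apply ENNReal.ofReal_le_ofReal
  rcases (hX0 t).eq_or_lt with h0 | h0
  · rw [← h0, Real.zero_rpow hq0.ne']
    simp
  · have e2 : X t ^ q = X t ^ (q - 1) * X t := by
      rw [← Real.rpow_add_one h0.ne']; congr 1; ring
    rw [e2]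
    exact mul_le_mul_of_nonneg_right (Real.rpow_le_rpow_of_nonpos h0 (hM t) (by linarith)) h0.le

/-- main inequality, `q ≥ 1` -/
theorem AV_main_ge {q : ℝ} (hq : 1 ≤ q) {m C : ℝ} (hm : 0 < m) (hC : 0 ≤ C) {a b : ℝ → ℝ}
    {D : ℝ} (ha : AVNice D a) (hb : AVNice D b) {η : ℝ} (hη : 0 < η) (hη1 : η ≤ 1) {R : ℝ}
    (hR : 0 < R) (S : Finset ℤ) (hS : ∀ k ∈ S, |(k : ℝ) * η| ≤ R)
    (hcard : m * R / η ≤ (S.card : ℝ))
    (hint : ∫⁻ t : ℝ, ENNReal.ofReal (∑ k ∈ S, a (t - k * η)) ^ q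
          ≤ ENNReal.ofReal C * ∫⁻ t : ℝ, ENNReal.ofReal (∑ k ∈ S, b (t - k * η)) ^ q)
    {μ : ℝ} (hμ : 0 < μ) :
    q * μ ^ (q - 1) * (∫ t in Icc (-R) R, a t) ≤
      C * (((∫ t, b t) + 3 * Real.pi * D * η) ^ (q - 1) * ∫ t, b t) +
        (q - 1) * μ ^ q * (4 / m) := by
  have hD := ha.D_nonneg
  set n : ℝ := (S.card : ℝ) with hn
  have hnpos : 0 < n := lt_of_lt_of_le (by positivity) hcard
  have hB0 : 0 ≤ ∫ t, b t := integral_nonneg fun t => (hb.bd t).1
  set l : ℝ := μ / η with hl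
  have hlpos : 0 < l := by positivity
  set X : ℝ → ℝ := fun t => ∑ k ∈ S, a (t - k * η) with hX
  set Y : ℝ → ℝ := fun t => ∑ k ∈ S, b (t - k * η) with hY
  have hXi : Integrable X := AV_sum_integrable ha S η
  have hYi : Integrable Y := AV_sum_integrable hb S η
  have hX0 : ∀ t, 0 ≤ X t := fun t => AV_sum_nonneg ha S η t
  have hY0 : ∀ t, 0 ≤ Y t := fun t => AV_sum_nonneg hb S η t
  set Mb : ℝ := ((∫ t, b t) + 3 * Real.pi * D * η) / η with hMb
  have hU := AV_lint_le hq hYi hY0 (M := Mb) (fun t => AV_riemann hb hη hη1 S t)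
  have hYint : ∫ t, Y t = n * ∫ t, b t := AV_sum_integral hb S η
  rw [hYint] at hU
  have hIint := AV_sum_setIntegral ha S hS
  have hMb0 : 0 ≤ Mb := (hY0 0).trans (AV_riemann hb hη hη1 S 0)
  have hlq1 : 0 ≤ l ^ (q - 1) := Real.rpow_nonneg hlpos.le _
  have hlq : 0 ≤ l ^ q := Real.rpow_nonneg hlpos.le _
  -- lower bound
  have hL : ENNReal.ofReal (q * l ^ (q - 1) * ∫ t in Icc (-(2 * R)) (2 * R), X t) ≤
      (∫⁻ t, ENNReal.ofReal (X t) ^ q) + ENNReal.ofReal ((q - 1) * l ^ q * (4 * R)) := by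
    rw [← integral_const_mul, ofReal_integral_eq_lintegral_ofReal
      ((hXi.const_mul _).integrableOn) (Eventually.of_forall fun t =>
        mul_nonneg (mul_nonneg (by linarith) hlq1) (hX0 t))]
    calc ∫⁻ t in Icc (-(2 * R)) (2 * R), ENNReal.ofReal (q * l ^ (q - 1) * X t)
        ≤ ∫⁻ t in Icc (-(2 * R)) (2 * R), (ENNReal.ofReal (X t) ^ q +
            ENNReal.ofReal ((q - 1) * l ^ q)) := by
          apply lintegral_mono
          intro t
          show ENNReal.ofReal (q * l ^ (q - 1) * X t) ≤ ENNReal.ofReal (X t) ^ q +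
            ENNReal.ofReal ((q - 1) * l ^ q)
          rw [ENNReal.ofReal_rpow_of_nonneg (hX0 t) (by linarith), ← ENNReal.ofReal_add
            (Real.rpow_nonneg (hX0 t) _) (mul_nonneg (by linarith) hlq)]
          exact ENNReal.ofReal_le_ofReal (AV_tangent_ge hq (hX0 t) hlpos)
      _ = (∫⁻ t in Icc (-(2 * R)) (2 * R), ENNReal.ofReal (X t) ^ q) +
            ENNReal.ofReal ((q - 1) * l ^ q * (4 * R)) := by
          rw [lintegral_add_right _ measurable_const, setLIntegral_const, Real.volume_Icc,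
            ← ENNReal.ofReal_mul (mul_nonneg (by linarith) hlq)]
          congr 3
          ring
      _ ≤ _ := by
          gcongr
          exact Measure.restrict_le_self
  -- combine
  have hcomb : ENNReal.ofReal (q * l ^ (q - 1) * ∫ t in Icc (-(2 * R)) (2 * R), X t) ≤
      ENNReal.ofReal (C * (Mb ^ (q - 1) * (n * ∫ t, b t)) + (q - 1) * l ^ q * (4 * R)) := by
    rw [ENNReal.ofReal_add (by positivity) (mul_nonneg (mul_nonneg (by linarith) hlq) (by positivity)),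
      ENNReal.ofReal_mul hC]
    refine hL.trans ?_
    gcongr
    exact hint.trans (by gcongr)
  have hreal : q * l ^ (q - 1) * (n * ∫ t in Icc (-R) R, a t) ≤
      C * (Mb ^ (q - 1) * (n * ∫ t, b t)) + (q - 1) * l ^ q * (4 * R) := by
    have h1 := (ENNReal.ofReal_le_ofReal_iff (by
      have : 0 ≤ (q - 1) * l ^ q * (4 * R) := mul_nonneg (mul_nonneg (by linarith) hlq) (by positivity)
      positivity)).mp hcomb
    refine le_trans ?_ h1
    exact mul_le_mul_of_nonneg_left hIint (mul_nonneg (by linarith) hlq1)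
  have hRn : 4 * R ≤ n * (4 * η / m) := by
    rw [div_le_iff₀ hη] at hcard
    rw [mul_div_assoc', le_div_iff₀ hm]
    nlinarith
  have hreal2 : n * (q * l ^ (q - 1) * ∫ t in Icc (-R) R, a t) ≤
      n * (C * (Mb ^ (q - 1) * ∫ t, b t) + (q - 1) * l ^ q * (4 * η / m)) := by
    have h1 : (q - 1) * l ^ q * (4 * R) ≤ (q - 1) * l ^ q * (n * (4 * η / m)) :=
      mul_le_mul_of_nonneg_left hRn (mul_nonneg (by linarith) hlq)
    linarith [hreal, h1]
  have hreal3 := le_of_mul_le_mul_left hreal2 hnpos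
  have hηq : 0 < η ^ (q - 1) := Real.rpow_pos_of_pos hη _
  have e1 : l ^ (q - 1) * η ^ (q - 1) = μ ^ (q - 1) := by
    rw [← Real.mul_rpow hlpos.le hη.le, hl, div_mul_cancel₀ _ hη.ne']
  have e2 : Mb ^ (q - 1) * η ^ (q - 1) = ((∫ t, b t) + 3 * Real.pi * D * η) ^ (q - 1) := by
    rw [← Real.mul_rpow hMb0 hη.le, hMb, div_mul_cancel₀ _ hη.ne']
  have e3 : l ^ q * η * η ^ (q - 1) = μ ^ q := by
    have : η * η ^ (q - 1) = η ^ q := by
      rw [mul_comm, ← Real.rpow_add_one hη.ne']; congr 1; ring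
    rw [mul_assoc, this, ← Real.mul_rpow hlpos.le hη.le, hl, div_mul_cancel₀ _ hη.ne']
  have hreal4 := mul_le_mul_of_nonneg_right hreal3 hηq.le
  calc q * μ ^ (q - 1) * (∫ t in Icc (-R) R, a t)
      = (q * l ^ (q - 1) * ∫ t in Icc (-R) R, a t) * η ^ (q - 1) := by rw [← e1]; ring
    _ ≤ _ := hreal4
    _ = _ := by rw [← e2, ← e3]; ring

theorem AV_tail_integrable {q : ℝ} (hq : 1 / 2 < q) :
    Integrable (fun t : ℝ => (1 + t ^ 2) ^ (-q)) := by
  have h := integrable_rpow_neg_one_add_norm_sq (E := ℝ) (μ := volume) (r := 2 * q) (by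
    rw [Module.finrank_self]; push_cast; linarith)
  have e : (fun x : ℝ => ((1 : ℝ) + ‖x‖ ^ 2) ^ (-(2 * q) / 2)) = fun t : ℝ => (1 + t ^ 2) ^ (-q) := by
    funext x
    rw [Real.norm_eq_abs, sq_abs]
    congr 1
    ring
  rw [e] at h
  exact h

/-- main inequality, `1/2 < q < 1` -/
theorem AV_main_lt {q : ℝ} (hq0 : 1 / 2 < q) (hq : q < 1) {m C : ℝ} (hm : 0 < m) (hC : 0 ≤ C)
    {a b : ℝ → ℝ}
    {D : ℝ} (ha : AVNice D a) (hb : AVNice D b) {η : ℝ} (hη : 0 < η) (hη1 : η ≤ 1) {R : ℝ}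
    (hR : 0 < R) (S : Finset ℤ) (hS : ∀ k ∈ S, |(k : ℝ) * η| ≤ R)
    (hcard : m * R / η ≤ (S.card : ℝ))
    (hint : ∫⁻ t : ℝ, ENNReal.ofReal (∑ k ∈ S, a (t - k * η)) ^ q
          ≤ ENNReal.ofReal C * ∫⁻ t : ℝ, ENNReal.ofReal (∑ k ∈ S, b (t - k * η)) ^ q)
    (hA : 0 < ∫ t, a t) {μ : ℝ} (hμ : 0 < μ) :
    ((∫ t, a t) + 3 * Real.pi * D * η) ^ (q - 1) * (∫ t, a t) ≤
      C * ((1 - q) * μ ^ q * (4 / m) + q * μ ^ (q - 1) * (∫ t, b t) +
        (4 * D) ^ q * η ^ (q - 1) * ∫ t in (Icc (-(2 * R)) (2 * R))ᶜ, (1 + t ^ 2) ^ (-q)) := by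
  have hD := ha.D_nonneg
  have hqpos : 0 < q := by linarith
  set n : ℝ := (S.card : ℝ) with hn
  have hnpos : 0 < n := lt_of_lt_of_le (by positivity) hcard
  have hn1 : 1 ≤ n := by
    have h1 : 0 < S.card := by
      rw [hn] at hnpos
      exact_mod_cast hnpos
    rw [hn]
    exact_mod_cast h1
  have hB0 : 0 ≤ ∫ t, b t := integral_nonneg fun t => (hb.bd t).1
  set l : ℝ := μ / η with hl
  have hlpos : 0 < l := by positivity
  set X : ℝ → ℝ := fun t => ∑ k ∈ S, a (t - k * η) with hX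
  set Y : ℝ → ℝ := fun t => ∑ k ∈ S, b (t - k * η) with hY
  have hXi : Integrable X := AV_sum_integrable ha S η
  have hYi : Integrable Y := AV_sum_integrable hb S η
  have hX0 : ∀ t, 0 ≤ X t := fun t => AV_sum_nonneg ha S η t
  have hY0 : ∀ t, 0 ≤ Y t := fun t => AV_sum_nonneg hb S η t
  set Ma : ℝ := ((∫ t, a t) + 3 * Real.pi * D * η) / η with hMa
  have hMa0 : 0 < Ma := by
    have : 0 ≤ 3 * Real.pi * D * η := by positivity
    positivity
  have hLo := AV_lint_ge hqpos hq.le hXi hX0 hMa0 (fun t => AV_riemann ha hη hη1 S t)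
  have hXint : ∫ t, X t = n * ∫ t, a t := AV_sum_integral ha S η
  rw [hXint] at hLo
  have hYint : ∫ t, Y t = n * ∫ t, b t := AV_sum_integral hb S η
  have hlq1 : 0 ≤ l ^ (q - 1) := Real.rpow_nonneg hlpos.le _
  have hlq : 0 ≤ l ^ q := Real.rpow_nonneg hlpos.le _
  set I : Set ℝ := Icc (-(2 * R)) (2 * R) with hI
  set T : ℝ := ∫ t in Iᶜ, (1 + t ^ 2) ^ (-q) with hT
  have hT0 : 0 ≤ T := integral_nonneg fun t => Real.rpow_nonneg (by positivity) _
  -- upper bound inside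
  have hin : ∫⁻ t in I, ENNReal.ofReal (Y t) ^ q ≤
      ENNReal.ofReal ((1 - q) * l ^ q * (4 * R) + q * l ^ (q - 1) * (n * ∫ t, b t)) := by
    have hfi : IntegrableOn (fun t => (1 - q) * l ^ q + q * l ^ (q - 1) * Y t) I :=
      (continuous_const.integrableOn_Icc).add ((hYi.const_mul _).integrableOn)
    have hnn : ∀ t, 0 ≤ (1 - q) * l ^ q + q * l ^ (q - 1) * Y t := fun t =>
      add_nonneg (mul_nonneg (by linarith) hlq) (mul_nonneg (mul_nonneg hqpos.le hlq1) (hY0 t))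
    calc ∫⁻ t in I, ENNReal.ofReal (Y t) ^ q
        ≤ ∫⁻ t in I, ENNReal.ofReal ((1 - q) * l ^ q + q * l ^ (q - 1) * Y t) := by
          apply lintegral_mono
          intro t
          show ENNReal.ofReal (Y t) ^ q ≤ ENNReal.ofReal ((1 - q) * l ^ q + q * l ^ (q - 1) * Y t)
          rw [ENNReal.ofReal_rpow_of_nonneg (hY0 t) hqpos.le]
          exact ENNReal.ofReal_le_ofReal (AV_tangent_le hqpos.le hq.le (hY0 t) hlpos)
      _ = ENNReal.ofReal (∫ t in I, ((1 - q) * l ^ q + q * l ^ (q - 1) * Y t)) :=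
          (ofReal_integral_eq_lintegral_ofReal hfi (Eventually.of_forall hnn)).symm
      _ ≤ _ := by
          apply ENNReal.ofReal_le_ofReal
          rw [integral_add (continuous_const.integrableOn_Icc) ((hYi.const_mul _).integrableOn),
            setIntegral_const, Real.volume_real_Icc_of_le (by linarith), integral_const_mul]
          have h1 : ∫ t in I, Y t ≤ ∫ t, Y t :=
            setIntegral_le_integral hYi (Eventually.of_forall hY0)
          rw [hYint] at h1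
          have h2 := mul_le_mul_of_nonneg_left h1 (mul_nonneg hqpos.le hlq1)
          rw [smul_eq_mul]
          linarith
  -- upper bound outside
  have hout : ∫⁻ t in Iᶜ, ENNReal.ofReal (Y t) ^ q ≤ ENNReal.ofReal ((n * (4 * D)) ^ q * T) := by
    have hfi : IntegrableOn (fun t : ℝ => (n * (4 * D)) ^ q * (1 + t ^ 2) ^ (-q)) Iᶜ :=
      ((AV_tail_integrable hq0).const_mul _).integrableOn
    rw [hT, ← integral_const_mul, ofReal_integral_eq_lintegral_ofReal hfi
      (Eventually.of_forall fun t => mul_nonneg (Real.rpow_nonneg (by positivity) _)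
        (Real.rpow_nonneg (by positivity) _))]
    apply setLIntegral_mono' measurableSet_Icc.compl
    intro t ht
    rw [ENNReal.ofReal_rpow_of_nonneg (hY0 t) hqpos.le]
    apply ENNReal.ofReal_le_ofReal
    rw [Real.rpow_neg (by positivity), ← Real.inv_rpow (by positivity),
      ← Real.mul_rpow (by positivity) (by positivity)]
    apply Real.rpow_le_rpow (hY0 t) _ hqpos.le
    have hterm : ∀ k ∈ S, b (t - k * η) ≤ 4 * D * (1 + t ^ 2)⁻¹ := by
      intro k hk
      refine (hb.bd _).2.trans ?_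
      rw [← div_eq_mul_inv, div_le_div_iff₀ (by positivity) (by positivity)]
      have hk' := abs_le.mp (hS k hk)
      have h4 : t ^ 2 ≤ 4 * (t - k * η) ^ 2 := by
        rw [mem_compl_iff, mem_Icc, not_and_or] at ht
        push Not at ht
        rcases ht with ht | ht
        · nlinarith
        · nlinarith
      nlinarith
    calc Y t ≤ ∑ k ∈ S, 4 * D * (1 + t ^ 2)⁻¹ := Finset.sum_le_sum hterm
      _ = n * (4 * D) * (1 + t ^ 2)⁻¹ := by
          rw [Finset.sum_const, nsmul_eq_mul]; ring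
  have hsplit : ∫⁻ t, ENNReal.ofReal (Y t) ^ q ≤ ENNReal.ofReal
      ((1 - q) * l ^ q * (4 * R) + q * l ^ (q - 1) * (n * ∫ t, b t) + (n * (4 * D)) ^ q * T) := by
    rw [ENNReal.ofReal_add (add_nonneg (mul_nonneg (mul_nonneg (by linarith) hlq) (by positivity))
      (by positivity)) (by positivity), ← lintegral_add_compl _ (measurableSet_Icc (a := -(2 * R)) (b := 2 * R))]
    exact add_le_add hin hout
  have hreal : Ma ^ (q - 1) * (n * ∫ t, a t) ≤
      C * ((1 - q) * l ^ q * (4 * R) + q * l ^ (q - 1) * (n * ∫ t, b t) +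
        (n * (4 * D)) ^ q * T) := by
    have h0 : 0 ≤ (1 - q) * l ^ q * (4 * R) + q * l ^ (q - 1) * (n * ∫ t, b t) +
        (n * (4 * D)) ^ q * T :=
      add_nonneg (add_nonneg (mul_nonneg (mul_nonneg (by linarith) hlq) (by positivity))
        (by positivity)) (by positivity)
    have h1 : ENNReal.ofReal (Ma ^ (q - 1) * (n * ∫ t, a t)) ≤ ENNReal.ofReal
        (C * ((1 - q) * l ^ q * (4 * R) + q * l ^ (q - 1) * (n * ∫ t, b t) +
        (n * (4 * D)) ^ q * T)) := by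
      rw [ENNReal.ofReal_mul hC]
      exact hLo.trans (hint.trans (by gcongr))
    exact (ENNReal.ofReal_le_ofReal_iff (mul_nonneg hC h0)).mp h1
  have hRn : 4 * R ≤ n * (4 * η / m) := by
    rw [div_le_iff₀ hη] at hcard
    rw [mul_div_assoc', le_div_iff₀ hm]
    nlinarith
  have hnq : (n * (4 * D)) ^ q ≤ n * (4 * D) ^ q := by
    rw [Real.mul_rpow hnpos.le (by positivity)]
    apply mul_le_mul_of_nonneg_right _ (Real.rpow_nonneg (by positivity) _)
    calc n ^ q ≤ n ^ (1 : ℝ) := Real.rpow_le_rpow_of_exponent_le hn1 hq.le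
      _ = n := Real.rpow_one n
  have hreal2 : n * (Ma ^ (q - 1) * ∫ t, a t) ≤
      n * (C * ((1 - q) * l ^ q * (4 * η / m) + q * l ^ (q - 1) * (∫ t, b t) +
        (4 * D) ^ q * T)) := by
    have h1 : (1 - q) * l ^ q * (4 * R) ≤ (1 - q) * l ^ q * (n * (4 * η / m)) :=
      mul_le_mul_of_nonneg_left hRn (mul_nonneg (by linarith) hlq)
    have h2 : (n * (4 * D)) ^ q * T ≤ n * (4 * D) ^ q * T := mul_le_mul_of_nonneg_right hnq hT0
    calc n * (Ma ^ (q - 1) * ∫ t, a t) = Ma ^ (q - 1) * (n * ∫ t, a t) := by ring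
      _ ≤ _ := hreal
      _ ≤ C * ((1 - q) * l ^ q * (n * (4 * η / m)) + q * l ^ (q - 1) * (n * ∫ t, b t) +
        n * (4 * D) ^ q * T) := by
          apply mul_le_mul_of_nonneg_left _ hC
          linarith
      _ = _ := by ring
  have hreal3 := le_of_mul_le_mul_left hreal2 hnpos
  have hηq : 0 < η ^ (q - 1) := Real.rpow_pos_of_pos hη _
  have e1 : l ^ (q - 1) * η ^ (q - 1) = μ ^ (q - 1) := by
    rw [← Real.mul_rpow hlpos.le hη.le, hl, div_mul_cancel₀ _ hη.ne']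
  have e2 : Ma ^ (q - 1) * η ^ (q - 1) = ((∫ t, a t) + 3 * Real.pi * D * η) ^ (q - 1) := by
    rw [← Real.mul_rpow hMa0.le hη.le, hMa, div_mul_cancel₀ _ hη.ne']
  have e3 : l ^ q * η * η ^ (q - 1) = μ ^ q := by
    have : η * η ^ (q - 1) = η ^ q := by
      rw [mul_comm, ← Real.rpow_add_one hη.ne']; congr 1; ring
    rw [mul_assoc, this, ← Real.mul_rpow hlpos.le hη.le, hl, div_mul_cancel₀ _ hη.ne']
  have hreal4 := mul_le_mul_of_nonneg_right hreal3 hηq.le
  calc ((∫ t, a t) + 3 * Real.pi * D * η) ^ (q - 1) * (∫ t, a t)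
      = (Ma ^ (q - 1) * ∫ t, a t) * η ^ (q - 1) := by rw [← e2]; ring
    _ ≤ _ := hreal4
    _ = _ := by rw [← e1, ← e3]; ring

theorem AV_tendsto_Icc {f : ℝ → ℝ} (hf : Integrable f) :
    Tendsto (fun R : ℝ => ∫ t in Icc (-R) R, f t) atTop (𝓝 (∫ t, f t)) :=
  (aecover_Icc tendsto_neg_atTop_atBot tendsto_id).integral_tendsto_of_countably_generated hf

theorem AV_tendsto_compl {f : ℝ → ℝ} (hf : Integrable f) :
    Tendsto (fun R : ℝ => ∫ t in (Icc (-(2 * R)) (2 * R))ᶜ, f t) atTop (𝓝 0) := by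
  have h1 : Tendsto (fun R : ℝ => ∫ t in Icc (-(2 * R)) (2 * R), f t) atTop (𝓝 (∫ t, f t)) :=
    (AV_tendsto_Icc hf).comp (tendsto_id.const_mul_atTop (show (0 : ℝ) < 2 by norm_num))
  have h2 : ∀ R : ℝ, ∫ t in (Icc (-(2 * R)) (2 * R))ᶜ, f t =
      (∫ t, f t) - ∫ t in Icc (-(2 * R)) (2 * R), f t := by
    intro R
    rw [← integral_add_compl (measurableSet_Icc (a := -(2 * R)) (b := 2 * R)) hf]
    ring
  simp only [h2]
  simpa using h1.const_sub (∫ t, f t)

theorem AV_rpow_tendsto {B c e : ℝ} (h : B ≠ 0 ∨ 0 ≤ e) :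
    Tendsto (fun η : ℝ => (B + c * η) ^ e) (𝓝[>] 0) (𝓝 (B ^ e)) := by
  have h1 : Tendsto (fun η : ℝ => B + c * η) (𝓝[>] 0) (𝓝 B) := by
    have : Tendsto (fun η : ℝ => B + c * η) (𝓝 0) (𝓝 (B + c * 0)) :=
      Continuous.tendsto (by fun_prop) 0
    rw [mul_zero, add_zero] at this
    exact this.mono_left nhdsWithin_le_nhds
  exact (Real.continuousAt_rpow_const B e h).tendsto.comp h1

theorem AV_final_ge {q : ℝ} (hq : 1 ≤ q) {m C : ℝ} (hm : 0 < m) (hC : 0 ≤ C)
    {a b : ℝ → ℝ} {D η₀ : ℝ} (hη₀ : 0 < η₀) (ha : AVNice D a) (hb : AVNice D b)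
    (H : ∀ η : ℝ, 0 < η → η < η₀ → ∃ R₀ : ℝ, ∀ R : ℝ, R₀ ≤ R → ∃ S : Finset ℤ,
        (∀ k ∈ S, |(k : ℝ) * η| ≤ R) ∧ m * R / η ≤ (S.card : ℝ) ∧
        ∫⁻ t : ℝ, ENNReal.ofReal (∑ k ∈ S, a (t - k * η)) ^ q
          ≤ ENNReal.ofReal C * ∫⁻ t : ℝ, ENNReal.ofReal (∑ k ∈ S, b (t - k * η)) ^ q)
    (hA : 0 < ∫ t, a t) :
    (∫ t, a t) ^ q ≤ C * (4 / m) ^ |q - 1| * (∫ t, b t) ^ q := by
  rw [abs_of_nonneg (by linarith)]
  have hB0 : 0 ≤ ∫ t, b t := integral_nonneg fun t => (hb.bd t).1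
  set A := ∫ t, a t with hAdef
  set B := ∫ t, b t with hBdef
  set μ : ℝ := m * A / 4 with hμdef
  have hμ : 0 < μ := by positivity
  -- limit in R
  have h1 : ∀ η : ℝ, 0 < η → η < min η₀ 1 →
      q * μ ^ (q - 1) * A ≤ C * ((B + 3 * Real.pi * D * η) ^ (q - 1) * B) +
        (q - 1) * μ ^ q * (4 / m) := by
    intro η hη hη1
    obtain ⟨R₀, hR₀⟩ := H η hη (lt_of_lt_of_le hη1 (min_le_left _ _))
    have hlim : Tendsto (fun R : ℝ => q * μ ^ (q - 1) * (∫ t in Icc (-R) R, a t)) atTop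
        (𝓝 (q * μ ^ (q - 1) * A)) := (AV_tendsto_Icc ha.integrable).const_mul _
    apply le_of_tendsto hlim
    filter_upwards [eventually_ge_atTop (max R₀ 1)] with R hR
    obtain ⟨S, hS1, hS2, hS3⟩ := hR₀ R ((le_max_left _ _).trans hR)
    exact AV_main_ge hq hm hC ha hb hη (hη1.le.trans (min_le_right _ _))
      (lt_of_lt_of_le one_pos ((le_max_right _ _).trans hR)) S hS1 hS2 hS3 hμ
  have h2 : q * μ ^ (q - 1) * A ≤ C * (B ^ (q - 1) * B) + (q - 1) * μ ^ q * (4 / m) := by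
    have hlim : Tendsto (fun η : ℝ => C * ((B + 3 * Real.pi * D * η) ^ (q - 1) * B) +
        (q - 1) * μ ^ q * (4 / m)) (𝓝[>] 0) (𝓝 (C * (B ^ (q - 1) * B) +
          (q - 1) * μ ^ q * (4 / m))) :=
      (((AV_rpow_tendsto (Or.inr (by linarith))).mul_const B).const_mul C).add_const _
    apply ge_of_tendsto hlim
    have hpos : (0 : ℝ) < min η₀ 1 := lt_min hη₀ one_pos
    filter_upwards [Ioo_mem_nhdsGT hpos] with η hη
    exact h1 η hη.1 hη.2
  have e1 : B ^ (q - 1) * B = B ^ q := by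
    rcases hB0.eq_or_lt with h0 | h0
    · rw [← h0, mul_zero, Real.zero_rpow (by linarith)]
    · rw [← Real.rpow_add_one h0.ne']; congr 1; ring
  have e2 : μ ^ q = μ ^ (q - 1) * μ := by
    rw [← Real.rpow_add_one hμ.ne']; congr 1; ring
  have e3 : (q - 1) * μ ^ q * (4 / m) = (q - 1) * μ ^ (q - 1) * A := by
    rw [e2, hμdef]; field_simp
  rw [e1, e3] at h2
  have h3 : μ ^ (q - 1) * A ≤ C * B ^ q := by linarith
  have e4 : μ ^ (q - 1) * A = (m / 4) ^ (q - 1) * A ^ q := by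
    have : A ^ q = A ^ (q - 1) * A := by
      rw [← Real.rpow_add_one hA.ne']; congr 1; ring
    rw [this, ← mul_assoc, ← Real.mul_rpow (by positivity) hA.le]
    congr 2
    rw [hμdef]; ring
  rw [e4] at h3
  have h4 := mul_le_mul_of_nonneg_left h3 (Real.rpow_nonneg (show (0 : ℝ) ≤ 4 / m by positivity) (q - 1))
  have e5 : (4 / m) ^ (q - 1) * (m / 4) ^ (q - 1) = 1 := by
    rw [← Real.mul_rpow (by positivity) (by positivity)]
    have : 4 / m * (m / 4) = 1 := by field_simp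
    rw [this, Real.one_rpow]
  calc A ^ q = (4 / m) ^ (q - 1) * ((m / 4) ^ (q - 1) * A ^ q) := by
        rw [← mul_assoc, e5, one_mul]
    _ ≤ _ := h4
    _ = _ := by ring

theorem AV_final_lt {q : ℝ} (hq0 : 1 / 2 < q) (hq : q < 1) {m C : ℝ} (hm : 0 < m) (hC : 0 ≤ C)
    {a b : ℝ → ℝ} {D η₀ : ℝ} (hη₀ : 0 < η₀) (ha : AVNice D a) (hb : AVNice D b)
    (H : ∀ η : ℝ, 0 < η → η < η₀ → ∃ R₀ : ℝ, ∀ R : ℝ, R₀ ≤ R → ∃ S : Finset ℤ,
        (∀ k ∈ S, |(k : ℝ) * η| ≤ R) ∧ m * R / η ≤ (S.card : ℝ) ∧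
        ∫⁻ t : ℝ, ENNReal.ofReal (∑ k ∈ S, a (t - k * η)) ^ q
          ≤ ENNReal.ofReal C * ∫⁻ t : ℝ, ENNReal.ofReal (∑ k ∈ S, b (t - k * η)) ^ q)
    (hA : 0 < ∫ t, a t) :
    (∫ t, a t) ^ q ≤ C * (4 / m) ^ |q - 1| * (∫ t, b t) ^ q := by
  have habs : |q - 1| = 1 - q := by rw [abs_of_neg (by linarith)]; ring
  rw [habs]
  have hqpos : 0 < q := by linarith
  have hB0 : 0 ≤ ∫ t, b t := integral_nonneg fun t => (hb.bd t).1
  set A := ∫ t, a t with hAdef
  set B := ∫ t, b t with hBdef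
  have e0 : A ^ (q - 1) * A = A ^ q := by
    rw [← Real.rpow_add_one hA.ne']; congr 1; ring
  have h1 : ∀ μ : ℝ, 0 < μ → ∀ η : ℝ, 0 < η → η < min η₀ 1 →
      (A + 3 * Real.pi * D * η) ^ (q - 1) * A ≤
        C * ((1 - q) * μ ^ q * (4 / m) + q * μ ^ (q - 1) * B + 0) := by
    intro μ hμ η hη hη1
    obtain ⟨R₀, hR₀⟩ := H η hη (lt_of_lt_of_le hη1 (min_le_left _ _))
    have hlim : Tendsto (fun R : ℝ => C * ((1 - q) * μ ^ q * (4 / m) + q * μ ^ (q - 1) * B +
        (4 * D) ^ q * η ^ (q - 1) * ∫ t in (Icc (-(2 * R)) (2 * R))ᶜ, (1 + t ^ 2) ^ (-q))) atTop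
        (𝓝 (C * ((1 - q) * μ ^ q * (4 / m) + q * μ ^ (q - 1) * B +
          (4 * D) ^ q * η ^ (q - 1) * 0))) :=
      (((AV_tendsto_compl (AV_tail_integrable hq0)).const_mul _).const_add _).const_mul _
    rw [mul_zero] at hlim
    apply ge_of_tendsto hlim
    filter_upwards [eventually_ge_atTop (max R₀ 1)] with R hR
    obtain ⟨S, hS1, hS2, hS3⟩ := hR₀ R ((le_max_left _ _).trans hR)
    exact AV_main_lt hq0 hq hm hC ha hb hη (hη1.le.trans (min_le_right _ _))
      (lt_of_lt_of_le one_pos ((le_max_right _ _).trans hR)) S hS1 hS2 hS3 hA hμ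
  have h2 : ∀ μ : ℝ, 0 < μ → A ^ q ≤
      C * ((1 - q) * μ ^ q * (4 / m) + q * μ ^ (q - 1) * B) := by
    intro μ hμ
    have hlim : Tendsto (fun η : ℝ => (A + 3 * Real.pi * D * η) ^ (q - 1) * A) (𝓝[>] 0)
        (𝓝 (A ^ (q - 1) * A)) :=
      (AV_rpow_tendsto (Or.inl hA.ne')).mul_const A
    rw [e0] at hlim
    apply le_of_tendsto hlim
    have hpos : (0 : ℝ) < min η₀ 1 := lt_min hη₀ one_pos
    filter_upwards [Ioo_mem_nhdsGT hpos] with η hη
    have := h1 μ hμ η hη.1 hη.2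
    rw [add_zero] at this
    exact this
  rcases hB0.eq_or_lt with h0 | h0
  · have hlim : Tendsto (fun μ : ℝ => C * ((1 - q) * μ ^ q * (4 / m) + q * μ ^ (q - 1) * B))
        (𝓝[>] 0) (𝓝 0) := by
      have e : (fun μ : ℝ => C * ((1 - q) * μ ^ q * (4 / m) + q * μ ^ (q - 1) * B)) =
          fun μ : ℝ => (C * (1 - q) * (4 / m)) * μ ^ q := by
        funext μ
        rw [← h0]; ring
      rw [e]
      have h3 : Tendsto (fun μ : ℝ => μ ^ q) (𝓝[>] 0) (𝓝 ((0 : ℝ) ^ q)) :=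
        (Real.continuousAt_rpow_const 0 q (Or.inr hqpos.le)).tendsto.mono_left nhdsWithin_le_nhds
      rw [Real.zero_rpow hqpos.ne'] at h3
      simpa using h3.const_mul (C * (1 - q) * (4 / m))
    have h4 : A ^ q ≤ 0 := by
      apply ge_of_tendsto hlim
      filter_upwards [self_mem_nhdsWithin] with μ hμ
      exact h2 μ hμ
    have h5 := Real.rpow_pos_of_pos hA q
    exact absurd h5 (not_lt.mpr h4)
  · set μ : ℝ := m * B / 4 with hμdef
    have hμ : 0 < μ := by positivity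
    have h3 := h2 μ hμ
    have e2 : μ ^ q = μ ^ (q - 1) * μ := by
      rw [← Real.rpow_add_one hμ.ne']; congr 1; ring
    have e3 : (1 - q) * μ ^ q * (4 / m) = (1 - q) * μ ^ (q - 1) * B := by
      rw [e2, hμdef]; field_simp
    rw [e3] at h3
    have e4 : (1 - q) * μ ^ (q - 1) * B + q * μ ^ (q - 1) * B = μ ^ (q - 1) * B := by ring
    rw [e4] at h3
    have e5 : μ ^ (q - 1) * B = (4 / m) ^ (1 - q) * B ^ q := by
      have h6 : B ^ q = B ^ (q - 1) * B := by
        rw [← Real.rpow_add_one h0.ne']; congr 1; ring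
      have h7 : (4 / m) ^ (1 - q) = (m / 4) ^ (q - 1) := by
        rw [← inv_div, Real.inv_rpow (by positivity), ← Real.rpow_neg (by positivity)]
        congr 1
        ring
      rw [h6, h7, ← mul_assoc, ← Real.mul_rpow (by positivity) h0.le]
      congr 2
      rw [hμdef]; ring
    rw [e5] at h3
    linarith

/-- Averaging lemma for the passage from square functions of translates to `L²` norms. -/
theorem averaging {p : ℝ} (hp : 1 < p) {m C : ℝ} (hm : 0 < m) (hC : 0 ≤ C) :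
    ∃ C' : ℝ, 0 ≤ C' ∧ ∀ (a b : ℝ → ℝ) (D η₀ : ℝ), 0 < η₀ → Continuous a → Continuous b →
      (∀ t, 0 ≤ a t ∧ a t ≤ D / (1 + t ^ 2)) → (∀ t, 0 ≤ b t ∧ b t ≤ D / (1 + t ^ 2)) →
      (∀ x y, |x - y| ≤ 1 → |a x - a y| ≤ D * |x - y| / (1 + x ^ 2)) →
      (∀ x y, |x - y| ≤ 1 → |b x - b y| ≤ D * |x - y| / (1 + x ^ 2)) →
      (∀ η : ℝ, 0 < η → η < η₀ → ∃ R₀ : ℝ, ∀ R : ℝ, R₀ ≤ R → ∃ S : Finset ℤ,
        (∀ k ∈ S, |(k : ℝ) * η| ≤ R) ∧ m * R / η ≤ (S.card : ℝ) ∧
        ∫⁻ t : ℝ, ENNReal.ofReal (∑ k ∈ S, a (t - k * η)) ^ (p / 2)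
          ≤ ENNReal.ofReal C * ∫⁻ t : ℝ, ENNReal.ofReal (∑ k ∈ S, b (t - k * η)) ^ (p / 2)) →
      ∫ t : ℝ, a t ≤ C' * ∫ t : ℝ, b t := by
  have hqpos : 0 < p / 2 := by linarith
  refine ⟨(C * (4 / m) ^ |p / 2 - 1|) ^ (p / 2)⁻¹, Real.rpow_nonneg (by positivity) _, ?_⟩
  intro a b D η₀ hη₀ hac hbc hab hbb hal hbl H
  have ha : AVNice D a := ⟨hac, hab, hal⟩
  have hb : AVNice D b := ⟨hbc, hbb, hbl⟩
  have hA0 : 0 ≤ ∫ t, a t := integral_nonneg fun t => (ha.bd t).1
  have hB0 : 0 ≤ ∫ t, b t := integral_nonneg fun t => (hb.bd t).1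
  have hK : 0 ≤ C * (4 / m) ^ |p / 2 - 1| := by positivity
  rcases hA0.eq_or_lt with h0 | h0
  · rw [← h0]
    exact mul_nonneg (Real.rpow_nonneg hK _) hB0
  · have key : (∫ t, a t) ^ (p / 2) ≤ C * (4 / m) ^ |p / 2 - 1| * (∫ t, b t) ^ (p / 2) := by
      rcases le_or_gt 1 (p / 2) with h1 | h1
      · exact AV_final_ge h1 hm hC hη₀ ha hb H h0
      · exact AV_final_lt (by linarith) h1 hm hC hη₀ ha hb H h0
    rw [← Real.rpow_le_rpow_iff hA0 (mul_nonneg (Real.rpow_nonneg hK _) hB0) hqpos,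
      Real.mul_rpow (Real.rpow_nonneg hK _) hB0, ← Real.rpow_mul hK, inv_mul_cancel₀ hqpos.ne',
      Real.rpow_one]
    exact key

end D2
end Pool.Agent.Helper865.TAP
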