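import Pool.Agent.Helper865.TAP.Defs


set_option autoImplicit false

open MeasureTheory Filter Topology Set Metric
open scoped ENNReal NNReal

namespace Pool.Agent.Helper865.TAP
namespace D3



variable {X : Type*} [NormedAddCommGroup X] [NormedSpace ℂ X] [CompleteSpace X]

/-- Left-Fredholm operators asymptotically commuting with escaping isometries are bounded below. -/
theorem bounded_below_of_leftFredholm (T : X →L[ℂ] X) (V : ℕ → X ≃ₗᵢ[ℂ] X)
    (hcomm : ∀ f : X, Tendsto (fun j => ‖T (V j f) - V j (T f)‖) atTop (𝓝 0))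
    (hweak : ∀ (Φ : X →L[ℂ] ℂ) (f : X), Tendsto (fun j => Φ (V j f)) atTop (𝓝 0))
    (hcl : IsClosed (Set.range T)) (hker : FiniteDimensional ℂ (LinearMap.ker (T : X →ₗ[ℂ] X))) :
    ∃ c : ℝ, 0 < c ∧ ∀ f : X, ‖f‖ ≤ c * ‖T f‖ := by
  have hpre : ∃ C > 0, ∀ f : X, ∃ x : X, T x = T f ∧ ‖x‖ ≤ C * ‖T f‖ := by
    set R : Submodule ℂ X := LinearMap.range (T : X →ₗ[ℂ] X) with hR
    have hRc : IsClosed (R : Set X) := by
      have : (R : Set X) = Set.range T := by
        rw [hR, LinearMap.coe_range]; rfl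
      rw [this]; exact hcl
    haveI : CompleteSpace R := hRc.completeSpace_coe
    let T' : X →L[ℂ] R := T.codRestrict R (fun x => ⟨x, rfl⟩)
    have hsurj : Function.Surjective T' := by
      rintro ⟨y, x, rfl⟩
      exact ⟨x, rfl⟩
    obtain ⟨C, hC, h⟩ := T'.exists_preimage_norm_le hsurj
    refine ⟨C, hC, fun f => ?_⟩
    obtain ⟨x, hx, hxn⟩ := h (T' f)
    exact ⟨x, congrArg Subtype.val hx, hxn⟩
  obtain ⟨C, hC, hpre⟩ := hpre
  have hinj : ∀ f : X, T f = 0 → f = 0 := by
    intro f hf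
    choose x hx hxn using fun j => hpre (V j f)
    have hTV : Tendsto (fun j => ‖T (V j f)‖) atTop (𝓝 0) := by
      have := hcomm f
      simpa [hf] using this
    have hx0 : Tendsto x atTop (𝓝 0) := by
      rw [tendsto_zero_iff_norm_tendsto_zero]
      refine squeeze_zero (fun j => norm_nonneg _) hxn ?_
      simpa using hTV.const_mul C
    set K : Submodule ℂ X := LinearMap.ker (T : X →ₗ[ℂ] X) with hK
    haveI : FiniteDimensional ℂ K := hker
    haveI : ProperSpace K := FiniteDimensional.proper ℂ K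
    let k : ℕ → K := fun j => ⟨V j f - x j, by
      rw [hK, LinearMap.mem_ker]
      change T (V j f - x j) = 0
      rw [map_sub, hx, sub_self]⟩
    obtain ⟨M, hM⟩ : ∃ M, ∀ j, ‖k j‖ ≤ M := by
      obtain ⟨M, hM⟩ := hx0.norm.bddAbove_range
      refine ⟨‖f‖ + M, fun j => ?_⟩
      calc ‖k j‖ = ‖V j f - x j‖ := rfl
        _ ≤ ‖V j f‖ + ‖x j‖ := norm_sub_le _ _
        _ ≤ ‖f‖ + M := by
          rw [LinearIsometryEquiv.norm_map]
          gcongr
          exact hM ⟨j, rfl⟩
    obtain ⟨k0, -, φ, hφ, hlim⟩ := (isCompact_closedBall (0 : K) M).tendsto_subseq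
      (x := k) (fun j => by simpa using hM j)
    have hlim' : Tendsto (fun j => V (φ j) f) atTop (𝓝 (k0 : X)) := by
      have h1 : Tendsto (fun j => ((k (φ j) : K) : X)) atTop (𝓝 (k0 : X)) :=
        (continuous_subtype_val.tendsto k0).comp hlim
      have h2 := h1.add (hx0.comp hφ.tendsto_atTop)
      rw [add_zero] at h2
      refine h2.congr fun j => ?_
      simp [k]
    have hk0 : (k0 : X) = 0 := by
      by_contra hne
      obtain ⟨Φ, hΦ⟩ := SeparatingDual.exists_ne_zero (R := ℂ) hne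
      have h1 : Tendsto (fun j => Φ (V (φ j) f)) atTop (𝓝 (Φ k0)) :=
        (Φ.continuous.tendsto _).comp hlim'
      exact hΦ (tendsto_nhds_unique h1 ((hweak Φ f).comp hφ.tendsto_atTop))
    have h3 : Tendsto (fun j => ‖V (φ j) f‖) atTop (𝓝 ‖(k0 : X)‖) := hlim'.norm
    have h4 : (fun j => ‖V (φ j) f‖) = fun _ => ‖f‖ := by
      funext j; rw [LinearIsometryEquiv.norm_map]
    rw [h4, hk0, norm_zero] at h3
    have := tendsto_nhds_unique h3 tendsto_const_nhds
    exact norm_eq_zero.1 this.symm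
  refine ⟨C, hC, fun f => ?_⟩
  obtain ⟨x, hx, hxn⟩ := hpre f
  have : x = f := by
    rw [← sub_eq_zero]
    apply hinj
    rw [map_sub, hx, sub_self]
  rw [← this, hx]
  exact this ▸ hxn

/-- Right-Fredholm operators asymptotically commuting with escaping isometries are onto. -/
theorem surjective_of_rightFredholm (T : X →L[ℂ] X) (V : ℕ → X ≃ₗᵢ[ℂ] X)
    (hcomm : Tendsto (fun j => ‖T.comp ((V j).symm : X →L[ℂ] X)
      - ((V j).symm : X →L[ℂ] X).comp T‖) atTop (𝓝 0))
    (hweak : ∀ (Φ : X →L[ℂ] ℂ) (f : X), Tendsto (fun j => Φ ((V j).symm f)) atTop (𝓝 0))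
    (hcl : IsClosed (Set.range T))
    (hcok : FiniteDimensional ℂ (X ⧸ LinearMap.range (T : X →ₗ[ℂ] X))) :
    Function.Surjective T := by
  set R : Submodule ℂ X := LinearMap.range (T : X →ₗ[ℂ] X) with hR
  have hRc : IsClosed (R : Set X) := by
    have : (R : Set X) = Set.range T := by
      rw [hR, LinearMap.coe_range]; rfl
    rw [this]; exact hcl
  obtain ⟨F, hF⟩ := Submodule.exists_isCompl R
  haveI : FiniteDimensional ℂ F :=
    (Submodule.quotientEquivOfIsCompl R F hF).finiteDimensional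
  haveI : ProperSpace F := FiniteDimensional.proper ℂ F
  let S : (X × F) →L[ℂ] X := T.coprod F.subtypeL
  have hS : Function.Surjective S := by
    intro y
    have hy : y ∈ R ⊔ F := by rw [hF.sup_eq_top]; trivial
    obtain ⟨a, ⟨x, rfl⟩, b, hb, rfl⟩ := Submodule.mem_sup.1 hy
    exact ⟨(x, ⟨b, hb⟩), rfl⟩
  obtain ⟨C, hC, hpre⟩ := S.exists_preimage_norm_le hS
  have key : ∀ Φ : X →L[ℂ] ℂ, (∀ x, Φ (T x) = 0) → ∀ g, Φ g = 0 := by
    intro Φ hΦ g
    choose q hq hqn using fun j => hpre (V j g)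
    have hqn' : ∀ j, ‖q j‖ ≤ C * ‖g‖ := fun j => by
      simpa only [LinearIsometryEquiv.norm_map] using hqn j
    have hf : ∀ j, ‖(q j).1‖ ≤ C * ‖g‖ := fun j => (norm_fst_le _).trans (hqn' j)
    have hk : ∀ j, ‖(q j).2‖ ≤ C * ‖g‖ := fun j => (norm_snd_le _).trans (hqn' j)
    obtain ⟨k0, -, φ, hφ, hlim⟩ := (isCompact_closedBall (0 : F) (C * ‖g‖)).tendsto_subseq
      (x := fun j => (q j).2) (fun j => by simpa using hk j)
    have hid : ∀ j, Φ g = Φ ((V j).symm ((q j).2 : X)) -
        Φ ((T.comp ((V j).symm : X →L[ℂ] X) - ((V j).symm : X →L[ℂ] X).comp T) (q j).1) := by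
      intro j
      have h1 : T (q j).1 + ((q j).2 : X) = V j g := hq j
      have h2 : g = (V j).symm (T (q j).1) + (V j).symm ((q j).2 : X) := by
        rw [← map_add, h1, LinearIsometryEquiv.symm_apply_apply]
      have h3 : (T.comp ((V j).symm : X →L[ℂ] X) - ((V j).symm : X →L[ℂ] X).comp T) (q j).1
          = T ((V j).symm (q j).1) - (V j).symm (T (q j).1) := rfl
      rw [h3, map_sub, hΦ, zero_sub, sub_neg_eq_add, add_comm, ← map_add, ← h2]
    have e1 : Tendsto (fun j => Φ ((T.comp ((V j).symm : X →L[ℂ] X) -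
        ((V j).symm : X →L[ℂ] X).comp T) (q j).1)) atTop (𝓝 0) := by
      rw [tendsto_zero_iff_norm_tendsto_zero]
      have h5 : Tendsto (fun j => ‖Φ‖ * (‖T.comp ((V j).symm : X →L[ℂ] X)
          - ((V j).symm : X →L[ℂ] X).comp T‖ * (C * ‖g‖))) atTop (𝓝 0) := by
        have := (hcomm.mul_const (C * ‖g‖)).const_mul ‖Φ‖
        simpa using this
      refine squeeze_zero (fun j => norm_nonneg _) (fun j => ?_) h5
      refine (Φ.le_opNorm _).trans ?_
      gcongr
      refine (ContinuousLinearMap.le_opNorm _ _).trans ?_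
      gcongr
      exact hf j
    have e2 : Tendsto (fun j => Φ ((V (φ j)).symm ((q (φ j)).2 : X))) atTop (𝓝 0) := by
      have h6 : Tendsto (fun j => Φ ((V (φ j)).symm (k0 : X))) atTop (𝓝 0) :=
        (hweak Φ k0).comp hφ.tendsto_atTop
      have h7 : Tendsto (fun j => Φ ((V (φ j)).symm (((q (φ j)).2 : X) - k0))) atTop (𝓝 0) := by
        rw [tendsto_zero_iff_norm_tendsto_zero]
        have h8 : Tendsto (fun j => ‖Φ‖ * ‖((q (φ j)).2 : X) - k0‖) atTop (𝓝 0) := by
          have h9 : Tendsto (fun j => ((q (φ j)).2 : X)) atTop (𝓝 (k0 : X)) :=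
            (continuous_subtype_val.tendsto k0).comp hlim
          have h10 := (h9.sub_const (k0 : X)).norm.const_mul ‖Φ‖
          simpa using h10
        refine squeeze_zero (fun j => norm_nonneg _) (fun j => ?_) h8
        refine (Φ.le_opNorm _).trans ?_
        rw [LinearIsometryEquiv.norm_map]
      have := h6.add h7
      rw [add_zero] at this
      refine this.congr fun j => ?_
      rw [← map_add, ← map_add, add_sub_cancel]
    have e3 : Tendsto (fun _ : ℕ => Φ g) atTop (𝓝 (0 - 0)) := by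
      refine (e2.sub (e1.comp hφ.tendsto_atTop)).congr fun j => ?_
      exact (hid (φ j)).symm
    have := tendsto_nhds_unique e3 tendsto_const_nhds
    rw [sub_zero] at this
    exact this.symm
  intro g
  by_contra hg
  have hgR : g ∉ R := fun h => hg (by obtain ⟨x, hx⟩ := h; exact ⟨x, hx⟩)
  haveI : IsClosed (R : Set X) := hRc
  have hne : (R.mkQ g) ≠ 0 := by
    rw [Submodule.mkQ_apply, Ne, Submodule.Quotient.mk_eq_zero]
    exact hgR
  obtain ⟨Ψ, hΨ⟩ := SeparatingDual.exists_ne_zero (R := ℂ) hne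
  apply hΨ
  have h11 := key (Ψ.comp R.mkQL) (fun x => by
    have : R.mkQL (T x) = 0 := by
      change R.mkQ (T x) = 0
      rw [Submodule.mkQ_apply, Submodule.Quotient.mk_eq_zero]
      exact ⟨x, rfl⟩
    rw [ContinuousLinearMap.comp_apply, this, map_zero]) g
  exact h11

/-- Conversely bounded below implies closed range and trivial kernel. -/
theorem leftFredholm_of_bounded_below (T : X →L[ℂ] X) (c : ℝ) (h : ∀ f : X, ‖f‖ ≤ c * ‖T f‖) :
    IsClosed (Set.range T) ∧ FiniteDimensional ℂ (LinearMap.ker (T : X →ₗ[ℂ] X)) := by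
  constructor
  · have h' : ∀ f : X, ‖f‖ ≤ (Real.toNNReal c : ℝ≥0) * ‖T f‖ := fun f =>
      (h f).trans (by gcongr; exact Real.le_coe_toNNReal c)
    exact (ContinuousLinearMap.antilipschitz_of_bound T h').isClosed_range T.uniformContinuous
  · have : LinearMap.ker (T : X →ₗ[ℂ] X) = ⊥ := by
      rw [LinearMap.ker_eq_bot']
      intro f hf
      have hf' : T f = 0 := hf
      have := h f
      rw [hf', norm_zero, mul_zero] at this
      exact norm_le_zero_iff.1 this
    rw [this]
    infer_instance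

theorem rightFredholm_of_surjective (T : X →L[ℂ] X) (h : Function.Surjective T) :
    IsClosed (Set.range T) ∧ FiniteDimensional ℂ (X ⧸ LinearMap.range (T : X →ₗ[ℂ] X)) := by
  constructor
  · rw [h.range_eq]; exact isClosed_univ
  · have : LinearMap.range (T : X →ₗ[ℂ] X) = ⊤ := LinearMap.range_eq_top.2 h
    rw [this]
    infer_instance

end D3
end Pool.Agent.Helper865.TAP
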