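import Pool.Agent.Helper865.TAP.Defs


set_option autoImplicit false

open MeasureTheory Filter Topology Set Metric
open scoped ENNReal NNReal

namespace Pool.Agent.Helper865.TAP
namespace D4



variable {E : Type*} [NormedAddCommGroup E] [InnerProductSpace ℂ E] [FiniteDimensional ℂ E]

theorem wnt_norm_translate {p : ℝ≥0∞} (F G : Lp E p (volume : Measure ℝ)) (a : ℝ)
    (h : G =ᵐ[volume] fun t => F (t - a)) : ‖G‖ = ‖F‖ := by
  rw [Lp.norm_def, Lp.norm_def, eLpNorm_congr_ae h]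
  congr 1
  exact eLpNorm_comp_measurePreserving (Lp.aestronglyMeasurable F)
    (measurePreserving_sub_right volume a)

omit [FiniteDimensional ℂ E] in
theorem wnt_norm_sum_le {p : ℝ≥0∞} [Fact (1 ≤ p)] (hp' : p ≠ ⊤) {f0 : ℝ → E}
    (hf0 : MemLp f0 p volume) {R : ℝ} (hR : ∀ t, R < |t| → f0 t = 0) (h : ℕ → ℝ)
    (G : ℕ → Lp E p (volume : Measure ℝ)) (hG : ∀ j, G j =ᵐ[volume] fun t => f0 (t - h j))
    (s : Finset ℕ) (hs : ∀ i ∈ s, ∀ j ∈ s, i ≠ j → 2 * R < |h i - h j|) (c : ℕ → ℂ)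
    (hc : ∀ j, ‖c j‖ ≤ 1) :
    ‖∑ j ∈ s, c j • G j‖ ≤ (s.card : ℝ) ^ (1 / p.toReal) * (eLpNorm f0 p volume).toReal := by
  have hp0 : p ≠ 0 := (zero_lt_one.trans_le (Fact.out : 1 ≤ p)).ne'
  have hq : 0 < p.toReal := ENNReal.toReal_pos hp0 hp'
  have hae : (∑ j ∈ s, c j • G j : Lp E p (volume : Measure ℝ)) =ᵐ[volume]
      fun t => ∑ j ∈ s, c j • f0 (t - h j) := by
    have h1 : ∀ᵐ t, ∀ j, (c j • G j : Lp E p (volume : Measure ℝ)) t = c j • G j t :=
      ae_all_iff.2 fun j => Lp.coeFn_smul (c j) (G j)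
    have h2 : ∀ᵐ t, ∀ j, G j t = f0 (t - h j) := ae_all_iff.2 hG
    filter_upwards [Lp.coeFn_finsetSum s (fun j => c j • G j), h1, h2] with t ht1 ht2 ht3
    rw [ht1]
    simp only [Finset.sum_apply]
    exact Finset.sum_congr rfl fun j _ => by rw [ht2 j, ht3 j]
  have hle : eLpNorm (∑ j ∈ s, c j • G j : Lp E p (volume : Measure ℝ)) p volume ≤
      (s.card : ℝ≥0∞) ^ (1 / p.toReal) * eLpNorm f0 p volume := by
    rw [eLpNorm_congr_ae hae, eLpNorm_eq_lintegral_rpow_enorm_toReal hp0 hp',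
      eLpNorm_eq_lintegral_rpow_enorm_toReal hp0 hp',
      ← ENNReal.mul_rpow_of_nonneg _ _ (by positivity)]
    refine ENNReal.rpow_le_rpow ?_ (by positivity)
    have hpt : ∀ t, ‖∑ j ∈ s, c j • f0 (t - h j)‖ₑ ^ p.toReal ≤
        ∑ j ∈ s, ‖f0 (t - h j)‖ₑ ^ p.toReal := by
      intro t
      by_cases hex : ∃ i ∈ s, f0 (t - h i) ≠ 0
      · obtain ⟨i, hi, hne⟩ := hex
        have hi1 : |t - h i| ≤ R := by
          by_contra hcon
          exact hne (hR _ (not_le.1 hcon))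
        have hz : ∀ j ∈ s, j ≠ i → f0 (t - h j) = 0 := by
          intro j hj hji
          apply hR
          have := hs j hj i hi hji
          by_contra hcon
          have h3 : |t - h j| ≤ R := not_lt.1 hcon
          have h4 : |h j - h i| ≤ |t - h i| + |t - h j| := by
            have : h j - h i = (t - h i) - (t - h j) := by ring
            rw [this]
            exact abs_sub _ _
          linarith
        rw [Finset.sum_eq_single_of_mem i hi (fun j hj hji => by rw [hz j hj hji, smul_zero])]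
        rw [enorm_smul]
        have h5 : ‖c i‖ₑ ≤ 1 := by
          rw [← ofReal_norm]
          simpa using ENNReal.ofReal_le_ofReal (hc i)
        calc (‖c i‖ₑ * ‖f0 (t - h i)‖ₑ) ^ p.toReal ≤ (1 * ‖f0 (t - h i)‖ₑ) ^ p.toReal := by
              refine ENNReal.rpow_le_rpow ?_ hq.le
              gcongr
          _ = ‖f0 (t - h i)‖ₑ ^ p.toReal := by rw [one_mul]
          _ ≤ _ := Finset.single_le_sum (f := fun j => ‖f0 (t - h j)‖ₑ ^ p.toReal)
              (fun _ _ => zero_le) hi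
      · push Not at hex
        rw [Finset.sum_eq_zero (fun j hj => by rw [hex j hj, smul_zero])]
        simp [hq]
    calc ∫⁻ t, ‖∑ j ∈ s, c j • f0 (t - h j)‖ₑ ^ p.toReal
        ≤ ∫⁻ t, ∑ j ∈ s, ‖f0 (t - h j)‖ₑ ^ p.toReal := lintegral_mono hpt
      _ = ∑ j ∈ s, ∫⁻ t, ‖f0 (t - h j)‖ₑ ^ p.toReal := by
          refine lintegral_finsetSum' s fun j _ => ?_
          have : AEMeasurable (fun t => ‖f0 t‖ₑ ^ p.toReal) volume :=
            hf0.1.enorm.pow_const _
          exact this.comp_quasiMeasurePreserving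
            (measurePreserving_sub_right volume (h j)).quasiMeasurePreserving
      _ = ∑ j ∈ s, ∫⁻ t, ‖f0 t‖ₑ ^ p.toReal := by
          refine Finset.sum_congr rfl fun j _ => ?_
          exact lintegral_sub_right_eq_self (fun t => ‖f0 t‖ₑ ^ p.toReal) (h j)
      _ = (s.card : ℝ≥0∞) * ∫⁻ t, ‖f0 t‖ₑ ^ p.toReal := by
          rw [Finset.sum_const, nsmul_eq_mul]
  rw [Lp.norm_def]
  refine (ENNReal.toReal_mono ?_ hle).trans ?_
  · exact ENNReal.mul_ne_top (ENNReal.rpow_ne_top_of_nonneg (by positivity)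
      (ENNReal.natCast_ne_top _)) hf0.2.ne
  · rw [ENNReal.toReal_mul, ← ENNReal.toReal_rpow, ENNReal.toReal_natCast]

theorem wnt_select {h : ℕ → ℝ} (hh : Tendsto (fun j => |h j|) atTop atTop) {P : ℕ → Prop}
    (hP : ∃ᶠ j in atTop, P j) (R : ℝ) (N : ℕ) :
    ∃ s : Finset ℕ, s.card = N ∧ (∀ j ∈ s, P j) ∧
      ∀ i ∈ s, ∀ j ∈ s, i ≠ j → 2 * R < |h i - h j| := by
  classical
  induction N with
  | zero => exact ⟨∅, by simp⟩
  | succ N ih =>
    obtain ⟨s, hc, hs1, hs2⟩ := ih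
    obtain ⟨j, hj1, hj2⟩ :=
      (hP.and_eventually (hh.eventually_gt_atTop (∑ i ∈ s, |h i| + 2 * |R|))).exists
    have hb : ∀ i ∈ s, |h i| + 2 * |R| < |h j| := fun i hi => by
      have := Finset.single_le_sum (f := fun i => |h i|) (fun _ _ => abs_nonneg _) hi
      linarith
    have hjs : j ∉ s := fun hjs => by
      have := hb j hjs
      have := abs_nonneg R
      linarith
    refine ⟨insert j s, by rw [Finset.card_insert_of_notMem hjs, hc], ?_, ?_⟩
    · intro i hi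
      rcases Finset.mem_insert.1 hi with rfl | hi
      · exact hj1
      · exact hs1 i hi
    · have hkey : ∀ i ∈ s, 2 * R < |h j - h i| := fun i hi => by
        have h1 := hb i hi
        have h2 : |h j| - |h i| ≤ |h j - h i| := abs_sub_abs_le_abs_sub _ _
        have h3 := le_abs_self R
        linarith
      intro i hi k hk hik
      rcases Finset.mem_insert.1 hi with hi' | hi' <;>
        rcases Finset.mem_insert.1 hk with hk' | hk'
      · exact absurd (hi'.trans hk'.symm) hik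
      · rw [hi']; exact hkey k hk'
      · rw [hk', abs_sub_comm]; exact hkey i hi'
      · exact hs2 i hi' k hk' hik

omit [FiniteDimensional ℂ E] in
theorem wnt_compact {p : ℝ≥0∞} [Fact (1 ≤ p)] (hp : 1 < p) (hp' : p ≠ ⊤)
    (Φ : Lp E p (volume : Measure ℝ) →L[ℂ] ℂ) {f0 : ℝ → E}
    (hf0 : MemLp f0 p volume) {R : ℝ} (hR : ∀ t, R < |t| → f0 t = 0) (h : ℕ → ℝ)
    (hh : Tendsto (fun j => |h j|) atTop atTop)
    (G : ℕ → Lp E p (volume : Measure ℝ)) (hG : ∀ j, G j =ᵐ[volume] fun t => f0 (t - h j)) :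
    Tendsto (fun j => Φ (G j)) atTop (𝓝 0) := by
  have hq : 1 < p.toReal := by
    rw [← ENNReal.toReal_one]
    exact (ENNReal.toReal_lt_toReal ENNReal.one_ne_top hp').2 hp
  rw [Metric.tendsto_atTop']
  by_contra hcon
  push Not at hcon
  obtain ⟨ε, hε, hcon⟩ := hcon
  have hfreq : ∃ᶠ j in atTop, ε ≤ ‖Φ (G j)‖ := by
    rw [frequently_atTop']
    intro n
    obtain ⟨j, hj, hj'⟩ := hcon n
    exact ⟨j, hj, by simpa using hj'⟩
  set A : ℝ := ‖Φ‖ * (eLpNorm f0 p volume).toReal with hA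
  have hbound : ∀ N : ℕ, (N : ℝ) * ε ≤ (N : ℝ) ^ (1 / p.toReal) * A := by
    intro N
    obtain ⟨s, hc, hs1, hs2⟩ := wnt_select hh hfreq R N
    set c : ℕ → ℂ := fun j => (starRingEnd ℂ (Φ (G j))) / (‖Φ (G j)‖ : ℂ) with hcdef
    have hcn : ∀ j, ‖c j‖ ≤ 1 := by
      intro j
      rw [hcdef]
      simp only [norm_div, RCLike.norm_conj, Complex.norm_real, norm_norm]
      exact div_self_le_one _
    have hcv : ∀ j, c j * Φ (G j) = (‖Φ (G j)‖ : ℂ) := by
      intro j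
      by_cases h0 : Φ (G j) = 0
      · simp [h0]
      · have h1 : (‖Φ (G j)‖ : ℂ) ≠ 0 := by simpa using h0
        rw [hcdef]
        simp only
        rw [div_mul_eq_mul_div, div_eq_iff h1, mul_comm, Complex.mul_conj, Complex.normSq_eq_norm_sq]
        push_cast
        ring
    have hsum : Φ (∑ j ∈ s, c j • G j) = ((∑ j ∈ s, ‖Φ (G j)‖ : ℝ) : ℂ) := by
      rw [map_sum]
      push_cast
      exact Finset.sum_congr rfl fun j _ => by rw [map_smul, smul_eq_mul, hcv j]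
    have h1 : (N : ℝ) * ε ≤ ∑ j ∈ s, ‖Φ (G j)‖ := by
      rw [← hc, ← nsmul_eq_mul]
      exact Finset.card_nsmul_le_sum _ _ _ hs1
    have h2 : ∑ j ∈ s, ‖Φ (G j)‖ = ‖Φ (∑ j ∈ s, c j • G j)‖ := by
      rw [hsum, Complex.norm_real, Real.norm_eq_abs, abs_of_nonneg
        (Finset.sum_nonneg fun _ _ => norm_nonneg _)]
    have h3 := Φ.le_opNorm (∑ j ∈ s, c j • G j)
    have h4 := wnt_norm_sum_le hp' hf0 hR h G hG s hs2 c hcn
    rw [hc] at h4
    calc (N : ℝ) * ε ≤ ‖Φ (∑ j ∈ s, c j • G j)‖ := h1.trans h2.le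
      _ ≤ ‖Φ‖ * ‖∑ j ∈ s, c j • G j‖ := h3
      _ ≤ ‖Φ‖ * ((N : ℝ) ^ (1 / p.toReal) * (eLpNorm f0 p volume).toReal) := by gcongr
      _ = (N : ℝ) ^ (1 / p.toReal) * A := by rw [hA]; ring
  have hexp : 0 < 1 - 1 / p.toReal := by
    have : 1 / p.toReal < 1 := by
      rw [div_lt_one (by linarith)]
      exact hq
    linarith
  have htend : Tendsto (fun N : ℕ => (N : ℝ) ^ (1 - 1 / p.toReal)) atTop atTop :=
    (tendsto_rpow_atTop hexp).comp tendsto_natCast_atTop_atTop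
  obtain ⟨N, hN1, hN2⟩ := ((htend.eventually_gt_atTop (A / ε)).and (eventually_gt_atTop 0)).exists
  have hNpos : (0 : ℝ) < N := by exact_mod_cast hN2
  have hb := hbound N
  have hsplit : (N : ℝ) = (N : ℝ) ^ (1 / p.toReal) * (N : ℝ) ^ (1 - 1 / p.toReal) := by
    rw [← Real.rpow_add hNpos]
    simp
  have hpos : 0 < (N : ℝ) ^ (1 / p.toReal) := Real.rpow_pos_of_pos hNpos _
  have h5 : (N : ℝ) ^ (1 / p.toReal) * ((N : ℝ) ^ (1 - 1 / p.toReal) * ε) ≤
      (N : ℝ) ^ (1 / p.toReal) * A := by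
    rw [← mul_assoc, ← hsplit]
    exact hb
  have h6 := le_of_mul_le_mul_left h5 hpos
  rw [div_lt_iff₀ hε] at hN1
  linarith

/-- Weak nullness of translates in `L^p`, `1 < p < ∞`: any translation operators on `Lp`. -/
theorem weak_null_translates {p : ℝ≥0∞} [Fact (1 ≤ p)] (hp : 1 < p) (hp' : p ≠ ⊤)
    (Φ : Lp E p (volume : Measure ℝ) →L[ℂ] ℂ) (h : ℕ → ℝ)
    (hh : Tendsto (fun j => |h j|) atTop atTop) (f : Lp E p (volume : Measure ℝ))
    (g : ℕ → Lp E p (volume : Measure ℝ)) (hg : ∀ j, g j =ᵐ[volume] fun t => f (t - h j)) :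
    Tendsto (fun j => Φ (g j)) atTop (𝓝 0) := by
  rw [Metric.tendsto_atTop']
  intro ε hε
  set δ : ℝ := ε / (2 * (‖Φ‖ + 1)) with hδdef
  have hΦ := norm_nonneg Φ
  have hδ : 0 < δ := by positivity
  obtain ⟨f0, hcs, hclose, -, hf0⟩ := (Lp.memLp f).exists_hasCompactSupport_eLpNorm_sub_le hp'
    (ε := ENNReal.ofReal δ) (by simpa using hδ)
  obtain ⟨R, hR⟩ := hcs.isCompact.isBounded.subset_closedBall 0
  have hR' : ∀ t, R < |t| → f0 t = 0 := by
    intro t ht
    apply image_eq_zero_of_notMem_tsupport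
    intro hmem
    have := hR hmem
    rw [mem_closedBall_zero_iff, Real.norm_eq_abs] at this
    linarith
  have hmp : ∀ a : ℝ, MeasurePreserving (fun t : ℝ => t - a) volume volume := fun a =>
    measurePreserving_sub_right volume a
  have hT : ∀ j, MemLp (fun t => f0 (t - h j)) p volume := fun j =>
    hf0.comp_measurePreserving (hmp (h j))
  set G : ℕ → Lp E p (volume : Measure ℝ) := fun j => (hT j).toLp with hGdef
  have hG : ∀ j, G j =ᵐ[volume] fun t => f0 (t - h j) := fun j => (hT j).coeFn_toLp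
  have hlim := wnt_compact hp hp' Φ hf0 hR' h hh G hG
  have hdiff : ∀ j, ‖g j - G j‖ ≤ δ := by
    intro j
    have h1 : (g j - G j : Lp E p (volume : Measure ℝ)) =ᵐ[volume]
        fun t => (f - hf0.toLp : Lp E p (volume : Measure ℝ)) (t - h j) := by
      have h2 := (Lp.coeFn_sub f hf0.toLp).comp_tendsto
        (hmp (h j)).quasiMeasurePreserving.tendsto_ae
      have h3 := hf0.coeFn_toLp.comp_tendsto (hmp (h j)).quasiMeasurePreserving.tendsto_ae
      filter_upwards [Lp.coeFn_sub (g j) (G j), hg j, hG j, h2, h3] with t a1 a2 a3 a4 a5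
      simp only [Function.comp, Pi.sub_apply] at a1 a4 a5
      rw [a1, a2, a3, a4, a5]
    rw [wnt_norm_translate _ _ _ h1, Lp.norm_def]
    refine ENNReal.toReal_le_of_le_ofReal hδ.le ?_
    refine le_trans (le_of_eq (eLpNorm_congr_ae ?_)) hclose
    filter_upwards [Lp.coeFn_sub f hf0.toLp, hf0.coeFn_toLp] with t a1 a2
    rw [a1, Pi.sub_apply, Pi.sub_apply, a2]
  obtain ⟨n, hn⟩ := (Metric.tendsto_atTop'.1 hlim) (ε / 2) (by positivity)
  refine ⟨n, fun j hj => ?_⟩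
  have h7 := hn j hj
  rw [dist_zero_right] at h7 ⊢
  have h8 : Φ (g j) = Φ (g j - G j) + Φ (G j) := by rw [map_sub]; ring
  have h9 : ‖Φ (g j - G j)‖ ≤ ‖Φ‖ * δ :=
    (Φ.le_opNorm _).trans (mul_le_mul_of_nonneg_left (hdiff j) hΦ)
  have h10 : ‖Φ‖ * δ ≤ ε / 2 := by
    have : (‖Φ‖ + 1) * δ = ε / 2 := by
      rw [hδdef]
      field_simp
    nlinarith
  calc ‖Φ (g j)‖ ≤ ‖Φ (g j - G j)‖ + ‖Φ (G j)‖ := by rw [h8]; exact norm_add_le _ _
    _ < ε / 2 + ε / 2 := by linarith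
    _ = ε := by ring

end D4
end Pool.Agent.Helper865.TAP
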