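import Pool.Agent.Helper865.TAP.Defs


set_option autoImplicit false

open MeasureTheory Filter Topology Set Metric
open scoped ENNReal NNReal

namespace Pool.Agent.Helper865.TAP
namespace D5



variable {E : Type*} [NormedAddCommGroup E] [InnerProductSpace ℂ E] [FiniteDimensional ℂ E]



theorem blk_apply (T : E →L[ℂ] E) (x : WithLp 2 (E × E)) :
    blk T x = WithLp.toLp 2 (ContinuousLinearMap.adjoint T x.snd, T x.fst - x.snd) := by
  rfl

theorem blk_adjoint (T : E →L[ℂ] E) : ContinuousLinearMap.adjoint (blk T) = blk T := by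
  symm
  rw [ContinuousLinearMap.eq_adjoint_iff]
  intro x y
  rw [blk_apply, blk_apply, WithLp.prod_inner_apply, WithLp.prod_inner_apply]
  show inner ℂ (ContinuousLinearMap.adjoint T x.snd) y.fst + inner ℂ (T x.fst - x.snd) y.snd =
    inner ℂ x.fst (ContinuousLinearMap.adjoint T y.snd) + inner ℂ x.snd (T y.fst - y.snd)
  rw [inner_sub_left, inner_sub_right, ContinuousLinearMap.adjoint_inner_left,
    ContinuousLinearMap.adjoint_inner_right]
  ring

theorem blk_IsAP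
    (hadd : ∀ f g : ℝ → (WithLp 2 (E × E) →L[ℂ] WithLp 2 (E × E)), IsAP f → IsAP g →
      IsAP (fun t => f t + g t))
    (hclm : ∀ (f : ℝ → (E →L[ℂ] E)), IsAP f →
      ∀ L : (E →L[ℂ] E) →L[ℂ] (WithLp 2 (E × E) →L[ℂ] WithLp 2 (E × E)),
      IsAP (fun t => L (f t)))
    (hconst : ∀ x : WithLp 2 (E × E) →L[ℂ] WithLp 2 (E × E), IsAP (fun _ : ℝ => x))
    (hadj : ∀ f : ℝ → (E →L[ℂ] E), IsAP f →
      IsAP (fun t => ContinuousLinearMap.adjoint (f t)))
    {G : ℝ → E →L[ℂ] E} (hG : IsAP G) : IsAP (fun t => blk (G t)) := by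
  let tt : (E × E) →L[ℂ] WithLp 2 (E × E) := (WithLp.prodContinuousLinearEquiv 2 ℂ E E).symm
  let ff : WithLp 2 (E × E) →L[ℂ] (E × E) := (WithLp.prodContinuousLinearEquiv 2 ℂ E E)
  let i1 : E →L[ℂ] WithLp 2 (E × E) := tt.comp (ContinuousLinearMap.inl ℂ E E)
  let i2 : E →L[ℂ] WithLp 2 (E × E) := tt.comp (ContinuousLinearMap.inr ℂ E E)
  let p1 : WithLp 2 (E × E) →L[ℂ] E := (ContinuousLinearMap.fst ℂ E E).comp ff
  let p2 : WithLp 2 (E × E) →L[ℂ] E := (ContinuousLinearMap.snd ℂ E E).comp ff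
  let L1 : (E →L[ℂ] E) →L[ℂ] (WithLp 2 (E × E) →L[ℂ] WithLp 2 (E × E)) :=
    (ContinuousLinearMap.compL ℂ (WithLp 2 (E × E)) E (WithLp 2 (E × E)) i1).comp
      ((ContinuousLinearMap.compL ℂ (WithLp 2 (E × E)) E E).flip p2)
  let L2 : (E →L[ℂ] E) →L[ℂ] (WithLp 2 (E × E) →L[ℂ] WithLp 2 (E × E)) :=
    (ContinuousLinearMap.compL ℂ (WithLp 2 (E × E)) E (WithLp 2 (E × E)) i2).comp
      ((ContinuousLinearMap.compL ℂ (WithLp 2 (E × E)) E E).flip p1)
  have key : (fun t => blk (G t)) = fun t => (L1 (ContinuousLinearMap.adjoint (G t)) +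
      L2 (G t)) + (-(i2.comp p2)) := by
    funext t
    apply ContinuousLinearMap.ext
    intro x
    show WithLp.toLp 2 (ContinuousLinearMap.adjoint (G t) x.snd, G t x.fst - x.snd) =
      (WithLp.toLp 2 (ContinuousLinearMap.adjoint (G t) x.snd, (0 : E)) +
      WithLp.toLp 2 ((0 : E), G t x.fst)) + (-(WithLp.toLp 2 ((0 : E), x.snd)))
    rw [← WithLp.toLp_add, ← WithLp.toLp_neg, ← WithLp.toLp_add]
    congr 1
    ext
    · simp
    · simp [sub_eq_add_neg]
  rw [key]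
  exact hadd _ _ (hadd _ _ (hclm _ (hadj G hG) L1) (hclm G hG L2)) (hconst _)


theorem Hm_zero' {F : Type*} [NormedAddCommGroup F] [NormedSpace ℂ F] (p : ℝ≥0∞) :
    Hm p (fun _ : ℝ => (0 : F)) := by
  refine ⟨MemLp.zero', fun a _ => by simp⟩

theorem Hp_zero' {F : Type*} [NormedAddCommGroup F] [NormedSpace ℂ F] (p : ℝ≥0∞) :
    Hp p (fun _ : ℝ => (0 : F)) := by
  refine ⟨MemLp.zero', fun a _ => by simp⟩

theorem Hp_neg' {F : Type*} [NormedAddCommGroup F] [NormedSpace ℂ F] (p : ℝ≥0∞) {f : ℝ → F}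
    (hf : Hp p f) : Hp p (fun t => - f t) := by
  refine ⟨hf.1.neg, fun a ha => ?_⟩
  have h := hf.2 a ha
  simp only [smul_neg, integral_neg, h, neg_zero]

theorem aux_inner_eq {u v : ℝ → E} (hu : MemLp u 2 volume) (hv : MemLp v 2 volume) :
    ∫ t : ℝ, inner ℂ (u t) (v t) = inner ℂ (hu.toLp u) (hv.toLp v) := by
  rw [L2.inner_def]
  apply integral_congr_ae
  filter_upwards [hu.coeFn_toLp, hv.coeFn_toLp] with t h1 h2
  rw [h1, h2]

theorem aux_cs {u v : ℝ → E} (hu : MemLp u 2 volume) (hv : MemLp v 2 volume) :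
    ‖∫ t : ℝ, inner ℂ (u t) (v t)‖ ≤
      (eLpNorm u 2 volume).toReal * (eLpNorm v 2 volume).toReal := by
  rw [aux_inner_eq hu hv]
  refine (norm_inner_le_norm _ _).trans ?_
  rw [Lp.norm_toLp, Lp.norm_toLp]

theorem aux_self {u : ℝ → E} (hu : MemLp u 2 volume) :
    ‖∫ t : ℝ, inner ℂ (u t) (u t)‖ = (eLpNorm u 2 volume).toReal ^ 2 := by
  rw [aux_inner_eq hu hu, inner_self_eq_norm_sq_to_K, Lp.norm_toLp]
  simp

theorem aux_int {u v : ℝ → E} (hu : MemLp u 2 volume) (hv : MemLp v 2 volume) :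
    Integrable (fun t : ℝ => inner ℂ (u t) (v t)) volume := by
  refine (L2.integrable_inner (𝕜 := ℂ) (hu.toLp u) (hv.toLp v)).congr ?_
  filter_upwards [hu.coeFn_toLp, hv.coeFn_toLp] with t h1 h2
  rw [h1, h2]

theorem aux_mul {F : Type*} [NormedAddCommGroup F] {q : ℝ≥0∞} {f : ℝ → E} {g : ℝ → F} {M : ℝ}
    (hM : 0 ≤ M)
    (hg : AEStronglyMeasurable g volume) (h : ∀ᵐ t, ‖g t‖ ≤ M * ‖f t‖) (hf : MemLp f q volume) :
    MemLp g q volume ∧ (eLpNorm g q volume).toReal ≤ M * (eLpNorm f q volume).toReal := by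
  have h1 := eLpNorm_le_mul_eLpNorm_of_ae_le_mul h q
  refine ⟨MemLp.of_le_mul hf hg h, ?_⟩
  have h2 := ENNReal.toReal_mono (ENNReal.mul_ne_top ENNReal.ofReal_ne_top hf.eLpNorm_ne_top) h1
  rwa [ENNReal.toReal_mul, ENNReal.toReal_ofReal hM] at h2

theorem aux_key (horth : ∀ u v : ℝ → E, Hm 2 u → Hp 2 v → ∫ t : ℝ, inner ℂ (u t) (v t) = 0)
    {G : ℝ → E →L[ℂ] E} {M : ℝ} (hM : ∀ t, ‖G t‖ ≤ M)
    {a b w1 w2 : ℝ → E} (ha : Hm 2 a) (hb : Hm 2 b) (hw1 : Hm 2 w1) (hw2 : Hm 2 w2)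
    (hc : Hm 2 (fun t => b t + w2 t))
    (h1 : Hp 2 (fun t => ContinuousLinearMap.adjoint (G t) (b t) - w1 t))
    (h2 : Hp 2 (fun t => G t (a t) - (b t + w2 t))) :
    (eLpNorm (fun t => b t + w2 t) 2 volume).toReal ^ 2 ≤
      (eLpNorm w1 2 volume).toReal * (eLpNorm a 2 volume).toReal +
      (eLpNorm w2 2 volume).toReal * (M * (eLpNorm a 2 volume).toReal) := by
  have hM0 : 0 ≤ M := (norm_nonneg _).trans (hM 0)
  have hGa : MemLp (fun t => G t (a t)) 2 volume := by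
    have h := h2.1.add hc.1
    have e : (fun t => G t (a t) - (b t + w2 t)) + (fun t => b t + w2 t) =
        fun t => G t (a t) := by
      funext t
      simp
    rwa [e] at h
  have hGb : MemLp (fun t => ContinuousLinearMap.adjoint (G t) (b t)) 2 volume := by
    have h := h1.1.add hw1.1
    have e : (fun t => ContinuousLinearMap.adjoint (G t) (b t) - w1 t) + w1 =
        fun t => ContinuousLinearMap.adjoint (G t) (b t) := by
      funext t
      simp
    rwa [e] at h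
  have hGan : (eLpNorm (fun t => G t (a t)) 2 volume).toReal ≤
      M * (eLpNorm a 2 volume).toReal :=
    (aux_mul hM0 hGa.1 (by filter_upwards with t; exact (G t).le_of_opNorm_le (hM t) _) ha.1).2
  have e1 : ∫ t : ℝ, inner ℂ (b t + w2 t) (b t + w2 t) =
      ∫ t : ℝ, inner ℂ (b t + w2 t) (G t (a t)) := by
    have o : ∫ t : ℝ, inner ℂ (b t + w2 t) (G t (a t) - (b t + w2 t)) = 0 := horth _ _ hc h2
    have h : ∫ t : ℝ, inner ℂ (b t + w2 t) (G t (a t) - (b t + w2 t)) =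
        (∫ t : ℝ, inner ℂ (b t + w2 t) (G t (a t))) -
        ∫ t : ℝ, inner ℂ (b t + w2 t) (b t + w2 t) := by
      rw [← integral_sub (aux_int hc.1 hGa) (aux_int hc.1 hc.1)]
      simp only [inner_sub_right]
    rw [h] at o
    exact (sub_eq_zero.1 o).symm
  have e2 : ∫ t : ℝ, inner ℂ (b t + w2 t) (G t (a t)) =
      (∫ t : ℝ, inner ℂ (b t) (G t (a t))) + ∫ t : ℝ, inner ℂ (w2 t) (G t (a t)) := by
    rw [← integral_add (aux_int hb.1 hGa) (aux_int hw2.1 hGa)]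
    simp only [inner_add_left]
  have e3 : ∫ t : ℝ, inner ℂ (b t) (G t (a t)) = ∫ t : ℝ, inner ℂ (w1 t) (a t) := by
    have o : ∫ t : ℝ, inner ℂ (a t) (ContinuousLinearMap.adjoint (G t) (b t) - w1 t) = 0 :=
      horth _ _ ha h1
    have o2 : ∫ t : ℝ, inner ℂ (ContinuousLinearMap.adjoint (G t) (b t) - w1 t) (a t) = 0 := by
      have h : ∫ t : ℝ, inner ℂ (ContinuousLinearMap.adjoint (G t) (b t) - w1 t) (a t) =
          ∫ t : ℝ, (starRingEnd ℂ)
            (inner ℂ (a t) (ContinuousLinearMap.adjoint (G t) (b t) - w1 t)) := by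
        congr 1
        funext t
        rw [inner_conj_symm]
      rw [h, integral_conj, o, map_zero]
    rw [← sub_eq_zero, ← integral_sub (aux_int hb.1 hGa) (aux_int hw1.1 ha.1)]
    simp only [inner_sub_left, ContinuousLinearMap.adjoint_inner_left] at o2
    exact o2
  have e4 : (eLpNorm (fun t => b t + w2 t) 2 volume).toReal ^ 2 =
      ‖(∫ t : ℝ, inner ℂ (w1 t) (a t)) + ∫ t : ℝ, inner ℂ (w2 t) (G t (a t))‖ := by
    rw [← aux_self hc.1, e1, e2, e3]
  rw [e4]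
  refine (norm_add_le _ _).trans ?_
  refine add_le_add (aux_cs hw1.1 ha.1) ((aux_cs hw2.1 hGa).trans ?_)
  exact mul_le_mul_of_nonneg_left hGan ENNReal.toReal_nonneg

theorem aux_toReal {F H : Type*} [NormedAddCommGroup F] [NormedAddCommGroup H] {q : ℝ≥0∞}
    {f : ℝ → F} {w : ℝ → H} {K : ℝ} (hK : 0 ≤ K) (hf : MemLp f q volume) (hw : MemLp w q volume) :
    eLpNorm f q volume ≤ ENNReal.ofReal K * eLpNorm w q volume ↔
      (eLpNorm f q volume).toReal ≤ K * (eLpNorm w q volume).toReal := by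
  rw [← ENNReal.toReal_le_toReal hf.eLpNorm_ne_top
    (ENNReal.mul_ne_top ENNReal.ofReal_ne_top hw.eLpNorm_ne_top), ENNReal.toReal_mul,
    ENNReal.toReal_ofReal hK]

theorem aux_arith {A B C W W1 W2 K M : ℝ} (hA : 0 ≤ A) (hC : 0 ≤ C) (hW1 : 0 ≤ W1) (hW2 : 0 ≤ W2)
    (hK : 0 < K) (hM : 0 ≤ M) (h1 : W1 ≤ W) (h2 : W2 ≤ W) (hAC : A ≤ K * C)
    (hkey : C ^ 2 ≤ W1 * A + W2 * (M * A)) (hB : B ≤ C + W2) :
    A + B ≤ (K ^ 2 * (1 + M) + K * (1 + M) + 1) * W := by
  have hW : 0 ≤ W := hW1.trans h1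
  have h3 : C ^ 2 ≤ (W * (1 + M) * K) * C := by
    calc C ^ 2 ≤ W1 * A + W2 * (M * A) := hkey
      _ ≤ W * A + W * (M * A) := by gcongr
      _ = (W * (1 + M)) * A := by ring
      _ ≤ (W * (1 + M)) * (K * C) := by gcongr
      _ = _ := by ring
  have h4 : C ≤ W * (1 + M) * K := by
    rcases eq_or_lt_of_le hC with h | h
    · rw [← h]
      positivity
    · have : C * C ≤ (W * (1 + M) * K) * C := by rw [← pow_two]; exact h3
      exact le_of_mul_le_mul_right this h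
  have h5 : A ≤ K * (W * (1 + M) * K) := hAC.trans (by gcongr)
  nlinarith

/-- If the Toeplitz operator with symbol `G` is bounded below on `Hm 2` then so is the Toeplitz
operator with the block symbol. -/
theorem blk_BB
    (hdecomp : ∀ f : ℝ → E, MemLp f 2 volume → ∃ u v : ℝ → E, Hm 2 u ∧ Hp 2 v ∧
      ∀ t, f t = u t + v t)
    (horth : ∀ u v : ℝ → E, Hm 2 u → Hp 2 v → ∫ t : ℝ, inner ℂ (u t) (v t) = 0)
    (hclm : ∀ (f : ℝ → WithLp 2 (E × E)), Hm 2 f → Hm 2 (fun t => (f t).fst) ∧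
      Hm 2 (fun t => (f t).snd))
    (hclm' : ∀ (f : ℝ → WithLp 2 (E × E)), Hp 2 f → Hp 2 (fun t => (f t).fst) ∧
      Hp 2 (fun t => (f t).snd))
    (hadd : ∀ f g : ℝ → E, Hm 2 f → Hm 2 g → Hm 2 (fun t => f t + g t))
    (hsub : ∀ f g : ℝ → E, Hm 2 f → Hm 2 g → Hm 2 (fun t => f t - g t))
    (hadd' : ∀ f g : ℝ → E, Hp 2 f → Hp 2 g → Hp 2 (fun t => f t + g t))
    (hsub' : ∀ f g : ℝ → E, Hp 2 f → Hp 2 g → Hp 2 (fun t => f t - g t))
    {G : ℝ → E →L[ℂ] E} (hG : Continuous G) {M : ℝ} (hM : ∀ t, ‖G t‖ ≤ M) {K : ℝ} (hK : 0 < K)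
    (hBB : BB 2 G K) : ∃ K' : ℝ, 0 < K' ∧ BB 2 (fun t => blk (G t)) K' := by
  have hM0 : 0 ≤ M := (norm_nonneg _).trans (hM 0)
  have hK'0 : 0 < K ^ 2 * (1 + M) + K * (1 + M) + 1 := by positivity
  refine ⟨K ^ 2 * (1 + M) + K * (1 + M) + 1, hK'0, ?_⟩
  intro f w hf hw hfw
  obtain ⟨ha, hb⟩ := hclm f hf
  obtain ⟨hw1, hw2⟩ := hclm w hw
  obtain ⟨h1, h2⟩ := hclm' _ hfw
  have h1' : Hp 2 (fun t => ContinuousLinearMap.adjoint (G t) ((f t).snd) - (w t).fst) := h1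
  have h2' : Hp 2 (fun t => G t ((f t).fst) - ((f t).snd + (w t).snd)) := by
    have e : (fun t => G t ((f t).fst) - ((f t).snd + (w t).snd)) =
        fun t => (blk (G t) (f t) - w t).snd := by
      funext t
      show G t ((f t).fst) - ((f t).snd + (w t).snd) = (G t ((f t).fst) - (f t).snd) - (w t).snd
      abel
    rw [e]
    exact h2
  have hc : Hm 2 (fun t => (f t).snd + (w t).snd) := hadd _ _ hb hw2
  have hkey := aux_key horth hM ha hb hw1 hw2 hc h1' h2'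
  have hAC := hBB _ _ ha hc h2'
  rw [aux_toReal hK.le ha.1 hc.1] at hAC
  rw [aux_toReal hK'0.le hf.1 hw.1]
  have hW1 : (eLpNorm (fun t => (w t).fst) 2 volume).toReal ≤ (eLpNorm w 2 volume).toReal := by
    refine ENNReal.toReal_mono hw.1.eLpNorm_ne_top (eLpNorm_mono fun t => ?_)
    exact WithLp.norm_fst_le _ _
  have hW2 : (eLpNorm (fun t => (w t).snd) 2 volume).toReal ≤ (eLpNorm w 2 volume).toReal := by
    refine ENNReal.toReal_mono hw.1.eLpNorm_ne_top (eLpNorm_mono fun t => ?_)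
    exact WithLp.norm_snd_le _ _
  have hB : (eLpNorm (fun t => (f t).snd) 2 volume).toReal ≤
      (eLpNorm (fun t => (f t).snd + (w t).snd) 2 volume).toReal +
      (eLpNorm (fun t => (w t).snd) 2 volume).toReal := by
    rw [← ENNReal.toReal_add hc.1.eLpNorm_ne_top hw2.1.eLpNorm_ne_top]
    refine ENNReal.toReal_mono (ENNReal.add_ne_top.2
      ⟨hc.1.eLpNorm_ne_top, hw2.1.eLpNorm_ne_top⟩) ?_
    have e : (fun t => (f t).snd) = (fun t => (f t).snd + (w t).snd) - fun t => (w t).snd := by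
      funext t
      simp
    conv_lhs => rw [e]
    exact eLpNorm_sub_le hc.1.1 hw2.1.1 (by norm_num)
  have hAB : (eLpNorm f 2 volume).toReal ≤ (eLpNorm (fun t => (f t).fst) 2 volume).toReal +
      (eLpNorm (fun t => (f t).snd) 2 volume).toReal := by
    rw [← ENNReal.toReal_add ha.1.eLpNorm_ne_top hb.1.eLpNorm_ne_top]
    refine ENNReal.toReal_mono (ENNReal.add_ne_top.2
      ⟨ha.1.eLpNorm_ne_top, hb.1.eLpNorm_ne_top⟩) ?_
    have e1 : eLpNorm (fun t => (f t).fst) 2 volume =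
        eLpNorm (fun t => ‖(f t).fst‖) 2 volume := (eLpNorm_norm _).symm
    have e2 : eLpNorm (fun t => (f t).snd) 2 volume =
        eLpNorm (fun t => ‖(f t).snd‖) 2 volume := (eLpNorm_norm _).symm
    rw [e1, e2]
    refine le_trans ?_ (eLpNorm_add_le ha.1.1.norm hb.1.1.norm (by norm_num))
    refine eLpNorm_mono fun t => ?_
    show ‖f t‖ ≤ ‖‖(f t).fst‖ + ‖(f t).snd‖‖
    rw [Real.norm_of_nonneg (by positivity)]
    have h := WithLp.prod_norm_sq_eq_of_L2 (f t)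
    have h3 : ‖f t‖ ^ 2 ≤ (‖(f t).fst‖ + ‖(f t).snd‖) ^ 2 := by
      rw [h]
      nlinarith [norm_nonneg (f t).fst, norm_nonneg (f t).snd,
        mul_nonneg (norm_nonneg (f t).fst) (norm_nonneg (f t).snd)]
    exact le_of_sq_le_sq h3 (by positivity)
  exact hAB.trans (aux_arith ENNReal.toReal_nonneg ENNReal.toReal_nonneg ENNReal.toReal_nonneg
    ENNReal.toReal_nonneg hK hM0 hW1 hW2 hAC hkey hB)

/-- Consequence of the a priori estimate for the block symbol: a priori estimate for `G`. -/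
theorem of_blk_bound {q : ℝ≥0∞}
    (hpair : ∀ (f g : ℝ → E), Hm 2 f → Hm 2 g →
      Hm 2 (fun t => (WithLp.toLp 2 (f t, g t) : WithLp 2 (E × E))))
    (hpair' : ∀ (f g : ℝ → E), Hp 2 f → Hp 2 g →
      Hp 2 (fun t => (WithLp.toLp 2 (f t, g t) : WithLp 2 (E × E))))
    {G : ℝ → E →L[ℂ] E} {C : ℝ} (hC : 0 ≤ C)
    (hB : ∀ u v : ℝ → WithLp 2 (E × E), Hm 2 u → Hp 2 v → eLpNorm u q volume
      ≤ ENNReal.ofReal C * eLpNorm (fun t => blk (G t) (u t) + v t) q volume)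
    {f w : ℝ → E} (hf : Hm 2 f) (hw : Hm 2 w) (hfw : Hp 2 (fun t => G t (f t) - w t)) :
    eLpNorm f q volume ≤ ENNReal.ofReal C * eLpNorm w q volume := by
  have h1 := hpair f (fun _ => 0) hf (Hm_zero' 2)
  have h2 := hpair' (fun _ => 0) (fun t => -(G t (f t) - w t)) (Hp_zero' 2) (Hp_neg' 2 hfw)
  have h3 := hB _ _ h1 h2
  have e1 : eLpNorm (fun t => (WithLp.toLp 2 (f t, (0 : E)) : WithLp 2 (E × E))) q volume =
      eLpNorm f q volume := by
    apply eLpNorm_congr_norm_ae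
    filter_upwards with t
    exact WithLp.norm_toLp_fst 2 E E (f t)
  have e2 : eLpNorm (fun t => blk (G t) (WithLp.toLp 2 (f t, (0 : E))) +
      (WithLp.toLp 2 ((0 : E), -(G t (f t) - w t)) : WithLp 2 (E × E))) q volume =
      eLpNorm w q volume := by
    apply eLpNorm_congr_norm_ae
    filter_upwards with t
    have e : blk (G t) (WithLp.toLp 2 (f t, (0 : E))) +
      (WithLp.toLp 2 ((0 : E), -(G t (f t) - w t)) : WithLp 2 (E × E)) =
      WithLp.toLp 2 ((0 : E), w t) := by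
      rw [blk_apply]
      show WithLp.toLp 2 (ContinuousLinearMap.adjoint (G t) (0 : E), G t (f t) - (0 : E)) +
        (WithLp.toLp 2 ((0 : E), -(G t (f t) - w t)) : WithLp 2 (E × E)) =
        WithLp.toLp 2 ((0 : E), w t)
      rw [← WithLp.toLp_add]
      congr 1
      ext
      · simp
      · simp
    rw [e]
    exact WithLp.norm_toLp_snd 2 E E (w t)
  rw [e1, e2] at h3
  exact h3

/-- Consequence of the a priori estimate for the block symbol of `G*`: solvability for `G`. -/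
theorem solve_of_blk {q : ℝ≥0∞} (hq : 1 < q) (hq' : q ≠ ⊤)
    (hpair : ∀ (f g : ℝ → E), Hm 2 f → Hm 2 g →
      Hm 2 (fun t => (WithLp.toLp 2 (f t, g t) : WithLp 2 (E × E))))
    (hclm : ∀ (f : ℝ → WithLp 2 (E × E)), Hm 2 f → Hm 2 (fun t => (f t).fst) ∧
      Hm 2 (fun t => (f t).snd))
    (hclm' : ∀ (f : ℝ → WithLp 2 (E × E)), Hp 2 f → Hp 2 (fun t => (f t).fst) ∧
      Hp 2 (fun t => (f t).snd))
    {G : ℝ → E →L[ℂ] E} (hG : Continuous G) {M : ℝ} (hM : ∀ t, ‖G t‖ ≤ M)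
    {C : ℝ} (hC : 0 ≤ C)
    (hB : ∀ u v : ℝ → WithLp 2 (E × E), Hm 2 u → Hp 2 v → eLpNorm u q volume
      ≤ ENNReal.ofReal C * eLpNorm
        (fun t => blk (ContinuousLinearMap.adjoint (G t)) (u t) + v t) q volume)
    (hsolve : ∀ h : ℝ → WithLp 2 (E × E), MemLp h 2 volume →
      ∃ a b : ℝ → WithLp 2 (E × E), Hm 2 a ∧ Hp 2 b ∧
      ∀ᵐ t : ℝ, blk (ContinuousLinearMap.adjoint (G t)) (a t) + b t = h t)
    {g : ℝ → E} (hg : Hm 2 g) (hg' : Hm q g) :
    ∃ f : ℝ → E, Hm q f ∧ Hp q (fun t => G t (f t) - g t) ∧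
      eLpNorm f q volume ≤ ENNReal.ofReal C * eLpNorm g q volume := by
  have hM0 : 0 ≤ M := (norm_nonneg _).trans (hM 0)
  have hh := hpair g (fun _ => 0) hg (Hm_zero' 2)
  obtain ⟨a, b, ha, hb, hab⟩ := hsolve _ hh.1
  have hfm := (hclm a ha).2
  have hbm := (hclm' b hb).1
  -- first components
  have hG1 : ∀ᵐ t : ℝ, G t ((a t).snd) + (b t).fst = g t := by
    filter_upwards [hab] with t ht
    have h := congrArg (fun x : WithLp 2 (E × E) => x.fst) ht
    have h' : ContinuousLinearMap.adjoint (ContinuousLinearMap.adjoint (G t)) ((a t).snd) +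
      (b t).fst = g t := h
    rwa [ContinuousLinearMap.adjoint_adjoint] at h'
  have hest : eLpNorm (fun t => (a t).snd) q volume ≤
      ENNReal.ofReal C * eLpNorm g q volume := by
    have h1 : eLpNorm (fun t => (a t).snd) q volume ≤ eLpNorm a q volume :=
      eLpNorm_mono fun t => WithLp.norm_snd_le _ _
    refine h1.trans ((hB a b ha hb).trans (le_of_eq ?_))
    congr 1
    apply eLpNorm_congr_norm_ae
    filter_upwards [hab] with t ht
    rw [ht]
    exact WithLp.norm_toLp_fst 2 E E (g t)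
  have hfq : MemLp (fun t => (a t).snd) q volume := by
    refine ⟨hfm.1.1, lt_of_le_of_lt hest ?_⟩
    exact ENNReal.mul_lt_top ENNReal.ofReal_lt_top hg'.1.2
  have hGm : AEStronglyMeasurable (fun t => G t ((a t).snd)) volume := by
    refine AEStronglyMeasurable.congr (hg'.1.1.sub hbm.1.1) ?_
    filter_upwards [hG1] with t ht
    show g t - (b t).fst = G t ((a t).snd)
    rw [← ht]
    abel
  have hGq : MemLp (fun t => G t ((a t).snd)) q volume :=
    (aux_mul hM0 hGm (by filter_upwards with t; exact (G t).le_of_opNorm_le (hM t) _) hfq).1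
  refine ⟨fun t => (a t).snd, ⟨hfq, hfm.2⟩, ⟨hGq.sub hg'.1, ?_⟩, hest⟩
  intro z hz
  have h := (Hp_neg' 2 hbm).2 z hz
  rw [← h]
  apply integral_congr_ae
  filter_upwards [hG1] with t ht
  show ((t : ℂ) - z)⁻¹ • (G t ((a t).snd) - g t) = ((t : ℂ) - z)⁻¹ • (-(b t).fst)
  rw [← ht]
  congr 1
  abel

end D5
end Pool.Agent.Helper865.TAP
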