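import Mathlib

set_option autoImplicit false

open MeasureTheory Filter Topology Set Metric
open scoped ENNReal NNReal

namespace Pool.Agent.Helper865.TAP

/-- `L^p` boundary functions of the Hardy space of the lower half-plane, described by the vanishing
of all Cauchy integrals with pole in the upper half-plane. -/
def Hm {E : Type*} [NormedAddCommGroup E] [NormedSpace ℂ E] (p : ℝ≥0∞) (f : ℝ → E) : Prop :=
  MemLp f p volume ∧ ∀ a : ℂ, 0 < a.im → ∫ t : ℝ, ((t : ℂ) - a)⁻¹ • f t = 0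

/-- `L^p` boundary functions of the Hardy space of the upper half-plane. -/
def Hp {E : Type*} [NormedAddCommGroup E] [NormedSpace ℂ E] (p : ℝ≥0∞) (f : ℝ → E) : Prop :=
  MemLp f p volume ∧ ∀ a : ℂ, a.im < 0 → ∫ t : ℝ, ((t : ℂ) - a)⁻¹ • f t = 0

/-- Absolutely convergent almost periodic functions with frequencies in `S`. -/
def APW {X : Type*} [NormedAddCommGroup X] [NormedSpace ℂ X] (S : Set ℝ) (f : ℝ → X) : Prop :=
  ∃ a : ℝ → X, Summable (fun l => ‖a l‖) ∧ (∀ l, l ∉ S → a l = 0) ∧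
    ∀ t : ℝ, f t = ∑' l : ℝ, Complex.exp (Complex.I * l * t) • a l

/-- Trigonometric polynomials. -/
def TrigPoly {X : Type*} [NormedAddCommGroup X] [NormedSpace ℂ X] (f : ℝ → X) : Prop :=
  ∃ (s : Finset ℝ) (a : ℝ → X), ∀ t : ℝ, f t = ∑ l ∈ s, Complex.exp (Complex.I * l * t) • a l

/-- Uniform almost periodic functions: uniform limits of trigonometric polynomials. -/
def IsAP {X : Type*} [NormedAddCommGroup X] [NormedSpace ℂ X] (f : ℝ → X) : Prop :=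
  ∀ ε : ℝ, 0 < ε → ∃ g : ℝ → X, TrigPoly g ∧ ∀ t, ‖f t - g t‖ ≤ ε

/-- Bounded below: the Toeplitz operator with symbol `G` on the Hardy space `Hm p` satisfies
`‖f‖ ≤ K ‖T_G f‖`; here `w = T_G f` is expressed by `w ∈ Hm p`, `G f - w ∈ Hp p`. -/
def BB {E : Type*} [NormedAddCommGroup E] [NormedSpace ℂ E] (p : ℝ≥0∞) (G : ℝ → E →L[ℂ] E)
    (K : ℝ) : Prop :=
  ∀ f w : ℝ → E, Hm p f → Hm p w → Hp p (fun t => G t (f t) - w t) →
    eLpNorm f p volume ≤ ENNReal.ofReal K * eLpNorm w p volume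

/-- Poisson integral of a function on the real line, at height `y`. -/
noncomputable def pois {E : Type*} [NormedAddCommGroup E] [InnerProductSpace ℂ E]
    [FiniteDimensional ℂ E] (y : ℝ) (f : ℝ → E) (x : ℝ) : E :=
  ∫ t : ℝ, (Real.pi⁻¹ * (y / ((t - x) ^ 2 + y ^ 2))) • f t

/-- Uncentred Hardy-Littlewood maximal function on the line over intervals of radius `≥ r₀`. -/
noncomputable def Mx (r₀ : ℝ) (F : ℝ → ℝ≥0∞) (t : ℝ) : ℝ≥0∞ :=
  ⨆ (c : ℝ) (ρ : ℝ) (_ : 0 < ρ) (_ : r₀ ≤ ρ) (_ : t ∈ ball c ρ),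
    (∫⁻ s in ball c ρ, F s) / ENNReal.ofReal (2 * ρ)

/-- sign `±1` -/
def sg (b : Bool) : ℝ := if b then 1 else -1

/-- Canonical factorisation data of a self-adjoint symbol `A`, with mean-square bounds at scales
`≥ r`. -/
structure Fac {E : Type*} [NormedAddCommGroup E] [InnerProductSpace ℂ E] [FiniteDimensional ℂ E]
    (A : ℝ → E →L[ℂ] E) (r C : ℝ) (N V N' V' : ℝ → E →L[ℂ] E) : Prop where
  contN : Continuous N
  contV : Continuous V
  contN' : Continuous N'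
  contV' : Continuous V'
  hV : ∀ t, V t = (A t).comp (N t)
  hV' : ∀ t, V' t = (A t).comp (N' t)
  id1 : ∀ t, (ContinuousLinearMap.adjoint (N t)).comp (V' t) = 1
  id2 : ∀ t, (ContinuousLinearMap.adjoint (V t)).comp (N' t) = 1
  mulm : ∀ f : ℝ → E, Hm 2 f → Hm 2 (fun t => ContinuousLinearMap.adjoint (V' t) (f t))
  mulp : ∀ f : ℝ → E, Hp 2 f → Hp 2 (fun t => ContinuousLinearMap.adjoint (N' t) (f t))
  msN : ∀ c ρ : ℝ, 0 < ρ → r ≤ ρ → ∫⁻ s in ball c ρ, ‖N s‖ₑ ^ 2 ≤ ENNReal.ofReal (C * (2 * ρ))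
  msV : ∀ c ρ : ℝ, 0 < ρ → r ≤ ρ → ∫⁻ s in ball c ρ, ‖V s‖ₑ ^ 2 ≤ ENNReal.ofReal (C * (2 * ρ))
  msN' : ∀ c ρ : ℝ, 0 < ρ → r ≤ ρ → ∫⁻ s in ball c ρ, ‖N' s‖ₑ ^ 2 ≤ ENNReal.ofReal (C * (2 * ρ))
  msV' : ∀ c ρ : ℝ, 0 < ρ → r ≤ ρ → ∫⁻ s in ball c ρ, ‖V' s‖ₑ ^ 2 ≤ ENNReal.ofReal (C * (2 * ρ))

variable {E : Type*} [NormedAddCommGroup E] [InnerProductSpace ℂ E] [FiniteDimensional ℂ E]

/-- The block operator `(x, y) ↦ (T* y, T x - y)`. -/
noncomputable def blk (T : E →L[ℂ] E) : WithLp 2 (E × E) →L[ℂ] WithLp 2 (E × E) :=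
  ((WithLp.prodContinuousLinearEquiv 2 ℂ E E).symm : (E × E) →L[ℂ] WithLp 2 (E × E)).comp
    ((((ContinuousLinearMap.adjoint T).comp (ContinuousLinearMap.snd ℂ E E)).prod
      (T.comp (ContinuousLinearMap.fst ℂ E E) - ContinuousLinearMap.snd ℂ E E)).comp
      ((WithLp.prodContinuousLinearEquiv 2 ℂ E E) : WithLp 2 (E × E) →L[ℂ] (E × E)))

end Pool.Agent.Helper865.TAP
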