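import Pool.Agent.Helper865.TAP.Defs


set_option autoImplicit false

open MeasureTheory Filter Topology Set Metric
open scoped ENNReal NNReal

namespace Pool.Agent.Helper865.TAP
namespace E1





variable {E : Type*} [NormedAddCommGroup E] [InnerProductSpace ℂ E] [FiniteDimensional ℂ E]

theorem norm_Hm_le
    (horth : ∀ u v : ℝ → E, Hm 2 u → Hp 2 v → ∫ t : ℝ, inner ℂ (u t) (v t) = 0)
    {u v : ℝ → E} (hu : Hm 2 u) (hv : Hp 2 v) :
    eLpNorm u 2 volume ≤ eLpNorm (fun t => u t + v t) 2 volume ∧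
    eLpNorm v 2 volume ≤ eLpNorm (fun t => u t + v t) 2 volume := by
  have h0 := horth u v hu hv
  have hin : inner ℂ (hu.1.toLp u) (hv.1.toLp v) = 0 := by
    rw [L2.inner_def, ← h0]
    refine integral_congr_ae ?_
    filter_upwards [hu.1.coeFn_toLp, hv.1.coeFn_toLp] with t h1 h2
    rw [h1, h2]
  have hsum : (hu.1.add hv.1).toLp (fun t => u t + v t) = hu.1.toLp u + hv.1.toLp v :=
    MemLp.toLp_add hu.1 hv.1
  have hpy := norm_add_sq_eq_norm_sq_add_norm_sq_of_inner_eq_zero (𝕜 := ℂ) _ _ hin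
  have hu' : ‖hu.1.toLp u‖ ≤ ‖hu.1.toLp u + hv.1.toLp v‖ := by
    nlinarith [norm_nonneg (hu.1.toLp u), norm_nonneg (hv.1.toLp v),
      norm_nonneg (hu.1.toLp u + hv.1.toLp v)]
  have hv' : ‖hv.1.toLp v‖ ≤ ‖hu.1.toLp u + hv.1.toLp v‖ := by
    nlinarith [norm_nonneg (hu.1.toLp u), norm_nonneg (hv.1.toLp v),
      norm_nonneg (hu.1.toLp u + hv.1.toLp v)]
  have e1 : eLpNorm u 2 volume = ENNReal.ofReal ‖hu.1.toLp u‖ := by
    rw [Lp.norm_toLp, ENNReal.ofReal_toReal hu.1.eLpNorm_ne_top]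
  have e2 : eLpNorm v 2 volume = ENNReal.ofReal ‖hv.1.toLp v‖ := by
    rw [Lp.norm_toLp, ENNReal.ofReal_toReal hv.1.eLpNorm_ne_top]
  have e3 : eLpNorm (fun t => u t + v t) 2 volume =
      ENNReal.ofReal ‖hu.1.toLp u + hv.1.toLp v‖ := by
    rw [← hsum, Lp.norm_toLp]
    exact (ENNReal.ofReal_toReal (hu.1.add hv.1).eLpNorm_ne_top).symm
  rw [e1, e2, e3]
  exact ⟨ENNReal.ofReal_le_ofReal hu', ENNReal.ofReal_le_ofReal hv'⟩

theorem clm_meas {G : ℝ → E →L[ℂ] E} (hG : Continuous G) {f : ℝ → E}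
    (hf : AEStronglyMeasurable f volume) :
    AEStronglyMeasurable (fun t => G t (f t)) volume :=
  ContinuousLinearMap.aestronglyMeasurable_comp₂ (ContinuousLinearMap.id ℂ (E →L[ℂ] E))
    hG.aestronglyMeasurable hf

/-- Perturbation of the symbol. -/
theorem BB_perturb
    (horth : ∀ u v : ℝ → E, Hm 2 u → Hp 2 v → ∫ t : ℝ, inner ℂ (u t) (v t) = 0)
    (hdecomp : ∀ f : ℝ → E, MemLp f 2 volume → ∃ u v : ℝ → E, Hm 2 u ∧ Hp 2 v ∧
      ∀ t, f t = u t + v t)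
    (hsub : ∀ f g : ℝ → E, Hm 2 f → Hm 2 g → Hm 2 (fun t => f t - g t))
    (hsub' : ∀ f g : ℝ → E, Hp 2 f → Hp 2 g → Hp 2 (fun t => f t - g t))
    {G A : ℝ → E →L[ℂ] E} (hG : Continuous G) {M : ℝ} (hM : ∀ t, ‖G t‖ ≤ M)
    {δ K : ℝ} (hK : 0 < K) (hGA : ∀ t, ‖G t - A t‖ ≤ δ) (hδ : K * δ ≤ 1 / 2)
    (hBB : BB 2 G K) : BB 2 A (2 * K) := by
  intro f w hf hw hAf
  have hδ0 : 0 ≤ δ := (norm_nonneg _).trans (hGA 0)
  have hGf : MemLp (fun t => G t (f t)) 2 volume := by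
    refine MemLp.of_le_mul hf.1 (clm_meas hG hf.1.1) (c := M) (Eventually.of_forall fun t => ?_)
    exact ((G t).le_opNorm (f t)).trans (mul_le_mul_of_nonneg_right (hM t) (norm_nonneg _))
  obtain ⟨w1, v1, hw1, hv1, hdec⟩ := hdecomp _ hGf
  have h1 : eLpNorm f 2 volume ≤ ENNReal.ofReal K * eLpNorm w1 2 volume := by
    apply hBB f w1 hf hw1
    have : (fun t => G t (f t) - w1 t) = v1 := by
      funext t; rw [hdec t]; abel
    rw [this]; exact hv1
  have h2 := (norm_Hm_le horth (hsub _ _ hw1 hw) (hsub' _ _ hv1 hAf)).1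
  have h3 : eLpNorm (fun t => (w1 t - w t) + (v1 t - (A t (f t) - w t))) 2 volume ≤
      ENNReal.ofReal δ * eLpNorm f 2 volume := by
    refine eLpNorm_le_mul_eLpNorm_of_ae_le_mul (Eventually.of_forall fun t => ?_) 2
    have : (w1 t - w t) + (v1 t - (A t (f t) - w t)) = (G t - A t) (f t) := by
      rw [sub_apply, hdec t]; abel
    rw [this]
    exact ((G t - A t).le_opNorm (f t)).trans
      (mul_le_mul_of_nonneg_right (hGA t) (norm_nonneg _))
  have h4 : eLpNorm w1 2 volume ≤ eLpNorm (fun t => w1 t - w t) 2 volume +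
      eLpNorm w 2 volume := by
    have := eLpNorm_add_le (μ := (volume : Measure ℝ)) (p := 2)
      (hsub _ _ hw1 hw).1.1 hw.1.1 (by norm_num)
    refine le_trans (le_of_eq ?_) this
    congr 1
    funext t
    simp
  obtain ⟨F, hF⟩ : ∃ F : ℝ, F = (eLpNorm f 2 volume).toReal := ⟨_, rfl⟩
  obtain ⟨W, hW⟩ : ∃ W : ℝ, W = (eLpNorm w 2 volume).toReal := ⟨_, rfl⟩
  have hF0 : 0 ≤ F := by rw [hF]; exact ENNReal.toReal_nonneg
  have hW0 : 0 ≤ W := by rw [hW]; exact ENNReal.toReal_nonneg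
  have eF : eLpNorm f 2 volume = ENNReal.ofReal F := by
    rw [hF, ENNReal.ofReal_toReal hf.1.eLpNorm_ne_top]
  have eW : eLpNorm w 2 volume = ENNReal.ofReal W := by
    rw [hW, ENNReal.ofReal_toReal hw.1.eLpNorm_ne_top]
  have h5 : eLpNorm f 2 volume ≤ ENNReal.ofReal K *
      (ENNReal.ofReal δ * eLpNorm f 2 volume + eLpNorm w 2 volume) :=
    h1.trans (mul_le_mul_right (h4.trans (add_le_add (h2.trans h3) le_rfl)) _)
  rw [eF, eW, ← ENNReal.ofReal_mul hδ0, ← ENNReal.ofReal_add (by positivity) hW0,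
    ← ENNReal.ofReal_mul hK.le, ENNReal.ofReal_le_ofReal_iff (by positivity)] at h5
  rw [eF, eW, ← ENNReal.ofReal_mul (by positivity)]
  apply ENNReal.ofReal_le_ofReal
  nlinarith [mul_le_mul_of_nonneg_right hδ hF0]

theorem exists_inv {A : E →L[ℂ] E} {K : ℝ} (hK : 0 < K)
    (hlow : ∀ x : E, ‖x‖ ≤ K * ‖A x‖) :
    ∃ B : E →L[ℂ] E, (∀ x, A (B x) = x) ∧ ‖B‖ ≤ K := by
  have hinj : Function.Injective (A : E →ₗ[ℂ] E) := by
    rw [injective_iff_map_eq_zero]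
    intro x hx
    have h1 := hlow x
    have h2 : A x = 0 := hx
    rw [h2, norm_zero, mul_zero] at h1
    exact norm_le_zero_iff.1 h1
  let e := LinearEquiv.ofInjectiveEndo (A : E →ₗ[ℂ] E) hinj
  have hAB : ∀ x, A (e.symm x) = x := by
    intro x
    have := e.apply_symm_apply x
    exact this
  refine ⟨LinearMap.toContinuousLinearMap (e.symm : E →ₗ[ℂ] E), hAB, ?_⟩
  refine ContinuousLinearMap.opNorm_le_bound _ hK.le (fun y => ?_)
  have := hlow (e.symm y)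
  rw [hAB] at this
  exact this

theorem ms_const (L : E →L[ℂ] E) {C : ℝ} (hC : ‖L‖ ^ 2 ≤ C) (c ρ : ℝ) (hρ : 0 < ρ) :
    ∫⁻ _ in ball c ρ, ‖L‖ₑ ^ 2 ≤ ENNReal.ofReal (C * (2 * ρ)) := by
  rw [setLIntegral_const, Real.volume_ball, ← ofReal_norm, ← ENNReal.ofReal_pow (norm_nonneg _),
    ← ENNReal.ofReal_mul (by positivity)]
  exact ENNReal.ofReal_le_ofReal (mul_le_mul_of_nonneg_right hC (by positivity))

/-- Factorisation data of a constant invertible self-adjoint symbol. -/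
theorem fac_const
    (hclm : ∀ (f : ℝ → E), Hm 2 f → ∀ L : E →L[ℂ] E, Hm 2 (fun t => L (f t)))
    {A : E →L[ℂ] E} (hsa : ContinuousLinearMap.adjoint A = A) {K M : ℝ} (hK : 0 < K)
    (hM : ‖A‖ ≤ M) (hlow : ∀ x : E, ‖x‖ ≤ K * ‖A x‖) :
    ∃ N V N' V' : ℝ → E →L[ℂ] E, Fac (fun _ => A) 0 (1 + K ^ 2 + M ^ 2) N V N' V' := by
  obtain ⟨B, hAB, hB⟩ := exists_inv hK hlow
  have hAB' : A.comp B = 1 := by
    ext x; exact hAB x
  have hadj1 : ContinuousLinearMap.adjoint (1 : E →L[ℂ] E) = 1 := by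
    have := star_one (R := E →L[ℂ] E)
    rwa [ContinuousLinearMap.star_eq_adjoint] at this
  have h1 : ‖(1 : E →L[ℂ] E)‖ ^ 2 ≤ 1 + K ^ 2 + M ^ 2 := by
    have h := ContinuousLinearMap.norm_id_le (𝕜 := ℂ) (E := E)
    have h' : ‖(1 : E →L[ℂ] E)‖ ≤ 1 := h
    nlinarith [norm_nonneg (1 : E →L[ℂ] E), sq_nonneg K, sq_nonneg M]
  have h2 : ‖B‖ ^ 2 ≤ 1 + K ^ 2 + M ^ 2 := by
    nlinarith [norm_nonneg B, sq_nonneg K, sq_nonneg M]
  have h3 : ‖A‖ ^ 2 ≤ 1 + K ^ 2 + M ^ 2 := by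
    nlinarith [norm_nonneg A, sq_nonneg K, sq_nonneg M]
  refine ⟨fun _ => B, fun _ => 1, fun _ => 1, fun _ => A, ?_⟩
  exact
    { contN := continuous_const
      contV := continuous_const
      contN' := continuous_const
      contV' := continuous_const
      hV := fun _ => hAB'.symm
      hV' := fun _ => (ContinuousLinearMap.comp_id A).symm
      id1 := fun _ => by
        have : ContinuousLinearMap.adjoint (A.comp B) = 1 := by rw [hAB', hadj1]
        rw [ContinuousLinearMap.adjoint_comp, hsa] at this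
        exact this
      id2 := fun _ => by
        rw [hadj1]; rfl
      mulm := fun f hf => hclm f hf _
      mulp := fun f hf => by
        rw [hadj1]; exact hf
      msN := fun c ρ hρ _ => ms_const B h2 c ρ hρ
      msV := fun c ρ hρ _ => ms_const 1 h1 c ρ hρ
      msN' := fun c ρ hρ _ => ms_const 1 h1 c ρ hρ
      msV' := fun c ρ hρ _ => ms_const A h3 c ρ hρ }

/-- Solution of the constant coefficient problem. -/
theorem solve_const
    (horth : ∀ u v : ℝ → E, Hm 2 u → Hp 2 v → ∫ t : ℝ, inner ℂ (u t) (v t) = 0)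
    (hdecomp : ∀ f : ℝ → E, MemLp f 2 volume → ∃ u v : ℝ → E, Hm 2 u ∧ Hp 2 v ∧
      ∀ t, f t = u t + v t)
    (hclm : ∀ (f : ℝ → E), Hm 2 f → ∀ L : E →L[ℂ] E, Hm 2 (fun t => L (f t)))
    {A : E →L[ℂ] E} {K : ℝ} (hK : 0 < K)
    (hlow : ∀ x : E, ‖x‖ ≤ K * ‖A x‖) (h : ℝ → E) (hh : MemLp h 2 volume) :
    ∃ u v : ℝ → E, Hm 2 u ∧ Hp 2 v ∧ (∀ᵐ t : ℝ, A (u t) + v t = h t) ∧
      eLpNorm u 2 volume ≤ ENNReal.ofReal (K + 1) * eLpNorm h 2 volume ∧
      eLpNorm v 2 volume ≤ ENNReal.ofReal (K + 1) * eLpNorm h 2 volume := by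
  obtain ⟨B, hAB, hB⟩ := exists_inv hK hlow
  obtain ⟨h1, h2, hh1, hh2, hdec⟩ := hdecomp h hh
  have hn := norm_Hm_le horth hh1 hh2
  have he : (fun t => h1 t + h2 t) = h := by funext t; exact (hdec t).symm
  rw [he] at hn
  refine ⟨fun t => B (h1 t), h2, hclm h1 hh1 B, hh2, ?_, ?_, ?_⟩
  · refine Eventually.of_forall fun t => ?_
    rw [hAB, hdec t]
  · calc eLpNorm (fun t => B (h1 t)) 2 volume ≤ ENNReal.ofReal K * eLpNorm h1 2 volume := by
          refine eLpNorm_le_mul_eLpNorm_of_ae_le_mul (Eventually.of_forall fun t => ?_) 2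
          exact (B.le_opNorm _).trans (mul_le_mul_of_nonneg_right hB (norm_nonneg _))
      _ ≤ ENNReal.ofReal (K + 1) * eLpNorm h 2 volume :=
          mul_le_mul' (ENNReal.ofReal_le_ofReal (by linarith)) hn.1
  · calc eLpNorm h2 2 volume ≤ 1 * eLpNorm h 2 volume := by rw [one_mul]; exact hn.2
      _ ≤ ENNReal.ofReal (K + 1) * eLpNorm h 2 volume := by
          refine mul_le_mul' ?_ le_rfl
          rw [← ENNReal.ofReal_one]
          exact ENNReal.ofReal_le_ofReal (by linarith)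

end E1
end Pool.Agent.Helper865.TAP
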