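import Pool.Agent.Helper865.TAP.Defs


set_option autoImplicit false

open MeasureTheory Filter Topology Set Metric
open scoped ENNReal NNReal

namespace Pool.Agent.Helper865.TAP
namespace F1



variable {E : Type*} [NormedAddCommGroup E] [InnerProductSpace ℂ E] [FiniteDimensional ℂ E]

theorem nice_inv {b : ℂ} (hb : b.im ≠ 0) : ∃ C : ℝ, 0 ≤ C ∧ ∀ t : ℝ,
    ‖((t : ℂ) - b)⁻¹‖ ≤ C / (1 + |t|) := by
  have hβ : 0 < |b.im| := abs_pos.2 hb
  refine ⟨(1 + ‖b‖) / |b.im| + 1, by positivity, fun t => ?_⟩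
  have h1 : |b.im| ≤ ‖(t : ℂ) - b‖ := by
    have h := Complex.abs_im_le_norm ((t : ℂ) - b)
    simpa using h
  have h2 : |t| ≤ ‖(t : ℂ) - b‖ + ‖b‖ := by
    have h := norm_add_le ((t : ℂ) - b) b
    rw [sub_add_cancel, Complex.norm_real, Real.norm_eq_abs] at h
    exact h
  have h3 : 0 < ‖(t : ℂ) - b‖ := lt_of_lt_of_le hβ h1
  have ht : 0 < 1 + |t| := by positivity
  rw [norm_inv, inv_le_iff_one_le_mul₀ h3, ← mul_div_right_comm, one_le_div ht]
  have h4 : 1 + ‖b‖ ≤ (1 + ‖b‖) / |b.im| * ‖(t : ℂ) - b‖ := by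
    rw [div_mul_eq_mul_div, le_div_iff₀ hβ]
    gcongr
  linarith

theorem nice_exp (l s t : ℝ) :
    ‖Complex.exp (Complex.I * l * s) - Complex.exp (Complex.I * l * t)‖ ≤ |l| * |s - t| := by
  have e : Complex.exp (Complex.I * l * s) - Complex.exp (Complex.I * l * t)
      = Complex.exp (Complex.I * l * t) *
        (Complex.exp (Complex.I * ((l * (s - t) : ℝ) : ℂ)) - 1) := by
    rw [mul_sub, mul_one, ← Complex.exp_add]
    congr 2
    push_cast
    ring
  have h1 : ‖Complex.exp (Complex.I * l * t)‖ = 1 := by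
    have : Complex.I * l * t = ((l * t : ℝ) : ℂ) * Complex.I := by push_cast; ring
    rw [this, Complex.norm_exp_ofReal_mul_I]
  rw [e, norm_mul, h1, one_mul]
  refine (Real.norm_exp_I_mul_ofReal_sub_one_le).trans ?_
  rw [Real.norm_eq_abs, abs_mul]

theorem nice_norm_exp (l t : ℝ) : ‖Complex.exp (Complex.I * l * t)‖ = 1 := by
  have : Complex.I * l * t = ((l * t : ℝ) : ℂ) * Complex.I := by push_cast; ring
  rw [this, Complex.norm_exp_ofReal_mul_I]

/-- Decay and Lipschitz bounds for the square of a finite sum of modulated Cauchy kernels. -/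
theorem nice_sq {ι : Type*} (J : Finset ι) (l : ι → ℝ) (b : ι → ℂ) (x : ι → E)
    (hb : ∀ i ∈ J, (b i).im ≠ 0) (f : ℝ → E)
    (hf : ∀ t : ℝ, f t = ∑ i ∈ J, Complex.exp (Complex.I * l i * t) •
      (((t : ℂ) - b i)⁻¹ • x i)) :
    ∃ D : ℝ, 0 ≤ D ∧ Continuous (fun t => ‖f t‖ ^ 2) ∧ (∀ t, ‖f t‖ ^ 2 ≤ D / (1 + t ^ 2)) ∧
      ∀ s t : ℝ, |s - t| ≤ 1 → |‖f s‖ ^ 2 - ‖f t‖ ^ 2| ≤ D * |s - t| / (1 + s ^ 2) := by
  have hC : ∀ i, ∃ C : ℝ, 0 ≤ C ∧ (i ∈ J → ∀ t : ℝ, ‖((t : ℂ) - b i)⁻¹‖ ≤ C / (1 + |t|)) := by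
    intro i
    by_cases hi : i ∈ J
    · obtain ⟨C, h1, h2⟩ := nice_inv (hb i hi)
      exact ⟨C, h1, fun _ => h2⟩
    · exact ⟨0, le_refl _, fun h => absurd h hi⟩
  choose C hC0 hC1 using hC
  set A : ℝ := ∑ i ∈ J, (|l i| + C i + 1) * C i * ‖x i‖ with hA
  have hA0 : 0 ≤ A := Finset.sum_nonneg fun i _ => by
    have := hC0 i
    positivity
  have hfin : ∀ t, ‖f t‖ ≤ A / (1 + |t|) := by
    intro t
    rw [hf, hA, Finset.sum_div]
    refine (norm_sum_le _ _).trans (Finset.sum_le_sum fun i hi => ?_)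
    rw [norm_smul, norm_smul, nice_norm_exp, one_mul]
    have h1 := hC1 i hi t
    have h2 := hC0 i
    calc ‖((t : ℂ) - b i)⁻¹‖ * ‖x i‖ ≤ C i / (1 + |t|) * ‖x i‖ := by gcongr
      _ = 1 * C i * ‖x i‖ / (1 + |t|) := by ring
      _ ≤ (|l i| + C i + 1) * C i * ‖x i‖ / (1 + |t|) := by
          gcongr
          have := abs_nonneg (l i)
          linarith
  have hlip : ∀ s t, ‖f s - f t‖ ≤ A * |s - t| / (1 + |s|) := by
    intro s t
    rw [hf, hf, ← Finset.sum_sub_distrib, hA, Finset.sum_mul, Finset.sum_div]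
    refine (norm_sum_le _ _).trans (Finset.sum_le_sum fun i hi => ?_)
    have h2 := hC0 i
    have hne : ∀ r : ℝ, (r : ℂ) - b i ≠ 0 := by
      intro r h
      apply hb i hi
      have := congrArg Complex.im h
      simpa using this
    have e : Complex.exp (Complex.I * l i * s) • (((s : ℂ) - b i)⁻¹ • x i)
        - Complex.exp (Complex.I * l i * t) • (((t : ℂ) - b i)⁻¹ • x i)
        = ((Complex.exp (Complex.I * l i * s) - Complex.exp (Complex.I * l i * t))
            * ((s : ℂ) - b i)⁻¹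
          + Complex.exp (Complex.I * l i * t) * (((t : ℂ) - s) * (((s : ℂ) - b i)⁻¹
            * ((t : ℂ) - b i)⁻¹))) • x i := by
      rw [smul_smul, smul_smul, ← sub_smul]
      congr 1
      have h3 := hne s
      have h4 := hne t
      field_simp
      ring
    rw [e, norm_smul]
    have hts : ‖(t : ℂ) - s‖ = |s - t| := by
      rw [← Complex.ofReal_sub, Complex.norm_real, Real.norm_eq_abs, abs_sub_comm]
    have hone : ‖((t : ℂ) - b i)⁻¹‖ ≤ C i := by
      refine (hC1 i hi t).trans ?_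
      exact div_le_self h2 (by linarith [abs_nonneg t])
    have h5 : ‖(Complex.exp (Complex.I * l i * s) - Complex.exp (Complex.I * l i * t))
            * ((s : ℂ) - b i)⁻¹
          + Complex.exp (Complex.I * l i * t) * (((t : ℂ) - s) * (((s : ℂ) - b i)⁻¹
            * ((t : ℂ) - b i)⁻¹))‖
        ≤ (|l i| * |s - t|) * (C i / (1 + |s|)) + |s - t| * (C i / (1 + |s|) * C i) := by
      refine (norm_add_le _ _).trans (add_le_add ?_ ?_)
      · rw [norm_mul]
        exact mul_le_mul (nice_exp _ _ _) (hC1 i hi s) (norm_nonneg _) (by positivity)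
      · rw [norm_mul, nice_norm_exp, one_mul, norm_mul, hts, norm_mul]
        refine mul_le_mul_of_nonneg_left ?_ (abs_nonneg _)
        exact mul_le_mul (hC1 i hi s) hone (norm_nonneg _) (by positivity)
    calc ‖(Complex.exp (Complex.I * l i * s) - Complex.exp (Complex.I * l i * t))
            * ((s : ℂ) - b i)⁻¹
          + Complex.exp (Complex.I * l i * t) * (((t : ℂ) - s) * (((s : ℂ) - b i)⁻¹
            * ((t : ℂ) - b i)⁻¹))‖ * ‖x i‖
        ≤ ((|l i| * |s - t|) * (C i / (1 + |s|)) + |s - t| * (C i / (1 + |s|) * C i)) * ‖x i‖ := by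
          gcongr
      _ = (|l i| + C i) * C i * ‖x i‖ * |s - t| / (1 + |s|) := by ring
      _ ≤ (|l i| + C i + 1) * C i * ‖x i‖ * |s - t| / (1 + |s|) := by
          have h6 : |l i| + C i ≤ |l i| + C i + 1 := by linarith
          gcongr
  have hsq : ∀ t : ℝ, 1 + t ^ 2 ≤ (1 + |t|) ^ 2 := by
    intro t
    nlinarith [abs_nonneg t, sq_abs t]
  have hcont : Continuous f := by
    have hl : LipschitzWith (Real.toNNReal A) f := by
      refine LipschitzWith.of_dist_le_mul fun s t => ?_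
      rw [dist_eq_norm, Real.coe_toNNReal A hA0, Real.dist_eq]
      refine (hlip s t).trans ?_
      exact div_le_self (by positivity) (by linarith [abs_nonneg s])
    exact hl.continuous
  refine ⟨3 * A ^ 2, by positivity, by fun_prop, fun t => ?_, fun s t hst => ?_⟩
  · have h1 := hfin t
    calc ‖f t‖ ^ 2 ≤ (A / (1 + |t|)) ^ 2 := by gcongr
      _ = A ^ 2 / (1 + |t|) ^ 2 := by rw [div_pow]
      _ ≤ A ^ 2 / (1 + t ^ 2) := by
          gcongr
          exact hsq t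
      _ ≤ 3 * A ^ 2 / (1 + t ^ 2) := by
          gcongr
          nlinarith [sq_nonneg A]
  · have h1 : |‖f s‖ ^ 2 - ‖f t‖ ^ 2| ≤ ‖f s - f t‖ * (‖f s‖ + ‖f t‖) := by
      have e : ‖f s‖ ^ 2 - ‖f t‖ ^ 2 = (‖f s‖ - ‖f t‖) * (‖f s‖ + ‖f t‖) := by ring
      rw [e, abs_mul, abs_of_nonneg (a := ‖f s‖ + ‖f t‖) (by positivity)]
      exact mul_le_mul_of_nonneg_right (abs_norm_sub_norm_le _ _) (by positivity)
    have h2 : ‖f t‖ ≤ 2 * A / (1 + |s|) := by
      refine (hfin t).trans ?_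
      rw [div_le_div_iff₀ (by positivity) (by positivity)]
      have h3 : |s| ≤ |t| + 1 := by
        have := abs_sub_abs_le_abs_sub s t
        linarith
      have h4 := abs_nonneg t
      nlinarith
    have h3 : ‖f s‖ + ‖f t‖ ≤ 3 * A / (1 + |s|) := by
      have h4 := hfin s
      have e : 3 * A / (1 + |s|) = A / (1 + |s|) + 2 * A / (1 + |s|) := by ring
      rw [e]
      linarith
    calc |‖f s‖ ^ 2 - ‖f t‖ ^ 2| ≤ ‖f s - f t‖ * (‖f s‖ + ‖f t‖) := h1
      _ ≤ (A * |s - t| / (1 + |s|)) * (3 * A / (1 + |s|)) :=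
          mul_le_mul (hlip s t) h3 (by positivity) (by positivity)
      _ = 3 * A ^ 2 * |s - t| / (1 + |s|) ^ 2 := by
          rw [div_mul_div_comm]
          ring
      _ ≤ 3 * A ^ 2 * |s - t| / (1 + s ^ 2) := by
          gcongr
          exact hsq s

theorem to_lintegral_aux {p : ℝ} (hp : 1 < p) {η : ℝ} (S : Finset ℤ) (f : ℝ → E) :
    eLpNorm (fun t => (WithLp.toLp 2 (fun j : Fin S.card =>
        f (t - (((S.equivFin.symm j : ℤ) : ℝ) * η))) : PiLp 2 (fun _ : Fin S.card => E)))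
        (ENNReal.ofReal p) volume
      = (∫⁻ t : ℝ, ENNReal.ofReal (∑ k ∈ S, ‖f (t - k * η)‖ ^ 2) ^ (p / 2)) ^ (1 / p) := by
  have hp0 : 0 < p := by linarith
  rw [eLpNorm_eq_lintegral_rpow_enorm_toReal (ENNReal.ofReal_pos.2 hp0).ne'
    ENNReal.ofReal_ne_top, ENNReal.toReal_ofReal hp0.le]
  congr 1
  refine lintegral_congr fun t => ?_
  have e1 : ∑ k ∈ S, ‖f (t - k * η)‖ ^ 2
      = ‖(WithLp.toLp 2 (fun j : Fin S.card =>
        f (t - (((S.equivFin.symm j : ℤ) : ℝ) * η))) : PiLp 2 (fun _ : Fin S.card => E))‖ ^ 2 := by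
    rw [PiLp.norm_sq_eq_of_L2]
    rw [← Finset.sum_coe_sort S (fun k : ℤ => ‖f (t - k * η)‖ ^ 2)]
    exact (Equiv.sum_comp S.equivFin.symm (fun k : S => ‖f (t - ((k : ℤ) : ℝ) * η)‖ ^ 2)).symm
  rw [e1]
  generalize (WithLp.toLp 2 (fun j : Fin S.card =>
        f (t - (((S.equivFin.symm j : ℤ) : ℝ) * η))) : PiLp 2 (fun _ : Fin S.card => E)) = v
  rw [ENNReal.ofReal_pow (norm_nonneg _), ofReal_norm, ← ENNReal.rpow_natCast, ← ENNReal.rpow_mul]
  congr 1
  push_cast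
  ring

/-- Conversion of the `L^p` comparison of vector valued functions to integrals. -/
theorem to_lintegral {p κ : ℝ} (hp : 1 < p) (hκ : 0 ≤ κ) {η : ℝ} (S : Finset ℤ) (f F : ℝ → E)
    (h : ∀ (N : ℕ) (h : Fin N → ℝ), (∀ j, ∃ k ∈ S, h j = (k : ℝ) * η) →
      eLpNorm (fun t => (WithLp.toLp 2 (fun j => f (t - h j)) : PiLp 2 (fun _ : Fin N => E)))
        (ENNReal.ofReal p) volume
      ≤ ENNReal.ofReal κ *
        eLpNorm (fun t => (WithLp.toLp 2 (fun j => F (t - h j)) : PiLp 2 (fun _ : Fin N => E)))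
          (ENNReal.ofReal p) volume) :
    ∫⁻ t : ℝ, ENNReal.ofReal (∑ k ∈ S, ‖f (t - k * η)‖ ^ 2) ^ (p / 2)
      ≤ ENNReal.ofReal (κ ^ p) *
        ∫⁻ t : ℝ, ENNReal.ofReal (∑ k ∈ S, ‖F (t - k * η)‖ ^ 2) ^ (p / 2) := by
  have hp0 : 0 < p := by linarith
  have h1 := h S.card (fun j => (((S.equivFin.symm j : ℤ) : ℝ) * η))
    (fun j => ⟨(S.equivFin.symm j : ℤ), (S.equivFin.symm j).2, rfl⟩)
  rw [to_lintegral_aux hp S f, to_lintegral_aux hp S F] at h1
  have h2 := ENNReal.rpow_le_rpow h1 hp0.le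
  rw [ENNReal.mul_rpow_of_nonneg _ _ hp0.le, ← ENNReal.rpow_mul, ← ENNReal.rpow_mul,
    one_div_mul_cancel hp0.ne', ENNReal.rpow_one, ENNReal.rpow_one,
    ENNReal.ofReal_rpow_of_nonneg hκ hp0.le] at h2
  exact h2

end F1
end Pool.Agent.Helper865.TAP
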