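import Pool.Agent.Helper865.TAP.Defs


set_option autoImplicit false

open MeasureTheory Filter Topology Set Metric
open scoped ENNReal NNReal

namespace Pool.Agent.Helper865.TAP
namespace F3



variable {E : Type*} [NormedAddCommGroup E] [InnerProductSpace ℂ E] [FiniteDimensional ℂ E]

/-- It is enough to check boundedness below on finite sums of Cauchy kernels. -/
theorem BB2_of_dense
    (hdecomp : ∀ f : ℝ → E, MemLp f 2 volume → ∃ u v : ℝ → E, Hm 2 u ∧ Hp 2 v ∧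
      ∀ t, f t = u t + v t)
    (hsub : ∀ f g : ℝ → E, Hm 2 f → Hm 2 g → Hm 2 (fun t => f t - g t))
    (hsub' : ∀ f g : ℝ → E, Hp 2 f → Hp 2 g → Hp 2 (fun t => f t - g t))
    (hbound : ∀ u v : ℝ → E, Hm 2 u → Hp 2 v →
      eLpNorm u 2 volume ≤ eLpNorm (fun t => u t + v t) 2 volume)
    (hdense : ∀ f : ℝ → E, Hm 2 f → ∀ ε : ℝ, 0 < ε → ∃ (s : Finset ℂ) (c : ℂ → E),
      (∀ b ∈ s, 0 < b.im) ∧
      eLpNorm (fun t : ℝ => f t - ∑ b ∈ s, ((t : ℂ) - b)⁻¹ • c b) 2 volume ≤ ENNReal.ofReal ε)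
    (hsum : ∀ (s : Finset ℂ) (c : ℂ → E), (∀ b ∈ s, 0 < b.im) →
      Hm 2 (fun t : ℝ => ∑ b ∈ s, ((t : ℂ) - b)⁻¹ • c b))
    {G : ℝ → E →L[ℂ] E} (hG : Continuous G) {M : ℝ} (hM : ∀ t, ‖G t‖ ≤ M) {K : ℝ} (hK : 0 < K)
    (h : ∀ (s : Finset ℂ) (c : ℂ → E), (∀ b ∈ s, 0 < b.im) → ∀ w : ℝ → E, Hm 2 w →
      Hp 2 (fun t : ℝ => G t (∑ b ∈ s, ((t : ℂ) - b)⁻¹ • c b) - w t) →
      eLpNorm (fun t : ℝ => ∑ b ∈ s, ((t : ℂ) - b)⁻¹ • c b) 2 volume
        ≤ ENNReal.ofReal K * eLpNorm w 2 volume) :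
    BB 2 G K := by
  intro f w hf hw hGf
  have hM0 : 0 ≤ M := (norm_nonneg _).trans (hM 0)
  refine ENNReal.le_of_forall_pos_le_add fun δ hδ _ => ?_
  have hKM : 0 < 1 + K * M := by positivity
  obtain ⟨ε, hε⟩ : ∃ ε : ℝ, ε = (δ : ℝ) / (1 + K * M) := ⟨_, rfl⟩
  have hε0 : 0 < ε := by rw [hε]; exact div_pos (by exact_mod_cast hδ) hKM
  obtain ⟨s, c, hs, hsc⟩ := hdense f hf ε hε0
  obtain ⟨f', hf'⟩ : ∃ f' : ℝ → E, f' = fun t : ℝ => ∑ b ∈ s, ((t : ℂ) - b)⁻¹ • c b := ⟨_, rfl⟩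
  have hf'H : Hm 2 f' := by rw [hf']; exact hsum s c hs
  have hfd : eLpNorm (fun t => f t - f' t) 2 volume ≤ ENNReal.ofReal ε := by rw [hf']; exact hsc
  have hGmeas : ∀ g : ℝ → E, AEStronglyMeasurable g volume →
      AEStronglyMeasurable (fun t => G t (g t)) volume := by
    intro g hg
    exact (ContinuousLinearMap.id ℂ (E →L[ℂ] E)).aestronglyMeasurable_comp₂
      hG.aestronglyMeasurable hg
  have hGle : ∀ (g : ℝ → E) (t : ℝ), ‖G t (g t)‖ ≤ M * ‖g t‖ := by
    intro g t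
    exact ((G t).le_opNorm (g t)).trans (mul_le_mul_of_nonneg_right (hM t) (norm_nonneg _))
  have hGf' : MemLp (fun t => G t (f' t)) 2 volume :=
    hf'H.1.of_le_mul (hGmeas f' hf'H.1.1) (Eventually.of_forall (hGle f'))
  obtain ⟨w', v', hw', hv', hdec⟩ := hdecomp _ hGf'
  have hv'' : Hp 2 (fun t => G t (f' t) - w' t) := by
    have e : (fun t => G t (f' t) - w' t) = v' := by
      funext t
      rw [hdec t]
      abel
    rw [e]
    exact hv'
  have h1 : eLpNorm f' 2 volume ≤ ENNReal.ofReal K * eLpNorm w' 2 volume := by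
    rw [hf'] at hv'' ⊢
    exact h s c hs w' hw' hv''
  have h2 := hbound _ _ (hsub w' w hw' hw) (hsub' _ _ hv' hGf)
  have e2 : (fun t => w' t - w t + (v' t - (G t (f t) - w t))) =
      fun t => G t ((fun t => f' t - f t) t) := by
    funext t
    rw [map_sub, hdec t]
    abel
  rw [e2] at h2
  have h3 : eLpNorm (fun t => G t ((fun t => f' t - f t) t)) 2 volume ≤
      ENNReal.ofReal M * eLpNorm (fun t => f' t - f t) 2 volume :=
    eLpNorm_le_mul_eLpNorm_of_ae_le_mul (Eventually.of_forall (hGle _)) 2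
  have h4 : eLpNorm (fun t => f' t - f t) 2 volume ≤ ENNReal.ofReal ε := by
    refine le_trans (le_of_eq ?_) hfd
    exact eLpNorm_sub_comm f' f 2 volume
  have h5 : eLpNorm (fun t => w' t - w t) 2 volume ≤ ENNReal.ofReal M * ENNReal.ofReal ε :=
    h2.trans (h3.trans (by gcongr))
  have h6 : eLpNorm w' 2 volume ≤ ENNReal.ofReal M * ENNReal.ofReal ε + eLpNorm w 2 volume := by
    have e : w' = (fun t => w' t - w t) + w := by
      funext t
      simp
    have h7 := eLpNorm_add_le (p := 2) (f := fun t => w' t - w t) (g := w) (μ := volume)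
      (hw'.1.1.sub hw.1.1) hw.1.1 (by norm_num)
    rw [← e] at h7
    exact h7.trans (by gcongr)
  have h8 : eLpNorm f 2 volume ≤ ENNReal.ofReal ε + eLpNorm f' 2 volume := by
    have e : f = (fun t => f t - f' t) + f' := by
      funext t
      simp
    have h7 := eLpNorm_add_le (p := 2) (f := fun t => f t - f' t) (g := f') (μ := volume)
      (hf.1.1.sub hf'H.1.1) hf'H.1.1 (by norm_num)
    rw [← e] at h7
    exact h7.trans (by gcongr)
  calc eLpNorm f 2 volume ≤ ENNReal.ofReal ε + eLpNorm f' 2 volume := h8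
    _ ≤ ENNReal.ofReal ε + ENNReal.ofReal K * eLpNorm w' 2 volume := by gcongr
    _ ≤ ENNReal.ofReal ε + ENNReal.ofReal K *
        (ENNReal.ofReal M * ENNReal.ofReal ε + eLpNorm w 2 volume) := by gcongr
    _ = ENNReal.ofReal K * eLpNorm w 2 volume + δ := by
        have e1 : ENNReal.ofReal ε + ENNReal.ofReal K * (ENNReal.ofReal M * ENNReal.ofReal ε) =
            (δ : ℝ≥0∞) := by
          rw [← ENNReal.ofReal_mul hM0, ← ENNReal.ofReal_mul hK.le,
            ← ENNReal.ofReal_add hε0.le (by positivity)]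
          have e3 : ε + K * (M * ε) = (δ : ℝ) := by
            rw [hε]
            field_simp
          rw [e3, ENNReal.ofReal_coe_nnreal]
        rw [mul_add, ← add_assoc, e1, add_comm]

end F3
end Pool.Agent.Helper865.TAP
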