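import Pool.Agent.Helper865.TAP.Defs


set_option autoImplicit false

open MeasureTheory Filter Topology Set Metric
open scoped ENNReal NNReal

namespace Pool.Agent.Helper865.TAP
namespace J3



theorem lowerSemicontinuous_Mx (r₀ : ℝ) (F : ℝ → ℝ≥0∞) : LowerSemicontinuous (Mx r₀ F) := by
  unfold Mx
  refine lowerSemicontinuous_iSup fun c => lowerSemicontinuous_iSup fun ρ =>
    lowerSemicontinuous_iSup fun h1 => lowerSemicontinuous_iSup fun h2 => ?_
  intro t y hy
  by_cases ht : t ∈ ball c ρ
  · simp only [ht, iSup_pos] at hy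
    filter_upwards [isOpen_ball.mem_nhds ht] with t' ht'
    simpa only [ht', iSup_pos] using hy
  · simp only [ht, iSup_false] at hy
    exact absurd hy not_lt_bot

theorem measurable_Mx (r₀ : ℝ) (F : ℝ → ℝ≥0∞) : Measurable (Mx r₀ F) :=
  (lowerSemicontinuous_Mx r₀ F).measurable

theorem avg_le_Mx {r₀ : ℝ} (F : ℝ → ℝ≥0∞) {c ρ t : ℝ} (h1 : 0 < ρ) (h2 : r₀ ≤ ρ) (h3 : t ∈ ball c ρ) :
    (∫⁻ s in ball c ρ, F s) / ENNReal.ofReal (2 * ρ) ≤ Mx r₀ F t := by
  unfold Mx
  exact le_iSup_of_le c (le_iSup_of_le ρ (le_iSup_of_le h1 (le_iSup_of_le h2 (le_iSup_of_le h3 le_rfl))))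

theorem lt_Mx_iff {r₀ : ℝ} (F : ℝ → ℝ≥0∞) {t : ℝ} {y : ℝ≥0∞} :
    y < Mx r₀ F t ↔ ∃ c ρ : ℝ, 0 < ρ ∧ r₀ ≤ ρ ∧ t ∈ ball c ρ ∧
      y < (∫⁻ s in ball c ρ, F s) / ENNReal.ofReal (2 * ρ) := by
  unfold Mx
  simp only [lt_iSup_iff, exists_prop]

/-- `F ≤ M F` almost everywhere (Lebesgue differentiation). -/
theorem le_Mx_ae (F : ℝ → ℝ≥0∞) (hF : AEMeasurable F volume) (hFi : ∫⁻ t, F t ≠ ⊤) :
    ∀ᵐ t, F t ≤ Mx 0 F t := by
  filter_upwards [(Besicovitch.vitaliFamily (volume : Measure ℝ)).ae_tendsto_lintegral_div hF hFi]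
    with x hx
  have h1 := hx.comp (Besicovitch.tendsto_filterAt (volume : Measure ℝ) x)
  refine le_of_tendsto h1 ?_
  filter_upwards [self_mem_nhdsWithin] with r hr
  have hr0 : 0 < r := hr
  simp only [Function.comp]
  have e1 : ∫⁻ y in closedBall x r, F y = ∫⁻ y in ball x r, F y := by
    rw [Real.closedBall_eq_Icc, Real.ball_eq_Ioo]
    exact (setLIntegral_congr Ioo_ae_eq_Icc).symm
  rw [e1, Real.volume_closedBall]
  exact avg_le_Mx F hr0 hr0.le (mem_ball_self hr0)

/-- Weak type `(1,1)`. -/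
theorem weak_Mx (F : ℝ → ℝ≥0∞) {l : ℝ} (hl : 0 < l) :
    volume {t | ENNReal.ofReal l < Mx 0 F t} ≤ ENNReal.ofReal (10 / l) * ∫⁻ t, F t := by
  by_cases hI : ∫⁻ t, F t = ⊤
  · rw [hI, ENNReal.mul_top]
    · exact le_top
    · simp only [ne_eq, ENNReal.ofReal_eq_zero, not_le]
      positivity
  set I : ℝ≥0∞ := ∫⁻ t, F t with hIdef
  -- the family of good balls
  set T : Set (ℝ × ℝ) := {p | 0 < p.2 ∧
    ENNReal.ofReal l < (∫⁻ s in ball p.1 p.2, F s) / ENNReal.ofReal (2 * p.2)} with hT
  have hTb : ∀ p ∈ T, ENNReal.ofReal (2 * p.2 * l) ≤ ∫⁻ s in ball p.1 p.2, F s := by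
    rintro p ⟨h1, h2⟩
    have h3 : ENNReal.ofReal (2 * p.2) ≠ 0 := by
      simp only [ne_eq, ENNReal.ofReal_eq_zero, not_le]; positivity
    have h4 := (ENNReal.le_div_iff_mul_le (Or.inl h3) (Or.inl ENNReal.ofReal_ne_top)).1 h2.le
    rw [← ENNReal.ofReal_mul hl.le] at h4
    rwa [mul_comm (2 * p.2) l]
  have hR : ∀ p ∈ T, p.2 ≤ I.toReal / (2 * l) := by
    intro p hp
    have h1 := (hTb p hp).trans (setLIntegral_le_lintegral _ _)
    have h2 := (ENNReal.ofReal_le_iff_le_toReal hI).1 h1
    rw [le_div_iff₀ (by positivity)]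
    linarith
  obtain ⟨u, huT, hud, hcov⟩ := Vitali.exists_disjoint_subfamily_covering_enlargement_closedBall
    T (fun p => p.1) (fun p => p.2) (I.toReal / (2 * l)) hR 5 (by norm_num)
  have hucount : u.Countable := by
    apply hud.countable_of_nonempty_interior
    intro p hp
    have := (huT hp).1
    refine ⟨p.1, ?_⟩
    exact ball_subset_interior_closedBall (mem_ball_self this)
  have hsub : {t | ENNReal.ofReal l < Mx 0 F t} ⊆ ⋃ p ∈ u, closedBall p.1 (5 * p.2) := by
    intro t ht
    obtain ⟨c, ρ, h1, _, h3, h4⟩ := (lt_Mx_iff F).1 ht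
    obtain ⟨b, hb, hbs⟩ := hcov (c, ρ) ⟨h1, h4⟩
    simp only [mem_iUnion, exists_prop]
    exact ⟨b, hb, hbs (ball_subset_closedBall h3)⟩
  haveI : Countable u := hucount.to_subtype
  calc volume {t | ENNReal.ofReal l < Mx 0 F t}
      ≤ volume (⋃ p ∈ u, closedBall p.1 (5 * p.2)) := measure_mono hsub
    _ ≤ ∑' p : u, volume (closedBall (p : ℝ × ℝ).1 (5 * (p : ℝ × ℝ).2)) :=
        measure_biUnion_le _ hucount _
    _ ≤ ∑' p : u, ENNReal.ofReal (10 / l) * ∫⁻ s in ball (p : ℝ × ℝ).1 (p : ℝ × ℝ).2, F s := by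
        apply ENNReal.tsum_le_tsum
        rintro ⟨p, hp⟩
        have hp0 := (huT hp).1
        rw [Real.volume_closedBall]
        calc ENNReal.ofReal (2 * (5 * p.2)) ≤ ENNReal.ofReal ((10 / l) * (2 * p.2 * l)) := by
              apply ENNReal.ofReal_le_ofReal
              have : (10 / l) * (2 * p.2 * l) = 20 * p.2 := by field_simp; ring
              rw [this]
              linarith
          _ = ENNReal.ofReal (10 / l) * ENNReal.ofReal (2 * p.2 * l) := by
              rw [ENNReal.ofReal_mul (by positivity)]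
          _ ≤ _ := by
              gcongr
              exact hTb p (huT hp)
    _ = ENNReal.ofReal (10 / l) * ∑' p : u, ∫⁻ s in ball (p : ℝ × ℝ).1 (p : ℝ × ℝ).2, F s :=
        ENNReal.tsum_mul_left
    _ = ENNReal.ofReal (10 / l) * ∫⁻ s in ⋃ p : u, ball (p : ℝ × ℝ).1 (p : ℝ × ℝ).2, F s := by
        rw [lintegral_iUnion (fun _ => measurableSet_ball)]
        intro p p' hpp
        have := hud p.2 p'.2 (fun h => hpp (Subtype.ext h))
        exact this.mono ball_subset_closedBall ball_subset_closedBall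
    _ ≤ ENNReal.ofReal (10 / l) * ∫⁻ t, F t := by
        gcongr
        exact Measure.restrict_le_self

/-- layer cake, pointwise -/
theorem layer {q : ℝ} (hq : 0 < q) (a : ℝ≥0∞) :
    a ^ q = ∫⁻ l in Ioi (0 : ℝ), ENNReal.ofReal (q * l ^ (q - 1)) *
      (if ENNReal.ofReal l < a then 1 else 0) := by
  have key : ∀ x : ℝ, 0 ≤ x → ∫⁻ l in Ioo (0 : ℝ) x, ENNReal.ofReal (q * l ^ (q - 1)) =
      ENNReal.ofReal (x ^ q) := by
    intro x hx
    rw [← ofReal_integral_eq_lintegral_ofReal]
    · congr 1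
      rw [← integral_Ioc_eq_integral_Ioo, ← intervalIntegral.integral_of_le hx,
        intervalIntegral.integral_const_mul, integral_rpow (Or.inl (by linarith))]
      simp only [sub_add_cancel]
      rw [Real.zero_rpow hq.ne', sub_zero]
      field_simp
    · have : IntervalIntegrable (fun l : ℝ => q * l ^ (q - 1)) volume 0 x :=
        (intervalIntegral.intervalIntegrable_rpow' (by linarith)).const_mul q
      rw [intervalIntegrable_iff_integrableOn_Ioo_of_le hx] at this
      exact this
    · refine (ae_restrict_iff' measurableSet_Ioo).2 (Eventually.of_forall fun l hl => ?_)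
      have : 0 < l := hl.1
      positivity
  have key2 : ∀ x : ℝ, 0 ≤ x → ∫⁻ l in Ioi (0 : ℝ), ENNReal.ofReal (q * l ^ (q - 1)) *
      (if ENNReal.ofReal l < ENNReal.ofReal x then 1 else 0) = ENNReal.ofReal (x ^ q) := by
    intro x hx
    rw [← key x hx, ← lintegral_indicator measurableSet_Ioi, ← lintegral_indicator measurableSet_Ioo]
    apply lintegral_congr
    intro l
    by_cases h0 : 0 < l
    · by_cases h1 : l < x
      · have h2 : ENNReal.ofReal l < ENNReal.ofReal x :=
          (ENNReal.ofReal_lt_ofReal_iff (h0.trans h1)).2 h1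
        simp [indicator, h0, h1, h2]
      · have h2 : ¬ ENNReal.ofReal l < ENNReal.ofReal x := by
          rw [not_lt]; exact ENNReal.ofReal_le_ofReal (not_lt.1 h1)
        simp [indicator, h1, h2]
    · simp [indicator, h0]
  rcases eq_or_ne a ⊤ with rfl | ha
  · rw [ENNReal.top_rpow_of_pos hq]
    symm
    refine ENNReal.eq_top_of_forall_nnreal_le fun r => ?_
    have h1 := key2 ((r : ℝ) ^ (1 / q)) (by positivity)
    have h2 : ENNReal.ofReal (((r : ℝ) ^ (1 / q)) ^ q) = (r : ℝ≥0∞) := by
      rw [← Real.rpow_mul (NNReal.coe_nonneg r), one_div, inv_mul_cancel₀ hq.ne', Real.rpow_one]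
      exact ENNReal.ofReal_coe_nnreal
    rw [← h2, ← h1]
    apply lintegral_mono
    intro l
    simp only
    gcongr
    split_ifs with h3 h4
    · exact le_rfl
    · exact absurd ENNReal.ofReal_lt_top h4
    · exact zero_le
    · exact le_rfl
  · have h1 := key2 a.toReal ENNReal.toReal_nonneg
    rw [ENNReal.ofReal_toReal ha] at h1
    rw [h1, ← ENNReal.ofReal_rpow_of_nonneg ENNReal.toReal_nonneg hq.le, ENNReal.ofReal_toReal ha]

theorem Mx_congr {r₀ : ℝ} {F G : ℝ → ℝ≥0∞} (h : F =ᵐ[volume] G) : Mx r₀ F = Mx r₀ G := by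
  ext1 t
  unfold Mx
  have : ∀ c ρ : ℝ, ∫⁻ s in ball c ρ, F s = ∫⁻ s in ball c ρ, G s := fun c ρ =>
    lintegral_congr_ae (ae_restrict_of_ae h)
  simp only [this]

theorem Mx_trunc (F : ℝ → ℝ≥0∞) {l : ℝ} (hl : 0 < l) {t : ℝ}
    (h : ENNReal.ofReal l < Mx 0 F t) :
    ENNReal.ofReal (l / 2) < Mx 0 (fun s => if ENNReal.ofReal (l / 2) < F s then F s else 0) t := by
  obtain ⟨c, ρ, h1, h2, h3, h4⟩ := (lt_Mx_iff F).1 h
  rw [lt_Mx_iff]
  refine ⟨c, ρ, h1, h2, h3, ?_⟩
  set G : ℝ → ℝ≥0∞ := fun s => if ENNReal.ofReal (l / 2) < F s then F s else 0 with hG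
  have h5 : ENNReal.ofReal (2 * ρ) ≠ 0 := by
    simp only [ne_eq, ENNReal.ofReal_eq_zero, not_le]; positivity
  have h6 : (∫⁻ s in ball c ρ, F s) / ENNReal.ofReal (2 * ρ) ≤
      (∫⁻ s in ball c ρ, G s) / ENNReal.ofReal (2 * ρ) + ENNReal.ofReal (l / 2) := by
    have h7 : ∫⁻ s in ball c ρ, F s ≤ (∫⁻ s in ball c ρ, G s) +
        ENNReal.ofReal (l / 2) * ENNReal.ofReal (2 * ρ) := by
      calc ∫⁻ s in ball c ρ, F s ≤ ∫⁻ s in ball c ρ, (G s + ENNReal.ofReal (l / 2)) := by
            apply lintegral_mono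
            intro s
            simp only [hG]
            split_ifs with h
            · exact le_self_add
            · rw [zero_add]; exact not_lt.1 h
        _ = (∫⁻ s in ball c ρ, G s) + ENNReal.ofReal (l / 2) * ENNReal.ofReal (2 * ρ) := by
            rw [lintegral_add_right _ measurable_const, lintegral_const,
              Measure.restrict_apply_univ, Real.volume_ball]
    calc _ ≤ ((∫⁻ s in ball c ρ, G s) +
        ENNReal.ofReal (l / 2) * ENNReal.ofReal (2 * ρ)) / ENNReal.ofReal (2 * ρ) :=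
          ENNReal.div_le_div_right h7 _
      _ = _ := by
          rw [ENNReal.add_div, ENNReal.mul_div_cancel_right h5 ENNReal.ofReal_ne_top]
  have h8 : ENNReal.ofReal l = ENNReal.ofReal (l / 2) + ENNReal.ofReal (l / 2) := by
    rw [← ENNReal.ofReal_add (by positivity) (by positivity)]
    congr 1; ring
  have h9 := h4.trans_le h6
  rw [h8] at h9
  exact lt_of_add_lt_add_right h9

/-- Strong type `(q,q)`. -/
theorem strong_Mx {q : ℝ} (hq : 1 < q) : ∃ C : ℝ≥0∞, C ≠ ⊤ ∧ ∀ F : ℝ → ℝ≥0∞,
    AEMeasurable F volume → ∫⁻ t, (Mx 0 F t) ^ q ≤ C * ∫⁻ t, (F t) ^ q := by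
  refine ⟨ENNReal.ofReal (20 * q / (q - 1)) * 2 ^ (q - 1), ?_, ?_⟩
  · exact ENNReal.mul_ne_top ENNReal.ofReal_ne_top
      (ENNReal.rpow_ne_top_of_nonneg (by linarith) (by norm_num))
  intro F0 hF0
  -- replace by a measurable representative
  obtain ⟨F, hF, hFF⟩ := hF0
  rw [Mx_congr hFF]
  have hint : ∫⁻ t, F0 t ^ q = ∫⁻ t, F t ^ q := by
    apply lintegral_congr_ae
    filter_upwards [hFF] with t ht
    rw [ht]
  rw [hint]
  have hq0 : 0 < q := by linarith
  have hq1 : 0 < q - 1 := by linarith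
  have hM := measurable_Mx 0 F
  calc ∫⁻ t, (Mx 0 F t) ^ q
      = ∫⁻ t, ∫⁻ l in Ioi (0 : ℝ), ENNReal.ofReal (q * l ^ (q - 1)) *
        (if ENNReal.ofReal l < Mx 0 F t then 1 else 0) := by
        apply lintegral_congr; intro t; exact layer hq0 _
    _ = ∫⁻ l in Ioi (0 : ℝ), ∫⁻ t, ENNReal.ofReal (q * l ^ (q - 1)) *
        (if ENNReal.ofReal l < Mx 0 F t then 1 else 0) := by
        apply lintegral_lintegral_swap
        apply Measurable.aemeasurable
        apply Measurable.mul
        · fun_prop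
        · refine Measurable.ite ?_ measurable_const measurable_const
          exact measurableSet_lt (by fun_prop) (hM.comp measurable_fst)
    _ = ∫⁻ l in Ioi (0 : ℝ), ENNReal.ofReal (q * l ^ (q - 1)) *
        volume {t | ENNReal.ofReal l < Mx 0 F t} := by
        apply lintegral_congr; intro l
        rw [lintegral_const_mul' _ _ ENNReal.ofReal_ne_top]
        congr 1
        have hms : MeasurableSet {t | ENNReal.ofReal l < Mx 0 F t} :=
          measurableSet_lt measurable_const hM
        rw [← lintegral_indicator_one hms]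
        apply lintegral_congr; intro t
        simp [indicator]
    _ ≤ ∫⁻ l in Ioi (0 : ℝ), ENNReal.ofReal (q * l ^ (q - 1)) *
        (ENNReal.ofReal (10 / (l / 2)) *
          ∫⁻ t, (if ENNReal.ofReal (l / 2) < F t then F t else 0)) := by
        apply setLIntegral_mono' measurableSet_Ioi
        intro l hl
        have hl0 : 0 < l := hl
        gcongr
        refine (measure_mono ?_).trans (weak_Mx (fun s => if ENNReal.ofReal (l / 2) < F s then F s else 0)
          (by positivity : 0 < l / 2))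
        intro t ht
        exact Mx_trunc F hl0 ht
    _ = ∫⁻ l in Ioi (0 : ℝ), ∫⁻ t, ENNReal.ofReal (20 * q / (q - 1)) *
        (F t * (ENNReal.ofReal ((q - 1) * l ^ (q - 1 - 1)) *
          (if ENNReal.ofReal l < 2 * F t then 1 else 0))) := by
        apply setLIntegral_congr_fun measurableSet_Ioi
        intro l hl
        have hl0 : 0 < l := hl
        simp only
        rw [← lintegral_const_mul' _ _ ENNReal.ofReal_ne_top,
          ← lintegral_const_mul' _ _ ENNReal.ofReal_ne_top]
        apply lintegral_congr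
        intro t
        have hiff : ENNReal.ofReal (l / 2) < F t ↔ ENNReal.ofReal l < 2 * F t := by
          have e : ENNReal.ofReal l = 2 * ENNReal.ofReal (l / 2) := by
            rw [← ENNReal.ofReal_ofNat 2, ← ENNReal.ofReal_mul (by norm_num)]
            congr 1; ring
          rw [e]
          exact (ENNReal.mul_lt_mul_iff_right (by norm_num) (by norm_num)).symm
        by_cases h : ENNReal.ofReal (l / 2) < F t
        · have h' := hiff.1 h
          simp only [h, h', if_true, mul_one]
          have e2 : ENNReal.ofReal (q * l ^ (q - 1)) * ENNReal.ofReal (10 / (l / 2)) =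
              ENNReal.ofReal (20 * q / (q - 1)) * ENNReal.ofReal ((q - 1) * l ^ (q - 1 - 1)) := by
            rw [← ENNReal.ofReal_mul (by positivity), ← ENNReal.ofReal_mul (by positivity)]
            congr 1
            rw [Real.rpow_sub_one hl0.ne' (q - 1)]
            field_simp
            ring
          calc ENNReal.ofReal (q * l ^ (q - 1)) * (ENNReal.ofReal (10 / (l / 2)) * F t)
              = (ENNReal.ofReal (q * l ^ (q - 1)) * ENNReal.ofReal (10 / (l / 2))) * F t := by ring
            _ = _ := by rw [e2]; ring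
        · have h' : ¬ ENNReal.ofReal l < 2 * F t := fun hh => h (hiff.2 hh)
          simp [h, h']
    _ = ∫⁻ t, ∫⁻ l in Ioi (0 : ℝ), ENNReal.ofReal (20 * q / (q - 1)) *
        (F t * (ENNReal.ofReal ((q - 1) * l ^ (q - 1 - 1)) *
          (if ENNReal.ofReal l < 2 * F t then 1 else 0))) := by
        apply lintegral_lintegral_swap
        apply Measurable.aemeasurable
        apply Measurable.mul measurable_const
        apply Measurable.mul (hF.comp measurable_snd)
        apply Measurable.mul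
        · fun_prop
        · refine Measurable.ite ?_ measurable_const measurable_const
          exact measurableSet_lt (by fun_prop) ((hF.comp measurable_snd).const_mul 2)
    _ = ∫⁻ t, ENNReal.ofReal (20 * q / (q - 1)) * 2 ^ (q - 1) * F t ^ q := by
        apply lintegral_congr
        intro t
        rw [lintegral_const_mul' _ _ ENNReal.ofReal_ne_top, mul_assoc]
        congr 1
        have hmeas : Measurable (fun l : ℝ => ENNReal.ofReal ((q - 1) * l ^ (q - 1 - 1)) *
          (if ENNReal.ofReal l < 2 * F t then 1 else 0)) := by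
          apply Measurable.mul
          · fun_prop
          · refine Measurable.ite ?_ measurable_const measurable_const
            exact measurableSet_lt (by fun_prop) measurable_const
        rw [lintegral_const_mul _ hmeas, ← layer hq1, ENNReal.mul_rpow_of_nonneg _ _ hq1.le]
        have e3 : F t * F t ^ (q - 1) = F t ^ q := by
          rcases eq_or_ne (F t) 0 with h0 | h0
          · rw [h0, zero_mul, ENNReal.zero_rpow_of_pos hq0]
          rcases eq_or_ne (F t) ⊤ with h1 | h1
          · rw [h1, ENNReal.top_rpow_of_pos hq0, ENNReal.top_rpow_of_pos hq1, ENNReal.top_mul_top]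
          · have := ENNReal.rpow_add 1 (q - 1) h0 h1
            rw [ENNReal.rpow_one, add_sub_cancel] at this
            exact this.symm
        calc F t * (2 ^ (q - 1) * F t ^ (q - 1)) = 2 ^ (q - 1) * (F t * F t ^ (q - 1)) := by ring
          _ = _ := by rw [e3]
    _ = ENNReal.ofReal (20 * q / (q - 1)) * 2 ^ (q - 1) * ∫⁻ t, F t ^ q := by
        rw [lintegral_const_mul _ (hF.pow_const q)]

end J3
end Pool.Agent.Helper865.TAP
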