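import Pool.Agent.Helper865.TAP.Defs


set_option autoImplicit false

open MeasureTheory Filter Topology Set Metric
open scoped ENNReal NNReal

namespace Pool.Agent.Helper865.TAP
namespace J4



theorem le_Mx (r₀ : ℝ) (F : ℝ → ℝ≥0∞) (t c ρ : ℝ) (h1 : 0 < ρ) (h2 : r₀ ≤ ρ) (h3 : t ∈ ball c ρ) :
    (∫⁻ s in ball c ρ, F s) / ENNReal.ofReal (2 * ρ) ≤ Mx r₀ F t := by
  unfold Mx
  exact le_iSup_of_le c (le_iSup_of_le ρ (le_iSup_of_le h1 (le_iSup_of_le h2
    (le_iSup_of_le h3 le_rfl))))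

theorem lt_Mx (r₀ : ℝ) (F : ℝ → ℝ≥0∞) (t : ℝ) (a : ℝ≥0∞) (h : a < Mx r₀ F t) :
    ∃ c ρ : ℝ, 0 < ρ ∧ r₀ ≤ ρ ∧ t ∈ ball c ρ ∧
      a < (∫⁻ s in ball c ρ, F s) / ENNReal.ofReal (2 * ρ) := by
  unfold Mx at h
  simp only [lt_iSup_iff] at h
  obtain ⟨c, ρ, h1, h2, h3, h4⟩ := h
  exact ⟨c, ρ, h1, h2, h3, h4⟩

theorem Mx_mono (r₀ : ℝ) (_ : 0 ≤ r₀) (F : ℝ → ℝ≥0∞) (t : ℝ) : Mx r₀ F t ≤ Mx 0 F t := by
  conv_lhs => unfold Mx
  refine iSup_le fun c => iSup_le fun ρ => iSup_le fun h1 => iSup_le fun h2 => iSup_le fun h3 => ?_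
  exact le_Mx 0 F t c ρ h1 h1.le h3

/-- estimate near one point -/
theorem local_est
    (weak_Mx : ∀ (F : ℝ → ℝ≥0∞) {l : ℝ} (_ : 0 < l),
      volume {t | ENNReal.ofReal l < Mx 0 F t} ≤ ENNReal.ofReal (10 / l) * ∫⁻ t, F t)
    {C0 κ η l r₀ t0 ρ0 z : ℝ} (hκ : κ = 2 * C0 + 10) (hC0 : 1 ≤ C0) (hη : 0 < η) (hl : 0 < l)
    (hρ0 : 0 < ρ0) (hz : dist t0 z = ρ0) (F X : ℝ → ℝ≥0∞)
    (hzM : Mx r₀ F z ≤ ENNReal.ofReal l)
    (hX : ∫⁻ s in ball t0 (2 * ρ0), X s ≤ ENNReal.ofReal (η * l * (2 * (2 * ρ0))))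
    (hFX : ∀ c' ρ' : ℝ, 0 < ρ' → r₀ ≤ ρ' → ball c' ρ' ⊆ ball t0 (2 * ρ0) →
      ∫⁻ s in ball c' ρ', F s ≤ ENNReal.ofReal (C0 * l * (2 * ρ')) + ∫⁻ s in ball c' ρ', X s) :
    volume ({t | ENNReal.ofReal (κ * l) < Mx r₀ F t} ∩ closedBall t0 (4 * (ρ0 / 10))) ≤
      ENNReal.ofReal (4 * η * ρ0) := by
  have hκ0 : 0 < κ := by rw [hκ]; linarith
  set I := ball t0 (2 * ρ0) with hI
  have hsub : {t | ENNReal.ofReal (κ * l) < Mx r₀ F t} ∩ closedBall t0 (4 * (ρ0 / 10)) ⊆
      {t | ENNReal.ofReal ((κ - C0) * l) < Mx 0 (I.indicator X) t} := by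
    rintro t ⟨ht1, ht2⟩
    rw [mem_closedBall] at ht2
    obtain ⟨c1, r1, hr1, hr2, ht3, ht4⟩ := lt_Mx r₀ F t _ ht1
    rw [mem_ball] at ht3
    have h2r : 0 < 2 * r1 := by linarith
    have hne0 : ENNReal.ofReal (2 * r1) ≠ 0 := by
      rw [Ne, ENNReal.ofReal_eq_zero, not_le]; exact h2r
    rw [ENNReal.lt_div_iff_mul_lt (Or.inl hne0) (Or.inl ENNReal.ofReal_ne_top),
      ← ENNReal.ofReal_mul (by positivity)] at ht4
    rcases le_or_gt (ρ0 / 2) r1 with hcase | hcase
    · exfalso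
      have hzb : z ∈ ball c1 (4 * r1) := by
        rw [mem_ball]
        calc dist z c1 ≤ dist z t0 + dist t0 t + dist t c1 := dist_triangle4 _ _ _ _
          _ = ρ0 + dist t t0 + dist t c1 := by rw [dist_comm z t0, hz, dist_comm t0 t]
          _ < 4 * r1 := by linarith
      have h1 := (le_Mx r₀ F z c1 (4 * r1) (by linarith) (by linarith) hzb).trans hzM
      have h8 : ENNReal.ofReal (2 * (4 * r1)) ≠ 0 := by
        rw [Ne, ENNReal.ofReal_eq_zero, not_le]; linarith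
      rw [ENNReal.div_le_iff h8 ENNReal.ofReal_ne_top, ← ENNReal.ofReal_mul hl.le] at h1
      have h2 : ∫⁻ s in ball c1 r1, F s ≤ ∫⁻ s in ball c1 (4 * r1), F s :=
        lintegral_mono_set (ball_subset_ball (by linarith))
      have h3 := ht4.trans_le (h2.trans h1)
      rw [ENNReal.ofReal_lt_ofReal_iff (by positivity)] at h3
      have h4 : 0 < l * r1 := mul_pos hl hr1
      have h5 : 12 * (l * r1) ≤ κ * (l * r1) := mul_le_mul_of_nonneg_right (by linarith) h4.le
      nlinarith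
    · have hB1 : ball c1 r1 ⊆ I := by
        apply ball_subset_ball'
        have := dist_triangle c1 t t0
        rw [dist_comm c1 t] at this
        linarith
      have h1 := ht4.trans_le (hFX c1 r1 hr1 hr2 hB1)
      have h2 : ENNReal.ofReal (κ * l * (2 * r1)) = ENNReal.ofReal (C0 * l * (2 * r1)) +
          ENNReal.ofReal ((κ - C0) * l * (2 * r1)) := by
        rw [← ENNReal.ofReal_add (by positivity)]
        · congr 1; ring
        · have : 0 < κ - C0 := by linarith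
          positivity
      rw [h2] at h1
      have h3 := lt_of_add_lt_add_left h1
      have h4 : ∫⁻ s in ball c1 r1, X s = ∫⁻ s in ball c1 r1, I.indicator X s := by
        apply setLIntegral_congr_fun measurableSet_ball
        intro s hs
        exact (indicator_of_mem (hB1 hs) X).symm
      rw [h4] at h3
      show ENNReal.ofReal ((κ - C0) * l) < Mx 0 (I.indicator X) t
      refine lt_of_lt_of_le ?_ (le_Mx 0 (I.indicator X) t c1 r1 hr1 hr1.le (mem_ball.2 ht3))
      rw [ENNReal.lt_div_iff_mul_lt (Or.inl hne0) (Or.inl ENNReal.ofReal_ne_top),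
        ← ENNReal.ofReal_mul (by have : 0 < κ - C0 := by linarith
                                 positivity)]
      exact h3
  have hκC : 0 < κ - C0 := by linarith
  refine (measure_mono hsub).trans ((weak_Mx (I.indicator X) (mul_pos hκC hl)).trans ?_)
  rw [lintegral_indicator measurableSet_ball]
  calc ENNReal.ofReal (10 / ((κ - C0) * l)) * ∫⁻ s in I, X s
      ≤ ENNReal.ofReal (10 / ((κ - C0) * l)) * ENNReal.ofReal (η * l * (2 * (2 * ρ0))) := by
        gcongr
    _ = ENNReal.ofReal (10 / ((κ - C0) * l) * (η * l * (2 * (2 * ρ0)))) := by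
        rw [← ENNReal.ofReal_mul (by positivity)]
    _ ≤ ENNReal.ofReal (4 * η * ρ0) := by
        apply ENNReal.ofReal_le_ofReal
        have h1 : 10 / ((κ - C0) * l) * (η * l * (2 * (2 * ρ0))) = (40 * η * ρ0) / (κ - C0) := by
          field_simp
          ring
        rw [h1, div_le_iff₀ hκC]
        have h2 : 0 < η * ρ0 := mul_pos hη hρ0
        have h3 : 11 * (η * ρ0) ≤ (κ - C0) * (η * ρ0) :=
          mul_le_mul_of_nonneg_right (by linarith) h2.le
        linarith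

/-- the good-lambda inequality -/
theorem good_ineq
    (lowerSemicontinuous_Mx : ∀ (r₀ : ℝ) (F : ℝ → ℝ≥0∞), LowerSemicontinuous (Mx r₀ F))
    (weak_Mx : ∀ (F : ℝ → ℝ≥0∞) {l : ℝ} (_ : 0 < l),
      volume {t | ENNReal.ofReal l < Mx 0 F t} ≤ ENNReal.ofReal (10 / l) * ∫⁻ t, F t)
    {C0 κ η γ l r₀ : ℝ} (hκ : κ = 2 * C0 + 10) (hC0 : 1 ≤ C0) (hη : 0 < η) (hl : 0 < l)
    (hr₀ : 0 ≤ r₀) (F D : ℝ → ℝ≥0∞) (hF : ∫⁻ t, F t ≠ ⊤)
    (hloc : ∀ (c ρ : ℝ), 0 < ρ → ∀ l : ℝ, 0 < l →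
          (∀ c' ρ' : ℝ, ball c ρ ⊆ ball c' ρ' → r₀ ≤ ρ' →
            ∫⁻ s in ball c' ρ', F s ≤ ENNReal.ofReal (l * (2 * ρ'))) →
          D c ≤ ENNReal.ofReal (γ * l) →
          ∃ X : ℝ → ℝ≥0∞, (∫⁻ s in ball c ρ, X s ≤ ENNReal.ofReal (η * l * (2 * ρ))) ∧
            ∀ c' ρ' : ℝ, 0 < ρ' → r₀ ≤ ρ' → ball c' ρ' ⊆ ball c ρ →
              ∫⁻ s in ball c' ρ', F s
                ≤ ENNReal.ofReal (C0 * l * (2 * ρ')) + ∫⁻ s in ball c' ρ', X s) :
    volume {t | ENNReal.ofReal (κ * l) < Mx r₀ F t ∧ D t ≤ ENNReal.ofReal (γ * l)} ≤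
      ENNReal.ofReal (20 * η) * volume {t | ENNReal.ofReal l < Mx r₀ F t} := by
  set U : Set ℝ := {t | ENNReal.ofReal l < Mx r₀ F t} with hU
  set E : Set ℝ := {t | ENNReal.ofReal (κ * l) < Mx r₀ F t ∧ D t ≤ ENNReal.ofReal (γ * l)} with hE
  have hUo : IsOpen U := (lowerSemicontinuous_Mx r₀ F).isOpen_preimage (ENNReal.ofReal l)
  have hUfin : volume U ≠ ⊤ := by
    have h1 : volume U ≤ ENNReal.ofReal (10 / l) * ∫⁻ t, F t := by
      refine le_trans (measure_mono ?_) (weak_Mx F hl)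
      intro t ht
      exact lt_of_lt_of_le ht (Mx_mono r₀ hr₀ F t)
    exact ne_top_of_le_ne_top (ENNReal.mul_ne_top ENNReal.ofReal_ne_top hF) h1
  have hUc : (Uᶜ).Nonempty := by
    rw [nonempty_compl]
    intro h
    rw [h] at hUfin
    exact hUfin Real.volume_univ
  have hUcl : IsClosed Uᶜ := hUo.isClosed_compl
  have hEU : E ⊆ U := by
    intro t ht
    refine lt_of_le_of_lt (ENNReal.ofReal_le_ofReal ?_) ht.1
    have : 1 ≤ κ := by linarith
    nlinarith
  set r : ℝ → ℝ := fun t => infDist t Uᶜ with hr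
  have hrpos : ∀ t ∈ U, 0 < r t := by
    intro t ht
    exact (hUcl.notMem_iff_infDist_pos hUc).1 (fun h => h ht)
  have hball : ∀ t, ball t (r t) ⊆ U := by
    intro t y hy
    by_contra hyU
    have h1 : infDist t Uᶜ ≤ dist t y := infDist_le_dist_of_mem hyU
    rw [mem_ball, dist_comm] at hy
    exact absurd hy (not_lt.2 h1)
  have hrbd : ∀ t ∈ E, r t / 10 ≤ (volume U).toReal := by
    intro t ht
    have h1 : volume (ball t (r t)) ≤ volume U := measure_mono (hball t)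
    rw [Real.volume_ball] at h1
    have h2 := (ENNReal.ofReal_le_iff_le_toReal hUfin).1 h1
    have h3 := hrpos t (hEU ht)
    linarith
  obtain ⟨u, huE, hdisj, hcov⟩ := Vitali.exists_disjoint_subfamily_covering_enlargement_closedBall
    E (fun t => t) (fun t => r t / 10) (volume U).toReal hrbd 4 (by norm_num)
  have hucount : u.Countable := by
    apply hdisj.countable_of_nonempty_interior
    intro t ht
    have h1 := hrpos t (hEU (huE ht))
    rw [interior_closedBall _ (by positivity)]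
    exact ⟨t, mem_ball_self (by positivity)⟩
  have hEcov : E ⊆ ⋃ b ∈ u, (E ∩ closedBall b (4 * (r b / 10))) := by
    intro t ht
    obtain ⟨b, hb, hsub⟩ := hcov t ht
    have h1 := hrpos t (hEU ht)
    exact mem_iUnion₂.2 ⟨b, hb, ht, hsub (mem_closedBall_self (by positivity))⟩
  have hone : ∀ b ∈ u, volume (E ∩ closedBall b (4 * (r b / 10))) ≤
      ENNReal.ofReal (20 * η) * volume (closedBall b (r b / 10)) := by
    intro b hb
    have hbE := huE hb
    have hbpos := hrpos b (hEU hbE)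
    obtain ⟨z, hzU, hz⟩ := hUcl.exists_infDist_eq_dist hUc b
    have hzM : Mx r₀ F z ≤ ENNReal.ofReal l := not_lt.1 hzU
    obtain ⟨X, hX1, hX2⟩ := hloc b (2 * r b) (by linarith) l hl (by
      intro c' ρ' hsub hρ'
      have hzb : z ∈ ball c' ρ' := by
        apply hsub
        rw [mem_ball, dist_comm, ← hz]
        show r b < 2 * r b
        linarith
      have hρ'pos : 0 < ρ' := by
        rw [mem_ball] at hzb
        exact lt_of_le_of_lt dist_nonneg hzb
      have h1 := (le_Mx r₀ F z c' ρ' hρ'pos hρ' hzb).trans hzM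
      have h8 : ENNReal.ofReal (2 * ρ') ≠ 0 := by
        rw [Ne, ENNReal.ofReal_eq_zero, not_le]; linarith
      rwa [ENNReal.div_le_iff h8 ENNReal.ofReal_ne_top, ← ENNReal.ofReal_mul hl.le] at h1) hbE.2
    have h2 := local_est weak_Mx hκ hC0 hη hl hbpos hz.symm F X hzM hX1 hX2
    refine le_trans (measure_mono ?_) (h2.trans ?_)
    · rintro t ⟨ht1, ht2⟩
      exact ⟨ht1.1, ht2⟩
    · rw [Real.volume_closedBall, ← ENNReal.ofReal_mul (by positivity)]
      apply ENNReal.ofReal_le_ofReal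
      linarith
  calc volume E ≤ volume (⋃ b ∈ u, (E ∩ closedBall b (4 * (r b / 10)))) := measure_mono hEcov
    _ ≤ ∑' b : u, volume (E ∩ closedBall (b : ℝ) (4 * (r b / 10))) := measure_biUnion_le _ hucount _
    _ ≤ ∑' b : u, ENNReal.ofReal (20 * η) * volume (closedBall (b : ℝ) (r b / 10)) :=
        ENNReal.tsum_le_tsum fun b => hone b b.2
    _ = ENNReal.ofReal (20 * η) * ∑' b : u, volume (closedBall (b : ℝ) (r b / 10)) :=
        ENNReal.tsum_mul_left
    _ = ENNReal.ofReal (20 * η) * volume (⋃ b ∈ u, closedBall b (r b / 10)) := by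
        rw [measure_biUnion hucount hdisj (fun b _ => measurableSet_closedBall)]
    _ ≤ ENNReal.ofReal (20 * η) * volume U := by
        gcongr
        apply iUnion₂_subset
        intro b hb
        have hbpos := hrpos b (hEU (huE hb))
        exact (closedBall_subset_ball (by linarith)).trans (hball b)

theorem layer_ineq {f d : ℝ → ℝ} (hf0 : ∀ t, 0 ≤ f t) (hfm : Measurable f)
    (hd0 : ∀ t, 0 ≤ d t) (hdm : Measurable d) {κ ε q : ℝ} (hκ : 0 < κ) (hq : 0 < q)
    (h : ∀ l : ℝ, 0 < l → volume {t | l < f t / κ} ≤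
      ENNReal.ofReal ε * volume {t | l < f t} + volume {t | l < d t}) :
    ∫⁻ t, ENNReal.ofReal ((f t / κ) ^ q) ≤
      ENNReal.ofReal ε * (∫⁻ t, ENNReal.ofReal (f t ^ q)) + ∫⁻ t, ENNReal.ofReal (d t ^ q) := by
  rw [lintegral_rpow_eq_lintegral_meas_lt_mul (f := fun t => f t / κ) volume
      (Filter.Eventually.of_forall fun t => div_nonneg (hf0 t) hκ.le)
      (hfm.div_const κ).aemeasurable hq,
    lintegral_rpow_eq_lintegral_meas_lt_mul (f := f) volume (Filter.Eventually.of_forall hf0)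
      hfm.aemeasurable hq,
    lintegral_rpow_eq_lintegral_meas_lt_mul (f := d) volume (Filter.Eventually.of_forall hd0)
      hdm.aemeasurable hq]
  have hmf : Measurable (fun l : ℝ => volume {t | l < f t}) := by
    apply Antitone.measurable
    intro a b hab
    exact measure_mono fun t ht => lt_of_le_of_lt hab ht
  have hmp : Measurable (fun l : ℝ => ENNReal.ofReal (l ^ (q - 1))) := by fun_prop
  calc ENNReal.ofReal q * ∫⁻ l in Ioi 0, volume {t | l < f t / κ} * ENNReal.ofReal (l ^ (q - 1))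
      ≤ ENNReal.ofReal q * ∫⁻ l in Ioi 0,
          (ENNReal.ofReal ε * (volume {t | l < f t} * ENNReal.ofReal (l ^ (q - 1))) +
            volume {t | l < d t} * ENNReal.ofReal (l ^ (q - 1))) := by
        refine mul_le_mul' le_rfl ?_
        apply setLIntegral_mono' measurableSet_Ioi
        intro l hl
        calc volume {t | l < f t / κ} * ENNReal.ofReal (l ^ (q - 1))
            ≤ (ENNReal.ofReal ε * volume {t | l < f t} + volume {t | l < d t}) *
              ENNReal.ofReal (l ^ (q - 1)) := by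
              gcongr
              exact h l hl
          _ = _ := by ring
    _ = ENNReal.ofReal q * (ENNReal.ofReal ε *
          (∫⁻ l in Ioi 0, volume {t | l < f t} * ENNReal.ofReal (l ^ (q - 1))) +
            ∫⁻ l in Ioi 0, volume {t | l < d t} * ENNReal.ofReal (l ^ (q - 1))) := by
        have hm : Measurable (fun l : ℝ => volume {t | l < f t} * ENNReal.ofReal (l ^ (q - 1))) :=
          hmf.mul hmp
        have hm2 : Measurable (fun l : ℝ => ENNReal.ofReal ε *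
            (volume {t | l < f t} * ENNReal.ofReal (l ^ (q - 1)))) := hm.const_mul _
        rw [lintegral_add_left hm2, lintegral_const_mul _ hm]
    _ = _ := by ring

/-- the truncated maximal function -/
noncomputable def fL (r₀ : ℝ) (F : ℝ → ℝ≥0∞) (L : ℝ) (t : ℝ) : ℝ :=
  (min (Mx r₀ F t) (ENNReal.ofReal L)).toReal

theorem lt_fL (r₀ : ℝ) (F : ℝ → ℝ≥0∞) {L l : ℝ} (hl : 0 < l) (t : ℝ) :
    l < fL r₀ F L t ↔ ENNReal.ofReal l < Mx r₀ F t ∧ l < L := by
  unfold fL
  rw [← ENNReal.ofReal_lt_iff_lt_toReal hl.le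
    (ne_top_of_le_ne_top ENNReal.ofReal_ne_top (min_le_right _ _)), lt_min_iff]
  constructor
  · rintro ⟨h1, h2⟩
    refine ⟨h1, ?_⟩
    by_contra hcon
    exact absurd h2 (not_lt.2 (ENNReal.ofReal_le_ofReal (not_lt.1 hcon)))
  · rintro ⟨h1, h2⟩
    exact ⟨h1, (ENNReal.ofReal_lt_ofReal_iff (hl.trans h2)).2 h2⟩

theorem fL_finite
    (measurable_Mx : ∀ (r₀ : ℝ) (F : ℝ → ℝ≥0∞), Measurable (Mx r₀ F))
    (weak_Mx : ∀ (F : ℝ → ℝ≥0∞) {l : ℝ} (_ : 0 < l),
      volume {t | ENNReal.ofReal l < Mx 0 F t} ≤ ENNReal.ofReal (10 / l) * ∫⁻ t, F t)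
    {q : ℝ} (hq : 1 < q) {r₀ L : ℝ} (hr₀ : 0 ≤ r₀) (hL : 0 < L) (F : ℝ → ℝ≥0∞)
    (hF : ∫⁻ t, F t ≠ ⊤) : ∫⁻ t, ENNReal.ofReal (fL r₀ F L t ^ q) ≠ ⊤ := by
  have hfm : Measurable (fL r₀ F L) :=
    ((measurable_Mx r₀ F).min measurable_const).ennreal_toReal
  rw [lintegral_rpow_eq_lintegral_meas_lt_mul (f := fL r₀ F L) volume
    (Filter.Eventually.of_forall fun t => ENNReal.toReal_nonneg) hfm.aemeasurable (by linarith)]
  apply ENNReal.mul_ne_top ENNReal.ofReal_ne_top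
  have hint : IntegrableOn (fun l : ℝ => 10 * l ^ (q - 2)) (Ioo 0 L) := by
    apply Integrable.const_mul
    exact (intervalIntegral.integrableOn_Ioo_rpow_iff hL).2 (by linarith)
  have hfin : (∫⁻ t, F t) * ∫⁻ l in Ioo 0 L, ENNReal.ofReal (10 * l ^ (q - 2)) ≠ ⊤ :=
    ENNReal.mul_ne_top hF hint.lintegral_lt_top.ne
  refine ne_top_of_le_ne_top hfin ?_
  calc ∫⁻ l in Ioi 0, volume {t | l < fL r₀ F L t} * ENNReal.ofReal (l ^ (q - 1))
      ≤ ∫⁻ l in Ioi 0, (Ioo 0 L).indicator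
          (fun l => (∫⁻ t, F t) * ENNReal.ofReal (10 * l ^ (q - 2))) l := by
        apply setLIntegral_mono' measurableSet_Ioi
        intro l hl
        have hl0 : 0 < l := hl
        by_cases hlL : l < L
        · rw [indicator_of_mem (show l ∈ Ioo 0 L from ⟨hl0, hlL⟩)]
          have h1 : volume {t | l < fL r₀ F L t} ≤ ENNReal.ofReal (10 / l) * ∫⁻ t, F t := by
            refine le_trans (measure_mono ?_) (weak_Mx F hl0)
            intro t ht
            exact lt_of_lt_of_le ((lt_fL r₀ F hl0 t).1 ht).1 (Mx_mono r₀ hr₀ F t)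
          calc volume {t | l < fL r₀ F L t} * ENNReal.ofReal (l ^ (q - 1))
              ≤ (ENNReal.ofReal (10 / l) * ∫⁻ t, F t) * ENNReal.ofReal (l ^ (q - 1)) := by gcongr
            _ = (∫⁻ t, F t) * (ENNReal.ofReal (10 / l) * ENNReal.ofReal (l ^ (q - 1))) := by ring
            _ = (∫⁻ t, F t) * ENNReal.ofReal (10 * l ^ (q - 2)) := by
              rw [← ENNReal.ofReal_mul (by positivity)]
              congr 2
              have h2 : l ^ (q - 1) = l ^ (q - 2) * l := by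
                rw [show q - 1 = (q - 2) + 1 by ring, Real.rpow_add hl0, Real.rpow_one]
              rw [h2]
              field_simp
        · have h1 : {t | l < fL r₀ F L t} = ∅ := by
            rw [eq_empty_iff_forall_notMem]
            intro t ht
            exact hlL ((lt_fL r₀ F hl0 t).1 ht).2
          rw [h1, measure_empty, zero_mul]
          exact zero_le
    _ ≤ ∫⁻ l, (Ioo 0 L).indicator
          (fun l => (∫⁻ t, F t) * ENNReal.ofReal (10 * l ^ (q - 2))) l := setLIntegral_le_lintegral _ _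
    _ = ∫⁻ l in Ioo 0 L, (∫⁻ t, F t) * ENNReal.ofReal (10 * l ^ (q - 2)) :=
        lintegral_indicator measurableSet_Ioo _
    _ = (∫⁻ t, F t) * ∫⁻ l in Ioo 0 L, ENNReal.ofReal (10 * l ^ (q - 2)) :=
        lintegral_const_mul' _ _ hF

theorem sup_pt {q : ℝ} (hq : 1 < q) (x : ℝ≥0∞) :
    x ^ q ≤ ⨆ n : ℕ, (min x (ENNReal.ofReal ((n : ℝ) + 1))) ^ q := by
  by_cases hx : x = ⊤
  · have h1 : (⊤ : ℝ≥0∞) ≤ ⨆ n : ℕ, (min x (ENNReal.ofReal ((n : ℝ) + 1))) ^ q := by
      rw [← ENNReal.iSup_natCast]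
      apply iSup_mono
      intro n
      rw [hx, min_eq_right le_top]
      have h2 : (n : ℝ≥0∞) ≤ ENNReal.ofReal ((n : ℝ) + 1) := by
        rw [← ENNReal.ofReal_natCast]
        exact ENNReal.ofReal_le_ofReal (by linarith)
      have h3 : 1 ≤ ENNReal.ofReal ((n : ℝ) + 1) := by
        rw [← ENNReal.ofReal_one]
        apply ENNReal.ofReal_le_ofReal
        have : (0 : ℝ) ≤ n := Nat.cast_nonneg n
        linarith
      refine h2.trans ?_
      calc ENNReal.ofReal ((n : ℝ) + 1) = (ENNReal.ofReal ((n : ℝ) + 1)) ^ (1 : ℝ) :=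
            (ENNReal.rpow_one _).symm
        _ ≤ _ := ENNReal.rpow_le_rpow_of_exponent_le h3 hq.le
    exact le_top.trans h1
  · obtain ⟨n, hn⟩ := ENNReal.exists_nat_gt hx
    refine le_iSup_of_le n ?_
    rw [min_eq_left]
    refine hn.le.trans ?_
    rw [← ENNReal.ofReal_natCast]
    exact ENNReal.ofReal_le_ofReal (by linarith)

/-- Good-lambda theorem with local approximation. -/
theorem good_lambda
    (measurable_Mx : ∀ (r₀ : ℝ) (F : ℝ → ℝ≥0∞), Measurable (Mx r₀ F))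
    (lowerSemicontinuous_Mx : ∀ (r₀ : ℝ) (F : ℝ → ℝ≥0∞), LowerSemicontinuous (Mx r₀ F))
    (weak_Mx : ∀ (F : ℝ → ℝ≥0∞) {l : ℝ} (_ : 0 < l),
      volume {t | ENNReal.ofReal l < Mx 0 F t} ≤ ENNReal.ofReal (10 / l) * ∫⁻ t, F t)
    {q : ℝ} (hq : 1 < q) {C0 : ℝ} (hC0 : 1 ≤ C0) :
    ∃ η : ℝ, 0 < η ∧ ∀ γ : ℝ, 0 < γ → ∃ C : ℝ≥0∞, C ≠ ⊤ ∧
      ∀ (r₀ : ℝ) (_ : 0 ≤ r₀) (F : ℝ → ℝ≥0∞) (_ : AEMeasurable F volume)
        (_ : ∫⁻ t, F t ≠ ⊤) (D : ℝ → ℝ≥0∞) (_ : Measurable D),
        (∀ (c ρ : ℝ), 0 < ρ → ∀ l : ℝ, 0 < l →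
          (∀ c' ρ' : ℝ, ball c ρ ⊆ ball c' ρ' → r₀ ≤ ρ' →
            ∫⁻ s in ball c' ρ', F s ≤ ENNReal.ofReal (l * (2 * ρ'))) →
          D c ≤ ENNReal.ofReal (γ * l) →
          ∃ X : ℝ → ℝ≥0∞, (∫⁻ s in ball c ρ, X s ≤ ENNReal.ofReal (η * l * (2 * ρ))) ∧
            ∀ c' ρ' : ℝ, 0 < ρ' → r₀ ≤ ρ' → ball c' ρ' ⊆ ball c ρ →
              ∫⁻ s in ball c' ρ', F s
                ≤ ENNReal.ofReal (C0 * l * (2 * ρ')) + ∫⁻ s in ball c' ρ', X s) →
        ∫⁻ t, (Mx r₀ F t) ^ q ≤ C * ∫⁻ t, (D t) ^ q := by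
  obtain ⟨κ, hκ⟩ : ∃ κ : ℝ, κ = 2 * C0 + 10 := ⟨_, rfl⟩
  have hκ0 : 0 < κ := by rw [hκ]; linarith
  have hq0 : 0 < q := by linarith
  have hκq : 0 < κ ^ q := Real.rpow_pos_of_pos hκ0 q
  obtain ⟨ε, hε⟩ : ∃ ε : ℝ, ε = (κ ^ q)⁻¹ / 2 := ⟨_, rfl⟩
  have hε0 : 0 < ε := by rw [hε]; positivity
  refine ⟨ε / 20, by positivity, fun γ hγ => ?_⟩
  have hγq : 0 < (γ ^ q)⁻¹ := inv_pos.2 (Real.rpow_pos_of_pos hγ q)
  refine ⟨ENNReal.ofReal (2 * κ ^ q) * ENNReal.ofReal ((γ ^ q)⁻¹),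
    ENNReal.mul_ne_top ENNReal.ofReal_ne_top ENNReal.ofReal_ne_top, ?_⟩
  intro r₀ hr₀ F _ hF D hD hloc
  by_cases hDtop : ∫⁻ t, (D t) ^ q = ⊤
  · rw [hDtop, ENNReal.mul_top]
    · exact le_top
    · apply mul_ne_zero
      · rw [Ne, ENNReal.ofReal_eq_zero, not_le]; positivity
      · rw [Ne, ENNReal.ofReal_eq_zero, not_le]; exact hγq
  have hDae : ∀ᵐ t, D t < ⊤ := by
    have h1 := ae_lt_top (hD.pow_const q) hDtop
    filter_upwards [h1] with t ht
    by_contra hcon
    rw [not_lt, top_le_iff] at hcon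
    rw [hcon, ENNReal.top_rpow_of_pos hq0] at ht
    exact lt_irrefl _ ht
  have key : ∀ L : ℝ, 0 < L → ∫⁻ t, (min (Mx r₀ F t) (ENNReal.ofReal L)) ^ q ≤
      ENNReal.ofReal (2 * κ ^ q) * ENNReal.ofReal ((γ ^ q)⁻¹) * ∫⁻ t, (D t) ^ q := by
    intro L hL
    have hfm : Measurable (fL r₀ F L) :=
      ((measurable_Mx r₀ F).min measurable_const).ennreal_toReal
    have hf0 : ∀ t, 0 ≤ fL r₀ F L t := fun t => ENNReal.toReal_nonneg
    have hdm : Measurable (fun t => (D t).toReal / γ) := hD.ennreal_toReal.div_const γ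
    have hd0 : ∀ t, 0 ≤ (D t).toReal / γ := fun t => div_nonneg ENNReal.toReal_nonneg hγ.le
    have hlayer := layer_ineq (ε := ε) hf0 hfm hd0 hdm hκ0 hq0 (by
      intro l hl
      by_cases hκl : κ * l < L
      · have h1 : {t | l < fL r₀ F L t / κ} ⊆
            {t | ENNReal.ofReal (κ * l) < Mx r₀ F t ∧ D t ≤ ENNReal.ofReal (γ * l)} ∪
              ({t | l < (D t).toReal / γ} ∪ {t | ¬ D t < ⊤}) := by
          intro t ht
          have ht' : κ * l < fL r₀ F L t := by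
            have : l < fL r₀ F L t / κ := ht
            rw [lt_div_iff₀ hκ0] at this
            linarith
          have h2 := ((lt_fL r₀ F (mul_pos hκ0 hl) t).1 ht').1
          by_cases h3 : D t ≤ ENNReal.ofReal (γ * l)
          · exact Or.inl ⟨h2, h3⟩
          · right
            by_cases h4 : D t < ⊤
            · left
              show l < (D t).toReal / γ
              rw [lt_div_iff₀ hγ]
              rw [not_le, ENNReal.ofReal_lt_iff_lt_toReal (by positivity) h4.ne] at h3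
              linarith
            · right
              exact h4
        have h5 := good_ineq lowerSemicontinuous_Mx weak_Mx (η := ε / 20) (γ := γ) hκ hC0
          (by positivity) hl hr₀ F D hF hloc
        have h6 : {t | ENNReal.ofReal l < Mx r₀ F t} = {t | l < fL r₀ F L t} := by
          ext t
          have hlL : l < L := by
            refine lt_of_le_of_lt ?_ hκl
            have : 1 ≤ κ := by linarith
            nlinarith
          constructor
          · intro h7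
            exact (lt_fL r₀ F hl t).2 ⟨h7, hlL⟩
          · intro h7
            exact ((lt_fL r₀ F hl t).1 h7).1
        rw [h6, show 20 * (ε / 20) = ε by ring] at h5
        have h7 : volume {t | ¬ D t < ⊤} = 0 := hDae
        calc volume {t | l < fL r₀ F L t / κ} ≤ _ := measure_mono h1
          _ ≤ _ := measure_union_le _ _
          _ ≤ ENNReal.ofReal ε * volume {t | l < fL r₀ F L t} +
              (volume {t | l < (D t).toReal / γ} + volume {t | ¬ D t < ⊤}) :=
              add_le_add h5 (measure_union_le _ _)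
          _ = _ := by rw [h7, add_zero]
      · have h1 : {t | l < fL r₀ F L t / κ} = ∅ := by
          rw [eq_empty_iff_forall_notMem]
          intro t ht
          have ht' : κ * l < fL r₀ F L t := by
            have : l < fL r₀ F L t / κ := ht
            rw [lt_div_iff₀ hκ0] at this
            linarith
          exact hκl ((lt_fL r₀ F (mul_pos hκ0 hl) t).1 ht').2
        rw [h1, measure_empty]
        exact zero_le)
    have hAfin := fL_finite measurable_Mx weak_Mx hq hr₀ hL F hF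
    have hA : ∫⁻ t, (min (Mx r₀ F t) (ENNReal.ofReal L)) ^ q =
        ∫⁻ t, ENNReal.ofReal (fL r₀ F L t ^ q) := by
      apply lintegral_congr
      intro t
      unfold fL
      rw [← ENNReal.ofReal_rpow_of_nonneg ENNReal.toReal_nonneg hq0.le, ENNReal.ofReal_toReal
        (ne_top_of_le_ne_top ENNReal.ofReal_ne_top (min_le_right _ _))]
    rw [hA]
    set A := ∫⁻ t, ENNReal.ofReal (fL r₀ F L t ^ q) with hAdef
    have hleft : ∫⁻ t, ENNReal.ofReal ((fL r₀ F L t / κ) ^ q) = ENNReal.ofReal ((κ ^ q)⁻¹) * A := by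
      rw [hAdef, ← lintegral_const_mul' _ _ ENNReal.ofReal_ne_top]
      apply lintegral_congr
      intro t
      rw [← ENNReal.ofReal_mul (by positivity), Real.div_rpow (hf0 t) hκ0.le]
      congr 1
      rw [div_eq_inv_mul]
    have hB : ∫⁻ t, ENNReal.ofReal (((D t).toReal / γ) ^ q) ≤
        ENNReal.ofReal ((γ ^ q)⁻¹) * ∫⁻ t, (D t) ^ q := by
      rw [← lintegral_const_mul' _ _ ENNReal.ofReal_ne_top]
      apply lintegral_mono
      intro t
      show ENNReal.ofReal (((D t).toReal / γ) ^ q) ≤ ENNReal.ofReal ((γ ^ q)⁻¹) * (D t) ^ q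
      rw [Real.div_rpow ENNReal.toReal_nonneg hγ.le, div_eq_inv_mul,
        ENNReal.ofReal_mul hγq.le]
      gcongr
      rw [← ENNReal.ofReal_rpow_of_nonneg ENNReal.toReal_nonneg hq0.le]
      exact ENNReal.rpow_le_rpow ENNReal.ofReal_toReal_le hq0.le
    rw [hleft] at hlayer
    have h2ε : ENNReal.ofReal ((κ ^ q)⁻¹) = ENNReal.ofReal ε + ENNReal.ofReal ε := by
      rw [← ENNReal.ofReal_add hε0.le hε0.le]
      congr 1
      rw [hε]; ring
    rw [h2ε, add_mul] at hlayer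
    have hlayer : ENNReal.ofReal ε * A + ENNReal.ofReal ε * A ≤ ENNReal.ofReal ε * A +
        ∫⁻ t, ENNReal.ofReal (((D t).toReal / γ) ^ q) := hlayer
    have hεA : ENNReal.ofReal ε * A ≠ ⊤ := ENNReal.mul_ne_top ENNReal.ofReal_ne_top hAfin
    have h8 : ENNReal.ofReal ε * A ≤ ENNReal.ofReal ((γ ^ q)⁻¹) * ∫⁻ t, (D t) ^ q :=
      ((ENNReal.add_le_add_iff_left hεA).1 hlayer).trans hB
    calc A = ENNReal.ofReal (2 * κ ^ q) * (ENNReal.ofReal ε * A) := by
          rw [← mul_assoc, ← ENNReal.ofReal_mul (by positivity)]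
          have : 2 * κ ^ q * ε = 1 := by
            rw [hε]
            field_simp
          rw [this, ENNReal.ofReal_one, one_mul]
      _ ≤ ENNReal.ofReal (2 * κ ^ q) * (ENNReal.ofReal ((γ ^ q)⁻¹) * ∫⁻ t, (D t) ^ q) := by
          gcongr
      _ = _ := by rw [mul_assoc]
  calc ∫⁻ t, (Mx r₀ F t) ^ q
      ≤ ∫⁻ t, ⨆ n : ℕ, (min (Mx r₀ F t) (ENNReal.ofReal ((n : ℝ) + 1))) ^ q :=
        lintegral_mono fun t => sup_pt hq _
    _ = ⨆ n : ℕ, ∫⁻ t, (min (Mx r₀ F t) (ENNReal.ofReal ((n : ℝ) + 1))) ^ q := by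
        apply lintegral_iSup
        · intro n
          exact ((measurable_Mx r₀ F).min measurable_const).pow_const q
        · intro m n hmn t
          apply ENNReal.rpow_le_rpow _ hq0.le
          apply min_le_min le_rfl
          apply ENNReal.ofReal_le_ofReal
          have : (m : ℝ) ≤ n := by exact_mod_cast hmn
          linarith
    _ ≤ _ := iSup_le fun n => key _ (by positivity)

end J4
end Pool.Agent.Helper865.TAP
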