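import Pool.Agent.Helper865.TAP.Base
import Pool.Agent.Helper865.TAP.J3
import Pool.Agent.Helper865.TAP.J4
import Pool.Agent.Helper865.TAP.B1
import Pool.Agent.Helper865.TAP.B3
import Pool.Agent.Helper865.TAP.B4
import Pool.Agent.Helper865.TAP.B5
import Pool.Agent.Helper865.TAP.B6
import Pool.Agent.Helper865.TAP.B8
import Pool.Agent.Helper865.TAP.C1
import Pool.Agent.Helper865.TAP.C2

set_option autoImplicit false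

open MeasureTheory Filter Topology Set Metric
open scoped ENNReal NNReal

namespace Pool.Agent.Helper865.TAP

variable {E : Type*} [NormedAddCommGroup E] [InnerProductSpace ℂ E] [FiniteDimensional ℂ E]

theorem exists_fac (E : Type*) [NormedAddCommGroup E] [InnerProductSpace ℂ E]
    [FiniteDimensional ℂ E] (K M : ℝ) (hK : 0 < K) (hM : 0 ≤ M) :
    ∃ C : ℝ, 0 < C ∧ ∀ (s : Finset ℝ) (A : ℝ → E →L[ℂ] E), (∀ l, l ∉ s → A l = 0) →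
      (∀ l, A (-l) = ContinuousLinearMap.adjoint (A l)) →
      (∀ t : ℝ, ‖∑ l ∈ s, Complex.exp (Complex.I * l * t) • A l‖ ≤ M) →
      BB 2 (fun t : ℝ => ∑ l ∈ s, Complex.exp (Complex.I * l * t) • A l) K →
      ∃ r : ℝ, 0 < r ∧ ∃ N V N' V' : ℝ → E →L[ℂ] E,
        Fac (fun t : ℝ => ∑ l ∈ s, Complex.exp (Complex.I * l * t) • A l) r C N V N' V' :=
  B8.exists_fac
    (fun f a ha hf ε hε => B3.mean_sq ha hf hε)
    (fun s A hs hsym F K hK hlow b hb hbF => B4.neumann hs hsym F hK hlow b hb hbF)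
    (fun n v n' v' h1 h2 h3 h4 h5 h6 h7 h8 h9 h10 N V N' V' h11 h12 h13 h14 h15 t =>
      B5.fac_identity h1 h2 h3 h4 h5 h6 h7 h8 h9 h10 h11 h12 h13 h14 h15 t)
    (fun s A hs K hK hBB p hp hp0 => B6.transference
      (fun b hb l hl e => exp_cauchy_Hm (by norm_num) b hb l hl e)
      (fun b hb l hl e => exp_cauchy_Hp (by norm_num) b hb l hl e)
      (fun ι s f hf => A3.Hm_sum (by norm_num) (by norm_num) s hf)
      (fun ι s f hf => A3.Hp_sum (by norm_num) (by norm_num) s hf) hs hK hBB p hp hp0)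
    (fun s A K h p hp hp0 => B6.shift_bound h p hp hp0)
    (fun M hM f hf => Hm_APW hM hf) (fun M hM f hf => Hp_APW hM hf) K M hK hM

theorem local_lemma (E : Type*) [NormedAddCommGroup E] [InnerProductSpace ℂ E]
    [FiniteDimensional ℂ E] (K C D : ℝ) (hK : 0 ≤ K) (hC : 0 ≤ C) (hD : 0 ≤ D) :
    ∃ C0 : ℝ, 1 ≤ C0 ∧ ∀ (G A N V N' V' : ℝ → E →L[ℂ] E) (r : ℝ),
      Continuous G → (∃ M : ℝ, ∀ t, ‖G t‖ ≤ M) →
      Continuous A → (∀ t, ContinuousLinearMap.adjoint (A t) = A t) →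
      Fac A r C N V N' V' →
      (∀ h : ℝ → E, MemLp h 2 volume → ∃ u v : ℝ → E, Hm 2 u ∧ Hp 2 v ∧
        (∀ᵐ t : ℝ, A t (u t) + v t = h t) ∧
        eLpNorm u 2 volume ≤ ENNReal.ofReal K * eLpNorm h 2 volume ∧
        eLpNorm v 2 volume ≤ ENNReal.ofReal K * eLpNorm h 2 volume) →
      ∀ (u v : ℝ → E), Hm 2 u → Hp 2 v → ∀ (c ρ l γ δ : ℝ), 0 < ρ → r ≤ ρ → 0 < l →
      0 ≤ γ → γ ≤ 1 → 0 ≤ δ → δ ≤ 1 →
      (∀ t ∈ ball c (16 * ρ), ‖G t - A t‖ ≤ δ) → (∀ t, ‖G t - A t‖ ≤ D) →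
      (∀ ρ' : ℝ, ρ ≤ ρ' →
        ∫⁻ s in ball c ρ', (‖u s‖ₑ ^ 2 + ‖v s‖ₑ ^ 2) ≤ ENNReal.ofReal (l * (2 * ρ'))) →
      (∀ ρ' : ℝ, ρ ≤ ρ' →
        ∫⁻ s in ball c ρ', ‖G s (u s) + v s‖ₑ ^ 2 ≤ ENNReal.ofReal (γ * l * (2 * ρ'))) →
      ∃ X : ℝ → ℝ≥0∞,
        (∫⁻ s in ball c ρ, X s ≤ ENNReal.ofReal (C0 * (γ + δ ^ 2) * l * (2 * ρ))) ∧
        ∀ c' ρ' : ℝ, 0 < ρ' → r ≤ ρ' → ball c' ρ' ⊆ ball c ρ →
          ∫⁻ s in ball c' ρ', (‖u s‖ₑ ^ 2 + ‖v s‖ₑ ^ 2)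
            ≤ ENNReal.ofReal (C0 * l * (2 * ρ')) + ∫⁻ s in ball c' ρ', X s :=
  C2.local_lemma
    (fun u v hu hv c R hR h => kernel_rep2 (by norm_num) (by norm_num) hu hv hR h)
    (fun a b ha hb c R hR A B hA hB h1 h2 => C1.dyadic_bound ha hb hR hA hB h1 h2)
    K C D hK hC hD

theorem good_lambda {q : ℝ} (hq : 1 < q) {C0 : ℝ} (hC0 : 1 ≤ C0) :
    ∃ η : ℝ, 0 < η ∧ ∀ γ : ℝ, 0 < γ → ∃ C : ℝ≥0∞, C ≠ ⊤ ∧
      ∀ (r₀ : ℝ) (_ : 0 ≤ r₀) (F : ℝ → ℝ≥0∞) (_ : AEMeasurable F volume)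
        (_ : ∫⁻ t, F t ≠ ⊤) (D : ℝ → ℝ≥0∞) (_ : Measurable D),
        (∀ (c ρ : ℝ), 0 < ρ → ∀ l : ℝ, 0 < l →
          (∀ c' ρ' : ℝ, ball c ρ ⊆ ball c' ρ' → r₀ ≤ ρ' →
            ∫⁻ s in ball c' ρ', F s ≤ ENNReal.ofReal (l * (2 * ρ'))) →
          D c ≤ ENNReal.ofReal (γ * l) →
          ∃ X : ℝ → ℝ≥0∞, (∫⁻ s in ball c ρ, X s ≤ ENNReal.ofReal (η * l * (2 * ρ))) ∧
            ∀ c' ρ' : ℝ, 0 < ρ' → r₀ ≤ ρ' → ball c' ρ' ⊆ ball c ρ →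
              ∫⁻ s in ball c' ρ', F s
                ≤ ENNReal.ofReal (C0 * l * (2 * ρ')) + ∫⁻ s in ball c' ρ', X s) →
        ∫⁻ t, (Mx r₀ F t) ^ q ≤ C * ∫⁻ t, (D t) ^ q :=
  J4.good_lambda J3.measurable_Mx J3.lowerSemicontinuous_Mx (fun F _ hl => J3.weak_Mx F hl) hq hC0

end Pool.Agent.Helper865.TAP
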