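import Pool.Agent.Helper865.TAP.Defs


set_option autoImplicit false

open MeasureTheory Filter Topology Set Metric
open scoped ENNReal NNReal

namespace Pool.Agent.Helper865.TAP
namespace H1



lemma tap_const_of_L1 {G : ℂ → ℂ} (hG : DifferentiableOn ℂ G {z : ℂ | z.im < 0}) {M : ℝ≥0∞}
    (hM : M ≠ ⊤) (hb : ∀ y : ℝ, y < 0 → ∫⁻ x : ℝ, ‖G ((x : ℂ) + y * Complex.I)‖ₑ ≤ M)
    {y1 y2 : ℝ} (h12 : y1 ≤ y2) (h2 : y2 < 0) :
    ∫ x : ℝ, G ((x : ℂ) + y1 * Complex.I) = ∫ x : ℝ, G ((x : ℂ) + y2 * Complex.I) := by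
  have h1 : y1 < 0 := lt_of_le_of_lt h12 h2
  have hcontG : ContinuousOn G {z : ℂ | z.im < 0} := hG.continuousOn
  have hslice : ∀ y : ℝ, y < 0 → Continuous (fun x : ℝ => G ((x : ℂ) + y * Complex.I)) := by
    intro y hy
    refine hcontG.comp_continuous (by fun_prop) (fun x => ?_)
    simpa using hy
  have hint : ∀ y : ℝ, y < 0 → Integrable (fun x : ℝ => G ((x : ℂ) + y * Complex.I)) :=
    fun y hy => ⟨(hslice y hy).aestronglyMeasurable, lt_of_le_of_lt (hb y hy) hM.lt_top⟩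
  set v : ℝ → ℝ≥0∞ := fun x => ∫⁻ y in Ioc y1 y2, ‖G ((x : ℂ) + y * Complex.I)‖ₑ with hv
  have hmeas : AEMeasurable (fun q : ℝ × ℝ => ‖G ((q.1 : ℂ) + q.2 * Complex.I)‖ₑ)
      ((volume : Measure ℝ).prod (volume.restrict (Ioc y1 y2))) := by
    have hc : ContinuousOn (fun q : ℝ × ℝ => G ((q.1 : ℂ) + q.2 * Complex.I))
        ((univ : Set ℝ) ×ˢ Ioc y1 y2) := by
      refine hcontG.comp (by fun_prop) ?_
      rintro ⟨x, y⟩ ⟨-, hy⟩
      have : y < 0 := lt_of_le_of_lt hy.2 h2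
      simpa using this
    have h3 : AEStronglyMeasurable (fun q : ℝ × ℝ => G ((q.1 : ℂ) + q.2 * Complex.I))
        (((volume : Measure ℝ).prod volume).restrict ((univ : Set ℝ) ×ˢ Ioc y1 y2)) :=
      hc.aestronglyMeasurable (MeasurableSet.univ.prod measurableSet_Ioc)
    rw [← Measure.prod_restrict, Measure.restrict_univ] at h3
    exact h3.enorm
  have hvm : AEMeasurable v volume := AEMeasurable.lintegral_prod_right' hmeas
  have hvint : ∫⁻ x, v x ≠ ⊤ := by
    have h3 : ∫⁻ x, v x ≤ M * volume (Ioc y1 y2) := by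
      rw [hv, lintegral_lintegral_swap hmeas, ← setLIntegral_const]
      refine setLIntegral_mono measurable_const (fun y hy => ?_)
      exact hb y (lt_of_le_of_lt hy.2 h2)
    refine ne_top_of_le_ne_top ?_ h3
    rw [Real.volume_Ioc]
    exact ENNReal.mul_ne_top hM ENNReal.ofReal_ne_top
  by_contra hne
  set D : ℝ := ‖(∫ x : ℝ, G ((x : ℂ) + y1 * Complex.I)) - ∫ x : ℝ, G ((x : ℂ) + y2 * Complex.I)‖
    with hD
  have hDpos : 0 < D := norm_pos_iff.mpr (sub_ne_zero.mpr hne)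
  have hlim : ∀ y : ℝ, y < 0 → Tendsto (fun R : ℝ => ∫ x in (-R)..R, G ((x : ℂ) + y * Complex.I))
      atTop (𝓝 (∫ x : ℝ, G ((x : ℂ) + y * Complex.I))) := fun y hy =>
    intervalIntegral_tendsto_integral (hint y hy) tendsto_neg_atTop_atBot tendsto_id
  have hlim2 := ((hlim y1 h1).sub (hlim y2 h2)).norm
  have hev := hlim2.eventually (lt_mem_nhds (show D / 2 < D by linarith))
  -- the rectangle estimate
  have hrect : ∀ R : ℝ, 0 ≤ R → ‖(∫ x in (-R)..R, G ((x : ℂ) + y1 * Complex.I))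
      - ∫ x in (-R)..R, G ((x : ℂ) + y2 * Complex.I)‖ₑ ≤ v R + v (-R) := by
    intro R hR
    have h3 := Complex.integral_boundary_rect_eq_zero_of_differentiableOn G
      (⟨-R, y1⟩ : ℂ) (⟨R, y2⟩ : ℂ) (hG.mono (by
        rintro z ⟨-, hz⟩
        simp only [mem_preimage] at hz
        rw [uIcc_of_le h12] at hz
        exact lt_of_le_of_lt hz.2 h2))
    simp only at h3
    have h4 : (∫ x in (-R)..R, G ((x : ℂ) + y1 * Complex.I))
      - ∫ x in (-R)..R, G ((x : ℂ) + y2 * Complex.I)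
      = Complex.I • (∫ y in y1..y2, G (((-R : ℝ) : ℂ) + y * Complex.I))
        - Complex.I • (∫ y in y1..y2, G ((R : ℂ) + y * Complex.I)) := by
      linear_combination h3
    rw [h4]
    have h5 : ∀ r : ℝ, ‖Complex.I • (∫ y in y1..y2, G ((r : ℂ) + y * Complex.I))‖ₑ ≤ v r := by
      intro r
      rw [enorm_smul]
      have h6 : ‖Complex.I‖ₑ = 1 := by
        rw [← ofReal_norm, Complex.norm_I, ENNReal.ofReal_one]
      rw [h6, one_mul, intervalIntegral.integral_of_le h12]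
      exact enorm_integral_le_lintegral_enorm _
    calc _ ≤ _ := enorm_sub_le
      _ ≤ v (-R) + v R := add_le_add (h5 (-R)) (h5 R)
      _ = _ := add_comm _ _
  obtain ⟨R0, hR0⟩ := (eventually_atTop.mp (hev.and (eventually_ge_atTop 0)))
  have hge : ∀ R ∈ Ici R0, ENNReal.ofReal (D / 2) ≤ v R + v (-R) := by
    intro R hR
    obtain ⟨h3, h4⟩ := hR0 R hR
    refine le_trans ?_ (hrect R h4)
    rw [← ofReal_norm]
    exact ENNReal.ofReal_le_ofReal h3.le
  have htop : ∫⁻ R in Ici R0, ENNReal.ofReal (D / 2) = ⊤ := by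
    rw [setLIntegral_const, Real.volume_Ici, ENNReal.mul_top]
    simpa using hDpos
  have hle : ∫⁻ R in Ici R0, ENNReal.ofReal (D / 2) ≤ ∫⁻ R, (v R + v (-R)) :=
    (setLIntegral_mono' measurableSet_Ici hge).trans (setLIntegral_le_lintegral _ _)
  rw [htop, lintegral_add_left' hvm, lintegral_neg_eq_self] at hle
  exact (ENNReal.add_ne_top.mpr ⟨hvint, hvint⟩) (top_le_iff.mp hle)


lemma tap_holder {P Q : ℝ} (hPQ : P.HolderConjugate Q) {k g : ℝ → ℂ}
    (hk : AEStronglyMeasurable k volume) (hg : AEStronglyMeasurable g volume) :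
    ∫⁻ t, ‖k t * g t‖ₑ ≤ eLpNorm k (ENNReal.ofReal Q) volume
      * eLpNorm g (ENNReal.ofReal P) volume := by
  have hp0 : 0 < P := hPQ.pos
  have hq0 : 0 < Q := hPQ.symm.pos
  calc ∫⁻ t, ‖k t * g t‖ₑ = ∫⁻ t, ((fun t => ‖k t‖ₑ) * (fun t => ‖g t‖ₑ)) t := by
        simp_rw [enorm_mul]
        rfl
    _ ≤ (∫⁻ t, ‖k t‖ₑ ^ Q) ^ (1 / Q) * (∫⁻ t, ‖g t‖ₑ ^ P) ^ (1 / P) :=
        ENNReal.lintegral_mul_le_Lp_mul_Lq volume hPQ.symm hk.enorm hg.enorm
    _ = _ := by
        rw [eLpNorm_eq_lintegral_rpow_enorm_toReal (by simpa using hq0) ENNReal.ofReal_ne_top,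
          eLpNorm_eq_lintegral_rpow_enorm_toReal (by simpa using hp0) ENNReal.ofReal_ne_top,
          ENNReal.toReal_ofReal hq0.le, ENNReal.toReal_ofReal hp0.le]

lemma tap_sub_ne {a : ℂ} (ha : 0 < a.im) {y : ℝ} (hy : y ≤ 0) (t : ℝ) :
    (t : ℂ) + y * Complex.I - a ≠ 0 := by
  intro h
  have := congrArg Complex.im h
  simp at this
  linarith

lemma tap_kern_cont {a : ℂ} (ha : 0 < a.im) {y : ℝ} (hy : y ≤ 0) :
    Continuous (fun t : ℝ => ((t : ℂ) + y * Complex.I - a)⁻¹) :=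
  Continuous.inv₀ (by fun_prop) (tap_sub_ne ha hy)

lemma tap_kern_le {a : ℂ} (ha : 0 < a.im) {y : ℝ} (hy : y ≤ 0) (t : ℝ) :
    ‖((t : ℂ) + y * Complex.I - a)⁻¹‖ ≤ ‖((t : ℂ) - a)⁻¹‖ := by
  rw [norm_inv, norm_inv]
  have h0 : (t : ℂ) - a ≠ 0 := by
    have := tap_sub_ne ha le_rfl t
    simpa using this
  refine inv_anti₀ (norm_pos_iff.mpr h0) ?_
  rw [← sq_le_sq₀ (norm_nonneg _) (norm_nonneg _), Complex.sq_norm, Complex.sq_norm,
    Complex.normSq_apply, Complex.normSq_apply]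
  simp
  nlinarith

lemma tap_kern_le' {a : ℂ} (ha : 0 < a.im) {y : ℝ} (hy : y < 0) (t : ℝ) :
    ‖((t : ℂ) + y * Complex.I - a)⁻¹‖ ≤ (-y)⁻¹ := by
  rw [norm_inv]
  refine inv_anti₀ (by linarith) ?_
  have h1 := Complex.abs_im_le_norm ((t : ℂ) + y * Complex.I - a)
  have h2 : ((t : ℂ) + y * Complex.I - a).im = y - a.im := by simp
  rw [h2, abs_of_nonpos (by linarith)] at h1
  linarith

lemma tap_kern_memLp {a : ℂ} (ha : 0 < a.im) {Q : ℝ} (hQ : 1 < Q) :
    MemLp (fun t : ℝ => ((t : ℂ) - a)⁻¹) (ENNReal.ofReal Q) volume := by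
  have hc : Continuous (fun t : ℝ => ((t : ℂ) - a)⁻¹) := by
    have := tap_kern_cont ha (le_refl (0 : ℝ))
    simpa using this
  have hQ0 : 0 < Q := by linarith
  rw [← integrable_norm_rpow_iff hc.aestronglyMeasurable (by simpa using hQ0)
    ENNReal.ofReal_ne_top, ENNReal.toReal_ofReal hQ0.le]
  set K : ℝ := 1 + (1 + ‖a‖) / a.im with hK
  have hK0 : 0 < K := by positivity
  have hbase : ∀ t : ℝ, ‖((t : ℂ) - a)⁻¹‖ ≤ K * (1 + ‖t‖)⁻¹ := by
    intro t
    have h0 : (t : ℂ) - a ≠ 0 := by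
      have := tap_sub_ne ha le_rfl t
      simpa using this
    have h1 : a.im ≤ ‖(t : ℂ) - a‖ := by
      have h1 := Complex.abs_im_le_norm ((t : ℂ) - a)
      have h2 : ((t : ℂ) - a).im = - a.im := by simp
      rw [h2, abs_neg, abs_of_pos ha] at h1
      exact h1
    have h2 : ‖t‖ ≤ ‖(t : ℂ) - a‖ + ‖a‖ := by
      have h3 : ‖(t : ℂ)‖ = ‖t‖ := by simp
      rw [← h3]
      have := norm_add_le ((t : ℂ) - a) a
      rwa [sub_add_cancel] at this
    have h3 : 1 + ‖t‖ ≤ K * ‖(t : ℂ) - a‖ := by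
      have h4 : 1 + ‖a‖ ≤ (1 + ‖a‖) / a.im * ‖(t : ℂ) - a‖ := by
        rw [div_mul_eq_mul_div, le_div_iff₀ ha]
        exact mul_le_mul_of_nonneg_left h1 (by positivity)
      rw [hK, add_mul, one_mul]
      linarith
    rw [norm_inv]
    have h5 : 0 < ‖(t : ℂ) - a‖ := norm_pos_iff.mpr h0
    have h6 : 0 < 1 + ‖t‖ := by positivity
    rw [inv_eq_one_div, inv_eq_one_div, ← mul_div_assoc, mul_one, div_le_div_iff₀ h5 h6, one_mul]
    exact h3
  have hi := (integrable_one_add_norm (μ := (volume : Measure ℝ)) (r := Q)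
    (by simpa using hQ)).const_mul (K ^ Q)
  refine hi.mono' ?_ (Eventually.of_forall fun t => ?_)
  · exact (hc.norm.rpow_const (fun t => Or.inr hQ0.le)).aestronglyMeasurable
  · rw [Real.norm_of_nonneg (by positivity)]
    calc ‖((t : ℂ) - a)⁻¹‖ ^ Q ≤ (K * (1 + ‖t‖)⁻¹) ^ Q :=
          Real.rpow_le_rpow (norm_nonneg _) (hbase t) hQ0.le
      _ = K ^ Q * (1 + ‖t‖) ^ (-Q) := by
          rw [Real.mul_rpow hK0.le (by positivity), Real.inv_rpow (by positivity),
            Real.rpow_neg (by positivity)]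

/-- Boundary functions (in `L^p`) of Hardy class functions of the lower half-plane have vanishing
Cauchy integrals for poles in the upper half-plane. -/
theorem cauchy_zero_of_hardy_lower {p : ℝ≥0∞} (hp : 1 < p) (hp' : p ≠ ⊤) {f : ℝ → ℂ}
    (hf : MemLp f p volume) {F : ℂ → ℂ} (hF : DifferentiableOn ℂ F {z : ℂ | z.im < 0})
    {C : ℝ≥0} (hC : ∀ y : ℝ, 0 < y →
      eLpNorm (fun x : ℝ => F ((x : ℂ) - y * Complex.I)) p volume ≤ C)
    (hlim : Tendsto (fun y : ℝ => eLpNorm (fun x : ℝ => F ((x : ℂ) - y * Complex.I) - f x) p volume)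
      (𝓝[>] 0) (𝓝 0))
    (a : ℂ) (ha : 0 < a.im) : ∫ t : ℝ, ((t : ℂ) - a)⁻¹ • f t = 0 := by
  set P : ℝ := p.toReal with hP
  have hpP : p = ENNReal.ofReal P := (ENNReal.ofReal_toReal hp').symm
  have hP1 : 1 < P := by
    rw [hP]
    have := (ENNReal.toReal_lt_toReal ENNReal.one_ne_top hp').mpr hp
    simpa using this
  set Q : ℝ := P.conjExponent with hQ
  have hPQ : P.HolderConjugate Q := Real.HolderConjugate.conjExponent hP1
  have hQ1 : 1 < Q := hPQ.symm.lt
  have hQ0 : 0 < Q := by linarith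
  -- slices of F
  have hFc : ∀ y : ℝ, y < 0 → Continuous (fun x : ℝ => F ((x : ℂ) + y * Complex.I)) := by
    intro y hy
    refine hF.continuousOn.comp_continuous (by fun_prop) (fun x => ?_)
    simpa using hy
  have hFb : ∀ y : ℝ, y < 0 → eLpNorm (fun x : ℝ => F ((x : ℂ) + y * Complex.I)) p volume ≤ C := by
    intro y hy
    have := hC (-y) (by linarith)
    simpa [sub_neg_eq_add] using this
  set k : ℝ → ℝ → ℂ := fun y t => ((t : ℂ) + y * Complex.I - a)⁻¹ with hk
  set k0 : ℝ → ℂ := fun t => ((t : ℂ) - a)⁻¹ with hk0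
  have hk0m : MemLp k0 (ENNReal.ofReal Q) volume := tap_kern_memLp ha hQ1
  have hk0c : Continuous k0 := by
    have := tap_kern_cont ha (le_refl (0 : ℝ))
    simpa using this
  have hkc : ∀ y : ℝ, y ≤ 0 → Continuous (k y) := fun y hy => tap_kern_cont ha hy
  have hkle : ∀ y : ℝ, y ≤ 0 → ∀ t, ‖k y t‖ₑ ≤ ‖k0 t‖ₑ := by
    intro y hy t
    rw [← ofReal_norm, ← ofReal_norm]
    exact ENNReal.ofReal_le_ofReal (tap_kern_le ha hy t)
  have hkLp : ∀ y : ℝ, y ≤ 0 → eLpNorm (k y) (ENNReal.ofReal Q) volume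
      ≤ eLpNorm k0 (ENNReal.ofReal Q) volume := fun y hy =>
    eLpNorm_mono_enorm (hkle y hy)
  -- the product
  set G : ℂ → ℂ := fun z => (z - a)⁻¹ * F z with hG
  have hGd : DifferentiableOn ℂ G {z : ℂ | z.im < 0} := by
    refine DifferentiableOn.mul (DifferentiableOn.inv (by fun_prop) ?_) hF
    intro z hz h0
    have := congrArg Complex.im h0
    simp at this
    have hz' : z.im < 0 := hz
    linarith
  have hGk : ∀ y x : ℝ, G ((x : ℂ) + y * Complex.I) = k y x * F ((x : ℂ) + y * Complex.I) :=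
    fun y x => rfl
  have hGest : ∀ y : ℝ, y < 0 → ∫⁻ x : ℝ, ‖G ((x : ℂ) + y * Complex.I)‖ₑ
      ≤ eLpNorm (k y) (ENNReal.ofReal Q) volume * C := by
    intro y hy
    have h1 := tap_holder hPQ (hkc y hy.le).aestronglyMeasurable (hFc y hy).aestronglyMeasurable
    refine h1.trans ?_
    rw [← hpP]
    exact mul_le_mul_right (hFb y hy) _
  set Mb : ℝ≥0∞ := eLpNorm k0 (ENNReal.ofReal Q) volume * C with hMb
  have hMtop : Mb ≠ ⊤ := ENNReal.mul_ne_top hk0m.2.ne ENNReal.coe_ne_top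
  have hGb : ∀ y : ℝ, y < 0 → ∫⁻ x : ℝ, ‖G ((x : ℂ) + y * Complex.I)‖ₑ ≤ Mb := fun y hy =>
    (hGest y hy).trans (mul_le_mul_left (hkLp y hy.le) _)
  have hconst : ∀ y1 y2 : ℝ, y1 ≤ y2 → y2 < 0 → ∫ x : ℝ, G ((x : ℂ) + y1 * Complex.I)
      = ∫ x : ℝ, G ((x : ℂ) + y2 * Complex.I) := fun y1 y2 h12 h2 =>
    tap_const_of_L1 hGd hMtop hGb h12 h2
  -- the norms of the kernels tend to zero
  have hktend : Tendsto (fun n : ℕ => eLpNorm (k (-((n : ℝ) + 1))) (ENNReal.ofReal Q) volume)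
      atTop (𝓝 0) := by
    have hform : ∀ g : ℝ → ℂ, eLpNorm g (ENNReal.ofReal Q) volume
        = (∫⁻ t, ‖g t‖ₑ ^ Q) ^ (1 / Q) := by
      intro g
      rw [eLpNorm_eq_lintegral_rpow_enorm_toReal (by simpa using hQ0) ENNReal.ofReal_ne_top,
        ENNReal.toReal_ofReal hQ0.le]
    simp_rw [hform]
    have hfin : ∫⁻ t, ‖k0 t‖ₑ ^ Q ≠ ⊤ := by
      have h1 := hk0m.2.ne
      rw [hform] at h1
      intro h2
      rw [h2, ENNReal.top_rpow_of_pos (by positivity)] at h1
      exact h1 rfl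
    have h1 : Tendsto (fun n : ℕ => ∫⁻ t, ‖k (-((n : ℝ) + 1)) t‖ₑ ^ Q) atTop
        (𝓝 (∫⁻ _ : ℝ, (0 : ℝ≥0∞))) := by
      refine tendsto_lintegral_of_dominated_convergence (fun t => ‖k0 t‖ₑ ^ Q) ?_ ?_ hfin ?_
      · intro n
        have hm : Measurable (k (-((n : ℝ) + 1))) := (hkc _ (by
          have : (0 : ℝ) ≤ n := Nat.cast_nonneg n
          linarith)).measurable
        exact (hm.enorm).pow_const Q
      · intro n
        refine Eventually.of_forall fun t => ?_
        refine ENNReal.rpow_le_rpow (hkle _ (by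
          have : (0 : ℝ) ≤ n := Nat.cast_nonneg n
          linarith) t) hQ0.le
      · refine Eventually.of_forall fun t => ?_
        have h2 : Tendsto (fun n : ℕ => ‖k (-((n : ℝ) + 1)) t‖ₑ) atTop (𝓝 0) := by
          refine tendsto_of_tendsto_of_tendsto_of_le_of_le
            (h := fun n : ℕ => ENNReal.ofReal (1 / ((n : ℝ) + 1))) tendsto_const_nhds ?_
            (fun n => zero_le) (fun n => ?_)
          · have := ENNReal.tendsto_ofReal (tendsto_one_div_add_atTop_nhds_zero_nat (𝕜 := ℝ))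
            simpa using this
          · simp only
            rw [← ofReal_norm]
            refine ENNReal.ofReal_le_ofReal ?_
            have := tap_kern_le' ha (y := -((n : ℝ) + 1)) (by
              have : (0 : ℝ) ≤ n := Nat.cast_nonneg n
              linarith) t
            rw [neg_neg] at this
            rw [one_div]
            exact this
        have h3 := h2.ennrpow_const Q
        rwa [ENNReal.zero_rpow_of_pos hQ0] at h3
    rw [lintegral_zero] at h1
    have h2 := h1.ennrpow_const (1 / Q)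
    rwa [ENNReal.zero_rpow_of_pos (by positivity)] at h2
  -- the constant value is zero
  have hzero : ∀ y : ℝ, y < 0 → ∫ x : ℝ, G ((x : ℂ) + y * Complex.I) = 0 := by
    intro y hy
    have h1 : ∀ᶠ n : ℕ in atTop, ‖∫ x : ℝ, G ((x : ℂ) + y * Complex.I)‖ₑ
        ≤ eLpNorm (k (-((n : ℝ) + 1))) (ENNReal.ofReal Q) volume * C := by
      obtain ⟨N, hN⟩ := exists_nat_ge (-y)
      filter_upwards [eventually_ge_atTop N] with n hn
      have hnN : (N : ℝ) ≤ n := by exact_mod_cast hn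
      have hle : -((n : ℝ) + 1) ≤ y := by linarith
      rw [← hconst _ _ hle hy]
      exact (enorm_integral_le_lintegral_enorm _).trans (hGest _ (by linarith))
    have h2 : Tendsto (fun n : ℕ => eLpNorm (k (-((n : ℝ) + 1))) (ENNReal.ofReal Q) volume * C)
        atTop (𝓝 0) := by
      have := ENNReal.Tendsto.mul_const hktend (b := (C : ℝ≥0∞)) (Or.inr ENNReal.coe_ne_top)
      simpa using this
    have h3 := ge_of_tendsto h2 h1
    have h4 : ‖∫ x : ℝ, G ((x : ℂ) + y * Complex.I)‖ₑ = 0 := le_antisymm h3 zero_le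
    exact enorm_eq_zero.mp h4
  -- passage to the boundary
  set y : ℕ → ℝ := fun n => 1 / ((n : ℝ) + 1) with hy
  have hypos : ∀ n, 0 < y n := fun n => by
    simp only [hy]
    positivity
  have hylim : Tendsto y atTop (𝓝 0) := tendsto_one_div_add_atTop_nhds_zero_nat
  have hylim' : Tendsto y atTop (𝓝[>] 0) :=
    tendsto_nhdsWithin_iff.mpr ⟨hylim, Eventually.of_forall hypos⟩
  have hB : Tendsto (fun n => eLpNorm (fun x : ℝ => F ((x : ℂ) + (-y n : ℝ) * Complex.I) - f x)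
      p volume) atTop (𝓝 0) := by
    have h1 := hlim.comp hylim'
    refine h1.congr fun n => ?_
    simp only [Function.comp_apply]
    congr 1
    funext x
    simp [sub_eq_add_neg]
  have hfk : ∫⁻ t, ‖k0 t * f t‖ₑ ≠ ⊤ := by
    have h1 := tap_holder hPQ hk0m.1 hf.1
    refine ne_top_of_le_ne_top ?_ h1
    rw [← hpP]
    exact ENNReal.mul_ne_top hk0m.2.ne hf.2.ne
  have hfkm : AEStronglyMeasurable (fun t => k0 t * f t) volume := hk0m.1.mul hf.1
  -- first part
  have hT1 : Tendsto (fun n => ∫⁻ t, ‖(k0 t - k (-y n) t) * f t‖ₑ) atTop (𝓝 0) := by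
    have h1 : Tendsto (fun n => ∫⁻ t, ‖(k0 t - k (-y n) t) * f t‖ₑ) atTop
        (𝓝 (∫⁻ _ : ℝ, (0 : ℝ≥0∞))) := by
      refine tendsto_lintegral_of_dominated_convergence' (fun t => 2 * ‖k0 t * f t‖ₑ) ?_ ?_ ?_ ?_
      · intro n
        exact ((hk0m.1.sub (hkc _ (by linarith [hypos n])).aestronglyMeasurable).mul hf.1).enorm
      · intro n
        refine Eventually.of_forall fun t => ?_
        simp only
        rw [enorm_mul, enorm_mul, ← mul_assoc]
        refine mul_le_mul_left ?_ _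
        calc ‖k0 t - k (-y n) t‖ₑ ≤ ‖k0 t‖ₑ + ‖k (-y n) t‖ₑ := enorm_sub_le
          _ ≤ ‖k0 t‖ₑ + ‖k0 t‖ₑ := add_le_add le_rfl (hkle _ (by linarith [hypos n]) t)
          _ = 2 * ‖k0 t‖ₑ := (two_mul _).symm
      · rw [lintegral_const_mul'' _ hfkm.enorm]
        exact ENNReal.mul_ne_top (by norm_num) hfk
      · refine Eventually.of_forall fun t => ?_
        have h2 : Tendsto (fun n => k (-y n) t) atTop (𝓝 (k0 t)) := by
          simp only [hk, hk0]
          have h3 : Tendsto (fun n => (t : ℂ) + ((-y n : ℝ) : ℂ) * Complex.I - a) atTop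
              (𝓝 ((t : ℂ) + ((-0 : ℝ) : ℂ) * Complex.I - a)) := by
            have h4 : Continuous (fun s : ℝ => (t : ℂ) + ((-s : ℝ) : ℂ) * Complex.I - a) := by
              fun_prop
            exact (h4.tendsto 0).comp hylim
          have h5 : (t : ℂ) + ((-0 : ℝ) : ℂ) * Complex.I - a = (t : ℂ) - a := by simp
          rw [h5] at h3
          refine h3.inv₀ ?_
          have := tap_sub_ne ha le_rfl t
          simpa using this
        have h3 : Tendsto (fun n => (k0 t - k (-y n) t) * f t) atTop (𝓝 ((k0 t - k0 t) * f t)) :=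
          (tendsto_const_nhds.sub h2).mul_const _
        rw [sub_self, zero_mul] at h3
        have h4 := h3.enorm
        rwa [enorm_zero] at h4
    rwa [lintegral_zero] at h1
  -- second part
  have hT2 : Tendsto (fun n => eLpNorm k0 (ENNReal.ofReal Q) volume
      * eLpNorm (fun x : ℝ => F ((x : ℂ) + (-y n : ℝ) * Complex.I) - f x) p volume)
      atTop (𝓝 0) := by
    have := ENNReal.Tendsto.const_mul hB (a := eLpNorm k0 (ENNReal.ofReal Q) volume)
      (Or.inr hk0m.2.ne)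
    simpa using this
  have hT := hT1.add hT2
  rw [add_zero] at hT
  have hbound : ∀ n, ‖∫ t : ℝ, k0 t * f t‖ₑ ≤ (∫⁻ t, ‖(k0 t - k (-y n) t) * f t‖ₑ)
      + eLpNorm k0 (ENNReal.ofReal Q) volume
      * eLpNorm (fun x : ℝ => F ((x : ℂ) + (-y n : ℝ) * Complex.I) - f x) p volume := by
    intro n
    have hyn : -y n < 0 := by linarith [hypos n]
    have hGi : Integrable (fun x : ℝ => G ((x : ℂ) + (-y n : ℝ) * Complex.I)) := by
      refine ⟨?_, lt_of_le_of_lt (hGb _ hyn) hMtop.lt_top⟩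
      exact ((hkc _ hyn.le).mul (hFc _ hyn)).aestronglyMeasurable
    have hfi : Integrable (fun t => k0 t * f t) := ⟨hfkm, hfk.lt_top⟩
    have h1 : ∫ t : ℝ, k0 t * f t
        = ∫ t : ℝ, (k0 t * f t - G ((t : ℂ) + (-y n : ℝ) * Complex.I)) := by
      rw [integral_sub hfi hGi, hzero _ hyn, sub_zero]
    rw [h1]
    refine (enorm_integral_le_lintegral_enorm _).trans ?_
    have h2 : ∀ t : ℝ, ‖k0 t * f t - G ((t : ℂ) + (-y n : ℝ) * Complex.I)‖ₑ
        ≤ ‖(k0 t - k (-y n) t) * f t‖ₑ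
          + ‖k (-y n) t * (F ((t : ℂ) + (-y n : ℝ) * Complex.I) - f t)‖ₑ := by
      intro t
      have h3 : k0 t * f t - G ((t : ℂ) + (-y n : ℝ) * Complex.I)
          = (k0 t - k (-y n) t) * f t
            - k (-y n) t * (F ((t : ℂ) + (-y n : ℝ) * Complex.I) - f t) := by
        rw [hGk]
        ring
      rw [h3]
      exact enorm_sub_le
    refine (lintegral_mono h2).trans ?_
    have hm1 : AEMeasurable (fun t => ‖(k0 t - k (-y n) t) * f t‖ₑ) volume :=
      ((hk0m.1.sub (hkc _ hyn.le).aestronglyMeasurable).mul hf.1).enorm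
    rw [lintegral_add_left' hm1]
    refine add_le_add le_rfl ?_
    have h4 := tap_holder hPQ (hkc _ hyn.le).aestronglyMeasurable
      ((hFc _ hyn).aestronglyMeasurable.sub hf.1)
    refine h4.trans ?_
    rw [← hpP]
    exact mul_le_mul_left (hkLp _ hyn.le) _
  have h5 := ge_of_tendsto' hT hbound
  have h6 : ‖∫ t : ℝ, k0 t * f t‖ₑ = 0 := le_antisymm h5 zero_le
  have h7 := enorm_eq_zero.mp h6
  simpa only [smul_eq_mul] using h7

theorem cauchy_zero_of_hardy_upper {p : ℝ≥0∞} (hp : 1 < p) (hp' : p ≠ ⊤) {f : ℝ → ℂ}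
    (hf : MemLp f p volume) {F : ℂ → ℂ} (hF : DifferentiableOn ℂ F {z : ℂ | 0 < z.im})
    {C : ℝ≥0} (hC : ∀ y : ℝ, 0 < y →
      eLpNorm (fun x : ℝ => F ((x : ℂ) + y * Complex.I)) p volume ≤ C)
    (hlim : Tendsto (fun y : ℝ => eLpNorm (fun x : ℝ => F ((x : ℂ) + y * Complex.I) - f x) p volume)
      (𝓝[>] 0) (𝓝 0))
    (a : ℂ) (ha : a.im < 0) : ∫ t : ℝ, ((t : ℂ) - a)⁻¹ • f t = 0 := by
  have hneg : MeasurePreserving (fun x : ℝ => -x) volume volume := Measure.measurePreserving_neg _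
  have hFc : ∀ y : ℝ, 0 < y → Continuous (fun x : ℝ => F ((x : ℂ) + y * Complex.I)) := by
    intro y hy
    refine hF.continuousOn.comp_continuous (by fun_prop) (fun x => ?_)
    simpa using hy
  have hF' : DifferentiableOn ℂ (fun z => F (-z)) {z : ℂ | z.im < 0} := by
    refine hF.comp (by fun_prop) ?_
    intro z hz
    have hz' : z.im < 0 := hz
    simp only [mem_ofPred_eq, Complex.neg_im]
    linarith
  have hf' : MemLp (fun t : ℝ => f (-t)) p volume := hf.comp_measurePreserving hneg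
  have key := cauchy_zero_of_hardy_lower hp hp' hf' hF' (C := C) ?_ ?_ (-a) (by
    rw [Complex.neg_im]
    linarith)
  · have h1 : ∫ t : ℝ, ((t : ℂ) - -a)⁻¹ • f (-t) = ∫ t : ℝ, (((-t : ℝ) : ℂ) - -a)⁻¹ • f t := by
      have := integral_neg_eq_self (fun t : ℝ => (((-t : ℝ) : ℂ) - -a)⁻¹ • f t) volume
      rw [← this]
      refine integral_congr_ae (Eventually.of_forall fun t => ?_)
      simp
    rw [h1] at key
    have h2 : ∫ t : ℝ, (((-t : ℝ) : ℂ) - -a)⁻¹ • f t = - ∫ t : ℝ, ((t : ℂ) - a)⁻¹ • f t := by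
      rw [← integral_neg]
      refine integral_congr_ae (Eventually.of_forall fun t => ?_)
      simp only
      rw [← neg_smul, ← inv_neg]
      congr 2
      push_cast
      ring
    rw [h2, neg_eq_zero] at key
    exact key
  · intro y hy
    have h1 : (fun x : ℝ => F (-((x : ℂ) - y * Complex.I)))
        = (fun x : ℝ => F ((x : ℂ) + y * Complex.I)) ∘ (fun x : ℝ => -x) := by
      funext x
      simp only [Function.comp_apply]
      congr 1
      push_cast
      ring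
    rw [h1, eLpNorm_comp_measurePreserving (hFc y hy).aestronglyMeasurable hneg]
    exact hC y hy
  · refine hlim.congr' ?_
    filter_upwards [self_mem_nhdsWithin] with y hy
    have hy0 : 0 < y := hy
    have h1 : (fun x : ℝ => F (-((x : ℂ) - y * Complex.I)) - f (-x))
        = (fun x : ℝ => F ((x : ℂ) + y * Complex.I) - f x) ∘ (fun x : ℝ => -x) := by
      funext x
      simp only [Function.comp_apply]
      congr 2
      push_cast
      ring
    rw [h1]
    exact (eLpNorm_comp_measurePreserving (p := p)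
      (g := fun x : ℝ => F ((x : ℂ) + y * Complex.I) - f x)
      ((hFc y hy0).aestronglyMeasurable.sub hf.1) hneg).symm

end H1
end Pool.Agent.Helper865.TAP
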