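import Pool.Agent.Helper865.TAP.Defs


set_option autoImplicit false

open MeasureTheory Filter Topology Set Metric
open scoped ENNReal NNReal

namespace Pool.Agent.Helper865.TAP
namespace H2





theorem cauchy_kernel_bound (a : ℂ) (ha : a.im ≠ 0) : ∃ K : ℝ, 0 ≤ K ∧ ∀ t : ℝ,
    (t : ℂ) - a ≠ 0 ∧ |a.im| ≤ ‖(t : ℂ) - a‖ ∧ ‖((t : ℂ) - a)⁻¹‖ ≤ K * (1 + ‖t‖)⁻¹ := by
  have h0 : 0 < |a.im| := abs_pos.mpr ha
  refine ⟨1 / |a.im| + 1 + ‖a‖ / |a.im|, by positivity, fun z => ?_⟩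
  have h1 : |a.im| ≤ ‖(z : ℂ) - a‖ := by
    have := Complex.abs_im_le_norm ((z : ℂ) - a)
    rw [Complex.sub_im, Complex.ofReal_im, zero_sub, abs_neg] at this
    exact this
  have hpos : 0 < ‖(z : ℂ) - a‖ := lt_of_lt_of_le h0 h1
  have hne : (z : ℂ) - a ≠ 0 := norm_pos_iff.mp hpos
  refine ⟨hne, h1, ?_⟩
  rw [← div_eq_mul_inv, norm_inv, le_div_iff₀ (by positivity), inv_mul_le_iff₀ hpos]
  have h2 : ‖z‖ ≤ ‖(z : ℂ) - a‖ + ‖a‖ := by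
    calc ‖z‖ = ‖((z : ℂ) - a) + a‖ := by rw [sub_add_cancel, Complex.norm_real]
      _ ≤ _ := norm_add_le _ _
  have h3 : 1 ≤ ‖(z : ℂ) - a‖ * (1 / |a.im|) := by
    rw [mul_one_div, le_div_iff₀ h0]; linarith
  have h4 : ‖a‖ ≤ ‖(z : ℂ) - a‖ * (‖a‖ / |a.im|) := by
    rw [mul_div_assoc', le_div_iff₀ h0]
    nlinarith [norm_nonneg a]
  calc 1 + ‖z‖ ≤ 1 + ‖(z : ℂ) - a‖ + ‖a‖ := by linarith
    _ ≤ ‖(z : ℂ) - a‖ * (1 / |a.im|) + ‖(z : ℂ) - a‖ + ‖(z : ℂ) - a‖ * (‖a‖ / |a.im|) := by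
      linarith
    _ = _ := by ring

theorem cauchy_kernel_cont (a : ℂ) (ha : a.im ≠ 0) : Continuous (fun t : ℝ => ((t : ℂ) - a)⁻¹) := by
  obtain ⟨K, _, hK⟩ := cauchy_kernel_bound a ha
  exact Continuous.inv₀ (by fun_prop) (fun t => (hK t).1)

theorem cauchy_kernel_memLp (a : ℂ) (ha : a.im ≠ 0) (q : ℝ≥0∞) (hq : 1 < q) (hq' : q ≠ ⊤) :
    MemLp (fun t : ℝ => ((t : ℂ) - a)⁻¹) q volume := by
  obtain ⟨K, hK0, hK⟩ := cauchy_kernel_bound a ha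
  have hq0 : q ≠ 0 := (zero_lt_one.trans hq).ne'
  have hQ : 1 < q.toReal := by
    rw [← ENNReal.toReal_one]
    exact (ENNReal.toReal_lt_toReal ENNReal.one_ne_top hq').mpr hq
  have hmeas : AEStronglyMeasurable (fun t : ℝ => ((t : ℂ) - a)⁻¹) volume :=
    (cauchy_kernel_cont a ha).aestronglyMeasurable
  rw [← integrable_norm_rpow_iff hmeas hq0 hq']
  have hint : Integrable (fun t : ℝ => (1 + ‖t‖) ^ (-q.toReal)) volume :=
    integrable_one_add_norm (by simpa using hQ)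
  refine Integrable.mono' (hint.const_mul (K ^ q.toReal)) ?_ (Eventually.of_forall fun t => ?_)
  · exact ((cauchy_kernel_cont a ha).norm.rpow_const (fun t => Or.inr (by linarith))).aestronglyMeasurable
  · have h1 := (hK t).2.2
    rw [Real.norm_eq_abs, abs_of_nonneg (by positivity)]
    calc ‖((t : ℂ) - a)⁻¹‖ ^ q.toReal ≤ (K * (1 + ‖t‖)⁻¹) ^ q.toReal :=
          Real.rpow_le_rpow (norm_nonneg _) h1 (by linarith)
      _ = K ^ q.toReal * (1 + ‖t‖) ^ (-q.toReal) := by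
        rw [Real.mul_rpow hK0 (by positivity), Real.inv_rpow (by positivity),
          Real.rpow_neg (by positivity)]

theorem cauchy_integrable {p : ℝ≥0∞} (hp : 1 < p) (hp' : p ≠ ⊤) {f : ℝ → ℂ}
    (hf : MemLp f p volume) (a : ℂ) (ha : a.im ≠ 0) :
    Integrable (fun t : ℝ => ((t : ℂ) - a)⁻¹ • f t) volume := by
  have : ENNReal.HolderConjugate p (ENNReal.conjExponent p) :=
    ENNReal.HolderConjugate.conjExponent hp.le
  have hq : 1 < ENNReal.conjExponent p := by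
    unfold ENNReal.conjExponent
    have h1 : p - 1 ≠ ⊤ := ENNReal.sub_ne_top hp'
    have h2 : 0 < (p - 1)⁻¹ := ENNReal.inv_pos.mpr h1
    calc (1:ℝ≥0∞) = 1 + 0 := (add_zero 1).symm
      _ < 1 + (p - 1)⁻¹ := by
        rw [ENNReal.add_lt_add_iff_left ENNReal.one_ne_top]
        exact h2
  have hq' : ENNReal.conjExponent p ≠ ⊤ := by
    unfold ENNReal.conjExponent
    have h1 : p - 1 ≠ 0 := (tsub_pos_of_lt hp).ne'
    simp [h1]
  have hk := cauchy_kernel_memLp a ha _ hq hq'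
  rw [← memLp_one_iff_integrable]
  exact MemLp.smul (r := 1) hf hk

/-- the Cauchy integral is holomorphic off the real line -/
theorem cauchy_differentiableAt {p : ℝ≥0∞} (hp : 1 < p) (hp' : p ≠ ⊤) {f : ℝ → ℂ}
    (hf : MemLp f p volume) (z₀ : ℂ) (hz : z₀.im ≠ 0) :
    DifferentiableAt ℂ (fun z : ℂ => ∫ t : ℝ, ((t : ℂ) - z)⁻¹ • f t) z₀ := by
  have h0 : 0 < |z₀.im| := abs_pos.mpr hz
  obtain ⟨K, hK0, hK⟩ := cauchy_kernel_bound z₀ hz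
  have hs : ball z₀ (|z₀.im| / 2) ∈ 𝓝 z₀ := ball_mem_nhds _ (by positivity)
  -- points of the ball are non-real and comparable with z₀
  have hb : ∀ z ∈ ball z₀ (|z₀.im| / 2), ∀ t : ℝ, ‖(t : ℂ) - z₀‖ / 2 ≤ ‖(t : ℂ) - z‖ := by
    intro z hz t
    rw [mem_ball, dist_eq_norm] at hz
    have h1 := (hK t).2.1
    have h2 : ‖(t : ℂ) - z₀‖ ≤ ‖(t : ℂ) - z‖ + ‖z - z₀‖ := by
      calc _ = ‖((t : ℂ) - z) + (z - z₀)‖ := by rw [sub_add_sub_cancel]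
        _ ≤ _ := norm_add_le _ _
    linarith
  have hbne : ∀ z ∈ ball z₀ (|z₀.im| / 2), ∀ t : ℝ, (t : ℂ) - z ≠ 0 := by
    intro z hz t
    have h1 := hb z hz t
    have h2 := (hK t).2.1
    exact norm_pos_iff.mp (by linarith)
  have key := hasDerivAt_integral_of_dominated_loc_of_deriv_le (μ := volume)
    (F := fun (z : ℂ) (t : ℝ) => ((t : ℂ) - z)⁻¹ • f t)
    (F' := fun (z : ℂ) (t : ℝ) => (((t : ℂ) - z) ^ 2)⁻¹ • f t) (x₀ := z₀)
    (s := ball z₀ (|z₀.im| / 2))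
    (bound := fun t : ℝ => 4 / |z₀.im| * ‖((t : ℂ) - z₀)⁻¹ • f t‖) hs ?_ ?_ ?_ ?_ ?_ ?_
  · exact key.2.differentiableAt
  · filter_upwards [hs] with z hz
    have hc : Continuous (fun t : ℝ => ((t : ℂ) - z)⁻¹) :=
      Continuous.inv₀ (by fun_prop) (fun t => hbne z hz t)
    exact hc.aestronglyMeasurable.smul hf.aestronglyMeasurable
  · exact cauchy_integrable hp hp' hf z₀ hz
  · have hc : Continuous (fun t : ℝ => (((t : ℂ) - z₀) ^ 2)⁻¹) :=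
      Continuous.inv₀ (by fun_prop) (fun t => pow_ne_zero 2 (hK t).1)
    exact hc.aestronglyMeasurable.smul hf.aestronglyMeasurable
  · refine Eventually.of_forall fun t z hz => ?_
    have h1 := hb z hz t
    have h2 := (hK t).2.1
    have h3 : 0 < ‖(t : ℂ) - z₀‖ := by linarith
    rw [norm_smul, norm_smul, norm_inv, norm_inv, norm_pow, ← mul_assoc]
    refine mul_le_mul_of_nonneg_right ?_ (norm_nonneg _)
    calc (‖(t : ℂ) - z‖ ^ 2)⁻¹ ≤ ((‖(t : ℂ) - z₀‖ / 2) ^ 2)⁻¹ := by gcongr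
      _ = 4 / ‖(t : ℂ) - z₀‖ * ‖(t : ℂ) - z₀‖⁻¹ := by field_simp; norm_num
      _ ≤ 4 / |z₀.im| * ‖(t : ℂ) - z₀‖⁻¹ := by gcongr
  · exact (cauchy_integrable hp hp' hf z₀ hz).norm.const_mul _
  · refine Eventually.of_forall fun t z hz => ?_
    have hne := hbne z hz t
    have h1 : HasDerivAt (fun z : ℂ => (t : ℂ) - z) (-1) z := by
      simpa using (hasDerivAt_id z).const_sub (t : ℂ)
    have h2 := (h1.inv hne).smul_const (f t)
    refine h2.congr_deriv ?_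
    rw [neg_neg, one_div]

theorem pois_kernel (t x y : ℝ) (hy : 0 < y) :
    ((Real.pi⁻¹ * (y / ((t - x) ^ 2 + y ^ 2)) : ℝ) : ℂ) = (2 * (Real.pi : ℂ) * Complex.I)⁻¹ *
      (((t : ℂ) - ((x : ℂ) + y * Complex.I))⁻¹ - ((t : ℂ) - ((x : ℂ) - y * Complex.I))⁻¹) := by
  have h1 : (t : ℂ) - ((x : ℂ) + y * Complex.I) ≠ 0 := by
    intro h
    have := congrArg Complex.im h
    simp at this
    exact hy.ne' this
  have h2 : (t : ℂ) - ((x : ℂ) - y * Complex.I) ≠ 0 := by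
    intro h
    have := congrArg Complex.im h
    simp at this
    exact hy.ne' this
  have h3 : ((t : ℂ) - ((x : ℂ) + y * Complex.I)) * ((t : ℂ) - ((x : ℂ) - y * Complex.I)) =
      ((t : ℂ) - x) ^ 2 + (y : ℂ) ^ 2 := by
    linear_combination (-(y:ℂ)^2) * Complex.I_sq
  have hpi : (Real.pi : ℂ) ≠ 0 := by exact_mod_cast Real.pi_ne_zero
  rw [inv_sub_inv h1 h2, h3]
  have h4 : ((t : ℂ) - x) ^ 2 + (y : ℂ) ^ 2 ≠ 0 := by
    rw [← h3]; exact mul_ne_zero h1 h2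
  push_cast
  field_simp
  ring

theorem pois_eq {p : ℝ≥0∞} (hp : 1 < p) (hp' : p ≠ ⊤) {f : ℝ → ℂ}
    (hf : MemLp f p volume) (x y : ℝ) (hy : 0 < y) :
    pois y f x = (2 * (Real.pi : ℂ) * Complex.I)⁻¹ •
      ((∫ t : ℝ, ((t : ℂ) - ((x : ℂ) + y * Complex.I))⁻¹ • f t) -
        ∫ t : ℝ, ((t : ℂ) - ((x : ℂ) - y * Complex.I))⁻¹ • f t) := by
  have i1 := cauchy_integrable hp hp' hf ((x : ℂ) + y * Complex.I) (by simpa using hy.ne')
  have i2 := cauchy_integrable hp hp' hf ((x : ℂ) - y * Complex.I) (by simpa using hy.ne')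
  rw [← integral_sub i1 i2, ← integral_smul]
  unfold pois
  congr 1
  funext t
  rw [← sub_smul, smul_smul, ← pois_kernel t x y hy]
  rfl

theorem pois_lower {p : ℝ≥0∞} (hp : 1 < p) (hp' : p ≠ ⊤) {f : ℝ → ℂ} (hf : Hm p f) (x y : ℝ)
    (hy : 0 < y) : pois y f x = -((2 * (Real.pi : ℂ) * Complex.I)⁻¹ •
        ∫ t : ℝ, ((t : ℂ) - ((x : ℂ) - y * Complex.I))⁻¹ • f t) := by
  rw [pois_eq hp hp' hf.1 x y hy, hf.2 _ (by simpa using hy), zero_sub, smul_neg]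

theorem pois_upper {p : ℝ≥0∞} (hp : 1 < p) (hp' : p ≠ ⊤) {f : ℝ → ℂ} (hf : Hp p f) (x y : ℝ)
    (hy : 0 < y) : pois y f x = (2 * (Real.pi : ℂ) * Complex.I)⁻¹ •
        ∫ t : ℝ, ((t : ℂ) - ((x : ℂ) + y * Complex.I))⁻¹ • f t := by
  rw [pois_eq hp hp' hf.1 x y hy, hf.2 ((x : ℂ) - y * Complex.I) (by simpa using hy), sub_zero]

/-- Conversely, vanishing Cauchy integrals give a Hardy class extension. -/
theorem hardy_lower_of_cauchy_zero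
    (hpois : ∀ (p : ℝ≥0∞), 1 ≤ p → p ≠ ⊤ → ∀ f : ℝ → ℂ, MemLp f p volume →
      Tendsto (fun y : ℝ => eLpNorm (fun x => pois y f x - f x) p volume) (𝓝[>] 0) (𝓝 0))
    (hpois' : ∀ (p : ℝ≥0∞), 1 ≤ p → p ≠ ⊤ → ∀ f : ℝ → ℂ, MemLp f p volume → ∀ y : ℝ, 0 < y →
      eLpNorm (pois y f) p volume ≤ eLpNorm f p volume)
    (hcauchy : ∀ (p : ℝ≥0∞), 1 ≤ p → p ≠ ⊤ → ∀ f : ℝ → ℂ, Hm p f → ∀ y : ℝ, 0 < y → ∀ x : ℝ,
      pois y f x = -((2 * (Real.pi : ℂ) * Complex.I)⁻¹ •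
        ∫ t : ℝ, ((t : ℂ) - ((x : ℂ) - y * Complex.I))⁻¹ • f t))
    {p : ℝ≥0∞} (hp : 1 < p) (hp' : p ≠ ⊤) {f : ℝ → ℂ} (hf : Hm p f) :
    ∃ F : ℂ → ℂ, DifferentiableOn ℂ F {z : ℂ | z.im < 0} ∧
      (∃ C : ℝ≥0, ∀ y : ℝ, 0 < y →
        eLpNorm (fun x : ℝ => F ((x : ℂ) - y * Complex.I)) p volume ≤ C) ∧
      Tendsto (fun y : ℝ => eLpNorm (fun x : ℝ => F ((x : ℂ) - y * Complex.I) - f x) p volume)
        (𝓝[>] 0) (𝓝 0) := by
  refine ⟨fun z => -((2 * (Real.pi : ℂ) * Complex.I)⁻¹ • ∫ t : ℝ, ((t : ℂ) - z)⁻¹ • f t),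
    ?_, ⟨(eLpNorm f p volume).toNNReal, fun y hy => ?_⟩, ?_⟩
  · intro z hz
    have h1 := cauchy_differentiableAt hp hp' hf.1 z (ne_of_lt hz)
    exact ((h1.const_smul ((2 * (Real.pi : ℂ) * Complex.I)⁻¹)).neg).differentiableWithinAt
  · have h1 : (fun x : ℝ => -((2 * (Real.pi : ℂ) * Complex.I)⁻¹ •
        ∫ t : ℝ, ((t : ℂ) - ((x : ℂ) - y * Complex.I))⁻¹ • f t)) = pois y f := by
      funext x
      rw [pois_lower hp hp' hf x y hy]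
    rw [h1, ENNReal.coe_toNNReal hf.1.2.ne]
    exact hpois' p hp.le hp' f hf.1 y hy
  · refine (hpois p hp.le hp' f hf.1).congr' ?_
    filter_upwards [self_mem_nhdsWithin] with y hy
    congr 1
    funext x
    rw [pois_lower hp hp' hf x y hy]

theorem hardy_upper_of_cauchy_zero
    (hpois : ∀ (p : ℝ≥0∞), 1 ≤ p → p ≠ ⊤ → ∀ f : ℝ → ℂ, MemLp f p volume →
      Tendsto (fun y : ℝ => eLpNorm (fun x => pois y f x - f x) p volume) (𝓝[>] 0) (𝓝 0))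
    (hpois' : ∀ (p : ℝ≥0∞), 1 ≤ p → p ≠ ⊤ → ∀ f : ℝ → ℂ, MemLp f p volume → ∀ y : ℝ, 0 < y →
      eLpNorm (pois y f) p volume ≤ eLpNorm f p volume)
    {p : ℝ≥0∞} (hp : 1 < p) (hp' : p ≠ ⊤) {f : ℝ → ℂ} (hf : Hp p f) :
    ∃ F : ℂ → ℂ, DifferentiableOn ℂ F {z : ℂ | 0 < z.im} ∧
      (∃ C : ℝ≥0, ∀ y : ℝ, 0 < y →
        eLpNorm (fun x : ℝ => F ((x : ℂ) + y * Complex.I)) p volume ≤ C) ∧
      Tendsto (fun y : ℝ => eLpNorm (fun x : ℝ => F ((x : ℂ) + y * Complex.I) - f x) p volume)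
        (𝓝[>] 0) (𝓝 0) := by
  refine ⟨fun z => (2 * (Real.pi : ℂ) * Complex.I)⁻¹ • ∫ t : ℝ, ((t : ℂ) - z)⁻¹ • f t,
    ?_, ⟨(eLpNorm f p volume).toNNReal, fun y hy => ?_⟩, ?_⟩
  · intro z hz
    have h1 := cauchy_differentiableAt hp hp' hf.1 z (ne_of_gt hz)
    exact (h1.const_smul ((2 * (Real.pi : ℂ) * Complex.I)⁻¹)).differentiableWithinAt
  · have h1 : (fun x : ℝ => (2 * (Real.pi : ℂ) * Complex.I)⁻¹ •
        ∫ t : ℝ, ((t : ℂ) - ((x : ℂ) + y * Complex.I))⁻¹ • f t) = pois y f := by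
      funext x
      rw [pois_upper hp hp' hf x y hy]
    rw [h1, ENNReal.coe_toNNReal hf.1.2.ne]
    exact hpois' p hp.le hp' f hf.1 y hy
  · refine (hpois p hp.le hp' f hf.1).congr' ?_
    filter_upwards [self_mem_nhdsWithin] with y hy
    congr 1
    funext x
    rw [pois_upper hp hp' hf x y hy]

end H2
end Pool.Agent.Helper865.TAP
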