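import Pool.Agent.Helper865.TAP.ThmB3

set_option autoImplicit false

open MeasureTheory Filter Topology Set Metric
open scoped ENNReal NNReal

namespace Pool.Agent.Helper865.TAP

variable {E : Type*} [NormedAddCommGroup E] [InnerProductSpace ℂ E] [FiniteDimensional ℂ E]

theorem Hm_parts {p : ℝ≥0∞} (hp : 1 < p) (hp' : p ≠ ⊤) (f : ℝ → WithLp 2 (E × E)) (hf : Hm p f) :
    Hm p (fun t => (f t).fst) ∧ Hm p (fun t => (f t).snd) := by
  refine ⟨A3.Hm_clm hp hp' hf ((ContinuousLinearMap.fst ℂ E E).comp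
    ((WithLp.prodContinuousLinearEquiv 2 ℂ E E) : WithLp 2 (E × E) →L[ℂ] (E × E))),
    A3.Hm_clm hp hp' hf ((ContinuousLinearMap.snd ℂ E E).comp
    ((WithLp.prodContinuousLinearEquiv 2 ℂ E E) : WithLp 2 (E × E) →L[ℂ] (E × E)))⟩

theorem Hp_parts {p : ℝ≥0∞} (hp : 1 < p) (hp' : p ≠ ⊤) (f : ℝ → WithLp 2 (E × E)) (hf : Hp p f) :
    Hp p (fun t => (f t).fst) ∧ Hp p (fun t => (f t).snd) := by
  refine ⟨A3.Hp_clm hp hp' hf ((ContinuousLinearMap.fst ℂ E E).comp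
    ((WithLp.prodContinuousLinearEquiv 2 ℂ E E) : WithLp 2 (E × E) →L[ℂ] (E × E))),
    A3.Hp_clm hp hp' hf ((ContinuousLinearMap.snd ℂ E E).comp
    ((WithLp.prodContinuousLinearEquiv 2 ℂ E E) : WithLp 2 (E × E) →L[ℂ] (E × E)))⟩

/-- embedding in the first component -/
noncomputable def inl2 : E →L[ℂ] WithLp 2 (E × E) :=
  ((WithLp.prodContinuousLinearEquiv 2 ℂ E E).symm : (E × E) →L[ℂ] WithLp 2 (E × E)).comp
    (ContinuousLinearMap.inl ℂ E E)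

/-- embedding in the second component -/
noncomputable def inr2 : E →L[ℂ] WithLp 2 (E × E) :=
  ((WithLp.prodContinuousLinearEquiv 2 ℂ E E).symm : (E × E) →L[ℂ] WithLp 2 (E × E)).comp
    (ContinuousLinearMap.inr ℂ E E)

theorem inl2_add_inr2 (x y : E) :
    inl2 x + inr2 y = (WithLp.toLp 2 (x, y) : WithLp 2 (E × E)) := by
  apply (WithLp.prodContinuousLinearEquiv 2 ℂ E E).injective
  simp [inl2, inr2]

theorem Hm_pair {p : ℝ≥0∞} (hp : 1 < p) (hp' : p ≠ ⊤) (f g : ℝ → E) (hf : Hm p f) (hg : Hm p g) :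
    Hm p (fun t => (WithLp.toLp 2 (f t, g t) : WithLp 2 (E × E))) := by
  have := A3.Hm_add hp hp' (A3.Hm_clm hp hp' hf (inl2 (E := E)))
    (A3.Hm_clm hp hp' hg (inr2 (E := E)))
  refine A3.Hm_congr this (Eventually.of_forall fun t => ?_)
  exact inl2_add_inr2 _ _

theorem Hp_pair {p : ℝ≥0∞} (hp : 1 < p) (hp' : p ≠ ⊤) (f g : ℝ → E) (hf : Hp p f) (hg : Hp p g) :
    Hp p (fun t => (WithLp.toLp 2 (f t, g t) : WithLp 2 (E × E))) := by
  have := A3.Hp_add hp hp' (A3.Hp_clm hp hp' hf (inl2 (E := E)))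
    (A3.Hp_clm hp hp' hg (inr2 (E := E)))
  refine A3.Hp_congr this (Eventually.of_forall fun t => ?_)
  exact inl2_add_inr2 _ _

theorem blk_isAP {G : ℝ → E →L[ℂ] E} (hG : IsAP G) : IsAP (fun t => blk (G t)) := by
  have h1 : ∀ f g : ℝ → (WithLp 2 (E × E) →L[ℂ] WithLp 2 (E × E)), IsAP f → IsAP g →
      IsAP (fun t => f t + g t) := fun f g hf hg => B1.IsAP_add hf hg
  have h2 : ∀ (f : ℝ → (E →L[ℂ] E)), IsAP f →
      ∀ L : (E →L[ℂ] E) →L[ℂ] (WithLp 2 (E × E) →L[ℂ] WithLp 2 (E × E)),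
      IsAP (fun t => L (f t)) := fun f hf L => B1.IsAP_clm hf L
  have h3 : ∀ x : WithLp 2 (E × E) →L[ℂ] WithLp 2 (E × E), IsAP (fun _ : ℝ => x) :=
    fun x => B1.IsAP_const x
  have h4 : ∀ f : ℝ → (E →L[ℂ] E), IsAP f →
      IsAP (fun t => ContinuousLinearMap.adjoint (f t)) := fun f hf => B1.IsAP_adjoint hf
  exact D5.blk_IsAP h1 h2 h3 h4 hG

/-- `2 → q` for boundedness below. -/
theorem BB_of_BB2 {G : ℝ → E →L[ℂ] E} (hG : IsAP G) {K : ℝ} (hK : 0 < K) (hBB : BB 2 G K)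
    {q : ℝ} (hq : 1 < q) : ∃ K' : ℝ, 0 < K' ∧ BB (ENNReal.ofReal q) G K' := by
  obtain ⟨M, hM⟩ := B1.IsAP_bounded hG
  have hGc : Continuous G := (B1.IsAP_uniformContinuous hG).continuous
  have h2 : (1 : ℝ≥0∞) < 2 := by norm_num
  have h2' : (2 : ℝ≥0∞) ≠ ⊤ := by norm_num
  obtain ⟨K₁, hK₁, hBB₁⟩ := D5.blk_BB (fun _ hf => decomp hf) (fun _ _ hu hv => orth hu hv)
    (Hm_parts h2 h2') (Hp_parts h2 h2') (fun _ _ hf hg => A3.Hm_add h2 h2' hf hg)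
    (fun _ _ hf hg => A3.Hm_sub h2 h2' hf hg) (fun _ _ hf hg => A3.Hp_add h2 h2' hf hg)
    (fun _ _ hf hg => A3.Hp_sub h2 h2' hf hg) hGc hM hK hBB
  obtain ⟨C, hC, hB⟩ := thmB (blk_isAP hG) (fun t => D5.blk_adjoint (G t)) hK₁ hBB₁ hq
  have hq1 := one_lt_ofReal hq
  have hq2 : ENNReal.ofReal q ≠ ⊤ := ENNReal.ofReal_ne_top
  obtain ⟨C', hC', hR, hriesz, hR', hd, hd'⟩ := riesz_pkg E hq
  refine ⟨C, hC, ?_⟩
  exact V2.BB_of_L2 hq1 hq2 (fun _ hf => decomp hf) (fun _ _ hf hg => A3.Hm_sub hq1 hq2 hf hg)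
    (fun _ _ hf hg => A3.Hp_sub hq1 hq2 hf hg) hC' hR hR' hd hGc hM hC
    (fun f w hf hw hfw => D5.of_blk_bound (fun _ _ hf hg => Hm_pair h2 h2' _ _ hf hg)
      (fun _ _ hf hg => Hp_pair h2 h2' _ _ hf hg) hC.le hB hf hw hfw)

/-- `2 → q` for surjectivity. -/
theorem OO_of_BB2 {G : ℝ → E →L[ℂ] E} (hG : IsAP G) {K : ℝ} (hK : 0 < K)
    (hBB : BB 2 (fun t => ContinuousLinearMap.adjoint (G t)) K)
    {q : ℝ} (hq : 1 < q) : ∃ K' : ℝ, 0 < K' ∧ ∀ g : ℝ → E, Hm (ENNReal.ofReal q) g →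
      ∃ f : ℝ → E, Hm (ENNReal.ofReal q) f ∧ Hp (ENNReal.ofReal q) (fun t => G t (f t) - g t) ∧
      eLpNorm f (ENNReal.ofReal q) volume
        ≤ ENNReal.ofReal K' * eLpNorm g (ENNReal.ofReal q) volume := by
  obtain ⟨M, hM⟩ := B1.IsAP_bounded hG
  have hGc : Continuous G := (B1.IsAP_uniformContinuous hG).continuous
  have hG' : IsAP (fun t => ContinuousLinearMap.adjoint (G t)) := B1.IsAP_adjoint hG
  obtain ⟨M', hM'⟩ := B1.IsAP_bounded hG'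
  have hGc' : Continuous (fun t => ContinuousLinearMap.adjoint (G t)) :=
    (B1.IsAP_uniformContinuous hG').continuous
  have h2 : (1 : ℝ≥0∞) < 2 := by norm_num
  have h2' : (2 : ℝ≥0∞) ≠ ⊤ := by norm_num
  obtain ⟨K₁, hK₁, hBB₁⟩ := D5.blk_BB (fun _ hf => decomp hf) (fun _ _ hu hv => orth hu hv)
    (Hm_parts h2 h2') (Hp_parts h2 h2') (fun _ _ hf hg => A3.Hm_add h2 h2' hf hg)
    (fun _ _ hf hg => A3.Hm_sub h2 h2' hf hg) (fun _ _ hf hg => A3.Hp_add h2 h2' hf hg)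
    (fun _ _ hf hg => A3.Hp_sub h2 h2' hf hg) hGc' hM' hK hBB
  have hblk := blk_isAP hG'
  obtain ⟨Mb, hMb⟩ := B1.IsAP_bounded hblk
  have hblkc := (B1.IsAP_uniformContinuous hblk).continuous
  obtain ⟨C, hC, hB⟩ := thmB hblk (fun t => D5.blk_adjoint _) hK₁ hBB₁ hq
  have hq1 := one_lt_ofReal hq
  have hq2 : ENNReal.ofReal q ≠ ⊤ := ENNReal.ofReal_ne_top
  obtain ⟨C', hC', hR, hriesz, hR', hd, hd'⟩ := riesz_pkg E hq
  refine ⟨2 * C, by positivity, fun g hg => ?_⟩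
  exact V2.OO_of_L2 hq1 hq2 (fun _ _ hf hg => A3.Hm_sub hq1 hq2 hf hg)
    (fun _ _ hf hg => A3.Hm_add hq1 hq2 hf hg) (fun _ _ hf hg => A3.Hp_add hq1 hq2 hf hg)
    (Hm_closed hq1 hq2) (Hp_closed hq1 hq2) hd hGc hM hC
    (fun g hg hg' => D5.solve_of_blk hq1 hq2 (fun _ _ hf hg => Hm_pair h2 h2' _ _ hf hg)
      (Hm_parts h2 h2') (Hp_parts h2 h2') hGc hM hC.le hB
      (fun h hh => by
        obtain ⟨a, b, ha, hb, hab, _⟩ := solve_sa hblkc hMb (fun t => D5.blk_adjoint _) hK₁.le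
          hBB₁ hh
        exact ⟨a, b, ha, hb, hab⟩) hg hg') hg

/-- Surjectivity on `Hm p` gives boundedness below of the adjoint on `Hm q`. -/
theorem BB_adj_of_OO {p q : ℝ} (hp : 1 < p) (hpq : p.HolderConjugate q)
    {G : ℝ → E →L[ℂ] E} (hG : IsAP G) {K : ℝ} (hK : 0 < K)
    (hO : ∀ g : ℝ → E, Hm (ENNReal.ofReal p) g → ∃ f : ℝ → E, Hm (ENNReal.ofReal p) f ∧
      Hp (ENNReal.ofReal p) (fun t => G t (f t) - g t) ∧
      eLpNorm f (ENNReal.ofReal p) volume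
        ≤ ENNReal.ofReal K * eLpNorm g (ENNReal.ofReal p) volume) :
    ∃ K' : ℝ, 0 < K' ∧ BB (ENNReal.ofReal q) (fun t => ContinuousLinearMap.adjoint (G t)) K' := by
  obtain ⟨M, hM⟩ := B1.IsAP_bounded hG
  have hGc : Continuous G := (B1.IsAP_uniformContinuous hG).continuous
  obtain ⟨C, hC, hR, hriesz, hR', hd, hd'⟩ := riesz_pkg E hp
  refine ⟨K * C, by positivity, ?_⟩
  exact V2.BB_adjoint_of_OO hp hpq
    (fun u hu C hC h => J6.eLpNorm_le_of_pairing hpq.symm.lt hpq.symm u hu C hC h)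
    (fun _ _ hu hv => orth_Lp hp hpq hu hv)
    (fun u v hu hv => by
      have h1 := orth_Lp hpq.symm.lt hpq.symm hv hu
      have h2 : ∫ t : ℝ, inner ℂ (u t) (v t) = (starRingEnd ℂ) (∫ t : ℝ, inner ℂ (v t) (u t)) := by
        rw [← integral_conj]
        congr 1
        funext t
        exact (inner_conj_symm _ _).symm
      rw [h2, h1, map_zero]) hC hriesz hGc hM hK hO

end Pool.Agent.Helper865.TAP
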