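import Pool.Agent.Helper865.TAP.StepA

set_option autoImplicit false

open MeasureTheory Filter Topology Set Metric
open scoped ENNReal NNReal

namespace Pool.Agent.Helper865.TAP

variable {E : Type*} [NormedAddCommGroup E] [InnerProductSpace ℂ E] [FiniteDimensional ℂ E]

theorem BB_indep {G : ℝ → E →L[ℂ] E} (hG : IsAP G) {p q : ℝ} (hp : 1 < p) (hq : 1 < q)
    (h : ∃ K : ℝ, 0 < K ∧ BB (ENNReal.ofReal p) G K) :
    ∃ K : ℝ, 0 < K ∧ BB (ENNReal.ofReal q) G K := by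
  obtain ⟨K, hK, hBB⟩ := h
  obtain ⟨K', hK', hBB'⟩ := stepA hG hp hK hBB
  exact BB_of_BB2 hG hK' hBB' hq

/-- Surjectivity with bounds on the function level. -/
def OO (p : ℝ≥0∞) (G : ℝ → E →L[ℂ] E) (K : ℝ) : Prop :=
  ∀ g : ℝ → E, Hm p g → ∃ f : ℝ → E, Hm p f ∧ Hp p (fun t => G t (f t) - g t) ∧
    eLpNorm f p volume ≤ ENNReal.ofReal K * eLpNorm g p volume

theorem OO_indep {G : ℝ → E →L[ℂ] E} (hG : IsAP G) {p q : ℝ} (hp : 1 < p) (hq : 1 < q)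
    (h : ∃ K : ℝ, 0 < K ∧ OO (ENNReal.ofReal p) G K) :
    ∃ K : ℝ, 0 < K ∧ OO (ENNReal.ofReal q) G K := by
  obtain ⟨K, hK, hO⟩ := h
  have hpq : p.HolderConjugate p.conjExponent := Real.HolderConjugate.conjExponent hp
  obtain ⟨K₁, hK₁, hBB₁⟩ := BB_adj_of_OO hp hpq hG hK hO
  obtain ⟨K₂, hK₂, hBB₂⟩ := stepA (B1.IsAP_adjoint hG) hpq.symm.lt hK₁ hBB₁
  obtain ⟨K₃, hK₃, hO₃⟩ := OO_of_BB2 hG hK₂ hBB₂ hq
  exact ⟨K₃, hK₃, hO₃⟩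

end Pool.Agent.Helper865.TAP
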