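import Pool.Agent.Helper865.TAP.Defs


set_option autoImplicit false

open MeasureTheory Filter Topology Set
open scoped ENNReal NNReal

namespace Pool.Agent.Helper865.TAP
namespace J1

/-- Cauchy's theorem for the closed upper half plane with quadratic decay. -/
theorem integral_eq_zero_of_upper (F : ℂ → ℂ) (hF : ∀ z : ℂ, 0 ≤ z.im → DifferentiableAt ℂ F z)
    (C : ℝ) (hC : ∀ z : ℂ, 0 ≤ z.im → ‖F z‖ ≤ C / (1 + ‖z‖ ^ 2)) :
    ∫ t : ℝ, F (t : ℂ) = 0 := by
  have hC0 : 0 ≤ C := by
    have := hC 0 (by simp)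
    have h2 : (0:ℝ) ≤ ‖F 0‖ := norm_nonneg _
    simp at this
    linarith
  have hcont : Continuous (fun t : ℝ => F (t : ℂ)) := by
    rw [continuous_iff_continuousAt]
    intro t
    exact ContinuousAt.comp (f := fun t : ℝ => (t : ℂ)) (g := F) (hF t (by simp)).continuousAt
      Complex.continuous_ofReal.continuousAt
  have hint : Integrable (fun t : ℝ => F (t : ℂ)) := by
    refine Integrable.mono' (g := fun t : ℝ => C * (1 + t ^ 2)⁻¹)
      (integrable_inv_one_add_sq.const_mul C) hcont.aestronglyMeasurable ?_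
    refine Eventually.of_forall (fun t => ?_)
    have := hC t (by simp)
    rw [Complex.norm_real, Real.norm_eq_abs, sq_abs] at this
    rwa [← div_eq_mul_inv]
  have hlim := intervalIntegral_tendsto_integral hint tendsto_neg_atTop_atBot tendsto_id
  refine tendsto_nhds_unique hlim ?_
  rw [tendsto_zero_iff_norm_tendsto_zero]
  have hz : Tendsto (fun R : ℝ => 4 * C * R⁻¹) atTop (𝓝 0) := by
    simpa using (tendsto_inv_atTop_zero (𝕜 := ℝ)).const_mul (4 * C)
  refine squeeze_zero' (Eventually.of_forall fun _ => norm_nonneg _) ?_ hz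
  filter_upwards [eventually_gt_atTop (0 : ℝ)] with R hR
  have hrect := Complex.integral_boundary_rect_eq_zero_of_differentiableOn F (-R : ℂ)
    (R + R * Complex.I) (by
      intro z hz
      refine (hF z ?_).differentiableWithinAt
      have h2 := hz.2
      simp only [Complex.neg_im, Complex.ofReal_im, neg_zero, Complex.add_im, Complex.mul_im,
        Complex.ofReal_re, Complex.I_im, mul_one, Complex.I_re, mul_zero, add_zero, zero_add,
        Set.mem_preimage] at h2
      rw [uIcc_of_le hR.le] at h2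
      exact h2.1)
  simp only [Complex.neg_re, Complex.neg_im, Complex.ofReal_re, Complex.ofReal_im, neg_zero,
    Complex.add_re, Complex.add_im, Complex.mul_re, Complex.mul_im, Complex.I_re, Complex.I_im,
    mul_zero, mul_one, add_zero, zero_add, Complex.ofReal_zero, zero_mul,
    Complex.ofReal_neg, sub_self] at hrect
  have key : (∫ x in (-R)..R, F x) = (∫ x in (-R)..R, F (x + R * Complex.I)) -
      Complex.I • (∫ y in (0:ℝ)..R, F (R + y * Complex.I)) +
      Complex.I • (∫ y in (0:ℝ)..R, F (-R + y * Complex.I)) := by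
    linear_combination hrect
  have b1 : ‖∫ x in (-R)..R, F (x + R * Complex.I)‖ ≤ C / (1 + R^2) * |R - (-R)| := by
    refine intervalIntegral.norm_integral_le_of_norm_le_const (fun x _ => ?_)
    refine (hC _ (by simp [hR.le])).trans ?_
    gcongr
    have := Complex.abs_im_le_norm (x + R * Complex.I)
    simp only [Complex.add_im, Complex.ofReal_im, Complex.mul_im, Complex.ofReal_re,
      Complex.I_im, mul_one, Complex.I_re, mul_zero, add_zero, zero_add] at this
    exact (le_abs_self R).trans this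
  have b2 : ‖∫ y in (0:ℝ)..R, F (R + y * Complex.I)‖ ≤ C / (1 + R^2) * |R - 0| := by
    refine intervalIntegral.norm_integral_le_of_norm_le_const (fun y hy => ?_)
    rw [uIoc_of_le hR.le] at hy
    refine (hC _ (by simp [hy.1.le])).trans ?_
    gcongr
    have := Complex.abs_re_le_norm (R + y * Complex.I)
    simp only [Complex.add_re, Complex.ofReal_re, Complex.mul_re, Complex.ofReal_im,
      Complex.I_im, mul_one, Complex.I_re, mul_zero, sub_zero, add_zero] at this
    exact (le_abs_self R).trans this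
  have b3 : ‖∫ y in (0:ℝ)..R, F (-R + y * Complex.I)‖ ≤ C / (1 + R^2) * |R - 0| := by
    refine intervalIntegral.norm_integral_le_of_norm_le_const (fun y hy => ?_)
    rw [uIoc_of_le hR.le] at hy
    refine (hC _ (by simp [hy.1.le])).trans ?_
    gcongr
    have := Complex.abs_re_le_norm (-R + y * Complex.I)
    simp only [Complex.add_re, Complex.neg_re, Complex.ofReal_re, Complex.mul_re,
      Complex.ofReal_im, Complex.I_im, mul_one, Complex.I_re, mul_zero, sub_zero, add_zero,
      abs_neg] at this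
    exact (le_abs_self R).trans this
  have key2 : ‖∫ x in (-R)..R, F x‖ ≤ C / (1 + R^2) * (4 * R) := by
    rw [key]
    refine (norm_add_le _ _).trans ?_
    refine (add_le_add (norm_sub_le _ _) le_rfl).trans ?_
    rw [norm_smul, norm_smul, Complex.norm_I, one_mul, one_mul]
    rw [sub_neg_eq_add, abs_of_pos (by linarith)] at b1
    rw [sub_zero, abs_of_pos hR] at b2 b3
    calc _ ≤ C / (1 + R^2) * (R + R) + C / (1 + R^2) * R + C / (1 + R^2) * R := by
          gcongr
      _ = _ := by ring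
  refine key2.trans ?_
  rw [div_mul_eq_mul_div, div_le_iff₀ (by positivity)]
  have : 4 * C * R⁻¹ * (1 + R^2) = C * (4 * R) + 4 * C * R⁻¹ := by
    field_simp
    ring
  rw [this]
  have : 0 ≤ 4 * C * R⁻¹ := by positivity
  linarith

/-- Cauchy's theorem for the closed lower half plane with quadratic decay. -/
theorem integral_eq_zero_of_lower (F : ℂ → ℂ) (hF : ∀ z : ℂ, z.im ≤ 0 → DifferentiableAt ℂ F z)
    (C : ℝ) (hC : ∀ z : ℂ, z.im ≤ 0 → ‖F z‖ ≤ C / (1 + ‖z‖ ^ 2)) :
    ∫ t : ℝ, F (t : ℂ) = 0 := by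
  have h := integral_eq_zero_of_upper (fun z => F (-z)) (fun z hz => by
    have h1 : DifferentiableAt ℂ F (-z) := hF (-z) (by simpa using hz)
    exact DifferentiableAt.comp (f := fun z : ℂ => -z) (g := F) z h1 (by fun_prop)) C (fun z hz => by
    have := hC (-z) (by simpa using hz)
    rwa [norm_neg] at this)
  rw [← h, ← integral_neg_eq_self (fun t : ℝ => F (t : ℂ))]
  simp

theorem bound_inv (a : ℂ) (ha : a.im < 0) : ∃ K : ℝ, 0 ≤ K ∧ ∀ z : ℂ, 0 ≤ z.im →
    z - a ≠ 0 ∧ ‖(z - a)⁻¹‖ ≤ K / (1 + ‖z‖) := by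
  refine ⟨1 / (-a.im) + 1 + ‖a‖ / (-a.im), by
    have : 0 < -a.im := by linarith
    positivity, fun z hz => ?_⟩
  have h0 : 0 < -a.im := by linarith
  have h1 : -a.im ≤ ‖z - a‖ := by
    have := Complex.abs_im_le_norm (z - a)
    rw [Complex.sub_im] at this
    have h2 := le_abs_self (z.im - a.im)
    linarith
  have hpos : 0 < ‖z - a‖ := lt_of_lt_of_le h0 h1
  have hne : z - a ≠ 0 := norm_pos_iff.mp hpos
  refine ⟨hne, ?_⟩
  rw [norm_inv, le_div_iff₀ (by positivity), inv_mul_le_iff₀ hpos]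
  have h2 : ‖z‖ ≤ ‖z - a‖ + ‖a‖ := by
    calc ‖z‖ = ‖(z - a) + a‖ := by rw [sub_add_cancel]
      _ ≤ _ := norm_add_le _ _
  have h3 : 1 ≤ ‖z - a‖ * (1 / (-a.im)) := by
    rw [mul_one_div, le_div_iff₀ h0]; linarith
  have h4 : ‖a‖ ≤ ‖z - a‖ * (‖a‖ / (-a.im)) := by
    rw [mul_div_assoc', le_div_iff₀ h0]
    nlinarith [norm_nonneg a]
  calc 1 + ‖z‖ ≤ 1 + ‖z - a‖ + ‖a‖ := by linarith
    _ ≤ ‖z - a‖ * (1 / (-a.im)) + ‖z - a‖ + ‖z - a‖ * (‖a‖ / (-a.im)) := by linarith
    _ = _ := by ring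

theorem one_add_sq_le (x : ℝ) (hx : 0 ≤ x) : 1 + x ^ 2 ≤ (1 + x) * (1 + x) := by nlinarith

theorem norm_exp_le (μ : ℝ) (hμ : 0 ≤ μ) (z : ℂ) (hz : 0 ≤ z.im) :
    ‖Complex.exp (Complex.I * μ * z)‖ ≤ 1 := by
  rw [Complex.norm_exp]
  rw [Real.exp_le_one_iff]
  have : (Complex.I * μ * z).re = - (μ * z.im) := by
    simp [Complex.mul_re]
  rw [this]
  have := mul_nonneg hμ hz
  linarith

/-- `∫ e^{iμt} / ((t-a)(t-b)) dt = 0` when `μ ≥ 0` and both poles are in the lower half plane. -/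
theorem integral_exp_two_poles_lower (μ : ℝ) (hμ : 0 ≤ μ) (a b : ℂ) (ha : a.im < 0)
    (hb : b.im < 0) :
    ∫ t : ℝ, Complex.exp (Complex.I * μ * t) * (((t : ℂ) - a)⁻¹ * ((t : ℂ) - b)⁻¹) = 0 := by
  obtain ⟨Ka, hKa, hKa'⟩ := bound_inv a ha
  obtain ⟨Kb, hKb, hKb'⟩ := bound_inv b hb
  refine integral_eq_zero_of_upper
    (fun z => Complex.exp (Complex.I * μ * z) * ((z - a)⁻¹ * (z - b)⁻¹)) ?_ (Ka * Kb) ?_
  · intro z hz
    have h1 := (hKa' z hz).1
    have h2 := (hKb' z hz).1
    fun_prop (disch := assumption)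
  · intro z hz
    have h1 := (hKa' z hz).2
    have h2 := (hKb' z hz).2
    rw [norm_mul, norm_mul]
    calc _ ≤ 1 * (Ka / (1 + ‖z‖) * (Kb / (1 + ‖z‖))) := by
          gcongr
          exact norm_exp_le μ hμ z hz
      _ = (Ka * Kb) / ((1 + ‖z‖) * (1 + ‖z‖)) := by rw [one_mul, div_mul_div_comm]
      _ ≤ _ := by
        gcongr
        exact one_add_sq_le _ (norm_nonneg _)

/-- `∫ e^{-iμt} / ((t-a)(t-b)) dt = 0` when `μ ≥ 0` and both poles are in the upper half plane. -/
theorem integral_exp_two_poles_upper (μ : ℝ) (hμ : 0 ≤ μ) (a b : ℂ) (ha : 0 < a.im)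
    (hb : 0 < b.im) :
    ∫ t : ℝ, Complex.exp (-(Complex.I * μ * t)) * (((t : ℂ) - a)⁻¹ * ((t : ℂ) - b)⁻¹) = 0 := by
  have h := integral_exp_two_poles_lower μ hμ (-a) (-b) (by simpa using ha) (by simpa using hb)
  rw [← h, ← integral_neg_eq_self (fun t : ℝ => Complex.exp (-(Complex.I * μ * t)) *
    (((t : ℂ) - a)⁻¹ * ((t : ℂ) - b)⁻¹))]
  congr 1
  funext t
  have e1 : -(Complex.I * μ * ((-t : ℝ) : ℂ)) = Complex.I * μ * t := by push_cast; ring
  have e2 : (((-t : ℝ) : ℂ) - a) = -((t : ℂ) - (-a)) := by push_cast; ring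
  have e3 : (((-t : ℝ) : ℂ) - b) = -((t : ℂ) - (-b)) := by push_cast; ring
  rw [e1, e2, e3, inv_neg, inv_neg, neg_mul_neg]

/-- For `μ ≥ 0`, `Im b > 0` and `Im a < 0` the function `(e^{iμt} - e^{iμb})/(t-b)` extends to a
function analytic and bounded by `C/(1+|z|)` in the upper half plane, hence the integral against
`1/(t-a)` vanishes. -/
theorem integral_exp_sub_two_poles (μ : ℝ) (hμ : 0 ≤ μ) (a b : ℂ) (ha : a.im < 0)
    (hb : 0 < b.im) :
    ∫ t : ℝ, (Complex.exp (Complex.I * μ * t) - Complex.exp (Complex.I * μ * b)) *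
      (((t : ℂ) - a)⁻¹ * ((t : ℂ) - b)⁻¹) = 0 := by
  obtain ⟨Ka, hKa, hKa'⟩ := bound_inv a ha
  set f : ℂ → ℂ := fun z => Complex.exp (Complex.I * μ * z) with hf
  have hfd : Differentiable ℂ f := by fun_prop
  have hgd : Differentiable ℂ (dslope f b) := by
    have := (Complex.differentiableOn_dslope (f := f) (s := univ) (c := b) univ_mem).mpr
      hfd.differentiableOn
    exact differentiableOn_univ.mp this
  obtain ⟨M, hM⟩ := (isCompact_closedBall b 1).exists_bound_of_continuousOn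
    (hgd.continuous.continuousOn)
  have hM0 : 0 ≤ M := (norm_nonneg _).trans (hM b (by simp))
  have hbound : ∀ z : ℂ, 0 ≤ z.im → ‖dslope f b z‖ ≤ ((2 + M) * (2 + ‖b‖)) / (1 + ‖z‖) := by
    intro z hz
    have hzb : ‖z‖ ≤ ‖z - b‖ + ‖b‖ := by
      calc ‖z‖ = ‖(z - b) + b‖ := by rw [sub_add_cancel]
        _ ≤ _ := norm_add_le _ _
    rw [le_div_iff₀ (by positivity)]
    by_cases h1 : ‖z - b‖ ≤ 1
    · have h2 := hM z (by rw [Metric.mem_closedBall, dist_eq_norm]; exact h1)
      calc ‖dslope f b z‖ * (1 + ‖z‖) ≤ M * (2 + ‖b‖) :=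
            mul_le_mul h2 (by linarith) (by positivity) hM0
        _ ≤ (2 + M) * (2 + ‖b‖) := by gcongr; linarith
    · push Not at h1
      have hne : z ≠ b := by
        rintro rfl
        simp at h1
        linarith
      rw [dslope_of_ne _ hne, slope_def_module, norm_smul, norm_inv]
      have h3 : ‖f z - f b‖ ≤ 2 := by
        refine (norm_sub_le _ _).trans ?_
        have := norm_exp_le μ hμ z hz
        have := norm_exp_le μ hμ b hb.le
        simp only [hf]
        linarith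
      have hpos : 0 < ‖z - b‖ := by linarith
      rw [mul_assoc, inv_mul_le_iff₀ hpos]
      calc ‖f z - f b‖ * (1 + ‖z‖) ≤ 2 * (‖z - b‖ * (2 + ‖b‖)) := by
            gcongr
            nlinarith [norm_nonneg b]
        _ = ‖z - b‖ * (2 * (2 + ‖b‖)) := by ring
        _ ≤ ‖z - b‖ * ((2 + M) * (2 + ‖b‖)) := by gcongr; linarith
  have h := integral_eq_zero_of_upper (fun z => dslope f b z * (z - a)⁻¹) (fun z hz => by
    have h1 := (hKa' z hz).1
    have h2 := hgd z
    fun_prop (disch := assumption)) (((2 + M) * (2 + ‖b‖)) * Ka) (fun z hz => by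
    have h1 := (hKa' z hz).2
    have h2 := hbound z hz
    rw [norm_mul]
    calc _ ≤ (((2 + M) * (2 + ‖b‖)) / (1 + ‖z‖)) * (Ka / (1 + ‖z‖)) := by
          gcongr
      _ = (((2 + M) * (2 + ‖b‖)) * Ka) / ((1 + ‖z‖) * (1 + ‖z‖)) := by rw [div_mul_div_comm]
      _ ≤ _ := by
        gcongr
        exact one_add_sq_le _ (norm_nonneg _))
  rw [← h]
  congr 1
  funext t
  have hne : (t : ℂ) ≠ b := by
    rintro h
    rw [← h] at hb
    simp at hb
  rw [dslope_of_ne _ hne, slope_def_module, smul_eq_mul]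
  simp only [hf]
  ring

end J1
end Pool.Agent.Helper865.TAP
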