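import Pool.Agent.Helper865.TAP.Defs


set_option autoImplicit false

open Finset

namespace Pool.Agent.Helper865.TAP
namespace J5

variable {E : Type*} [NormedAddCommGroup E] [InnerProductSpace ℂ E] [FiniteDimensional ℂ E]



theorem kh_pow (a t t0 : ℝ) (ha : 0 ≤ a) (h : t ^ 2 ≤ t0 ^ 2) (k : ℕ) :
    0 ≤ (a + t) ^ k + (a - t) ^ k ∧ 0 ≤ t * ((a + t) ^ k - (a - t) ^ k) ∧
    (a + t) ^ k + (a - t) ^ k ≤ (a + t0) ^ k + (a - t0) ^ k ∧
    t * ((a + t) ^ k - (a - t) ^ k) ≤ t0 * ((a + t0) ^ k - (a - t0) ^ k) := by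
  induction k with
  | zero => simp
  | succ k ih =>
    obtain ⟨h1, h2, h3, h4⟩ := ih
    have e1 : ∀ s : ℝ, (a + s) ^ (k + 1) + (a - s) ^ (k + 1) =
        a * ((a + s) ^ k + (a - s) ^ k) + s * ((a + s) ^ k - (a - s) ^ k) := by intro s; ring
    have e2 : ∀ s : ℝ, s * ((a + s) ^ (k + 1) - (a - s) ^ (k + 1)) =
        a * (s * ((a + s) ^ k - (a - s) ^ k)) + s ^ 2 * ((a + s) ^ k + (a - s) ^ k) := by
      intro s; ring
    rw [e1, e1, e2, e2]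
    have h5 : t ^ 2 * ((a + t) ^ k + (a - t) ^ k) ≤ t0 ^ 2 * ((a + t0) ^ k + (a - t0) ^ k) :=
      mul_le_mul h h3 h1 (sq_nonneg _)
    refine ⟨by positivity, by positivity, ?_, ?_⟩
    · have := mul_le_mul_of_nonneg_left h3 ha; linarith
    · have := mul_le_mul_of_nonneg_left h4 ha; linarith

theorem kh_cosh (u v : E) :
    Real.cosh ‖u + v‖ + Real.cosh ‖u - v‖ ≤ 2 * (Real.cosh ‖u‖ * Real.cosh ‖v‖) := by
  have e0 : 2 * (Real.cosh ‖u‖ * Real.cosh ‖v‖) =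
      Real.cosh (‖u‖ + ‖v‖) + Real.cosh (‖u‖ - ‖v‖) := by
    rw [Real.cosh_add, Real.cosh_sub]; ring
  rw [e0]
  refine hasSum_le ?_ ((Real.hasSum_cosh _).add (Real.hasSum_cosh _))
    ((Real.hasSum_cosh _).add (Real.hasSum_cosh _))
  intro k
  rw [← add_div, ← add_div, pow_mul, pow_mul, pow_mul, pow_mul]
  have e1 : ‖u + v‖ ^ 2 = (‖u‖ ^ 2 + ‖v‖ ^ 2) + 2 * RCLike.re (inner ℂ u v) := by
    rw [@norm_add_sq ℂ]; ring
  have e2 : ‖u - v‖ ^ 2 = (‖u‖ ^ 2 + ‖v‖ ^ 2) - 2 * RCLike.re (inner ℂ u v) := by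
    rw [@norm_sub_sq ℂ]; ring
  have e3 : (‖u‖ + ‖v‖) ^ 2 = (‖u‖ ^ 2 + ‖v‖ ^ 2) + 2 * (‖u‖ * ‖v‖) := by ring
  have e4 : (‖u‖ - ‖v‖) ^ 2 = (‖u‖ ^ 2 + ‖v‖ ^ 2) - 2 * (‖u‖ * ‖v‖) := by ring
  rw [e1, e2, e3, e4]
  refine div_le_div_of_nonneg_right ?_ (by positivity)
  refine (kh_pow _ _ _ (by positivity) ?_ k).2.2.1
  have h1 : |RCLike.re (inner ℂ u v)| ≤ ‖u‖ * ‖v‖ := (RCLike.abs_re_le_norm _).trans (norm_inner_le_norm u v)
  rw [mul_pow, mul_pow 2 (‖u‖ * ‖v‖)]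
  refine mul_le_mul_of_nonneg_left ?_ (by positivity)
  rw [← sq_abs]
  exact pow_le_pow_left₀ (abs_nonneg _) h1 2

theorem kh_split (N : ℕ) (f : (Fin (N + 1) → Bool) → ℝ) :
    ∑ e : Fin (N + 1) → Bool, f e =
      ∑ e : Fin N → Bool, f (Fin.cons true e) + ∑ e : Fin N → Bool, f (Fin.cons false e) := by
  rw [← (Fin.consEquiv (fun _ : Fin (N + 1) => Bool)).sum_comp, Fintype.sum_prod_type,
    Fintype.sum_bool]
  rfl

theorem kh_exp (N : ℕ) : ∀ (x : Fin N → E) (u : E),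
    ∑ e : Fin N → Bool, Real.cosh ‖u + ∑ j, (sg (e j) : ℂ) • x j‖ ≤
      2 ^ N * (Real.cosh ‖u‖ * Real.exp ((∑ j, ‖x j‖ ^ 2) / 2)) := by
  induction N with
  | zero => intro x u; simp
  | succ N ih =>
    intro x u
    rw [kh_split]
    have e1 : ∀ e : Fin N → Bool, u + ∑ j, (sg ((Fin.cons true e : Fin (N + 1) → Bool) j) : ℂ) • x j =
        (u + x 0) + ∑ j, (sg (e j) : ℂ) • x j.succ := by
      intro e; rw [Fin.sum_univ_succ]; simp [sg, add_assoc]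
    have e2 : ∀ e : Fin N → Bool, u + ∑ j, (sg ((Fin.cons false e : Fin (N + 1) → Bool) j) : ℂ) • x j =
        (u - x 0) + ∑ j, (sg (e j) : ℂ) • x j.succ := by
      intro e; rw [Fin.sum_univ_succ]; simp [sg]; abel
    simp only [e1, e2]
    have h1 := ih (fun j => x j.succ) (u + x 0)
    have h2 := ih (fun j => x j.succ) (u - x 0)
    rw [Fin.sum_univ_succ]
    have h3 := kh_cosh u (x 0)
    have h4 := Real.cosh_le_exp_half_sq ‖x 0‖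
    have h5 : Real.exp ((‖x 0‖ ^ 2 + ∑ j : Fin N, ‖x j.succ‖ ^ 2) / 2) =
        Real.exp (‖x 0‖ ^ 2 / 2) * Real.exp ((∑ j : Fin N, ‖x j.succ‖ ^ 2) / 2) := by
      rw [← Real.exp_add]; congr 1; ring
    rw [h5]
    set X := Real.exp ((∑ j : Fin N, ‖x j.succ‖ ^ 2) / 2)
    have hX : 0 ≤ X := (Real.exp_pos _).le
    have hP : (0 : ℝ) ≤ 2 ^ N := by positivity
    have hu : 0 ≤ Real.cosh ‖u‖ := (Real.cosh_pos _).le
    have h6 : Real.cosh ‖u + x 0‖ + Real.cosh ‖u - x 0‖ ≤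
        2 * (Real.cosh ‖u‖ * Real.exp (‖x 0‖ ^ 2 / 2)) :=
      h3.trans (by
        have := mul_le_mul_of_nonneg_left h4 hu
        linarith)
    have h7 := mul_le_mul_of_nonneg_left h6 (mul_nonneg hP hX)
    calc _ ≤ 2 ^ N * (Real.cosh ‖u + x 0‖ * X) + 2 ^ N * (Real.cosh ‖u - x 0‖ * X) := add_le_add h1 h2
      _ = 2 ^ N * X * (Real.cosh ‖u + x 0‖ + Real.cosh ‖u - x 0‖) := by ring
      _ ≤ _ := h7
      _ = _ := by ring

theorem kh_sq (N : ℕ) : ∀ (x : Fin N → E) (u : E),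
    ∑ e : Fin N → Bool, ‖u + ∑ j, (sg (e j) : ℂ) • x j‖ ^ 2 =
      2 ^ N * (‖u‖ ^ 2 + ∑ j, ‖x j‖ ^ 2) := by
  induction N with
  | zero => intro x u; simp
  | succ N ih =>
    intro x u
    rw [kh_split]
    have e1 : ∀ e : Fin N → Bool, u + ∑ j, (sg ((Fin.cons true e : Fin (N + 1) → Bool) j) : ℂ) • x j =
        (u + x 0) + ∑ j, (sg (e j) : ℂ) • x j.succ := by
      intro e; rw [Fin.sum_univ_succ]; simp [sg, add_assoc]
    have e2 : ∀ e : Fin N → Bool, u + ∑ j, (sg ((Fin.cons false e : Fin (N + 1) → Bool) j) : ℂ) • x j =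
        (u - x 0) + ∑ j, (sg (e j) : ℂ) • x j.succ := by
      intro e; rw [Fin.sum_univ_succ]; simp [sg]; abel
    simp only [e1, e2]
    rw [ih (fun j => x j.succ) (u + x 0), ih (fun j => x j.succ) (u - x 0), Fin.sum_univ_succ]
    have h := parallelogram_law_with_norm ℂ u (x 0)
    have h' : ‖u + x 0‖ ^ 2 + ‖u - x 0‖ ^ 2 = 2 * (‖u‖ ^ 2 + ‖x 0‖ ^ 2) := h
    have h3 : ‖u + x 0‖ ^ 2 = 2 * (‖u‖ ^ 2 + ‖x 0‖ ^ 2) - ‖u - x 0‖ ^ 2 := by linarith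
    rw [h3]; ring

/-- normalised version -/
theorem kh_norm (p : ℝ) (hp : 1 ≤ p) : ∃ c C : ℝ, 0 < c ∧ 0 < C ∧
    ∀ (N : ℕ) (x : Fin N → E), ∑ j, ‖x j‖ ^ 2 = 1 →
      c ≤ (2 ^ N : ℝ)⁻¹ * ∑ e : Fin N → Bool, ‖∑ j, (sg (e j) : ℂ) • x j‖ ^ p ∧
      (2 ^ N : ℝ)⁻¹ * ∑ e : Fin N → Bool, ‖∑ j, (sg (e j) : ℂ) • x j‖ ^ p ≤ C := by
  obtain ⟨k, hk⟩ := exists_nat_ge p
  have hpos : ∀ n : ℕ, ∀ y : ℝ, y ^ (2 * n) ≤ (Nat.factorial (2 * n) : ℝ) * Real.cosh y := by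
    intro n y
    have h1 : y ^ (2 * n) / ((2 * n).factorial : ℝ) ≤ Real.cosh y :=
      le_hasSum (Real.hasSum_cosh y) n (fun m _ => by rw [pow_mul]; positivity)
    rw [div_le_iff₀ (by positivity)] at h1
    linarith
  obtain ⟨Q, hQ⟩ : ∃ Q : ℝ, Q = Real.exp (1 / 2) := ⟨_, rfl⟩
  have hQ0 : 0 < Q := by rw [hQ]; exact Real.exp_pos _
  obtain ⟨l, hl0, hl⟩ : ∃ l : ℝ, 0 < l ∧ l ^ 2 = 48 * Q :=
    ⟨Real.sqrt (48 * Q), Real.sqrt_pos.2 (by positivity), Real.sq_sqrt (by positivity)⟩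
  refine ⟨(1 / (2 * l)) ^ p, (1 + Nat.factorial (2 * k)) * Q, by positivity, by positivity, ?_⟩
  intro N x hx
  have hexp : (2 ^ N : ℝ)⁻¹ * ∑ e : Fin N → Bool, Real.cosh ‖∑ j, (sg (e j) : ℂ) • x j‖ ≤ Q := by
    have h := kh_exp N x 0
    simp only [zero_add, norm_zero, Real.cosh_zero, one_mul, hx] at h
    rw [inv_mul_le_iff₀ (by positivity), hQ]
    exact h
  have hsq : (2 ^ N : ℝ)⁻¹ * ∑ e : Fin N → Bool, ‖∑ j, (sg (e j) : ℂ) • x j‖ ^ 2 = 1 := by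
    have h := kh_sq N x 0
    simp only [zero_add, norm_zero, hx] at h
    rw [h]; norm_num
  constructor
  · -- lower bound
    have h4 : (2 ^ N : ℝ)⁻¹ * ∑ e : Fin N → Bool, ‖∑ j, (sg (e j) : ℂ) • x j‖ ^ 4 ≤ 24 * Q := by
      calc (2 ^ N : ℝ)⁻¹ * ∑ e : Fin N → Bool, ‖∑ j, (sg (e j) : ℂ) • x j‖ ^ 4
          ≤ (2 ^ N : ℝ)⁻¹ * ∑ e : Fin N → Bool, 24 * Real.cosh ‖∑ j, (sg (e j) : ℂ) • x j‖ := by
            refine mul_le_mul_of_nonneg_left (sum_le_sum fun e _ => ?_) (by positivity)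
            have := hpos 2 ‖∑ j, (sg (e j) : ℂ) • x j‖
            norm_num [Nat.factorial] at this
            exact this
        _ = 24 * ((2 ^ N : ℝ)⁻¹ * ∑ e : Fin N → Bool, Real.cosh ‖∑ j, (sg (e j) : ℂ) • x j‖) := by
            rw [← mul_sum]; ring
        _ ≤ 24 * Q := by linarith
    have hpt : ∀ y : ℝ, 0 ≤ y → y ^ 2 ≤ l * y + (1 / l ^ 2) * y ^ 4 := by
      intro y hy
      rcases le_total y l with h | h
      · have : 0 ≤ (1 / l ^ 2) * y ^ 4 := by positivity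
        nlinarith
      · have h1 : (1 : ℝ) ≤ (1 / l ^ 2) * y ^ 2 := by
          rw [one_div, ← div_eq_inv_mul, one_le_div (by positivity)]
          exact pow_le_pow_left₀ hl0.le h 2
        have h2 := mul_le_mul_of_nonneg_right h1 (sq_nonneg y)
        have h3 : 0 ≤ l * y := by positivity
        nlinarith
    have h1 : (1 : ℝ) ≤ l * ((2 ^ N : ℝ)⁻¹ * ∑ e : Fin N → Bool, ‖∑ j, (sg (e j) : ℂ) • x j‖) + 1 / 2 := by
      calc (1 : ℝ) = (2 ^ N : ℝ)⁻¹ * ∑ e : Fin N → Bool, ‖∑ j, (sg (e j) : ℂ) • x j‖ ^ 2 := hsq.symm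
        _ ≤ (2 ^ N : ℝ)⁻¹ * ∑ e : Fin N → Bool, (l * ‖∑ j, (sg (e j) : ℂ) • x j‖ +
              (1 / l ^ 2) * ‖∑ j, (sg (e j) : ℂ) • x j‖ ^ 4) :=
            mul_le_mul_of_nonneg_left (sum_le_sum fun e _ => hpt _ (norm_nonneg _)) (by positivity)
        _ = l * ((2 ^ N : ℝ)⁻¹ * ∑ e : Fin N → Bool, ‖∑ j, (sg (e j) : ℂ) • x j‖) +
              (1 / l ^ 2) * ((2 ^ N : ℝ)⁻¹ * ∑ e : Fin N → Bool, ‖∑ j, (sg (e j) : ℂ) • x j‖ ^ 4) := by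
            rw [sum_add_distrib, ← mul_sum, ← mul_sum]; ring
        _ ≤ l * ((2 ^ N : ℝ)⁻¹ * ∑ e : Fin N → Bool, ‖∑ j, (sg (e j) : ℂ) • x j‖) +
              (1 / l ^ 2) * (24 * Q) := by
            have := mul_le_mul_of_nonneg_left h4 (by positivity : (0:ℝ) ≤ 1 / l ^ 2)
            linarith
        _ = _ := by
            rw [hl]; congr 1; field_simp; norm_num
    have h2 : 1 / (2 * l) ≤ (2 ^ N : ℝ)⁻¹ * ∑ e : Fin N → Bool, ‖∑ j, (sg (e j) : ℂ) • x j‖ := by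
      rw [div_le_iff₀ (by positivity)]
      linarith
    calc (1 / (2 * l)) ^ p ≤ ((2 ^ N : ℝ)⁻¹ * ∑ e : Fin N → Bool, ‖∑ j, (sg (e j) : ℂ) • x j‖) ^ p :=
          Real.rpow_le_rpow (by positivity) h2 (by linarith)
      _ = (∑ e : Fin N → Bool, (2 ^ N : ℝ)⁻¹ * ‖∑ j, (sg (e j) : ℂ) • x j‖) ^ p := by rw [mul_sum]
      _ ≤ ∑ e : Fin N → Bool, (2 ^ N : ℝ)⁻¹ * ‖∑ j, (sg (e j) : ℂ) • x j‖ ^ p := by
          refine Real.rpow_arith_mean_le_arith_mean_rpow univ _ _ (fun _ _ => by positivity) ?_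
            (fun _ _ => norm_nonneg _) hp
          rw [sum_const, card_univ]
          simp
      _ = _ := by rw [mul_sum]
  · -- upper bound
    have hpt : ∀ y : ℝ, 0 ≤ y → y ^ p ≤ (1 + Nat.factorial (2 * k)) * Real.cosh y := by
      intro y hy
      have h1 := hpos k y
      have h2 := Real.one_le_cosh y
      rcases le_total y 1 with h | h
      · have h3 : y ^ p ≤ 1 := Real.rpow_le_one hy h (by linarith)
        have h4 : 0 ≤ (Nat.factorial (2 * k) : ℝ) * Real.cosh y := by positivity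
        nlinarith
      · have h3 : y ^ p ≤ y ^ ((2 * k : ℕ) : ℝ) := by
          refine Real.rpow_le_rpow_of_exponent_le h ?_
          push_cast; linarith
        rw [Real.rpow_natCast] at h3
        nlinarith
    calc (2 ^ N : ℝ)⁻¹ * ∑ e : Fin N → Bool, ‖∑ j, (sg (e j) : ℂ) • x j‖ ^ p
        ≤ (2 ^ N : ℝ)⁻¹ * ∑ e : Fin N → Bool, (1 + Nat.factorial (2 * k)) *
            Real.cosh ‖∑ j, (sg (e j) : ℂ) • x j‖ :=
          mul_le_mul_of_nonneg_left (sum_le_sum fun e _ => hpt _ (norm_nonneg _)) (by positivity)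
      _ = (1 + Nat.factorial (2 * k)) * ((2 ^ N : ℝ)⁻¹ * ∑ e : Fin N → Bool,
            Real.cosh ‖∑ j, (sg (e j) : ℂ) • x j‖) := by rw [← mul_sum]; ring
      _ ≤ _ := mul_le_mul_of_nonneg_left hexp (by positivity)

/-- Khinchine's inequality with values in a finite-dimensional inner product space
(constants may depend on the space). -/
theorem khinchine (p : ℝ) (hp : 1 ≤ p) : ∃ c C : ℝ, 0 < c ∧ 0 < C ∧
    ∀ (N : ℕ) (x : Fin N → E),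
      c * (∑ j, ‖x j‖ ^ 2) ^ (p / 2)
          ≤ (2 ^ N : ℝ)⁻¹ * ∑ e : Fin N → Bool, ‖∑ j, (sg (e j) : ℂ) • x j‖ ^ p ∧
      (2 ^ N : ℝ)⁻¹ * ∑ e : Fin N → Bool, ‖∑ j, (sg (e j) : ℂ) • x j‖ ^ p
          ≤ C * (∑ j, ‖x j‖ ^ 2) ^ (p / 2) := by
  obtain ⟨c, C, hc, hC, h⟩ := kh_norm (E := E) p hp
  refine ⟨c, C, hc, hC, ?_⟩
  intro N x
  have hA0 : 0 ≤ ∑ j, ‖x j‖ ^ 2 := sum_nonneg fun _ _ => by positivity
  rcases hA0.eq_or_lt with hA | hA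
  · have hx : ∀ j, x j = 0 := by
      intro j
      have := (sum_eq_zero_iff_of_nonneg (fun i _ => sq_nonneg ‖x i‖)).1 hA.symm j (mem_univ j)
      simpa using this
    rw [← hA, Real.zero_rpow (by positivity)]
    simp [hx, Real.zero_rpow (show p ≠ 0 by linarith)]
  · obtain ⟨r, hr⟩ : ∃ r : ℝ, r = Real.sqrt (∑ j, ‖x j‖ ^ 2) := ⟨_, rfl⟩
    have hr0 : 0 < r := by rw [hr]; exact Real.sqrt_pos.2 hA
    have hr2 : r ^ 2 = ∑ j, ‖x j‖ ^ 2 := by rw [hr]; exact Real.sq_sqrt hA0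
    have hn := h N (fun j => ((r⁻¹ : ℝ) : ℂ) • x j) (by
      simp only [norm_smul, mul_pow, ← mul_sum, ← hr2]
      rw [Complex.norm_real, Real.norm_eq_abs, abs_of_pos (by positivity)]
      field_simp)
    have e1 : ∀ e : Fin N → Bool, ‖∑ j, (sg (e j) : ℂ) • (((r⁻¹ : ℝ) : ℂ) • x j)‖ ^ p =
        (r ^ p)⁻¹ * ‖∑ j, (sg (e j) : ℂ) • x j‖ ^ p := by
      intro e
      have : ∑ j, (sg (e j) : ℂ) • (((r⁻¹ : ℝ) : ℂ) • x j) =
          ((r⁻¹ : ℝ) : ℂ) • ∑ j, (sg (e j) : ℂ) • x j := by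
        rw [smul_sum]
        exact sum_congr rfl fun j _ => smul_comm _ _ _
      rw [this, norm_smul, Complex.norm_real, Real.norm_eq_abs, abs_of_pos (by positivity),
        Real.mul_rpow (by positivity) (norm_nonneg _), Real.inv_rpow hr0.le]
    simp only [e1, ← mul_sum] at hn
    have e2 : (∑ j, ‖x j‖ ^ 2) ^ (p / 2) = r ^ p := by
      rw [← hr2, ← Real.rpow_natCast, ← Real.rpow_mul hr0.le]
      congr 1; push_cast; ring
    rw [e2]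
    have hrp : 0 < r ^ p := by positivity
    have e3 : (2 ^ N : ℝ)⁻¹ * ((r ^ p)⁻¹ * ∑ e : Fin N → Bool, ‖∑ j, (sg (e j) : ℂ) • x j‖ ^ p) =
        ((2 ^ N : ℝ)⁻¹ * ∑ e : Fin N → Bool, ‖∑ j, (sg (e j) : ℂ) • x j‖ ^ p) / r ^ p := by
      rw [div_eq_mul_inv]; ring
    rw [e3, le_div_iff₀ hrp, div_le_iff₀ hrp] at hn
    exact hn

end J5
end Pool.Agent.Helper865.TAP
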