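import Pool.Agent.Helper865.TAP.Defs


set_option autoImplicit false

open MeasureTheory Filter Topology Set
open scoped ENNReal NNReal

namespace Pool.Agent.Helper865.TAP
namespace J6

variable {E : Type*} [NormedAddCommGroup E] [InnerProductSpace ℂ E] [FiniteDimensional ℂ E]

/-- Converse Hoelder inequality: it is enough to test with bounded functions of bounded support. -/
theorem eLpNorm_le_of_pairing {p q : ℝ} (hp : 1 < p) (hpq : p.HolderConjugate q)
    (u : ℝ → E) (hu : LocallyIntegrable u volume) (C : ℝ) (hC : 0 ≤ C)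
    (h : ∀ g : ℝ → E, AEStronglyMeasurable g volume → (∃ B : ℝ, ∀ t, ‖g t‖ ≤ B) →
      (∃ R : ℝ, ∀ t, R < |t| → g t = 0) →
      ‖∫ t, inner ℂ (g t) (u t)‖ ≤ C * (eLpNorm g (ENNReal.ofReal q) volume).toReal) :
    eLpNorm u (ENNReal.ofReal p) volume ≤ ENNReal.ofReal C := by
  obtain ⟨v, hv, huv⟩ := hu.aestronglyMeasurable
  have hp0 : 0 < p := by linarith
  have hq0 : 0 < q := hpq.symm.pos
  have hpqe : (p - 1) * q = p := hpq.sub_one_mul_conj
  have hinv : p⁻¹ + q⁻¹ = 1 := hpq.inv_add_inv_eq_one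
  rw [eLpNorm_congr_ae huv]
  set A : ℕ → Set ℝ := fun n => {t | |t| ≤ n ∧ ‖v t‖ ≤ n} with hA
  have hAm : ∀ n, MeasurableSet (A n) := fun n =>
    (measurableSet_le continuous_abs.measurable measurable_const).inter
      (measurableSet_le hv.norm.measurable measurable_const)
  have hAmono : Monotone A := by
    intro m n hmn t ht
    have : (m : ℝ) ≤ n := by exact_mod_cast hmn
    exact ⟨ht.1.trans this, ht.2.trans this⟩
  have hAun : ⋃ n, A n = Set.univ := by
    rw [Set.eq_univ_iff_forall]
    intro t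
    obtain ⟨n, hn⟩ := exists_nat_ge (max |t| ‖v t‖)
    exact Set.mem_iUnion.mpr ⟨n, (le_max_left _ _).trans hn, (le_max_right _ _).trans hn⟩
  -- main estimate for fixed n
  have hmain : ∀ n : ℕ, ∫⁻ t in A n, ‖v t‖ₑ ^ p ≤ (ENNReal.ofReal C) ^ p := by
    intro n
    set J : ℝ≥0∞ := ∫⁻ t in A n, ‖v t‖ₑ ^ p with hJ
    have hAvol : volume (A n) < ∞ := by
      refine lt_of_le_of_lt (measure_mono (?_ : A n ⊆ Set.Icc (-(n : ℝ)) n)) ?_
      · intro t ht
        exact abs_le.mp ht.1
      · rw [Real.volume_Icc]; exact ENNReal.ofReal_lt_top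
    have hJfin : J ≠ ∞ := by
      have h1 : J ≤ ∫⁻ t in A n, (ENNReal.ofReal n) ^ p := by
        refine setLIntegral_mono' (hAm n) fun t ht => ?_
        refine ENNReal.rpow_le_rpow ?_ hp0.le
        rw [← ofReal_norm_eq_enorm]
        exact ENNReal.ofReal_le_ofReal ht.2
      refine ne_of_lt (lt_of_le_of_lt h1 ?_)
      rw [setLIntegral_const]
      exact ENNReal.mul_lt_top (ENNReal.rpow_lt_top_of_nonneg hp0.le ENNReal.ofReal_ne_top) hAvol
    set g : ℝ → E := (A n).indicator (fun t => ((‖v t‖ ^ (p - 2) : ℝ) : ℂ) • v t) with hg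
    have hgm : StronglyMeasurable g := by
      refine StronglyMeasurable.indicator ?_ (hAm n)
      have h1 : Measurable (fun t => ((‖v t‖ ^ (p - 2) : ℝ) : ℂ)) :=
        Complex.measurable_ofReal.comp (hv.norm.measurable.pow_const _)
      exact h1.stronglyMeasurable.smul hv
    have hvn : ∀ t, ‖((‖v t‖ ^ (p - 2) : ℝ) : ℂ) • v t‖ = ‖v t‖ ^ (p - 1) := by
      intro t
      rw [norm_smul, Complex.norm_real, Real.norm_of_nonneg (by positivity)]
      rcases eq_or_ne (v t) 0 with h0 | h0
      · rw [h0, norm_zero, mul_zero, Real.zero_rpow (by linarith)]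
      · have h1 : 0 < ‖v t‖ := norm_pos_iff.mpr h0
        have h2 : p - 1 = (p - 2) + 1 := by ring
        rw [h2, Real.rpow_add h1, Real.rpow_one]
    have hgnorm : ∀ t, ‖g t‖ = (A n).indicator (fun t => ‖v t‖ ^ (p - 1)) t := by
      intro t
      by_cases ht : t ∈ A n
      · rw [hg, Set.indicator_of_mem ht, Set.indicator_of_mem ht, hvn]
      · rw [hg, Set.indicator_of_notMem ht, Set.indicator_of_notMem ht, norm_zero]
    have hmainineq := h g hgm.aestronglyMeasurable ⟨(n : ℝ) ^ (p - 1), fun t => by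
        rw [hgnorm]
        by_cases ht : t ∈ A n
        · rw [Set.indicator_of_mem ht]
          exact Real.rpow_le_rpow (norm_nonneg _) ht.2 (by linarith)
        · rw [Set.indicator_of_notMem ht]; positivity⟩
      ⟨n, fun t ht => by
        rw [hg]
        exact Set.indicator_of_notMem (fun h' => absurd h'.1 (not_le.mpr ht)) _⟩
    -- left hand side
    have hleft : ‖∫ t, inner ℂ (g t) (u t)‖ = J.toReal := by
      have h1 : ∫ t, inner ℂ (g t) (u t) = ∫ t, (((A n).indicator (fun t => ‖v t‖ ^ p) t : ℝ) : ℂ) := by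
        refine integral_congr_ae ?_
        filter_upwards [huv] with t ht
        rw [ht]
        by_cases htA : t ∈ A n
        · rw [hg, Set.indicator_of_mem htA, Set.indicator_of_mem htA, inner_smul_left,
            inner_self_eq_norm_sq_to_K, Complex.conj_ofReal]
          have h2 : ‖v t‖ ^ (p - 2) * ‖v t‖ ^ 2 = ‖v t‖ ^ p := by
            rcases eq_or_ne (v t) 0 with h0 | h0
            · rw [h0, norm_zero, Real.zero_rpow hp0.ne']; simp
            · have h1 : 0 < ‖v t‖ := norm_pos_iff.mpr h0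
              rw [← Real.rpow_natCast, ← Real.rpow_add h1]; congr 1; push_cast; ring
          rw [← h2]; push_cast; rfl
        · rw [hg, Set.indicator_of_notMem htA, Set.indicator_of_notMem htA, inner_zero_left]; simp
      rw [h1, integral_complex_ofReal, Complex.norm_real, integral_indicator (hAm n),
        integral_eq_lintegral_of_nonneg_ae (Filter.Eventually.of_forall fun t => by positivity)
          ((hv.norm.measurable.pow_const _).aestronglyMeasurable),
        Real.norm_of_nonneg ENNReal.toReal_nonneg, hJ]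
      congr 1
      refine lintegral_congr fun t => ?_
      rw [← ofReal_norm_eq_enorm, ENNReal.ofReal_rpow_of_nonneg (norm_nonneg _) hp0.le]
    have hright : eLpNorm g (ENNReal.ofReal q) volume = J ^ (1 / q) := by
      rw [eLpNorm_eq_lintegral_rpow_enorm_toReal (by simpa using hq0) ENNReal.ofReal_ne_top,
        ENNReal.toReal_ofReal hq0.le, hJ, ← lintegral_indicator (hAm n)]
      congr 1
      refine lintegral_congr fun t => ?_
      rw [← ofReal_norm_eq_enorm, hgnorm]
      by_cases ht : t ∈ A n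
      · rw [Set.indicator_of_mem ht, Set.indicator_of_mem ht,
          ENNReal.ofReal_rpow_of_nonneg (by positivity) hq0.le, ← Real.rpow_mul (norm_nonneg _), hpqe,
          ← ofReal_norm_eq_enorm, ENNReal.ofReal_rpow_of_nonneg (norm_nonneg _) hp0.le]
      · rw [Set.indicator_of_notMem ht, Set.indicator_of_notMem ht, ENNReal.ofReal_zero,
          ENNReal.zero_rpow_of_pos hq0]
    rw [hleft, hright, ← ENNReal.toReal_rpow] at hmainineq
    set a : ℝ := J.toReal with ha
    have ha0 : 0 ≤ a := ENNReal.toReal_nonneg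
    have hfin : a ≤ C ^ p := by
      rcases ha0.eq_or_lt with h0 | h0
      · rw [← h0]; positivity
      · have h1 : a ^ (p⁻¹) ≤ C := by
          have h2 : a = a ^ (p⁻¹) * a ^ (1 / q) := by
            rw [← Real.rpow_add h0, one_div, hinv, Real.rpow_one]
          have h3 : 0 < a ^ (1 / q) := Real.rpow_pos_of_pos h0 _
          refine le_of_mul_le_mul_right ?_ h3
          rw [← h2]; exact hmainineq
        calc a = (a ^ (p⁻¹)) ^ p := by
              rw [← Real.rpow_mul ha0, inv_mul_cancel₀ hp0.ne', Real.rpow_one]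
          _ ≤ C ^ p := Real.rpow_le_rpow (by positivity) h1 hp0.le
    rw [← ENNReal.ofReal_toReal hJfin, ENNReal.ofReal_rpow_of_nonneg hC hp0.le]
    exact ENNReal.ofReal_le_ofReal hfin
  have htot : ∫⁻ t, ‖v t‖ₑ ^ p ≤ (ENNReal.ofReal C) ^ p := by
    have h1 : ∫⁻ t, ‖v t‖ₑ ^ p = ⨆ n, ∫⁻ t in A n, ‖v t‖ₑ ^ p := by
      rw [← setLIntegral_iUnion_of_directed _ (hAmono.directed_le), hAun, Measure.restrict_univ]
    rw [h1]
    exact iSup_le hmain
  rw [eLpNorm_eq_lintegral_rpow_enorm_toReal (by simpa using hp0) ENNReal.ofReal_ne_top,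
    ENNReal.toReal_ofReal hp0.le]
  calc (∫⁻ t, ‖v t‖ₑ ^ p) ^ (1 / p) ≤ ((ENNReal.ofReal C) ^ p) ^ (1 / p) :=
        ENNReal.rpow_le_rpow htot (by positivity)
    _ = ENNReal.ofReal C := by
        rw [← ENNReal.rpow_mul, mul_one_div_cancel hp0.ne', ENNReal.rpow_one]

end J6
end Pool.Agent.Helper865.TAP
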