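import Pool.Agent.Helper865.TAP.Defs


set_option autoImplicit false

open MeasureTheory Filter Topology Set Metric
open scoped ENNReal NNReal BoundedContinuousFunction

namespace Pool.Agent.Helper865.TAP
namespace S3



theorem rz_Hm_congr {p : ℝ≥0∞} {u v : ℝ → ℂ} (h : u =ᵐ[volume] v) (hu : Hm p u) : Hm p v := by
  refine ⟨(memLp_congr_ae h).1 hu.1, fun a ha => ?_⟩
  rw [← hu.2 a ha]
  apply integral_congr_ae
  filter_upwards [h] with t ht
  rw [ht]

theorem rz_Hp_congr {p : ℝ≥0∞} {u v : ℝ → ℂ} (h : u =ᵐ[volume] v) (hu : Hp p u) : Hp p v := by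
  refine ⟨(memLp_congr_ae h).1 hu.1, fun a ha => ?_⟩
  rw [← hu.2 a ha]
  apply integral_congr_ae
  filter_upwards [h] with t ht
  rw [ht]

/-- Existence of the Riesz projection as an operator, from the function-level decomposition. -/
theorem exists_riesz_aux {p : ℝ≥0∞} [Fact (1 ≤ p)] (h1 : 1 < p) (h2 : p ≠ ⊤)
    (Hmi Hpl : Submodule ℂ (Lp ℂ p (volume : Measure ℝ)))
    (hmi : ∀ f : Lp ℂ p (volume : Measure ℝ), f ∈ Hmi ↔ Hm p (f : ℝ → ℂ))
    (hpl : ∀ f : Lp ℂ p (volume : Measure ℝ), f ∈ Hpl ↔ Hp p (f : ℝ → ℂ))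
    {C : ℝ} (hC : 0 < C)
    (hriesz : ∀ f : ℝ → ℂ, MemLp f p volume → ∃ u v : ℝ → ℂ,
      Hm p u ∧ Hp p v ∧ (∀ t, f t = u t + v t) ∧
      eLpNorm u p volume ≤ ENNReal.ofReal C * eLpNorm f p volume ∧
      eLpNorm v p volume ≤ ENNReal.ofReal (1 + C) * eLpNorm f p volume)
    (huniq : ∀ f : ℝ → ℂ, Hm p f → Hp p f → f =ᵐ[volume] 0) :
    ∃ P : Lp ℂ p (volume : Measure ℝ) →L[ℂ] Hmi,
      (∀ f : Hmi, P f = f) ∧ (∀ f ∈ Hpl, P f = 0) ∧
      ∀ f : Lp ℂ p (volume : Measure ℝ), f - P f ∈ Hpl := by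
  have key : ∀ f : Lp ℂ p (volume : Measure ℝ), ∃ U : Lp ℂ p (volume : Measure ℝ),
      U ∈ Hmi ∧ f - U ∈ Hpl ∧ ‖U‖ ≤ C * ‖f‖ := by
    intro f
    obtain ⟨u, v, hu, hv, hs, hb, -⟩ := hriesz f (Lp.memLp f)
    refine ⟨hu.1.toLp u, ?_, ?_, ?_⟩
    · rw [hmi]
      exact rz_Hm_congr hu.1.coeFn_toLp.symm hu
    · rw [hpl]
      refine rz_Hp_congr ?_ hv
      filter_upwards [Lp.coeFn_sub f (hu.1.toLp u), hu.1.coeFn_toLp] with t h3 h4
      rw [h3, Pi.sub_apply, h4, hs t]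
      ring
    · rw [Lp.norm_toLp, Lp.norm_def]
      have h3 := ENNReal.toReal_mono (ENNReal.mul_ne_top ENNReal.ofReal_ne_top
        (Lp.memLp f).2.ne) hb
      rwa [ENNReal.toReal_mul, ENNReal.toReal_ofReal hC.le] at h3
  choose U hU1 hU2 hU3 using key
  have uniq : ∀ g : Lp ℂ p (volume : Measure ℝ), g ∈ Hmi → g ∈ Hpl → g = 0 := by
    intro g h3 h4
    rw [hmi] at h3
    rw [hpl] at h4
    exact Lp.eq_zero_iff_ae_eq_zero.2 (huniq g h3 h4)
  have hadd : ∀ f g, U (f + g) = U f + U g := by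
    intro f g
    rw [← sub_eq_zero]
    apply uniq
    · exact sub_mem (hU1 _) (add_mem (hU1 _) (hU1 _))
    · have h3 : U (f + g) - (U f + U g) = ((f - U f) + (g - U g)) - ((f + g) - U (f + g)) := by
        abel
      rw [h3]
      exact sub_mem (add_mem (hU2 _) (hU2 _)) (hU2 _)
  have hsmul : ∀ (c : ℂ) f, U (c • f) = c • U f := by
    intro c f
    rw [← sub_eq_zero]
    apply uniq
    · exact sub_mem (hU1 _) (Submodule.smul_mem _ _ (hU1 _))
    · have h3 : U (c • f) - c • U f = c • (f - U f) - (c • f - U (c • f)) := by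
        rw [smul_sub]; abel
      rw [h3]
      exact sub_mem (Submodule.smul_mem _ _ (hU2 _)) (hU2 _)
  let L : Lp ℂ p (volume : Measure ℝ) →ₗ[ℂ] Hmi :=
    { toFun := fun f => ⟨U f, hU1 f⟩
      map_add' := fun f g => Subtype.ext (hadd f g)
      map_smul' := fun c f => Subtype.ext (hsmul c f) }
  refine ⟨L.mkContinuous C (fun f => hU3 f), ?_, ?_, ?_⟩
  · intro f
    apply Subtype.ext
    show U f = f
    rw [← sub_eq_zero]
    apply uniq
    · exact sub_mem (hU1 _) f.2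
    · have h3 : U (f : Lp ℂ p (volume : Measure ℝ)) - f = -((f : Lp ℂ p (volume : Measure ℝ)) - U f) := by
        abel
      rw [h3]
      exact neg_mem (hU2 _)
  · intro f hf
    apply Subtype.ext
    show U f = 0
    apply uniq _ (hU1 _)
    have h3 : U f = f - (f - U f) := by abel
    rw [h3]
    exact sub_mem hf (hU2 _)
  · intro f
    exact hU2 f

end S3
end Pool.Agent.Helper865.TAP
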