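import Pool.Agent.Helper865.TAP.Defs


set_option autoImplicit false

open MeasureTheory Filter Topology Set Metric
open scoped ENNReal NNReal

namespace Pool.Agent.Helper865.TAP
namespace V1



variable {E : Type*} [NormedAddCommGroup E] [InnerProductSpace ℂ E] [FiniteDimensional ℂ E]


theorem tap_aux_zero_Hm (p : ℝ≥0∞) : Hm p (fun _ : ℝ => (0 : E)) :=
  ⟨MemLp.zero', by intro a _; simp⟩

theorem tap_aux_zero_Hp (p : ℝ≥0∞) : Hp p (fun _ : ℝ => (0 : E)) :=
  ⟨MemLp.zero', by intro a _; simp⟩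

omit [FiniteDimensional ℂ E] in
theorem tap_aux_approx {p : ℝ≥0∞} (hp' : p ≠ ⊤) {f : ℝ → E} (hf : MemLp f p volume)
    {ε : ℝ} (hε : 0 < ε) : ∃ g : ℝ → E, MemLp g 2 volume ∧ MemLp g p volume ∧
      eLpNorm (fun t => f t - g t) p volume ≤ ENNReal.ofReal ε := by
  letI : NormedSpace ℝ E := NormedSpace.restrictScalars ℝ ℂ E
  obtain ⟨g, h1, h2, h3, h4⟩ := hf.exists_hasCompactSupport_eLpNorm_sub_le hp'
    (ε := ENNReal.ofReal ε) (by simpa using hε)
  exact ⟨g, h3.memLp_of_hasCompactSupport h1, h4, h2⟩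

omit [FiniteDimensional ℂ E] in
theorem tap_aux_sub_comm {p : ℝ≥0∞} (f g : ℝ → E) :
    eLpNorm (fun t => f t - g t) p volume = eLpNorm (fun t => g t - f t) p volume := by
  have : (fun t => f t - g t) = -(fun t => g t - f t) := by
    funext t; simp
  rw [this, eLpNorm_neg]

omit [FiniteDimensional ℂ E] in
theorem tap_aux_tri {p : ℝ≥0∞} (hp : 1 ≤ p) {f g h : ℝ → E} (hf : MemLp f p volume)
    (hg : MemLp g p volume) (hh : MemLp h p volume) :
    eLpNorm (fun t => f t - h t) p volume ≤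
      eLpNorm (fun t => f t - g t) p volume + eLpNorm (fun t => g t - h t) p volume := by
  have h1 : (fun t => f t - h t) = (fun t => f t - g t) + (fun t => g t - h t) := by
    funext t; simp
  rw [h1]
  exact eLpNorm_add_le (hf.1.sub hg.1) (hg.1.sub hh.1) hp

omit [FiniteDimensional ℂ E] in
theorem tap_aux_le {p : ℝ≥0∞} (hp : 1 ≤ p) {f g : ℝ → E} (hf : MemLp f p volume)
    (hg : MemLp g p volume) :
    eLpNorm f p volume ≤ eLpNorm (fun t => f t - g t) p volume + eLpNorm g p volume := by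
  have h1 : f = (fun t => f t - g t) + g := by
    funext t; simp
  conv_lhs => rw [h1]
  exact eLpNorm_add_le (hf.1.sub hg.1) hg.1 hp

/-- The Riesz decomposition in `L^p` from the a priori bound on `L²`. -/
theorem riesz_Lp {p : ℝ≥0∞} (hp : 1 < p) (hp' : p ≠ ⊤)
    (hdecomp : ∀ f : ℝ → E, MemLp f 2 volume → ∃ u v : ℝ → E, Hm 2 u ∧ Hp 2 v ∧
      ∀ t, f t = u t + v t)
    (hsub : ∀ f g : ℝ → E, Hm 2 f → Hm 2 g → Hm 2 (fun t => f t - g t))
    (hsub' : ∀ f g : ℝ → E, Hp 2 f → Hp 2 g → Hp 2 (fun t => f t - g t))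
    (hclosed : ∀ (f : ℝ → E) (g : ℕ → ℝ → E), MemLp f p volume → (∀ n, Hm p (g n)) →
      Tendsto (fun n => eLpNorm (fun t => g n t - f t) p volume) atTop (𝓝 0) → Hm p f)
    (hclosed' : ∀ (f : ℝ → E) (g : ℕ → ℝ → E), MemLp f p volume → (∀ n, Hp p (g n)) →
      Tendsto (fun n => eLpNorm (fun t => g n t - f t) p volume) atTop (𝓝 0) → Hp p f)
    {C : ℝ} (hC : 0 < C)
    (hR : ∀ u v : ℝ → E, Hm 2 u → Hp 2 v → eLpNorm u p volume
      ≤ ENNReal.ofReal C * eLpNorm (fun t => u t + v t) p volume)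
    {f : ℝ → E} (hf : MemLp f p volume) :
    ∃ u v : ℝ → E, Hm p u ∧ Hp p v ∧ (∀ t, f t = u t + v t) ∧
      eLpNorm u p volume ≤ ENNReal.ofReal C * eLpNorm f p volume ∧
      eLpNorm v p volume ≤ ENNReal.ofReal (1 + C) * eLpNorm f p volume := by
  have hp1 : 1 ≤ p := hp.le
  haveI : CompleteSpace E := FiniteDimensional.complete ℂ E
  choose g hg2 hgp hge using fun n : ℕ =>
    tap_aux_approx hp' hf (ε := (1 / 2 : ℝ) ^ n) (by positivity)
  choose u v hu hv hgv using fun n => hdecomp (g n) (hg2 n)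
  have hup : ∀ n, MemLp (u n) p volume := by
    intro n
    refine ⟨(hu n).1.1, lt_of_le_of_lt (hR _ _ (hu n) (hv n)) ?_⟩
    have h1 : (fun t => u n t + v n t) = g n := by funext t; exact (hgv n t).symm
    rw [h1]
    exact ENNReal.mul_lt_top ENNReal.ofReal_lt_top (hgp n).2
  have huHm : ∀ n, Hm p (u n) := fun n => ⟨hup n, (hu n).2⟩
  have hvp : ∀ n, MemLp (v n) p volume := by
    intro n
    have h1 : v n = fun t => g n t - u n t := by
      funext t; rw [hgv n t]; simp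
    rw [h1]
    exact (hgp n).sub (hup n)
  have hvHp : ∀ n, Hp p (v n) := fun n => ⟨hvp n, (hv n).2⟩
  have hdiff : ∀ n m, eLpNorm (fun t => u n t - u m t) p volume ≤
      ENNReal.ofReal (C * ((1 / 2 : ℝ) ^ n + (1 / 2 : ℝ) ^ m)) := by
    intro n m
    have h1 := hR _ _ (hsub _ _ (hu n) (hu m)) (hsub' _ _ (hv n) (hv m))
    refine h1.trans ?_
    rw [ENNReal.ofReal_mul hC.le]
    gcongr
    have h2 : (fun t => u n t - u m t + (v n t - v m t)) = fun t => g n t - g m t := by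
      funext t
      rw [hgv n t, hgv m t]
      abel
    rw [h2, ENNReal.ofReal_add (by positivity) (by positivity)]
    refine (tap_aux_tri hp1 (hgp n) hf (hgp m)).trans ?_
    gcongr
    · rw [tap_aux_sub_comm]; exact hge n
    · exact hge m
  have hsumm : Summable (fun N : ℕ => 3 * C * (1 / 2 : ℝ) ^ N) :=
    (summable_geometric_of_lt_one (by norm_num) (by norm_num)).mul_left _
  obtain ⟨U, hU, hUt⟩ := MeasureTheory.Lp.cauchy_complete_eLpNorm hp1 hup
    (B := fun N : ℕ => ENNReal.ofReal (3 * C * (1 / 2 : ℝ) ^ N))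
    (by exact hsumm.tsum_ofReal_ne_top)
    (by
      intro N n m hn hm
      have h3 : u n - u m = fun t => u n t - u m t := rfl
      rw [h3]
      refine (hdiff n m).trans_lt ?_
      apply (ENNReal.ofReal_lt_ofReal_iff (by positivity)).2
      have h4 : (1 / 2 : ℝ) ^ n ≤ (1 / 2 : ℝ) ^ N :=
        pow_le_pow_of_le_one (by norm_num) (by norm_num) hn
      have h5 : (1 / 2 : ℝ) ^ m ≤ (1 / 2 : ℝ) ^ N :=
        pow_le_pow_of_le_one (by norm_num) (by norm_num) hm
      have h6 : (0 : ℝ) < (1 / 2 : ℝ) ^ N := by positivity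
      nlinarith)
  have hUt' : Tendsto (fun n => eLpNorm (fun t => u n t - U t) p volume) atTop (𝓝 0) := hUt
  have hUHm : Hm p U := hclosed U u hU huHm hUt'
  have hε0 : Tendsto (fun n : ℕ => ENNReal.ofReal ((1 / 2 : ℝ) ^ n)) atTop (𝓝 0) := by
    have h1 : Tendsto (fun n : ℕ => (1 / 2 : ℝ) ^ n) atTop (𝓝 0) :=
      tendsto_pow_atTop_nhds_zero_of_lt_one (by norm_num) (by norm_num)
    have h2 := ENNReal.tendsto_ofReal h1
    simpa using h2
  have hV : MemLp (fun t => f t - U t) p volume := hf.sub hU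
  have hVt : Tendsto (fun n => eLpNorm (fun t => v n t - (f t - U t)) p volume) atTop (𝓝 0) := by
    have h1 : Tendsto (fun n => ENNReal.ofReal ((1 / 2 : ℝ) ^ n) +
        eLpNorm (fun t => u n t - U t) p volume) atTop (𝓝 0) := by
      simpa using hε0.add hUt'
    refine tendsto_of_tendsto_of_tendsto_of_le_of_le tendsto_const_nhds h1
      (fun n => by simp) (fun n => ?_)
    have h2 : (fun t => v n t - (f t - U t)) =
        (fun t => g n t - f t) + (fun t => U t - u n t) := by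
      funext t
      simp only [Pi.add_apply]
      rw [hgv n t]
      abel
    show eLpNorm (fun t => v n t - (f t - U t)) p volume ≤ _
    rw [h2]
    refine (eLpNorm_add_le ((hgp n).1.sub hf.1) (hU.1.sub (hup n).1) hp1).trans ?_
    refine add_le_add ?_ ?_
    · exact (tap_aux_sub_comm _ _).trans_le (hge n)
    · exact (tap_aux_sub_comm _ _).le
  have hVHp : Hp p (fun t => f t - U t) := hclosed' _ v hV hvHp hVt
  have hUb : eLpNorm U p volume ≤ ENNReal.ofReal C * eLpNorm f p volume := by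
    have hlim : Tendsto (fun n => eLpNorm (fun t => u n t - U t) p volume +
        ENNReal.ofReal C * (ENNReal.ofReal ((1 / 2 : ℝ) ^ n) + eLpNorm f p volume)) atTop
        (𝓝 (0 + ENNReal.ofReal C * (0 + eLpNorm f p volume))) := by
      refine hUt'.add (ENNReal.Tendsto.const_mul (hε0.add tendsto_const_nhds) ?_)
      right; exact ENNReal.ofReal_ne_top
    have h0 : eLpNorm U p volume ≤ 0 + ENNReal.ofReal C * (0 + eLpNorm f p volume) := by
      refine ge_of_tendsto' hlim (fun n => ?_)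
      refine (tap_aux_le hp1 hU (hup n)).trans ?_
      rw [tap_aux_sub_comm]
      gcongr
      refine (hR _ _ (hu n) (hv n)).trans ?_
      gcongr
      have h1 : (fun t => u n t + v n t) = g n := by funext t; exact (hgv n t).symm
      rw [h1]
      refine (tap_aux_le hp1 (hgp n) hf).trans ?_
      gcongr
      rw [tap_aux_sub_comm]; exact hge n
    simpa using h0
  refine ⟨U, fun t => f t - U t, hUHm, hVHp, fun t => by simp, hUb, ?_⟩
  have h1 : eLpNorm (fun t => f t - U t) p volume ≤ eLpNorm f p volume + eLpNorm U p volume :=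
    eLpNorm_sub_le hf.1 hU.1 hp1
  refine h1.trans ?_
  rw [ENNReal.ofReal_add (by norm_num) hC.le, add_mul, ENNReal.ofReal_one, one_mul]
  gcongr

/-- The a priori bound on `L^p`. -/
theorem riesz_bound_Lp {p : ℝ≥0∞} (hp : 1 < p) (hp' : p ≠ ⊤)
    (huniq : ∀ f : ℝ → E, Hm p f → Hp p f → f =ᵐ[volume] 0)
    (hsub : ∀ f g : ℝ → E, Hm p f → Hm p g → Hm p (fun t => f t - g t))
    (hsub' : ∀ f g : ℝ → E, Hp p f → Hp p g → Hp p (fun t => f t - g t))
    {C : ℝ}
    (hriesz : ∀ f : ℝ → E, MemLp f p volume → ∃ u v : ℝ → E, Hm p u ∧ Hp p v ∧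
      (∀ t, f t = u t + v t) ∧ eLpNorm u p volume ≤ ENNReal.ofReal C * eLpNorm f p volume ∧
      eLpNorm v p volume ≤ ENNReal.ofReal (1 + C) * eLpNorm f p volume)
    {u v : ℝ → E} (hu : Hm p u) (hv : Hp p v) :
    eLpNorm u p volume ≤ ENNReal.ofReal C * eLpNorm (fun t => u t + v t) p volume ∧
    eLpNorm v p volume ≤ ENNReal.ofReal (1 + C) * eLpNorm (fun t => u t + v t) p volume := by
  have hp1 : 1 ≤ p := hp.le
  obtain ⟨u1, v1, hu1, hv1, hs, hb, hb'⟩ := hriesz (fun t => u t + v t) (hu.1.add hv.1)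
  have hs' : ∀ t, u t + v t = u1 t + v1 t := hs
  have h1 : (fun t => u t - u1 t) = fun t => v1 t - v t := by
    funext t
    have := hs' t
    rw [sub_eq_sub_iff_add_eq_add, this]
    abel
  have h2 : (fun t => u t - u1 t) =ᵐ[volume] 0 := by
    apply huniq _ (hsub _ _ hu hu1)
    rw [h1]
    exact hsub' _ _ hv1 hv
  have h3 : u =ᵐ[volume] u1 := by
    filter_upwards [h2] with t ht
    have : u t - u1 t = 0 := ht
    exact sub_eq_zero.1 this
  have h4 : v =ᵐ[volume] v1 := by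
    filter_upwards [h2] with t ht
    have h5 : u t - u1 t = v1 t - v t := congrFun h1 t
    have h6 : u t - u1 t = 0 := ht
    rw [h5] at h6
    exact (sub_eq_zero.1 h6).symm
  rw [eLpNorm_congr_ae h3, eLpNorm_congr_ae h4]
  exact ⟨hb, hb'⟩

/-- Density of `Hm 2 ∩ Hm p` in `Hm p` and of `Hp 2 ∩ Hp p` in `Hp p`. -/
theorem dense_Hm_Lp {p : ℝ≥0∞} (hp : 1 < p) (hp' : p ≠ ⊤)
    (hdecomp : ∀ f : ℝ → E, MemLp f 2 volume → ∃ u v : ℝ → E, Hm 2 u ∧ Hp 2 v ∧
      ∀ t, f t = u t + v t)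
    (hsub : ∀ f g : ℝ → E, Hm p f → Hm p g → Hm p (fun t => f t - g t))
    (hsub' : ∀ f g : ℝ → E, Hp p f → Hp p g → Hp p (fun t => f t - g t))
    {C : ℝ} (hC : 0 < C)
    (hR : ∀ u v : ℝ → E, Hm 2 u → Hp 2 v → eLpNorm u p volume
      ≤ ENNReal.ofReal C * eLpNorm (fun t => u t + v t) p volume)
    (hR' : ∀ u v : ℝ → E, Hm p u → Hp p v →
      eLpNorm u p volume ≤ ENNReal.ofReal C * eLpNorm (fun t => u t + v t) p volume ∧
      eLpNorm v p volume ≤ ENNReal.ofReal (1 + C) * eLpNorm (fun t => u t + v t) p volume)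
    {f : ℝ → E} {ε : ℝ} (hε : 0 < ε) :
    (Hm p f → ∃ k : ℝ → E, Hm 2 k ∧ Hm p k ∧
      eLpNorm (fun t => f t - k t) p volume ≤ ENNReal.ofReal ε) ∧
    (Hp p f → ∃ k : ℝ → E, Hp 2 k ∧ Hp p k ∧
      eLpNorm (fun t => f t - k t) p volume ≤ ENNReal.ofReal ε) := by
  have hp1 : 1 ≤ p := hp.le
  -- common approximation
  have key : ∀ (δ : ℝ), 0 < δ → MemLp f p volume → ∃ k k1 : ℝ → E, Hm 2 k ∧ Hp 2 k1 ∧ Hm p k ∧
      Hp p k1 ∧ eLpNorm (fun t => f t - (k t + k1 t)) p volume ≤ ENNReal.ofReal δ := by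
    intro δ hδ hf
    obtain ⟨g, hg2, hgp, hge⟩ := tap_aux_approx hp' hf hδ
    obtain ⟨k, k1, hk, hk1, hs⟩ := hdecomp g hg2
    have h1 : (fun t => k t + k1 t) = g := by funext t; exact (hs t).symm
    have hkp : MemLp k p volume := by
      refine ⟨hk.1.1, lt_of_le_of_lt (hR _ _ hk hk1) ?_⟩
      rw [h1]
      exact ENNReal.mul_lt_top ENNReal.ofReal_lt_top hgp.2
    have hk1p : MemLp k1 p volume := by
      have h2 : k1 = fun t => g t - k t := by
        funext t; rw [hs t]; simp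
      rw [h2]
      exact hgp.sub hkp
    refine ⟨k, k1, hk, hk1, ⟨hkp, hk.2⟩, ⟨hk1p, hk1.2⟩, ?_⟩
    have h3 : (fun t => f t - (k t + k1 t)) = fun t => f t - g t := by
      funext t; rw [hs t]
    rw [h3]
    exact hge
  constructor
  · intro hf
    obtain ⟨k, k1, hk, hk1, hkp, hk1p, hb⟩ := key (ε / C) (by positivity) hf.1
    refine ⟨k, hk, hkp, ?_⟩
    have h1 := (hR' _ _ (hsub _ _ hf hkp) (hsub' _ _ (tap_aux_zero_Hp p) hk1p)).1
    refine h1.trans ?_
    have h2 : (fun t => f t - k t + (0 - k1 t)) = fun t => f t - (k t + k1 t) := by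
      funext t; abel
    rw [h2]
    calc ENNReal.ofReal C * eLpNorm (fun t => f t - (k t + k1 t)) p volume
        ≤ ENNReal.ofReal C * ENNReal.ofReal (ε / C) := by gcongr
      _ = ENNReal.ofReal ε := by
          rw [← ENNReal.ofReal_mul hC.le]
          congr 1
          field_simp
  · intro hf
    obtain ⟨k, k1, hk, hk1, hkp, hk1p, hb⟩ := key (ε / (1 + C)) (by positivity) hf.1
    refine ⟨k1, hk1, hk1p, ?_⟩
    have h1 := (hR' _ _ (hsub _ _ (tap_aux_zero_Hm p) hkp) (hsub' _ _ hf hk1p)).2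
    refine h1.trans ?_
    have h2 : (fun t => (0 : E) - k t + (f t - k1 t)) = fun t => f t - (k t + k1 t) := by
      funext t; abel
    rw [h2]
    calc ENNReal.ofReal (1 + C) * eLpNorm (fun t => f t - (k t + k1 t)) p volume
        ≤ ENNReal.ofReal (1 + C) * ENNReal.ofReal (ε / (1 + C)) := by gcongr
      _ = ENNReal.ofReal ε := by
          rw [← ENNReal.ofReal_mul (by positivity)]
          congr 1
          field_simp

/-- Orthogonality of `Hm p` and `Hp q`. -/
theorem orth_Lp {p q : ℝ} (hp : 1 < p) (hpq : p.HolderConjugate q)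
    (horth : ∀ u v : ℝ → E, Hm 2 u → Hp 2 v → ∫ t : ℝ, inner ℂ (u t) (v t) = 0)
    (hd : ∀ (f : ℝ → E) (ε : ℝ), 0 < ε → Hm (ENNReal.ofReal p) f →
      ∃ k : ℝ → E, Hm 2 k ∧ Hm (ENNReal.ofReal p) k ∧
      eLpNorm (fun t => f t - k t) (ENNReal.ofReal p) volume ≤ ENNReal.ofReal ε)
    (hd' : ∀ (f : ℝ → E) (ε : ℝ), 0 < ε → Hp (ENNReal.ofReal q) f →
      ∃ k : ℝ → E, Hp 2 k ∧ Hp (ENNReal.ofReal q) k ∧
      eLpNorm (fun t => f t - k t) (ENNReal.ofReal q) volume ≤ ENNReal.ofReal ε)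
    {u v : ℝ → E} (hu : Hm (ENNReal.ofReal p) u) (hv : Hp (ENNReal.ofReal q) v) :
    ∫ t : ℝ, inner ℂ (u t) (v t) = 0 := by
  have hq1 : 1 < q := hpq.symm.lt
  haveI hHC : ENNReal.HolderConjugate (ENNReal.ofReal p) (ENNReal.ofReal q) := hpq.ennrealOfReal
  have hP1 : 1 ≤ ENNReal.ofReal p := by
    rw [← ENNReal.ofReal_one]; exact ENNReal.ofReal_le_ofReal hp.le
  have hQ1 : 1 ≤ ENNReal.ofReal q := by
    rw [← ENNReal.ofReal_one]; exact ENNReal.ofReal_le_ofReal hq1.le
  have hmeas : ∀ {a b : ℝ → E}, AEStronglyMeasurable a volume → AEStronglyMeasurable b volume →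
      AEStronglyMeasurable (fun t => inner ℂ (a t) (b t)) volume := by
    intro a b ha hb
    exact ha.inner hb
  have hmem : ∀ {a b : ℝ → E}, MemLp a (ENNReal.ofReal p) volume →
      MemLp b (ENNReal.ofReal q) volume →
      MemLp (fun t => inner ℂ (a t) (b t)) 1 volume := by
    intro a b ha hb
    refine MemLp.of_bilin (p := ENNReal.ofReal p) (q := ENNReal.ofReal q) (r := 1)
      (fun x y : E => inner ℂ x y) 1 ha hb (hmeas ha.1 hb.1) ?_
    filter_upwards with t
    rw [one_mul]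
    exact nnnorm_inner_le_nnnorm _ _
  have hbound : ∀ {a b : ℝ → E}, MemLp a (ENNReal.ofReal p) volume →
      MemLp b (ENNReal.ofReal q) volume →
      ENNReal.ofReal ‖∫ t : ℝ, inner ℂ (a t) (b t)‖ ≤
        eLpNorm a (ENNReal.ofReal p) volume * eLpNorm b (ENNReal.ofReal q) volume := by
    intro a b ha hb
    have h1 : ENNReal.ofReal ‖∫ t : ℝ, inner ℂ (a t) (b t)‖ ≤
        eLpNorm (fun t => inner ℂ (a t) (b t)) 1 volume := by
      rw [eLpNorm_one_eq_lintegral_enorm, ofReal_norm_eq_enorm]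
      exact enorm_integral_le_lintegral_enorm _
    refine h1.trans ?_
    have h2 := eLpNorm_le_eLpNorm_mul_eLpNorm_of_nnnorm (p := ENNReal.ofReal p)
      (q := ENNReal.ofReal q) (r := 1) (μ := (volume : Measure ℝ)) ha.1 hb.1
      (fun x y : E => inner ℂ x y) 1 (by
        filter_upwards with t
        rw [one_mul]
        exact nnnorm_inner_le_nnnorm _ _)
    simpa using h2
  -- finiteness
  set A : ℝ := (eLpNorm u (ENNReal.ofReal p) volume).toReal with hA
  set B : ℝ := (eLpNorm v (ENNReal.ofReal q) volume).toReal with hB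
  have hA' : eLpNorm u (ENNReal.ofReal p) volume = ENNReal.ofReal A :=
    (ENNReal.ofReal_toReal hu.1.2.ne).symm
  have hB' : eLpNorm v (ENNReal.ofReal q) volume = ENNReal.ofReal B :=
    (ENNReal.ofReal_toReal hv.1.2.ne).symm
  have hA0 : 0 ≤ A := ENNReal.toReal_nonneg
  have hB0 : 0 ≤ B := ENNReal.toReal_nonneg
  have main : ∀ ε : ℝ, 0 < ε → ε ≤ 1 →
      ‖∫ t : ℝ, inner ℂ (u t) (v t)‖ ≤ ε * (A + B + 1) := by
    intro ε hε hε1
    obtain ⟨k, hk2, hkp, hke⟩ := hd u ε hε hu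
    obtain ⟨l, hl2, hlq, hle⟩ := hd' v ε hε hv
    have huk : MemLp (fun t => u t - k t) (ENNReal.ofReal p) volume := hu.1.sub hkp.1
    have hvl : MemLp (fun t => v t - l t) (ENNReal.ofReal q) volume := hv.1.sub hlq.1
    have h1 : ∫ t : ℝ, inner ℂ (u t) (v t) = (∫ t : ℝ, inner ℂ (u t - k t) (v t)) +
        (∫ t : ℝ, inner ℂ (k t) (v t - l t)) + ∫ t : ℝ, inner ℂ (k t) (l t) := by
      have i1 : Integrable (fun t => inner ℂ (u t - k t) (v t)) (volume : Measure ℝ) :=
        memLp_one_iff_integrable.1 (hmem huk hv.1)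
      have i2 : Integrable (fun t => inner ℂ (k t) (v t - l t)) (volume : Measure ℝ) :=
        memLp_one_iff_integrable.1 (hmem hkp.1 hvl)
      have i3 : Integrable (fun t => inner ℂ (k t) (l t)) (volume : Measure ℝ) :=
        memLp_one_iff_integrable.1 (hmem hkp.1 hlq.1)
      have i12 : Integrable (fun t => inner ℂ (u t - k t) (v t) + inner ℂ (k t) (v t - l t))
        (volume : Measure ℝ) := i1.add i2
      rw [← integral_add i1 i2, ← integral_add i12 i3]
      congr 1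
      funext t
      simp only [inner_sub_left, inner_sub_right]
      ring
    have h2 : ∫ t : ℝ, inner ℂ (k t) (l t) = 0 := horth k l hk2 hl2
    rw [h2, add_zero] at h1
    have h3 : ‖∫ t : ℝ, inner ℂ (u t - k t) (v t)‖ ≤ ε * B := by
      have h4 := hbound huk hv.1
      have h5 : ENNReal.ofReal ‖∫ t : ℝ, inner ℂ (u t - k t) (v t)‖ ≤ ENNReal.ofReal (ε * B) := by
        refine h4.trans ?_
        rw [ENNReal.ofReal_mul hε.le, hB']
        gcongr
      exact (ENNReal.ofReal_le_ofReal_iff (by positivity)).1 h5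
    have hkA : eLpNorm k (ENNReal.ofReal p) volume ≤ ENNReal.ofReal (A + 1) := by
      refine (tap_aux_le hP1 hkp.1 hu.1).trans ?_
      rw [tap_aux_sub_comm, hA', add_comm, ENNReal.ofReal_add hA0 (by norm_num)]
      gcongr
      exact hke.trans (ENNReal.ofReal_le_ofReal hε1)
    have h6 : ‖∫ t : ℝ, inner ℂ (k t) (v t - l t)‖ ≤ (A + 1) * ε := by
      have h4 := hbound hkp.1 hvl
      have h5 : ENNReal.ofReal ‖∫ t : ℝ, inner ℂ (k t) (v t - l t)‖ ≤
          ENNReal.ofReal ((A + 1) * ε) := by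
        refine h4.trans ?_
        rw [ENNReal.ofReal_mul (by positivity)]
        gcongr
      exact (ENNReal.ofReal_le_ofReal_iff (by positivity)).1 h5
    rw [h1]
    refine (norm_add_le _ _).trans ?_
    linarith
  by_contra hne
  have hpos : 0 < ‖∫ t : ℝ, inner ℂ (u t) (v t)‖ := norm_pos_iff.2 hne
  set η : ℝ := ‖∫ t : ℝ, inner ℂ (u t) (v t)‖ with hη
  have hD : 0 < A + B + 1 := by positivity
  have h1 := main (min 1 (η / (2 * (A + B + 1)))) (by positivity) (min_le_left _ _)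
  have h2 : min 1 (η / (2 * (A + B + 1))) * (A + B + 1) ≤ η / 2 := by
    calc min 1 (η / (2 * (A + B + 1))) * (A + B + 1)
        ≤ (η / (2 * (A + B + 1))) * (A + B + 1) := by
          gcongr
          exact min_le_right _ _
      _ = η / 2 := by field_simp
  linarith

end V1
end Pool.Agent.Helper865.TAP
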