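import Pool.Agent.Helper865.TAP.Defs


set_option autoImplicit false

open MeasureTheory Filter Topology Set Metric
open scoped ENNReal NNReal

namespace Pool.Agent.Helper865.TAP
namespace V2



variable {E : Type*} [NormedAddCommGroup E] [InnerProductSpace ℂ E] [FiniteDimensional ℂ E]


theorem v2_meas_app {G : ℝ → E →L[ℂ] E} (hG : Continuous G) {k : ℝ → E}
    (hk : AEStronglyMeasurable k volume) :
    AEStronglyMeasurable (fun t => G t (k t)) volume :=
  isBoundedBilinearMap_apply.continuous.comp_aestronglyMeasurable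
    (hG.aestronglyMeasurable.prodMk hk)

theorem v2_norm_app {q : ℝ≥0∞} {G : ℝ → E →L[ℂ] E} {M : ℝ} (hM : ∀ t, ‖G t‖ ≤ M)
    (k : ℝ → E) :
    eLpNorm (fun t => G t (k t)) q volume ≤ ENNReal.ofReal M * eLpNorm k q volume := by
  refine eLpNorm_le_mul_eLpNorm_of_ae_le_mul (Filter.Eventually.of_forall fun t => ?_) q
  exact (ContinuousLinearMap.le_opNorm _ _).trans (by gcongr; exact hM t)

theorem v2_memLp_app {q : ℝ≥0∞} {G : ℝ → E →L[ℂ] E} (hG : Continuous G) {M : ℝ}
    (hM : ∀ t, ‖G t‖ ≤ M) {k : ℝ → E} (hk : MemLp k q volume) :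
    MemLp (fun t => G t (k t)) q volume :=
  ⟨v2_meas_app hG hk.1, (v2_norm_app hM k).trans_lt
    (ENNReal.mul_lt_top ENNReal.ofReal_lt_top hk.2)⟩


theorem v2_Hm_zero {q : ℝ≥0∞} : Hm q (fun _ : ℝ => (0 : E)) :=
  ⟨MemLp.zero', fun a _ => by simp⟩

theorem v2_Hp_zero {q : ℝ≥0∞} : Hp q (fun _ : ℝ => (0 : E)) :=
  ⟨MemLp.zero', fun a _ => by simp⟩

theorem v2_tail {q : ℝ≥0∞} (hq : 1 ≤ q) {F : ℕ → ℝ → E} {c : ℝ} (hc : 0 ≤ c)
    (hF : ∀ n, MemLp (F n) q volume)
    (hb : ∀ n, eLpNorm (F n) q volume ≤ ENNReal.ofReal (c * (1 / 4) ^ n)) (a m : ℕ) :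
    MemLp (fun t => ∑ i ∈ Finset.range m, F (a + i) t) q volume ∧
    eLpNorm (fun t => ∑ i ∈ Finset.range m, F (a + i) t) q volume
      ≤ ENNReal.ofReal (c * (1 / 4) ^ a * (4 / 3) * (1 - (1 / 4) ^ m)) := by
  induction m with
  | zero =>
    simp
  | succ m ih =>
    have e : (fun t => ∑ i ∈ Finset.range (m + 1), F (a + i) t)
        = fun t => (∑ i ∈ Finset.range m, F (a + i) t) + F (a + m) t := by
      funext t; rw [Finset.sum_range_succ]
    rw [e]
    refine ⟨ih.1.add (hF _), ?_⟩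
    refine (eLpNorm_add_le ih.1.1 (hF _).1 hq).trans ?_
    refine (add_le_add ih.2 (hb _)).trans ?_
    have h1 : (1 / 4 : ℝ) ^ m ≤ 1 := pow_le_one₀ (by norm_num) (by norm_num)
    rw [← ENNReal.ofReal_add (mul_nonneg (by positivity) (by linarith)) (by positivity)]
    refine ENNReal.ofReal_le_ofReal (le_of_eq ?_)
    rw [pow_add, pow_succ]; ring


theorem v2_holder {p q : ℝ} (hpq : p.HolderConjugate q) {u v : ℝ → E}
    (hu : MemLp u (ENNReal.ofReal p) volume) (hv : MemLp v (ENNReal.ofReal q) volume) :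
    Integrable (fun t => inner ℂ (u t) (v t)) volume ∧
    ‖∫ t : ℝ, inner ℂ (u t) (v t)‖ ≤ (eLpNorm u (ENNReal.ofReal p) volume).toReal
      * (eLpNorm v (ENNReal.ofReal q) volume).toReal := by
  have hpq' := hpq.ennrealOfReal
  have hms : AEStronglyMeasurable (fun t => inner ℂ (u t) (v t)) volume := hu.1.inner hv.1
  have hb : ∀ᵐ t : ℝ, ‖inner ℂ (u t) (v t)‖₊ ≤ (1 : ℝ≥0) * ‖u t‖₊ * ‖v t‖₊ := by
    refine Filter.Eventually.of_forall fun t => ?_
    rw [one_mul]
    exact nnnorm_inner_le_nnnorm _ _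
  have h1 : eLpNorm (fun t => inner ℂ (u t) (v t)) 1 volume
      ≤ ((1 : ℝ≥0) : ℝ≥0∞) * eLpNorm u (ENNReal.ofReal p) volume
        * eLpNorm v (ENNReal.ofReal q) volume :=
    eLpNorm_le_eLpNorm_mul_eLpNorm_of_nnnorm hu.1 hv.1 (fun a b => inner ℂ a b) 1 hb
      (hpqr := hpq')
  have hfin : eLpNorm u (ENNReal.ofReal p) volume * eLpNorm v (ENNReal.ofReal q) volume ≠ ⊤ :=
    ENNReal.mul_ne_top hu.2.ne hv.2.ne
  rw [ENNReal.coe_one, one_mul] at h1
  have hint : Integrable (fun t => inner ℂ (u t) (v t)) volume :=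
    memLp_one_iff_integrable.1 ⟨hms, h1.trans_lt hfin.lt_top⟩
  refine ⟨hint, ?_⟩
  rw [← ENNReal.toReal_mul]
  have h2 : ‖∫ t : ℝ, inner ℂ (u t) (v t)‖ₑ
      ≤ eLpNorm u (ENNReal.ofReal p) volume * eLpNorm v (ENNReal.ofReal q) volume := by
    refine (enorm_integral_le_lintegral_enorm _).trans ?_
    rw [← eLpNorm_one_eq_lintegral_enorm]
    exact h1
  have h3 := ENNReal.toReal_mono hfin h2
  simpa using h3

/-- From the bound on `Hm 2` in the norm of `L^q` to boundedness below on `Hm q`. -/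
theorem BB_of_L2 {q : ℝ≥0∞} (hq : 1 < q) (hq' : q ≠ ⊤)
    (hdecomp : ∀ f : ℝ → E, MemLp f 2 volume → ∃ u v : ℝ → E, Hm 2 u ∧ Hp 2 v ∧
      ∀ t, f t = u t + v t)
    (hsub : ∀ f g : ℝ → E, Hm q f → Hm q g → Hm q (fun t => f t - g t))
    (hsub' : ∀ f g : ℝ → E, Hp q f → Hp q g → Hp q (fun t => f t - g t))
    {C : ℝ} (hC : 0 < C)
    (hR : ∀ u v : ℝ → E, Hm 2 u → Hp 2 v → eLpNorm u q volume
      ≤ ENNReal.ofReal C * eLpNorm (fun t => u t + v t) q volume)
    (hR' : ∀ u v : ℝ → E, Hm q u → Hp q v →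
      eLpNorm u q volume ≤ ENNReal.ofReal C * eLpNorm (fun t => u t + v t) q volume ∧
      eLpNorm v q volume ≤ ENNReal.ofReal (1 + C) * eLpNorm (fun t => u t + v t) q volume)
    (hd : ∀ (f : ℝ → E) (ε : ℝ), 0 < ε → Hm q f →
      ∃ k : ℝ → E, Hm 2 k ∧ Hm q k ∧
      eLpNorm (fun t => f t - k t) q volume ≤ ENNReal.ofReal ε)
    {G : ℝ → E →L[ℂ] E} (hG : Continuous G) {M : ℝ} (hM : ∀ t, ‖G t‖ ≤ M) {K : ℝ} (hK : 0 < K)
    (hB : ∀ f w : ℝ → E, Hm 2 f → Hm 2 w → Hp 2 (fun t => G t (f t) - w t) →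
      eLpNorm f q volume ≤ ENNReal.ofReal K * eLpNorm w q volume) :
    BB q G K := by
  intro f w hf hw hv
  have hM0 : 0 ≤ M := (norm_nonneg _).trans (hM 0)
  have key : ∀ ε : ℝ, 0 < ε → eLpNorm f q volume ≤ ENNReal.ofReal K * eLpNorm w q volume
      + ENNReal.ofReal ((K * (C * M) + 1) * ε) := by
    intro ε hε
    obtain ⟨k, hk2, hkq, hke⟩ := hd f ε hε hf
    obtain ⟨w', v', hw', hv', hGk⟩ := hdecomp _ (v2_memLp_app hG hM hk2.1)
    have hv'' : Hp 2 (fun t => G t (k t) - w' t) := by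
      have : (fun t => G t (k t) - w' t) = v' := by
        funext t; rw [hGk t]; simp
      rw [this]; exact hv'
    have h1 := hB k w' hk2 hw' hv''
    have h2 := hR w' v' hw' hv'
    have hGk' : (fun t => w' t + v' t) = fun t => G t (k t) := by
      funext t; rw [hGk t]
    rw [hGk'] at h2
    have hGkq := v2_memLp_app hG hM hkq.1
    have hw'q : Hm q w' := ⟨⟨hw'.1.1, h2.trans_lt (ENNReal.mul_lt_top ENNReal.ofReal_lt_top hGkq.2)⟩,
      hw'.2⟩
    have hv'q : Hp q v' := by
      refine ⟨?_, hv'.2⟩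
      have : v' = fun t => G t (k t) - w' t := by
        funext t; rw [hGk t]; simp
      rw [this]; exact hGkq.sub hw'q.1
    have h3 := (hR' _ _ (hsub _ _ hw'q hw) (hsub' _ _ hv'q hv)).1
    have h4 : (fun t => (w' t - w t) + (v' t - (G t (f t) - w t)))
        = fun t => - G t (f t - k t) := by
      funext t
      have := hGk t
      rw [map_sub, this]; abel
    rw [h4] at h3
    have h5 : eLpNorm (fun t => - G t (f t - k t)) q volume
        = eLpNorm (fun t => G t (f t - k t)) q volume := eLpNorm_neg _ _ _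
    rw [h5] at h3
    have h6 : eLpNorm (fun t => w' t - w t) q volume ≤ ENNReal.ofReal (C * M * ε) := by
      refine h3.trans ?_
      rw [mul_assoc, ENNReal.ofReal_mul hC.le, ENNReal.ofReal_mul hM0]
      gcongr
      exact (v2_norm_app hM _).trans (by gcongr)
    have h7 : eLpNorm w' q volume ≤ eLpNorm w q volume + ENNReal.ofReal (C * M * ε) := by
      have : w' = fun t => w t + (w' t - w t) := by funext t; abel
      calc eLpNorm w' q volume = eLpNorm (fun t => w t + (w' t - w t)) q volume := by rw [← this]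
        _ ≤ eLpNorm w q volume + eLpNorm (fun t => w' t - w t) q volume :=
            eLpNorm_add_le hw.1.1 (hw'q.1.1.sub hw.1.1) hq.le
        _ ≤ _ := by gcongr
    have h8 : eLpNorm f q volume ≤ eLpNorm k q volume + ENNReal.ofReal ε := by
      have : f = fun t => k t + (f t - k t) := by funext t; abel
      calc eLpNorm f q volume = eLpNorm (fun t => k t + (f t - k t)) q volume := by rw [← this]
        _ ≤ eLpNorm k q volume + eLpNorm (fun t => f t - k t) q volume :=
            eLpNorm_add_le hkq.1.1 (hf.1.1.sub hkq.1.1) hq.le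
        _ ≤ _ := by gcongr
    calc eLpNorm f q volume ≤ eLpNorm k q volume + ENNReal.ofReal ε := h8
      _ ≤ ENNReal.ofReal K * eLpNorm w' q volume + ENNReal.ofReal ε := by gcongr
      _ ≤ ENNReal.ofReal K * (eLpNorm w q volume + ENNReal.ofReal (C * M * ε))
          + ENNReal.ofReal ε := by gcongr
      _ = ENNReal.ofReal K * eLpNorm w q volume + ENNReal.ofReal ((K * (C * M) + 1) * ε) := by
          rw [mul_add, add_assoc, ← ENNReal.ofReal_mul hK.le,
            ← ENNReal.ofReal_add (by positivity) hε.le]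
          congr 2; ring
  refine ENNReal.le_of_forall_pos_le_add fun ε hε _ => ?_
  have hA : 0 < K * (C * M) + 1 := by positivity
  have := key (ε / (K * (C * M) + 1)) (by positivity)
  rwa [mul_div_cancel₀ _ hA.ne', ENNReal.ofReal_coe_nnreal] at this

/-- Solvability on `Hm q` from solvability on the dense subspace. -/
theorem OO_of_L2 {q : ℝ≥0∞} (hq : 1 < q) (hq' : q ≠ ⊤)
    (hsub : ∀ f g : ℝ → E, Hm q f → Hm q g → Hm q (fun t => f t - g t))
    (hadd : ∀ f g : ℝ → E, Hm q f → Hm q g → Hm q (fun t => f t + g t))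
    (hadd' : ∀ f g : ℝ → E, Hp q f → Hp q g → Hp q (fun t => f t + g t))
    (hclosed : ∀ (f : ℝ → E) (g : ℕ → ℝ → E), MemLp f q volume → (∀ n, Hm q (g n)) →
      Tendsto (fun n => eLpNorm (fun t => g n t - f t) q volume) atTop (𝓝 0) → Hm q f)
    (hclosed' : ∀ (f : ℝ → E) (g : ℕ → ℝ → E), MemLp f q volume → (∀ n, Hp q (g n)) →
      Tendsto (fun n => eLpNorm (fun t => g n t - f t) q volume) atTop (𝓝 0) → Hp q f)
    (hd : ∀ (f : ℝ → E) (ε : ℝ), 0 < ε → Hm q f →
      ∃ k : ℝ → E, Hm 2 k ∧ Hm q k ∧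
      eLpNorm (fun t => f t - k t) q volume ≤ ENNReal.ofReal ε)
    {G : ℝ → E →L[ℂ] E} (hG : Continuous G) {M : ℝ} (hM : ∀ t, ‖G t‖ ≤ M) {K : ℝ} (hK : 0 < K)
    (hB : ∀ g : ℝ → E, Hm 2 g → Hm q g → ∃ f : ℝ → E, Hm q f ∧
      Hp q (fun t => G t (f t) - g t) ∧
      eLpNorm f q volume ≤ ENNReal.ofReal K * eLpNorm g q volume)
    {g : ℝ → E} (hg : Hm q g) :
    ∃ f : ℝ → E, Hm q f ∧ Hp q (fun t => G t (f t) - g t) ∧
      eLpNorm f q volume ≤ ENNReal.ofReal (2 * K) * eLpNorm g q volume := by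
  have hq1 : (1 : ℝ≥0∞) ≤ q := hq.le
  have hM0 : 0 ≤ M := (norm_nonneg _).trans (hM 0)
  by_cases hN0 : eLpNorm g q volume = 0
  · have hg0 : g =ᵐ[volume] 0 := (eLpNorm_eq_zero_iff hg.1.1 (by
      intro h; rw [h] at hq; simp at hq)).1 hN0
    refine ⟨fun _ => 0, v2_Hm_zero, ⟨?_, fun a _ => ?_⟩, by simp⟩
    · have e : (fun t => G t ((fun _ : ℝ => (0 : E)) t) - g t) = -g := by
        funext t; simp
      rw [e]; exact hg.1.neg
    · have : (fun t : ℝ => ((t : ℂ) - a)⁻¹ • (G t 0 - g t)) =ᵐ[volume] fun _ => (0 : E) := by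
        filter_upwards [hg0] with t ht
        rw [ht]; simp
      rw [integral_congr_ae this]; simp
  have hNt : eLpNorm g q volume ≠ ⊤ := hg.1.2.ne
  obtain ⟨N, hNdef⟩ : ∃ N : ℝ, N = (eLpNorm g q volume).toReal := ⟨_, rfl⟩
  have hN : 0 < N := by rw [hNdef]; exact ENNReal.toReal_pos hN0 hNt
  have hgN : eLpNorm g q volume = ENNReal.ofReal N := by
    rw [hNdef, ENNReal.ofReal_toReal hNt]
  have hd2 : ∀ (n : ℕ) (r : {r : ℝ → E // Hm q r}), ∃ k : ℝ → E, Hm 2 k ∧ Hm q k ∧
      eLpNorm (fun t => r.1 t - k t) q volume ≤ ENNReal.ofReal (N * (1 / 4) ^ (n + 1)) :=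
    fun n r => hd r.1 _ (by positivity) r.2
  choose K1 hK2 hKq hKe using hd2
  let R : ℕ → {r : ℝ → E // Hm q r} := fun n => Nat.rec ⟨g, hg⟩
    (fun n r => ⟨fun t => r.1 t - K1 n r t, hsub _ _ r.2 (hKq n r)⟩) n
  have hR0 : R 0 = ⟨g, hg⟩ := rfl
  have hRs : ∀ n t, (R (n + 1)).1 t = (R n).1 t - K1 n (R n) t := fun n t => rfl
  have hRn : ∀ n, eLpNorm (R n).1 q volume ≤ ENNReal.ofReal (N * (1 / 4) ^ n) := by
    intro n
    cases n with
    | zero => rw [hR0]; simp [hgN]
    | succ n => exact hKe n (R n)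
  have hRsum : ∀ n t, (R n).1 t = g t - ∑ i ∈ Finset.range n, K1 i (R i) t := by
    intro n t
    induction n with
    | zero => rw [hR0]; simp
    | succ n ih => rw [hRs, ih, Finset.sum_range_succ]; abel
  have hkn : ∀ n, eLpNorm (K1 n (R n)) q volume ≤ ENNReal.ofReal (5 / 4 * N * (1 / 4) ^ n) := by
    intro n
    have e : K1 n (R n) = fun t => (R n).1 t - ((R n).1 t - K1 n (R n) t) := by
      funext t; abel
    calc eLpNorm (K1 n (R n)) q volume
        = eLpNorm (fun t => (R n).1 t - ((R n).1 t - K1 n (R n) t)) q volume := by rw [← e]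
      _ ≤ eLpNorm (R n).1 q volume + eLpNorm (fun t => (R n).1 t - K1 n (R n) t) q volume :=
          eLpNorm_sub_le (R n).2.1.1 ((R n).2.1.1.sub (hKq n (R n)).1.1) hq1
      _ ≤ ENNReal.ofReal (N * (1 / 4) ^ n) + ENNReal.ofReal (N * (1 / 4) ^ (n + 1)) :=
          add_le_add (hRn n) (hKe n (R n))
      _ = ENNReal.ofReal (5 / 4 * N * (1 / 4) ^ n) := by
          rw [← ENNReal.ofReal_add (by positivity) (by positivity)]
          congr 1; rw [pow_succ]; ring
  choose F hFm hFp hFb using fun n => hB (K1 n (R n)) (hK2 n (R n)) (hKq n (R n))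
  have hFn : ∀ n, eLpNorm (F n) q volume ≤ ENNReal.ofReal ((5 / 4 * K * N) * (1 / 4) ^ n) := by
    intro n
    refine (hFb n).trans ((mul_le_mul_right (hkn n) _).trans (le_of_eq ?_))
    rw [← ENNReal.ofReal_mul hK.le]; congr 1; ring
  have hc : 0 ≤ 5 / 4 * K * N := by positivity
  have htail := v2_tail hq1 hc (fun n => (hFm n).1) hFn
  let S : ℕ → ℝ → E := fun n t => ∑ i ∈ Finset.range n, F i t
  have hSm : ∀ n, Hm q (S n) := by
    intro n
    induction n with
    | zero => simpa [S] using (v2_Hm_zero (E := E) (q := q))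
    | succ n ih =>
      have := hadd _ _ ih (hFm n)
      have e : S (n + 1) = fun t => S n t + F n t := by
        funext t; simp only [S]; rw [Finset.sum_range_succ]
      rw [e]; exact this
  have hSn : ∀ n, eLpNorm (S n) q volume ≤ ENNReal.ofReal (5 / 3 * K * N) := by
    intro n
    have := (htail 0 n).2
    simp only [zero_add] at this
    refine this.trans (ENNReal.ofReal_le_ofReal ?_)
    have h1 : 0 ≤ (1 / 4 : ℝ) ^ n := by positivity
    have h2 : 0 ≤ (5 / 4 * K * N) * (4 / 3) := by positivity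
    calc 5 / 4 * K * N * (1 / 4) ^ 0 * (4 / 3) * (1 - (1 / 4) ^ n)
        = ((5 / 4 * K * N) * (4 / 3)) * (1 - (1 / 4) ^ n) := by ring
      _ ≤ ((5 / 4 * K * N) * (4 / 3)) * 1 := by gcongr; linarith
      _ = 5 / 3 * K * N := by ring
  have hdiff : ∀ a b, a ≤ b → eLpNorm (S b - S a) q volume
      < ENNReal.ofReal ((2 * K * N) * (1 / 4) ^ a) := by
    intro a b hab
    obtain ⟨m, rfl⟩ := Nat.exists_eq_add_of_le hab
    have e : S (a + m) - S a = fun t => ∑ i ∈ Finset.range m, F (a + i) t := by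
      funext t
      simp only [S, Pi.sub_apply]
      rw [Finset.sum_range_add]; abel
    rw [e]
    refine (htail a m).2.trans_lt ?_
    refine (ENNReal.ofReal_lt_ofReal_iff (by positivity)).2 ?_
    have h1 : 0 ≤ (1 / 4 : ℝ) ^ m := by positivity
    have h3 : 0 < (1 / 4 : ℝ) ^ a := by positivity
    calc 5 / 4 * K * N * (1 / 4) ^ a * (4 / 3) * (1 - (1 / 4) ^ m)
        ≤ 5 / 4 * K * N * (1 / 4) ^ a * (4 / 3) * 1 := by gcongr; linarith
      _ = 5 / 3 * (K * N * (1 / 4) ^ a) := by ring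
      _ < 2 * (K * N * (1 / 4) ^ a) := by
          have : 0 < K * N * (1 / 4) ^ a := by positivity
          linarith
      _ = 2 * K * N * (1 / 4) ^ a := by ring
  have hcau : ∀ n a b, n ≤ a → n ≤ b → eLpNorm (S a - S b) q volume
      < ENNReal.ofReal ((2 * K * N) * (1 / 4) ^ n) := by
    intro n a b hna hnb
    have hmono : ∀ c, n ≤ c → ENNReal.ofReal ((2 * K * N) * (1 / 4) ^ c)
        ≤ ENNReal.ofReal ((2 * K * N) * (1 / 4) ^ n) := by
      intro c hc
      refine ENNReal.ofReal_le_ofReal ?_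
      have : (1 / 4 : ℝ) ^ c ≤ (1 / 4) ^ n := pow_le_pow_of_le_one (by norm_num) (by norm_num) hc
      gcongr
    rcases le_total a b with hab | hab
    · have h1 := hdiff a b hab
      rw [eLpNorm_sub_comm] at h1
      exact h1.trans_le (hmono a hna)
    · exact (hdiff b a hab).trans_le (hmono b hnb)
  have hsumB : ∑' n : ℕ, ENNReal.ofReal ((2 * K * N) * (1 / 4) ^ n) ≠ ⊤ := by
    have hs : Summable (fun n : ℕ => (2 * K * N) * (1 / 4 : ℝ) ^ n) :=
      (summable_geometric_of_lt_one (by norm_num) (by norm_num)).mul_left _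
    rw [← ENNReal.ofReal_tsum_of_nonneg (fun n => by positivity) hs]
    exact ENNReal.ofReal_ne_top
  obtain ⟨f, hf, hlim⟩ := Lp.cauchy_complete_eLpNorm hq1 (fun n => (hSm n).1) hsumB hcau
  have hlim' : Tendsto (fun n => eLpNorm (fun t => S n t - f t) q volume) atTop (𝓝 0) := hlim
  have hfm : Hm q f := hclosed f S hf hSm hlim'
  refine ⟨f, hfm, ?_, ?_⟩
  · refine hclosed' (fun t => G t (f t) - g t)
      (fun n t => ∑ i ∈ Finset.range n, (G t (F i t) - K1 i (R i) t))
      ((v2_memLp_app hG hM hf).sub hg.1) ?_ ?_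
    · intro n
      induction n with
      | zero => simpa using (v2_Hp_zero (E := E) (q := q))
      | succ n ih =>
        have := hadd' _ _ ih (hFp n)
        have e : (fun t => ∑ i ∈ Finset.range (n + 1), (G t (F i t) - K1 i (R i) t))
            = fun t => (∑ i ∈ Finset.range n, (G t (F i t) - K1 i (R i) t))
              + (G t (F n t) - K1 n (R n) t) := by
          funext t; rw [Finset.sum_range_succ]
        rw [e]; exact this
    · have hub : Tendsto (fun n : ℕ => ENNReal.ofReal M * eLpNorm (fun t => S n t - f t) q volume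
          + ENNReal.ofReal (N * (1 / 4) ^ n)) atTop (𝓝 0) := by
        have h1 : Tendsto (fun n : ℕ => ENNReal.ofReal M
            * eLpNorm (fun t => S n t - f t) q volume) atTop (𝓝 (ENNReal.ofReal M * 0)) :=
          ENNReal.Tendsto.const_mul hlim' (Or.inr ENNReal.ofReal_ne_top)
        have h2 : Tendsto (fun n : ℕ => ENNReal.ofReal (N * (1 / 4) ^ n)) atTop
            (𝓝 (ENNReal.ofReal (N * 0))) := by
          refine (ENNReal.continuous_ofReal.tendsto _).comp ?_
          exact (tendsto_pow_atTop_nhds_zero_of_lt_one (by norm_num) (by norm_num)).const_mul N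
        have h3 := h1.add h2
        simpa using h3
      refine tendsto_of_tendsto_of_tendsto_of_le_of_le tendsto_const_nhds hub
        (fun n => bot_le) (fun n => ?_)
      have e : (fun t => (∑ i ∈ Finset.range n, (G t (F i t) - K1 i (R i) t))
          - (G t (f t) - g t)) = fun t => G t (S n t - f t) + (R n).1 t := by
        funext t
        rw [hRsum, Finset.sum_sub_distrib, map_sub]
        simp only [S, map_sum]
        abel
      rw [e]
      refine (eLpNorm_add_le (v2_meas_app hG ((hSm n).1.1.sub hf.1)) (R n).2.1.1 hq1).trans ?_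
      exact add_le_add (v2_norm_app hM _) (hRn n)
  · have hb : ∀ n, eLpNorm f q volume ≤ ENNReal.ofReal (5 / 3 * K * N)
        + eLpNorm (fun t => S n t - f t) q volume := by
      intro n
      have e : f = fun t => S n t - (S n t - f t) := by funext t; abel
      calc eLpNorm f q volume = eLpNorm (fun t => S n t - (S n t - f t)) q volume := by rw [← e]
        _ ≤ eLpNorm (S n) q volume + eLpNorm (fun t => S n t - f t) q volume :=
            eLpNorm_sub_le (hSm n).1.1 ((hSm n).1.1.sub hf.1) hq1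
        _ ≤ _ := add_le_add_left (hSn n) _
    have hl : Tendsto (fun n => ENNReal.ofReal (5 / 3 * K * N)
        + eLpNorm (fun t => S n t - f t) q volume) atTop
        (𝓝 (ENNReal.ofReal (5 / 3 * K * N) + 0)) := tendsto_const_nhds.add hlim'
    have hfin := ge_of_tendsto' hl hb
    rw [add_zero] at hfin
    refine hfin.trans ?_
    rw [hgN, ← ENNReal.ofReal_mul (by positivity)]
    refine ENNReal.ofReal_le_ofReal ?_
    have : 0 < K * N := by positivity
    linarith

/-- Duality: a Toeplitz operator which is onto on `Hm p` (with bounded solutions) has an adjoint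
which is bounded below on `Hm q`. -/
theorem BB_adjoint_of_OO {p q : ℝ} (hp : 1 < p) (hpq : p.HolderConjugate q)
    (hconv : ∀ (u : ℝ → E), LocallyIntegrable u volume → ∀ (C : ℝ), 0 ≤ C →
      (∀ g : ℝ → E, AEStronglyMeasurable g volume → (∃ B : ℝ, ∀ t, ‖g t‖ ≤ B) →
        (∃ R : ℝ, ∀ t, R < |t| → g t = 0) →
        ‖∫ t, inner ℂ (g t) (u t)‖ ≤ C * (eLpNorm g (ENNReal.ofReal p) volume).toReal) →
      eLpNorm u (ENNReal.ofReal q) volume ≤ ENNReal.ofReal C)
    (horth : ∀ u v : ℝ → E, Hm (ENNReal.ofReal p) u → Hp (ENNReal.ofReal q) v →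
      ∫ t : ℝ, inner ℂ (u t) (v t) = 0)
    (horth' : ∀ u v : ℝ → E, Hp (ENNReal.ofReal p) u → Hm (ENNReal.ofReal q) v →
      ∫ t : ℝ, inner ℂ (u t) (v t) = 0)
    {C : ℝ} (hC : 0 < C)
    (hriesz : ∀ f : ℝ → E, MemLp f (ENNReal.ofReal p) volume → ∃ u v : ℝ → E,
      Hm (ENNReal.ofReal p) u ∧ Hp (ENNReal.ofReal p) v ∧ (∀ t, f t = u t + v t) ∧
      eLpNorm u (ENNReal.ofReal p) volume
        ≤ ENNReal.ofReal C * eLpNorm f (ENNReal.ofReal p) volume ∧
      eLpNorm v (ENNReal.ofReal p) volume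
        ≤ ENNReal.ofReal (1 + C) * eLpNorm f (ENNReal.ofReal p) volume)
    {G : ℝ → E →L[ℂ] E} (hG : Continuous G) {M : ℝ} (hM : ∀ t, ‖G t‖ ≤ M) {K : ℝ} (hK : 0 < K)
    (hO : ∀ g : ℝ → E, Hm (ENNReal.ofReal p) g → ∃ f : ℝ → E, Hm (ENNReal.ofReal p) f ∧
      Hp (ENNReal.ofReal p) (fun t => G t (f t) - g t) ∧
      eLpNorm f (ENNReal.ofReal p) volume
        ≤ ENNReal.ofReal K * eLpNorm g (ENNReal.ofReal p) volume) :
    BB (ENNReal.ofReal q) (fun t => ContinuousLinearMap.adjoint (G t)) (K * C) := by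
  intro f w hf hw hv
  have hp0 : (1 : ℝ≥0∞) ≤ ENNReal.ofReal p := by
    rw [← ENNReal.ofReal_one]; exact ENNReal.ofReal_le_ofReal hp.le
  have hq1 : 1 < q := hpq.symm.lt
  have hq0 : (1 : ℝ≥0∞) ≤ ENNReal.ofReal q := by
    rw [← ENNReal.ofReal_one]; exact ENNReal.ofReal_le_ofReal hq1.le
  have key := hconv f (hf.1.locallyIntegrable hq0)
    (K * C * (eLpNorm w (ENNReal.ofReal q) volume).toReal) (by positivity) ?_
  · rw [ENNReal.ofReal_mul (by positivity), ENNReal.ofReal_toReal hw.1.2.ne] at key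
    exact key
  · intro h hhm hhb hhs
    obtain ⟨B, hB⟩ := hhb
    obtain ⟨R, hR⟩ := hhs
    have hhp : MemLp h (ENNReal.ofReal p) volume := by
      have hind : h = (Set.Icc (-R) R).indicator h := by
        funext t
        by_cases ht : t ∈ Set.Icc (-R) R
        · rw [Set.indicator_of_mem ht]
        · rw [Set.indicator_of_notMem ht]
          refine hR t ?_
          by_contra hc
          exact ht (abs_le.1 (not_lt.1 hc))
      have hbase : MemLp ((Set.Icc (-R) R).indicator fun _ : ℝ => B) (ENNReal.ofReal p) volume := by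
        refine memLp_indicator_const _ measurableSet_Icc _ (Or.inr ?_)
        exact (measure_Icc_lt_top).ne
      refine hbase.mono hhm (Filter.Eventually.of_forall fun t => ?_)
      by_cases ht : t ∈ Set.Icc (-R) R
      · rw [Set.indicator_of_mem ht]
        exact (hB t).trans (le_abs_self _)
      · rw [hind, Set.indicator_of_notMem ht]
        simp
    obtain ⟨h1, h2, hh1, hh2, hsum, hb1, -⟩ := hriesz h hhp
    obtain ⟨k, hk, hGk, hbk⟩ := hO h1 hh1
    have e1 : ∫ t : ℝ, inner ℂ (h t) (f t) = ∫ t : ℝ, inner ℂ (h1 t) (f t) := by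
      have : ∀ t, inner ℂ (h t) (f t) = inner ℂ (h1 t) (f t) + inner ℂ (h2 t) (f t) := by
        intro t; rw [hsum t, inner_add_left]
      rw [integral_congr_ae (Filter.Eventually.of_forall this),
        integral_add (v2_holder hpq hh1.1 hf.1).1 (v2_holder hpq hh2.1 hf.1).1,
        horth' h2 f hh2 hf, add_zero]
    have e2 : ∫ t : ℝ, inner ℂ (h1 t) (f t) = ∫ t : ℝ, inner ℂ (G t (k t)) (f t) := by
      have : ∀ t, inner ℂ (G t (k t)) (f t)
          = inner ℂ (h1 t) (f t) + inner ℂ (G t (k t) - h1 t) (f t) := by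
        intro t; rw [inner_sub_left]; ring
      rw [integral_congr_ae (Filter.Eventually.of_forall this),
        integral_add (v2_holder hpq hh1.1 hf.1).1 (v2_holder hpq hGk.1 hf.1).1,
        horth' _ f hGk hf, add_zero]
    have e3 : ∫ t : ℝ, inner ℂ (G t (k t)) (f t) = ∫ t : ℝ, inner ℂ (k t) (w t) := by
      have : ∀ t, inner ℂ (G t (k t)) (f t)
          = inner ℂ (k t) (w t)
            + inner ℂ (k t) (ContinuousLinearMap.adjoint (G t) (f t) - w t) := by
        intro t
        rw [inner_sub_right, ContinuousLinearMap.adjoint_inner_right]; ring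
      rw [integral_congr_ae (Filter.Eventually.of_forall this),
        integral_add (v2_holder hpq hk.1 hw.1).1 (v2_holder hpq hk.1 hv.1).1,
        horth k _ hk hv, add_zero]
    rw [e1, e2, e3]
    refine (v2_holder hpq hk.1 hw.1).2.trans ?_
    have h5 : (eLpNorm k (ENNReal.ofReal p) volume).toReal
        ≤ K * C * (eLpNorm h (ENNReal.ofReal p) volume).toReal := by
      have h6 : eLpNorm k (ENNReal.ofReal p) volume
          ≤ ENNReal.ofReal K * (ENNReal.ofReal C * eLpNorm h (ENNReal.ofReal p) volume) :=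
        hbk.trans (by gcongr)
      have h7 := ENNReal.toReal_mono (by
        exact ENNReal.mul_ne_top ENNReal.ofReal_ne_top
          (ENNReal.mul_ne_top ENNReal.ofReal_ne_top hhp.2.ne)) h6
      rw [ENNReal.toReal_mul, ENNReal.toReal_mul, ENNReal.toReal_ofReal hK.le,
        ENNReal.toReal_ofReal hC.le] at h7
      linarith
    calc (eLpNorm k (ENNReal.ofReal p) volume).toReal
          * (eLpNorm w (ENNReal.ofReal q) volume).toReal
        ≤ (K * C * (eLpNorm h (ENNReal.ofReal p) volume).toReal)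
          * (eLpNorm w (ENNReal.ofReal q) volume).toReal := by gcongr
      _ = _ := by ring

end V2
end Pool.Agent.Helper865.TAP
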