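import Pool.Agent.Helper865.TAP.ThmB2
import Pool.Agent.Helper865.TAP.J6
import Pool.Agent.Helper865.TAP.C4
import Pool.Agent.Helper865.TAP.V1
import Pool.Agent.Helper865.TAP.V2
import Pool.Agent.Helper865.TAP.D5

set_option autoImplicit false

open MeasureTheory Filter Topology Set Metric
open scoped ENNReal NNReal

namespace Pool.Agent.Helper865.TAP

variable {E : Type*} [NormedAddCommGroup E] [InnerProductSpace ℂ E] [FiniteDimensional ℂ E]

theorem one_lt_ofReal {p : ℝ} (hp : 1 < p) : (1 : ℝ≥0∞) < ENNReal.ofReal p := by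
  rw [← ENNReal.ofReal_one]
  exact (ENNReal.ofReal_lt_ofReal_iff (by linarith)).2 hp

theorem thmB {G : ℝ → E →L[ℂ] E} (hG : IsAP G)
    (hsa : ∀ t, ContinuousLinearMap.adjoint (G t) = G t) {K : ℝ} (hK : 0 < K) (hBB : BB 2 G K)
    {p : ℝ} (hp : 1 < p) :
    ∃ C : ℝ, 0 < C ∧ ∀ u v : ℝ → E, Hm 2 u → Hp 2 v →
      eLpNorm u (ENNReal.ofReal p) volume
        ≤ ENNReal.ofReal C * eLpNorm (fun t => G t (u t) + v t) (ENNReal.ofReal p) volume := by
  obtain ⟨M, hM⟩ := B1.IsAP_bounded hG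
  have hGc : Continuous G := (B1.IsAP_uniformContinuous hG).continuous
  rcases lt_trichotomy p 2 with h | h | h
  · -- duality
    set q : ℝ := p.conjExponent with hqdef
    have hpq : p.HolderConjugate q := Real.HolderConjugate.conjExponent hp
    have hq : 2 < q := by
      rw [hqdef, Real.conjExponent, lt_div_iff₀ (by linarith)]
      linarith
    obtain ⟨C, hC, hgt⟩ := thmB_gt hG hsa hK hBB hq
    refine ⟨C, hC, fun u v hu hv => ?_⟩
    exact C4.thmB_dual hp hpq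
      (fun u hu C hC h => J6.eLpNorm_le_of_pairing hp hpq u hu C hC h)
      (fun _ _ hu hv => orth hu hv) hGc hM hsa
      (fun h hh => by
        obtain ⟨a, b, ha, hb, hab, _⟩ := solve_sa hGc hM hsa hK.le hBB hh
        exact ⟨a, b, ha, hb, hab⟩) hC hgt hu hv
  · subst h
    refine ⟨K, hK, fun u v hu hv => ?_⟩
    have h2 : ENNReal.ofReal 2 = 2 := by norm_num
    rw [h2]
    have hGu : MemLp (fun t => G t (u t)) 2 volume := A7.memLp_app hGc hM hu.1
    obtain ⟨w, v1, hw, hv1, hdec⟩ := decomp (hGu.add hv.1)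
    have h3 : Hp 2 (fun t => G t (u t) - w t) := by
      have h4 : Hp 2 (fun t => v1 t - v t) := A3.Hp_sub (by norm_num) (by norm_num) hv1 hv
      refine A3.Hp_congr h4 (Eventually.of_forall fun t => ?_)
      have := hdec t
      simp only [Pi.add_apply] at this
      have h5 : G t (u t) = w t + v1 t - v t := by rw [← this]; abel
      show v1 t - v t = G t (u t) - w t
      rw [h5]; abel
    calc eLpNorm u 2 volume ≤ ENNReal.ofReal K * eLpNorm w 2 volume := hBB u w hu hw h3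
      _ ≤ ENNReal.ofReal K * eLpNorm (fun t => w t + v1 t) 2 volume := by
        gcongr
        exact (E1.norm_Hm_le (fun _ _ hu hv => orth hu hv) hw hv1).1
      _ = _ := by
        congr 2
        funext t
        exact (hdec t).symm
  · exact thmB_gt hG hsa hK hBB h

theorem BB_one : BB 2 (fun _ : ℝ => (1 : E →L[ℂ] E)) 1 := by
  intro f w hf hw hfw
  have h1 : Hm 2 (fun t => f t - w t) := A3.Hm_sub (by norm_num) (by norm_num) hf hw
  have h2 : Hp 2 (fun t => f t - w t) := by simpa using hfw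
  have h3 := eq_zero_of_Hm_Hp (by norm_num) (by norm_num) h1 h2
  have h4 : f =ᵐ[volume] w := by
    filter_upwards [h3] with t ht
    simpa [sub_eq_zero] using ht
  rw [eLpNorm_congr_ae h4]
  simp

theorem adjoint_one' : ContinuousLinearMap.adjoint (1 : E →L[ℂ] E) = 1 := by
  have := ContinuousLinearMap.isSelfAdjoint_iff'.1 (IsSelfAdjoint.one (E →L[ℂ] E))
  exact this

/-- M. Riesz a priori bound. -/
theorem riesz_ap (E : Type*) [NormedAddCommGroup E] [InnerProductSpace ℂ E]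
    [FiniteDimensional ℂ E] {p : ℝ} (hp : 1 < p) :
    ∃ C : ℝ, 0 < C ∧ ∀ u v : ℝ → E, Hm 2 u → Hp 2 v →
      eLpNorm u (ENNReal.ofReal p) volume
        ≤ ENNReal.ofReal C * eLpNorm (fun t => u t + v t) (ENNReal.ofReal p) volume := by
  obtain ⟨C, hC, h⟩ := thmB (G := fun _ : ℝ => (1 : E →L[ℂ] E)) (B1.IsAP_const _)
    (fun _ => adjoint_one') one_pos BB_one hp
  refine ⟨C, hC, fun u v hu hv => ?_⟩
  simpa using h u v hu hv

/-- package of the `L^p` facts -/
theorem riesz_pkg (E : Type*) [NormedAddCommGroup E] [InnerProductSpace ℂ E]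
    [FiniteDimensional ℂ E] {p : ℝ} (hp : 1 < p) :
    ∃ C : ℝ, 0 < C ∧
      (∀ u v : ℝ → E, Hm 2 u → Hp 2 v →
        eLpNorm u (ENNReal.ofReal p) volume
          ≤ ENNReal.ofReal C * eLpNorm (fun t => u t + v t) (ENNReal.ofReal p) volume) ∧
      (∀ f : ℝ → E, MemLp f (ENNReal.ofReal p) volume → ∃ u v : ℝ → E,
        Hm (ENNReal.ofReal p) u ∧ Hp (ENNReal.ofReal p) v ∧ (∀ t, f t = u t + v t) ∧
        eLpNorm u (ENNReal.ofReal p) volume
          ≤ ENNReal.ofReal C * eLpNorm f (ENNReal.ofReal p) volume ∧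
        eLpNorm v (ENNReal.ofReal p) volume
          ≤ ENNReal.ofReal (1 + C) * eLpNorm f (ENNReal.ofReal p) volume) ∧
      (∀ u v : ℝ → E, Hm (ENNReal.ofReal p) u → Hp (ENNReal.ofReal p) v →
        eLpNorm u (ENNReal.ofReal p) volume
          ≤ ENNReal.ofReal C * eLpNorm (fun t => u t + v t) (ENNReal.ofReal p) volume ∧
        eLpNorm v (ENNReal.ofReal p) volume
          ≤ ENNReal.ofReal (1 + C) * eLpNorm (fun t => u t + v t) (ENNReal.ofReal p) volume) ∧
      (∀ (f : ℝ → E) (ε : ℝ), 0 < ε → Hm (ENNReal.ofReal p) f →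
        ∃ k : ℝ → E, Hm 2 k ∧ Hm (ENNReal.ofReal p) k ∧
        eLpNorm (fun t => f t - k t) (ENNReal.ofReal p) volume ≤ ENNReal.ofReal ε) ∧
      (∀ (f : ℝ → E) (ε : ℝ), 0 < ε → Hp (ENNReal.ofReal p) f →
        ∃ k : ℝ → E, Hp 2 k ∧ Hp (ENNReal.ofReal p) k ∧
        eLpNorm (fun t => f t - k t) (ENNReal.ofReal p) volume ≤ ENNReal.ofReal ε) := by
  obtain ⟨C, hC, hR⟩ := riesz_ap E hp
  have h1 := one_lt_ofReal hp
  have h2 : ENNReal.ofReal p ≠ ⊤ := ENNReal.ofReal_ne_top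
  have hriesz : ∀ f : ℝ → E, MemLp f (ENNReal.ofReal p) volume → ∃ u v : ℝ → E,
        Hm (ENNReal.ofReal p) u ∧ Hp (ENNReal.ofReal p) v ∧ (∀ t, f t = u t + v t) ∧
        eLpNorm u (ENNReal.ofReal p) volume
          ≤ ENNReal.ofReal C * eLpNorm f (ENNReal.ofReal p) volume ∧
        eLpNorm v (ENNReal.ofReal p) volume
          ≤ ENNReal.ofReal (1 + C) * eLpNorm f (ENNReal.ofReal p) volume := by
    intro f hf
    exact V1.riesz_Lp h1 h2 (fun _ hf => decomp hf)
      (fun _ _ hf hg => A3.Hm_sub (by norm_num) (by norm_num) hf hg)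
      (fun _ _ hf hg => A3.Hp_sub (by norm_num) (by norm_num) hf hg)
      (Hm_closed h1 h2) (Hp_closed h1 h2) hC hR hf
  have hR' : ∀ u v : ℝ → E, Hm (ENNReal.ofReal p) u → Hp (ENNReal.ofReal p) v →
        eLpNorm u (ENNReal.ofReal p) volume
          ≤ ENNReal.ofReal C * eLpNorm (fun t => u t + v t) (ENNReal.ofReal p) volume ∧
        eLpNorm v (ENNReal.ofReal p) volume
          ≤ ENNReal.ofReal (1 + C) * eLpNorm (fun t => u t + v t) (ENNReal.ofReal p) volume := by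
    intro u v hu hv
    exact V1.riesz_bound_Lp h1 h2 (fun _ hf hf' => eq_zero_of_Hm_Hp h1.le h2 hf hf')
      (fun _ _ hf hg => A3.Hm_sub h1 h2 hf hg) (fun _ _ hf hg => A3.Hp_sub h1 h2 hf hg)
      hriesz hu hv
  refine ⟨C, hC, hR, hriesz, hR', fun f ε hε hf => ?_, fun f ε hε hf => ?_⟩
  · exact (V1.dense_Hm_Lp h1 h2 (fun _ hf => decomp hf) (fun _ _ hf hg => A3.Hm_sub h1 h2 hf hg)
      (fun _ _ hf hg => A3.Hp_sub h1 h2 hf hg) hC hR hR' hε).1 hf
  · exact (V1.dense_Hm_Lp h1 h2 (fun _ hf => decomp hf) (fun _ _ hf hg => A3.Hm_sub h1 h2 hf hg)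
      (fun _ _ hf hg => A3.Hp_sub h1 h2 hf hg) hC hR hR' hε).2 hf

theorem orth_Lp {p q : ℝ} (hp : 1 < p) (hpq : p.HolderConjugate q)
    {u v : ℝ → E} (hu : Hm (ENNReal.ofReal p) u) (hv : Hp (ENNReal.ofReal q) v) :
    ∫ t : ℝ, inner ℂ (u t) (v t) = 0 := by
  have hq : 1 < q := hpq.symm.lt
  obtain ⟨C, hC, _, _, _, hd, _⟩ := riesz_pkg E hp
  obtain ⟨C', hC', _, _, _, _, hd'⟩ := riesz_pkg E hq
  exact V1.orth_Lp hp hpq (fun _ _ hu hv => orth hu hv) hd hd' hu hv

end Pool.Agent.Helper865.TAP
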