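import Pool.Agent.Helper865.TAP.Defs
import Pool.Agent.Helper865.ToepAP.Defs

set_option autoImplicit false

open MeasureTheory Filter Topology Set Metric
open scoped ENNReal NNReal BoundedContinuousFunction

namespace Pool.Agent.Helper865.TAP
namespace S4



open Pool.Agent.Helper865.ToepAP (expChar AP)

/-- The matrix function `G` as a function with values in the operators of `ℂⁿ`. -/
noncomputable def Gop {n : ℕ} (G : Matrix (Fin n) (Fin n) (ℝ →ᵇ ℂ)) (t : ℝ) :
    EuclideanSpace ℂ (Fin n) →L[ℂ] EuclideanSpace ℂ (Fin n) :=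
  Matrix.toEuclideanCLM (𝕜 := ℂ) (n := Fin n) (Matrix.of fun i j => G i j t)

theorem _root_.Pool.Agent.Helper865.TAP.TrigPoly.add' {X : Type*} [NormedAddCommGroup X] [NormedSpace ℂ X] {f g : ℝ → X}
    (hf : TrigPoly f) (hg : TrigPoly g) : TrigPoly (fun t => f t + g t) := by
  classical
  obtain ⟨s, a, ha⟩ := hf
  obtain ⟨s', a', ha'⟩ := hg
  refine ⟨s ∪ s', fun l => (if l ∈ s then a l else 0) + (if l ∈ s' then a' l else 0), ?_⟩
  intro t
  show f t + g t = _
  rw [ha t, ha' t]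
  simp_rw [smul_add]
  rw [Finset.sum_add_distrib]
  congr 1
  · rw [← Finset.sum_subset (Finset.subset_union_left : s ⊆ s ∪ s')]
    · apply Finset.sum_congr rfl
      intro l hl
      rw [if_pos hl]
    · intro l _ hl
      rw [if_neg hl, smul_zero]
  · rw [← Finset.sum_subset (Finset.subset_union_right : s' ⊆ s ∪ s')]
    · apply Finset.sum_congr rfl
      intro l hl
      rw [if_pos hl]
    · intro l _ hl
      rw [if_neg hl, smul_zero]

theorem _root_.Pool.Agent.Helper865.TAP.TrigPoly.smul' {X : Type*} [NormedAddCommGroup X] [NormedSpace ℂ X] {f : ℝ → X}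
    (c : ℂ) (hf : TrigPoly f) : TrigPoly (fun t => c • f t) := by
  obtain ⟨s, a, ha⟩ := hf
  refine ⟨s, fun l => c • a l, ?_⟩
  intro t
  show c • f t = _
  rw [ha t, Finset.smul_sum]
  apply Finset.sum_congr rfl
  intro l _
  rw [smul_comm]

theorem _root_.Pool.Agent.Helper865.TAP.TrigPoly.zero' {X : Type*} [NormedAddCommGroup X] [NormedSpace ℂ X] :
    TrigPoly (fun _ => (0 : X)) := ⟨∅, fun _ => 0, fun _ => by simp⟩

theorem _root_.Pool.Agent.Helper865.TAP.TrigPoly.smul_vec' {X : Type*} [NormedAddCommGroup X] [NormedSpace ℂ X] {f : ℝ → ℂ}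
    (hf : TrigPoly f) (v : X) : TrigPoly (fun t => f t • v) := by
  obtain ⟨s, a, ha⟩ := hf
  refine ⟨s, fun l => a l • v, ?_⟩
  intro t
  show f t • v = _
  rw [ha t, Finset.sum_smul]
  apply Finset.sum_congr rfl
  intro l _
  rw [smul_assoc]

theorem _root_.Pool.Agent.Helper865.TAP.TrigPoly.sum' {X : Type*} [NormedAddCommGroup X] [NormedSpace ℂ X] {ι : Type*}
    (s : Finset ι) (f : ι → ℝ → X) (hf : ∀ i ∈ s, TrigPoly (f i)) :
    TrigPoly (fun t => ∑ i ∈ s, f i t) := by
  classical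
  induction s using Finset.induction_on with
  | empty => simpa using TrigPoly.zero'
  | insert i s hi ih =>
    have h1 := (hf i (Finset.mem_insert_self _ _)).add'
      (ih (fun j hj => hf j (Finset.mem_insert_of_mem hj)))
    simpa [Finset.sum_insert hi] using h1

theorem Gop_apply {n : ℕ} (G : Matrix (Fin n) (Fin n) (ℝ →ᵇ ℂ)) (t : ℝ)
    (x : EuclideanSpace ℂ (Fin n)) (i : Fin n) : Gop G t x i = ∑ j, G i j t * x j := by
  unfold Gop
  have h1 := congrFun (Matrix.ofLp_toEuclideanCLM (𝕜 := ℂ) (Matrix.of fun i j => G i j t) x) i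
  have h2 : ((Matrix.toEuclideanCLM (𝕜 := ℂ) (n := Fin n) (Matrix.of fun i j => G i j t)) x) i
      = ((Matrix.of fun i j => G i j t).mulVec (WithLp.ofLp x)) i := h1
  rw [h2]
  rfl

theorem IsAP_of_mem_AP {g : ℝ →ᵇ ℂ} (hg : g ∈ AP) : IsAP (fun t => g t) := by
  intro ε hε
  have h1 : g ∈ closure ((Submodule.span ℂ (Set.range expChar) : Submodule ℂ (ℝ →ᵇ ℂ)) :
      Set (ℝ →ᵇ ℂ)) := hg
  obtain ⟨h, hh, hgh⟩ := Metric.mem_closure_iff.1 h1 ε hε
  refine ⟨fun t => h t, ?_, ?_⟩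
  · have hh' : h ∈ Submodule.span ℂ (Set.range expChar) := hh
    clear hgh hh
    induction hh' using Submodule.span_induction with
    | mem x hx =>
      obtain ⟨l, rfl⟩ := hx
      refine ⟨{l}, fun _ => 1, fun t => ?_⟩
      rw [Finset.sum_singleton]
      show Complex.exp (Complex.I * l * t) = Complex.exp (Complex.I * l * t) • (1 : ℂ)
      rw [smul_eq_mul, mul_one]
    | zero => exact TrigPoly.zero'
    | add x y _ _ hx hy => exact hx.add' hy
    | smul c x _ hx => exact hx.smul' c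
  · intro t
    rw [← dist_eq_norm]
    exact (BoundedContinuousFunction.dist_coe_le_dist t).trans hgh.le

theorem IsAP_Gop {n : ℕ} (G : Matrix (Fin n) (Fin n) (ℝ →ᵇ ℂ)) (hG : ∀ i j, G i j ∈ AP) :
    IsAP (Gop G) := by
  intro ε hε
  classical
  let E : Fin n → Fin n → (EuclideanSpace ℂ (Fin n) →L[ℂ] EuclideanSpace ℂ (Fin n)) :=
    fun i j => Matrix.toEuclideanCLM (𝕜 := ℂ) (n := Fin n) (Matrix.single i j 1)
  have hE : ∀ (M : Matrix (Fin n) (Fin n) ℂ),
      Matrix.toEuclideanCLM (𝕜 := ℂ) (n := Fin n) M = ∑ i, ∑ j, M i j • E i j := by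
    intro M
    conv_lhs => rw [Matrix.matrix_eq_sum_single M]
    rw [map_sum]
    apply Finset.sum_congr rfl
    intro i _
    rw [map_sum]
    apply Finset.sum_congr rfl
    intro j _
    rw [← map_smul, Matrix.smul_single, smul_eq_mul, mul_one]
  obtain ⟨S, hS⟩ : ∃ S, S = ∑ i, ∑ j, ‖E i j‖ := ⟨_, rfl⟩
  have hS0 : 0 ≤ S := by rw [hS]; positivity
  have hε' : 0 < ε / (S + 1) := by positivity
  have hch : ∀ i j, ∃ g : ℝ → ℂ, TrigPoly g ∧ ∀ t, ‖G i j t - g t‖ ≤ ε / (S + 1) := fun i j =>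
    IsAP_of_mem_AP (hG i j) _ hε'
  choose g hg hg' using hch
  refine ⟨fun t => ∑ i, ∑ j, g i j t • E i j, ?_, ?_⟩
  · apply TrigPoly.sum'
    intro i _
    apply TrigPoly.sum'
    intro j _
    exact (hg i j).smul_vec' _
  · intro t
    have h1 : Gop G t = ∑ i, ∑ j, G i j t • E i j := hE _
    have h2 : Gop G t - ∑ i, ∑ j, g i j t • E i j = ∑ i, ∑ j, (G i j t - g i j t) • E i j := by
      rw [h1, ← Finset.sum_sub_distrib]
      apply Finset.sum_congr rfl
      intro i _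
      rw [← Finset.sum_sub_distrib]
      apply Finset.sum_congr rfl
      intro j _
      exact (sub_smul _ _ _).symm
    show ‖Gop G t - ∑ i, ∑ j, g i j t • E i j‖ ≤ ε
    rw [h2]
    calc ‖∑ i, ∑ j, (G i j t - g i j t) • E i j‖
        ≤ ∑ i, ‖∑ j, (G i j t - g i j t) • E i j‖ := norm_sum_le _ _
      _ ≤ ∑ i, ∑ j, ‖(G i j t - g i j t) • E i j‖ :=
          Finset.sum_le_sum fun i _ => norm_sum_le _ _
      _ ≤ ∑ i, ∑ j, ε / (S + 1) * ‖E i j‖ := by
          apply Finset.sum_le_sum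
          intro i _
          apply Finset.sum_le_sum
          intro j _
          rw [norm_smul]
          exact mul_le_mul_of_nonneg_right (hg' i j t) (norm_nonneg _)
      _ = ε / (S + 1) * S := by
          rw [hS]
          simp_rw [Finset.mul_sum]
      _ ≤ ε := by
          rw [div_mul_eq_mul_div, div_le_iff₀ (by linarith)]
          nlinarith

/-- An escaping sequence of almost periods for all entries. -/
theorem exists_escaping_periods {n : ℕ} (G : Matrix (Fin n) (Fin n) (ℝ →ᵇ ℂ))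
    (hG : ∀ i j, G i j ∈ AP)
    (hper : ∀ (F : ℝ → EuclideanSpace ℂ (Fin n) →L[ℂ] EuclideanSpace ℂ (Fin n)), IsAP F →
      ∀ ε : ℝ, 0 < ε → ∃ H : ℝ, 0 < H ∧ ∀ x : ℝ, ∃ τ : ℝ, x - H ≤ τ ∧ τ ≤ x + H ∧
        ∀ t, ‖F (t + τ) - F t‖ ≤ ε) :
    ∃ h : ℕ → ℝ, Tendsto (fun j => |h j|) atTop atTop ∧
      ∀ i k, Tendsto (fun j => ‖(G i k).compContinuous
        ⟨fun t => t + h j, by fun_prop⟩ - G i k‖) atTop (𝓝 0) := by
  have hch : ∀ j : ℕ, ∃ τ : ℝ, (j : ℝ) ≤ τ ∧ ∀ t, ‖Gop G (t + τ) - Gop G t‖ ≤ 1 / ((j : ℝ) + 1) := by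
    intro j
    obtain ⟨H, hH, hH'⟩ := hper (Gop G) (IsAP_Gop G hG) (1 / ((j : ℝ) + 1)) (by positivity)
    obtain ⟨τ, h1, _, h3⟩ := hH' (j + H)
    exact ⟨τ, by linarith, h3⟩
  choose h hh hh' using hch
  refine ⟨h, ?_, ?_⟩
  · apply tendsto_atTop_mono (fun j => (hh j).trans (le_abs_self _))
    exact tendsto_natCast_atTop_atTop
  · intro i k
    apply squeeze_zero (fun j => norm_nonneg _) (g := fun j : ℕ => 1 / ((j : ℝ) + 1)) _
      tendsto_one_div_add_atTop_nhds_zero_nat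
    intro j
    rw [BoundedContinuousFunction.norm_le (by positivity)]
    intro t
    have h1 := hh' j t
    have h2 : (Gop G (t + h j) - Gop G t) (EuclideanSpace.single k 1) i
        = G i k (t + h j) - G i k t := by
      rw [sub_apply, PiLp.sub_apply, Gop_apply, Gop_apply]
      simp
    have h3 : ‖(Gop G (t + h j) - Gop G t) (EuclideanSpace.single k 1)‖ ≤ 1 / ((j : ℝ) + 1) := by
      apply (ContinuousLinearMap.le_opNorm _ _).trans
      rw [PiLp.norm_single, norm_one, mul_one]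
      exact h1
    have h4 := (PiLp.norm_apply_le ((Gop G (t + h j) - Gop G t)
      (EuclideanSpace.single k 1)) i).trans h3
    rw [h2] at h4
    exact h4

end S4
end Pool.Agent.Helper865.TAP
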