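import Pool.Agent.Helper865.TAP.Defs


set_option autoImplicit false

open MeasureTheory Filter Topology Set Metric
open scoped ENNReal NNReal BoundedContinuousFunction

namespace Pool.Agent.Helper865.TAP
namespace S5



/-- Surjectivity with bounds on the function level. -/
def OO {E : Type*} [NormedAddCommGroup E] [InnerProductSpace ℂ E] (p : ℝ≥0∞)
    (G : ℝ → E →L[ℂ] E) (K : ℝ) : Prop :=
  ∀ g : ℝ → E, Hm p g → ∃ f : ℝ → E, Hm p f ∧ Hp p (fun t => G t (f t) - g t) ∧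
    eLpNorm f p volume ≤ ENNReal.ofReal K * eLpNorm g p volume


section aux

variable {p : ℝ≥0∞} [Fact (1 ≤ p)] {n : ℕ} {Hmi : Submodule ℂ (Lp ℂ p (volume : Measure ℝ))}

theorem rel_norm1 (u : ℝ → EuclideanSpace ℂ (Fin n)) (f : Fin n → Hmi)
    (h : ∀ i, ((f i : Lp ℂ p (volume : Measure ℝ)) : ℝ → ℂ) =ᵐ[volume] fun t => u t i) :
    ENNReal.ofReal ‖f‖ ≤ eLpNorm u p volume := by
  by_cases htop : eLpNorm u p volume = ⊤
  · rw [htop]; exact le_top
  rw [ENNReal.ofReal_le_iff_le_toReal htop, pi_norm_le_iff_of_nonneg ENNReal.toReal_nonneg]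
  intro i
  have h2 : ‖f i‖ = (eLpNorm ((f i : Lp ℂ p (volume : Measure ℝ)) : ℝ → ℂ) p volume).toReal := by
    rw [Submodule.coe_norm, Lp.norm_def]
  rw [h2, eLpNorm_congr_ae (h i)]
  apply ENNReal.toReal_mono htop
  apply eLpNorm_mono
  intro t
  exact PiLp.norm_apply_le _ _

omit [Fact (1 ≤ p)] in
theorem coeFn_sum' {ι : Type*} (s : Finset ι) (f : ι → Lp ℂ p (volume : Measure ℝ)) :
    ((∑ i ∈ s, f i : Lp ℂ p (volume : Measure ℝ)) : ℝ → ℂ) =ᵐ[volume]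
      ∑ i ∈ s, ((f i : Lp ℂ p (volume : Measure ℝ)) : ℝ → ℂ) := by
  classical
  induction s using Finset.induction_on with
  | empty =>
    simp only [Finset.sum_empty]
    exact Lp.coeFn_zero _ _ _
  | insert a s ha ih =>
    rw [Finset.sum_insert ha, Finset.sum_insert ha]
    exact (Lp.coeFn_add _ _).trans (Filter.EventuallyEq.rfl.add ih)

theorem norm_le_sum_coord (x : EuclideanSpace ℂ (Fin n)) : ‖x‖ ≤ ∑ i, ‖x i‖ := by
  rw [EuclideanSpace.norm_eq, Real.sqrt_le_iff]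
  exact ⟨Finset.sum_nonneg fun _ _ => norm_nonneg _,
    Finset.sum_sq_le_sq_sum_of_nonneg fun _ _ => norm_nonneg _⟩

theorem rel_norm2 (u : ℝ → EuclideanSpace ℂ (Fin n)) (f : Fin n → Hmi)
    (h : ∀ i, ((f i : Lp ℂ p (volume : Measure ℝ)) : ℝ → ℂ) =ᵐ[volume] fun t => u t i) :
    eLpNorm u p volume ≤ (n : ℝ≥0∞) * ENNReal.ofReal ‖f‖ := by
  have h3 : ∀ i, AEStronglyMeasurable (fun t => u t i) volume :=
    fun i => (Lp.aestronglyMeasurable _).congr (h i)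
  calc eLpNorm u p volume ≤ eLpNorm (∑ i, fun t => ‖u t i‖) p volume := by
        apply eLpNorm_mono
        intro t
        rw [Finset.sum_apply]
        refine (norm_le_sum_coord _).trans (le_abs_self _)
    _ ≤ ∑ i, eLpNorm (fun t => ‖u t i‖) p volume :=
        eLpNorm_sum_le (fun i _ => (h3 i).norm) Fact.out
    _ = ∑ i, ENNReal.ofReal ‖f i‖ := by
        refine Finset.sum_congr rfl fun i _ => ?_
        rw [eLpNorm_norm, ← eLpNorm_congr_ae (h i), Submodule.coe_norm, Lp.norm_def,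
          ENNReal.ofReal_toReal (Lp.eLpNorm_ne_top _)]
    _ ≤ ∑ i : Fin n, ENNReal.ofReal ‖f‖ :=
        Finset.sum_le_sum fun i _ => ENNReal.ofReal_le_ofReal (norm_le_pi_norm f i)
    _ = n * ENNReal.ofReal ‖f‖ := by simp

end aux

/-- Translation between the operator `T_G` on the `n`-fold product of the scalar Hardy space and
the function-level properties `BB`, `OO` of the operator-valued symbol. -/
theorem link {p : ℝ≥0∞} [Fact (1 ≤ p)] (h1 : 1 < p) (h2 : p ≠ ⊤)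
    (Hmi Hpl : Submodule ℂ (Lp ℂ p (volume : Measure ℝ)))
    (hmi : ∀ f : Lp ℂ p (volume : Measure ℝ), f ∈ Hmi ↔ Hm p (f : ℝ → ℂ))
    (hpl : ∀ f : Lp ℂ p (volume : Measure ℝ), f ∈ Hpl ↔ Hp p (f : ℝ → ℂ))
    (hcl : IsClosed (Hmi : Set (Lp ℂ p (volume : Measure ℝ))))
    (P : Lp ℂ p (volume : Measure ℝ) →L[ℂ] Hmi)
    (hP1 : ∀ f : Hmi, P f = f) (hP2 : ∀ f ∈ Hpl, P f = 0)
    (hP3 : ∀ f : Lp ℂ p (volume : Measure ℝ), f - P f ∈ Hpl)
    {n : ℕ} (G : Matrix (Fin n) (Fin n) (ℝ →ᵇ ℂ))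
    (mul : (ℝ →ᵇ ℂ) → Lp ℂ p (volume : Measure ℝ) →L[ℂ] Lp ℂ p (volume : Measure ℝ))
    (hmul : ∀ (g : ℝ →ᵇ ℂ) (f : Lp ℂ p (volume : Measure ℝ)),
      (mul g f : ℝ → ℂ) =ᵐ[volume] fun t => g t * f t)
    (T : (Fin n → Hmi) →L[ℂ] (Fin n → Hmi))
    (hT : ∀ f i, T f i = ∑ j, P (mul (G i j) (f j)))
    (Gop : ℝ → EuclideanSpace ℂ (Fin n) →L[ℂ] EuclideanSpace ℂ (Fin n))
    (hGop : ∀ t x i, Gop t x i = ∑ j, G i j t * x j)
    (hcomp : ∀ u : ℝ → EuclideanSpace ℂ (Fin n), Hm p u ↔ ∀ i, Hm p (fun t => u t i))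
    (hcomp' : ∀ u : ℝ → EuclideanSpace ℂ (Fin n), Hp p u ↔ ∀ i, Hp p (fun t => u t i))
    (hcongr : ∀ f g : ℝ → ℂ, Hm p f → f =ᵐ[volume] g → Hm p g)
    (hcongr' : ∀ f g : ℝ → ℂ, Hp p f → f =ᵐ[volume] g → Hp p g) :
    ((∃ K : ℝ, 0 < K ∧ BB p Gop K) ↔ ∃ c : ℝ, 0 < c ∧ ∀ f, ‖f‖ ≤ c * ‖T f‖) ∧
    ((∃ K : ℝ, 0 < K ∧ OO p Gop K) ↔ Function.Surjective T) := by
  classical
  -- the key equivalence
  have key : ∀ (u w : ℝ → EuclideanSpace ℂ (Fin n)) (f v : Fin n → Hmi),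
      (∀ i, ((f i : Lp ℂ p (volume : Measure ℝ)) : ℝ → ℂ) =ᵐ[volume] fun t => u t i) →
      (∀ i, ((v i : Lp ℂ p (volume : Measure ℝ)) : ℝ → ℂ) =ᵐ[volume] fun t => w t i) →
      (Hp p (fun t => Gop t (u t) - w t) ↔ T f = v) := by
    intro u w f v hf hv
    rw [hcomp', funext_iff]
    refine forall_congr' fun i => ?_
    have hae : ((∑ j, mul (G i j) (f j) - (v i : Lp ℂ p (volume : Measure ℝ)) :
        Lp ℂ p (volume : Measure ℝ)) : ℝ → ℂ) =ᵐ[volume] fun t => (Gop t (u t) - w t) i := by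
      have e1 := Lp.coeFn_sub (∑ j, mul (G i j) (f j)) (v i : Lp ℂ p (volume : Measure ℝ))
      have e2 : ((∑ j, mul (G i j) (f j) : Lp ℂ p (volume : Measure ℝ)) : ℝ → ℂ) =ᵐ[volume]
          ∑ j, ((mul (G i j) (f j) : Lp ℂ p (volume : Measure ℝ)) : ℝ → ℂ) := coeFn_sum' _ _
      have e3 : ∀ᵐ t ∂(volume : Measure ℝ), ∀ j,
          ((mul (G i j) (f j) : Lp ℂ p (volume : Measure ℝ)) : ℝ → ℂ) t = G i j t * (f j : Lp ℂ p (volume : Measure ℝ)) t :=
        ae_all_iff.2 fun j => hmul (G i j) (f j)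
      have e4 : ∀ᵐ t ∂(volume : Measure ℝ), ∀ j,
          ((f j : Lp ℂ p (volume : Measure ℝ)) : ℝ → ℂ) t = u t j := ae_all_iff.2 fun j => hf j
      filter_upwards [e1, e2, e3, e4, hv i] with t t1 t2 t3 t4 t5
      rw [t1, Pi.sub_apply, t2, t5, Finset.sum_apply, PiLp.sub_apply, hGop]
      congr 1
      refine Finset.sum_congr rfl fun j _ => ?_
      rw [t3, t4]
    have hTi : T f i = P (∑ j, mul (G i j) (f j)) := by rw [hT, map_sum]
    rw [hTi]
    constructor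
    · intro h
      have h3 : (∑ j, mul (G i j) (f j) - (v i : Lp ℂ p (volume : Measure ℝ))) ∈ Hpl :=
        (hpl _).2 (hcongr' _ _ h hae.symm)
      have h4 := hP2 _ h3
      rw [map_sub, sub_eq_zero] at h4
      rw [h4, hP1]
    · intro h
      have h3 := hP3 (∑ j, mul (G i j) (f j))
      rw [h] at h3
      exact hcongr' _ _ ((hpl _).1 h3) hae
  -- from operators to functions
  have vec : ∀ f : Fin n → Hmi, ∃ u : ℝ → EuclideanSpace ℂ (Fin n), Hm p u ∧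
      (∀ i, ((f i : Lp ℂ p (volume : Measure ℝ)) : ℝ → ℂ) =ᵐ[volume] fun t => u t i) := by
    intro f
    refine ⟨fun t => WithLp.toLp 2 (fun i => ((f i : Lp ℂ p (volume : Measure ℝ)) : ℝ → ℂ) t),
      ?_, ?_⟩
    · rw [hcomp]
      intro i
      exact (hmi _).1 (f i).2
    · intro i
      exact Filter.EventuallyEq.rfl
  have dev : ∀ u : ℝ → EuclideanSpace ℂ (Fin n), Hm p u → ∃ f : Fin n → Hmi,
      (∀ i, ((f i : Lp ℂ p (volume : Measure ℝ)) : ℝ → ℂ) =ᵐ[volume] fun t => u t i) := by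
    intro u hu
    rw [hcomp] at hu
    exact ⟨fun i => ⟨(hu i).1.toLp, (hmi _).2 (hcongr _ _ (hu i) (MemLp.coeFn_toLp _).symm)⟩,
      fun i => MemLp.coeFn_toLp (hu i).1⟩
  have hn : (n : ℝ≥0∞) = ENNReal.ofReal (n : ℝ) := by simp
  have hn0 : (0 : ℝ) ≤ n := by positivity
  constructor
  · constructor
    · rintro ⟨K, hK, hB⟩
      refine ⟨K * n + 1, by positivity, fun f => ?_⟩
      obtain ⟨u, hu, huf⟩ := vec f
      obtain ⟨w, hw, hwf⟩ := vec (T f)
      have h3 := hB u w hu hw ((key u w f (T f) huf hwf).2 rfl)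
      have h4 := rel_norm1 u f huf
      have h5 := rel_norm2 w (T f) hwf
      have h6 : ENNReal.ofReal ‖f‖ ≤ ENNReal.ofReal (K * (n * ‖T f‖)) := by
        rw [ENNReal.ofReal_mul hK.le, ENNReal.ofReal_mul hn0, ← hn]
        refine h4.trans (h3.trans ?_)
        gcongr
      rw [ENNReal.ofReal_le_ofReal_iff (by positivity)] at h6
      have h7 : 0 ≤ ‖T f‖ := norm_nonneg _
      nlinarith
    · rintro ⟨c, hc, hB⟩
      refine ⟨n * c + 1, by positivity, ?_⟩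
      intro u w hu hw hp
      obtain ⟨f, hf⟩ := dev u hu
      obtain ⟨v, hv⟩ := dev w hw
      have h3 : T f = v := (key u w f v hf hv).1 hp
      have h4 := rel_norm2 u f hf
      have h5 := rel_norm1 w v hv
      have h6 := hB f
      rw [h3] at h6
      calc eLpNorm u p volume ≤ (n : ℝ≥0∞) * ENNReal.ofReal ‖f‖ := h4
        _ ≤ (n : ℝ≥0∞) * ENNReal.ofReal (c * ‖v‖) := by gcongr
        _ = ENNReal.ofReal (n * c) * ENNReal.ofReal ‖v‖ := by
            rw [hn, ENNReal.ofReal_mul hc.le, ENNReal.ofReal_mul hn0, mul_assoc]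
        _ ≤ ENNReal.ofReal (n * c + 1) * eLpNorm w p volume := by
            gcongr
            linarith
  · constructor
    · rintro ⟨K, hK, hO⟩ g
      obtain ⟨w, hw, hwg⟩ := vec g
      obtain ⟨u, hu, hp, -⟩ := hO w hw
      obtain ⟨f, hf⟩ := dev u hu
      exact ⟨f, (key u w f g hf hwg).1 hp⟩
    · intro hs
      have : CompleteSpace Hmi := hcl.completeSpace_coe
      obtain ⟨C, hC, hC2⟩ := ContinuousLinearMap.exists_preimage_norm_le (σ := RingHom.id ℂ) (σ' := RingHom.id ℂ) (E := Fin n → Hmi) (F := Fin n → Hmi) T hs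
      refine ⟨n * C + 1, by positivity, ?_⟩
      intro g hg
      obtain ⟨v, hv⟩ := dev g hg
      obtain ⟨f, hf, hfn⟩ := hC2 v
      obtain ⟨u, hu, huf⟩ := vec f
      refine ⟨u, hu, (key u g f v huf hv).2 hf, ?_⟩
      have h4 := rel_norm2 u f huf
      have h5 := rel_norm1 g v hv
      calc eLpNorm u p volume ≤ (n : ℝ≥0∞) * ENNReal.ofReal ‖f‖ := h4
        _ ≤ (n : ℝ≥0∞) * ENNReal.ofReal (C * ‖v‖) := by gcongr
        _ = ENNReal.ofReal (n * C) * ENNReal.ofReal ‖v‖ := by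
            rw [hn, ENNReal.ofReal_mul hC.le, ENNReal.ofReal_mul hn0, mul_assoc]
        _ ≤ ENNReal.ofReal (n * C + 1) * eLpNorm g p volume := by
            gcongr
            linarith

end S5
end Pool.Agent.Helper865.TAP
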