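import Pool.Agent.Helper865.TAP.Indep1
import Pool.Agent.Helper865.TAP.J5
import Pool.Agent.Helper865.TAP.D1
import Pool.Agent.Helper865.TAP.D2
import Pool.Agent.Helper865.TAP.F1
import Pool.Agent.Helper865.TAP.F3

set_option autoImplicit false

open MeasureTheory Filter Topology Set Metric
open scoped ENNReal NNReal

namespace Pool.Agent.Helper865.TAP

variable {E : Type*} [NormedAddCommGroup E] [InnerProductSpace ℂ E] [FiniteDimensional ℂ E]

/-- finite sum of Cauchy kernels -/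
noncomputable def csum (s : Finset ℂ) (c : ℂ → E) (t : ℝ) : E := ∑ b ∈ s, ((t : ℂ) - b)⁻¹ • c b

theorem Hm_csum {p : ℝ≥0∞} (hp : 1 < p) (hp' : p ≠ ⊤) (s : Finset ℂ) (c : ℂ → E)
    (hs : ∀ b ∈ s, 0 < b.im) : Hm p (csum s c) :=
  A3.Hm_sum hp hp' s fun b hb => cauchy_Hm hp b (hs b hb) (c b)

/-- exponents of the explicit image -/
noncomputable def lE (i : ℝ × ℂ) : ℝ := if i.1 ≤ 0 then i.1 else 0

/-- coefficients of the explicit image -/
noncomputable def xE (a : ℝ → E →L[ℂ] E) (c : ℂ → E) (i : ℝ × ℂ) : E :=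
  if i.1 ≤ 0 then a i.1 (c i.2) else Complex.exp (Complex.I * i.1 * i.2) • a i.1 (c i.2)

/-- explicit image of a Cauchy kernel sum under the Toeplitz operator of a trigonometric
polynomial -/
noncomputable def imF (sA : Finset ℝ) (a : ℝ → E →L[ℂ] E) (s : Finset ℂ) (c : ℂ → E) (t : ℝ) : E :=
  ∑ i ∈ sA ×ˢ s, Complex.exp (Complex.I * lE i * t) • (((t : ℂ) - i.2)⁻¹ • xE a c i)

theorem lE_le (i : ℝ × ℂ) : lE i ≤ 0 := by
  unfold lE
  split_ifs with h
  · exact h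
  · exact le_rfl

theorem Hm_imF {p : ℝ≥0∞} (hp : 1 < p) (hp' : p ≠ ⊤) (sA : Finset ℝ) (a : ℝ → E →L[ℂ] E)
    (s : Finset ℂ) (c : ℂ → E) (hs : ∀ b ∈ s, 0 < b.im) : Hm p (imF sA a s c) := by
  refine A3.Hm_sum hp hp' _ fun i hi => ?_
  exact exp_cauchy_Hm hp i.2 (hs _ (Finset.mem_product.1 hi).2) _ (lE_le i) _

theorem Hp_imF {p : ℝ≥0∞} (hp : 1 < p) (hp' : p ≠ ⊤) (sA : Finset ℝ) (a : ℝ → E →L[ℂ] E)
    (s : Finset ℂ) (c : ℂ → E) (hs : ∀ b ∈ s, 0 < b.im) :
    Hp p (fun t : ℝ => (∑ l ∈ sA, Complex.exp (Complex.I * l * t) • a l) (csum s c t)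
      - imF sA a s c t) := by
  have h1 : ∀ i ∈ sA ×ˢ s, Hp p (fun t : ℝ =>
      Complex.exp (Complex.I * i.1 * t) • (((t : ℂ) - i.2)⁻¹ • a i.1 (c i.2))
      - Complex.exp (Complex.I * lE i * t) • (((t : ℂ) - i.2)⁻¹ • xE a c i)) := by
    intro i hi
    have hi2 := hs _ (Finset.mem_product.1 hi).2
    by_cases h : i.1 ≤ 0
    · have h0 : Hp p (fun _ : ℝ => (0 : E)) := ⟨MemLp.zero, fun a _ => by simp⟩
      refine A3.Hp_congr h0 (Eventually.of_forall fun t => ?_)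
      simp [lE, xE, h]
    · have h2 := exp_cauchy_Hp hp i.2 hi2 i.1 (not_le.1 h).le (a i.1 (c i.2))
      refine A3.Hp_congr h2 (Eventually.of_forall fun t => ?_)
      simp only [lE, xE, h, if_false]
      simp only [Complex.ofReal_zero, mul_zero, zero_mul, Complex.exp_zero, one_smul]
      rw [sub_smul]
      congr 1
      rw [smul_comm]
  have h2 := A3.Hp_sum hp hp' (sA ×ˢ s) h1
  refine A3.Hp_congr h2 (Eventually.of_forall fun t => ?_)
  simp only [imF, Finset.sum_sub_distrib]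
  congr 1
  rw [Finset.sum_product, ContinuousLinearMap.sum_apply]
  refine Finset.sum_congr rfl fun l _ => ?_
  rw [csum, ContinuousLinearMap.smul_apply, map_sum, Finset.smul_sum]
  refine Finset.sum_congr rfl fun b _ => ?_
  rw [map_smul]

theorem eLpNorm_two_eq {f : ℝ → E} (hf : MemLp f 2 volume) :
    eLpNorm f 2 volume = ENNReal.ofReal (Real.sqrt (∫ t, ‖f t‖ ^ 2)) := by
  rw [hf.eLpNorm_eq_integral_rpow_norm (by norm_num) (by norm_num)]
  congr 1
  rw [Real.sqrt_eq_rpow]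
  norm_num

theorem stepA {G : ℝ → E →L[ℂ] E} (hG : IsAP G) {p : ℝ} (hp : 1 < p) {K : ℝ} (hK : 0 < K)
    (hBB : BB (ENNReal.ofReal p) G K) : ∃ K' : ℝ, 0 < K' ∧ BB 2 G K' := by
  obtain ⟨M₀, hM₀⟩ := B1.IsAP_bounded hG
  have hGc : Continuous G := (B1.IsAP_uniformContinuous hG).continuous
  set M : ℝ := max M₀ 0 + 1 with hMdef
  have hM : ∀ t, ‖G t‖ ≤ M := fun t => (hM₀ t).trans
    ((le_max_left _ _).trans (by linarith [le_max_right M₀ 0]))
  have hp1 := one_lt_ofReal hp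
  have hp2 : ENNReal.ofReal p ≠ ⊤ := ENNReal.ofReal_ne_top
  obtain ⟨κ, hκ, hkh⟩ := D1.khinchine_ext (E := E) (fun p hp => J5.khinchine p hp) hp.le
  obtain ⟨C, hC, hR, hriesz, hR', hd, hd'⟩ := riesz_pkg E hp
  set ε : ℝ := 1 / (4 * (κ * K * (κ * C))) with hεdef
  have hε : 0 < ε := by positivity
  have hεK : κ * K * (κ * C) * (2 * ε) ≤ 1 / 2 := by
    rw [hεdef]; apply le_of_eq; field_simp; norm_num
  obtain ⟨m, η₀, hm, hη₀, hmany⟩ := B1.many_almost_periods hG hε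
  obtain ⟨C', hC', hav⟩ := D2.averaging hp hm (by positivity : 0 ≤ (2 * κ * K) ^ p)
  set Q : ℝ := Real.sqrt C' with hQ
  have hQ0 : 0 ≤ Q := Real.sqrt_nonneg _
  set ε' : ℝ := min (min 1 ε) (1 / (2 * (Q + 1))) with hε'def
  have hε' : 0 < ε' := by
    simp only [hε'def, lt_min_iff]
    exact ⟨⟨one_pos, hε⟩, by positivity⟩
  have hε'1 : ε' ≤ 1 := (min_le_left _ _).trans (min_le_left _ _)
  have hε'ε : ε' ≤ ε := (min_le_left _ _).trans (min_le_right _ _)
  have hε'Q : Q * ε' ≤ 1 / 2 := by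
    have h1 : ε' ≤ 1 / (2 * (Q + 1)) := min_le_right _ _
    have h2 : (Q + 1) * (1 / (2 * (Q + 1))) = 1 / 2 := by field_simp
    nlinarith
  refine ⟨2 * (Q + 1), by positivity, ?_⟩
  refine F3.BB2_of_dense (fun _ hf => decomp hf)
    (fun _ _ hf hg => A3.Hm_sub (by norm_num) (by norm_num) hf hg)
    (fun _ _ hf hg => A3.Hp_sub (by norm_num) (by norm_num) hf hg)
    (fun u v hu hv => (E1.norm_Hm_le (fun _ _ hu hv => orth hu hv) hu hv).1)
    (fun _ hf _ hε => dense_cauchy_Hm hf hε)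
    (fun s c hs => Hm_csum (by norm_num) (by norm_num) s c hs) hGc hM (by positivity) ?_
  intro s c hs w hw hw'
  change eLpNorm (csum s c) 2 volume ≤ _
  change Hp 2 (fun t : ℝ => G t (csum s c t) - w t) at hw'
  obtain ⟨A, ⟨sA, a, ha⟩, hGA⟩ := hG ε' hε'
  have hAeq : A = fun t : ℝ => ∑ l ∈ sA, Complex.exp (Complex.I * l * t) • a l := funext ha
  have hAc : Continuous A := by
    rw [hAeq]
    refine continuous_finsetSum _ fun l _ => ?_
    exact Continuous.smul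
      (by fun_prop : Continuous fun t : ℝ => Complex.exp (Complex.I * l * t)) continuous_const
  have hAM : ∀ t, ‖A t‖ ≤ M := by
    intro t
    calc ‖A t‖ = ‖G t - (G t - A t)‖ := by congr 1; abel
      _ ≤ ‖G t‖ + ‖G t - A t‖ := norm_sub_le _ _
      _ ≤ max M₀ 0 + 1 := add_le_add ((hM₀ t).trans (le_max_left _ _)) ((hGA t).trans hε'1)
  set f : ℝ → E := csum s c with hf
  set F : ℝ → E := imF sA a s c with hF
  have hfm : ∀ r : ℝ≥0∞, 1 < r → r ≠ ⊤ → Hm r f := fun r h1 h2 => Hm_csum h1 h2 s c hs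
  have hFm : ∀ r : ℝ≥0∞, 1 < r → r ≠ ⊤ → Hm r F := fun r h1 h2 => Hm_imF h1 h2 sA a s c hs
  have hAF : ∀ r : ℝ≥0∞, 1 < r → r ≠ ⊤ → Hp r (fun t => A t (f t) - F t) := by
    intro r h1 h2
    rw [hAeq]
    exact Hp_imF h1 h2 sA a s c hs
  -- decay
  obtain ⟨D₁, hD₁, hc₁, hb₁, hl₁⟩ := F1.nice_sq s (fun _ : ℂ => (0 : ℝ)) (fun b => b) c
    (fun b hb => (hs b hb).ne') f (fun t => by simp [hf, csum])
  obtain ⟨D₂, hD₂, hc₂, hb₂, hl₂⟩ := F1.nice_sq (sA ×ˢ s) lE (fun i => i.2) (xE a c)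
    (fun i hi => (hs _ (Finset.mem_product.1 hi).2).ne') F (fun t => rfl)
  have key : ∫ t, ‖f t‖ ^ 2 ≤ C' * ∫ t, ‖F t‖ ^ 2 := by
    refine hav (fun t => ‖f t‖ ^ 2) (fun t => ‖F t‖ ^ 2) (D₁ + D₂) η₀ hη₀ hc₁ hc₂ ?_ ?_ ?_ ?_ ?_
    · intro t
      refine ⟨by positivity, (hb₁ t).trans ?_⟩
      gcongr; linarith
    · intro t
      refine ⟨by positivity, (hb₂ t).trans ?_⟩
      gcongr; linarith
    · intro x y hxy
      refine (hl₁ x y hxy).trans ?_
      gcongr; linarith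
    · intro x y hxy
      refine (hl₂ x y hxy).trans ?_
      gcongr; linarith
    · intro η hη hηη
      obtain ⟨R₀, hR₀⟩ := hmany η hη hηη
      refine ⟨R₀, fun R hR => ?_⟩
      obtain ⟨S, hS, hcard⟩ := hR₀ R hR
      refine ⟨S, fun k hk => (hS k hk).1, hcard, ?_⟩
      refine F1.to_lintegral hp (by positivity) S f F fun N h hh => ?_
      refine D1.stepA_transfer hp (fun _ _ hf hg => A3.Hm_add hp1 hp2 hf hg)
        (fun _ _ hf hg => A3.Hp_add hp1 hp2 hf hg)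
        (fun c f hf => A3.Hm_clm hp1 hp2 hf (c • (1 : E →L[ℂ] E)))
        (fun c f hf => A3.Hp_clm hp1 hp2 hf (c • (1 : E →L[ℂ] E)))
        (fun f h hf => A3.Hm_translate hf h) (fun f h hf => A3.Hp_translate hf h)
        hκ hkh hC hriesz (fun u v hu hv => (hR' u v hu hv).1) hGc hM hAc hAM hK hBB
        (hfm _ hp1 hp2) (hFm _ hp1 hp2) (hAF _ hp1 hp2) hε.le hεK
        (fun t => (hGA t).trans hε'ε) h (fun j t => ?_)
      obtain ⟨k, hk, e⟩ := hh j
      rw [e]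
      exact (hS k hk).2 t
  have h2 : (1 : ℝ≥0∞) < 2 := by norm_num
  have h2' : (2 : ℝ≥0∞) ≠ ⊤ := by norm_num
  have hf2 : MemLp f 2 volume := (hfm 2 h2 h2').1
  have hF2 : MemLp F 2 volume := (hFm 2 h2 h2').1
  have hfF : eLpNorm f 2 volume ≤ ENNReal.ofReal Q * eLpNorm F 2 volume := by
    rw [eLpNorm_two_eq hf2, eLpNorm_two_eq hF2, ← ENNReal.ofReal_mul hQ0]
    apply ENNReal.ofReal_le_ofReal
    rw [hQ, ← Real.sqrt_mul hC']
    exact Real.sqrt_le_sqrt key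
  have hFw : eLpNorm (fun t => F t - w t) 2 volume ≤ ENNReal.ofReal ε' * eLpNorm f 2 volume := by
    have hu : Hm 2 (fun t => F t - w t) := A3.Hm_sub h2 h2' (hFm 2 h2 h2') hw
    have hv : Hp 2 (fun t => (A t (f t) - F t) - (G t (f t) - w t)) :=
      A3.Hp_sub h2 h2' (hAF 2 h2 h2') hw'
    refine (E1.norm_Hm_le (fun _ _ hu hv => orth hu hv) hu hv).1.trans ?_
    have : (ENNReal.ofReal ε') = ((ε'.toNNReal : ℝ≥0) : ℝ≥0∞) := rfl
    rw [this]
    apply eLpNorm_le_nnreal_smul_eLpNorm_of_ae_le_mul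
    refine Eventually.of_forall fun t => ?_
    have e1 : F t - w t + (A t (f t) - F t - (G t (f t) - w t)) = (A t - G t) (f t) := by
      rw [ContinuousLinearMap.sub_apply]; abel
    rw [e1]
    have e2 : ‖(A t - G t) (f t)‖ ≤ ε' * ‖f t‖ := by
      refine ((A t - G t).le_opNorm _).trans ?_
      gcongr
      rw [norm_sub_rev]
      exact hGA t
    rw [← NNReal.coe_le_coe]
    simpa [Real.coe_toNNReal _ hε'.le] using e2
  have htri : eLpNorm F 2 volume ≤ eLpNorm w 2 volume + eLpNorm (fun t => F t - w t) 2 volume := by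
    have hsub : MemLp (fun t => F t - w t) 2 volume := hF2.sub hw.1
    have : F = w + fun t => F t - w t := by funext t; simp
    calc eLpNorm F 2 volume = eLpNorm (w + fun t => F t - w t) 2 volume := by rw [← this]
      _ ≤ _ := eLpNorm_add_le hw.1.1 hsub.1 (by norm_num)
  -- conclude in the reals
  have hfin : eLpNorm f 2 volume ≠ ⊤ := hf2.2.ne
  have hwfin : eLpNorm w 2 volume ≠ ⊤ := hw.1.2.ne
  have h3 : eLpNorm f 2 volume ≤ ENNReal.ofReal Q * (eLpNorm w 2 volume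
      + ENNReal.ofReal ε' * eLpNorm f 2 volume) := by
    refine hfF.trans ?_
    gcongr
    exact htri.trans (by gcongr)
  set X : ℝ := (eLpNorm f 2 volume).toReal with hX
  set Y : ℝ := (eLpNorm w 2 volume).toReal with hY
  have hXe : eLpNorm f 2 volume = ENNReal.ofReal X := (ENNReal.ofReal_toReal hfin).symm
  have hYe : eLpNorm w 2 volume = ENNReal.ofReal Y := (ENNReal.ofReal_toReal hwfin).symm
  have hX0 : 0 ≤ X := ENNReal.toReal_nonneg
  have hY0 : 0 ≤ Y := ENNReal.toReal_nonneg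
  rw [hXe, hYe] at h3
  rw [hXe, hYe]
  rw [← ENNReal.ofReal_mul hε'.le, ← ENNReal.ofReal_add hY0 (by positivity),
    ← ENNReal.ofReal_mul hQ0, ENNReal.ofReal_le_ofReal_iff (by positivity)] at h3
  rw [← ENNReal.ofReal_mul (by positivity)]
  apply ENNReal.ofReal_le_ofReal
  nlinarith

end Pool.Agent.Helper865.TAP
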