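import Pool.Agent.Helper865.TAP.Fact
import Pool.Agent.Helper865.TAP.E1

set_option autoImplicit false

open MeasureTheory Filter Topology Set Metric
open scoped ENNReal NNReal

namespace Pool.Agent.Helper865.TAP

variable {E : Type*} [NormedAddCommGroup E] [InnerProductSpace ℂ E] [FiniteDimensional ℂ E]

theorem radius_le_of_ball_subset {c ρ c' ρ' : ℝ} (hρ' : 0 < ρ') (h : ball c' ρ' ⊆ ball c ρ) :
    ρ' ≤ ρ := by
  have h1 : volume (ball c' ρ') ≤ volume (ball c ρ) := measure_mono h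
  rw [Real.volume_ball, Real.volume_ball] at h1
  rcases le_or_gt ρ 0 with hρ | hρ
  · rw [ENNReal.ofReal_of_nonpos (by linarith : 2 * ρ ≤ 0)] at h1
    have : ENNReal.ofReal (2 * ρ') = 0 := le_antisymm h1 bot_le
    rw [ENNReal.ofReal_eq_zero] at this
    linarith
  · rw [ENNReal.ofReal_le_ofReal_iff (by linarith)] at h1
    linarith

theorem lintegral_ball_le_Mx (r₀ : ℝ) (F : ℝ → ℝ≥0∞) {c t ρ : ℝ} (hρ : 0 < ρ) (hr : r₀ ≤ ρ)
    (ht : t ∈ ball c ρ) :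
    ∫⁻ s in ball c ρ, F s ≤ Mx r₀ F t * ENNReal.ofReal (2 * ρ) := by
  have h1 : (∫⁻ s in ball c ρ, F s) / ENNReal.ofReal (2 * ρ) ≤ Mx r₀ F t := by
    unfold Mx
    exact le_iSup_of_le c (le_iSup_of_le ρ (le_iSup_of_le hρ (le_iSup_of_le hr
      (le_iSup_of_le ht le_rfl))))
  have hne : ENNReal.ofReal (2 * ρ) ≠ 0 := by
    rw [Ne, ENNReal.ofReal_eq_zero]; linarith
  calc ∫⁻ s in ball c ρ, F s
      = (∫⁻ s in ball c ρ, F s) / ENNReal.ofReal (2 * ρ) * ENNReal.ofReal (2 * ρ) := by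
        rw [ENNReal.div_mul_cancel hne ENNReal.ofReal_ne_top]
    _ ≤ _ := by gcongr

/-- large scale step -/
theorem large_scale {G : ℝ → E →L[ℂ] E} (hG : IsAP G)
    (hsa : ∀ t, ContinuousLinearMap.adjoint (G t) = G t) {K : ℝ} (hK : 0 < K) (hBB : BB 2 G K)
    {q : ℝ} (hq : 1 < q) :
    ∃ (r : ℝ) (C : ℝ≥0∞), 0 < r ∧ C ≠ ⊤ ∧ ∀ u v : ℝ → E, Hm 2 u → Hp 2 v →
      ∫⁻ t, (Mx r (fun s => ‖u s‖ₑ ^ 2 + ‖v s‖ₑ ^ 2) t) ^ q
        ≤ C * ∫⁻ t, (Mx 0 (fun s => ‖G s (u s) + v s‖ₑ ^ 2) t) ^ q := by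
  obtain ⟨M₀, hM₀⟩ := B1.IsAP_bounded hG
  have hGc : Continuous G := (B1.IsAP_uniformContinuous hG).continuous
  set M : ℝ := max M₀ 0 with hMdef
  have hM0 : 0 ≤ M := le_max_right _ _
  have hM : ∀ t, ‖G t‖ ≤ M := fun t => (hM₀ t).trans (le_max_left _ _)
  obtain ⟨C, hC, hfac⟩ := exists_fac E (2 * K) (M + 1) (by linarith) (by linarith)
  set Kl : ℝ := max (2 * K) (1 + (M + 1) * (2 * K)) with hKl
  obtain ⟨C0, hC0, hloc⟩ := local_lemma E Kl C 1 (by positivity) hC.le zero_le_one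
  obtain ⟨η, hη, hgl⟩ := good_lambda hq hC0
  -- choice of δ and γ
  set δ : ℝ := min (min 1 (1 / (2 * K))) (min 1 (η / (2 * C0))) with hδdef
  have hC0' : 0 < C0 := by linarith
  have hδ0 : 0 < δ := by
    simp only [hδdef, lt_min_iff]
    refine ⟨⟨one_pos, by positivity⟩, one_pos, by positivity⟩
  have hδ1 : δ ≤ 1 := (min_le_left _ _).trans (min_le_left _ _)
  have hδK : K * δ ≤ 1 / 2 := by
    have : δ ≤ 1 / (2 * K) := (min_le_left _ _).trans (min_le_right _ _)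
    calc K * δ ≤ K * (1 / (2 * K)) := by gcongr
      _ = 1 / 2 := by field_simp
  have hδη : δ ≤ η / (2 * C0) := (min_le_right _ _).trans (min_le_right _ _)
  have hsum : C0 * (δ + δ ^ 2) ≤ η := by
    have h1 : δ ^ 2 ≤ δ := by nlinarith
    have h2 : C0 * (δ + δ ^ 2) ≤ C0 * (2 * δ) := by
      apply mul_le_mul_of_nonneg_left _ hC0'.le
      linarith
    have h3 : C0 * (2 * δ) ≤ C0 * (2 * (η / (2 * C0))) := by gcongr
    have h4 : C0 * (2 * (η / (2 * C0))) = η := by field_simp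
    linarith
  obtain ⟨s, A, hs, hsym, hGA⟩ := B1.exists_selfadjoint_approx hG hsa hδ0
  set At : ℝ → E →L[ℂ] E := fun t : ℝ => ∑ l ∈ s, Complex.exp (Complex.I * l * t) • A l with hAt
  have hAtc : Continuous At := by
    rw [hAt]
    refine continuous_finsetSum _ fun l _ => ?_
    exact Continuous.smul
      (by fun_prop : Continuous fun t : ℝ => Complex.exp (Complex.I * l * t)) continuous_const
  have hAtM : ∀ t, ‖At t‖ ≤ M + 1 := by
    intro t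
    have h1 := hGA t
    have h2 := hM t
    calc ‖At t‖ = ‖G t - (G t - At t)‖ := by congr 1; abel
      _ ≤ ‖G t‖ + ‖G t - At t‖ := norm_sub_le _ _
      _ ≤ M + δ := by gcongr
      _ ≤ M + 1 := by linarith
  have hAtsa : ∀ t, ContinuousLinearMap.adjoint (At t) = At t := by
    intro t
    exact B8.adj_poly s A hs hsym t
  have hBBA : BB 2 At (2 * K) :=
    E1.BB_perturb (fun _ _ hu hv => orth hu hv) (fun _ hf => decomp hf)
      (fun _ _ hf hg => A3.Hm_sub (by norm_num) (by norm_num) hf hg)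
      (fun _ _ hf hg => A3.Hp_sub (by norm_num) (by norm_num) hf hg) hGc hM hK
      (fun t => hGA t) hδK hBB
  obtain ⟨r, hr, N, V, N', V', hF⟩ := hfac s A hs hsym hAtM hBBA
  obtain ⟨C1, hC1, hgl1⟩ := hgl δ hδ0
  refine ⟨r, C1, hr, hC1, fun u v hu hv => ?_⟩
  set F : ℝ → ℝ≥0∞ := fun s => ‖u s‖ₑ ^ 2 + ‖v s‖ₑ ^ 2 with hFdef
  set H : ℝ → ℝ≥0∞ := fun s => ‖G s (u s) + v s‖ₑ ^ 2 with hHdef
  have hFm : AEMeasurable F volume := by
    exact (hu.1.1.enorm.pow_const 2).add (hv.1.1.enorm.pow_const 2)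
  have hFi : ∫⁻ t, F t ≠ ⊤ := by
    rw [hFdef]
    rw [lintegral_add_left' (hu.1.1.enorm.pow_const 2)]
    have h2 : ∀ w : ℝ → E, MemLp w 2 volume → ∫⁻ t, ‖w t‖ₑ ^ 2 ≠ ⊤ := by
      intro w hw
      have := lintegral_rpow_enorm_lt_top_of_eLpNorm_lt_top (p := 2) (by norm_num) (by norm_num)
        hw.2
      simp only [ENNReal.toReal_ofNat] at this
      have h3 : ∫⁻ t, ‖w t‖ₑ ^ 2 = ∫⁻ t, ‖w t‖ₑ ^ (2 : ℝ) := by
        congr 1; funext t; rw [← ENNReal.rpow_natCast]; norm_num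
      rw [h3]; exact this.ne
    exact ENNReal.add_ne_top.2 ⟨h2 u hu.1, h2 v hv.1⟩
  refine hgl1 r hr.le F hFm hFi (Mx 0 H) (J3.measurable_Mx 0 H) ?_
  intro c ρ hρ l hl hball hD
  rcases lt_or_ge ρ r with hρr | hρr
  · refine ⟨fun _ => 0, by simp, fun c' ρ' hρ' hr' hsub => ?_⟩
    exact absurd (radius_le_of_ball_subset hρ' hsub) (by linarith)
  obtain ⟨X, hX1, hX2⟩ := hloc G At N V N' V' r hGc ⟨M, hM⟩ hAtc hAtsa hF
    (fun h hh => by
      obtain ⟨a, b, ha, hb, hab, h1, h2⟩ := solve_sa hAtc hAtM hAtsa (by linarith : 0 ≤ 2 * K)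
        hBBA hh
      refine ⟨a, b, ha, hb, hab, h1.trans ?_, h2.trans ?_⟩
      · gcongr; exact le_max_left _ _
      · gcongr; exact le_max_right _ _) u v hu hv c ρ l δ δ hρ hρr hl hδ0.le hδ1 hδ0.le hδ1
    (fun t _ => hGA t) (fun t => (hGA t).trans hδ1)
    (fun ρ' hρ' => hball c ρ' (ball_subset_ball hρ') (hρr.trans hρ'))
    (fun ρ' hρ' => by
      have hpos : 0 < ρ' := hρ.trans_le hρ'
      calc ∫⁻ s in ball c ρ', ‖G s (u s) + v s‖ₑ ^ 2
          ≤ Mx 0 H c * ENNReal.ofReal (2 * ρ') :=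
            lintegral_ball_le_Mx 0 H hpos hpos.le (mem_ball_self hpos)
        _ ≤ ENNReal.ofReal (δ * l) * ENNReal.ofReal (2 * ρ') := by gcongr
        _ = ENNReal.ofReal (δ * l * (2 * ρ')) := by
            rw [← ENNReal.ofReal_mul (by positivity)])
  refine ⟨X, hX1.trans (ENNReal.ofReal_le_ofReal ?_), hX2⟩
  have : C0 * (δ + δ ^ 2) * l * (2 * ρ) ≤ η * l * (2 * ρ) := by gcongr
  exact this

end Pool.Agent.Helper865.TAP
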