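import Pool.Agent.Helper865.TAP.ThmB

set_option autoImplicit false

open MeasureTheory Filter Topology Set Metric
open scoped ENNReal NNReal

namespace Pool.Agent.Helper865.TAP

variable {E : Type*} [NormedAddCommGroup E] [InnerProductSpace ℂ E] [FiniteDimensional ℂ E]

theorem lintegral_sq_ne_top {w : ℝ → E} (hw : MemLp w 2 volume) : ∫⁻ t, ‖w t‖ₑ ^ 2 ≠ ⊤ := by
  have := lintegral_rpow_enorm_lt_top_of_eLpNorm_lt_top (p := 2) (by norm_num) (by norm_num) hw.2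
  simp only [ENNReal.toReal_ofNat] at this
  have h3 : ∫⁻ t, ‖w t‖ₑ ^ 2 = ∫⁻ t, ‖w t‖ₑ ^ (2 : ℝ) := by
    congr 1; funext t; rw [← ENNReal.rpow_natCast]; norm_num
  rw [h3]; exact this.ne

/-- small scale step -/
theorem small_scale {G : ℝ → E →L[ℂ] E} (hG : IsAP G)
    (hsa : ∀ t, ContinuousLinearMap.adjoint (G t) = G t) {K : ℝ} (hK : 0 < K) (hBB : BB 2 G K)
    {q : ℝ} (hq : 1 < q) {r : ℝ} (hr : 0 < r) :
    ∃ (C : ℝ≥0∞), C ≠ ⊤ ∧ ∀ u v : ℝ → E, Hm 2 u → Hp 2 v →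
      ∫⁻ t, (Mx 0 (fun s => ‖u s‖ₑ ^ 2 + ‖v s‖ₑ ^ 2) t) ^ q
        ≤ C * ∫⁻ t, (Mx 0 (fun s => ‖G s (u s) + v s‖ₑ ^ 2) t
          + Mx r (fun s => ‖u s‖ₑ ^ 2 + ‖v s‖ₑ ^ 2) t) ^ q := by
  obtain ⟨M₀, hM₀⟩ := B1.IsAP_bounded hG
  have hGu := B1.IsAP_uniformContinuous hG
  have hGc : Continuous G := hGu.continuous
  set M : ℝ := max M₀ 0 with hMdef
  have hM0 : 0 ≤ M := le_max_right _ _
  have hM : ∀ t, ‖G t‖ ≤ M := fun t => (hM₀ t).trans (le_max_left _ _)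
  obtain ⟨C0, hC0, hloc⟩ := local_lemma E (K + 1) (1 + K ^ 2 + M ^ 2) (2 * M) (by positivity)
    (by positivity) (by positivity)
  obtain ⟨η, hη, hgl⟩ := good_lambda hq hC0
  set δ : ℝ := min 1 (η / (2 * C0)) with hδdef
  have hC0' : 0 < C0 := by linarith
  have hδ0 : 0 < δ := by
    simp only [hδdef, lt_min_iff]
    exact ⟨one_pos, by positivity⟩
  have hδ1 : δ ≤ 1 := min_le_left _ _
  have hδη : δ ≤ η / (2 * C0) := min_le_right _ _
  have hsum : C0 * (δ + δ ^ 2) ≤ η := by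
    have h1 : δ ^ 2 ≤ δ := by nlinarith
    have h2 : C0 * (δ + δ ^ 2) ≤ C0 * (2 * δ) := by
      apply mul_le_mul_of_nonneg_left _ hC0'.le
      linarith
    have h3 : C0 * (2 * δ) ≤ C0 * (2 * (η / (2 * C0))) := by gcongr
    have h4 : C0 * (2 * (η / (2 * C0))) = η := by field_simp
    linarith
  obtain ⟨r₁, hr₁, hunif⟩ := Metric.uniformContinuous_iff.1 hGu δ hδ0
  set r₀ : ℝ := r₁ / 16 with hr₀def
  have hr₀ : 0 < r₀ := by positivity
  set γ : ℝ := min δ (η * r₀ / (r + r₀)) with hγdef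
  have hγ0 : 0 < γ := by
    simp only [hγdef, lt_min_iff]
    exact ⟨hδ0, by positivity⟩
  have hγδ : γ ≤ δ := min_le_left _ _
  have hγη : γ ≤ η * r₀ / (r + r₀) := min_le_right _ _
  have hγη1 : γ ≤ η := hγη.trans (by
    rw [div_le_iff₀ (by positivity)]
    nlinarith)
  have hγη2 : γ * (r / r₀) ≤ η := by
    calc γ * (r / r₀) ≤ (η * r₀ / (r + r₀)) * (r / r₀) := by gcongr
      _ = η * (r / (r + r₀)) := by field_simp
      _ ≤ η * 1 := by
        gcongr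
        rw [div_le_one (by positivity)]
        linarith
      _ = η := mul_one _
  obtain ⟨C1, hC1, hgl1⟩ := hgl γ hγ0
  refine ⟨C1, hC1, fun u v hu hv => ?_⟩
  set F : ℝ → ℝ≥0∞ := fun s => ‖u s‖ₑ ^ 2 + ‖v s‖ₑ ^ 2 with hFdef
  set H : ℝ → ℝ≥0∞ := fun s => ‖G s (u s) + v s‖ₑ ^ 2 with hHdef
  have hFm : AEMeasurable F volume := by
    exact (hu.1.1.enorm.pow_const 2).add (hv.1.1.enorm.pow_const 2)
  have hFi : ∫⁻ t, F t ≠ ⊤ := by
    rw [hFdef]
    rw [lintegral_add_left' (hu.1.1.enorm.pow_const 2)]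
    exact ENNReal.add_ne_top.2 ⟨lintegral_sq_ne_top hu.1, lintegral_sq_ne_top hv.1⟩
  refine hgl1 0 le_rfl F hFm hFi (fun t => Mx 0 H t + Mx r F t)
    ((J3.measurable_Mx 0 H).add (J3.measurable_Mx r F)) ?_
  intro c ρ hρ l hl hball hD
  have hDH : Mx 0 H c ≤ ENNReal.ofReal (γ * l) := le_self_add.trans hD
  have hDF : Mx r F c ≤ ENNReal.ofReal (γ * l) := le_add_self.trans hD
  rcases lt_or_ge ρ r₀ with hρr | hρr
  · -- small balls
    have hsa' := hsa c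
    obtain ⟨N, V, N', V', hF⟩ := E1.fac_const
      (fun f hf L => A3.Hm_clm (by norm_num) (by norm_num) hf L) hsa' hK (hM c)
      (fun x => pointwise_lower hGc hM hK.le hBB c x)
    obtain ⟨X, hX1, hX2⟩ := hloc G (fun _ => G c) N V N' V' 0 hGc ⟨M, hM⟩ continuous_const
      (fun _ => hsa c) hF
      (fun h hh => E1.solve_const (fun _ _ hu hv => orth hu hv) (fun _ hf => decomp hf)
        (fun f hf L => A3.Hm_clm (by norm_num) (by norm_num) hf L) hK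
        (fun x => pointwise_lower hGc hM hK.le hBB c x) h hh)
      u v hu hv c ρ l δ δ hρ hρ.le hl hδ0.le hδ1 hδ0.le hδ1
      (fun t ht => by
        have h1 : dist t c < r₁ := by
          have := mem_ball.1 ht
          have : 16 * ρ < 16 * r₀ := by linarith
          have h3 : 16 * r₀ = r₁ := by rw [hr₀def]; ring
          linarith
        have := (hunif h1).le
        rwa [dist_eq_norm] at this)
      (fun t => by
        calc ‖G t - G c‖ ≤ ‖G t‖ + ‖G c‖ := norm_sub_le _ _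
          _ ≤ M + M := add_le_add (hM t) (hM c)
          _ = 2 * M := by ring)
      (fun ρ' hρ' => hball c ρ' (ball_subset_ball hρ') (hρ.le.trans hρ'))
      (fun ρ' hρ' => by
        have hpos : 0 < ρ' := hρ.trans_le hρ'
        calc ∫⁻ s in ball c ρ', ‖G s (u s) + v s‖ₑ ^ 2
            ≤ Mx 0 H c * ENNReal.ofReal (2 * ρ') :=
              lintegral_ball_le_Mx 0 H hpos hpos.le (mem_ball_self hpos)
          _ ≤ ENNReal.ofReal (γ * l) * ENNReal.ofReal (2 * ρ') := by gcongr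
          _ = ENNReal.ofReal (γ * l * (2 * ρ')) := by
              rw [← ENNReal.ofReal_mul (by positivity)]
          _ ≤ ENNReal.ofReal (δ * l * (2 * ρ')) := by gcongr)
    refine ⟨X, hX1.trans (ENNReal.ofReal_le_ofReal ?_), hX2⟩
    gcongr
  · -- large balls
    refine ⟨F, ?_, fun c' ρ' _ _ _ => le_add_self⟩
    rcases le_or_gt r ρ with h | h
    · calc ∫⁻ s in ball c ρ, F s ≤ Mx r F c * ENNReal.ofReal (2 * ρ) :=
            lintegral_ball_le_Mx r F hρ h (mem_ball_self hρ)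
        _ ≤ ENNReal.ofReal (γ * l) * ENNReal.ofReal (2 * ρ) := by gcongr
        _ = ENNReal.ofReal (γ * l * (2 * ρ)) := by rw [← ENNReal.ofReal_mul (by positivity)]
        _ ≤ _ := by gcongr
    · calc ∫⁻ s in ball c ρ, F s ≤ ∫⁻ s in ball c r, F s :=
            lintegral_mono_set (ball_subset_ball h.le)
        _ ≤ Mx r F c * ENNReal.ofReal (2 * r) :=
            lintegral_ball_le_Mx r F hr le_rfl (mem_ball_self hr)
        _ ≤ ENNReal.ofReal (γ * l) * ENNReal.ofReal (2 * r) := by gcongr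
        _ = ENNReal.ofReal (γ * l * (2 * r)) := by rw [← ENNReal.ofReal_mul (by positivity)]
        _ ≤ _ := by
          apply ENNReal.ofReal_le_ofReal
          have h1 : γ * l * (2 * r) = (γ * (r / r₀)) * l * (2 * r₀) := by field_simp
          rw [h1]
          gcongr

theorem eLpNorm_eq_sq {w : ℝ → E} {p : ℝ} (hp : 2 < p) :
    eLpNorm w (ENNReal.ofReal p) volume
      = (∫⁻ t, (‖w t‖ₑ ^ 2) ^ (p / 2)) ^ (1 / p) := by
  rw [eLpNorm_eq_lintegral_rpow_enorm_toReal (by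
    rw [Ne, ENNReal.ofReal_eq_zero]; linarith) ENNReal.ofReal_ne_top]
  rw [ENNReal.toReal_ofReal (by linarith)]
  congr 1
  apply lintegral_congr
  intro t
  rw [← ENNReal.rpow_natCast, ← ENNReal.rpow_mul]
  congr 1
  push_cast
  ring

theorem thmB_gt {G : ℝ → E →L[ℂ] E} (hG : IsAP G)
    (hsa : ∀ t, ContinuousLinearMap.adjoint (G t) = G t) {K : ℝ} (hK : 0 < K) (hBB : BB 2 G K)
    {p : ℝ} (hp : 2 < p) :
    ∃ C : ℝ, 0 < C ∧ ∀ u v : ℝ → E, Hm 2 u → Hp 2 v →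
      eLpNorm u (ENNReal.ofReal p) volume
        ≤ ENNReal.ofReal C * eLpNorm (fun t => G t (u t) + v t) (ENNReal.ofReal p) volume := by
  have hq : 1 < p / 2 := by linarith
  obtain ⟨r, C1, hr, hC1, h1⟩ := large_scale hG hsa hK hBB hq
  obtain ⟨C2, hC2, h2⟩ := small_scale hG hsa hK hBB hq hr
  obtain ⟨C3, hC3, h3⟩ := J3.strong_Mx hq
  have hGc : Continuous G := (B1.IsAP_uniformContinuous hG).continuous
  set Q : ℝ≥0∞ := C2 * ((2 : ℝ≥0∞) ^ (p / 2 - 1) * (1 + C1)) * C3 with hQ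
  have hQt : Q ≠ ⊤ := by
    rw [hQ]
    refine ENNReal.mul_ne_top (ENNReal.mul_ne_top hC2 (ENNReal.mul_ne_top ?_ ?_)) hC3
    · exact ENNReal.rpow_ne_top_of_nonneg (by linarith) (by norm_num)
    · exact ENNReal.add_ne_top.2 ⟨ENNReal.one_ne_top, hC1⟩
  refine ⟨(Q ^ (1 / p)).toReal + 1, by positivity, fun u v hu hv => ?_⟩
  set F : ℝ → ℝ≥0∞ := fun s => ‖u s‖ₑ ^ 2 + ‖v s‖ₑ ^ 2 with hFdef
  set H : ℝ → ℝ≥0∞ := fun s => ‖G s (u s) + v s‖ₑ ^ 2 with hHdef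
  have hFm : AEMeasurable F volume := by
    exact (hu.1.1.enorm.pow_const 2).add (hv.1.1.enorm.pow_const 2)
  have hFi : ∫⁻ t, F t ≠ ⊤ := by
    rw [hFdef]
    rw [lintegral_add_left' (hu.1.1.enorm.pow_const 2)]
    exact ENNReal.add_ne_top.2 ⟨lintegral_sq_ne_top hu.1, lintegral_sq_ne_top hv.1⟩
  have hHm : AEMeasurable H volume := by
    obtain ⟨M₀, hM₀⟩ := B1.IsAP_bounded hG
    have hm : AEStronglyMeasurable (fun s => G s (u s) + v s) volume :=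
      ((A7.memLp_app hGc hM₀ hu.1).1).add hv.1.1
    exact hm.enorm.pow_const 2
  have hmain : ∫⁻ t, (F t) ^ (p / 2) ≤ Q * ∫⁻ t, (H t) ^ (p / 2) := by
    calc ∫⁻ t, (F t) ^ (p / 2) ≤ ∫⁻ t, (Mx 0 F t) ^ (p / 2) := by
          apply lintegral_mono_ae
          filter_upwards [J3.le_Mx_ae F hFm hFi] with t ht
          gcongr
      _ ≤ C2 * ∫⁻ t, (Mx 0 H t + Mx r F t) ^ (p / 2) := h2 u v hu hv
      _ ≤ C2 * ∫⁻ t, (2 : ℝ≥0∞) ^ (p / 2 - 1) * ((Mx 0 H t) ^ (p / 2) + (Mx r F t) ^ (p / 2)) := by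
          gcongr with t
          exact ENNReal.rpow_add_le_mul_rpow_add_rpow _ _ (by linarith)
      _ = C2 * ((2 : ℝ≥0∞) ^ (p / 2 - 1) * ((∫⁻ t, (Mx 0 H t) ^ (p / 2))
            + ∫⁻ t, (Mx r F t) ^ (p / 2))) := by
          have hm1 : Measurable (fun t => (Mx 0 H t) ^ (p / 2)) :=
            (J3.measurable_Mx 0 H).pow_const _
          have hm2 : Measurable (fun t => (Mx 0 H t) ^ (p / 2) + (Mx r F t) ^ (p / 2)) :=
            hm1.add ((J3.measurable_Mx r F).pow_const _)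
          rw [lintegral_const_mul _ hm2, lintegral_add_left hm1]
      _ ≤ C2 * ((2 : ℝ≥0∞) ^ (p / 2 - 1) * ((∫⁻ t, (Mx 0 H t) ^ (p / 2))
            + C1 * ∫⁻ t, (Mx 0 H t) ^ (p / 2))) := by
          gcongr
          exact h1 u v hu hv
      _ = C2 * ((2 : ℝ≥0∞) ^ (p / 2 - 1) * (1 + C1)) * ∫⁻ t, (Mx 0 H t) ^ (p / 2) := by ring
      _ ≤ C2 * ((2 : ℝ≥0∞) ^ (p / 2 - 1) * (1 + C1)) * (C3 * ∫⁻ t, (H t) ^ (p / 2)) := by
          gcongr
          exact h3 H hHm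
      _ = Q * ∫⁻ t, (H t) ^ (p / 2) := by rw [hQ]; ring
  rw [eLpNorm_eq_sq hp, eLpNorm_eq_sq hp]
  calc (∫⁻ t, (‖u t‖ₑ ^ 2) ^ (p / 2)) ^ (1 / p)
      ≤ (∫⁻ t, (F t) ^ (p / 2)) ^ (1 / p) := by
        gcongr with t
        exact le_self_add
    _ ≤ (Q * ∫⁻ t, (H t) ^ (p / 2)) ^ (1 / p) := by gcongr
    _ = Q ^ (1 / p) * (∫⁻ t, (H t) ^ (p / 2)) ^ (1 / p) :=
        ENNReal.mul_rpow_of_nonneg _ _ (by positivity)
    _ ≤ ENNReal.ofReal ((Q ^ (1 / p)).toReal + 1) * (∫⁻ t, (H t) ^ (p / 2)) ^ (1 / p) := by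
        gcongr
        rw [ENNReal.ofReal_add ENNReal.toReal_nonneg zero_le_one,
          ENNReal.ofReal_toReal (ENNReal.rpow_ne_top_of_nonneg (by positivity) hQt)]
        exact le_self_add

end Pool.Agent.Helper865.TAP
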